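import Pool.Agent.Lib.H33B.Defs
import Pool.Agent.Lib.H59.SchinzelCount

/-!
# Chunk AC: the size of `argCount`
-/

open Finset Polynomial Filter Topology

namespace Pool.Agent.Lib.H33B

open Pool.Agent.Lib.H59 (argSet argCount argSet_eq argCount_tendsto eval_map_real)

theorem AC_ratio (G : ℤ[X]) :
    Tendsto (fun n : ℕ => ((G.eval (n : ℤ) : ℤ) : ℝ) / (n : ℝ) ^ G.natDegree) atTop
      (𝓝 (G.leadingCoeff : ℝ)) := by
  set P : ℝ[X] := G.map (Int.castRingHom ℝ) with hP
  have hinj : Function.Injective (Int.castRingHom ℝ) := RingHom.injective_int _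
  have hdeg : P.natDegree = G.natDegree := natDegree_map_eq_of_injective hinj _
  have hlc : P.leadingCoeff = (G.leadingCoeff : ℝ) := by
    rw [hP, leadingCoeff_map_of_injective hinj]
    simp
  have h1 : Tendsto (fun x : ℝ => P.eval x / x ^ P.natDegree) atTop (𝓝 P.leadingCoeff) := by
    have h2 := P.div_tendsto_atTop_leadingCoeff_div_of_degree_eq (X ^ P.natDegree : ℝ[X])
    by_cases hP0 : P = 0
    · rw [hP0]
      simp
    · have h3 : P.degree = (X ^ P.natDegree : ℝ[X]).degree := by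
        rw [degree_X_pow, degree_eq_natDegree hP0]
      have h4 := h2 h3
      simpa using h4
  have h5 := h1.comp (tendsto_natCast_atTop_atTop (R := ℝ))
  rw [hlc] at h5
  refine h5.congr fun n => ?_
  simp only [Function.comp_apply]
  rw [hdeg, hP, eval_map_real]

/-- `X(Y)^k / Y → 1/a` for `k = deg G`, `a = lc G`: for large `Y` the set `argSet G Y` is `[1, X]`
(`H59.argSet_eq`), so `G(X) < Y ≤ G(X+1)`, and `G(n)/n^k → a`, `X(Y) → ∞` (`H59.argCount_tendsto`). -/
theorem argCount_pow (G : ℤ[X]) (hk : 1 ≤ G.natDegree) (hl : 0 < G.leadingCoeff) :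
    Tendsto (fun Y : ℕ => (argCount G Y : ℝ) ^ G.natDegree / Y) atTop
      (𝓝 ((G.leadingCoeff : ℝ)⁻¹)) := by
  have hl' : (0 : ℝ) < G.leadingCoeff := by exact_mod_cast hl
  have hX := argCount_tendsto hk hl
  have hr := AC_ratio G
  have h1 : Tendsto (fun Y : ℕ => (Y : ℝ) / (argCount G Y : ℝ) ^ G.natDegree) atTop
      (𝓝 (G.leadingCoeff : ℝ)) := by
    have hlow : Tendsto (fun Y : ℕ => ((G.eval (argCount G Y : ℤ) : ℤ) : ℝ) /
        (argCount G Y : ℝ) ^ G.natDegree) atTop (𝓝 (G.leadingCoeff : ℝ)) := hr.comp hX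
    have hup : Tendsto (fun Y : ℕ => ((G.eval ((argCount G Y + 1 : ℕ) : ℤ) : ℤ) : ℝ) /
        ((argCount G Y + 1 : ℕ) : ℝ) ^ G.natDegree *
          (1 + 1 / (argCount G Y : ℝ)) ^ G.natDegree) atTop (𝓝 (G.leadingCoeff : ℝ)) := by
      have h2 : Tendsto (fun Y : ℕ => argCount G Y + 1) atTop atTop :=
        (tendsto_add_atTop_nat 1).comp hX
      have h3 := hr.comp h2
      have h4 : Tendsto (fun Y : ℕ => (1 + 1 / (argCount G Y : ℝ)) ^ G.natDegree) atTop (𝓝 1) := by
        have h5 : Tendsto (fun Y : ℕ => 1 / (argCount G Y : ℝ)) atTop (𝓝 0) :=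
          (tendsto_one_div_atTop_nhds_zero_nat (𝕜 := ℝ)).comp hX
        have h6 := (h5.const_add 1).pow G.natDegree
        simpa using h6
      have h7 := h3.mul h4
      rw [mul_one] at h7
      exact h7
    refine tendsto_of_tendsto_of_tendsto_of_le_of_le' hlow hup ?_ ?_
    · filter_upwards [argSet_eq hk hl, hX.eventually_ge_atTop 1] with Y hY h1
      have h2 : argCount G Y ∈ argSet G Y := by
        rw [hY]
        simp [h1]
      have h3 : G.eval (argCount G Y : ℤ) < Y := by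
        have := h2.2
        omega
      have h4 : ((G.eval (argCount G Y : ℤ) : ℤ) : ℝ) ≤ Y := by exact_mod_cast h3.le
      exact div_le_div_of_nonneg_right h4 (by positivity)
    · filter_upwards [argSet_eq hk hl, hX.eventually_ge_atTop 1] with Y hY h1
      have h1' : (0 : ℝ) < argCount G Y := by exact_mod_cast h1
      have h2 : argCount G Y + 1 ∉ argSet G Y := by
        rw [hY]
        simp
      have h3 : (Y : ℤ) ≤ G.eval ((argCount G Y + 1 : ℕ) : ℤ) := by
        by_contra h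
        exact h2 ⟨by omega, by omega⟩
      have h4 : (Y : ℝ) ≤ ((G.eval ((argCount G Y + 1 : ℕ) : ℤ) : ℤ) : ℝ) := by exact_mod_cast h3
      have h5 : (1 + 1 / (argCount G Y : ℝ)) ^ G.natDegree =
          ((argCount G Y + 1 : ℕ) : ℝ) ^ G.natDegree / (argCount G Y : ℝ) ^ G.natDegree := by
        rw [← div_pow]
        congr 1
        push_cast
        field_simp
      rw [h5]
      have h6 : (0 : ℝ) < ((argCount G Y + 1 : ℕ) : ℝ) ^ G.natDegree := by positivity
      calc (Y : ℝ) / (argCount G Y : ℝ) ^ G.natDegree ≤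
            ((G.eval ((argCount G Y + 1 : ℕ) : ℤ) : ℤ) : ℝ) / (argCount G Y : ℝ) ^ G.natDegree :=
            div_le_div_of_nonneg_right h4 (by positivity)
        _ = _ := by
            rw [div_mul_div_comm, mul_comm (((argCount G Y + 1 : ℕ) : ℝ) ^ G.natDegree),
              mul_div_mul_right _ _ h6.ne']
  have h2 := h1.inv₀ hl'.ne'
  refine h2.congr fun Y => ?_
  rw [inv_div]

/-- `log Y / log X(Y) → k`. -/
theorem argCount_log (G : ℤ[X]) (hk : 1 ≤ G.natDegree) (hl : 0 < G.leadingCoeff) :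
    Tendsto (fun Y : ℕ => Real.log Y / Real.log (argCount G Y)) atTop (𝓝 (G.natDegree : ℝ)) := by
  have hl' : (0 : ℝ) < G.leadingCoeff := by exact_mod_cast hl
  have hX := argCount_tendsto hk hl
  have hXr : Tendsto (fun Y : ℕ => (argCount G Y : ℝ)) atTop atTop :=
    (tendsto_natCast_atTop_atTop (R := ℝ)).comp hX
  have hL : Tendsto (fun Y : ℕ => Real.log (argCount G Y)) atTop atTop :=
    Real.tendsto_log_atTop.comp hXr
  have h1 := argCount_pow G hk hl
  have h2 : Tendsto (fun Y : ℕ => Real.log ((argCount G Y : ℝ) ^ G.natDegree / Y)) atTop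
      (𝓝 (Real.log ((G.leadingCoeff : ℝ)⁻¹))) :=
    (Real.continuousAt_log (inv_ne_zero hl'.ne')).tendsto.comp h1
  have h3 := h2.div_atTop hL
  have h4 : Tendsto (fun Y : ℕ => (G.natDegree : ℝ) -
      Real.log ((argCount G Y : ℝ) ^ G.natDegree / Y) / Real.log (argCount G Y)) atTop
      (𝓝 (G.natDegree : ℝ)) := by
    have := h3.const_sub (G.natDegree : ℝ)
    simpa using this
  refine h4.congr' ?_
  filter_upwards [eventually_ge_atTop 1, hX.eventually_ge_atTop 2] with Y hY hX2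
  have hY' : (Y : ℝ) ≠ 0 := by
    have : (0 : ℝ) < Y := by exact_mod_cast hY
    exact this.ne'
  have hX2' : (2 : ℝ) ≤ argCount G Y := by exact_mod_cast hX2
  have hlog : 0 < Real.log (argCount G Y) := Real.log_pos (by linarith)
  rw [Real.log_div (by positivity) hY', Real.log_pow]
  field_simp
  ring

theorem AC_mono (G : ℤ[X]) (hk : 1 ≤ G.natDegree) (hl : 0 < G.leadingCoeff) : ∃ Y₀ : ℕ,
    ∀ N Y : ℕ, Y₀ ≤ Y → N ≤ Y → argCount G N ≤ argCount G Y := by
  obtain ⟨Y₀, hY₀⟩ := eventually_atTop.1 (argSet_eq hk hl)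
  refine ⟨Y₀, fun N Y hY hNY => ?_⟩
  unfold argCount
  refine Set.ncard_le_ncard ?_ ?_
  · intro n hn
    have h1 : 0 < n ∧ 0 < (N : ℤ) - G.eval (n : ℤ) := hn
    exact ⟨h1.1, by omega⟩
  · rw [hY₀ Y hY]
    exact Finset.finite_toSet _

/-- `X(N)/X(Y) → r^(1/k)` uniformly would be true; we only need: for `δ > 0`, `δ Y ≤ N ≤ Y`, `Y` large,
`dens G g Y ≤ C dens G g N` and `dens G g N ≤ 2 dens G g Y`. -/
theorem dens_comp (G : ℤ[X]) (hk : 1 ≤ G.natDegree) (hl : 0 < G.leadingCoeff) (g : ℕ) (δ : ℝ)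
    (hδ : 0 < δ) : ∃ C : ℝ, 0 < C ∧ ∃ Y₀ : ℕ, ∀ Y N : ℕ, Y₀ ≤ Y → δ * Y ≤ N → N ≤ Y →
      0 < dens G g N ∧ dens G g Y ≤ C * dens G g N ∧ dens G g N ≤ 2 * dens G g Y := by
  have hl' : (0 : ℝ) < G.leadingCoeff := by exact_mod_cast hl
  have hX := argCount_tendsto hk hl
  obtain ⟨Y₁, hY₁⟩ := AC_mono G hk hl
  have h1 := argCount_pow G hk hl
  set a : ℝ := (G.leadingCoeff : ℝ)⁻¹ with ha
  have ha0 : 0 < a := inv_pos.2 hl'
  have h2 : ∀ᶠ Y : ℕ in atTop, a / 2 < (argCount G Y : ℝ) ^ G.natDegree / Y :=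
    h1.eventually_const_lt (by linarith)
  have h3 : ∀ᶠ Y : ℕ in atTop, (argCount G Y : ℝ) ^ G.natDegree / Y < 2 * a :=
    h1.eventually_lt_const (by linarith)
  set c : ℝ := Real.log (4 / δ) with hc
  have h4 : ∀ᶠ n : ℕ in atTop, (1 + c / Real.log (n : ℝ)) ^ g ≤ 2 := by
    have h5 : Tendsto (fun n : ℕ => Real.log (n : ℝ)) atTop atTop :=
      Real.tendsto_log_atTop.comp (tendsto_natCast_atTop_atTop (R := ℝ))
    have h6 : Tendsto (fun n : ℕ => (1 + c / Real.log (n : ℝ)) ^ g) atTop (𝓝 1) := by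
      have h7 : Tendsto (fun n : ℕ => c / Real.log (n : ℝ)) atTop (𝓝 0) :=
        (tendsto_const_nhds (x := c)).div_atTop h5
      have h8 := (h7.const_add 1).pow g
      simpa using h8
    exact (h6.eventually_lt_const (by norm_num : (1 : ℝ) < 2)).mono fun _ h => h.le
  have hall : ∀ᶠ N : ℕ in atTop, a / 2 < (argCount G N : ℝ) ^ G.natDegree / N ∧
      (argCount G N : ℝ) ^ G.natDegree / N < 2 * a ∧
      (1 + c / Real.log (argCount G N : ℝ)) ^ g ≤ 2 ∧ 3 ≤ argCount G N ∧ 1 ≤ N := by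
    filter_upwards [h2, h3, hX.eventually h4, hX.eventually_ge_atTop 3, eventually_ge_atTop 1]
      with N b1 b2 b3 b4 b5
    exact ⟨b1, b2, b3, b4, b5⟩
  obtain ⟨N₀, hN₀⟩ := eventually_atTop.1 hall
  obtain ⟨Y₂, hY₂⟩ := exists_nat_ge ((N₀ : ℝ) / δ)
  refine ⟨4 / δ, by positivity, max (max Y₁ Y₂) N₀, fun Y N hY hN hNY => ?_⟩
  have hYY₁ : Y₁ ≤ Y := (le_max_left _ _).trans ((le_max_left _ _).trans hY)
  have hYY₂ : Y₂ ≤ Y := (le_max_right _ _).trans ((le_max_left _ _).trans hY)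
  have hYN₀ : N₀ ≤ Y := (le_max_right _ _).trans hY
  have hNN₀ : N₀ ≤ N := by
    have h5 : (N₀ : ℝ) ≤ δ * Y := by
      have h6 : (N₀ : ℝ) / δ ≤ Y := hY₂.trans (by exact_mod_cast hYY₂)
      rw [div_le_iff₀ hδ] at h6
      linarith
    exact_mod_cast h5.trans hN
  obtain ⟨b1, b2, b3, b4, b5⟩ := hN₀ N hNN₀
  obtain ⟨d1, d2, d3, d4, d5⟩ := hN₀ Y hYN₀
  have hmono := hY₁ N Y hYY₁ hNY
  set x : ℝ := (argCount G N : ℝ) with hx
  set y : ℝ := (argCount G Y : ℝ) with hy
  have hx3 : (3 : ℝ) ≤ x := by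
    rw [hx]
    exact_mod_cast b4
  have hxy : x ≤ y := by
    rw [hx, hy]
    exact_mod_cast hmono
  have hN0 : (0 : ℝ) < N := by exact_mod_cast b5
  have hY0 : (0 : ℝ) < Y := by exact_mod_cast d5
  have hx0 : 0 < x := by linarith
  have hy0 : 0 < y := by linarith
  rw [lt_div_iff₀ hN0] at b1
  rw [div_lt_iff₀ hY0] at d2
  -- y ≤ (4/δ) x
  have hratio : y ≤ 4 / δ * x := by
    have h5 : δ / 4 * y ^ G.natDegree ≤ x ^ G.natDegree := by
      have h6 : δ / 4 * y ^ G.natDegree ≤ δ / 4 * (2 * a * Y) :=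
        mul_le_mul_of_nonneg_left d2.le (by positivity)
      have h7 : δ / 4 * (2 * a * Y) = a / 2 * (δ * Y) := by ring
      have h8 : a / 2 * (δ * Y) ≤ a / 2 * N := mul_le_mul_of_nonneg_left hN (by positivity)
      linarith
    have h6 : x ^ G.natDegree ≤ x * y ^ (G.natDegree - 1) := by
      obtain ⟨j, hj⟩ : ∃ j, G.natDegree = j + 1 := ⟨G.natDegree - 1, by omega⟩
      rw [hj, Nat.add_sub_cancel, pow_succ']
      exact mul_le_mul_of_nonneg_left (pow_le_pow_left₀ hx0.le hxy j) hx0.le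
    have h7 : y ^ G.natDegree = y * y ^ (G.natDegree - 1) := by
      rw [← pow_succ']
      congr 1
      omega
    rw [h7] at h5
    have h8 : (δ / 4 * y) * y ^ (G.natDegree - 1) ≤ x * y ^ (G.natDegree - 1) := by
      calc (δ / 4 * y) * y ^ (G.natDegree - 1) = δ / 4 * (y * y ^ (G.natDegree - 1)) := by ring
        _ ≤ _ := h5.trans h6
    have h9 : δ / 4 * y ≤ x := le_of_mul_le_mul_right h8 (by positivity)
    calc y = 4 / δ * (δ / 4 * y) := by field_simp
      _ ≤ 4 / δ * x := mul_le_mul_of_nonneg_left h9 (by positivity)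
  have hlx : 1 ≤ Real.log x := by
    rw [Real.le_log_iff_exp_le hx0]
    exact Real.exp_one_lt_d9.le.trans (by linarith)
  have hlxy : Real.log x ≤ Real.log y := Real.log_le_log hx0 hxy
  have hly0 : 0 < Real.log y := by linarith
  have hlyx : Real.log y ≤ c + Real.log x := by
    have h5 : Real.log y ≤ Real.log (4 / δ * x) := Real.log_le_log hy0 hratio
    rwa [Real.log_mul (by positivity) hx0.ne'] at h5
  have hdN : dens G g N = x / Real.log x ^ g := rfl
  have hdY : dens G g Y = y / Real.log y ^ g := rfl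
  rw [hdN, hdY]
  have hlxg : 0 < Real.log x ^ g := by positivity
  have hlyg : 0 < Real.log y ^ g := by positivity
  have hpow : Real.log x ^ g ≤ Real.log y ^ g := pow_le_pow_left₀ (by linarith) hlxy g
  refine ⟨by positivity, ?_, ?_⟩
  · calc y / Real.log y ^ g ≤ y / Real.log x ^ g :=
          div_le_div_of_nonneg_left hy0.le hlxg hpow
      _ ≤ (4 / δ * x) / Real.log x ^ g := div_le_div_of_nonneg_right hratio hlxg.le
      _ = _ := by ring
  · have h5 : Real.log y ^ g ≤ 2 * Real.log x ^ g := by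
      have h6 : Real.log y ≤ (1 + c / Real.log x) * Real.log x := by
        have h7 : (1 + c / Real.log x) * Real.log x = c + Real.log x := by
          field_simp
          ring
        rw [h7]
        exact hlyx
      calc Real.log y ^ g ≤ ((1 + c / Real.log x) * Real.log x) ^ g :=
            pow_le_pow_left₀ hly0.le h6 g
        _ = (1 + c / Real.log x) ^ g * Real.log x ^ g := mul_pow _ _ _
        _ ≤ 2 * Real.log x ^ g := mul_le_mul_of_nonneg_right b3 hlxg.le
    rw [div_le_iff₀ hlxg]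
    calc x ≤ y := hxy
      _ = y / Real.log y ^ g * Real.log y ^ g := by field_simp
      _ ≤ y / Real.log y ^ g * (2 * Real.log x ^ g) :=
          mul_le_mul_of_nonneg_left h5 (by positivity)
      _ = _ := by ring

/-- `dens G g Y → ∞`. -/
theorem dens_tendsto (G : ℤ[X]) (hk : 1 ≤ G.natDegree) (hl : 0 < G.leadingCoeff) (g : ℕ) :
    Tendsto (fun Y : ℕ => dens G g Y) atTop atTop := by
  have hX := argCount_tendsto hk hl
  have hXr : Tendsto (fun Y : ℕ => (argCount G Y : ℝ)) atTop atTop :=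
    (tendsto_natCast_atTop_atTop (R := ℝ)).comp hX
  have h1 : Tendsto (fun x : ℝ => Real.log x ^ g / x) atTop (𝓝 0) := by
    have h2 := (Real.isLittleO_pow_log_id_atTop (n := g)).tendsto_div_nhds_zero
    exact h2
  have h3 : Tendsto (fun x : ℝ => Real.log x ^ g / x) atTop (𝓝[>] 0) := by
    refine tendsto_nhdsWithin_iff.2 ⟨h1, ?_⟩
    filter_upwards [eventually_gt_atTop 3] with x hx
    have : 0 < Real.log x := Real.log_pos (by linarith)
    exact Set.mem_Ioi.2 (div_pos (pow_pos this g) (by linarith : (0 : ℝ) < x))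
  have h4 := h3.inv_tendsto_nhdsGT_zero
  refine (h4.comp hXr).congr fun Y => ?_
  simp only [Function.comp_apply, Pi.inv_apply, inv_div]
  rfl

end Pool.Agent.Lib.H33B
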