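import Pool.Agent.Lib.H68T.Defs
import Pool.Agent.Lib.H59.PolySieve
import Pool.Agent.Lib.H59.SchinzelDefs

/-!
# Project H33B (MP_0bf1d2_nt): definitions

See `PROOF.md` in this folder.
-/

open Finset Polynomial Filter Topology

namespace Pool.Agent.Lib.H33B

open Pool.Agent.Lib.H59 (argSet argCount Admissible primeCount omegaN seriesTrunc rootCount)
open Pool.Agent.Lib.H68T (lp e cq Lk dQ Reg Good)

noncomputable section

/-! ## The engine -/

/-- `∏_{p < w} p`. -/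
def PW (w : ℕ) : ℕ := ∏ p ∈ Nat.primesBelow w, p

/-- The periodic model: `(q/φ(q)) 1[(m,q) = 1]`. -/
def Lq (q : ℕ) (m : ℤ) : ℝ :=
  if IsCoprime m (q : ℤ) then (q : ℝ) / (Nat.totient q : ℝ) else 0

/-- The local model of the primes at level `w`. -/
def Lw (w : ℕ) (m : ℤ) : ℝ := Lq (PW w) m

/-- `X / log^g X` with `X = argCount G Y`. -/
def dens (G : ℤ[X]) (g Y : ℕ) : ℝ := (argCount G Y : ℝ) / (Real.log (argCount G Y)) ^ g

/-- Sieve-type weights on `[1, X]` of total mass at most `S`: bounded by a power of `log Y`, with the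
upper bound `D^(ω(q)) S/q` in all residue classes to squarefree moduli `q ≤ (log Y)^K`, and `S` not much
smaller than `X`. -/
structure SieveWt (D : ℕ) (C K : ℝ) (Y X : ℕ) (S : ℝ) (f : ℕ → ℝ) : Prop where
  nonneg : ∀ n ∈ Icc 1 X, 0 ≤ f n
  le : ∀ n ∈ Icc 1 X, f n ≤ (Real.log Y) ^ C
  cls : ∀ q b : ℕ, Squarefree q → (q : ℝ) ≤ (Real.log Y) ^ K →
    ∑ n ∈ (Icc 1 X).filter (fun n => n ≡ b [MOD q]), f n ≤
      (D : ℝ) ^ q.primeFactors.card * S / q
  large : (X : ℝ) ≤ S * (Real.log Y) ^ C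

/-- Correlation of a function supported in `[1, M]`. -/
def cor (u : ℤ → ℝ) (M : ℕ) (d : ℤ) : ℝ := ∑ m ∈ Icc (1 : ℤ) M, u m * u (m + d)

/-- `P(x + h) - P(x)` -/
def shiftDiff (P : ℤ[X]) (h : ℤ) : ℤ[X] := P.comp (X + C h) - P

/-! ## The systems `F` -/

/-- The hypotheses of the problem on `F_1, …, F_g`. -/
structure Sys {g : ℕ} (F : Fin g → ℤ[X]) : Prop where
  pos : 1 ≤ g
  irr : ∀ i, Irreducible (F i)
  deg : ∀ i, 1 ≤ (F i).natDegree
  lead : ∀ i, 0 < (F i).leadingCoeff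
  inj : Function.Injective F

/-- `F_1 ⋯ F_g` has no fixed prime divisor. -/
def NoFix {g : ℕ} (F : Fin g → ℤ[X]) : Prop :=
  ∀ p : ℕ, p.Prime → ∃ n : ℤ, ¬ (p : ℤ) ∣ (∏ i, F i).eval n

/-- `F_1(n), …, F_g(n)` are all (positive) primes. -/
def AllPrime {g : ℕ} (F : Fin g → ℤ[X]) (n : ℕ) : Prop :=
  ∀ i, ∃ q : ℕ, q.Prime ∧ (F i).eval (n : ℤ) = q

open scoped Classical in
/-- The `n ≤ x` for which `F_1(n), …, F_g(n)` are all prime. -/
def AF {g : ℕ} (F : Fin g → ℤ[X]) (x : ℕ) : Finset ℕ := (Icc 1 x).filter (AllPrime F)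

/-- The number of the `n ≤ x`, `n ≡ b (mod q)`, for which `F_1(n), …, F_g(n)` are all prime. -/
def cntF {g : ℕ} (F : Fin g → ℤ[X]) (q b x : ℕ) : ℕ :=
  ((AF F x).filter (fun n => n ≡ b [MOD q])).card

/-- `ω_F(p)`: the number of residues `n` modulo `p` with `F_1(n) ⋯ F_g(n) ≡ 0`. -/
def wF {g : ℕ} (F : Fin g → ℤ[X]) (p : ℕ) : ℕ := rootCount (∏ i, F i) p

/-- The Bateman–Horn product over `p < z` for a residue class `b` modulo `q` with
`F_1(b) ⋯ F_g(b)` coprime to `q` (up to the factor `1/q`). -/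
def bhTrunc {g : ℕ} (F : Fin g → ℤ[X]) (q z : ℕ) : ℝ :=
  ∏ p ∈ Nat.primesBelow z,
    (if p ∣ q then 1 else 1 - (wF F p : ℝ) / p) * ((1 - 1 / (p : ℝ)) ^ g)⁻¹

/-- The Bateman–Horn constant: the product over all primes in increasing order. -/
def bhConst {g : ℕ} (F : Fin g → ℤ[X]) (q : ℕ) : ℝ := limUnder atTop (bhTrunc F q)

/-- The Bateman–Horn asymptotic formula for `F` in the residue classes modulo `q`. -/
def BHClass {g : ℕ} (F : Fin g → ℤ[X]) (q : ℕ) : Prop :=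
  ∀ b : ℕ, IsCoprime ((∏ i, F i).eval (b : ℤ)) (q : ℤ) →
    Tendsto (fun x : ℕ => (cntF F q b x : ℝ) * (Real.log x) ^ g / x) atTop
      (𝓝 (bhConst F q / (q * ∏ i, ((F i).natDegree : ℝ))))

/-- `𝔖(N)`: the product over all primes in increasing order. -/
def SS {g : ℕ} (F : Fin g → ℤ[X]) (G : ℤ[X]) (N : ℕ) : ℝ := limUnder atTop (seriesTrunc F G N)

/-- The main term of Schinzel's formula without the singular series. -/
def mainT {g : ℕ} (F : Fin g → ℤ[X]) (G : ℤ[X]) (N : ℕ) : ℝ :=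
  (argCount G N : ℝ) / (Real.log (argCount G N)) ^ (g + 1) *
    ((G.natDegree : ℝ) * ∏ i, ((F i).natDegree : ℝ))⁻¹

open scoped Classical in
/-- Schinzel's asymptotic formula holds for almost all admissible `N`. -/
def AlmostAll {g : ℕ} (F : Fin g → ℤ[X]) (G : ℤ[X]) : Prop :=
  ∀ ε : ℝ, 0 < ε → ∃ Y₀ : ℕ, ∀ Y : ℕ, Y₀ ≤ Y →
    (((Icc 1 Y).filter (fun N => Admissible F G N ∧
      ε * (mainT F G N * SS F G N) < |(primeCount F G N : ℝ) - mainT F G N * SS F G N|)).card : ℝ) ≤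
        ε * Y

open scoped Classical in
/-- The same with the singular series cut off at `z`, `z → ∞` after `N`. -/
def AlmostAllT {g : ℕ} (F : Fin g → ℤ[X]) (G : ℤ[X]) : Prop :=
  ∀ ε : ℝ, 0 < ε → ∃ z₀ : ℕ, ∀ z : ℕ, z₀ ≤ z → ∃ Y₀ : ℕ, ∀ Y : ℕ, Y₀ ≤ Y →
    (((Icc 1 Y).filter (fun N => Admissible F G N ∧
      ε * (mainT F G N * seriesTrunc F G N z) <
        |(primeCount F G N : ℝ) - mainT F G N * seriesTrunc F G N z|)).card : ℝ) ≤ ε * Y

/-- The local model of the weighted representation number: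
`∑_{n, G(n) < N, F_i(n) prime} Λ_w(N - G(n))`. -/
def Mw {g : ℕ} (F : Fin g → ℤ[X]) (G : ℤ[X]) (w N : ℕ) : ℝ :=
  ∑ n ∈ (AF F (argCount G N)).filter (fun n : ℕ => G.eval (n : ℤ) < N), Lw w (N - G.eval (n : ℤ))

end

end Pool.Agent.Lib.H33B
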