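import Pool.Agent.Lib.H33B.CV3
import Pool.Agent.Lib.H33B.Defs
import Pool.Agent.Lib.H59.SchinzelUpper

/-!
# Chunk CV4: the Bateman-Horn products converge
-/

open Finset Polynomial Filter Topology

namespace Pool.Agent.Lib.H33B

open Pool.Agent.Lib.H59 (rootCount rootCount_le_self rootCount_le_natDegree rootCount_prod_le
  dvd_eval_mod_iff)

variable {g : ℕ}

theorem CV4_cop (F : Fin g → ℤ[X]) (hF : Sys F) (i j : Fin g) (hij : i ≠ j) :
    IsCoprime ((F i).map (Int.castRingHom ℚ)) ((F j).map (Int.castRingHom ℚ)) := by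
  have hprim : ∀ i, (F i).IsPrimitive := fun i =>
    (hF.irr i).isPrimitive (by have := hF.deg i; omega)
  have h1 := (IsPrimitive.Int.irreducible_iff_irreducible_map_cast (hprim i)).1 (hF.irr i)
  rcases (dvd_or_isCoprime _ ((F j).map (Int.castRingHom ℚ)) h1).symm with h | h
  · exact h
  · exfalso
    have h2 : F i ∣ F j := (IsPrimitive.Int.dvd_iff_map_cast_dvd_map_cast _ _ (hprim i)).2 h
    have h3 : Associated (F i) (F j) := (hF.irr i).associated_of_dvd (hF.irr j) h2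
    obtain ⟨u, hu⟩ := h3
    obtain ⟨c, hc, hcu⟩ := Polynomial.isUnit_iff.1 u.isUnit
    have h4 : F i * C c = F j := by
      rw [hcu]
      exact hu
    have h5 : (F j).leadingCoeff = (F i).leadingCoeff * c := by
      rw [← h4, leadingCoeff_mul, leadingCoeff_C]
    have h6 := hF.lead i
    have h7 := hF.lead j
    rcases Int.isUnit_iff.1 hc with h8 | h8
    · rw [h8, C_1, mul_one] at h4
      exact hij (hF.inj h4)
    · rw [h8] at h5
      omega

theorem CV4_res (F : Fin g → ℤ[X]) (hF : Sys F) (i j : Fin g) (hij : i ≠ j) :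
    ∃ (A B : ℤ[X]) (R : ℤ), R ≠ 0 ∧ F i * A + F j * B = C R := by
  obtain ⟨A, B, _, _, h⟩ := exists_mul_add_mul_eq_C_resultant (F i) (F j) le_rfl le_rfl
    (Or.inl (by have := hF.deg i; omega))
  refine ⟨A, B, _, ?_, h⟩
  intro h0
  have hinj : Function.Injective (Int.castRingHom ℚ) := RingHom.injective_int _
  have h1 : resultant ((F i).map (Int.castRingHom ℚ)) ((F j).map (Int.castRingHom ℚ)) = 0 := by
    rw [natDegree_map_eq_of_injective hinj, natDegree_map_eq_of_injective hinj,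
      resultant_map_map, h0, map_zero]
  rw [resultant_eq_zero_iff] at h1
  exact h1.2 (CV4_cop F hF i j hij)

/-- Two different irreducible polynomials with positive leading coefficients are coprime over `ℚ`, so
`A F_i + B F_j = R ≠ 0` with integer polynomials `A, B` and an integer `R`; for `p > |R|` they have no
common root modulo `p`, and the roots of the product are the disjoint union of the roots. -/
theorem wF_eq (F : Fin g → ℤ[X]) (hF : Sys F) :
    ∃ B : ℕ, ∀ p : ℕ, p.Prime → B ≤ p → wF F p = ∑ i, rootCount (F i) p := by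
  classical
  have h1 : ∀ i j : Fin g, ∃ B : ℕ, i ≠ j → ∀ p : ℕ, p.Prime → B ≤ p → ∀ a : ℤ,
      (p : ℤ) ∣ (F i).eval a → ¬ (p : ℤ) ∣ (F j).eval a := by
    intro i j
    by_cases hij : i = j
    · exact ⟨0, fun h => absurd hij h⟩
    · obtain ⟨A, B, R, hR, h⟩ := CV4_res F hF i j hij
      refine ⟨R.natAbs + 1, fun _ p hp hRp a h2 h3 => ?_⟩
      have h4 : (p : ℤ) ∣ R := by
        have h5 := congrArg (fun P => Polynomial.eval a P) h
        simp only [eval_add, eval_mul, eval_C] at h5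
        rw [← h5]
        exact dvd_add (h2.mul_right _) (h3.mul_right _)
      have h6 : p ∣ R.natAbs := Int.natCast_dvd.1 h4
      have h7 := Nat.le_of_dvd (Int.natAbs_pos.2 hR) h6
      omega
  choose B hB using h1
  refine ⟨∑ i, ∑ j, B i j, fun p hp hBp => ?_⟩
  have hBij : ∀ i j, B i j ≤ p := by
    intro i j
    have h2 : B i j ≤ ∑ j, B i j := Finset.single_le_sum (f := fun j => B i j)
      (fun _ _ => Nat.zero_le _) (Finset.mem_univ j)
    have h3 : ∑ j, B i j ≤ ∑ i, ∑ j, B i j := Finset.single_le_sum (f := fun i => ∑ j, B i j)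
      (fun _ _ => Nat.zero_le _) (Finset.mem_univ i)
    omega
  unfold wF rootCount
  rw [← Finset.card_biUnion]
  · congr 1
    ext a
    rw [Finset.mem_filter, Finset.mem_biUnion, eval_prod]
    have hp' : Prime (p : ℤ) := Nat.prime_iff_prime_int.1 hp
    rw [Prime.dvd_finsetProd_iff hp']
    constructor
    · rintro ⟨h2, i, _, h3⟩
      exact ⟨i, Finset.mem_univ _, Finset.mem_filter.2 ⟨h2, h3⟩⟩
    · rintro ⟨i, _, h3⟩
      rw [Finset.mem_filter] at h3
      exact ⟨h3.1, i, Finset.mem_univ _, h3.2⟩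
  · intro i _ j _ hij
    rw [Function.onFun, Finset.disjoint_left]
    intro a ha hb
    rw [Finset.mem_filter] at ha hb
    exact hB i j hij p hp (hBij i j) a ha.2 hb.2

theorem wF_lt (F : Fin g → ℤ[X]) (hN : NoFix F) (p : ℕ) (hp : p.Prime) : wF F p < p := by
  classical
  obtain ⟨n, hn⟩ := hN p hp
  have hp0 : (0 : ℤ) < p := by exact_mod_cast hp.pos
  have h1 : ¬ (p : ℤ) ∣ (∏ i, F i).eval (((n % p).toNat : ℕ) : ℤ) := by
    intro h
    apply hn
    have h2 : (((n % p).toNat : ℕ) : ℤ) = n % p := Int.toNat_of_nonneg (Int.emod_nonneg _ hp0.ne')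
    rw [h2] at h
    have h3 : (p : ℤ) ∣ n - n % p := Int.dvd_self_sub_emod
    have h4 : (p : ℤ) ∣ (∏ i, F i).eval n - (∏ i, F i).eval (n % p) :=
      h3.trans (Polynomial.sub_dvd_eval_sub _ _ _)
    have h5 := dvd_add h4 h
    simpa using h5
  unfold wF rootCount
  have h2 : (Finset.range p).filter (fun a : ℕ => (p : ℤ) ∣ (∏ i, F i).eval (a : ℤ)) ⊆
      (Finset.range p).erase (n % p).toNat := by
    intro a ha
    rw [Finset.mem_filter] at ha
    rw [Finset.mem_erase]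
    refine ⟨?_, ha.1⟩
    rintro rfl
    exact h1 ha.2
  refine (Finset.card_le_card h2).trans_lt ?_
  rw [Finset.card_erase_of_mem, Finset.card_range]
  · have := hp.pos
    omega
  · rw [Finset.mem_range]
    have h3 := Int.emod_lt_of_pos n hp0
    have h4 := Int.emod_nonneg n hp0.ne'
    omega

/-- For `p` not dividing the leading coefficients; for the finitely many others `wF F p ≤ p`. -/
theorem wF_le (F : Fin g → ℤ[X]) (hF : Sys F) :
    ∃ B : ℕ, ∀ p : ℕ, p.Prime → B ≤ p → wF F p ≤ ∑ i, (F i).natDegree := by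
  refine ⟨0, fun p hp _ => ?_⟩
  refine (rootCount_prod_le Finset.univ F hp).trans (Finset.sum_le_sum fun i _ => ?_)
  exact rootCount_le_natDegree ((hF.irr i).isPrimitive (by have := hF.deg i; omega)) hp

theorem CV4_range (f : ℕ → ℝ) (z : ℕ) :
    ∑ p ∈ Nat.primesBelow z, f p = ∑ n ∈ Finset.range z, if n.Prime then f n else 0 := by
  rw [Nat.primesBelow, Finset.sum_filter]

/-- A series over the primes with terms `O(1/p²)` converges. -/
theorem CV4_summ (f : ℕ → ℝ) (K : ℝ) (B : ℕ)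
    (h : ∀ p : ℕ, p.Prime → B ≤ p → |f p| ≤ K / (p : ℝ) ^ 2) : ∃ ℓ : ℝ,
    Tendsto (fun z : ℕ => ∑ p ∈ Nat.primesBelow z, f p) atTop (𝓝 ℓ) := by
  have h1 : Summable (fun n : ℕ => if n.Prime then f n else 0) := by
    have h2 : Summable (fun n : ℕ => |K| * (1 / (n : ℝ) ^ 2)) :=
      (Real.summable_one_div_nat_pow.2 (by norm_num)).mul_left _
    refine Summable.of_norm_bounded_eventually_nat h2 ?_
    filter_upwards [eventually_ge_atTop B] with n hn
    split_ifs with hp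
    · rw [Real.norm_eq_abs]
      refine (h n hp hn).trans ?_
      rw [mul_one_div]
      exact div_le_div_of_nonneg_right (le_abs_self K) (by positivity)
    · rw [norm_zero]
      positivity
  refine ⟨_, h1.hasSum.tendsto_sum_nat.congr fun z => ?_⟩
  rw [CV4_range]

/-- `root_conv` and `wF_eq`. -/
theorem sum_conv (F : Fin g → ℤ[X]) (hF : Sys F) : ∃ ℓ : ℝ,
    Tendsto (fun z : ℕ => ∑ p ∈ Nat.primesBelow z, ((wF F p : ℝ) - g) / p) atTop (𝓝 ℓ) := by
  have h1 : ∀ i, ∃ ℓ : ℝ, Tendsto (fun z : ℕ =>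
      ∑ p ∈ Nat.primesBelow z, ((rootCount (F i) p : ℝ) - 1) / p) atTop (𝓝 ℓ) := fun i =>
    root_conv (F i) (hF.irr i) (hF.deg i)
  choose ℓ hℓ using h1
  obtain ⟨B, hB⟩ := wF_eq F hF
  have h2 := tendsto_finsetSum (Finset.univ : Finset (Fin g)) (fun i _ => hℓ i)
  obtain ⟨ℓ', hℓ'⟩ := CV4_summ (fun p => ((wF F p : ℝ) - ∑ i, (rootCount (F i) p : ℝ)) / p) 0 B
    (by
      intro p hp hBp
      have h3 := hB p hp hBp
      have h4 : (wF F p : ℝ) = ∑ i, (rootCount (F i) p : ℝ) := by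
        rw [h3]
        push_cast
        rfl
      simp only [h4, sub_self, zero_div, abs_zero]
      exact le_rfl)
  refine ⟨∑ i, ℓ i + ℓ', (h2.add hℓ').congr fun z => ?_⟩
  rw [Finset.sum_comm, ← Finset.sum_add_distrib]
  refine Finset.sum_congr rfl fun p _ => ?_
  rw [← Finset.sum_div, ← add_div, Finset.sum_sub_distrib]
  simp only [Finset.sum_const, Finset.card_univ, Fintype.card_fin, nsmul_eq_mul, mul_one]
  congr 1
  ring

theorem CV4_bdd (f : ℕ → ℝ) (ℓ : ℝ) (h : Tendsto f atTop (𝓝 ℓ)) : ∃ K : ℝ, ∀ z, |f z| ≤ K := by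
  obtain ⟨K, hK⟩ := (Metric.isBounded_range_of_tendsto f h).exists_norm_le
  exact ⟨K, fun z => hK _ (Set.mem_range_self z)⟩

theorem sum_bdd (F : Fin g → ℤ[X]) (hF : Sys F) : ∃ K : ℝ, ∀ z : ℕ,
    |∑ p ∈ Nat.primesBelow z, ((wF F p : ℝ) - g) / p| ≤ K := by
  obtain ⟨ℓ, hℓ⟩ := sum_conv F hF
  exact CV4_bdd _ ℓ hℓ

theorem CV4_log {x : ℝ} (h0 : 0 ≤ x) (h1 : x ≤ 1 / 2) : |x + Real.log (1 - x)| ≤ 2 * x ^ 2 := by
  have h2 := Real.abs_log_sub_add_sum_range_le (x := x) (by rw [abs_of_nonneg h0]; linarith) 1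
  simp only [Finset.sum_range_one, zero_add, pow_one, Nat.cast_zero, div_one] at h2
  refine h2.trans ?_
  rw [abs_of_nonneg h0, div_le_iff₀ (by linarith)]
  have h3 : 0 ≤ x ^ 2 := sq_nonneg x
  have h4 : x ^ 2 * x ≤ x ^ 2 * (1 / 2) := mul_le_mul_of_nonneg_left h1 h3
  have h5 : x ^ (1 + 1) = x ^ 2 := rfl
  rw [h5]
  linarith

/-- The factor of the Bateman-Horn product. -/
noncomputable def CV4_t (F : Fin g → ℤ[X]) (q p : ℕ) : ℝ :=
  (if p ∣ q then 1 else 1 - (wF F p : ℝ) / p) * ((1 - 1 / (p : ℝ)) ^ g)⁻¹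

theorem CV4_pos (F : Fin g → ℤ[X]) (hN : NoFix F) (q p : ℕ) (hp : p.Prime) :
    0 < (if p ∣ q then (1 : ℝ) else 1 - (wF F p : ℝ) / p) ∧ 0 < (1 - 1 / (p : ℝ)) := by
  have hp2 : (2 : ℝ) ≤ p := by exact_mod_cast hp.two_le
  have hp0 : (0 : ℝ) < p := by linarith
  constructor
  · split_ifs
    · norm_num
    · have h1 : (wF F p : ℝ) < p := by exact_mod_cast wF_lt F hN p hp
      have h2 : (wF F p : ℝ) / p < 1 := (div_lt_one hp0).2 h1
      linarith
  · have : 1 / (p : ℝ) ≤ 1 / 2 := one_div_le_one_div_of_le (by norm_num) hp2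
    linarith

theorem CV4_tpos (F : Fin g → ℤ[X]) (hN : NoFix F) (q p : ℕ) (hp : p.Prime) :
    0 < CV4_t F q p := by
  obtain ⟨h1, h2⟩ := CV4_pos F hN q p hp
  unfold CV4_t
  positivity

theorem CV4_bh (F : Fin g → ℤ[X]) (q z : ℕ) :
    bhTrunc F q z = ∏ p ∈ Nat.primesBelow z, CV4_t F q p := rfl

theorem CV4_bhpos (F : Fin g → ℤ[X]) (hN : NoFix F) (q z : ℕ) : 0 < bhTrunc F q z := by
  rw [CV4_bh]
  exact Finset.prod_pos fun p hp => CV4_tpos F hN q p (Nat.prime_of_mem_primesBelow hp)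

theorem CV4_logconv (F : Fin g → ℤ[X]) (hF : Sys F) (hN : NoFix F) (q : ℕ) (hq : q ≠ 0) : ∃ ℓ : ℝ,
    Tendsto (fun z : ℕ => ∑ p ∈ Nat.primesBelow z, Real.log (CV4_t F q p)) atTop (𝓝 ℓ) := by
  obtain ⟨B, hB⟩ := wF_le F hF
  obtain ⟨ℓ₁, hℓ₁⟩ := sum_conv F hF
  set D : ℝ := ∑ i, ((F i).natDegree : ℝ) with hD
  have hD0 : 0 ≤ D := Finset.sum_nonneg fun _ _ => Nat.cast_nonneg _
  obtain ⟨D', hD'⟩ := exists_nat_ge (2 * D)
  obtain ⟨ℓ₂, hℓ₂⟩ := CV4_summ (fun p => Real.log (CV4_t F q p) + ((wF F p : ℝ) - g) / p)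
    (2 * D ^ 2 + g * 2) (B + D' + q + 1) (by
      intro p hp hBp
      have hp2 : (2 : ℝ) ≤ p := by exact_mod_cast hp.two_le
      have hp0 : (0 : ℝ) < p := by linarith
      have hpq : ¬ p ∣ q := fun h => by
        have := Nat.le_of_dvd (Nat.pos_of_ne_zero hq) h
        omega
      obtain ⟨h1, h2⟩ := CV4_pos F hN q p hp
      rw [if_neg hpq] at h1
      have hw : (wF F p : ℝ) ≤ D := by
        have := hB p hp (by omega)
        rw [hD]
        exact_mod_cast this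
      have hx1 : (wF F p : ℝ) / p ≤ D / p := div_le_div_of_nonneg_right hw hp0.le
      have hx2 : D / p ≤ 1 / 2 := by
        rw [div_le_div_iff₀ hp0 (by norm_num)]
        have h3 : (D' : ℝ) ≤ p := by exact_mod_cast (by omega : D' ≤ p)
        linarith
      have h3 := CV4_log (x := (wF F p : ℝ) / p) (by positivity) (hx1.trans hx2)
      have h4 := CV4_log (x := 1 / (p : ℝ)) (by positivity)
        (one_div_le_one_div_of_le (by norm_num) hp2)
      have h5 : Real.log (CV4_t F q p) + ((wF F p : ℝ) - g) / p =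
          ((wF F p : ℝ) / p + Real.log (1 - (wF F p : ℝ) / p)) -
            g * (1 / (p : ℝ) + Real.log (1 - 1 / (p : ℝ))) := by
        unfold CV4_t
        rw [if_neg hpq, Real.log_mul h1.ne' (by positivity), Real.log_inv, Real.log_pow]
        ring
      simp only [h5]
      have h6 : ((wF F p : ℝ) / p) ^ 2 ≤ D ^ 2 / (p : ℝ) ^ 2 := by
        rw [← div_pow]
        exact pow_le_pow_left₀ (by positivity) hx1 2
      have h7 : (1 / (p : ℝ)) ^ 2 = 1 / (p : ℝ) ^ 2 := by rw [div_pow, one_pow]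
      calc |((wF F p : ℝ) / p + Real.log (1 - (wF F p : ℝ) / p)) -
            g * (1 / (p : ℝ) + Real.log (1 - 1 / (p : ℝ)))| ≤
          |(wF F p : ℝ) / p + Real.log (1 - (wF F p : ℝ) / p)| +
            |g * (1 / (p : ℝ) + Real.log (1 - 1 / (p : ℝ)))| := abs_sub _ _
        _ ≤ 2 * (D ^ 2 / (p : ℝ) ^ 2) + g * (2 * (1 / (p : ℝ) ^ 2)) := by
            rw [abs_mul, Nat.abs_cast, ← h7]
            refine add_le_add (h3.trans (by linarith)) ?_
            exact mul_le_mul_of_nonneg_left h4 (Nat.cast_nonneg g)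
        _ = (2 * D ^ 2 + g * 2) / (p : ℝ) ^ 2 := by ring)
  refine ⟨ℓ₂ - ℓ₁, (hℓ₂.sub hℓ₁).congr fun z => ?_⟩
  rw [Finset.sum_add_distrib]
  ring

/-- The logarithm of the factor at `p ∤ q` is `(g - ω_F(p))/p + O(1/p²)`. -/
theorem bh_conv (F : Fin g → ℤ[X]) (hF : Sys F) (hN : NoFix F) (q : ℕ) (hq : q ≠ 0) :
    Tendsto (bhTrunc F q) atTop (𝓝 (bhConst F q)) ∧ 0 < bhConst F q := by
  obtain ⟨ℓ, hℓ⟩ := CV4_logconv F hF hN q hq
  have h1 : Tendsto (bhTrunc F q) atTop (𝓝 (Real.exp ℓ)) := by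
    have h2 := (Real.continuous_exp.tendsto ℓ).comp hℓ
    refine h2.congr fun z => ?_
    simp only [Function.comp_apply]
    rw [Real.exp_sum, CV4_bh]
    refine Finset.prod_congr rfl fun p hp => ?_
    exact Real.exp_log (CV4_tpos F hN q p (Nat.prime_of_mem_primesBelow hp))
  have h2 : bhConst F q = Real.exp ℓ := h1.limUnder_eq
  rw [h2]
  exact ⟨h1, Real.exp_pos _⟩

theorem bh_bounds (F : Fin g → ℤ[X]) (hF : Sys F) (hN : NoFix F) : ∃ c C : ℝ, 0 < c ∧
    ∀ z : ℕ, c ≤ bhTrunc F 1 z ∧ bhTrunc F 1 z ≤ C := by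
  obtain ⟨ℓ, hℓ⟩ := CV4_logconv F hF hN 1 one_ne_zero
  obtain ⟨K, hK⟩ := CV4_bdd _ ℓ hℓ
  refine ⟨Real.exp (-K), Real.exp K, Real.exp_pos _, fun z => ?_⟩
  have h1 : bhTrunc F 1 z = Real.exp (∑ p ∈ Nat.primesBelow z, Real.log (CV4_t F 1 p)) := by
    rw [Real.exp_sum, CV4_bh]
    refine Finset.prod_congr rfl fun p hp => ?_
    exact (Real.exp_log (CV4_tpos F hN 1 p (Nat.prime_of_mem_primesBelow hp))).symm
  have h2 := abs_le.1 (hK z)
  rw [h1]
  exact ⟨Real.exp_le_exp.2 h2.1, Real.exp_le_exp.2 h2.2⟩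

theorem CV4_dvd (w p : ℕ) (hp : p.Prime) : p ∣ PW w ↔ p < w := by
  unfold PW
  rw [Prime.dvd_finsetProd_iff hp.prime]
  constructor
  · rintro ⟨r, hr, h⟩
    have hr' := Nat.prime_of_mem_primesBelow hr
    have h1 : p = r := (Nat.prime_dvd_prime_iff_eq hp hr').1 h
    rw [h1]
    exact Nat.lt_of_mem_primesBelow hr
  · intro h
    exact ⟨p, Nat.mem_primesBelow.2 ⟨h, hp⟩, dvd_rfl⟩

theorem CV4_tot (w : ℕ) : ((Nat.totient (PW w) : ℝ) / PW w) =
    ∏ p ∈ Nat.primesBelow w, (1 - 1 / (p : ℝ)) := by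
  have h0 : PW w ≠ 0 := (Finset.prod_pos fun p hp => (Nat.prime_of_mem_primesBelow hp).pos).ne'
  have h1 := Nat.totient_eq_mul_prod_factors (PW w)
  have h2 : (PW w).primeFactors = Nat.primesBelow w := by
    ext p
    rw [Nat.mem_primeFactors, Nat.mem_primesBelow]
    constructor
    · rintro ⟨hp, h, _⟩
      exact ⟨(CV4_dvd w p hp).1 h, hp⟩
    · rintro ⟨h, hp⟩
      exact ⟨hp, (CV4_dvd w p hp).2 h, h0⟩
  rw [h2] at h1
  have h3 : (Nat.totient (PW w) : ℝ) = PW w * ∏ p ∈ Nat.primesBelow w, (1 - (p : ℝ)⁻¹) := by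
    have h4 := congrArg (fun x : ℚ => (x : ℝ)) h1
    push_cast at h4
    exact h4
  have h0' : (PW w : ℝ) ≠ 0 := by exact_mod_cast h0
  rw [h3, mul_div_cancel_left₀ _ h0']
  refine Finset.prod_congr rfl fun p _ => ?_
  rw [one_div]

/-- The left side is `lim_z ∏_{w ≤ p < z} (1 - ω_F(p)/p) (1 - 1/p)^(-g)`, the tail of a convergent
product with positive limit. -/
theorem bh_tail (F : Fin g → ℤ[X]) (hF : Sys F) (hN : NoFix F) (ε : ℝ) (hε : 0 < ε) :
    ∃ w₀ : ℕ, ∀ w : ℕ, w₀ ≤ w →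
      |bhConst F (PW w) * ((Nat.totient (PW w) : ℝ) / PW w) ^ g - 1| ≤ ε := by
  obtain ⟨h1, h1pos⟩ := bh_conv F hF hN 1 one_ne_zero
  have hkey : ∀ w : ℕ, bhConst F (PW w) * ((Nat.totient (PW w) : ℝ) / PW w) ^ g =
      bhConst F 1 / bhTrunc F 1 w := by
    intro w
    have h0 : PW w ≠ 0 := (Finset.prod_pos fun p hp => (Nat.prime_of_mem_primesBelow hp).pos).ne'
    obtain ⟨h2, _⟩ := bh_conv F hF hN (PW w) h0
    have h3 := h2.mul_const (((Nat.totient (PW w) : ℝ) / PW w) ^ g)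
    have h4 := h1.div_const (bhTrunc F 1 w)
    refine tendsto_nhds_unique h3 (h4.congr' ?_)
    filter_upwards [eventually_ge_atTop w] with z hz
    have h5 : bhTrunc F (PW w) z * ((Nat.totient (PW w) : ℝ) / PW w) ^ g * bhTrunc F 1 w =
        bhTrunc F 1 z := by
      rw [CV4_tot, CV4_bh, CV4_bh, CV4_bh, ← Finset.prod_pow]
      have hsub : Nat.primesBelow w ⊆ Nat.primesBelow z := by
        intro p hp
        rw [Nat.mem_primesBelow] at hp ⊢
        exact ⟨by omega, hp.2⟩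
      rw [← Finset.prod_sdiff hsub, ← Finset.prod_sdiff hsub (f := fun p => CV4_t F 1 p)]
      rw [mul_assoc, mul_assoc, ← Finset.prod_mul_distrib, ← Finset.prod_mul_distrib]
      congr 1
      · refine Finset.prod_congr rfl fun p hp => ?_
        rw [Finset.mem_sdiff, Nat.mem_primesBelow, Nat.mem_primesBelow] at hp
        obtain ⟨⟨_, hpp⟩, h6⟩ := hp
        have h7 : ¬ p ∣ PW w := fun h => h6 ⟨(CV4_dvd w p hpp).1 h, hpp⟩
        unfold CV4_t
        rw [if_neg h7, if_neg hpp.not_dvd_one]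
      · refine Finset.prod_congr rfl fun p hp => ?_
        rw [Nat.mem_primesBelow] at hp
        have h7 : p ∣ PW w := (CV4_dvd w p hp.2).2 hp.1
        have h8 := (CV4_pos F hN 1 p hp.2).2
        unfold CV4_t
        rw [if_pos h7, one_mul, inv_mul_cancel_left₀ (by positivity)]
    have h6 := CV4_bhpos F hN 1 w
    rw [← h5]
    field_simp
  have h2 : Tendsto (fun w => bhConst F 1 / bhTrunc F 1 w) atTop (𝓝 1) := by
    have h3 := (tendsto_const_nhds (x := bhConst F 1)).div h1 h1pos.ne'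
    rwa [div_self h1pos.ne'] at h3
  obtain ⟨w₀, hw₀⟩ := eventually_atTop.1 (h2.eventually (Metric.closedBall_mem_nhds 1 hε))
  refine ⟨w₀, fun w hw => ?_⟩
  rw [hkey w]
  have h3 := hw₀ w hw
  rwa [Real.dist_eq] at h3

end Pool.Agent.Lib.H33B
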