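import Pool.Agent.Lib.H33B.Defs
import Pool.Agent.Lib.H59.PolySieve
import Pool.Agent.Lib.H68T.CQ2

/-!
# Chunk LS3: sieve-type weights in classes of the values `G(n)`
-/

open Finset Polynomial

namespace Pool.Agent.Lib.H33B

open Pool.Agent.Lib.H59 (argCount rootCount)

theorem LS3_prime {f : ℤ[X]} {p : ℕ} (hp : p.Prime) (hpl : ¬ (p : ℤ) ∣ f.leadingCoeff) :
    rootCount f p ≤ f.natDegree := by
  classical
  have : Fact p.Prime := ⟨hp⟩
  set g := f.map (Int.castRingHom (ZMod p)) with hg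
  have hg0 : g ≠ 0 := by
    intro h
    apply hpl
    have := congrArg (fun q => q.coeff f.natDegree) h
    simp only [hg, coeff_map, coeff_zero, eq_intCast] at this
    exact (ZMod.intCast_zmod_eq_zero_iff_dvd _ _).mp this
  have h1 : rootCount f p ≤ g.roots.toFinset.card := by
    unfold rootCount
    refine Finset.card_le_card_of_injOn (fun a : ℕ => (a : ZMod p)) ?_ ?_
    · intro a ha
      rw [Finset.mem_coe, Finset.mem_filter] at ha
      rw [Finset.mem_coe, Multiset.mem_toFinset, mem_roots hg0, IsRoot.def, hg]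
      have h2 : ((f.eval (a : ℤ) : ℤ) : ZMod p) = 0 :=
        (ZMod.intCast_zmod_eq_zero_iff_dvd _ _).mpr ha.2
      have h3 := eval_intCast_map (Int.castRingHom (ZMod p)) f (a : ℤ)
      simp only [Int.cast_natCast, eq_intCast] at h3
      rw [h3]
      exact h2
    · intro a ha b hb hab
      rw [Finset.mem_coe, Finset.mem_filter, Finset.mem_range] at ha hb
      have := (ZMod.natCast_eq_natCast_iff' a b p).mp hab
      rwa [Nat.mod_eq_of_lt ha.1, Nat.mod_eq_of_lt hb.1] at this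
  refine h1.trans ((Multiset.toFinset_card_le _).trans ((card_roots' g).trans ?_))
  rw [hg]
  exact natDegree_map_le

theorem LS3_prod (H : ℤ[X]) (q : ℕ) (hq : Squarefree q) :
    (rootCount H q : ℝ) = ∏ p ∈ q.primeFactors, (rootCount H p : ℝ) := by
  have h1 := (Pool.Agent.Lib.H59.nuPoly_mult H).map_prod_of_prime q.primeFactors
    (fun p hp => Nat.prime_of_mem_primeFactors hp)
  rw [Nat.prod_primeFactors_of_squarefree hq] at h1
  simp only [Pool.Agent.Lib.H59.nuPoly_apply] at h1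
  rw [prod_div_distrib] at h1
  have h4 : (q : ℝ) = ∏ p ∈ q.primeFactors, (p : ℝ) := by
    have := congrArg (fun n : ℕ => (n : ℝ)) (Nat.prod_primeFactors_of_squarefree hq).symm
    push_cast at this
    exact this
  have h5 : (q : ℝ) ≠ 0 := by exact_mod_cast hq.ne_zero
  rw [← h4] at h1
  exact (div_left_inj' h5).mp h1

/-- For squarefree `q` the number of residues `b` modulo `q` with `G(b) ≡ v` is at most
`lc(G) k^(ω(q))`: `rootCount` is multiplicative (`H59.rootCount_mul`), for a prime `p` not dividing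
`lc(G)` it is at most `k` (the polynomial `G - v` is not zero modulo `p`), for `p ∣ lc(G)` at most
`p ≤ p k`. -/
theorem roots_le (G : ℤ[X]) (hk : 1 ≤ G.natDegree) (hl : 0 < G.leadingCoeff) (q : ℕ)
    (hq : Squarefree q) (v : ℤ) : (rootCount (G - C v) q : ℝ) ≤
      (G.leadingCoeff : ℝ) * (G.natDegree : ℝ) ^ q.primeFactors.card := by
  classical
  rw [LS3_prod _ q hq]
  have hdeg : (G - C v).natDegree = G.natDegree := natDegree_sub_C
  have hlc : (G - C v).leadingCoeff = G.leadingCoeff := by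
    unfold leadingCoeff
    rw [hdeg, coeff_sub, coeff_C_ne_zero (by omega), sub_zero]
  have hk' : (1 : ℝ) ≤ (G.natDegree : ℝ) := by exact_mod_cast hk
  have h1 : ∀ p ∈ q.primeFactors, (rootCount (G - C v) p : ℝ) ≤
      (if (p : ℤ) ∣ G.leadingCoeff then (p : ℝ) else 1) * (G.natDegree : ℝ) := by
    intro p hp
    have hp' := Nat.prime_of_mem_primeFactors hp
    split_ifs with h
    · have h2 : (rootCount (G - C v) p : ℝ) ≤ p := by
        exact_mod_cast Pool.Agent.Lib.H59.rootCount_le_self _ _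
      have h3 : (0 : ℝ) ≤ p := by positivity
      nlinarith
    · have h2 := LS3_prime (f := G - C v) hp' (by rw [hlc]; exact h)
      rw [hdeg] at h2
      rw [one_mul]
      exact_mod_cast h2
  refine (prod_le_prod (fun p _ => by positivity) h1).trans ?_
  rw [prod_mul_distrib, prod_const]
  refine mul_le_mul_of_nonneg_right ?_ (by positivity)
  rw [← prod_filter]
  have h2 : ∏ p ∈ q.primeFactors.filter (fun p : ℕ => (p : ℤ) ∣ G.leadingCoeff), p ∣
      G.leadingCoeff.natAbs := by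
    refine Finset.prod_primes_dvd _ (fun p hp => ?_) (fun p hp => ?_)
    · exact (Nat.prime_of_mem_primeFactors (mem_filter.mp hp).1).prime
    · exact Int.natCast_dvd.mp (mem_filter.mp hp).2
  have h3 := Nat.le_of_dvd (Int.natAbs_pos.mpr hl.ne') h2
  have h4 : ((∏ p ∈ q.primeFactors.filter (fun p : ℕ => (p : ℤ) ∣ G.leadingCoeff), p : ℕ) : ℝ) ≤
      (G.leadingCoeff.natAbs : ℝ) := by exact_mod_cast h3
  have h5 : (G.leadingCoeff.natAbs : ℝ) = (G.leadingCoeff : ℝ) := by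
    rw [Nat.cast_natAbs, abs_of_pos hl]
  rw [h5] at h4
  push_cast at h4
  exact h4

theorem LS3_term (M p : ℕ) (hp : 2 ≤ p) :
    (M : ℝ) / ((p : ℝ) - 1) ^ 2 ≤ (if p < 16 * M ^ 2 then 4 * (M : ℝ) + 1 else 1) *
      (p : ℝ) ^ (-(3 / 2) : ℝ) := by
  have hp2 : (2 : ℝ) ≤ p := by exact_mod_cast hp
  have hp0 : (0 : ℝ) < p := by linarith
  have h1 : (0 : ℝ) < ((p : ℝ) - 1) ^ 2 := by
    have : (0 : ℝ) < (p : ℝ) - 1 := by linarith
    positivity
  have h2 : (p : ℝ) ^ 2 ≤ 4 * ((p : ℝ) - 1) ^ 2 := by nlinarith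
  have e1 : (p : ℝ) ^ (-(3 / 2) : ℝ) = (p : ℝ) ^ ((1 : ℝ) / 2) / (p : ℝ) ^ 2 := by
    rw [show (-(3 / 2) : ℝ) = 1 / 2 - (2 : ℕ) by norm_num, Real.rpow_sub_natCast hp0.ne']
  have h3 : (M : ℝ) / ((p : ℝ) - 1) ^ 2 ≤ 4 * M / (p : ℝ) ^ 2 := by
    rw [div_le_div_iff₀ h1 (by positivity)]
    have hM : (0 : ℝ) ≤ M := by positivity
    nlinarith
  refine h3.trans ?_
  rw [e1, ← mul_div_assoc]
  refine div_le_div_of_nonneg_right ?_ (by positivity)
  split_ifs with h
  · have h4 : (1 : ℝ) ≤ (p : ℝ) ^ ((1 : ℝ) / 2) :=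
      Real.one_le_rpow (by linarith) (by norm_num)
    have hM : (0 : ℝ) ≤ M := by positivity
    nlinarith
  · rw [one_mul]
    push Not at h
    have h4 : ((16 * M ^ 2 : ℕ) : ℝ) ≤ p := by exact_mod_cast h
    have h5 : ((16 * M ^ 2 : ℕ) : ℝ) ^ ((1 : ℝ) / 2) ≤ (p : ℝ) ^ ((1 : ℝ) / 2) :=
      Real.rpow_le_rpow (by positivity) h4 (by norm_num)
    have h6 : ((16 * M ^ 2 : ℕ) : ℝ) = (4 * (M : ℝ)) ^ (2 : ℝ) := by
      rw [Real.rpow_two]
      push_cast
      ring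
    rw [h6, ← Real.rpow_mul (by positivity)] at h5
    norm_num at h5
    norm_num
    exact h5

/-- `∑_{q > w} μ(q)² M^(ω(q))/φ(q)² ≤ C w^(-1/4)` uniformly in the cut-off `Q`: `M^(ω(q)) ≤ C_M q^(1/4)`
(each prime factor `p > M^4` contributes `M ≤ p^(1/4)`, the others are finitely many) and
`q/φ(q) ≤ 2^(ω(q)) ≤ C q^(1/8)`, so the terms are at most `C q^(-3/2)`. -/
theorem tail_series (M : ℕ) : ∃ C : ℝ, 0 < C ∧ ∀ w : ℕ, 1 ≤ w → ∀ Q : ℕ,
    ∑ q ∈ (Icc w Q).filter Squarefree, (1 / (Nat.totient q : ℝ)) ^ 2 *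
      (M : ℝ) ^ q.primeFactors.card ≤ C * (w : ℝ) ^ (-(1 / 4) : ℝ) := by
  set B : ℝ := (4 * (M : ℝ) + 1) ^ (16 * M ^ 2) with hB
  have hB0 : 0 < B := by positivity
  have hsum : Summable (fun n : ℕ => 1 / (n : ℝ) ^ (5 / 4 : ℝ)) :=
    Real.summable_one_div_nat_rpow.mpr (by norm_num)
  set Z : ℝ := ∑' n : ℕ, 1 / (n : ℝ) ^ (5 / 4 : ℝ) with hZ
  have hZ0 : 0 ≤ Z := tsum_nonneg fun n => by positivity
  refine ⟨B * (Z + 1), by positivity, fun w hw Q => ?_⟩
  have hw0 : (0 : ℝ) < w := by exact_mod_cast hw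
  have hterm : ∀ q ∈ (Icc w Q).filter Squarefree, (1 / (Nat.totient q : ℝ)) ^ 2 *
      (M : ℝ) ^ q.primeFactors.card ≤ B * (w : ℝ) ^ (-(1 / 4) : ℝ) *
        (1 / (q : ℝ) ^ (5 / 4 : ℝ)) := by
    intro q hq
    rw [mem_filter, mem_Icc] at hq
    obtain ⟨⟨hwq, -⟩, hqs⟩ := hq
    have hq0 : 0 < q := by omega
    have hq0' : (0 : ℝ) < q := by exact_mod_cast hq0
    have h1 : (Nat.totient q : ℝ) = ∏ p ∈ q.primeFactors, ((p : ℝ) - 1) := by
      have h1 := Nat.totient_mul_prod_primeFactors q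
      rw [Nat.prod_primeFactors_of_squarefree hqs, mul_comm] at h1
      have h2 := Nat.eq_of_mul_eq_mul_left hq0 h1
      rw [h2]
      push_cast
      refine prod_congr rfl fun p hp => ?_
      rw [Nat.cast_sub (Nat.prime_of_mem_primeFactors hp).one_lt.le]
      simp
    have h2 : (1 / (Nat.totient q : ℝ)) ^ 2 * (M : ℝ) ^ q.primeFactors.card =
        ∏ p ∈ q.primeFactors, (M : ℝ) / ((p : ℝ) - 1) ^ 2 := by
      rw [h1, prod_div_distrib, prod_const, prod_pow, div_pow, one_pow]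
      ring
    have h3 : (q : ℝ) ^ (-(3 / 2) : ℝ) = ∏ p ∈ q.primeFactors, (p : ℝ) ^ (-(3 / 2) : ℝ) := by
      have h4 : (q : ℝ) = ∏ p ∈ q.primeFactors, (p : ℝ) := by
        have := congrArg (fun n : ℕ => (n : ℝ)) (Nat.prod_primeFactors_of_squarefree hqs).symm
        push_cast at this
        exact this
      rw [h4, Real.finsetProd_rpow _ _ (fun p _ => by positivity)]
    have h4 : (1 / (Nat.totient q : ℝ)) ^ 2 * (M : ℝ) ^ q.primeFactors.card ≤
        B * (q : ℝ) ^ (-(3 / 2) : ℝ) := by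
      rw [h2, h3]
      refine (prod_le_prod (fun p _ => by positivity) (fun p hp =>
        LS3_term M p (Nat.prime_of_mem_primeFactors hp).two_le)).trans ?_
      rw [prod_mul_distrib]
      refine mul_le_mul_of_nonneg_right ?_ (prod_nonneg fun p _ => by positivity)
      rw [← prod_filter, prod_const, hB]
      refine pow_le_pow_right₀ (by linarith [(by positivity : (0 : ℝ) ≤ M)]) ?_
      calc (q.primeFactors.filter (fun p => p < 16 * M ^ 2)).card
          ≤ (range (16 * M ^ 2)).card := card_le_card fun p hp => by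
            rw [mem_filter] at hp
            exact mem_range.mpr hp.2
        _ = _ := card_range _
    refine h4.trans ?_
    rw [mul_assoc]
    refine mul_le_mul_of_nonneg_left ?_ hB0.le
    have h5 : (q : ℝ) ^ (-(3 / 2) : ℝ) =
        (q : ℝ) ^ (-(1 / 4) : ℝ) * (1 / (q : ℝ) ^ (5 / 4 : ℝ)) := by
      rw [one_div ((q : ℝ) ^ (5 / 4 : ℝ)), ← Real.rpow_neg hq0'.le, ← Real.rpow_add hq0']
      norm_num
    rw [h5]
    refine mul_le_mul_of_nonneg_right ?_ (by positivity)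
    exact Real.rpow_le_rpow_of_nonpos hw0 (by exact_mod_cast hwq) (by norm_num)
  refine (sum_le_sum hterm).trans ?_
  rw [← mul_sum]
  have h6 : ∑ q ∈ (Icc w Q).filter Squarefree, 1 / (q : ℝ) ^ (5 / 4 : ℝ) ≤ Z :=
    hsum.sum_le_tsum _ (fun n _ => by positivity)
  have h7 : 0 < B * (w : ℝ) ^ (-(1 / 4) : ℝ) := by positivity
  calc B * (w : ℝ) ^ (-(1 / 4) : ℝ) * ∑ q ∈ (Icc w Q).filter Squarefree, 1 / (q : ℝ) ^ (5 / 4 : ℝ)
      ≤ B * (w : ℝ) ^ (-(1 / 4) : ℝ) * (Z + 1) := mul_le_mul_of_nonneg_left (by linarith) h7.le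
    _ = _ := by ring

/-- The second moment over the classes of the values. -/
theorem LS3_core (G : ℤ[X]) (hk : 1 ≤ G.natDegree) (hl : 0 < G.leadingCoeff) (X : ℕ)
    (S B : ℝ) (f : ℕ → ℝ) (hf : ∀ n ∈ Icc 1 X, 0 ≤ f n) (hS : ∑ n ∈ Icc 1 X, f n ≤ S)
    (A : Finset ℕ) (hA : A ⊆ Icc 1 X) (q : ℕ) (hq : Squarefree q) (hB : 0 ≤ B)
    (hcls : ∀ b : ℕ, ∑ n ∈ (Icc 1 X).filter (fun n => n ≡ b [MOD q]), f n ≤ B) :
    ∑ r ∈ range q, (∑ n ∈ A.filter (fun n : ℕ => (q : ℤ) ∣ G.eval (n : ℤ) - r), f n) ^ 2 ≤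
      G.leadingCoeff * (G.natDegree : ℝ) ^ q.primeFactors.card * B * S := by
  classical
  have hq0 : 0 < q := Nat.pos_of_ne_zero hq.ne_zero
  have hlr : (0 : ℝ) < G.leadingCoeff := by exact_mod_cast hl
  have hL : (0 : ℝ) ≤ G.leadingCoeff * (G.natDegree : ℝ) ^ q.primeFactors.card := by positivity
  have hs0 : ∀ r : ℕ, 0 ≤ ∑ n ∈ A.filter (fun n : ℕ => (q : ℤ) ∣ G.eval (n : ℤ) - r), f n :=
    fun r => sum_nonneg fun n hn => hf n (hA (mem_filter.mp hn).1)
  have hs1 : ∀ r : ℕ, ∑ n ∈ A.filter (fun n : ℕ => (q : ℤ) ∣ G.eval (n : ℤ) - r), f n ≤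
      G.leadingCoeff * (G.natDegree : ℝ) ^ q.primeFactors.card * B := by
    intro r
    set s := A.filter (fun n : ℕ => (q : ℤ) ∣ G.eval (n : ℤ) - r) with hs
    set T := (range q).filter (fun a : ℕ => (q : ℤ) ∣ (G - C (r : ℤ)).eval (a : ℤ)) with hT
    have hmap : ∀ n ∈ s, n % q ∈ T := by
      intro n hn
      rw [hs, mem_filter] at hn
      rw [hT, mem_filter, mem_range]
      refine ⟨Nat.mod_lt _ hq0, ?_⟩
      rw [Pool.Agent.Lib.H59.dvd_eval_mod_iff]
      simpa using hn.2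
    rw [← sum_fiberwise_of_maps_to hmap f]
    have h1 : ∀ b ∈ T, ∑ n ∈ s.filter (fun n => n % q = b), f n ≤ B := by
      intro b hb
      refine le_trans ?_ (hcls b)
      refine sum_le_sum_of_subset_of_nonneg ?_ ?_
      · intro n hn
        rw [mem_filter, hs, mem_filter] at hn
        rw [mem_filter]
        refine ⟨hA hn.1.1, ?_⟩
        rw [hT, mem_filter, mem_range] at hb
        unfold Nat.ModEq
        rw [hn.2, Nat.mod_eq_of_lt hb.1]
      · intro n hn _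
        exact hf n (mem_filter.mp hn).1
    refine (sum_le_sum h1).trans ?_
    rw [sum_const, nsmul_eq_mul]
    refine mul_le_mul_of_nonneg_right ?_ hB
    exact roots_le G hk hl q hq r
  have hs2 : ∑ r ∈ range q, ∑ n ∈ A.filter (fun n : ℕ => (q : ℤ) ∣ G.eval (n : ℤ) - r), f n ≤ S := by
    have h1 : ∑ r ∈ range q, ∑ n ∈ A.filter (fun n : ℕ => (q : ℤ) ∣ G.eval (n : ℤ) - r), f n =
        ∑ n ∈ A, f n := by
      have hmap : ∀ n ∈ A, (G.eval (n : ℤ) % q).toNat ∈ range q := by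
        intro n _
        rw [mem_range]
        have h2 := Int.emod_lt_of_pos (G.eval (n : ℤ)) (by exact_mod_cast hq0 : (0 : ℤ) < q)
        have h3 := Int.emod_nonneg (G.eval (n : ℤ)) (by exact_mod_cast hq0.ne' : (q : ℤ) ≠ 0)
        omega
      rw [← sum_fiberwise_of_maps_to hmap f]
      refine sum_congr rfl fun r hr => ?_
      refine sum_congr ?_ fun _ _ => rfl
      ext n
      simp only [mem_filter]
      rw [mem_range] at hr
      have h2 := Int.emod_lt_of_pos (G.eval (n : ℤ)) (by exact_mod_cast hq0 : (0 : ℤ) < q)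
      have h3 := Int.emod_nonneg (G.eval (n : ℤ)) (by exact_mod_cast hq0.ne' : (q : ℤ) ≠ 0)
      refine and_congr_right fun _ => ?_
      constructor
      · intro h
        have h4 : G.eval (n : ℤ) % q = (r : ℤ) % q :=
          Int.emod_eq_emod_iff_emod_sub_eq_zero.mpr (Int.emod_eq_zero_of_dvd h)
        rw [h4, Int.emod_eq_of_lt (by positivity) (by exact_mod_cast hr)]
        simp
      · intro h
        have h4 : (r : ℤ) = G.eval (n : ℤ) % q := by omega
        rw [h4]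
        exact Int.dvd_self_sub_emod
    rw [h1]
    refine le_trans (sum_le_sum_of_subset_of_nonneg hA fun n hn _ => hf n hn) hS
  calc ∑ r ∈ range q, (∑ n ∈ A.filter (fun n : ℕ => (q : ℤ) ∣ G.eval (n : ℤ) - r), f n) ^ 2
      ≤ ∑ r ∈ range q, G.leadingCoeff * (G.natDegree : ℝ) ^ q.primeFactors.card * B *
        ∑ n ∈ A.filter (fun n : ℕ => (q : ℤ) ∣ G.eval (n : ℤ) - r), f n := by
        refine sum_le_sum fun r _ => ?_
        rw [pow_two]
        exact mul_le_mul_of_nonneg_right (hs1 r) (hs0 r)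
    _ = G.leadingCoeff * (G.natDegree : ℝ) ^ q.primeFactors.card * B *
        ∑ r ∈ range q, ∑ n ∈ A.filter (fun n : ℕ => (q : ℤ) ∣ G.eval (n : ℤ) - r), f n := by
        rw [mul_sum]
    _ ≤ _ := mul_le_mul_of_nonneg_left hs2 (mul_nonneg hL hB)

theorem LS3_mass (D : ℕ) (C K : ℝ) (hK : 0 ≤ K) (Y X : ℕ) (hY : 3 ≤ Y) (S : ℝ) (f : ℕ → ℝ)
    (hf : SieveWt D C K Y X S f) : ∑ n ∈ Icc 1 X, f n ≤ S := by
  have hlog : 1 ≤ Real.log Y := by
    have h1 : Real.exp 1 ≤ Y := by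
      have h2 := Real.exp_one_lt_d9
      have h3 : (3 : ℝ) ≤ Y := by exact_mod_cast hY
      linarith
    rw [← Real.log_exp 1]
    exact Real.log_le_log (Real.exp_pos 1) h1
  have h1 := hf.cls 1 0 squarefree_one (by
    push_cast
    exact Real.one_le_rpow hlog hK)
  simpa [Nat.modEq_one] using h1

/-- For squarefree `q`: `∑_r (∑_{G(n) ≡ r} f(n))² ≤ (∑ f) max_r ∑_{G(n) ≡ r} f(n)`; the `n` with
`G(n) ≡ r (mod q)` lie in at most `rootCount (G - r) q ≤ lc(G) k^(ω(q))` classes modulo `q`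
(`roots_le`), each of weight at most `D^(ω(q)) S/q`, and `∑ f ≤ S` (modulus `1`). `A ⊆ [1,X]`. -/
theorem cls_small (G : ℤ[X]) (hk : 1 ≤ G.natDegree) (hl : 0 < G.leadingCoeff) (D : ℕ) (C K : ℝ)
    (hK : 0 ≤ K) (Y X : ℕ) (hY : 3 ≤ Y) (S : ℝ) (f : ℕ → ℝ) (hf : SieveWt D C K Y X S f)
    (A : Finset ℕ) (hA : A ⊆ Icc 1 X) (q : ℕ) (hq : Squarefree q) (hqY : (q : ℝ) ≤ (Real.log Y) ^ K) :
    (q : ℝ) * ∑ r ∈ range q,
      (∑ n ∈ A.filter (fun n : ℕ => (q : ℤ) ∣ G.eval (n : ℤ) - r), f n) ^ 2 ≤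
        G.leadingCoeff * ((G.natDegree * D : ℕ) : ℝ) ^ q.primeFactors.card * S ^ 2 := by
  have hq0 : (0 : ℝ) < q := by exact_mod_cast Nat.pos_of_ne_zero hq.ne_zero
  have hS := LS3_mass D C K hK Y X hY S f hf
  have hS0 : 0 ≤ S := (sum_nonneg fun n hn => hf.nonneg n hn).trans hS
  have h1 := LS3_core G hk hl X S ((D : ℝ) ^ q.primeFactors.card * S / q) f hf.nonneg hS A hA q hq
    (by positivity) (fun b => hf.cls q b hq hqY)
  calc (q : ℝ) * ∑ r ∈ range q,
      (∑ n ∈ A.filter (fun n : ℕ => (q : ℤ) ∣ G.eval (n : ℤ) - r), f n) ^ 2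
      ≤ q * (G.leadingCoeff * (G.natDegree : ℝ) ^ q.primeFactors.card *
        ((D : ℝ) ^ q.primeFactors.card * S / q) * S) := mul_le_mul_of_nonneg_left h1 hq0.le
    _ = _ := by
        push_cast
        rw [mul_pow]
        field_simp

theorem LS3_card (X q b : ℕ) (hq : 0 < q) (hqX : q ≤ X) :
    (((Icc 1 X).filter (fun n => n ≡ b [MOD q])).card : ℝ) ≤ 2 * X / q := by
  have h0 : Icc 1 X = Ioc 0 X := by
    ext n
    simp only [mem_Icc, mem_Ioc]
    omega
  have hq0 : (0 : ℝ) < q := by exact_mod_cast hq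
  have h1 := Nat.Ioc_filter_modEq_card 0 X hq b
  have h2 : ⌊((X : ℚ) - b) / q⌋ - ⌊(((0 : ℕ) : ℚ) - b) / q⌋ ≤ X / q + 1 := by
    have h3 := Int.floor_le (((X : ℚ) - b) / q)
    have h4 := Int.lt_floor_add_one ((((0 : ℕ) : ℚ) - b) / q)
    have hq1 : (0 : ℚ) < q := by exact_mod_cast hq
    have h5 : ((X : ℚ) - b) / q - (((0 : ℕ) : ℚ) - b) / q = X / q := by
      push_cast
      field_simp
      ring
    have h6 : ((⌊((X : ℚ) - b) / q⌋ - ⌊(((0 : ℕ) : ℚ) - b) / q⌋ : ℤ) : ℚ) < X / q + 1 := by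
      push_cast
      push_cast at h3 h4 h5
      linarith
    have h7 : (X : ℚ) / q < ((X / q : ℕ) : ℚ) + 1 := by
      rw [div_lt_iff₀ hq1]
      have h8 : X < (X / q + 1) * q := by
        have := Nat.div_add_mod X q
        have h9 := Nat.mod_lt X hq
        nlinarith
      exact_mod_cast h8
    have h8 : ((⌊((X : ℚ) - b) / q⌋ - ⌊(((0 : ℕ) : ℚ) - b) / q⌋ : ℤ) : ℚ) <
        ((((X / q : ℕ) : ℤ) + 2 : ℤ) : ℚ) := by
      refine h6.trans ?_
      rw [Int.cast_add, Int.cast_natCast]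
      have h10 : ((2 : ℤ) : ℚ) = 2 := by norm_num
      rw [h10]
      linarith
    have h9 : ⌊((X : ℚ) - b) / q⌋ - ⌊(((0 : ℕ) : ℚ) - b) / q⌋ < ((X / q : ℕ) : ℤ) + 2 := by
      exact_mod_cast h8
    have h10 : (X : ℤ) / (q : ℤ) = ((X / q : ℕ) : ℤ) := (Int.natCast_div X q).symm
    rw [h10]
    omega
  have h3 : (((Icc 1 X).filter (fun n => n ≡ b [MOD q])).card : ℤ) ≤ X / q + 1 := by
    rw [h0, h1]
    refine max_le h2 ?_
    positivity
  have h4 : (((Icc 1 X).filter (fun n => n ≡ b [MOD q])).card : ℝ) ≤ ((X / q : ℕ) : ℝ) + 1 := by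
    exact_mod_cast h3
  have h5 : ((X / q : ℕ) : ℝ) ≤ (X : ℝ) / q := Nat.cast_div_le
  have h6 : (1 : ℝ) ≤ (X : ℝ) / q := by
    rw [le_div_iff₀ hq0, one_mul]
    exact_mod_cast hqX
  calc (((Icc 1 X).filter (fun n => n ≡ b [MOD q])).card : ℝ) ≤ (X : ℝ) / q + X / q := by linarith
    _ = _ := by ring

/-- For every squarefree `q ≤ X`, with the trivial bound `f ≤ (log Y)^C` in each class
(`X/q + 1 ≤ 2X/q` elements), `∑ f ≤ S` and `X ≤ S (log Y)^C`. -/
theorem cls_large (G : ℤ[X]) (hk : 1 ≤ G.natDegree) (hl : 0 < G.leadingCoeff) (D : ℕ) (C K : ℝ)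
    (hK : 0 ≤ K) (Y X : ℕ) (hY : 3 ≤ Y) (S : ℝ) (f : ℕ → ℝ) (hf : SieveWt D C K Y X S f)
    (A : Finset ℕ) (hA : A ⊆ Icc 1 X) (q : ℕ) (hq : Squarefree q) (hqX : q ≤ X) :
    (q : ℝ) * ∑ r ∈ range q,
      (∑ n ∈ A.filter (fun n : ℕ => (q : ℤ) ∣ G.eval (n : ℤ) - r), f n) ^ 2 ≤
        2 * G.leadingCoeff * (G.natDegree : ℝ) ^ q.primeFactors.card * (Real.log Y) ^ (2 * C) *
          S ^ 2 := by
  have hqn : 0 < q := Nat.pos_of_ne_zero hq.ne_zero
  have hq0 : (0 : ℝ) < q := by exact_mod_cast hqn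
  have hS := LS3_mass D C K hK Y X hY S f hf
  have hS0 : 0 ≤ S := (sum_nonneg fun n hn => hf.nonneg n hn).trans hS
  have hY3 : (3 : ℝ) ≤ Y := by exact_mod_cast hY
  have hlog0 : 0 < Real.log Y := Real.log_pos (by linarith)
  have hlr : (0 : ℝ) < G.leadingCoeff := by exact_mod_cast hl
  have hlc : 0 ≤ (Real.log Y) ^ C := by positivity
  have h1 := LS3_core G hk hl X S (2 * X / q * (Real.log Y) ^ C) f hf.nonneg hS A hA q hq
    (by positivity) (fun b => by
      calc ∑ n ∈ (Icc 1 X).filter (fun n => n ≡ b [MOD q]), f n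
          ≤ ∑ n ∈ (Icc 1 X).filter (fun n => n ≡ b [MOD q]), (Real.log Y) ^ C :=
            sum_le_sum fun n hn => hf.le n (mem_filter.mp hn).1
        _ = (((Icc 1 X).filter (fun n => n ≡ b [MOD q])).card : ℝ) * (Real.log Y) ^ C := by
            rw [sum_const, nsmul_eq_mul]
        _ ≤ _ := mul_le_mul_of_nonneg_right (LS3_card X q b hqn hqX) hlc)
  have h2 : (Real.log Y) ^ (2 * C) = (Real.log Y) ^ C * (Real.log Y) ^ C := by
    rw [← Real.rpow_add hlog0]
    ring_nf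
  have hbig := hf.large
  calc (q : ℝ) * ∑ r ∈ range q,
      (∑ n ∈ A.filter (fun n : ℕ => (q : ℤ) ∣ G.eval (n : ℤ) - r), f n) ^ 2
      ≤ q * (G.leadingCoeff * (G.natDegree : ℝ) ^ q.primeFactors.card *
        (2 * X / q * (Real.log Y) ^ C) * S) := mul_le_mul_of_nonneg_left h1 hq0.le
    _ = 2 * G.leadingCoeff * (G.natDegree : ℝ) ^ q.primeFactors.card * (Real.log Y) ^ C * S * X := by
        field_simp
    _ ≤ 2 * G.leadingCoeff * (G.natDegree : ℝ) ^ q.primeFactors.card * (Real.log Y) ^ C * S *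
        (S * (Real.log Y) ^ C) := mul_le_mul_of_nonneg_left hbig (by positivity)
    _ = _ := by
        rw [h2]
        ring

end Pool.Agent.Lib.H33B
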