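import Pool.Agent.Lib.H33B.SR1

/-!
# Chunk SR4: averages of the singular series over a class, `G = x`; the matrix of coprime differences
-/

open Finset Polynomial

namespace Pool.Agent.Lib.H33B

open Pool.Agent.Lib.H59 (omegaN seriesTrunc rootCount)

variable {g : ℕ}

theorem SR4_modEq (q : ℕ) (hq : Squarefree q) (a b : ℕ) :
    a ≡ b [MOD q] ↔ ∀ p ∈ q.primeFactors, a ≡ b [MOD p] := by
  constructor
  · intro h p hp
    exact h.of_dvd (Nat.dvd_of_mem_primeFactors hp)
  · intro h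
    rw [Nat.modEq_iff_dvd]
    have h1 : (q : ℤ) = ∏ p ∈ q.primeFactors, (p : ℤ) := by
      have := congrArg (fun n : ℕ => (n : ℤ)) (Nat.prod_primeFactors_of_squarefree hq).symm
      push_cast at this
      exact this
    rw [h1]
    refine Finset.prod_dvd_of_coprime ?_ ?_
    · intro p hp r hr hpr
      simp only [Function.onFun]
      rw [Nat.isCoprime_iff_coprime]
      exact (Nat.coprime_primes (Nat.prime_of_mem_primeFactors hp)
        (Nat.prime_of_mem_primeFactors hr)).mpr hpr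
    · intro p hp
      exact Nat.modEq_iff_dvd.mp (h p hp)

theorem SR4_cls (w q b' : ℕ) (hq : q ∣ PW w) (A : ℕ → ℕ → Prop) [∀ p, DecidablePred (A p)]
    (hA : ∀ p b, A p (b % p) ↔ A p b) :
    ((range (PW w)).filter (fun b => b ≡ b' [MOD q] ∧ ∀ p ∈ Nat.primesBelow w, A p b)).card =
      (if ∀ p ∈ q.primeFactors, A p b' then 1 else 0) *
        ∏ p ∈ (Nat.primesBelow w).filter (fun p => ¬ p ∣ q), ((range p).filter (A p)).card := by
  classical
  have hqs : Squarefree q := (PW_squarefree w).squarefree_of_dvd hq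
  have hpf : q.primeFactors = (Nat.primesBelow w).filter (fun p => p ∣ q) := by
    ext p
    rw [Nat.mem_primeFactors, mem_filter, Nat.mem_primesBelow]
    constructor
    · rintro ⟨h1, h2, -⟩
      exact ⟨⟨(prime_dvd_PW w p h1).mp (h2.trans hq), h1⟩, h2⟩
    · rintro ⟨⟨_, h1⟩, h2⟩
      exact ⟨h1, h2, hqs.ne_zero⟩
  have h1 := SR1_crt (Nat.primesBelow w) (fun p hp => Nat.prime_of_mem_primesBelow hp)
    (fun p b => (p ∣ q → b ≡ b' [MOD p]) ∧ A p b) (fun p _ b => by
      refine and_congr (imp_congr_right fun _ => ?_) (hA p b)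
      unfold Nat.ModEq
      rw [Nat.mod_mod])
  have h2 : (range (PW w)).filter (fun b => b ≡ b' [MOD q] ∧ ∀ p ∈ Nat.primesBelow w, A p b) =
      (range (∏ p ∈ Nat.primesBelow w, p)).filter
        (fun b => ∀ p ∈ Nat.primesBelow w, (p ∣ q → b ≡ b' [MOD p]) ∧ A p b) := by
    unfold PW
    refine filter_congr fun b _ => ?_
    rw [SR4_modEq q hqs, hpf]
    constructor
    · rintro ⟨h3, h4⟩ p hp
      exact ⟨fun hpq => h3 p (mem_filter.mpr ⟨hp, hpq⟩), h4 p hp⟩
    · intro h3
      exact ⟨fun p hp => (h3 p (mem_filter.mp hp).1).1 (mem_filter.mp hp).2,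
        fun p hp => (h3 p hp).2⟩
  rw [h2, h1]
  rw [← prod_filter_mul_prod_filter_not (Nat.primesBelow w) (fun p => p ∣ q)]
  congr 1
  · have h3 : ∀ p ∈ (Nat.primesBelow w).filter (fun p => p ∣ q),
        ((range p).filter (fun b => (p ∣ q → b ≡ b' [MOD p]) ∧ A p b)).card =
          if A p b' then 1 else 0 := by
      intro p hp
      rw [mem_filter, Nat.mem_primesBelow] at hp
      have h4 : (range p).filter (fun b => (p ∣ q → b ≡ b' [MOD p]) ∧ A p b) =
          if A p b' then {b' % p} else ∅ := by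
        ext b
        rw [mem_filter, mem_range]
        constructor
        · rintro ⟨h5, h6, h7⟩
          have h8 : b = b' % p := by
            have := h6 hp.2
            unfold Nat.ModEq at this
            rwa [Nat.mod_eq_of_lt h5] at this
          rw [if_pos]
          · rw [h8]
            exact mem_singleton_self _
          · rw [← hA, ← h8]
            exact h7
        · intro h5
          split_ifs at h5 with h6
          · rw [mem_singleton] at h5
            rw [h5]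
            refine ⟨Nat.mod_lt _ hp.1.2.pos, fun _ => Nat.mod_modEq _ _, ?_⟩
            rw [hA]
            exact h6
          · simp at h5
      rw [h4]
      split_ifs <;> simp
    rw [prod_congr rfl h3, Finset.prod_ite_zero, hpf]
    simp
  · refine prod_congr rfl fun p hp => ?_
    rw [mem_filter] at hp
    refine congrArg _ (filter_congr fun b _ => ?_)
    constructor
    · rintro ⟨_, h⟩
      exact h
    · intro h
      exact ⟨fun h' => absurd h' hp.2, h⟩

theorem SR4_phi (w q : ℕ) (hq : q ∣ PW w) :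
    (Nat.totient (PW w) : ℝ) = Nat.totient q *
      ∏ p ∈ (Nat.primesBelow w).filter (fun p => ¬ p ∣ q), ((p : ℝ) - 1) := by
  have hqs : Squarefree q := (PW_squarefree w).squarefree_of_dvd hq
  have hpf : q.primeFactors = (Nat.primesBelow w).filter (fun p => p ∣ q) := by
    ext p
    rw [Nat.mem_primeFactors, mem_filter, Nat.mem_primesBelow]
    constructor
    · rintro ⟨h1, h2, -⟩
      exact ⟨⟨(prime_dvd_PW w p h1).mp (h2.trans hq), h1⟩, h2⟩
    · rintro ⟨⟨_, h1⟩, h2⟩
      exact ⟨h1, h2, hqs.ne_zero⟩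
  rw [SR1_totient, Pool.Agent.Lib.H68T.cg1_totient_squarefree_real hqs, hpf,
    prod_filter_mul_prod_filter_not]

theorem SR4_PW (w q : ℕ) (hq : q ∣ PW w) :
    (PW w : ℝ) = q * ∏ p ∈ (Nat.primesBelow w).filter (fun p => ¬ p ∣ q), (p : ℝ) := by
  have hqs : Squarefree q := (PW_squarefree w).squarefree_of_dvd hq
  have hpf : q.primeFactors = (Nat.primesBelow w).filter (fun p => p ∣ q) := by
    ext p
    rw [Nat.mem_primeFactors, mem_filter, Nat.mem_primesBelow]
    constructor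
    · rintro ⟨h1, h2, -⟩
      exact ⟨⟨(prime_dvd_PW w p h1).mp (h2.trans hq), h1⟩, h2⟩
    · rintro ⟨⟨_, h1⟩, h2⟩
      exact ⟨h1, h2, hqs.ne_zero⟩
  have h1 : (q : ℝ) = ∏ p ∈ q.primeFactors, (p : ℝ) := by
    have := congrArg (fun n : ℕ => (n : ℝ)) (Nat.prod_primeFactors_of_squarefree hqs).symm
    push_cast at this
    exact this
  rw [h1, hpf, prod_filter_mul_prod_filter_not]
  unfold PW
  push_cast
  rfl

theorem SR4_coprime (q : ℕ) (hq : Squarefree q) (m : ℤ) :
    IsCoprime m (q : ℤ) ↔ ∀ p ∈ q.primeFactors, ¬ (p : ℤ) ∣ m := by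
  have h1 : (q : ℤ) = ∏ p ∈ q.primeFactors, (p : ℤ) := by
    have := congrArg (fun n : ℕ => (n : ℤ)) (Nat.prod_primeFactors_of_squarefree hq).symm
    push_cast at this
    exact this
  rw [h1, IsCoprime.prod_right_iff]
  refine forall₂_congr fun p hp => ?_
  have hp' := Nat.prime_of_mem_primeFactors hp
  rw [isCoprime_comm, (Nat.prime_iff_prime_int.mp hp').coprime_iff_not_dvd]

theorem SR4_dvd_mod (p : ℕ) (n : ℤ) (N : ℕ) :
    ¬ (p : ℤ) ∣ ((N % p : ℕ) : ℤ) - n ↔ ¬ (p : ℤ) ∣ (N : ℤ) - n := by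
  have h1 : (p : ℤ) ∣ (N : ℤ) - ((N % p : ℕ) : ℤ) := by
    rw [Int.natCast_mod]
    exact Int.dvd_self_sub_emod
  refine not_congr ⟨fun h => ?_, fun h => ?_⟩
  · have := dvd_add h1 h
    simpa using this
  · have := dvd_sub h h1
    simpa using this

theorem SR4_card (p : ℕ) (hp : 0 < p) (n : ℤ) :
    ((range p).filter (fun N : ℕ => ¬ (p : ℤ) ∣ (N : ℤ) - n)).card = p - 1 := by
  have h1 : (range p).filter (fun N : ℕ => (p : ℤ) ∣ (N : ℤ) - n) = {(n % p).toNat} := by
    ext N
    have h2 := Int.emod_lt_of_pos n (by exact_mod_cast hp : (0 : ℤ) < p)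
    have h3 := Int.emod_nonneg n (by exact_mod_cast hp.ne' : (p : ℤ) ≠ 0)
    rw [mem_filter, mem_range, mem_singleton]
    constructor
    · rintro ⟨h4, h5⟩
      have h6 : (N : ℤ) % p = n % p :=
        Int.emod_eq_emod_iff_emod_sub_eq_zero.mpr (Int.emod_eq_zero_of_dvd h5)
      rw [Int.emod_eq_of_lt (by positivity) (by exact_mod_cast h4)] at h6
      omega
    · intro h4
      have h5 : (N : ℤ) = n % p := by omega
      refine ⟨by omega, ?_⟩
      rw [h5, ← dvd_neg, neg_sub]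
      exact Int.dvd_self_sub_emod
  have h2 := card_filter_add_card_filter_not (s := range p) (fun N : ℕ => (p : ℤ) ∣ (N : ℤ) - n)
  rw [card_range, h1, card_singleton] at h2
  omega

/-- The average of `Lw` over the class `N₀ - b` modulo `q ∣ P = PW w` is `Lq`:
`∑_{N mod P, N ≡ N₀ (q)} Lw w (N - n) = (P/q) Lq q (N₀ - n)`. -/
theorem Lw_avg (w q N₀ : ℕ) (hq : q ∣ PW w) (n : ℤ) :
    ∑ N ∈ (range (PW w)).filter (fun N => N ≡ N₀ [MOD q]), Lw w ((N : ℤ) - n) =
      ((PW w : ℝ) / q) * Lq q ((N₀ : ℤ) - n) := by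
  classical
  have hqs : Squarefree q := (PW_squarefree w).squarefree_of_dvd hq
  have hq0 : 0 < q := Nat.pos_of_ne_zero hqs.ne_zero
  have h1 : ∑ N ∈ (range (PW w)).filter (fun N => N ≡ N₀ [MOD q]), Lw w ((N : ℤ) - n) =
      (((range (PW w)).filter (fun N => N ≡ N₀ [MOD q] ∧
        ∀ p ∈ Nat.primesBelow w, ¬ (p : ℤ) ∣ (N : ℤ) - n)).card : ℝ) *
        ((PW w : ℝ) / (Nat.totient (PW w) : ℝ)) := by
    unfold Lw Lq
    rw [← sum_filter, filter_filter, sum_const, nsmul_eq_mul]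
    congr 2
    refine congrArg _ (filter_congr fun N _ => ?_)
    rw [SR1_coprime]
  rw [h1, SR4_cls w q N₀ hq (fun p N => ¬ (p : ℤ) ∣ (N : ℤ) - n) (fun p b => SR4_dvd_mod p n b)]
  have h2 : ∀ p ∈ (Nat.primesBelow w).filter (fun p => ¬ p ∣ q),
      ((((range p).filter (fun N : ℕ => ¬ (p : ℤ) ∣ (N : ℤ) - n)).card : ℕ) : ℝ) = (p : ℝ) - 1 := by
    intro p hp
    have hp' := (Nat.mem_primesBelow.mp (mem_filter.mp hp).1).2
    rw [SR4_card p hp'.pos n, Nat.cast_sub hp'.one_lt.le]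
    simp
  push_cast
  rw [prod_congr rfl h2]
  have hφP : (0 : ℝ) < (Nat.totient (PW w) : ℝ) := by
    exact_mod_cast Nat.totient_pos.mpr (PW_pos w)
  have hφq : (0 : ℝ) < (Nat.totient q : ℝ) := by exact_mod_cast Nat.totient_pos.mpr hq0
  have hq0' : (0 : ℝ) < q := by exact_mod_cast hq0
  have h3 := SR4_phi w q hq
  unfold Lq
  by_cases hc : IsCoprime ((N₀ : ℤ) - n) (q : ℤ)
  · rw [if_pos ((SR4_coprime q hqs _).mp hc), if_pos hc, one_mul]
    set R := ∏ p ∈ (Nat.primesBelow w).filter (fun p => ¬ p ∣ q), ((p : ℝ) - 1)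
    rw [h3]
    have hR : R ≠ 0 := by
      intro h
      rw [h, mul_zero] at h3
      exact hφP.ne' h3
    field_simp
  · rw [if_neg (fun h => hc ((SR4_coprime q hqs _).mpr h)), if_neg hc]
    simp

open scoped Classical in
/-- Let `P = PW w`, `q ∣ P`. By `series_count` the left side is
`(P/φ(P))^(g+1) P⁻¹ ∑_{b mod P, (F(b),P) = 1} #{N mod P : N ≡ N₀ (q), (N - b, P) = 1}`; the inner number is
`φ(P)/φ(q)` if `(N₀ - b, q) = 1` and `0` otherwise; sorting the `b` by their class `b'` modulo `q`, the number of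
`b mod P`, `b ≡ b' (q)`, `(F(b), P) = 1`, is `∏_{p ∣ P, p ∤ q} (p - ω_F(p))` if `(F(b'), q) = 1` and `0`
otherwise. And `bhTrunc F q w = (P/φ(P))^g ∏_{p ∣ P, p ∤ q} (1 - ω_F(p)/p)`. (All by the Chinese remainder
theorem.) -/
theorem class_avg (F : Fin g → ℤ[X]) (w q N₀ : ℕ) (hq : q ∣ PW w) :
    ∑ N ∈ (range (PW w)).filter (fun N => N ≡ N₀ [MOD q]), seriesTrunc F X N w =
      ((PW w : ℝ) / q) * ∑ b ∈ range q, Lq q ((N₀ : ℤ) - b) *
        (if IsCoprime ((∏ i, F i).eval (b : ℤ)) (q : ℤ) then bhTrunc F q w / q else 0) := by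
  have hqs : Squarefree q := (PW_squarefree w).squarefree_of_dvd hq
  have hqn : 0 < q := Nat.pos_of_ne_zero hqs.ne_zero
  have hq0 : (0 : ℝ) < q := by exact_mod_cast hqn
  have hP0 : (0 : ℝ) < PW w := by exact_mod_cast PW_pos w
  have hφP : (0 : ℝ) < (Nat.totient (PW w) : ℝ) := by
    exact_mod_cast Nat.totient_pos.mpr (PW_pos w)
  set H : ℤ[X] := ∏ i, F i with hH
  set ρ : ℝ := (PW w : ℝ) / Nat.totient (PW w) with hρ
  -- step 1: exchange
  have h1 : ∀ N : ℕ, seriesTrunc F X N w = ρ ^ g / PW w *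
      ∑ b ∈ (range (PW w)).filter (fun b : ℕ => IsCoprime (H.eval (b : ℤ)) (PW w : ℤ)),
        Lw w ((N : ℤ) - b) := by
    intro N
    rw [series_count]
    have h2 : ∑ b ∈ (range (PW w)).filter (fun b : ℕ => IsCoprime (H.eval (b : ℤ)) (PW w : ℤ)),
        Lw w ((N : ℤ) - b) =
        (((range (PW w)).filter (fun b : ℕ =>
        IsCoprime (((∏ i, F i) * (C (N : ℤ) - X)).eval (b : ℤ)) (PW w : ℤ))).card : ℝ) * ρ := by
      unfold Lw Lq
      rw [← sum_filter, filter_filter, sum_const, nsmul_eq_mul]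
      congr 2
      refine congrArg _ (filter_congr fun b _ => ?_)
      rw [eval_mul, IsCoprime.mul_left_iff]
      simp [hH]
    rw [h2, ← hρ, pow_succ]
    ring
  have h3 : ∑ N ∈ (range (PW w)).filter (fun N => N ≡ N₀ [MOD q]), seriesTrunc F X N w =
      ρ ^ g / PW w * ∑ b ∈ (range (PW w)).filter
        (fun b : ℕ => IsCoprime (H.eval (b : ℤ)) (PW w : ℤ)),
        (((PW w : ℝ) / q) * Lq q ((N₀ : ℤ) - b)) := by
    rw [sum_congr rfl fun N _ => h1 N, ← mul_sum, sum_comm]
    congr 1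
    refine sum_congr rfl fun b _ => ?_
    exact Lw_avg w q N₀ hq b
  rw [h3, ← mul_sum]
  -- step 2: sort by classes
  have hLq : ∀ b : ℕ, Lq q ((N₀ : ℤ) - ((b % q : ℕ) : ℤ)) = Lq q ((N₀ : ℤ) - b) := by
    intro b
    have h5 : (N₀ : ℤ) - ((b % q : ℕ) : ℤ) = (N₀ : ℤ) - b + ((b / q : ℕ) : ℤ) * q := by
      have h6 := Nat.div_add_mod b q
      have h7 : ((q * (b / q) + b % q : ℕ) : ℤ) = (b : ℤ) := by exact_mod_cast h6
      push_cast at h7 ⊢
      linarith
    unfold Lq
    have h8 : IsCoprime ((N₀ : ℤ) - ((b % q : ℕ) : ℤ)) (q : ℤ) ↔ IsCoprime ((N₀ : ℤ) - b) (q : ℤ) := by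
      rw [h5]
      exact IsCoprime.add_mul_right_left_iff
    simp only [h8]
  have h4 : ∑ b ∈ (range (PW w)).filter
        (fun b : ℕ => IsCoprime (H.eval (b : ℤ)) (PW w : ℤ)), Lq q ((N₀ : ℤ) - b) =
      ∑ b' ∈ range q, Lq q ((N₀ : ℤ) - b') *
        (if IsCoprime (H.eval (b' : ℤ)) (q : ℤ) then
          ∏ p ∈ (Nat.primesBelow w).filter (fun p => ¬ p ∣ q), ((p : ℝ) - wF F p) else 0) := by
    rw [← sum_fiberwise_of_maps_to (g := fun b => b % q) (t := range q)
      (fun b _ => mem_range.mpr (Nat.mod_lt _ hqn))]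
    refine sum_congr rfl fun b' hb' => ?_
    rw [mem_range] at hb'
    have h5 : ∀ b ∈ ((range (PW w)).filter
        (fun b : ℕ => IsCoprime (H.eval (b : ℤ)) (PW w : ℤ))).filter (fun b => b % q = b'),
        Lq q ((N₀ : ℤ) - b) = Lq q ((N₀ : ℤ) - b') := by
      intro b hb
      rw [mem_filter] at hb
      rw [← hLq b, hb.2]
    rw [sum_congr rfl h5, sum_const, nsmul_eq_mul, mul_comm]
    congr 1
    have h6 : ((range (PW w)).filter
        (fun b : ℕ => IsCoprime (H.eval (b : ℤ)) (PW w : ℤ))).filter (fun b => b % q = b') =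
        (range (PW w)).filter (fun b => b ≡ b' [MOD q] ∧
          ∀ p ∈ Nat.primesBelow w, ¬ (p : ℤ) ∣ H.eval (b : ℤ)) := by
      rw [filter_filter]
      refine filter_congr fun b _ => ?_
      rw [SR1_coprime, and_comm]
      refine and_congr_left fun _ => ?_
      unfold Nat.ModEq
      rw [Nat.mod_eq_of_lt hb']
    rw [h6, SR4_cls w q b' hq (fun p b => ¬ (p : ℤ) ∣ H.eval (b : ℤ))
      (fun p b => by rw [Pool.Agent.Lib.H59.dvd_eval_mod_iff])]
    have h7 : ∀ p ∈ (Nat.primesBelow w).filter (fun p => ¬ p ∣ q),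
        ((((range p).filter (fun b : ℕ => ¬ (p : ℤ) ∣ H.eval (b : ℤ))).card : ℕ) : ℝ) =
          (p : ℝ) - wF F p := by
      intro p _
      have h8 := card_filter_add_card_filter_not (s := range p)
        (fun b : ℕ => (p : ℤ) ∣ H.eval (b : ℤ))
      rw [card_range] at h8
      have h9 : wF F p = ((range p).filter (fun b : ℕ => (p : ℤ) ∣ H.eval (b : ℤ))).card := rfl
      rw [h9, eq_sub_iff_add_eq]
      rw [add_comm] at h8
      exact_mod_cast h8
    push_cast
    rw [prod_congr rfl h7]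
    by_cases hc : IsCoprime (H.eval (b' : ℤ)) (q : ℤ)
    · rw [if_pos ((SR4_coprime q hqs _).mp hc), if_pos hc, one_mul]
    · rw [if_neg (fun h => hc ((SR4_coprime q hqs _).mpr h)), if_neg hc, zero_mul]
  rw [h4]
  -- step 3: constants
  have h5 : bhTrunc F q w = ρ ^ g * (q / PW w) *
      ∏ p ∈ (Nat.primesBelow w).filter (fun p => ¬ p ∣ q), ((p : ℝ) - wF F p) := by
    unfold bhTrunc
    rw [prod_mul_distrib]
    have h6 : ρ ^ g = ∏ p ∈ Nat.primesBelow w, ((1 - 1 / (p : ℝ)) ^ g)⁻¹ := by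
      rw [hρ, SR1_ratio, ← prod_pow]
      refine prod_congr rfl fun p _ => ?_
      rw [inv_pow]
    have h7 : ∏ p ∈ Nat.primesBelow w, (if p ∣ q then (1 : ℝ) else 1 - (wF F p : ℝ) / p) =
        ∏ p ∈ (Nat.primesBelow w).filter (fun p => ¬ p ∣ q), (((p : ℝ) - wF F p) / p) := by
      rw [← prod_filter_mul_prod_filter_not (Nat.primesBelow w) (fun p => p ∣ q)]
      have h8 : ∏ p ∈ (Nat.primesBelow w).filter (fun p => p ∣ q),
          (if p ∣ q then (1 : ℝ) else 1 - (wF F p : ℝ) / p) = 1 := by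
        refine prod_eq_one fun p hp => ?_
        rw [if_pos (mem_filter.mp hp).2]
      rw [h8, one_mul]
      refine prod_congr rfl fun p hp => ?_
      rw [mem_filter] at hp
      rw [if_neg hp.2]
      have h9 : (p : ℝ) ≠ 0 := by
        exact_mod_cast (Nat.mem_primesBelow.mp hp.1).2.ne_zero
      rw [sub_div, div_self h9]
    rw [h7, ← h6, prod_div_distrib]
    have h8 := SR4_PW w q hq
    have h9 : (∏ p ∈ (Nat.primesBelow w).filter (fun p => ¬ p ∣ q), (p : ℝ)) = PW w / q := by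
      rw [h8]
      field_simp
    rw [h9]
    field_simp
  rw [h5, mul_sum, mul_sum, mul_sum]
  refine sum_congr rfl fun b' _ => ?_
  split_ifs
  · field_simp
  · simp

theorem SR4_per (P : ℕ) (f : ℕ → ℝ) (hf : ∀ N, f (N % P) = f N) (c : ℕ) :
    ∑ i ∈ range P, f (c + i) = ∑ i ∈ range P, f i := by
  induction c with
  | zero => simp
  | succ c ih =>
    rcases Nat.eq_zero_or_pos P with h0 | h0
    · subst h0
      simp
    · obtain ⟨r, rfl⟩ : ∃ r, P = r + 1 := ⟨P - 1, by omega⟩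
      rw [← ih, sum_range_succ' (fun i => f (c + i)), sum_range_succ]
      congr 1
      · refine sum_congr rfl fun N _ => ?_
        congr 1
        ring
      · rw [← hf (c + 1 + r), ← hf (c + 0)]
        congr 1
        rw [show c + 1 + r = c + 0 + (r + 1) by ring, Nat.add_mod_right]

theorem SR4_per_mul (P : ℕ) (f : ℕ → ℝ) (hf : ∀ N, f (N % P) = f N) (k c : ℕ) :
    ∑ i ∈ range (P * k), f (c + i) = k * ∑ i ∈ range P, f i := by
  induction k with
  | zero => simp
  | succ k ih =>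
    rw [Nat.mul_succ, sum_range_add, ih]
    have h1 : ∑ x ∈ range P, f (c + (P * k + x)) = ∑ i ∈ range P, f i := by
      rw [← SR4_per P f hf (c + P * k)]
      refine sum_congr rfl fun i _ => ?_
      congr 1
      ring
    rw [h1]
    push_cast
    ring

/-- Over a window: `N` in `(a, a + L]`, `N ≡ N₀ (mod q)`, `q ∣ P = PW w`: the sum of a `P`-periodic
function is `L/P` times the sum over a period, up to `P` times the maximum `B`. -/
theorem window (P q N₀ a L : ℕ) (hP : 0 < P) (hq : q ∣ P) (f : ℕ → ℝ) (B : ℝ)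
    (hf : ∀ N, f (N % P) = f N) (hB : ∀ N, |f N| ≤ B) :
    |∑ N ∈ (Ioc a (a + L)).filter (fun N => N ≡ N₀ [MOD q]), f N -
      (L : ℝ) / P * ∑ N ∈ (range P).filter (fun N => N ≡ N₀ [MOD q]), f N| ≤ P * B := by
  have hP0 : (0 : ℝ) < P := by exact_mod_cast hP
  have hB0 : 0 ≤ B := (abs_nonneg _).trans (hB 0)
  set F : ℕ → ℝ := fun N => if N ≡ N₀ [MOD q] then f N else 0 with hF
  have hFper : ∀ N, F (N % P) = F N := by
    intro N
    rw [hF]
    simp only
    have h1 : (N % P ≡ N₀ [MOD q]) ↔ (N ≡ N₀ [MOD q]) := by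
      unfold Nat.ModEq
      rw [Nat.mod_mod_of_dvd _ hq]
    simp only [h1, hf]
  have hFB : ∀ N, |F N| ≤ B := by
    intro N
    rw [hF]
    simp only
    split_ifs
    · exact hB N
    · simpa using hB0
  rw [sum_filter, sum_filter]
  have h1 : ∑ N ∈ Ioc a (a + L), F N = ∑ i ∈ range L, F (a + 1 + i) := by
    have h2 : Ioc a (a + L) = Ico (a + 1) (a + 1 + L) := by
      ext N
      simp only [mem_Ioc, mem_Ico]
      omega
    rw [h2, sum_Ico_eq_sum_range]
    congr 2
    omega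
  change |∑ N ∈ Ioc a (a + L), F N - (L : ℝ) / P * ∑ N ∈ range P, F N| ≤ P * B
  rw [h1]
  set k := L / P with hk
  set r := L % P with hr
  have hL : L = P * k + r := (Nat.div_add_mod L P).symm
  have hrP : r < P := Nat.mod_lt _ hP
  have h2 : ∑ i ∈ range L, F (a + 1 + i) = k * ∑ i ∈ range P, F i +
      ∑ i ∈ range r, F (a + 1 + P * k + i) := by
    conv_lhs => rw [hL]
    rw [sum_range_add, SR4_per_mul P F hFper]
    congr 1
    refine sum_congr rfl fun i _ => ?_
    congr 1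
    ring
  have h3 : ∑ i ∈ range P, F i = ∑ i ∈ range r, F (a + 1 + P * k + i) +
      ∑ i ∈ range (P - r), F (a + 1 + P * k + (r + i)) := by
    rw [← SR4_per P F hFper (a + 1 + P * k)]
    generalize a + 1 + P * k = c
    conv_lhs => rw [show P = r + (P - r) by omega]
    rw [sum_range_add]
  rw [h2]
  set s := ∑ i ∈ range r, F (a + 1 + P * k + i) with hs
  set s' := ∑ i ∈ range (P - r), F (a + 1 + P * k + (r + i)) with hs'
  have hsb : |s| ≤ r * B := by
    refine (abs_sum_le_sum_abs _ _).trans ((sum_le_sum fun i _ => hFB _).trans ?_)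
    rw [sum_const, card_range, nsmul_eq_mul]
  have hsb' : |s'| ≤ (P - r) * B := by
    refine (abs_sum_le_sum_abs _ _).trans ((sum_le_sum fun i _ => hFB _).trans ?_)
    rw [sum_const, card_range, nsmul_eq_mul, Nat.cast_sub hrP.le]
  rw [h3]
  have hLr : (L : ℝ) = P * k + r := by exact_mod_cast hL
  have hr0 : (0 : ℝ) ≤ r := by positivity
  have hr1 : (r : ℝ) ≤ P := by exact_mod_cast hrP.le
  have h4 : (k : ℝ) * (s + s') + s - (L : ℝ) / P * (s + s') =
      (1 - (r : ℝ) / P) * s - (r : ℝ) / P * s' := by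
    rw [hLr]
    field_simp
    ring
  rw [h4]
  have ht0 : 0 ≤ (r : ℝ) / P := by positivity
  have ht1 : (r : ℝ) / P ≤ 1 := by
    rw [div_le_one hP0]
    exact hr1
  have h5 : |(1 - (r : ℝ) / P) * s - (r : ℝ) / P * s'| ≤
      (1 - (r : ℝ) / P) * |s| + (r : ℝ) / P * |s'| := by
    refine (abs_sub _ _).trans ?_
    rw [abs_mul, abs_mul, abs_of_nonneg ht0, abs_of_nonneg (by linarith : 0 ≤ 1 - (r : ℝ) / P)]
  refine h5.trans ?_
  have h6 : (1 - (r : ℝ) / P) * |s| ≤ 1 * (r * B) := by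
    refine mul_le_mul (by linarith) hsb (abs_nonneg _) (by norm_num)
  have h7 : (r : ℝ) / P * |s'| ≤ 1 * ((P - r) * B) := by
    refine mul_le_mul ht1 hsb' (abs_nonneg _) (by norm_num)
  linarith

end Pool.Agent.Lib.H33B
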