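import Pool.Agent.Lib.H33B.SR1
import Pool.Agent.Lib.H33B.SR4
import Pool.Agent.Lib.H33B.LS3
import Pool.Agent.Lib.H33B.CV4

/-!
# Chunk SR2: moments of the truncated singular series
-/

open Finset Polynomial

namespace Pool.Agent.Lib.H33B

open Pool.Agent.Lib.H59 (omegaN seriesTrunc rootCount)

variable {g : ℕ}

theorem SR2_crt2 {m n : ℕ} (hmn : m.Coprime n) (hm : 0 < m) (hn : 0 < n) (A B : ℕ → ℝ)
    (hA : ∀ b, A (b % m) = A b) (hB : ∀ b, B (b % n) = B b) :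
    ∑ N ∈ range (m * n), A N * B N = (∑ a ∈ range m, A a) * ∑ b ∈ range n, B b := by
  rw [sum_mul_sum, ← sum_product']
  refine sum_bij (fun a _ => (a % m, a % n)) ?_ ?_ ?_ ?_
  · intro a _
    rw [mem_product, mem_range, mem_range]
    exact ⟨Nat.mod_lt _ hm, Nat.mod_lt _ hn⟩
  · intro a ha b hb hab
    rw [mem_range] at ha hb
    rw [Prod.mk.injEq] at hab
    have h : a ≡ b [MOD m * n] := (Nat.modEq_and_modEq_iff_modEq_mul hmn).mp hab
    have h' : a % (m * n) = b % (m * n) := h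
    rwa [Nat.mod_eq_of_lt ha, Nat.mod_eq_of_lt hb] at h'
  · intro b hb
    rw [mem_product, mem_range, mem_range] at hb
    obtain ⟨hb1, hb3⟩ := hb
    obtain ⟨c, hc1, hc2⟩ := Nat.chineseRemainder hmn b.1 b.2
    have e1 : c % (m * n) % m = b.1 := by
      rw [Nat.mod_mul_right_mod]
      have : c % m = b.1 % m := hc1
      rw [this, Nat.mod_eq_of_lt hb1]
    have e2 : c % (m * n) % n = b.2 := by
      rw [Nat.mod_mul_left_mod]
      have : c % n = b.2 % n := hc2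
      rw [this, Nat.mod_eq_of_lt hb3]
    refine ⟨c % (m * n), ?_, by rw [e1, e2]⟩
    rw [mem_range]
    exact Nat.mod_lt _ (Nat.mul_pos hm hn)
  · intro a _
    simp only
    rw [hA, hB]

theorem SR2_crt (s : Finset ℕ) (hs : ∀ p ∈ s, p.Prime) (f : ℕ → ℕ → ℝ)
    (hper : ∀ p N, f p (N % p) = f p N) :
    ∑ N ∈ range (∏ p ∈ s, p), ∏ p ∈ s, f p N = ∏ p ∈ s, ∑ a ∈ range p, f p a := by
  classical
  induction s using Finset.induction_on with
  | empty => simp
  | insert p s hp ih =>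
    rw [prod_insert hp, prod_insert hp]
    have hpp : p.Prime := hs p (mem_insert_self _ _)
    have hs' : ∀ q ∈ s, q.Prime := fun q hq => hs q (mem_insert_of_mem hq)
    have hcop : p.Coprime (∏ q ∈ s, q) := by
      refine Nat.Coprime.prod_right fun q hq => ?_
      refine (Nat.coprime_primes hpp (hs' q hq)).mpr ?_
      rintro rfl
      exact hp hq
    rw [← ih hs', ← SR2_crt2 hcop hpp.pos (prod_pos fun q hq => (hs' q hq).pos) (f p)
      (fun N => ∏ q ∈ s, f q N) (hper p) ?_]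
    · refine sum_congr rfl fun N _ => ?_
      rw [prod_insert hp]
    · intro b
      refine prod_congr rfl fun q hq => ?_
      have h1 : q ∣ ∏ q ∈ s, q := dvd_prod_of_mem _ hq
      rw [← hper q (b % ∏ q ∈ s, q), Nat.mod_mod_of_dvd _ h1, hper]

/-- Mean of a product of functions of `N` modulo the primes `p < w` (Chinese remainder theorem):
over a full period the mean is the product of the means; `[1,Y]` is covered by at most
`Y/P + 1 ≤ 2Y/P` periods. -/
theorem mean_prod (w Y : ℕ) (hY : PW w ≤ Y) (f : ℕ → ℕ → ℝ) (hf : ∀ p N, 0 ≤ f p N)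
    (hper : ∀ p N, f p (N % p) = f p N) :
    ∑ N ∈ Icc 1 Y, ∏ p ∈ Nat.primesBelow w, f p N ≤
      2 * Y * ∏ p ∈ Nat.primesBelow w, ((∑ a ∈ range p, f p a) / p) := by
  set P := PW w with hP
  have hPn : 0 < P := PW_pos w
  have hP0 : (0 : ℝ) < P := by exact_mod_cast hPn
  set F : ℕ → ℝ := fun N => ∏ p ∈ Nat.primesBelow w, f p N with hF
  have hF0 : ∀ N, 0 ≤ F N := fun N => prod_nonneg fun p _ => hf p N
  have hFper : ∀ N, F (N % P) = F N := by
    intro N
    rw [hF]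
    simp only
    refine prod_congr rfl fun p hp => ?_
    have h1 : p ∣ P := by
      rw [hP]
      unfold PW
      exact dvd_prod_of_mem _ hp
    rw [← hper p (N % P), Nat.mod_mod_of_dvd _ h1, hper]
  have h1 : ∑ N ∈ Icc 1 Y, F N = ∑ i ∈ range Y, F (1 + i) := by
    have h2 : Icc 1 Y = Ico 1 (1 + Y) := by
      ext N
      simp only [mem_Icc, mem_Ico]
      omega
    rw [h2, sum_Ico_eq_sum_range]
    congr 2
    omega
  have h2 : ∑ i ∈ range Y, F (1 + i) ≤ ∑ i ∈ range (P * (Y / P + 1)), F (1 + i) := by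
    refine sum_le_sum_of_subset_of_nonneg ?_ fun i _ _ => hF0 _
    refine range_subset_range.mpr ?_
    have h3 := Nat.div_add_mod Y P
    have h4 := Nat.mod_lt Y hPn
    nlinarith
  have h3 : ∑ i ∈ range P, F i = ∏ p ∈ Nat.primesBelow w, ∑ a ∈ range p, f p a := by
    rw [hP]
    unfold PW
    exact SR2_crt _ (fun p hp => Nat.prime_of_mem_primesBelow hp) f hper
  have h4 : ∏ p ∈ Nat.primesBelow w, ∑ a ∈ range p, f p a =
      P * ∏ p ∈ Nat.primesBelow w, ((∑ a ∈ range p, f p a) / p) := by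
    rw [prod_div_distrib]
    have h5 : (P : ℝ) = ∏ p ∈ Nat.primesBelow w, (p : ℝ) := by
      rw [hP]
      unfold PW
      push_cast
      rfl
    rw [← h5]
    field_simp
  have h5 : ((Y / P + 1 : ℕ) : ℝ) * P ≤ 2 * Y := by
    have h6 : (Y / P + 1) * P ≤ 2 * Y := by
      have := Nat.div_mul_le_self Y P
      nlinarith
    exact_mod_cast h6
  have h6 : 0 ≤ ∏ p ∈ Nat.primesBelow w, ((∑ a ∈ range p, f p a) / p) :=
    prod_nonneg fun p _ => div_nonneg (sum_nonneg fun a _ => hf p a) (by positivity)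
  change ∑ N ∈ Icc 1 Y, F N ≤ _
  rw [h1]
  refine h2.trans ?_
  rw [SR4_per_mul P F hFper, h3, h4, ← mul_assoc]
  exact mul_le_mul_of_nonneg_right h5 h6

theorem SR2_omega_le (F : Fin g → ℤ[X]) (hF : Sys F) (G : ℤ[X])
    (hk : 1 ≤ G.natDegree) (hl : 0 < G.leadingCoeff) : ∃ D B : ℕ, ∀ p : ℕ, p.Prime → B ≤ p →
    wF F p ≤ D ∧ ∀ N : ℕ, omegaN F G N p ≤ D := by
  classical
  obtain ⟨B₁, hB₁⟩ := wF_le F hF
  refine ⟨∑ i, (F i).natDegree + G.natDegree, max B₁ (G.leadingCoeff.natAbs + 1),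
    fun p hp hpB => ?_⟩
  have h1 := hB₁ p hp ((le_max_left _ _).trans hpB)
  refine ⟨by omega, fun N => ?_⟩
  have h2 : omegaN F G N p ≤ wF F p + rootCount (C (N : ℤ) - G) p := by
    unfold wF Pool.Agent.Lib.H59.omegaN Pool.Agent.Lib.H59.rootCount
    refine le_trans ?_ (card_union_le _ _)
    refine card_le_card fun a ha => ?_
    rw [mem_filter] at ha
    rw [mem_union, mem_filter, mem_filter]
    have h3 := ha.2
    rw [eval_mul] at h3
    rcases (Nat.prime_iff_prime_int.mp hp).dvd_or_dvd h3 with h | h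
    · exact Or.inl ⟨ha.1, h⟩
    · exact Or.inr ⟨ha.1, h⟩
  have hdeg : (C (N : ℤ) - G).natDegree = G.natDegree := by
    rw [← natDegree_neg, neg_sub, natDegree_sub_C]
  have hlc : (C (N : ℤ) - G).leadingCoeff = -G.leadingCoeff := by
    unfold leadingCoeff
    rw [hdeg, coeff_sub, coeff_C_of_ne_zero (by omega), zero_sub]
  have h3 : rootCount (C (N : ℤ) - G) p ≤ G.natDegree := by
    rw [← hdeg]
    refine LS3_prime hp ?_
    rw [hlc, dvd_neg]
    intro h
    have h4 := Nat.le_of_dvd (Int.natAbs_pos.mpr hl.ne') (Int.natCast_dvd.mp h)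
    have h5 := (le_max_right _ _).trans hpB
    omega
  omega

/-- The mean of `ω_N(p)` over `N` modulo `p`. -/
theorem SR2_mean (F : Fin g → ℤ[X]) (G : ℤ[X]) (p : ℕ) (hp : p.Prime) :
    ∑ N ∈ range p, (omegaN F G N p : ℝ) = p * wF F p + (p - wF F p) := by
  classical
  have h1 : ∀ N ∈ range p, (omegaN F G N p : ℝ) = ∑ a ∈ range p,
      if (p : ℤ) ∣ ((∏ i, F i) * (C (N : ℤ) - G)).eval (a : ℤ) then (1 : ℝ) else 0 := by
    intro N _
    unfold Pool.Agent.Lib.H59.omegaN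
    rw [← sum_filter, sum_const, nsmul_eq_mul, mul_one]
  rw [sum_congr rfl h1, sum_comm]
  have h2 : ∀ a ∈ range p, ∑ N ∈ range p,
      (if (p : ℤ) ∣ ((∏ i, F i) * (C (N : ℤ) - G)).eval (a : ℤ) then (1 : ℝ) else 0) =
      (if (p : ℤ) ∣ (∏ i, F i).eval (a : ℤ) then ((p : ℝ) - 1) else 0) + 1 := by
    intro a _
    by_cases h3 : (p : ℤ) ∣ (∏ i, F i).eval (a : ℤ)
    · rw [if_pos h3]
      have h4 : ∀ N ∈ range p,
          (if (p : ℤ) ∣ ((∏ i, F i) * (C (N : ℤ) - G)).eval (a : ℤ) then (1 : ℝ) else 0) = 1 := by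
        intro N _
        rw [if_pos]
        rw [eval_mul]
        exact Dvd.dvd.mul_right h3 _
      rw [sum_congr rfl h4, sum_const, card_range, nsmul_eq_mul]
      ring
    · rw [if_neg h3]
      have h4 : ∀ N ∈ range p,
          (if (p : ℤ) ∣ ((∏ i, F i) * (C (N : ℤ) - G)).eval (a : ℤ) then (1 : ℝ) else 0) =
          1 - (if ¬ (p : ℤ) ∣ (N : ℤ) - G.eval (a : ℤ) then (1 : ℝ) else 0) := by
        intro N _
        have h5 : (p : ℤ) ∣ ((∏ i, F i) * (C (N : ℤ) - G)).eval (a : ℤ) ↔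
            (p : ℤ) ∣ (N : ℤ) - G.eval (a : ℤ) := by
          rw [eval_mul, (Nat.prime_iff_prime_int.mp hp).dvd_mul]
          simp [h3]
        simp only [h5]
        split_ifs <;> simp_all
      rw [sum_congr rfl h4, sum_sub_distrib, ← sum_filter, sum_const, sum_const, SR4_card p hp.pos,
        card_range, nsmul_eq_mul, nsmul_eq_mul, Nat.cast_sub hp.one_lt.le]
      push_cast
      ring
  rw [sum_congr rfl h2, sum_add_distrib, sum_const, card_range, nsmul_eq_mul, ← sum_filter,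
    sum_const, nsmul_eq_mul]
  have h3 : ((range p).filter (fun a : ℕ => (p : ℤ) ∣ (∏ i, F i).eval (a : ℤ))).card = wF F p := rfl
  rw [h3]
  ring

/-- Products of local means are bounded. -/
theorem SR2_gen (F : Fin g → ℤ[X]) (hF : Sys F) (M : ℕ → ℝ)
    (hM0 : ∀ p : ℕ, p.Prime → 0 ≤ M p) (s C₁ : ℝ) (hC : 0 ≤ C₁) (p₀ : ℕ)
    (hM : ∀ p : ℕ, p.Prime → p₀ ≤ p → M p ≤ 1 + s * (((wF F p : ℝ) - g) / p) + C₁ / (p : ℝ) ^ 2) :
    ∃ C : ℝ, 0 < C ∧ ∀ w : ℕ, ∏ p ∈ Nat.primesBelow w, M p ≤ C := by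
  obtain ⟨K, hK⟩ := sum_bdd F hF
  have hsum : Summable (fun n : ℕ => 1 / (n : ℝ) ^ 2) :=
    Real.summable_one_div_nat_pow.mpr (by norm_num)
  set Z : ℝ := ∑' n : ℕ, 1 / (n : ℝ) ^ 2 with hZ
  set b : ℕ → ℝ := fun p => s * (((wF F p : ℝ) - g) / p) + C₁ * (1 / (p : ℝ) ^ 2) with hb
  refine ⟨Real.exp (∑ p ∈ Nat.primesBelow p₀, M p + (|s| * (2 * K) + C₁ * Z)), Real.exp_pos _,
    fun w => ?_⟩
  have h1 : ∏ p ∈ Nat.primesBelow w, M p ≤
      ∏ p ∈ Nat.primesBelow w, Real.exp (if p < p₀ then M p else b p) := by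
    refine prod_le_prod (fun p hp => hM0 p (Nat.prime_of_mem_primesBelow hp)) fun p hp => ?_
    have hp' := Nat.prime_of_mem_primesBelow hp
    split_ifs with h
    · have := Real.add_one_le_exp (M p)
      linarith
    · have h2 := hM p hp' (not_lt.mp h)
      have h3 := Real.add_one_le_exp (b p)
      have h4 : b p = s * (((wF F p : ℝ) - g) / p) + C₁ / (p : ℝ) ^ 2 := by
        rw [hb]
        simp only
        ring
      linarith
  refine h1.trans ?_
  rw [← Real.exp_sum]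
  refine Real.exp_le_exp.mpr ?_
  rw [← sum_filter_add_sum_filter_not (Nat.primesBelow w) (fun p => p < p₀)]
  have h2 : ∑ p ∈ (Nat.primesBelow w).filter (fun p => p < p₀), (if p < p₀ then M p else b p) ≤
      ∑ p ∈ Nat.primesBelow p₀, M p := by
    have h3 : ∀ p ∈ (Nat.primesBelow w).filter (fun p => p < p₀),
        (if p < p₀ then M p else b p) = M p := fun p hp => if_pos (mem_filter.mp hp).2
    rw [sum_congr rfl h3]
    refine sum_le_sum_of_subset_of_nonneg ?_ fun p hp _ =>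
      hM0 p (Nat.prime_of_mem_primesBelow hp)
    intro p hp
    rw [mem_filter, Nat.mem_primesBelow] at hp
    exact Nat.mem_primesBelow.mpr ⟨hp.2, hp.1.2⟩
  have h3 : ∑ p ∈ (Nat.primesBelow w).filter (fun p => ¬ p < p₀), (if p < p₀ then M p else b p) ≤
      |s| * (2 * K) + C₁ * Z := by
    have h4 : ∀ p ∈ (Nat.primesBelow w).filter (fun p => ¬ p < p₀),
        (if p < p₀ then M p else b p) = b p := fun p hp => if_neg (mem_filter.mp hp).2
    rw [sum_congr rfl h4, hb]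
    rw [sum_add_distrib, ← mul_sum, ← mul_sum]
    have h5 : ∑ p ∈ (Nat.primesBelow w).filter (fun p => ¬ p < p₀), ((wF F p : ℝ) - g) / p =
        ∑ p ∈ Nat.primesBelow w, ((wF F p : ℝ) - g) / p -
        ∑ p ∈ Nat.primesBelow (min w p₀), ((wF F p : ℝ) - g) / p := by
      have h6 : Nat.primesBelow (min w p₀) = (Nat.primesBelow w).filter (fun p => p < p₀) := by
        ext p
        rw [Nat.mem_primesBelow, mem_filter, Nat.mem_primesBelow, lt_min_iff]
        tauto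
      rw [h6, ← sum_filter_add_sum_filter_not (Nat.primesBelow w) (fun p => p < p₀)]
      ring
    have h6 : |∑ p ∈ (Nat.primesBelow w).filter (fun p => ¬ p < p₀), ((wF F p : ℝ) - g) / p| ≤
        2 * K := by
      rw [h5]
      refine (abs_sub _ _).trans ?_
      have h7 := hK w
      have h8 := hK (min w p₀)
      linarith
    have h7 : s * ∑ p ∈ (Nat.primesBelow w).filter (fun p => ¬ p < p₀), ((wF F p : ℝ) - g) / p ≤
        |s| * (2 * K) := by
      refine (le_abs_self _).trans ?_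
      rw [abs_mul]
      exact mul_le_mul_of_nonneg_left h6 (abs_nonneg _)
    have h8 : ∑ p ∈ (Nat.primesBelow w).filter (fun p => ¬ p < p₀), 1 / (p : ℝ) ^ 2 ≤ Z :=
      hsum.sum_le_tsum _ (fun n _ => by positivity)
    have h9 := mul_le_mul_of_nonneg_left h8 hC
    linarith
  linarith

theorem SR2_pow (n : ℕ) (t : ℝ) (h0 : 0 ≤ t) (h1 : t ≤ 1) :
    (1 - t) ^ n ≤ 1 - n * t + (n : ℝ) ^ 2 * t ^ 2 := by
  induction n with
  | zero => simp
  | succ n ih =>
    rw [pow_succ]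
    have h2 : 0 ≤ 1 - t := by linarith
    refine (mul_le_mul_of_nonneg_right ih h2).trans ?_
    push_cast
    have h3 : (0 : ℝ) ≤ n := by positivity
    have h4 : 0 ≤ (n : ℝ) ^ 2 * t ^ 3 := by positivity
    have h5 : 0 ≤ (n : ℝ) * t ^ 2 := by positivity
    have h6 : 0 ≤ t ^ 2 := by positivity
    nlinarith

theorem SR2_ineq1 (n : ℕ) (t ω D : ℝ) (h0 : 0 ≤ t) (h1 : t ≤ 1) (hω : 0 ≤ ω) (hD : ω ≤ D)
    (hx : D * t ≤ 1 / 2) :
    (1 - ω * t)⁻¹ * (1 - t) ^ n ≤ 1 + (ω - n) * t +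
      (2 * D ^ 2 + (n : ℝ) ^ 2 + D * (n : ℝ) ^ 2 + 2 * D ^ 2 * (n : ℝ) ^ 2) * t ^ 2 := by
  have hD0 : 0 ≤ D := hω.trans hD
  have hωt : ω * t ≤ 1 / 2 := (mul_le_mul_of_nonneg_right hD h0).trans hx
  have hωt0 : 0 ≤ ω * t := mul_nonneg hω h0
  have hA : (1 - ω * t)⁻¹ ≤ 1 + ω * t + 2 * (ω * t) ^ 2 := by
    rw [inv_le_iff_one_le_mul₀ (by linarith)]
    nlinarith [mul_nonneg (mul_nonneg hωt0 hωt0) (by linarith : 0 ≤ 1 / 2 - ω * t)]
  have hB := SR2_pow n t h0 h1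
  have hB0 : 0 ≤ (1 - t) ^ n := pow_nonneg (by linarith) n
  have hA0 : 0 ≤ 1 + ω * t + 2 * (ω * t) ^ 2 := by positivity
  refine (mul_le_mul hA hB hB0 hA0).trans ?_
  have hn : (0 : ℝ) ≤ n := by positivity
  have hω2 : ω ^ 2 ≤ D ^ 2 := pow_le_pow_left₀ hω hD 2
  have k1 : 0 ≤ t ^ 2 * (2 * (D ^ 2 - ω ^ 2)) := mul_nonneg (by positivity) (by linarith)
  have k2 : 0 ≤ t ^ 2 * (ω * n) := by positivity
  have k3 : 0 ≤ t ^ 2 * ((n : ℝ) ^ 2 * (D - t * ω)) := by
    have : t * ω ≤ D := by nlinarith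
    exact mul_nonneg (by positivity) (mul_nonneg (by positivity) (by linarith))
  have k4 : 0 ≤ t ^ 2 * (2 * t * ω ^ 2 * n) := by positivity
  have k5 : 0 ≤ t ^ 2 * (2 * (n : ℝ) ^ 2 * (D ^ 2 - t ^ 2 * ω ^ 2)) := by
    have h2 : t ^ 2 ≤ 1 := by nlinarith
    have h3 : t ^ 2 * ω ^ 2 ≤ 1 * D ^ 2 := mul_le_mul h2 hω2 (by positivity) (by norm_num)
    exact mul_nonneg (by positivity) (mul_nonneg (by positivity) (by linarith))
  nlinarith

theorem SR2_pow2 (m : ℕ) (u : ℝ) (h0 : 0 ≤ u) (h1 : u ≤ 1) :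
    (1 + u) ^ m ≤ 1 + m * u + 4 ^ m * u ^ 2 := by
  induction m with
  | zero =>
    simp only [pow_zero, Nat.cast_zero, zero_mul, add_zero, one_mul]
    nlinarith
  | succ m ih =>
    rw [pow_succ]
    refine (mul_le_mul_of_nonneg_right ih (by linarith)).trans ?_
    have h2 : (m : ℝ) ≤ 4 ^ m := by
      have : m < 4 ^ m := Nat.lt_pow_self (by norm_num)
      exact_mod_cast this.le
    have h3 : (0 : ℝ) ≤ 4 ^ m := by positivity
    have h4 : (4 : ℝ) ^ m * u ^ 3 ≤ 4 ^ m * u ^ 2 := by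
      refine mul_le_mul_of_nonneg_left ?_ h3
      nlinarith [mul_nonneg (mul_nonneg h0 h0) (by linarith : 0 ≤ 1 - u)]
    have h5 : (m : ℝ) * u ^ 2 ≤ 4 ^ m * u ^ 2 := mul_le_mul_of_nonneg_right h2 (by positivity)
    rw [pow_succ (4 : ℝ) m]
    push_cast
    nlinarith

theorem SR2_ineq2 (m : ℕ) (t ω D : ℝ) (h0 : 0 ≤ t) (h1 : t ≤ 1 / 2) (hω : 0 ≤ ω) (hD : ω ≤ D) :
    (1 - ω * t) ^ 2 * ((1 - t) ^ m)⁻¹ ≤ 1 + (m - 2 * ω) * t +
      ((2 * m + 4 ^ (m + 1)) + D ^ 2 + D ^ 2 * m + D ^ 2 * (2 * m + 4 ^ (m + 1))) * t ^ 2 := by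
  have hD0 : 0 ≤ D := hω.trans hD
  have hm : (0 : ℝ) ≤ m := by positivity
  set c : ℝ := 2 * m + 4 ^ (m + 1) with hc
  have hc0 : 0 ≤ c := by positivity
  have hA : (1 - t)⁻¹ ≤ 1 + (t + 2 * t ^ 2) := by
    rw [inv_le_iff_one_le_mul₀ (by linarith)]
    nlinarith [mul_nonneg (mul_nonneg h0 h0) (by linarith : 0 ≤ 1 / 2 - t)]
  have hB : ((1 - t) ^ m)⁻¹ ≤ 1 + m * t + c * t ^ 2 := by
    rw [← inv_pow]
    have h2 : 0 ≤ (1 - t)⁻¹ := inv_nonneg.mpr (by linarith)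
    refine (pow_le_pow_left₀ h2 hA m).trans ?_
    have h3 : t + 2 * t ^ 2 ≤ 2 * t := by nlinarith
    refine (SR2_pow2 m (t + 2 * t ^ 2) (by positivity) (by linarith)).trans ?_
    have h4 : (t + 2 * t ^ 2) ^ 2 ≤ (2 * t) ^ 2 := pow_le_pow_left₀ (by positivity) h3 2
    have h5 : (4 : ℝ) ^ m * (t + 2 * t ^ 2) ^ 2 ≤ 4 ^ m * (2 * t) ^ 2 :=
      mul_le_mul_of_nonneg_left h4 (by positivity)
    have h6 : c * t ^ 2 = 2 * m * t ^ 2 + 4 ^ m * (2 * t) ^ 2 := by
      rw [hc, pow_succ]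
      ring
    rw [h6]
    nlinarith
  have hq : 0 ≤ (1 - ω * t) ^ 2 := by positivity
  refine (mul_le_mul_of_nonneg_left hB hq).trans ?_
  have hω2 : ω ^ 2 ≤ D ^ 2 := pow_le_pow_left₀ hω hD 2
  have k1 : 0 ≤ t ^ 2 * (D ^ 2 - ω ^ 2) := mul_nonneg (by positivity) (by linarith)
  have k2 : 0 ≤ t ^ 2 * (2 * ω * m) := by positivity
  have k3 : 0 ≤ t ^ 2 * (m * (D ^ 2 - t * ω ^ 2)) := by
    have : t * ω ^ 2 ≤ 1 * D ^ 2 := mul_le_mul (by linarith) hω2 (by positivity) (by norm_num)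
    exact mul_nonneg (by positivity) (mul_nonneg hm (by linarith))
  have k4 : 0 ≤ t ^ 2 * (2 * t * ω * c) := by positivity
  have k5 : 0 ≤ t ^ 2 * (c * (D ^ 2 - t ^ 2 * ω ^ 2)) := by
    have h2 : t ^ 2 ≤ 1 := by nlinarith
    have h3 : t ^ 2 * ω ^ 2 ≤ 1 * D ^ 2 := mul_le_mul h2 hω2 (by positivity) (by norm_num)
    exact mul_nonneg (by positivity) (mul_nonneg hc0 (by linarith))
  nlinarith

/-- `mean_prod` with `f_p(N) = (1 - ω_N(p)/p)⁻¹ (1 - 1/p)^(g+1)` if `ω_N(p) < p` and `0` otherwise. For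
`p ≥ p₀` (not dividing `lc(G)`, the leading coefficients of the `F_i`) `ω_N(p) ≤ D = ∑ deg F_i + deg G`,
so `f_p(N) = 1 + (ω_N(p) - g - 1)/p + O(1/p²)`, and
`∑_{N mod p} ω_N(p) = p ω_F(p) + (p - ω_F(p))` (each `a` with `F(a) ≢ 0` is counted for exactly one `N`
modulo `p`), so the mean of `f_p` is `1 + (ω_F(p) - g)/p + O(1/p²)`; the product of the means is at most
`exp(∑_{p < w} (ω_F(p) - g)/p + C) ≤ C'` (`sum_bdd`). The finitely many `p < p₀` contribute a constant. -/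
theorem moment_inv (F : Fin g → ℤ[X]) (hF : Sys F) (hN : NoFix F) (G : ℤ[X])
    (hk : 1 ≤ G.natDegree) (hl : 0 < G.leadingCoeff) : ∃ C : ℝ, 0 < C ∧ ∀ w Y : ℕ, PW w ≤ Y →
    ∑ N ∈ (Icc 1 Y).filter (fun N => ∀ p ∈ Nat.primesBelow w, omegaN F G N p < p),
      (seriesTrunc F G N w)⁻¹ ≤ C * Y := by
  classical
  obtain ⟨D, B, hDB⟩ := SR2_omega_le F hF G hk hl
  set f : ℕ → ℕ → ℝ := fun p N => if omegaN F G N p < p then
    (1 - (omegaN F G N p : ℝ) / p)⁻¹ * (1 - 1 / (p : ℝ)) ^ (g + 1) else 0 with hf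
  have hf0 : ∀ p N, 0 ≤ f p N := by
    intro p N
    rw [hf]
    simp only
    split_ifs with h
    · have hp : 0 < p := by omega
      have hp0 : (0 : ℝ) < p := by exact_mod_cast hp
      have hp1 : (1 : ℝ) ≤ p := by exact_mod_cast hp
      have h1 : (omegaN F G N p : ℝ) / p ≤ 1 := by
        rw [div_le_one hp0]
        exact_mod_cast h.le
      have h2 : 1 / (p : ℝ) ≤ 1 := by
        rw [div_le_one hp0]
        exact hp1
      exact mul_nonneg (inv_nonneg.mpr (by linarith)) (pow_nonneg (by linarith) _)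
    · exact le_refl _
  have hper : ∀ p N, f p (N % p) = f p N := by
    intro p N
    rw [hf]
    simp only
    rw [SR1_omega F G (N % p) N p (Nat.mod_modEq _ _)]
  obtain ⟨C, hC0, hC⟩ := SR2_gen F hF (fun p => (∑ a ∈ range p, f p a) / p)
    (fun p _ => div_nonneg (sum_nonneg fun a _ => hf0 p a) (by positivity)) 1
    (2 * (D : ℝ) ^ 2 + ((g + 1 : ℕ) : ℝ) ^ 2 + D * ((g + 1 : ℕ) : ℝ) ^ 2 +
      2 * (D : ℝ) ^ 2 * ((g + 1 : ℕ) : ℝ) ^ 2) (by positivity) (max B (2 * D)) (by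
    intro p hp hpB
    obtain ⟨hD1, hD2⟩ := hDB p hp ((le_max_left _ _).trans hpB)
    have hp0 : (0 : ℝ) < p := by exact_mod_cast hp.pos
    have hp1 : (1 : ℝ) ≤ p := by exact_mod_cast hp.one_lt.le
    have hDt : (D : ℝ) * (1 / p) ≤ 1 / 2 := by
      have h1 : 2 * D ≤ p := (le_max_right _ _).trans hpB
      have h2 : 2 * (D : ℝ) ≤ p := by exact_mod_cast h1
      rw [mul_one_div, div_le_iff₀ hp0]
      linarith
    set t : ℝ := 1 / (p : ℝ) with ht
    have ht0 : 0 ≤ t := by positivity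
    have ht1 : t ≤ 1 := by
      rw [ht, div_le_one hp0]
      exact hp1
    set c : ℝ := 2 * (D : ℝ) ^ 2 + ((g + 1 : ℕ) : ℝ) ^ 2 + D * ((g + 1 : ℕ) : ℝ) ^ 2 +
      2 * (D : ℝ) ^ 2 * ((g + 1 : ℕ) : ℝ) ^ 2 with hc
    have hc0 : 0 ≤ c := by positivity
    have h3 : ∀ a ∈ range p, f p a ≤ 1 + ((omegaN F G a p : ℝ) - ((g + 1 : ℕ) : ℝ)) * t + c * t ^ 2 := by
      intro a _
      have h4 := SR2_ineq1 (g + 1) t (omegaN F G a p) D ht0 ht1 (by positivity)
        (by exact_mod_cast hD2 a) hDt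
      rw [hf]
      simp only
      split_ifs with h5
      · have h6 : (omegaN F G a p : ℝ) / p = omegaN F G a p * t := by
          rw [ht]
          ring
        rw [h6]
        exact h4
      · refine le_trans ?_ h4
        have h7 : (omegaN F G a p : ℝ) * t ≤ 1 / 2 :=
          (mul_le_mul_of_nonneg_right (by exact_mod_cast hD2 a) ht0).trans hDt
        exact mul_nonneg (inv_nonneg.mpr (by linarith)) (pow_nonneg (by linarith) _)
    have h4 := sum_le_sum h3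
    have h5 : ∑ a ∈ range p, (1 + ((omegaN F G a p : ℝ) - ((g + 1 : ℕ) : ℝ)) * t + c * t ^ 2) =
        p * (1 + c * t ^ 2) + (p * wF F p + (p - wF F p) - p * ((g + 1 : ℕ) : ℝ)) * t := by
      rw [← SR2_mean F G p hp]
      rw [sum_add_distrib, sum_add_distrib, ← sum_mul, sum_sub_distrib]
      simp only [sum_const, card_range, nsmul_eq_mul]
      ring
    rw [h5] at h4
    rw [div_le_iff₀ hp0]
    refine h4.trans ?_
    have hpt : (p : ℝ) * t = 1 := by
      rw [ht]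
      field_simp
    have e1 : ((wF F p : ℝ) - g) / p = ((wF F p : ℝ) - g) * t := by
      rw [ht]
      ring
    have e2 : c / (p : ℝ) ^ 2 = c * t ^ 2 := by
      rw [ht]
      field_simp
    rw [e1, e2]
    push_cast
    have hw0 : (0 : ℝ) ≤ wF F p := by positivity
    have e3 : (1 + 1 * (((wF F p : ℝ) - g) * t) + c * t ^ 2) * p -
        (p * (1 + c * t ^ 2) + (p * wF F p + (p - wF F p) - p * ((g : ℝ) + 1)) * t) =
        wF F p * t := by ring
    have e4 : 0 ≤ (wF F p : ℝ) * t := by positivity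
    linarith)
  refine ⟨2 * C, by positivity, fun w Y hY => ?_⟩
  have h1 : ∑ N ∈ (Icc 1 Y).filter (fun N => ∀ p ∈ Nat.primesBelow w, omegaN F G N p < p),
      (seriesTrunc F G N w)⁻¹ =
      ∑ N ∈ (Icc 1 Y).filter (fun N => ∀ p ∈ Nat.primesBelow w, omegaN F G N p < p),
      ∏ p ∈ Nat.primesBelow w, f p N := by
    refine sum_congr rfl fun N hN => ?_
    rw [mem_filter] at hN
    unfold Pool.Agent.Lib.H59.seriesTrunc
    rw [← prod_inv_distrib]
    refine prod_congr rfl fun p hp => ?_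
    rw [hf]
    simp only
    rw [if_pos (hN.2 p hp), mul_inv, inv_inv]
  rw [h1]
  refine (sum_le_sum_of_subset_of_nonneg (filter_subset _ _) fun N _ _ =>
    prod_nonneg fun p _ => hf0 p N).trans ?_
  refine (mean_prod w Y hY f hf0 hper).trans ?_
  calc 2 * (Y : ℝ) * ∏ p ∈ Nat.primesBelow w, ((∑ a ∈ range p, f p a) / p)
      ≤ 2 * (Y : ℝ) * C := mul_le_mul_of_nonneg_left (hC w) (by positivity)
    _ = 2 * C * Y := by ring

/-- The same with `f_p(N) = (1 - ω_N(p)/p)² (1 - 1/p)^(-2(g+1)) = 1 - 2 (ω_N(p) - g - 1)/p + O(1/p²)`. -/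
theorem moment_sq (F : Fin g → ℤ[X]) (hF : Sys F) (hN : NoFix F) (G : ℤ[X])
    (hk : 1 ≤ G.natDegree) (hl : 0 < G.leadingCoeff) : ∃ C : ℝ, 0 < C ∧ ∀ w Y : ℕ, PW w ≤ Y →
    ∑ N ∈ Icc 1 Y, (seriesTrunc F G N w) ^ 2 ≤ C * Y := by
  classical
  obtain ⟨D, B, hDB⟩ := SR2_omega_le F hF G hk hl
  set f : ℕ → ℕ → ℝ := fun p N =>
    (1 - (omegaN F G N p : ℝ) / p) ^ 2 * ((1 - 1 / (p : ℝ)) ^ (2 * (g + 1)))⁻¹ with hf
  have hf0 : ∀ p N, 0 ≤ f p N := by
    intro p N
    rw [hf]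
    simp only
    rw [pow_mul]
    positivity
  have hper : ∀ p N, f p (N % p) = f p N := by
    intro p N
    rw [hf]
    simp only
    rw [SR1_omega F G (N % p) N p (Nat.mod_modEq _ _)]
  set m : ℕ := 2 * (g + 1) with hm
  set c : ℝ := (2 * (m : ℝ) + 4 ^ (m + 1)) + (D : ℝ) ^ 2 + (D : ℝ) ^ 2 * m +
    (D : ℝ) ^ 2 * (2 * m + 4 ^ (m + 1)) with hc
  have hc0 : 0 ≤ c := by positivity
  obtain ⟨C, hC0, hC⟩ := SR2_gen F hF (fun p => (∑ a ∈ range p, f p a) / p)
    (fun p _ => div_nonneg (sum_nonneg fun a _ => hf0 p a) (by positivity)) (-2)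
    (c + 2 * D) (by positivity) (max B 2) (by
    intro p hp hpB
    obtain ⟨hD1, hD2⟩ := hDB p hp ((le_max_left _ _).trans hpB)
    have hp0 : (0 : ℝ) < p := by exact_mod_cast hp.pos
    have hp2 : (2 : ℝ) ≤ p := by exact_mod_cast hp.two_le
    set t : ℝ := 1 / (p : ℝ) with ht
    have ht0 : 0 ≤ t := by positivity
    have ht1 : t ≤ 1 / 2 := by
      rw [ht]
      exact one_div_le_one_div_of_le (by norm_num) hp2
    have h3 : ∀ a ∈ range p, f p a ≤ 1 + ((m : ℝ) - 2 * (omegaN F G a p : ℝ)) * t + c * t ^ 2 := by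
      intro a _
      have h4 := SR2_ineq2 m t (omegaN F G a p) D ht0 ht1 (by positivity)
        (by exact_mod_cast hD2 a)
      rw [hf]
      simp only
      have h6 : (omegaN F G a p : ℝ) / p = omegaN F G a p * t := by
        rw [ht]
        ring
      rw [h6]
      exact h4
    have h4 := sum_le_sum h3
    have h5 : ∑ a ∈ range p, (1 + ((m : ℝ) - 2 * (omegaN F G a p : ℝ)) * t + c * t ^ 2) =
        p * (1 + c * t ^ 2) + (p * m - 2 * (p * wF F p + (p - wF F p))) * t := by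
      rw [← SR2_mean F G p hp]
      rw [sum_add_distrib, sum_add_distrib, ← sum_mul, sum_sub_distrib, ← mul_sum]
      simp only [sum_const, card_range, nsmul_eq_mul]
      ring
    rw [h5] at h4
    rw [div_le_iff₀ hp0]
    refine h4.trans ?_
    have hpt : (p : ℝ) * t = 1 := by
      rw [ht]
      field_simp
    have e1 : ((wF F p : ℝ) - g) / p = ((wF F p : ℝ) - g) * t := by
      rw [ht]
      ring
    have e2 : (c + 2 * D) / (p : ℝ) ^ 2 = (c + 2 * D) * t ^ 2 := by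
      rw [ht]
      field_simp
    rw [e1, e2, hm]
    push_cast
    have hwD : (wF F p : ℝ) ≤ D := by exact_mod_cast hD1
    have e3 : (1 + -2 * (((wF F p : ℝ) - g) * t) + (c + 2 * D) * t ^ 2) * p -
        (p * (1 + c * t ^ 2) + (p * (2 * ((g : ℝ) + 1)) - 2 * (p * wF F p + (p - wF F p))) * t) =
        2 * t * ((p * t) * D - wF F p) := by ring
    have e4 : 0 ≤ 2 * t * ((p * t) * D - wF F p) := by
      rw [hpt, one_mul]
      exact mul_nonneg (by positivity) (by linarith)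
    linarith)
  refine ⟨2 * C, by positivity, fun w Y hY => ?_⟩
  have h1 : ∑ N ∈ Icc 1 Y, (seriesTrunc F G N w) ^ 2 =
      ∑ N ∈ Icc 1 Y, ∏ p ∈ Nat.primesBelow w, f p N := by
    refine sum_congr rfl fun N _ => ?_
    unfold Pool.Agent.Lib.H59.seriesTrunc
    rw [← prod_pow]
    refine prod_congr rfl fun p _ => ?_
    rw [hf]
    simp only
    rw [mul_pow, inv_pow, ← pow_mul, hm, mul_comm 2 (g + 1)]
  rw [h1]
  refine (mean_prod w Y hY f hf0 hper).trans ?_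
  calc 2 * (Y : ℝ) * ∏ p ∈ Nat.primesBelow w, ((∑ a ∈ range p, f p a) / p)
      ≤ 2 * (Y : ℝ) * C := mul_le_mul_of_nonneg_left (hC w) (by positivity)
    _ = 2 * C * Y := by ring

end Pool.Agent.Lib.H33B
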