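import Pool.Agent.Lib.H33B.Defs

/-!
# Chunk V1: correlations, elementary facts
-/

open Finset

namespace Pool.Agent.Lib.H33B

theorem V1_tsum (u : ℤ → ℝ) (M : ℕ) (hu : ∀ m, m ∉ Icc (1 : ℤ) M → u m = 0) (d : ℤ) :
    cor u M d = ∑' m : ℤ, u m * u (m + d) := by
  unfold cor
  rw [tsum_eq_sum (s := Icc (1 : ℤ) M)]
  intro m hm
  rw [hu m hm, zero_mul]

theorem V1_sq_le (u : ℤ → ℝ) (M : ℕ) (hu : ∀ m, m ∉ Icc (1 : ℤ) M → u m = 0) (T : Finset ℤ) :
    ∑ m ∈ T, u m ^ 2 ≤ ∑ m ∈ Icc (1 : ℤ) M, u m ^ 2 := by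
  have h1 : ∑ m ∈ T, u m ^ 2 = ∑ m ∈ T.filter (fun m => m ∈ Icc (1 : ℤ) M), u m ^ 2 := by
    rw [Finset.sum_filter]
    refine Finset.sum_congr rfl fun m _ => ?_
    split_ifs with h
    · rfl
    · rw [hu m h]
      norm_num
  rw [h1]
  refine Finset.sum_le_sum_of_subset_of_nonneg (fun m hm => (Finset.mem_filter.1 hm).2) ?_
  intro m _ _
  exact sq_nonneg _

/-- `|∑ u(m) u(m+d)| ≤ ∑ u(m)^2` (Cauchy-Schwarz, or `2|xy| ≤ x² + y²`; `m + d` runs over a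
translate of `[1,M]`, outside `[1,M]` the terms vanish). -/
theorem cor_le (u : ℤ → ℝ) (M : ℕ) (hu : ∀ m, m ∉ Icc (1 : ℤ) M → u m = 0) (d : ℤ) :
    |cor u M d| ≤ ∑ m ∈ Icc (1 : ℤ) M, u m ^ 2 := by
  unfold cor
  have h1 : ∑ m ∈ Icc (1 : ℤ) M, u (m + d) ^ 2 ≤ ∑ m ∈ Icc (1 : ℤ) M, u m ^ 2 := by
    have h2 := V1_sq_le u M hu ((Icc (1 : ℤ) M).image (fun m => m + d))
    rwa [Finset.sum_image (fun a _ b _ h => by simpa using h)] at h2
  calc |∑ m ∈ Icc (1 : ℤ) M, u m * u (m + d)| ≤ ∑ m ∈ Icc (1 : ℤ) M, |u m * u (m + d)| :=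
        Finset.abs_sum_le_sum_abs _ _
    _ ≤ ∑ m ∈ Icc (1 : ℤ) M, (u m ^ 2 + u (m + d) ^ 2) / 2 := by
        refine Finset.sum_le_sum fun m _ => ?_
        rw [abs_le]
        constructor
        · nlinarith [sq_nonneg (u m + u (m + d))]
        · nlinarith [sq_nonneg (u m - u (m + d))]
    _ = (∑ m ∈ Icc (1 : ℤ) M, u m ^ 2 + ∑ m ∈ Icc (1 : ℤ) M, u (m + d) ^ 2) / 2 := by
        rw [← Finset.sum_add_distrib, Finset.sum_div]
    _ ≤ ∑ m ∈ Icc (1 : ℤ) M, u m ^ 2 := by linarith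

/-- Substitution `m ↦ m - d`. -/
theorem cor_neg (u : ℤ → ℝ) (M : ℕ) (hu : ∀ m, m ∉ Icc (1 : ℤ) M → u m = 0) (d : ℤ) :
    cor u M (-d) = cor u M d := by
  rw [V1_tsum u M hu, V1_tsum u M hu, ← (Equiv.addRight d).tsum_eq]
  refine tsum_congr fun m => ?_
  simp only [Equiv.coe_addRight, add_neg_cancel_right]
  ring

/-- For `|d| ≥ M` all terms vanish. -/
theorem cor_eq_zero (u : ℤ → ℝ) (M : ℕ) (hu : ∀ m, m ∉ Icc (1 : ℤ) M → u m = 0) (d : ℤ)
    (hd : (M : ℤ) ≤ |d|) : cor u M d = 0 := by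
  unfold cor
  refine Finset.sum_eq_zero fun m hm => ?_
  rw [hu (m + d), mul_zero]
  rw [Finset.mem_Icc] at hm ⊢
  rintro ⟨h1, h2⟩
  rcases abs_cases d with ⟨h3, _⟩ | ⟨h3, _⟩ <;> omega

/-- Expand the square and extend the sum over `N` to all integers (all terms of the sum over `N`
of squares are non-negative): `∑_N u(N - v n) u(N - v n') = cor(v n - v n')`. -/
theorem cor_conv (u : ℤ → ℝ) (M : ℕ) (hu : ∀ m, m ∉ Icc (1 : ℤ) M → u m = 0) (A : Finset ℕ)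
    (f : ℕ → ℝ) (hf : ∀ n, |f n| ≤ 1) (v : ℕ → ℤ) (T : Finset ℤ) :
    ∑ N ∈ T, (∑ n ∈ A, f n * u (N - v n)) ^ 2 ≤
      ∑ n ∈ A, ∑ n' ∈ A, |cor u M (v n - v n')| := by
  classical
  set T' : Finset ℤ := T ∪ A.biUnion (fun n => (Icc (1 : ℤ) M).image (fun m => m + v n)) with hT'
  have h1 : ∑ N ∈ T, (∑ n ∈ A, f n * u (N - v n)) ^ 2 ≤
      ∑ N ∈ T', (∑ n ∈ A, f n * u (N - v n)) ^ 2 :=
    Finset.sum_le_sum_of_subset_of_nonneg Finset.subset_union_left fun _ _ _ => sq_nonneg _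
  have h2 : ∀ n ∈ A, ∀ n' ∈ A, ∑ N ∈ T', u (N - v n) * u (N - v n') = cor u M (v n - v n') := by
    intro n hn n' _
    have h3 : ∑ N ∈ T', u (N - v n) * u (N - v n') = ∑' N : ℤ, u (N - v n) * u (N - v n') := by
      symm
      refine tsum_eq_sum fun N hN => ?_
      rw [hu (N - v n), zero_mul]
      intro h4
      refine hN (Finset.mem_union_right _ (Finset.mem_biUnion.2 ⟨n, hn, ?_⟩))
      exact Finset.mem_image.2 ⟨N - v n, h4, by ring⟩
    rw [h3, V1_tsum u M hu, ← (Equiv.addRight (v n)).tsum_eq]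
    refine tsum_congr fun m => ?_
    simp only [Equiv.coe_addRight, add_sub_cancel_right]
    congr 2
    ring
  refine h1.trans ?_
  have h5 : ∑ N ∈ T', (∑ n ∈ A, f n * u (N - v n)) ^ 2 =
      ∑ n ∈ A, ∑ n' ∈ A, f n * f n' * cor u M (v n - v n') := by
    calc ∑ N ∈ T', (∑ n ∈ A, f n * u (N - v n)) ^ 2 =
        ∑ N ∈ T', ∑ n ∈ A, ∑ n' ∈ A, (f n * f n') * (u (N - v n) * u (N - v n')) := by
          refine Finset.sum_congr rfl fun N _ => ?_
          rw [sq, Finset.sum_mul_sum]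
          refine Finset.sum_congr rfl fun n _ => Finset.sum_congr rfl fun n' _ => ?_
          ring
      _ = ∑ n ∈ A, ∑ n' ∈ A, ∑ N ∈ T', (f n * f n') * (u (N - v n) * u (N - v n')) := by
          rw [Finset.sum_comm]
          refine Finset.sum_congr rfl fun n _ => ?_
          rw [Finset.sum_comm]
      _ = _ := by
          refine Finset.sum_congr rfl fun n hn => Finset.sum_congr rfl fun n' hn' => ?_
          rw [← Finset.mul_sum, h2 n hn n' hn']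
  rw [h5]
  refine Finset.sum_le_sum fun n _ => Finset.sum_le_sum fun n' _ => ?_
  calc f n * f n' * cor u M (v n - v n') ≤ |f n * f n' * cor u M (v n - v n')| := le_abs_self _
    _ = (|f n| * |f n'|) * |cor u M (v n - v n')| := by rw [abs_mul, abs_mul]
    _ ≤ 1 * |cor u M (v n - v n')| := by
        refine mul_le_mul_of_nonneg_right ?_ (abs_nonneg _)
        exact mul_le_one₀ (hf n) (abs_nonneg _) (hf n')
    _ = _ := one_mul _

/-- **Van der Corput's inequality.** With signs `ε_n = ± 1`,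
`∑_{n ∈ J} |cor(D n)| = ∑_{m} u(m) ∑_{n ∈ J} ε_n u(m + D n)`, by Cauchy-Schwarz its square is at
most `∑ u(m)^2 · ∑_{m ∈ ℤ} (∑_n ε_n u(m + D n))^2`, and the last sum (over any large enough
interval of `m`) is `∑_{n,n'} ε_n ε_{n'} cor(D n' - D n)` (with `cor_neg`). -/
theorem cor_cs (u : ℤ → ℝ) (M : ℕ) (hu : ∀ m, m ∉ Icc (1 : ℤ) M → u m = 0) (J : Finset ℕ)
    (D : ℕ → ℤ) : (∑ n ∈ J, |cor u M (D n)|) ^ 2 ≤
      (∑ m ∈ Icc (1 : ℤ) M, u m ^ 2) * ∑ n ∈ J, ∑ n' ∈ J, |cor u M (D n - D n')| := by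
  classical
  set ε : ℕ → ℝ := fun n => if 0 ≤ cor u M (D n) then 1 else -1 with hε
  have hε1 : ∀ n, |ε n| ≤ 1 := by
    intro n
    simp only [hε]
    split_ifs <;> simp
  have hε2 : ∀ n, |cor u M (D n)| = ε n * cor u M (D n) := by
    intro n
    simp only [hε]
    split_ifs with h
    · rw [abs_of_nonneg h, one_mul]
    · rw [abs_of_neg (not_le.1 h)]
      ring
  have h1 : ∑ n ∈ J, |cor u M (D n)| =
      ∑ m ∈ Icc (1 : ℤ) M, u m * ∑ n ∈ J, ε n * u (m - (-(D n))) := by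
    calc ∑ n ∈ J, |cor u M (D n)| = ∑ n ∈ J, ∑ m ∈ Icc (1 : ℤ) M, ε n * (u m * u (m + D n)) := by
          refine Finset.sum_congr rfl fun n _ => ?_
          rw [hε2, cor, Finset.mul_sum]
      _ = ∑ m ∈ Icc (1 : ℤ) M, ∑ n ∈ J, ε n * (u m * u (m + D n)) := Finset.sum_comm
      _ = _ := by
          refine Finset.sum_congr rfl fun m _ => ?_
          rw [Finset.mul_sum]
          refine Finset.sum_congr rfl fun n _ => ?_
          rw [sub_neg_eq_add]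
          ring
  rw [h1]
  refine (Finset.sum_mul_sq_le_sq_mul_sq _ _ _).trans ?_
  refine mul_le_mul_of_nonneg_left ?_ (Finset.sum_nonneg fun _ _ => sq_nonneg _)
  have h2 := cor_conv u M hu J ε hε1 (fun n => -(D n)) (Icc (1 : ℤ) M)
  refine h2.trans (le_of_eq ?_)
  refine Finset.sum_congr rfl fun n _ => Finset.sum_congr rfl fun n' _ => ?_
  rw [show -D n - -D n' = -(D n - D n') by ring, cor_neg u M hu]

end Pool.Agent.Lib.H33B
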