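import Pool.Agent.Lib.H33B.V1

/-!
# Chunk V5: iterated van der Corput differencing
-/

open Finset Polynomial

namespace Pool.Agent.Lib.H33B

theorem V5_taylor_coeff (P : ℤ[X]) (h : ℤ) (N : ℕ) (hP : P.natDegree ≤ N + 1) :
    (P.comp (X + C h)).coeff N = P.coeff N + (N + 1) * h * P.coeff (N + 1) := by
  have h1 : P.comp (X + C h) = taylor h P := rfl
  rw [h1, taylor_coeff]
  have h2 : (hasseDeriv N P).natDegree < 2 := by
    have := natDegree_hasseDeriv_le P N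
    omega
  rw [eval_eq_sum_range' h2, Finset.sum_range_succ, Finset.sum_range_one, hasseDeriv_coeff,
    hasseDeriv_coeff]
  simp only [zero_add, Nat.choose_self, Nat.cast_one, one_mul, pow_zero, mul_one, pow_one]
  have h3 : (1 + N).choose N = N + 1 := by
    rw [add_comm]
    exact Nat.choose_succ_self_right N
  rw [h3, add_comm 1 N]
  push_cast
  ring

/-- The coefficient of `x^j` in `P(x+h) - P(x)` for `deg P ≤ j + 1` is `(j+1) h P_{j+1}`. -/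
theorem shiftDiff_coeff (P : ℤ[X]) (h : ℤ) (j : ℕ) (hP : P.natDegree ≤ j + 1) :
    (shiftDiff P h).coeff j = (j + 1) * h * P.coeff (j + 1) := by
  unfold shiftDiff
  rw [coeff_sub, V5_taylor_coeff P h j hP]
  ring

theorem shiftDiff_natDegree (P : ℤ[X]) (h : ℤ) (j : ℕ) (hP : P.natDegree ≤ j + 1) :
    (shiftDiff P h).natDegree ≤ j := by
  rw [natDegree_le_iff_coeff_eq_zero]
  intro N hN
  unfold shiftDiff
  rw [coeff_sub, V5_taylor_coeff P h N (by omega)]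
  have h1 : P.coeff (N + 1) = 0 := coeff_eq_zero_of_natDegree_lt (by omega)
  rw [h1]
  ring

theorem shiftDiff_eval (P : ℤ[X]) (h x : ℤ) :
    (shiftDiff P h).eval x = P.eval (x + h) - P.eval x := by
  unfold shiftDiff
  simp [eval_comp]

/-- power mean -/
theorem V5_mean {ι : Type*} (H : Finset ι) (N : ℝ) (hN : (H.card : ℝ) ≤ N) (hN0 : 0 < N)
    (r : ι → ℝ) (hr : ∀ h ∈ H, 0 ≤ r h) (p : ℝ) (hp : 1 ≤ p) :
    ∑ h ∈ H, r h ^ (1 / p) ≤ N * ((∑ h ∈ H, r h) / N) ^ (1 / p) := by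
  have hp0 : 0 < p := by linarith
  have hS : 0 ≤ ∑ h ∈ H, r h := Finset.sum_nonneg hr
  rcases Finset.eq_empty_or_nonempty H with h0 | h0
  · rw [h0]
    simp only [Finset.sum_empty, zero_div]
    positivity
  · have hc : (0 : ℝ) < H.card := by exact_mod_cast h0.card_pos
    have h1 := Real.arith_mean_le_rpow_mean H (fun _ => 1 / (H.card : ℝ)) (fun h => r h ^ (1 / p))
      (fun _ _ => by positivity) (by rw [Finset.sum_const, nsmul_eq_mul]; field_simp)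
      (fun h hh => Real.rpow_nonneg (hr h hh) _) hp
    have h2 : ∀ h ∈ H, 1 / (H.card : ℝ) * (r h ^ (1 / p)) ^ p = 1 / (H.card : ℝ) * r h := by
      intro h hh
      rw [← Real.rpow_mul (hr h hh), one_div_mul_cancel hp0.ne', Real.rpow_one]
    rw [Finset.sum_congr rfl h2, ← Finset.mul_sum, ← Finset.mul_sum] at h1
    have h3 : ∑ h ∈ H, r h ^ (1 / p) ≤ H.card * ((∑ h ∈ H, r h) / H.card) ^ (1 / p) := by
      have h4 : 1 / (H.card : ℝ) * ∑ h ∈ H, r h = (∑ h ∈ H, r h) / H.card := by ring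
      rw [h4] at h1
      have h5 := mul_le_mul_of_nonneg_left h1 hc.le
      calc ∑ h ∈ H, r h ^ (1 / p) = (H.card : ℝ) * (1 / (H.card : ℝ) * ∑ h ∈ H, r h ^ (1 / p)) := by
            field_simp
        _ ≤ _ := h5
    refine h3.trans ?_
    have h6 : ∀ x : ℝ, 0 < x → x * ((∑ h ∈ H, r h) / x) ^ (1 / p) =
        x ^ (1 - 1 / p) * (∑ h ∈ H, r h) ^ (1 / p) := by
      intro x hx
      rw [Real.div_rpow hS hx.le, Real.rpow_sub hx, Real.rpow_one]
      ring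
    rw [h6 _ hc, h6 _ hN0]
    refine mul_le_mul_of_nonneg_right ?_ (Real.rpow_nonneg hS _)
    refine Real.rpow_le_rpow hc.le hN ?_
    have : 1 / p ≤ 1 := (div_le_one hp0).2 hp
    linarith

theorem V5_cons {H : Finset ℤ} (j : ℕ) (f : (Fin (j + 1) → ℤ) → ℝ) :
    ∑ g ∈ Fintype.piFinset (fun _ : Fin (j + 1) => H), f g =
      ∑ h ∈ H, ∑ h' ∈ Fintype.piFinset (fun _ : Fin j => H), f (Fin.cons h h') := by
  rw [← Finset.sum_product']
  refine Finset.sum_nbij' (fun g => (g 0, Fin.tail g)) (fun p => Fin.cons p.1 p.2) ?_ ?_ ?_ ?_ ?_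
  · intro g hg
    rw [Fintype.mem_piFinset] at hg
    rw [Finset.mem_product, Fintype.mem_piFinset]
    exact ⟨hg 0, fun i => hg _⟩
  · intro p hp
    rw [Finset.mem_product, Fintype.mem_piFinset] at hp
    rw [Fintype.mem_piFinset]
    intro i
    refine Fin.cases ?_ (fun i => ?_) i
    · rw [Fin.cons_zero]
      exact hp.1
    · rw [Fin.cons_succ]
      exact hp.2 i
  · intro g _
    exact Fin.cons_self_tail g
  · intro p _
    simp
  · intro g _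
    simp only
    rw [Fin.cons_self_tail]

/-- The sum over pairs in terms of the differences. -/
theorem V5_pairs (J : Finset ℕ) (X : ℕ) (hJ : J ⊆ Icc 1 X) (F : ℤ → ℤ → ℝ) :
    ∑ n ∈ J, ∑ n' ∈ J, F (n : ℤ) (n' : ℤ) =
      ∑ h ∈ Ioo (-(X : ℤ)) X, ∑ n' ∈ J.filter (fun n' : ℕ => ∃ n ∈ J, (n : ℤ) = n' + h),
        F (n' + h) n' := by
  classical
  rw [Finset.sum_comm]
  have h1 : ∀ n' ∈ J, ∑ n ∈ J, F (n : ℤ) (n' : ℤ) =
      ∑ h ∈ Ioo (-(X : ℤ)) X, if (∃ n ∈ J, (n : ℤ) = n' + h) then F (n' + h) n' else 0 := by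
    intro n' hn'
    rw [← Finset.sum_filter]
    refine Finset.sum_bij (fun n _ => (n : ℤ) - n') ?_ ?_ ?_ ?_
    · intro n hn
      have h2 := Finset.mem_Icc.1 (hJ hn)
      have h3 := Finset.mem_Icc.1 (hJ hn')
      rw [Finset.mem_filter, Finset.mem_Ioo]
      refine ⟨⟨by omega, by omega⟩, n, hn, by ring⟩
    · intro a _ b _ h
      omega
    · intro h hh
      rw [Finset.mem_filter] at hh
      obtain ⟨_, n, hn, h2⟩ := hh
      exact ⟨n, hn, by omega⟩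
    · intro n _
      congr 1
      ring
  rw [Finset.sum_congr rfl h1, Finset.sum_comm]
  refine Finset.sum_congr rfl fun h _ => ?_
  rw [Finset.sum_filter]

/-- From the bound for degree `j` to the sum over pairs for degree `j + 1`. -/
theorem V5_step (u : ℤ → ℝ) (M : ℕ) (E : ℝ) (hE0 : 0 < E) (X : ℕ) (hX : 1 ≤ X) (j : ℕ)
    (ih : ∀ P : ℤ[X], P.natDegree ≤ j → ∀ J : Finset ℕ, J ⊆ Icc 1 X →
      ∑ n ∈ J, |cor u M (P.eval (n : ℤ))| ≤ 2 * X * E *
      ((∑ h ∈ Fintype.piFinset (fun _ : Fin j => Ioo (-(X : ℤ)) X),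
        |cor u M ((j.factorial : ℤ) * P.coeff j * ∏ i, h i)|) / ((2 * X) ^ j * E)) ^
          ((1 : ℝ) / 2 ^ j))
    (P : ℤ[X]) (hP : P.natDegree ≤ j + 1) (J : Finset ℕ) (hJ : J ⊆ Icc 1 X) :
    ∑ n ∈ J, ∑ n' ∈ J, |cor u M (P.eval (n : ℤ) - P.eval (n' : ℤ))| ≤
      4 * X ^ 2 * E * ((∑ h ∈ Fintype.piFinset (fun _ : Fin (j + 1) => Ioo (-(X : ℤ)) X),
        |cor u M (((j + 1).factorial : ℤ) * P.coeff (j + 1) * ∏ i, h i)|) /
          ((2 * X) ^ (j + 1) * E)) ^ ((1 : ℝ) / 2 ^ j) := by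
  have hX0 : (0 : ℝ) < X := by exact_mod_cast hX
  rw [V5_pairs J X hJ (fun a b => |cor u M (P.eval a - P.eval b)|)]
  set W : ℤ → ℝ := fun h => ∑ h' ∈ Fintype.piFinset (fun _ : Fin j => Ioo (-(X : ℤ)) X),
    |cor u M ((j.factorial : ℤ) * (shiftDiff P h).coeff j * ∏ i, h' i)| with hW
  have hW0 : ∀ h, 0 ≤ W h := fun h => Finset.sum_nonneg fun _ _ => abs_nonneg _
  have h1 : ∀ h ∈ Ioo (-(X : ℤ)) X,
      ∑ n' ∈ J.filter (fun n' : ℕ => ∃ n ∈ J, (n : ℤ) = n' + h),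
        |cor u M (P.eval ((n' : ℤ) + h) - P.eval (n' : ℤ))| ≤
      2 * X * E * (W h / ((2 * X) ^ j * E)) ^ ((1 : ℝ) / 2 ^ j) := by
    intro h _
    have h2 := ih (shiftDiff P h) (shiftDiff_natDegree P h j hP)
      (J.filter (fun n' : ℕ => ∃ n ∈ J, (n : ℤ) = n' + h)) ((Finset.filter_subset _ _).trans hJ)
    simp only [shiftDiff_eval] at h2
    exact h2
  refine (Finset.sum_le_sum h1).trans ?_
  rw [← Finset.mul_sum]
  have h3 := V5_mean (Ioo (-(X : ℤ)) X) (2 * X) (by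
      rw [Int.card_Ioo]
      have : ((X : ℤ) - -(X : ℤ) - 1).toNat ≤ 2 * X := by omega
      exact_mod_cast this) (by positivity) (fun h => W h / ((2 * X) ^ j * E))
    (fun h _ => div_nonneg (hW0 h) (by positivity)) (2 ^ j) (one_le_pow₀ (by norm_num))
  have h4 : (∑ h ∈ Ioo (-(X : ℤ)) X, W h / ((2 * X) ^ j * E)) / (2 * X) =
      (∑ h ∈ Fintype.piFinset (fun _ : Fin (j + 1) => Ioo (-(X : ℤ)) X),
        |cor u M (((j + 1).factorial : ℤ) * P.coeff (j + 1) * ∏ i, h i)|) /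
          ((2 * X) ^ (j + 1) * E) := by
    rw [V5_cons, ← Finset.sum_div, div_div]
    congr 1
    · refine Finset.sum_congr rfl fun h _ => ?_
      simp only [hW]
      refine Finset.sum_congr rfl fun h' _ => ?_
      congr 2
      rw [shiftDiff_coeff P h j hP, Fin.prod_univ_succ, Fin.cons_zero, Nat.factorial_succ]
      simp only [Fin.cons_succ]
      push_cast
      ring
    · ring
  rw [h4] at h3
  calc 2 * X * E * ∑ h ∈ Ioo (-(X : ℤ)) X, (W h / ((2 * X) ^ j * E)) ^ ((1 : ℝ) / 2 ^ j) ≤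
        2 * X * E * (2 * X * ((∑ h ∈ Fintype.piFinset (fun _ : Fin (j + 1) => Ioo (-(X : ℤ)) X),
        |cor u M (((j + 1).factorial : ℤ) * P.coeff (j + 1) * ∏ i, h i)|) /
          ((2 * X) ^ (j + 1) * E)) ^ ((1 : ℝ) / 2 ^ j)) :=
        mul_le_mul_of_nonneg_left h3 (by positivity)
    _ = _ := by ring

/-- Induction on `j`. For `j = 0` the polynomial is constant and the left side is at most
`X |cor(P_0)|`. Step: put `T = ∑_{n ∈ J} |cor(P(n))|`. By `cor_cs`,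
`T^2 ≤ E ∑_{n,n' ∈ J} |cor(P(n) - P(n'))| = E ∑_{h ∈ (-X,X)} ∑_{n' ∈ J_h} |cor(Δ_h P(n'))|`,
`J_h = {n' ∈ J : n' + h ∈ J} ⊆ [1,X]`, `Δ_h P = shiftDiff P h` of degree `≤ j` with coefficient
`(j+1) h P_{j+1}` at `x^j`. By induction this is at most `E ∑_h 2 X E r_h^θ`, `θ = 1/2^j`,
`r_h = ∑_{h'} |cor(j! (j+1) h P_{j+1} ∏ h')|/((2X)^j E)`. Hölder (concavity):
`∑_h r_h^θ ≤ (2X)^(1-θ) (∑_h r_h)^θ = 2X (∑_h r_h/(2X))^θ` (there are `2X - 1` values of `h`), and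
`∑_h r_h/(2X)` is the quantity `ρ_{j+1}` in the claim (a tuple in `Fin (j+1)` is `h` together with `h'`,
`Fin.cons`). So `T^2 ≤ (2 X E)^2 ρ_{j+1}^θ`. -/
theorem vdc_iter (u : ℤ → ℝ) (M : ℕ) (hu : ∀ m, m ∉ Icc (1 : ℤ) M → u m = 0) (E : ℝ)
    (hE0 : 0 < E) (hE : ∑ m ∈ Icc (1 : ℤ) M, u m ^ 2 ≤ E) (X : ℕ) (hX : 1 ≤ X) :
    ∀ (j : ℕ) (P : ℤ[X]), P.natDegree ≤ j → ∀ J : Finset ℕ, J ⊆ Icc 1 X →
    ∑ n ∈ J, |cor u M (P.eval (n : ℤ))| ≤ 2 * X * E *
      ((∑ h ∈ Fintype.piFinset (fun _ : Fin j => Ioo (-(X : ℤ)) X),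
        |cor u M ((j.factorial : ℤ) * P.coeff j * ∏ i, h i)|) / ((2 * X) ^ j * E)) ^
          ((1 : ℝ) / 2 ^ j) := by
  have hX0 : (0 : ℝ) < X := by exact_mod_cast hX
  intro j
  induction j with
  | zero =>
    intro P hP J hJ
    have h1 : P = C (P.coeff 0) := eq_C_of_natDegree_le_zero hP
    have h2 : ∀ n ∈ J, |cor u M (P.eval (n : ℤ))| = |cor u M (P.coeff 0)| := by
      intro n _
      rw [h1, eval_C, coeff_C_zero]
    rw [Finset.sum_congr rfl h2, Finset.sum_const, nsmul_eq_mul]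
    have h3 : (J.card : ℝ) ≤ X := by
      have := Finset.card_le_card hJ
      rw [Nat.card_Icc] at this
      exact_mod_cast (by omega : J.card ≤ X)
    have h4 : 2 * X * E * ((∑ h ∈ Fintype.piFinset (fun _ : Fin 0 => Ioo (-(X : ℤ)) X),
        |cor u M (((Nat.factorial 0 : ℕ) : ℤ) * P.coeff 0 * ∏ i, h i)|) /
          ((2 * X) ^ 0 * E)) ^ ((1 : ℝ) / 2 ^ 0) = 2 * X * |cor u M (P.coeff 0)| := by
      simp only [Fintype.piFinset_of_isEmpty, Finset.univ_unique, Finset.sum_singleton,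
        Finset.univ_eq_empty, Finset.prod_empty, Nat.factorial_zero, Nat.cast_one, one_mul, mul_one,
        pow_zero, div_one, Real.rpow_one]
      field_simp
    rw [h4]
    have h5 := abs_nonneg (cor u M (P.coeff 0))
    nlinarith
  | succ j ih =>
    intro P hP J hJ
    have h1 := V5_step u M E hE0 X hX j ih P hP J hJ
    set ρ : ℝ := (∑ h ∈ Fintype.piFinset (fun _ : Fin (j + 1) => Ioo (-(X : ℤ)) X),
        |cor u M (((j + 1).factorial : ℤ) * P.coeff (j + 1) * ∏ i, h i)|) /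
          ((2 * X) ^ (j + 1) * E) with hρ
    have hρ0 : 0 ≤ ρ := div_nonneg (Finset.sum_nonneg fun _ _ => abs_nonneg _) (by positivity)
    have h2 := cor_cs u M hu J (fun n => P.eval (n : ℤ))
    have h3 : (∑ n ∈ J, |cor u M (P.eval (n : ℤ))|) ^ 2 ≤
        E * (4 * X ^ 2 * E * ρ ^ ((1 : ℝ) / 2 ^ j)) := by
      refine h2.trans (mul_le_mul hE h1 ?_ hE0.le)
      exact Finset.sum_nonneg fun _ _ => Finset.sum_nonneg fun _ _ => abs_nonneg _
    have h4 : (2 * X * E * ρ ^ ((1 : ℝ) / 2 ^ (j + 1))) ^ 2 =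
        E * (4 * X ^ 2 * E * ρ ^ ((1 : ℝ) / 2 ^ j)) := by
      have h5 : (ρ ^ ((1 : ℝ) / 2 ^ (j + 1))) ^ 2 = ρ ^ ((1 : ℝ) / 2 ^ j) := by
        rw [← Real.rpow_natCast, ← Real.rpow_mul hρ0]
        congr 1
        rw [pow_succ]
        push_cast
        field_simp
      rw [mul_pow, h5]
      ring
    rw [← h4] at h3
    exact abs_le_of_sq_le_sq' h3 (by positivity) |>.2

/-- `∑_{n,n'} = ∑_{h ∈ (-X,X)} ∑_{n' ∈ J_h} |cor(Δ_h P(n'))|`, then `vdc_iter` with `j = k - 1` and the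
same use of Hölder's inequality as in the step of the induction. -/
theorem vdc_pair (u : ℤ → ℝ) (M : ℕ) (hu : ∀ m, m ∉ Icc (1 : ℤ) M → u m = 0) (E : ℝ)
    (hE0 : 0 < E) (hE : ∑ m ∈ Icc (1 : ℤ) M, u m ^ 2 ≤ E) (X : ℕ) (hX : 1 ≤ X) (k : ℕ)
    (hk : 1 ≤ k) (P : ℤ[X]) (hP : P.natDegree ≤ k) :
    ∑ n ∈ Icc 1 X, ∑ n' ∈ Icc 1 X, |cor u M (P.eval (n : ℤ) - P.eval (n' : ℤ))| ≤
      4 * X ^ 2 * E * ((∑ h ∈ Fintype.piFinset (fun _ : Fin k => Ioo (-(X : ℤ)) X),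
        |cor u M ((k.factorial : ℤ) * P.coeff k * ∏ i, h i)|) / ((2 * X) ^ k * E)) ^
          ((1 : ℝ) / 2 ^ (k - 1)) := by
  obtain ⟨j, rfl⟩ : ∃ j, k = j + 1 := ⟨k - 1, by omega⟩
  have h1 := V5_step u M E hE0 X hX j (vdc_iter u M hu E hE0 hE X hX j) P hP (Icc 1 X)
    (Finset.Subset.refl _)
  simpa using h1

end Pool.Agent.Lib.H33B
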