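import Pool.Agent.Lib.H33B.V4
import Pool.Agent.Lib.H33B.V5

/-!
# Chunk V6: correlations at the differences of a polynomial
-/

open Finset Polynomial

namespace Pool.Agent.Lib.H33B

open Pool.Agent.Lib.H68T (e)

theorem V6_base {k : ℕ} (hk : 1 ≤ k) {X E S L : ℝ} (hX : 0 < X) (hE : 0 < E) (hS : 0 ≤ S)
    (hL : 1 ≤ L) : (k * (2 * X) ^ (k - 1) * E +
        2 ^ k * (Real.sqrt (X ^ k * L ^ (k ^ 2)) * (S * Real.sqrt E))) / ((2 * X) ^ k * E) ≤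
      k * (1 / X + S * L ^ (k ^ 2) / Real.sqrt (X ^ k * E)) := by
  have hk' : (1 : ℝ) ≤ k := by exact_mod_cast hk
  have hsX : 0 < Real.sqrt (X ^ k) := Real.sqrt_pos.2 (by positivity)
  have hsE : 0 < Real.sqrt E := Real.sqrt_pos.2 hE
  have h1 : Real.sqrt (X ^ k * L ^ (k ^ 2)) ≤ Real.sqrt (X ^ k) * L ^ (k ^ 2) := by
    rw [Real.sqrt_mul (by positivity)]
    refine mul_le_mul_of_nonneg_left ?_ hsX.le
    have h2 : 1 ≤ L ^ (k ^ 2) := one_le_pow₀ hL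
    rw [Real.sqrt_le_left (by positivity)]
    nlinarith
  have h3 : Real.sqrt (X ^ k * E) = Real.sqrt (X ^ k) * Real.sqrt E := Real.sqrt_mul (by positivity) _
  obtain ⟨j, rfl⟩ : ∃ j, k = j + 1 := ⟨k - 1, by omega⟩
  rw [add_div]
  have e1 : ((j + 1 : ℕ) : ℝ) * (2 * X) ^ (j + 1 - 1) * E / ((2 * X) ^ (j + 1) * E) =
      ((j + 1 : ℕ) : ℝ) * (1 / X) / 2 := by
    rw [Nat.add_sub_cancel, pow_succ]
    field_simp
  have e2 : 2 ^ (j + 1) * (Real.sqrt (X ^ (j + 1) * L ^ ((j + 1) ^ 2)) * (S * Real.sqrt E)) /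
      ((2 * X) ^ (j + 1) * E) ≤ S * L ^ ((j + 1) ^ 2) / Real.sqrt (X ^ (j + 1) * E) := by
    calc 2 ^ (j + 1) * (Real.sqrt (X ^ (j + 1) * L ^ ((j + 1) ^ 2)) * (S * Real.sqrt E)) /
          ((2 * X) ^ (j + 1) * E) ≤
        2 ^ (j + 1) * ((Real.sqrt (X ^ (j + 1)) * L ^ ((j + 1) ^ 2)) * (S * Real.sqrt E)) /
          ((2 * X) ^ (j + 1) * E) := by
          refine div_le_div_of_nonneg_right ?_ (by positivity)
          refine mul_le_mul_of_nonneg_left ?_ (by positivity)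
          exact mul_le_mul_of_nonneg_right h1 (by positivity)
      _ = S * L ^ ((j + 1) ^ 2) / Real.sqrt (X ^ (j + 1) * E) := by
          rw [h3, mul_pow, div_eq_div_iff (by positivity) (by positivity)]
          have a1 : Real.sqrt (X ^ (j + 1)) * Real.sqrt (X ^ (j + 1)) = X ^ (j + 1) :=
            Real.mul_self_sqrt (by positivity)
          have a2 : Real.sqrt E * Real.sqrt E = E := Real.mul_self_sqrt hE.le
          calc 2 ^ (j + 1) * (Real.sqrt (X ^ (j + 1)) * L ^ ((j + 1) ^ 2) * (S * Real.sqrt E)) *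
                (Real.sqrt (X ^ (j + 1)) * Real.sqrt E) =
              2 ^ (j + 1) * (Real.sqrt (X ^ (j + 1)) * Real.sqrt (X ^ (j + 1))) *
                (Real.sqrt E * Real.sqrt E) * (S * L ^ ((j + 1) ^ 2)) := by ring
            _ = _ := by rw [a1, a2]; ring
  have e3 : 0 ≤ S * L ^ ((j + 1) ^ 2) / Real.sqrt (X ^ (j + 1) * E) := by positivity
  have e4 : 0 ≤ 1 / X := by positivity
  rw [e1]
  have e5 : S * L ^ ((j + 1) ^ 2) / Real.sqrt (X ^ (j + 1) * E) ≤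
      ((j + 1 : ℕ) : ℝ) * (S * L ^ ((j + 1) ^ 2) / Real.sqrt (X ^ (j + 1) * E)) :=
    le_mul_of_one_le_left e3 hk'
  have e6 : 0 ≤ ((j + 1 : ℕ) : ℝ) * (1 / X) := by positivity
  rw [mul_add]
  linarith

/-- `vdc_pair` with `k = deg G`, `G.coeff k = G.leadingCoeff`, and `hsum` with
`c = k! G.leadingCoeff ≠ 0`: the base of the power is at most
`k/(2X) + (1 + log X)^(k²/2) S/√(X^k E)`. Take `C = 4 (k² + 1)` or so. -/
theorem vdc (G : ℤ[X]) (hk : 1 ≤ G.natDegree) (hl : 0 < G.leadingCoeff) : ∃ C : ℝ, 1 ≤ C ∧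
    ∀ (u : ℤ → ℝ) (M : ℕ), (∀ m, m ∉ Icc (1 : ℤ) M → u m = 0) → ∀ E S : ℝ, 0 < E →
    ∑ m ∈ Icc (1 : ℤ) M, u m ^ 2 ≤ E → 0 ≤ S →
    (∀ θ : ℝ, ‖∑ m ∈ Icc (1 : ℤ) M, (u m : ℂ) * e (m * θ)‖ ≤ S) → ∀ X : ℕ, 1 ≤ X →
    ∑ n ∈ Icc 1 X, ∑ n' ∈ Icc 1 X, |cor u M (G.eval (n : ℤ) - G.eval (n' : ℤ))| ≤
      C * X ^ 2 * E * (1 / X + S * (1 + Real.log X) ^ C / Real.sqrt ((X : ℝ) ^ G.natDegree * E)) ^
        ((1 : ℝ) / 2 ^ (G.natDegree - 1)) := by
  set k := G.natDegree with hkdef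
  have hk' : (1 : ℝ) ≤ k := by exact_mod_cast hk
  refine ⟨4 * ((k : ℝ) ^ 2 + 1), by nlinarith, ?_⟩
  intro u M hu E S hE0 hE hS0 hS X hX
  have hX0 : (0 : ℝ) < X := by exact_mod_cast hX
  set L : ℝ := 1 + Real.log X with hL
  have hL1 : 1 ≤ L := by
    have : 0 ≤ Real.log X := Real.log_natCast_nonneg X
    linarith
  have h1 := vdc_pair u M hu E hE0 hE X hX k hk G le_rfl
  have hc : ((k.factorial : ℤ) * G.coeff k) ≠ 0 := by
    refine mul_ne_zero (by exact_mod_cast (Nat.factorial_pos k).ne') ?_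
    exact hl.ne'
  have h2 := hsum u M hu E S hE0 hE hS0 hS k X hk hX ((k.factorial : ℤ) * G.coeff k) hc
  refine h1.trans ?_
  set θ : ℝ := (1 : ℝ) / 2 ^ (k - 1) with hθ
  have hθ0 : 0 < θ := by positivity
  have hθ1 : θ ≤ 1 := (div_le_one (by positivity)).2 (one_le_pow₀ (by norm_num))
  set C : ℝ := 4 * ((k : ℝ) ^ 2 + 1) with hC
  have hLC : L ^ (k ^ 2) ≤ L ^ C := by
    rw [← Real.rpow_natCast]
    refine Real.rpow_le_rpow_of_exponent_le hL1 ?_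
    push_cast
    nlinarith
  have hsq : 0 < Real.sqrt ((X : ℝ) ^ k * E) := Real.sqrt_pos.2 (by positivity)
  have hbase : (∑ h ∈ Fintype.piFinset (fun _ : Fin k => Ioo (-(X : ℤ)) X),
      |cor u M ((k.factorial : ℤ) * G.coeff k * ∏ i, h i)|) / ((2 * X) ^ k * E) ≤
      k * (1 / X + S * L ^ C / Real.sqrt ((X : ℝ) ^ k * E)) := by
    refine (div_le_div_of_nonneg_right h2 (by positivity)).trans
      ((V6_base hk hX0 hE0 hS0 hL1).trans ?_)
    refine mul_le_mul_of_nonneg_left ?_ (by linarith)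
    have := div_le_div_of_nonneg_right (mul_le_mul_of_nonneg_left hLC hS0) hsq.le
    linarith
  have hy0 : 0 ≤ 1 / (X : ℝ) + S * L ^ C / Real.sqrt ((X : ℝ) ^ k * E) := by positivity
  have h3 : ((∑ h ∈ Fintype.piFinset (fun _ : Fin k => Ioo (-(X : ℤ)) X),
      |cor u M ((k.factorial : ℤ) * G.coeff k * ∏ i, h i)|) / ((2 * X) ^ k * E)) ^ θ ≤
      k * (1 / X + S * L ^ C / Real.sqrt ((X : ℝ) ^ k * E)) ^ θ := by
    refine (Real.rpow_le_rpow (div_nonneg (Finset.sum_nonneg fun _ _ => abs_nonneg _)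
      (by positivity)) hbase hθ0.le).trans ?_
    rw [Real.mul_rpow (by linarith) hy0]
    refine mul_le_mul_of_nonneg_right ?_ (Real.rpow_nonneg hy0 _)
    calc (k : ℝ) ^ θ ≤ (k : ℝ) ^ (1 : ℝ) := Real.rpow_le_rpow_of_exponent_le hk' hθ1
      _ = k := Real.rpow_one _
  calc 4 * (X : ℝ) ^ 2 * E * ((∑ h ∈ Fintype.piFinset (fun _ : Fin k => Ioo (-(X : ℤ)) X),
      |cor u M ((k.factorial : ℤ) * G.coeff k * ∏ i, h i)|) / ((2 * X) ^ k * E)) ^ θ ≤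
        4 * (X : ℝ) ^ 2 * E * (k * (1 / X + S * L ^ C / Real.sqrt ((X : ℝ) ^ k * E)) ^ θ) :=
        mul_le_mul_of_nonneg_left h3 (by positivity)
    _ = (4 * k) * ((X : ℝ) ^ 2 * E * (1 / X + S * L ^ C / Real.sqrt ((X : ℝ) ^ k * E)) ^ θ) := by
        ring
    _ ≤ C * ((X : ℝ) ^ 2 * E * (1 / X + S * L ^ C / Real.sqrt ((X : ℝ) ^ k * E)) ^ θ) := by
        refine mul_le_mul_of_nonneg_right ?_ (mul_nonneg (by positivity) (Real.rpow_nonneg hy0 _))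
        nlinarith
    _ = _ := by ring

end Pool.Agent.Lib.H33B
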