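import Pool.Agent.Lib.H33B.Defs

/-!
# Chunk CH: Chebyshev's upper bound and the mean of the model
-/

open Finset

namespace Pool.Agent.Lib.H33B

open Pool.Agent.Lib.H68T (lp)

/-- Chebyshev (Mathlib: `Chebyshev.theta_le_log4_mul_x`). -/
theorem sum_lp_le : ∃ C : ℝ, 0 < C ∧ ∀ M : ℕ, ∑ m ∈ Icc (1 : ℤ) M, lp m ≤ C * M := by
  refine ⟨Real.log 4, Real.log_pos (by norm_num), fun M => ?_⟩
  have h1 := Chebyshev.theta_le_log4_mul_x (x := (M : ℝ)) (Nat.cast_nonneg M)
  have h2 : ∑ m ∈ Icc (1 : ℤ) M, lp m = Chebyshev.theta (M : ℝ) := by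
    unfold Chebyshev.theta
    rw [Nat.floor_natCast, Finset.sum_filter]
    refine Finset.sum_nbij' (fun m => m.toNat) (fun n => (n : ℤ)) ?_ ?_ ?_ ?_ ?_
    · intro m hm
      rw [Finset.mem_Icc] at hm
      rw [Finset.mem_Ioc]
      omega
    · intro n hn
      rw [Finset.mem_Ioc] at hn
      rw [Finset.mem_Icc]
      omega
    · intro m hm
      rw [Finset.mem_Icc] at hm
      omega
    · intro n _
      simp
    · intro m hm
      rw [Finset.mem_Icc] at hm
      unfold Pool.Agent.Lib.H68T.lp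
      have h3 : ((m.toNat : ℕ) : ℝ) = (m : ℝ) := by
        have : ((m.toNat : ℕ) : ℤ) = m := Int.toNat_of_nonneg (by omega)
        exact_mod_cast this
      rw [h3]
  rw [h2]
  exact h1

theorem CH_PW_pos (w : ℕ) : 0 < PW w :=
  Finset.prod_pos fun p hp => (Nat.prime_of_mem_primesBelow hp).pos

/-- In an interval of length `M` the number of integers coprime to `P = PW w` is at most
`(M/P + 1) φ(P)`. -/
theorem sum_Lw_le (w : ℕ) (M : ℕ) (hM : PW w ≤ M) (a : ℤ) :
    ∑ m ∈ Ico a (a + M), Lw w m ≤ 2 * M := by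
  classical
  have hP := CH_PW_pos w
  set P := PW w with hPdef
  have hP' : (0 : ℝ) < P := by exact_mod_cast hP
  have hφ : 0 < Nat.totient P := Nat.totient_pos.2 hP
  have hφ' : (0 : ℝ) < Nat.totient P := by exact_mod_cast hφ
  have hk : 0 ≤ a + P * |a| := by
    have h1 : 1 * |a| ≤ P * |a| := mul_le_mul_of_nonneg_right (by exact_mod_cast hP) (abs_nonneg a)
    have h2 := neg_abs_le a
    linarith
  obtain ⟨k, hk'⟩ := Int.eq_ofNat_of_zero_le hk
  have h1 : ∑ m ∈ Ico a (a + M), Lw w m =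
      ((P : ℝ) / Nat.totient P) * ((Ico a (a + M)).filter (fun m => IsCoprime m (P : ℤ))).card := by
    unfold Lw Lq
    rw [← Finset.sum_filter, Finset.sum_const, nsmul_eq_mul, mul_comm]
  have h2 : ((Ico a (a + M)).filter (fun m => IsCoprime m (P : ℤ))).card ≤
      Nat.totient P * (M / P + 1) := by
    refine le_trans ?_ (Nat.Ico_filter_coprime_le k M hP.ne')
    refine Finset.card_le_card_of_injOn (fun m => (m + P * |a|).toNat) ?_ ?_
    · intro m hm
      rw [Finset.mem_coe, Finset.mem_filter, Finset.mem_Ico] at hm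
      obtain ⟨⟨h3, h4⟩, h5⟩ := hm
      rw [Finset.mem_coe, Finset.mem_filter, Finset.mem_Ico]
      beta_reduce
      refine ⟨⟨by omega, by omega⟩, ?_⟩
      have h6 : (((m + P * |a|).toNat : ℕ) : ℤ) = m + P * |a| := Int.toNat_of_nonneg (by omega)
      have h7 : IsCoprime (((m + P * |a|).toNat : ℕ) : ℤ) (P : ℤ) := by
        rw [h6]
        exact (IsCoprime.add_mul_left_left_iff).2 h5
      exact (Nat.isCoprime_iff_coprime.1 h7).symm
    · intro m hm m' hm' h
      rw [Finset.mem_coe, Finset.mem_filter, Finset.mem_Ico] at hm hm'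
      have h8 : (m + P * |a|).toNat = (m' + P * |a|).toNat := h
      omega
  rw [h1]
  have h3 : (((Ico a (a + M)).filter (fun m => IsCoprime m (P : ℤ))).card : ℝ) ≤
      Nat.totient P * (M / P + 1) := by
    have h4 : (((Ico a (a + M)).filter (fun m => IsCoprime m (P : ℤ))).card : ℝ) ≤
        Nat.totient P * ((M / P : ℕ) + 1) := by exact_mod_cast h2
    refine h4.trans (mul_le_mul_of_nonneg_left ?_ hφ'.le)
    have : ((M / P : ℕ) : ℝ) ≤ M / P := Nat.cast_div_le
    linarith
  have hM' : (P : ℝ) ≤ M := by exact_mod_cast hM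
  calc (P : ℝ) / Nat.totient P * ((Ico a (a + M)).filter (fun m => IsCoprime m (P : ℤ))).card ≤
        (P : ℝ) / Nat.totient P * (Nat.totient P * (M / P + 1)) :=
        mul_le_mul_of_nonneg_left h3 (by positivity)
    _ = M + P := by field_simp
    _ ≤ 2 * M := by linarith

end Pool.Agent.Lib.H33B
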