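import Mathlib
import Pool.Agent.Lib.H59C.MER0

/-!
# Chunk CV1: a Tauberian theorem for sums over primes
-/

open Finset Filter Topology

namespace Pool.Agent.Lib.H33B

open Pool.Agent.Lib.H59C (PR mem_PR mertens)

open Pool.Agent.Lib.Sieve (primesUpTo mem_primesUpTo sum_log_div_le)

/-- The value `p^(-s)`. -/
noncomputable def CV1_Y (s : ℝ) (p : ℕ) : ℝ := (p : ℝ) ^ (-s)

theorem CV1_Y_exp (s : ℝ) {p : ℕ} (hp : p.Prime) : CV1_Y s p = Real.exp (-(s * Real.log p)) := by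
  have hp0 : (0 : ℝ) < p := by exact_mod_cast hp.pos
  unfold CV1_Y
  rw [Real.rpow_def_of_pos hp0]
  congr 1
  ring

theorem CV1_Y_pos (s : ℝ) {p : ℕ} (hp : p.Prime) : 0 < CV1_Y s p := by
  rw [CV1_Y_exp s hp]
  exact Real.exp_pos _

theorem CV1_log_pos {p : ℕ} (hp : p.Prime) : 0 < Real.log p :=
  Real.log_pos (by exact_mod_cast hp.one_lt)

theorem CV1_Y_lt {s : ℝ} (hs : 0 < s) {p : ℕ} (hp : p.Prime) : CV1_Y s p < 1 := by
  rw [CV1_Y_exp s hp, Real.exp_lt_one_iff]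
  have := CV1_log_pos hp
  nlinarith

theorem CV1_Y_pow (s : ℝ) (p j : ℕ) : CV1_Y s p ^ j = CV1_Y (j * s) p := by
  unfold CV1_Y
  rw [← Real.rpow_natCast, ← Real.rpow_mul (Nat.cast_nonneg p)]
  congr 1
  ring

theorem CV1_sum {s : ℝ} (hs : 0 < s) :
    Summable fun p : Nat.Primes => 1 / ((p : ℕ) : ℝ) * CV1_Y s p := by
  have h := Nat.Primes.summable_rpow.2 (show -1 - s < -1 by linarith)
  refine h.congr fun p => ?_
  have hp0 : (0 : ℝ) < ((p : ℕ) : ℝ) := by exact_mod_cast p.2.pos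
  unfold CV1_Y
  rw [sub_eq_add_neg, Real.rpow_add hp0, Real.rpow_neg_one, one_div]

/-- Summability against functions which are `O(y)`. -/
theorem CV1_sum' {s : ℝ} (hs : 0 < s) (f : Nat.Primes → ℝ) (C : ℝ)
    (hf : ∀ p, |f p| ≤ C * (1 / ((p : ℕ) : ℝ) * CV1_Y s p)) : Summable f := by
  refine Summable.of_norm_bounded ((CV1_sum hs).mul_left C) fun p => ?_
  rw [Real.norm_eq_abs]
  exact hf p

theorem CV1_image (F : Finset Nat.Primes) (G : Finset ℕ) (g : ℕ → ℝ) (hg : ∀ p ∈ G, 0 ≤ g p)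
    (h : ∀ p ∈ F, (p : ℕ) ∈ G) : ∑ p ∈ F, g (p : ℕ) ≤ ∑ p ∈ G, g p := by
  classical
  have h1 : ∑ p ∈ F.image (fun p : Nat.Primes => (p : ℕ)), g p = ∑ p ∈ F, g (p : ℕ) :=
    Finset.sum_image fun a _ b _ hab => Subtype.ext hab
  rw [← h1]
  apply Finset.sum_le_sum_of_subset_of_nonneg
  · intro p hp
    rw [Finset.mem_image] at hp
    obtain ⟨q, hq, rfl⟩ := hp
    exact h q hq
  · intro p hp _
    exact hg p hp

theorem CV1_block (C s : ℝ) (hC : 0 < C)
    (hM : ∀ u v : ℝ, 2 ≤ u → u ≤ v →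
      |∑ q ∈ PR u v, 1 / (q : ℝ) - (Real.log (Real.log v) - Real.log (Real.log u))| ≤
        C / Real.log u) (hs : 0 < s) (hs1 : s ≤ 1) (j : ℕ) :
    ∑ p ∈ PR (Real.exp (2 ^ j / s)) (Real.exp (2 ^ (j + 1) / s)), 1 / (p : ℝ) * CV1_Y s p ≤
      (Real.log 2 + C) * (1 / 2) ^ j := by
  have hj1 : (1 : ℝ) ≤ 2 ^ j := one_le_pow₀ (by norm_num)
  have hjs : 1 ≤ 2 ^ j / s := by
    rw [le_div_iff₀ hs]
    linarith
  have h2 : 2 ≤ Real.exp (2 ^ j / s) := by
    have := Real.add_one_le_exp (2 ^ j / s)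
    linarith
  have hle : Real.exp (2 ^ j / s) ≤ Real.exp (2 ^ (j + 1) / s) := by
    apply Real.exp_le_exp.2
    apply div_le_div_of_nonneg_right _ hs.le
    rw [pow_succ]
    linarith
  have h3 := hM _ _ h2 hle
  rw [Real.log_exp, Real.log_exp] at h3
  have h4 : Real.log (2 ^ (j + 1) / s) - Real.log (2 ^ j / s) = Real.log 2 := by
    rw [← Real.log_div (by positivity) (by positivity)]
    congr 1
    rw [pow_succ]
    field_simp
  rw [h4] at h3
  have h5 : C / (2 ^ j / s) ≤ C := by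
    rw [div_le_iff₀ (by positivity)]
    nlinarith
  have h6 : ∑ q ∈ PR (Real.exp (2 ^ j / s)) (Real.exp (2 ^ (j + 1) / s)), 1 / (q : ℝ) ≤
      Real.log 2 + C := by
    have := (abs_le.1 h3).2
    linarith
  have h7 : Real.exp (-(2 : ℝ) ^ j) ≤ (1 / 2) ^ j := by
    rw [Real.exp_neg, one_div, inv_pow]
    apply inv_anti₀ (by positivity)
    have := Real.add_one_le_exp ((2 : ℝ) ^ j)
    linarith
  calc ∑ p ∈ PR (Real.exp (2 ^ j / s)) (Real.exp (2 ^ (j + 1) / s)), 1 / (p : ℝ) * CV1_Y s p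
      ≤ ∑ p ∈ PR (Real.exp (2 ^ j / s)) (Real.exp (2 ^ (j + 1) / s)), 1 / (p : ℝ) *
        (1 / 2) ^ j := by
        refine Finset.sum_le_sum fun p hp => ?_
        obtain ⟨hpp, hp1, _⟩ := mem_PR.1 hp
        apply mul_le_mul_of_nonneg_left _ (by positivity)
        rw [CV1_Y_exp s hpp]
        refine le_trans ?_ h7
        apply Real.exp_le_exp.2
        have hp0 : (0 : ℝ) < p := by exact_mod_cast hpp.pos
        have h8 : 2 ^ j / s ≤ Real.log p := (Real.le_log_iff_exp_le hp0).2 hp1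
        rw [div_le_iff₀ hs] at h8
        linarith
    _ = (∑ p ∈ PR (Real.exp (2 ^ j / s)) (Real.exp (2 ^ (j + 1) / s)), 1 / (p : ℝ)) *
        (1 / 2) ^ j := by rw [Finset.sum_mul]
    _ ≤ (Real.log 2 + C) * (1 / 2) ^ j := mul_le_mul_of_nonneg_right h6 (by positivity)

theorem CV1_blocks (C s : ℝ) (hC : 0 < C)
    (hM : ∀ u v : ℝ, 2 ≤ u → u ≤ v →
      |∑ q ∈ PR u v, 1 / (q : ℝ) - (Real.log (Real.log v) - Real.log (Real.log u))| ≤
        C / Real.log u) (hs : 0 < s) (hs1 : s ≤ 1) (J : ℕ) :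
    ∑ p ∈ PR (Real.exp (1 / s)) (Real.exp (2 ^ J / s)), 1 / (p : ℝ) * CV1_Y s p ≤
      (Real.log 2 + C) * (2 * (1 - (1 / 2) ^ J)) := by
  induction J with
  | zero =>
    have : PR (Real.exp (1 / s)) (Real.exp (2 ^ 0 / s)) = ∅ := by
      ext p
      rw [mem_PR]
      simp
    rw [this]
    simp
  | succ J ih =>
    have h1 : PR (Real.exp (1 / s)) (Real.exp (2 ^ (J + 1) / s)) ⊆
        PR (Real.exp (1 / s)) (Real.exp (2 ^ J / s)) ∪
        PR (Real.exp (2 ^ J / s)) (Real.exp (2 ^ (J + 1) / s)) := by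
      intro p hp
      rw [mem_PR] at hp
      rw [Finset.mem_union, mem_PR, mem_PR]
      rcases lt_or_ge (p : ℝ) (Real.exp (2 ^ J / s)) with h | h
      · exact Or.inl ⟨hp.1, hp.2.1, h⟩
      · exact Or.inr ⟨hp.1, h, hp.2.2⟩
    have hnn : ∀ p : ℕ, 0 ≤ 1 / (p : ℝ) * CV1_Y s p := fun p => by
      unfold CV1_Y
      positivity
    have h2 := Finset.sum_le_sum_of_subset_of_nonneg (f := fun p : ℕ => 1 / (p : ℝ) * CV1_Y s p) h1
      (fun p _ _ => hnn p)
    have h3 := Finset.sum_union_inter (f := fun p : ℕ => 1 / (p : ℝ) * CV1_Y s p)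
      (s₁ := PR (Real.exp (1 / s)) (Real.exp (2 ^ J / s)))
      (s₂ := PR (Real.exp (2 ^ J / s)) (Real.exp (2 ^ (J + 1) / s)))
    have h4 : 0 ≤ ∑ p ∈ PR (Real.exp (1 / s)) (Real.exp (2 ^ J / s)) ∩
        PR (Real.exp (2 ^ J / s)) (Real.exp (2 ^ (J + 1) / s)), 1 / (p : ℝ) * CV1_Y s p :=
      Finset.sum_nonneg fun p _ => hnn p
    have h5 := CV1_block C s hC hM hs hs1 J
    have h6 : (Real.log 2 + C) * (2 * (1 - (1 / 2) ^ (J + 1))) =
        (Real.log 2 + C) * (2 * (1 - (1 / 2) ^ J)) + (Real.log 2 + C) * (1 / 2) ^ J := by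
      rw [pow_succ]
      ring
    rw [h6]
    linarith

theorem CV1_E1 : ∃ C1 : ℝ, 0 < C1 ∧ ∀ s : ℝ, 0 < s → s ≤ 1 →
    ∑' p : Nat.Primes, 1 / ((p : ℕ) : ℝ) * (CV1_Y s p * (1 - CV1_Y s p)) ≤ C1 := by
  obtain ⟨C, hC, hM⟩ := mertens
  refine ⟨(1 + Real.log 4) + (Real.log 2 + C) * 2, ?_, ?_⟩
  · have h1 : 0 < Real.log 4 := Real.log_pos (by norm_num)
    have h2 : 0 < Real.log 2 := Real.log_pos (by norm_num)
    positivity
  intro s hs hs1
  have hY1 : ∀ p : Nat.Primes, 0 ≤ CV1_Y s p := fun p => (CV1_Y_pos s p.2).le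
  have hY2 : ∀ p : Nat.Primes, CV1_Y s p ≤ 1 := fun p => (CV1_Y_lt hs p.2).le
  have hsum : Summable fun p : Nat.Primes =>
      1 / ((p : ℕ) : ℝ) * (CV1_Y s p * (1 - CV1_Y s p)) := by
    refine (CV1_sum hs).of_nonneg_of_le (fun p => ?_) fun p => ?_
    · have := hY1 p
      have := hY2 p
      apply mul_nonneg (by positivity)
      exact mul_nonneg (hY1 p) (by linarith)
    · apply mul_le_mul_of_nonneg_left _ (by positivity)
      have := hY1 p
      nlinarith
  refine hsum.tsum_le_of_sum_le fun F => ?_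
  classical
  rw [← Finset.sum_filter_add_sum_filter_not F (fun p : Nat.Primes => s * Real.log (p : ℕ) ≤ 1)]
  apply add_le_add
  · -- small primes
    set n : ℕ := ⌊Real.exp (1 / s)⌋₊ with hn
    have hn1 : 1 ≤ n := by
      rw [hn, Nat.one_le_floor_iff]
      exact Real.one_le_exp (by positivity)
    have h1 : ∑ p ∈ F.filter (fun p : Nat.Primes => s * Real.log (p : ℕ) ≤ 1),
        1 / ((p : ℕ) : ℝ) * (CV1_Y s p * (1 - CV1_Y s p)) ≤
        ∑ p ∈ F.filter (fun p : Nat.Primes => s * Real.log (p : ℕ) ≤ 1),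
          s * (Real.log (p : ℕ) / ((p : ℕ) : ℝ)) := by
      refine Finset.sum_le_sum fun p _ => ?_
      have hp0 : (0 : ℝ) < ((p : ℕ) : ℝ) := by exact_mod_cast p.2.pos
      have h2 : 1 - CV1_Y s p ≤ s * Real.log (p : ℕ) := by
        rw [CV1_Y_exp s p.2]
        have := Real.add_one_le_exp (-(s * Real.log (p : ℕ)))
        linarith
      have h3 : CV1_Y s p * (1 - CV1_Y s p) ≤ s * Real.log (p : ℕ) := by
        have := hY1 p
        have := hY2 p
        nlinarith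
      calc 1 / ((p : ℕ) : ℝ) * (CV1_Y s p * (1 - CV1_Y s p)) ≤
          1 / ((p : ℕ) : ℝ) * (s * Real.log (p : ℕ)) :=
            mul_le_mul_of_nonneg_left h3 (by positivity)
        _ = s * (Real.log (p : ℕ) / ((p : ℕ) : ℝ)) := by ring
    refine h1.trans ?_
    have h2 : ∑ p ∈ F.filter (fun p : Nat.Primes => s * Real.log (p : ℕ) ≤ 1),
          s * (Real.log (p : ℕ) / ((p : ℕ) : ℝ)) ≤
        s * ∑ p ∈ primesUpTo n, Real.log p / (p : ℝ) := by
      rw [Finset.mul_sum]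
      apply CV1_image _ _ (fun p : ℕ => s * (Real.log p / (p : ℝ)))
      rotate_left
      · intro q hq
        rw [Finset.mem_filter] at hq
        rw [mem_primesUpTo]
        refine ⟨q.2, ?_⟩
        apply Nat.le_floor
        have hq0 : (0 : ℝ) < ((q : ℕ) : ℝ) := by exact_mod_cast q.2.pos
        show ((q : ℕ) : ℝ) ≤ _
        rw [← Real.log_le_iff_le_exp hq0, le_div_iff₀ hs, mul_comm]
        exact hq.2
      · intro p _
        have : 0 ≤ Real.log (p : ℝ) := Real.log_natCast_nonneg p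
        positivity
    refine h2.trans ?_
    have h3 := sum_log_div_le n hn1
    have h4 : Real.log n ≤ 1 / s := by
      rw [← Real.log_exp (1 / s)]
      apply Real.log_le_log (by exact_mod_cast hn1)
      exact Nat.floor_le (Real.exp_pos _).le
    have h5 : 0 < Real.log 4 := Real.log_pos (by norm_num)
    calc s * ∑ p ∈ primesUpTo n, Real.log p / (p : ℝ) ≤ s * (1 / s + Real.log 4) :=
          mul_le_mul_of_nonneg_left (by linarith) hs.le
      _ = 1 + s * Real.log 4 := by field_simp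
      _ ≤ 1 + Real.log 4 := by nlinarith
  · -- large primes
    have h1 : ∑ p ∈ F.filter (fun p : Nat.Primes => ¬ s * Real.log (p : ℕ) ≤ 1),
        1 / ((p : ℕ) : ℝ) * (CV1_Y s p * (1 - CV1_Y s p)) ≤
        ∑ p ∈ F.filter (fun p : Nat.Primes => ¬ s * Real.log (p : ℕ) ≤ 1),
          1 / ((p : ℕ) : ℝ) * CV1_Y s p := by
      refine Finset.sum_le_sum fun p _ => ?_
      apply mul_le_mul_of_nonneg_left _ (by positivity)
      have := hY1 p
      nlinarith
    refine h1.trans ?_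
    obtain ⟨J, hJ⟩ : ∃ J : ℕ, ∀ p ∈ F, ((p : ℕ) : ℝ) < Real.exp (2 ^ J / s) := by
      have h2 : ∀ p : Nat.Primes, ∀ᶠ J : ℕ in atTop, ((p : ℕ) : ℝ) < Real.exp (2 ^ J / s) := by
        intro p
        have h3 : Tendsto (fun J : ℕ => Real.exp (2 ^ J / s)) atTop atTop :=
          Real.tendsto_exp_atTop.comp
            ((tendsto_pow_atTop_atTop_of_one_lt (by norm_num : (1 : ℝ) < 2)).atTop_div_const hs)
        exact h3.eventually_gt_atTop _
      exact ((Filter.eventually_all_finset F).2 fun p _ => h2 p).exists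
    have h3 := CV1_blocks C s hC hM hs hs1 J
    have h4 : (Real.log 2 + C) * (2 * (1 - (1 / 2) ^ J)) ≤ (Real.log 2 + C) * 2 := by
      have h5 : 0 < Real.log 2 := Real.log_pos (by norm_num)
      have h6 : (0 : ℝ) < (1 / 2) ^ J := by positivity
      nlinarith
    refine le_trans ?_ (h3.trans h4)
    apply CV1_image _ _ (fun p : ℕ => 1 / (p : ℝ) * CV1_Y s p)
    rotate_left
    · intro q hq
      rw [Finset.mem_filter, not_le] at hq
      rw [mem_PR]
      refine ⟨q.2, ?_, hJ q hq.1⟩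
      have hq0 : (0 : ℝ) < ((q : ℕ) : ℝ) := by exact_mod_cast q.2.pos
      show _ ≤ ((q : ℕ) : ℝ)
      rw [← Real.le_log_iff_exp_le hq0, div_le_iff₀ hs, mul_comm]
      exact hq.2.le
    · intro p _
      unfold CV1_Y
      positivity

theorem CV1_E2 : ∃ C2 : ℝ, 0 < C2 ∧ ∀ α s : ℝ, 1 / 2 ≤ α → α < 1 → 0 < s → s ≤ 1 / 2 →
    ∑ p ∈ PR (Real.exp (α / s)) (Real.exp (1 / s)), 1 / (p : ℝ) ≤ -Real.log α + C2 * s := by
  obtain ⟨C, hC, hM⟩ := mertens
  refine ⟨2 * C, by positivity, ?_⟩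
  intro α s hα hα1 hs hs1
  have h1 : 1 ≤ α / s := by
    rw [le_div_iff₀ hs]
    linarith
  have h2 : 2 ≤ Real.exp (α / s) := by
    have := Real.add_one_le_exp (α / s)
    linarith
  have h3 := hM (Real.exp (α / s)) (Real.exp (1 / s)) h2 (by
    apply Real.exp_le_exp.2
    exact div_le_div_of_nonneg_right hα1.le hs.le)
  rw [Real.log_exp, Real.log_exp] at h3
  have h4 : Real.log (1 / s) - Real.log (α / s) = -Real.log α := by
    rw [← Real.log_div (by positivity) (by positivity), ← Real.log_inv]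
    congr 1
    field_simp
  rw [h4] at h3
  have h5 : C / (α / s) ≤ 2 * C * s := by
    rw [div_div_eq_mul_div, div_le_iff₀ (by positivity)]
    have : 0 < C * s := by positivity
    nlinarith
  have := (abs_le.1 h3).2
  linarith

/-- The continuous approximation of `k(y)/(y(1-y))`. -/
noncomputable def CV1_phi (α y : ℝ) : ℝ :=
  (1 - max 0 (min 1 ((y - Real.exp (-1)) / (Real.exp (-α) - Real.exp (-1))))) *
      (-(1 - min y (Real.exp (-1)))⁻¹) +
    max 0 (min 1 ((y - Real.exp (-1)) / (Real.exp (-α) - Real.exp (-1)))) *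
      (max y (Real.exp (-1)))⁻¹

/-- The function `1[y > 1/e] - y`. -/
noncomputable def CV1_k (y : ℝ) : ℝ := (if Real.exp (-1) < y then 1 else 0) - y

theorem CV1_c_lt : Real.exp (-1) < 1 := by
  rw [Real.exp_lt_one_iff]
  norm_num

theorem CV1_phi_cont (α : ℝ) : Continuous (CV1_phi α) := by
  unfold CV1_phi
  have h1 : Continuous fun y : ℝ => max (0 : ℝ) (min 1 ((y - Real.exp (-1)) /
      (Real.exp (-α) - Real.exp (-1)))) := by fun_prop
  apply Continuous.add
  · apply Continuous.mul (continuous_const.sub h1)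
    apply Continuous.neg
    apply Continuous.inv₀ (by fun_prop)
    intro y
    have := min_le_right y (Real.exp (-1))
    have := CV1_c_lt
    linarith
  · apply Continuous.mul h1
    apply Continuous.inv₀ (by fun_prop)
    intro y
    have := le_max_right y (Real.exp (-1))
    have := Real.exp_pos (-1)
    linarith

theorem CV1_phi_k {α : ℝ} (hα1 : α < 1) {y : ℝ} (hy0 : 0 < y) (hy1 : y < 1) :
    |CV1_k y - y * (1 - y) * CV1_phi α y| ≤
      if Real.exp (-1) < y ∧ y < Real.exp (-α) then 2 else 0 := by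
  have hc0 := Real.exp_pos (-1)
  have hc1 := CV1_c_lt
  have hcc : Real.exp (-1) < Real.exp (-α) := Real.exp_lt_exp.2 (by linarith)
  have hd : 0 < Real.exp (-α) - Real.exp (-1) := by linarith
  unfold CV1_k CV1_phi
  set c := Real.exp (-1) with hc
  set c' := Real.exp (-α) with hc'
  rcases le_or_gt y c with h | h
  · have e1 : max (0 : ℝ) (min 1 ((y - c) / (c' - c))) = 0 := by
      apply max_eq_left
      refine (min_le_right _ _).trans ?_
      exact div_nonpos_of_nonpos_of_nonneg (by linarith) hd.le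
    rw [if_neg (by linarith), if_neg (fun h' => by linarith [h'.1]), e1, min_eq_left h]
    have : (1 - y) ≠ 0 := by linarith
    have e2 : 0 - y - y * (1 - y) * ((1 - 0) * -(1 - y)⁻¹ + 0 * (max y c)⁻¹) = 0 := by
      field_simp
      ring
    rw [e2, abs_zero]
  · rcases le_or_gt c' y with h2 | h2
    · have e1 : max (0 : ℝ) (min 1 ((y - c) / (c' - c))) = 1 := by
        have : 1 ≤ (y - c) / (c' - c) := by
          rw [le_div_iff₀ hd]
          linarith
        rw [min_eq_left this]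
        exact max_eq_right zero_le_one
      rw [if_pos h, if_neg (fun h' => by linarith [h'.2]), e1, max_eq_left h.le]
      have e2 : 1 - y - y * (1 - y) * ((1 - 1) * -(1 - min y c)⁻¹ + 1 * y⁻¹) = 0 := by
        field_simp
        ring
      rw [e2, abs_zero]
    · rw [if_pos h, if_pos ⟨h, h2⟩, min_eq_right h.le, max_eq_left h.le]
      set l : ℝ := max 0 (min 1 ((y - c) / (c' - c))) with hl
      have hl0 : 0 ≤ l := le_max_left _ _
      have hl1 : l ≤ 1 := max_le zero_le_one (min_le_left _ _)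
      have e1 : y * (1 - y) * ((1 - l) * -(1 - c)⁻¹ + l * y⁻¹) =
          -((1 - l) * (y * ((1 - y) * (1 - c)⁻¹))) + l * (1 - y) := by
        field_simp
      rw [e1]
      have h3 : (1 - y) * (1 - c)⁻¹ ≤ 1 := by
        rw [← div_eq_mul_inv, div_le_one (by linarith)]
        linarith
      have h4 : 0 ≤ (1 - y) * (1 - c)⁻¹ := by
        apply mul_nonneg (by linarith)
        exact inv_nonneg.2 (by linarith)
      have h5 : 0 ≤ y * ((1 - y) * (1 - c)⁻¹) := mul_nonneg hy0.le h4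
      have h6 : y * ((1 - y) * (1 - c)⁻¹) ≤ 1 := by nlinarith
      set q := y * ((1 - y) * (1 - c)⁻¹) with hq
      rw [abs_le]
      constructor
      · nlinarith
      · nlinarith

theorem CV1_fin (F : Finset ℕ) (hF : ∀ p ∈ F, p.Prime) (g : ℕ → ℝ) :
    HasSum (fun p : Nat.Primes => if (p : ℕ) ∈ F then g p else 0) (∑ p ∈ F, g p) := by
  have h2 : ∑ p ∈ F.subtype Nat.Prime, (if (p : ℕ) ∈ F then g p else 0) = ∑ p ∈ F, g p := by
    rw [Finset.sum_subtype_eq_sum_filter (fun p : ℕ => if p ∈ F then g p else 0),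
      Finset.filter_true_of_mem hF]
    exact Finset.sum_congr rfl fun p hp => if_pos hp
  rw [← h2]
  have h1 : HasSum (fun p : Nat.Primes => if (p : ℕ) ∈ F then g p else 0)
      (∑ p ∈ (F.subtype Nat.Prime : Finset Nat.Primes), (if (p : ℕ) ∈ F then g p else 0)) := by
    apply hasSum_sum_of_ne_finset_zero
    intro p hp
    apply if_neg
    intro h
    exact hp ((Finset.mem_subtype (p := Nat.Prime)).2 h)
  exact h1

theorem CV1_diff (a : ℕ → ℝ) (K : ℝ) (ha : ∀ p : ℕ, p.Prime → |a p| ≤ K / p) (hK : 0 ≤ K)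
    {C1 C2 : ℝ} (hE1 : ∀ s : ℝ, 0 < s → s ≤ 1 →
      ∑' p : Nat.Primes, 1 / ((p : ℕ) : ℝ) * (CV1_Y s p * (1 - CV1_Y s p)) ≤ C1)
    (hE2 : ∀ α s : ℝ, 1 / 2 ≤ α → α < 1 → 0 < s → s ≤ 1 / 2 →
      ∑ p ∈ PR (Real.exp (α / s)) (Real.exp (1 / s)), 1 / (p : ℝ) ≤ -Real.log α + C2 * s)
    {α ε : ℝ} (hα : 1 / 2 ≤ α) (hα1 : α < 1) (hε : 0 ≤ ε) (r : Polynomial ℝ)
    (hr : ∀ y ∈ Set.Icc (0 : ℝ) 1, |r.eval y - CV1_phi α y| < ε) {s : ℝ} (hs : 0 < s)
    (hs1 : s ≤ 1 / 2) :
    |∑' p : Nat.Primes, (a p * CV1_k (CV1_Y s p) -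
      a p * (CV1_Y s p * (1 - CV1_Y s p) * r.eval (CV1_Y s p)))| ≤
      K * ε * C1 + 2 * K * (-Real.log α + C2 * s) := by
  classical
  have hY1 : ∀ p : Nat.Primes, 0 < CV1_Y s p := fun p => CV1_Y_pos s p.2
  have hY2 : ∀ p : Nat.Primes, CV1_Y s p < 1 := fun p => CV1_Y_lt hs p.2
  have hsum : Summable fun p : Nat.Primes =>
      1 / ((p : ℕ) : ℝ) * (CV1_Y s p * (1 - CV1_Y s p)) := by
    refine (CV1_sum hs).of_nonneg_of_le (fun p => ?_) fun p => ?_
    · have := hY1 p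
      have := hY2 p
      apply mul_nonneg (by positivity)
      exact mul_nonneg (hY1 p).le (by linarith)
    · apply mul_le_mul_of_nonneg_left _ (by positivity)
      have := hY1 p
      nlinarith
  have h1 := CV1_fin (PR (Real.exp (α / s)) (Real.exp (1 / s)))
    (fun p hp => (mem_PR.1 hp).1) (fun p => 1 / (p : ℝ))
  have h2 := (hsum.hasSum.mul_left (K * ε)).add (h1.mul_left (2 * K))
  rw [← Real.norm_eq_abs]
  refine (tsum_of_norm_bounded h2 fun p => ?_).trans ?_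
  · have hp0 : (0 : ℝ) < ((p : ℕ) : ℝ) := by exact_mod_cast p.2.pos
    have h3 := CV1_phi_k hα1 (hY1 p) (hY2 p)
    have h4 := hr (CV1_Y s p) ⟨(hY1 p).le, (hY2 p).le⟩
    have h5 : |CV1_k (CV1_Y s p) - CV1_Y s p * (1 - CV1_Y s p) * r.eval (CV1_Y s p)| ≤
        ε * (CV1_Y s p * (1 - CV1_Y s p)) +
          2 * (if (p : ℕ) ∈ PR (Real.exp (α / s)) (Real.exp (1 / s)) then 1 else 0) := by
      have e1 : CV1_k (CV1_Y s p) - CV1_Y s p * (1 - CV1_Y s p) * r.eval (CV1_Y s p) =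
          (CV1_k (CV1_Y s p) - CV1_Y s p * (1 - CV1_Y s p) * CV1_phi α (CV1_Y s p)) -
          (CV1_Y s p * (1 - CV1_Y s p)) * (r.eval (CV1_Y s p) - CV1_phi α (CV1_Y s p)) := by
        ring
      rw [e1]
      refine (abs_sub _ _).trans ?_
      have h6 : 0 ≤ CV1_Y s p * (1 - CV1_Y s p) :=
        mul_nonneg (hY1 p).le (by linarith [hY2 p])
      rw [abs_mul, abs_of_nonneg h6, add_comm]
      apply add_le_add
      · rw [mul_comm]
        exact mul_le_mul_of_nonneg_right h4.le h6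
      · refine h3.trans ?_
        split_ifs with h7 h8 h8
        · norm_num
        · exfalso
          apply h8
          rw [CV1_Y_exp s p.2, Real.exp_lt_exp, Real.exp_lt_exp] at h7
          rw [mem_PR]
          refine ⟨p.2, ?_, ?_⟩
          · rw [← Real.le_log_iff_exp_le hp0, div_le_iff₀ hs]
            linarith [h7.2]
          · rw [← Real.log_lt_iff_lt_exp hp0, lt_div_iff₀ hs]
            linarith [h7.1]
        · norm_num
        · norm_num
    rw [Real.norm_eq_abs, ← mul_sub, abs_mul]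
    refine (mul_le_mul (ha p p.2) h5 (abs_nonneg _) (by positivity)).trans ?_
    apply le_of_eq
    split_ifs
    · field_simp
    · field_simp
      ring
  · apply add_le_add
    · exact mul_le_mul_of_nonneg_left (hE1 s hs (by linarith)) (by positivity)
    · exact mul_le_mul_of_nonneg_left (hE2 α s hα hα1 hs hs1) (by positivity)

theorem CV1_poly (a : ℕ → ℝ) (K : ℝ) (ha : ∀ p : ℕ, p.Prime → |a p| ≤ K / p) (ℓ : ℝ)
    (h : Tendsto (fun s : ℝ => ∑' p : Nat.Primes, a p * CV1_Y s p) (𝓝[>] 0) (𝓝 ℓ))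
    (r : Polynomial ℝ) :
    Tendsto (fun s : ℝ => ∑' p : Nat.Primes,
      a p * (CV1_Y s p * (1 - CV1_Y s p) * r.eval (CV1_Y s p))) (𝓝[>] 0) (𝓝 0) := by
  have hT : ∀ j : ℕ, 0 < j → Tendsto (fun s : ℝ => ∑' p : Nat.Primes, a p * CV1_Y (j * s) p)
      (𝓝[>] 0) (𝓝 ℓ) := by
    intro j hj
    have hj' : (0 : ℝ) < j := by exact_mod_cast hj
    have h1 : Tendsto (fun s : ℝ => (j : ℝ) * s) (𝓝[>] 0) (𝓝[>] 0) := by
      apply tendsto_nhdsWithin_of_tendsto_nhds_of_eventually_within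
      · have : Tendsto (fun s : ℝ => (j : ℝ) * s) (𝓝 0) (𝓝 ((j : ℝ) * 0)) :=
          (continuous_const.mul continuous_id).tendsto 0
        rw [mul_zero] at this
        exact this.mono_left nhdsWithin_le_nhds
      · filter_upwards [self_mem_nhdsWithin] with s hs
        exact mul_pos hj' hs
    exact h.comp h1
  have hsum : ∀ j : ℕ, 0 < j → ∀ s : ℝ, 0 < s →
      Summable fun p : Nat.Primes => a p * CV1_Y (j * s) p := by
    intro j hj s hs
    have hj' : (0 : ℝ) < j := by exact_mod_cast hj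
    refine CV1_sum' (mul_pos hj' hs) _ K fun p => ?_
    rw [abs_mul, abs_of_pos (CV1_Y_pos _ p.2)]
    calc |a p| * CV1_Y (j * s) p ≤ K / ((p : ℕ) : ℝ) * CV1_Y (j * s) p :=
          mul_le_mul_of_nonneg_right (ha p p.2) (CV1_Y_pos _ p.2).le
      _ = K * (1 / ((p : ℕ) : ℝ) * CV1_Y (j * s) p) := by ring
  have h1 : Tendsto (fun s : ℝ => ∑ i ∈ Finset.range (r.natDegree + 1), r.coeff i *
      (∑' p : Nat.Primes, a p * CV1_Y ((i + 1 : ℕ) * s) p -
        ∑' p : Nat.Primes, a p * CV1_Y ((i + 2 : ℕ) * s) p)) (𝓝[>] 0)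
      (𝓝 (∑ i ∈ Finset.range (r.natDegree + 1), r.coeff i * (ℓ - ℓ))) :=
    tendsto_finsetSum _ fun i _ => ((hT (i + 1) (by omega)).sub (hT (i + 2) (by omega))).const_mul _
  have h2 : ∑ i ∈ Finset.range (r.natDegree + 1), r.coeff i * (ℓ - ℓ) = 0 := by simp
  rw [h2] at h1
  refine h1.congr' ?_
  filter_upwards [self_mem_nhdsWithin] with s hs
  have hs' : 0 < s := hs
  have h3 : ∀ p : Nat.Primes, a p * (CV1_Y s p * (1 - CV1_Y s p) * r.eval (CV1_Y s p)) =
      ∑ i ∈ Finset.range (r.natDegree + 1), r.coeff i *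
        (a p * CV1_Y ((i + 1 : ℕ) * s) p - a p * CV1_Y ((i + 2 : ℕ) * s) p) := by
    intro p
    rw [Polynomial.eval_eq_sum_range, Finset.mul_sum, Finset.mul_sum]
    refine Finset.sum_congr rfl fun i _ => ?_
    rw [← CV1_Y_pow, ← CV1_Y_pow]
    ring
  rw [tsum_congr h3, Summable.tsum_finsetSum]
  · refine Finset.sum_congr rfl fun i _ => ?_
    rw [tsum_mul_left, (hsum (i + 1) (by omega) s hs').tsum_sub (hsum (i + 2) (by omega) s hs')]
  · intro i _
    exact ((hsum (i + 1) (by omega) s hs').sub (hsum (i + 2) (by omega) s hs')).mul_left _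

theorem CV1_small (a : ℕ → ℝ) (K : ℝ) (ha : ∀ p : ℕ, p.Prime → |a p| ≤ K / p) (ℓ : ℝ)
    (h : Tendsto (fun s : ℝ => ∑' p : Nat.Primes, a p * CV1_Y s p) (𝓝[>] 0) (𝓝 ℓ)) :
    Tendsto (fun s : ℝ => ∑' p : Nat.Primes, a p * CV1_k (CV1_Y s p)) (𝓝[>] 0) (𝓝 0) := by
  obtain ⟨C1, hC1, hE1⟩ := CV1_E1
  obtain ⟨C2, hC2, hE2⟩ := CV1_E2
  have hK : 0 ≤ K := by
    have h1 := ha 2 Nat.prime_two
    have h2 := (abs_nonneg _).trans h1
    have h3 : K / ((2 : ℕ) : ℝ) * 2 = K := by push_cast; ring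
    rw [← h3]
    positivity
  rw [Metric.tendsto_nhds]
  intro ε hε
  -- choice of alpha
  set δ : ℝ := ε / (4 * (2 * K + 1)) with hδ
  have hδ0 : 0 < δ := by positivity
  set α : ℝ := max (1 / 2) (Real.exp (-δ)) with hα
  have hα1 : α < 1 := max_lt (by norm_num) (by rw [Real.exp_lt_one_iff]; linarith)
  have hα2 : 1 / 2 ≤ α := le_max_left _ _
  have hαlog : -Real.log α ≤ δ := by
    have h1 : -δ ≤ Real.log α := by
      rw [Real.le_log_iff_exp_le (by linarith)]
      exact le_max_right _ _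
    linarith
  set ε' : ℝ := ε / (4 * (K * C1 + 1)) with hε'
  have hε'0 : 0 < ε' := by positivity
  obtain ⟨r, hr⟩ := exists_polynomial_near_of_continuousOn 0 1 (CV1_phi α)
    (CV1_phi_cont α).continuousOn ε' hε'0
  have h1 := (Metric.tendsto_nhds.1 (CV1_poly a K ha ℓ h r)) (ε / 4) (by positivity)
  have h2 : ∀ᶠ s : ℝ in 𝓝[>] 0, s < min (1 / 2) (ε / (4 * (2 * K * C2 + 1))) := by
    apply eventually_nhdsWithin_of_eventually_nhds
    exact gt_mem_nhds (lt_min (by norm_num) (by positivity))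
  filter_upwards [h1, h2, self_mem_nhdsWithin] with s hs1 hs2 hs3
  have hs0 : 0 < s := hs3
  have hs4 : s ≤ 1 / 2 := (hs2.trans_le (min_le_left _ _)).le
  have hs5 : s < ε / (4 * (2 * K * C2 + 1)) := hs2.trans_le (min_le_right _ _)
  have h3 := CV1_diff a K ha hK hE1 hE2 hα2 hα1 hε'0.le r hr hs0 hs4
  rw [Real.dist_eq, sub_zero] at hs1 ⊢
  have hY1 : ∀ p : Nat.Primes, 0 < CV1_Y s p := fun p => CV1_Y_pos s p.2
  have hY2 : ∀ p : Nat.Primes, CV1_Y s p < 1 := fun p => CV1_Y_lt hs0 p.2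
  -- summability
  have hS2 : Summable fun p : Nat.Primes =>
      a p * (CV1_Y s p * (1 - CV1_Y s p) * r.eval (CV1_Y s p)) := by
    obtain ⟨B, hB⟩ := isCompact_Icc.exists_bound_of_continuousOn
      (s := Set.Icc (0 : ℝ) 1) r.continuous.continuousOn
    refine CV1_sum' hs0 _ (K * |B|) fun p => ?_
    have h4 := hB (CV1_Y s p) ⟨(hY1 p).le, (hY2 p).le⟩
    rw [Real.norm_eq_abs] at h4
    have h4' : |r.eval (CV1_Y s p)| ≤ |B| := h4.trans (le_abs_self B)
    rw [abs_mul, abs_mul, abs_of_nonneg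
      (mul_nonneg (hY1 p).le (by linarith [hY2 p]) : 0 ≤ CV1_Y s p * (1 - CV1_Y s p))]
    have h5 : CV1_Y s p * (1 - CV1_Y s p) ≤ CV1_Y s p := by nlinarith [hY1 p]
    calc |a p| * (CV1_Y s p * (1 - CV1_Y s p) * |r.eval (CV1_Y s p)|) ≤
        (K / ((p : ℕ) : ℝ)) * (CV1_Y s p * |B|) := by
          apply mul_le_mul (ha p p.2) _ _ (by positivity)
          · exact mul_le_mul h5 h4' (abs_nonneg _) (hY1 p).le
          · apply mul_nonneg _ (abs_nonneg _)
            exact mul_nonneg (hY1 p).le (by linarith [hY2 p])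
      _ = K * |B| * (1 / ((p : ℕ) : ℝ) * CV1_Y s p) := by ring
  have hS1 : Summable fun p : Nat.Primes => a p * CV1_k (CV1_Y s p) := by
    refine CV1_sum' hs0 _ (K * Real.exp 1) fun p => ?_
    have h5 : |CV1_k (CV1_Y s p)| ≤ Real.exp 1 * CV1_Y s p := by
      have he : 1 ≤ Real.exp 1 := Real.one_le_exp zero_le_one
      unfold CV1_k
      split_ifs with h6
      · rw [abs_of_pos (by linarith [hY2 p])]
        have h7 : 1 ≤ Real.exp 1 * CV1_Y s p := by
          rw [Real.exp_neg] at h6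
          rw [← inv_le_iff_one_le_mul₀' (Real.exp_pos 1)]
          exact h6.le
        linarith [hY1 p]
      · rw [zero_sub, abs_neg, abs_of_pos (hY1 p)]
        nlinarith [hY1 p]
    rw [abs_mul]
    calc |a p| * |CV1_k (CV1_Y s p)| ≤ (K / ((p : ℕ) : ℝ)) * (Real.exp 1 * CV1_Y s p) :=
          mul_le_mul (ha p p.2) h5 (abs_nonneg _) (by positivity)
      _ = K * Real.exp 1 * (1 / ((p : ℕ) : ℝ) * CV1_Y s p) := by ring
  rw [hS1.tsum_sub hS2] at h3
  have h6 : |∑' p : Nat.Primes, a p * CV1_k (CV1_Y s p)| ≤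
      |∑' p : Nat.Primes, a p * CV1_k (CV1_Y s p) - ∑' p : Nat.Primes,
        a p * (CV1_Y s p * (1 - CV1_Y s p) * r.eval (CV1_Y s p))| +
      |∑' p : Nat.Primes, a p * (CV1_Y s p * (1 - CV1_Y s p) * r.eval (CV1_Y s p))| := by
    have := abs_add_le (∑' p : Nat.Primes, a p * CV1_k (CV1_Y s p) - ∑' p : Nat.Primes,
        a p * (CV1_Y s p * (1 - CV1_Y s p) * r.eval (CV1_Y s p)))
      (∑' p : Nat.Primes, a p * (CV1_Y s p * (1 - CV1_Y s p) * r.eval (CV1_Y s p)))
    rwa [sub_add_cancel] at this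
  have h7 : K * ε' * C1 ≤ ε / 4 := by
    have h8 : K * ε' * C1 = (K * C1) * ε / (4 * (K * C1 + 1)) := by rw [hε']; ring
    rw [h8, div_le_iff₀ (by positivity)]
    have : 0 ≤ K * C1 := by positivity
    nlinarith
  have h8 : 2 * K * δ ≤ ε / 4 := by
    have h9 : 2 * K * δ = (2 * K) * ε / (4 * (2 * K + 1)) := by rw [hδ]; ring
    rw [h9, div_le_iff₀ (by positivity)]
    nlinarith
  have h9 : 2 * K * (C2 * s) ≤ ε / 4 := by
    have h10 : s * (4 * (2 * K * C2 + 1)) < ε := by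
      rwa [lt_div_iff₀ (by positivity)] at hs5
    nlinarith
  have h10 : 2 * K * (-Real.log α + C2 * s) ≤ 2 * K * δ + 2 * K * (C2 * s) := by
    have := mul_le_mul_of_nonneg_left hαlog (by positivity : 0 ≤ 2 * K)
    linarith
  linarith

/-- **Tauberian theorem** (Karamata's method). If `|a(p)| ≤ K/p` and
`∑_p a(p) p^(-s) → ℓ` as `s → 0+`, then `∑_{p < z} a(p) → ℓ`.

Proof. For `h : [0,1] → ℝ` put `S_s(h) = ∑_p a(p) h(p^(-s))`. By hypothesis (with `j s` in place of `s`)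
`S_s(y^j) → ℓ` for all `j ≥ 1`, so `S_s(y (1-y) r(y)) → 0` for every polynomial `r`. Let
`k(y) = 1[y ≥ 1/e] - y`; `∑_{p ≤ e^(1/s)} a(p) = S_s(y) + S_s(k)`. Let `η > 0`. The function
`k(y)/(y(1-y))` is `-1/(1-y)` for `y < 1/e` and `1/y` for `y ≥ 1/e`: bounded, continuous except at `1/e`.
Change it to be linear in `(1/e - η, 1/e + η)` and take by Weierstrass a polynomial `r` within `η` of the
result on `[0,1]`. Then `|S_s(k) - S_s(y(1-y)r)| ≤ η K ∑_p (1/p) p^(-s) (1 - p^(-s)) +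
10 K ∑_{p : |p^(-s) - 1/e| ≤ η} 1/p`. The first sum is bounded uniformly in `0 < s ≤ 1`:
`∑_{p ≤ e^(1/s)} (1/p) s log p ≤ C` and `∑_{p > e^(1/s)} p^(-1-s) ≤ C`; the second is
`≤ C η + o(1)`: `∑_{x < p ≤ x^λ} 1/p ≤ C log λ + C/log x`. All these follow from Chebyshev's bound
(`θ(x) ≤ log 4 · x` in Mathlib) by partial summation. Finally every `z` is `e^(1/s)` up to one
prime. -/
theorem tauber (a : ℕ → ℝ) (K : ℝ) (ha : ∀ p : ℕ, p.Prime → |a p| ≤ K / p) (ℓ : ℝ)
    (h : Tendsto (fun s : ℝ => ∑' p : Nat.Primes, a p * ((p : ℕ) : ℝ) ^ (-s)) (𝓝[>] 0) (𝓝 ℓ)) :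
    Tendsto (fun z : ℕ => ∑ p ∈ Nat.primesBelow z, a p) atTop (𝓝 ℓ) := by
  have h' : Tendsto (fun s : ℝ => ∑' p : Nat.Primes, a p * CV1_Y s p) (𝓝[>] 0) (𝓝 ℓ) := h
  have h1 := h'.add (CV1_small a K ha ℓ h')
  rw [add_zero] at h1
  have h2 : Tendsto (fun z : ℕ => (Real.log z)⁻¹) atTop (𝓝[>] 0) :=
    tendsto_inv_atTop_nhdsGT_zero.comp (Real.tendsto_log_atTop.comp tendsto_natCast_atTop_atTop)
  refine (h1.comp h2).congr' ?_
  filter_upwards [eventually_ge_atTop 2] with z hz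
  classical
  have hz1 : (1 : ℝ) < z := by exact_mod_cast hz
  have hlz : 0 < Real.log z := Real.log_pos hz1
  set s : ℝ := (Real.log z)⁻¹ with hs
  have hs0 : 0 < s := inv_pos.2 hlz
  have hY1 : ∀ p : Nat.Primes, 0 < CV1_Y s p := fun p => CV1_Y_pos s p.2
  have hfin := CV1_fin (Nat.primesBelow z) (fun p hp => (Nat.mem_primesBelow.1 hp).2) a
  have hS1 : Summable fun p : Nat.Primes => a p * CV1_Y s p := by
    refine CV1_sum' hs0 _ K fun p => ?_
    rw [abs_mul, abs_of_pos (hY1 p)]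
    calc |a p| * CV1_Y s p ≤ K / ((p : ℕ) : ℝ) * CV1_Y s p :=
          mul_le_mul_of_nonneg_right (ha p p.2) (hY1 p).le
      _ = K * (1 / ((p : ℕ) : ℝ) * CV1_Y s p) := by ring
  have hk : ∀ p : Nat.Primes, (if (p : ℕ) ∈ Nat.primesBelow z then a p else 0) =
      a p * CV1_Y s p + a p * CV1_k (CV1_Y s p) := by
    intro p
    have hp0 : (0 : ℝ) < ((p : ℕ) : ℝ) := by exact_mod_cast p.2.pos
    have hiff : (p : ℕ) ∈ Nat.primesBelow z ↔ Real.exp (-1) < CV1_Y s p := by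
      rw [Nat.mem_primesBelow, CV1_Y_exp s p.2, Real.exp_lt_exp, neg_lt_neg_iff]
      have e1 : s * Real.log ((p : ℕ) : ℝ) < 1 ↔ Real.log ((p : ℕ) : ℝ) < Real.log z := by
        rw [hs, inv_mul_lt_iff₀ hlz, mul_one]
      rw [e1, Real.log_lt_log_iff hp0 (by linarith)]
      constructor
      · intro h
        exact_mod_cast h.1
      · intro h
        exact ⟨by exact_mod_cast h, p.2⟩
    unfold CV1_k
    by_cases hp : (p : ℕ) ∈ Nat.primesBelow z
    · rw [if_pos hp, if_pos (hiff.1 hp)]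
      ring
    · rw [if_neg hp, if_neg (fun h => hp (hiff.2 h))]
      ring
  have hS2 : Summable fun p : Nat.Primes => a p * CV1_k (CV1_Y s p) := by
    have := hfin.summable.sub hS1
    refine this.congr fun p => ?_
    rw [hk p]
    ring
  show ∑' p : Nat.Primes, a p * CV1_Y s p + ∑' p : Nat.Primes, a p * CV1_k (CV1_Y s p) = _
  rw [← hS1.tsum_add hS2, ← hfin.tsum_eq]
  exact (tsum_congr hk).symm

end Pool.Agent.Lib.H33B
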