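import Pool.Agent.Lib.H59.PolyKey

/-!
# Chunk CV2: roots modulo `p` and prime ideals of degree one
-/

open Polynomial NumberField Module

namespace Pool.Agent.Lib.H33B

open Pool.Agent.Lib.H59 (rootCount degOne degOneSet mem_degOneSet card_degOneSet
  below_eq_of_absNorm_eq exists_poly_eq exists_int_discr exists_powerBasis rootCount_le_degOne)

open IsDedekindDomain

open Ideal (absNorm)

theorem CV2_mem {K : Type*} [Field K] [NumberField K] {p : ℕ} (hp : p.Prime)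
    {P : HeightOneSpectrum (𝓞 K)} (hP : absNorm P.asIdeal = p) (m : ℤ) :
    (m : 𝓞 K) ∈ P.asIdeal ↔ (p : ℤ) ∣ m := by
  have h5 := Int.cast_mem_ideal_iff (I := P.asIdeal) (d := m)
  have h6 : absNorm (Ideal.under ℤ P.asIdeal) = p := below_eq_of_absNorm_eq hp hP
  rw [h5, h6]

theorem CV2_res {K : Type*} [Field K] [NumberField K] {p : ℕ} (hp : p.Prime)
    {P : HeightOneSpectrum (𝓞 K)} (hP : absNorm P.asIdeal = p) (x : 𝓞 K) :
    ∃ t : ℤ, x - (t : 𝓞 K) ∈ P.asIdeal := by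
  have hfact : Fact p.Prime := ⟨hp⟩
  have hM : P.asIdeal.IsMaximal := P.isMaximal
  have hchar : CharP (𝓞 K ⧸ P.asIdeal) p := by
    have hfield : Field (𝓞 K ⧸ P.asIdeal) := Ideal.Quotient.field P.asIdeal
    have h0 : ((p : ℕ) : 𝓞 K ⧸ P.asIdeal) = 0 := by
      have h1 : ((p : ℤ) : 𝓞 K) ∈ P.asIdeal := (CV2_mem hp hP p).2 (dvd_refl _)
      have h2 := Ideal.Quotient.eq_zero_iff_mem.mpr h1
      simpa using h2
    exact (CharP.charP_iff_prime_eq_zero hp).mpr h0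
  let ψ : ZMod p →+* 𝓞 K ⧸ P.asIdeal := ZMod.castHom (dvd_refl p) (𝓞 K ⧸ P.asIdeal)
  have hnt : Nontrivial (𝓞 K ⧸ P.asIdeal) := Ideal.Quotient.nontrivial_iff.mpr hM.ne_top
  have hψinj : Function.Injective ψ := ψ.injective
  have hcard : Nat.card (𝓞 K ⧸ P.asIdeal) = p := by
    rw [Ideal.absNorm_apply, Submodule.cardQuot_apply] at hP
    exact hP
  have hfin : Finite (𝓞 K ⧸ P.asIdeal) := Nat.finite_of_card_ne_zero (by rw [hcard]; exact hp.ne_zero)
  have hbij : Function.Bijective ψ := by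
    rw [Nat.bijective_iff_injective_and_card]
    refine ⟨hψinj, ?_⟩
    rw [hcard]
    simp
  obtain ⟨y, hy⟩ := hbij.2 (Ideal.Quotient.mk P.asIdeal x)
  refine ⟨(y.val : ℤ), ?_⟩
  rw [← Ideal.Quotient.eq, ← hy]
  have h3 : ((y.val : ℕ) : ZMod p) = y := ZMod.natCast_zmod_val y
  have h4 : ψ y = ((y.val : ℕ) : 𝓞 K ⧸ P.asIdeal) := by
    rw [← map_natCast ψ, h3]
  rw [h4, Int.cast_natCast, map_natCast]

theorem CV2_aeval {K : Type*} [Field K] [NumberField K] {P : HeightOneSpectrum (𝓞 K)}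
    {η : 𝓞 K} {m : ℤ} (h : η - (m : 𝓞 K) ∈ P.asIdeal) (A : ℤ[X]) :
    aeval η A - ((A.eval m : ℤ) : 𝓞 K) ∈ P.asIdeal := by
  rw [← Ideal.Quotient.eq] at h ⊢
  have h8 : Ideal.Quotient.mk P.asIdeal (aeval η A) =
      eval₂ (Int.castRingHom (𝓞 K ⧸ P.asIdeal)) (Ideal.Quotient.mk P.asIdeal η) A := by
    rw [aeval_def, hom_eval₂]
    congr 1
  rw [h8, h]
  have h9 : ((eval m A : ℤ) : 𝓞 K) = eval₂ (Int.castRingHom (𝓞 K)) (m : 𝓞 K) A := by
    rw [eval₂_at_intCast]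
    simp
  rw [h9, hom_eval₂]
  congr 1

theorem CV2_le {K : Type*} [Field K] [NumberField K] {f : ℤ[X]}
    (hn : 1 ≤ f.natDegree) {B : PowerBasis ℚ K} {η : 𝓞 K}
    (hη : B.gen = (η : K)) (hmin : minpoly ℤ η = f.integralNormalization) {Δ : ℤ}
    (hΔ : (Δ : ℚ) = Algebra.discr ℚ B.basis) {p : ℕ} (hp : p.Prime) (hpΔ : ¬ (p : ℤ) ∣ Δ)
    (hpl : ¬ (p : ℤ) ∣ f.leadingCoeff) : degOne K p ≤ rootCount f p := by
  classical
  have hpZ : Prime (p : ℤ) := Nat.prime_iff_prime_int.mp hp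
  have hcop : IsCoprime f.leadingCoeff (p : ℤ) := by
    rw [Int.isCoprime_iff_gcd_eq_one, Int.gcd_comm]
    exact (Nat.Prime.coprime_iff_not_dvd hp).mpr (fun h => hpl (Int.natCast_dvd.mpr h))
  obtain ⟨u, v, huv⟩ := hcop
  have h1 : ∀ P : HeightOneSpectrum (𝓞 K), ∃ a : ℕ, absNorm P.asIdeal = p → a < p ∧
      η - ((f.leadingCoeff * (a : ℤ) : ℤ) : 𝓞 K) ∈ P.asIdeal := by
    intro P
    by_cases hP : absNorm P.asIdeal = p
    · obtain ⟨t, ht⟩ := CV2_res hp hP η
      refine ⟨((u * t) % (p : ℤ)).toNat, fun _ => ?_⟩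
      have hp0 : (0 : ℤ) < p := by exact_mod_cast hp.pos
      have h2 : 0 ≤ (u * t) % (p : ℤ) := Int.emod_nonneg _ hp0.ne'
      have h3 : (u * t) % (p : ℤ) < p := Int.emod_lt_of_pos _ hp0
      have h4 : ((((u * t) % (p : ℤ)).toNat : ℕ) : ℤ) = (u * t) % (p : ℤ) := Int.toNat_of_nonneg h2
      refine ⟨by omega, ?_⟩
      rw [h4]
      have h5 : (p : ℤ) ∣ t - f.leadingCoeff * ((u * t) % (p : ℤ)) := by
        have h6 : (u * t) % (p : ℤ) = u * t - p * (u * t / p) := by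
          have := Int.emod_add_mul_ediv (u * t) p
          linarith
        rw [h6]
        have h7 : t - f.leadingCoeff * (u * t - p * (u * t / p)) =
            p * (v * t + f.leadingCoeff * (u * t / p)) := by
          linear_combination (-t) * huv
        rw [h7]
        exact dvd_mul_right _ _
      have h6 := (CV2_mem hp hP _).2 h5
      have h7 := P.asIdeal.add_mem ht h6
      have h8 : η - ((f.leadingCoeff * ((u * t) % (p : ℤ)) : ℤ) : 𝓞 K) =
          η - (t : 𝓞 K) + ((t - f.leadingCoeff * ((u * t) % (p : ℤ)) : ℤ) : 𝓞 K) := by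
        push_cast
        ring
      rw [h8]
      exact h7
    · exact ⟨0, fun h => absurd h hP⟩
  choose a ha using h1
  rw [← card_degOneSet, rootCount]
  refine Finset.card_le_card_of_injOn a ?_ ?_
  · intro P hP
    rw [Finset.mem_coe, mem_degOneSet] at hP
    obtain ⟨h2, h3⟩ := ha P hP
    rw [Finset.mem_coe, Finset.mem_filter, Finset.mem_range]
    refine ⟨h2, ?_⟩
    have h4 := CV2_aeval h3 (minpoly ℤ η)
    rw [minpoly.aeval, zero_sub, neg_mem_iff, CV2_mem hp hP, hmin] at h4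
    have h := integralNormalization_eval₂_leadingCoeff_mul (p := f) hn (RingHom.id ℤ) (a P : ℤ)
    simp only [eval₂_id, RingHom.id_apply] at h
    rw [h] at h4
    rcases hpZ.dvd_or_dvd h4 with h5 | h5
    · exact absurd (hpZ.dvd_of_dvd_pow h5) hpl
    · exact h5
  · intro P hP Q hQ hPQ
    rw [Finset.mem_coe, mem_degOneSet] at hP hQ
    obtain ⟨_, h3⟩ := ha P hP
    obtain ⟨_, h4⟩ := ha Q hQ
    rw [← hPQ] at h4
    have h5 : P.asIdeal ≤ Q.asIdeal := by
      intro x hx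
      obtain ⟨A, hA⟩ := exists_poly_eq hη hΔ x
      have h6 : aeval η A ∈ P.asIdeal := by
        rw [← hA]
        exact P.asIdeal.mul_mem_left _ hx
      have h7 := P.asIdeal.sub_mem h6 (CV2_aeval h3 A)
      rw [sub_sub_cancel, CV2_mem hp hP, ← CV2_mem hp hQ] at h7
      have h8 := Q.asIdeal.add_mem (CV2_aeval h4 A) h7
      rw [sub_add_cancel, ← hA] at h8
      rcases Q.isPrime.mem_or_mem h8 with h9 | h9
      · rw [CV2_mem hp hQ] at h9
        exact absurd h9 hpΔ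
      · exact h9
    have hM : P.asIdeal.IsMaximal := P.isMaximal
    exact HeightOneSpectrum.ext (hM.eq_of_le Q.isPrime.ne_top h5)

/-- For all large primes `p` the number of roots of `f` modulo `p` is the number of prime ideals of
norm `p` of the field generated by a root `θ` of `f`. `≤` is `H59.rootCount_le_degOne` (as it is used in
`H59.poly_key`, with `H59.exists_powerBasis`). `≥`: let `η = lc(f) θ ∈ 𝓞 K`, `p` not dividing `lc(f)`,
nor the index `[𝓞 K : ℤ[η]]` (or: nor the discriminant `Δ` of the basis of the powers of `η`; then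
`Δ 𝓞 K ⊆ ℤ[η]`). A prime `P` of norm `p` gives the homomorphism `𝓞 K → 𝓞 K/P = F_p`, so a root
`a_P = η mod P` of the minimal polynomial `lc(f)^(d-1) f(x/lc(f))` of `η`, that is the root
`a_P/lc(f)` of `f` modulo `p`. If `a_P = a_{P'}` the two homomorphisms agree on `ℤ[η]`, hence on `𝓞 K`
(`Δ x ∈ ℤ[η]` for `x ∈ 𝓞 K`, `Δ` invertible modulo `p`), so `P = P'`. -/
theorem degOne_eq {K : Type*} [Field K] [NumberField K] (f : ℤ[X]) (hf : Irreducible f)
    (hn : 1 ≤ f.natDegree) (θ : K) (hθ : f.eval₂ (Int.castRingHom K) θ = 0)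
    (hK : finrank ℚ K = f.natDegree) :
    ∃ B : ℕ, ∀ p : ℕ, p.Prime → B ≤ p → rootCount f p = degOne K p := by
  obtain ⟨B, η, hη, hηθ, hmin⟩ := exists_powerBasis hf hn hθ hK
  obtain ⟨Δ, hΔ⟩ := exists_int_discr hη
  have hf0 : f ≠ 0 := hf.ne_zero
  have hl0 : f.leadingCoeff ≠ 0 := leadingCoeff_ne_zero.mpr hf0
  have hΔ0 : Δ ≠ 0 := by
    intro h0
    have h1 := Algebra.discr_not_zero_of_basis ℚ B.basis
    rw [← hΔ, h0] at h1
    simp at h1
  refine ⟨Δ.natAbs + f.leadingCoeff.natAbs + 1, fun p hp hB => ?_⟩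
  have h1 : ¬ (p : ℤ) ∣ Δ := by
    intro h
    have := Nat.le_of_dvd (Int.natAbs_pos.2 hΔ0) (Int.natCast_dvd.1 h)
    omega
  have h2 : ¬ (p : ℤ) ∣ f.leadingCoeff := by
    intro h
    have := Nat.le_of_dvd (Int.natAbs_pos.2 hl0) (Int.natCast_dvd.1 h)
    omega
  exact le_antisymm (rootCount_le_degOne hn hη hmin hΔ hp h1 h2) (CV2_le hn hη hmin hΔ hp h1 h2)

end Pool.Agent.Lib.H33B
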