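import Pool.Agent.Lib.H33B.CV1
import Pool.Agent.Lib.H33B.CV2
import Pool.Agent.Lib.H59.PrimeIdealSums
import Pool.Agent.Lib.H59.ZetaResidue

/-!
# Chunk CV3: `∑_p (ρ_f(p) - 1)/p` converges
-/

open Finset Polynomial Filter Topology NumberField Module

namespace Pool.Agent.Lib.H33B

open Pool.Agent.Lib.H59 (rootCount degOne below below_prime absNorm_eq_below_pow
  card_filter_below_le below_eq_of_absNorm_eq degOne_le sum_inv_sq_le_two zetaE normPow
  prod_le_zetaE zetaE_le_of_prod_le zetaE_eq_of_ne_zero exists_field rootCount_le_natDegree)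

open Ideal (absNorm)
open IsDedekindDomain (HeightOneSpectrum)

section
variable {K : Type*} [Field K] [NumberField K]

/-- `N P^(-s)` -/
noncomputable def CV3_x (s : ℝ) (P : HeightOneSpectrum (𝓞 K)) : ℝ :=
  (absNorm P.asIdeal : ℝ) ^ (-s)

/-- `-log (1 - N P^(-s))` -/
noncomputable def CV3_y (s : ℝ) (P : HeightOneSpectrum (𝓞 K)) : ℝ := -Real.log (1 - CV3_x s P)

/-- The part of the prime ideals of prime norm. -/
noncomputable def CV3_z (s : ℝ) (P : HeightOneSpectrum (𝓞 K)) : ℝ :=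
  if (absNorm P.asIdeal).Prime then CV3_x s P else 0

theorem CV3_x0 (s : ℝ) (P : HeightOneSpectrum (𝓞 K)) : 0 ≤ CV3_x s P := by
  unfold CV3_x
  positivity

theorem CV3_b2 (P : HeightOneSpectrum (𝓞 K)) : (2 : ℝ) ≤ below P := by
  exact_mod_cast (below_prime P).two_le

theorem CV3_xle (s : ℝ) (hs : 1 ≤ s) (P : HeightOneSpectrum (𝓞 K)) (f : ℕ)
    (hf : f ≤ 2) (h : ∃ f', f ≤ f' ∧ absNorm P.asIdeal = below P ^ f') :
    CV3_x s P ≤ ((below P : ℝ) ^ f)⁻¹ := by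
  obtain ⟨f', hf', h⟩ := h
  have hb := CV3_b2 P
  unfold CV3_x
  rw [h, Nat.cast_pow, ← Real.rpow_natCast, ← Real.rpow_mul (by positivity), ← Real.rpow_natCast,
    ← Real.rpow_neg (by positivity)]
  refine Real.rpow_le_rpow_of_exponent_le (by linarith) ?_
  have h1 : (f : ℝ) ≤ f' := by exact_mod_cast hf'
  have h2 : (0 : ℝ) ≤ f' := Nat.cast_nonneg _
  nlinarith

theorem CV3_x1 (s : ℝ) (hs : 1 ≤ s) (P : HeightOneSpectrum (𝓞 K)) :
    CV3_x s P ≤ (below P : ℝ)⁻¹ := by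
  obtain ⟨f, hf, h⟩ := absNorm_eq_below_pow P
  have := CV3_xle s hs P 1 (by norm_num) ⟨f, hf, h⟩
  rwa [pow_one] at this

theorem CV3_xhalf (s : ℝ) (hs : 1 ≤ s) (P : HeightOneSpectrum (𝓞 K)) : CV3_x s P ≤ 1 / 2 := by
  refine (CV3_x1 s hs P).trans ?_
  rw [one_div]
  exact inv_anti₀ (by norm_num) (CV3_b2 P)

theorem CV3_x2 (s : ℝ) (hs : 1 ≤ s) (P : HeightOneSpectrum (𝓞 K))
    (hP : ¬ (absNorm P.asIdeal).Prime) : CV3_x s P ≤ ((below P : ℝ) ^ 2)⁻¹ := by
  obtain ⟨f, hf, h⟩ := absNorm_eq_below_pow P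
  refine CV3_xle s hs P 2 le_rfl ⟨f, ?_, h⟩
  by_contra hcon
  have h1 : f = 1 := by omega
  rw [h1, pow_one] at h
  rw [h] at hP
  exact hP (below_prime P)

theorem CV3_log {x : ℝ} (h0 : 0 ≤ x) (h1 : x ≤ 1 / 2) : |x + Real.log (1 - x)| ≤ 2 * x ^ 2 := by
  have h2 := Real.abs_log_sub_add_sum_range_le (x := x) (by rw [abs_of_nonneg h0]; linarith) 1
  simp only [Finset.sum_range_one, zero_add, pow_one, Nat.cast_zero, div_one] at h2
  refine h2.trans ?_
  rw [abs_of_nonneg h0, div_le_iff₀ (by linarith)]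
  have h3 : 0 ≤ x ^ 2 := sq_nonneg x
  have h4 : x ^ 2 * x ≤ x ^ 2 * (1 / 2) := mul_le_mul_of_nonneg_left h1 h3
  have h5 : x ^ (1 + 1) = x ^ 2 := rfl
  rw [h5]
  linarith

theorem CV3_d (s : ℝ) (hs : 1 ≤ s) (P : HeightOneSpectrum (𝓞 K)) :
    |CV3_y s P - CV3_z s P| ≤ 3 * ((below P : ℝ) ^ 2)⁻¹ := by
  have h0 := CV3_x0 s P
  have h1 := CV3_xhalf s hs P
  have h2 := CV3_log h0 h1
  have hb := CV3_b2 P
  have hb0 : 0 ≤ ((below P : ℝ) ^ 2)⁻¹ := by positivity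
  unfold CV3_z
  split_ifs with hP
  · have h3 : CV3_x s P ^ 2 ≤ ((below P : ℝ) ^ 2)⁻¹ := by
      rw [← inv_pow]
      exact pow_le_pow_left₀ h0 (CV3_x1 s hs P) 2
    have h4 : CV3_y s P - CV3_x s P = -(CV3_x s P + Real.log (1 - CV3_x s P)) := by
      unfold CV3_y
      ring
    rw [h4, abs_neg]
    linarith
  · have h3 := CV3_x2 s hs P hP
    rw [sub_zero]
    have h5 : CV3_x s P ^ 2 ≤ CV3_x s P * (1 / 2) := by
      rw [sq]
      exact mul_le_mul_of_nonneg_left h1 h0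
    have h6 := abs_le.1 h2
    unfold CV3_y
    rw [abs_neg, abs_le]
    constructor <;> linarith [h6.1, h6.2]

theorem CV3_y0 (s : ℝ) (hs : 1 ≤ s) (P : HeightOneSpectrum (𝓞 K)) : 0 ≤ CV3_y s P := by
  have h0 := CV3_x0 s P
  have h1 := CV3_xhalf s hs P
  unfold CV3_y
  have := Real.log_nonpos (x := 1 - CV3_x s P) (by linarith) (by linarith)
  linarith

theorem CV3_summ_b : Summable (fun P : HeightOneSpectrum (𝓞 K) => ((below P : ℝ) ^ 2)⁻¹) := by
  classical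
  refine summable_of_sum_le (c := finrank ℚ K * 2) (fun P => by positivity) fun S => ?_
  have hmaps : ∀ P ∈ S, below P ∈ S.image below := fun P hP => Finset.mem_image_of_mem _ hP
  rw [← Finset.sum_fiberwise_of_maps_to hmaps]
  calc ∑ p ∈ S.image below, ∑ P ∈ S.filter (fun P => below P = p), ((below P : ℝ) ^ 2)⁻¹ ≤
        ∑ p ∈ S.image below, (finrank ℚ K : ℝ) * ((p : ℝ) ^ 2)⁻¹ := by
        refine Finset.sum_le_sum fun p _ => ?_
        have h1 : ∀ P ∈ S.filter (fun P => below P = p), ((below P : ℝ) ^ 2)⁻¹ = ((p : ℝ) ^ 2)⁻¹ := by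
          intro P hP
          rw [(Finset.mem_filter.1 hP).2]
        rw [Finset.sum_congr rfl h1, Finset.sum_const, nsmul_eq_mul]
        refine mul_le_mul_of_nonneg_right ?_ (by positivity)
        exact_mod_cast card_filter_below_le S p
    _ = (finrank ℚ K : ℝ) * ∑ p ∈ S.image below, ((p : ℝ) ^ 2)⁻¹ := by rw [Finset.mul_sum]
    _ ≤ finrank ℚ K * 2 :=
        mul_le_mul_of_nonneg_left (sum_inv_sq_le_two _) (Nat.cast_nonneg _)

/-- The Euler product. -/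
theorem CV3_euler (s : ℝ) (hs : 1 ≤ s) (hfin : zetaE K s ≠ ⊤) :
    Summable (CV3_y (K := K) s) ∧ Real.exp (∑' P, CV3_y (K := K) s P) = (zetaE K s).toReal := by
  have hprod : ∀ S : Finset (HeightOneSpectrum (𝓞 K)),
      ∏ P ∈ S, (1 - normPow s P.asIdeal)⁻¹ = ENNReal.ofReal (Real.exp (∑ P ∈ S, CV3_y s P)) := by
    intro S
    rw [Real.exp_sum, ENNReal.ofReal_prod_of_nonneg (fun _ _ => (Real.exp_pos _).le)]
    refine Finset.prod_congr rfl fun P _ => ?_
    have h0 := CV3_x0 s P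
    have h1 := CV3_xhalf s hs P
    have h2 : normPow s P.asIdeal = ENNReal.ofReal (CV3_x s P) := rfl
    rw [h2, ← ENNReal.ofReal_one, ← ENNReal.ofReal_sub _ h0,
      ← ENNReal.ofReal_inv_of_pos (by linarith)]
    congr 1
    unfold CV3_y
    rw [Real.exp_neg, Real.exp_log (by linarith)]
  have hle : ∀ S : Finset (HeightOneSpectrum (𝓞 K)),
      Real.exp (∑ P ∈ S, CV3_y s P) ≤ (zetaE K s).toReal := by
    intro S
    have h1 := prod_le_zetaE s S
    rw [hprod] at h1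
    exact (ENNReal.ofReal_le_iff_le_toReal hfin).1 h1
  have hpos : 0 < (zetaE K s).toReal := by
    have h1 := hle ∅
    rw [Finset.sum_empty, Real.exp_zero] at h1
    linarith
  have hle' : ∀ S : Finset (HeightOneSpectrum (𝓞 K)),
      ∑ P ∈ S, CV3_y s P ≤ Real.log (zetaE K s).toReal := fun S =>
    (Real.le_log_iff_exp_le hpos).2 (hle S)
  have hsum : Summable (CV3_y (K := K) s) :=
    summable_of_sum_le (fun P => CV3_y0 s hs P) hle'
  refine ⟨hsum, le_antisymm ?_ ?_⟩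
  · rw [← Real.le_log_iff_exp_le hpos]
    exact hsum.tsum_le_of_sum_le hle'
  · have h1 : zetaE K s ≤ ENNReal.ofReal (Real.exp (∑' P, CV3_y (K := K) s P)) := by
      refine zetaE_le_of_prod_le s _ fun S => ?_
      rw [hprod]
      refine ENNReal.ofReal_le_ofReal (Real.exp_le_exp.2 ?_)
      exact hsum.sum_le_tsum S fun P _ => CV3_y0 s hs P
    exact ENNReal.toReal_le_of_le_ofReal (Real.exp_pos _).le h1

theorem CV3_tendsto_d (P : HeightOneSpectrum (𝓞 K)) :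
    Tendsto (fun s : ℝ => CV3_y (1 + s) P - CV3_z (1 + s) P) (𝓝[>] 0)
      (𝓝 (CV3_y 1 P - CV3_z 1 P)) := by
  have hN : (absNorm P.asIdeal : ℝ) ≠ 0 := by
    obtain ⟨f, _, h⟩ := absNorm_eq_below_pow P
    have hb := CV3_b2 P
    rw [h]
    push_cast
    have : (0 : ℝ) < below P := by linarith
    positivity
  have hx : Continuous (fun s : ℝ => CV3_x (1 + s) P) := by
    unfold CV3_x
    have h1 : Continuous (fun s : ℝ => -(1 + s)) := by fun_prop
    exact Continuous.rpow continuous_const h1 (fun s => Or.inl hN)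
  have hx1 : Tendsto (fun s : ℝ => CV3_x (1 + s) P) (𝓝[>] 0) (𝓝 (CV3_x 1 P)) := by
    have h2 := (hx.tendsto 0).mono_left (nhdsWithin_le_nhds (s := Set.Ioi 0))
    simpa using h2
  have h0 := CV3_x0 1 P
  have h1 := CV3_xhalf 1 le_rfl P
  have hy1 : Tendsto (fun s : ℝ => CV3_y (1 + s) P) (𝓝[>] 0) (𝓝 (CV3_y 1 P)) := by
    unfold CV3_y
    have h2 : Tendsto (fun s : ℝ => 1 - CV3_x (1 + s) P) (𝓝[>] 0) (𝓝 (1 - CV3_x 1 P)) :=
      hx1.const_sub 1
    have h3 := h2.log (by linarith : (1 : ℝ) - CV3_x 1 P ≠ 0)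
    exact h3.neg
  have hz1 : Tendsto (fun s : ℝ => CV3_z (1 + s) P) (𝓝[>] 0) (𝓝 (CV3_z 1 P)) := by
    unfold CV3_z
    split_ifs
    · exact hx1
    · exact tendsto_const_nhds
  exact hy1.sub hz1

theorem CV3_tendsto_E : Tendsto (fun s : ℝ => ∑' P : HeightOneSpectrum (𝓞 K),
    (CV3_y (1 + s) P - CV3_z (1 + s) P)) (𝓝[>] 0)
      (𝓝 (∑' P : HeightOneSpectrum (𝓞 K), (CV3_y 1 P - CV3_z 1 P))) := by
  refine tendsto_tsum_of_dominated_convergence
    (bound := fun P : HeightOneSpectrum (𝓞 K) => 3 * ((below P : ℝ) ^ 2)⁻¹)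
    (CV3_summ_b.mul_left 3) (fun P => CV3_tendsto_d P) ?_
  filter_upwards [self_mem_nhdsWithin] with s hs P
  have hs' : (0 : ℝ) < s := hs
  exact CV3_d (1 + s) (by linarith) P

variable (K) in
theorem CV3_residue : ∃ ρ : ℝ, 0 < ρ ∧
    Tendsto (fun s : ℝ => s * (zetaE K (1 + s)).toReal) (𝓝[>] 0) (𝓝 ρ) ∧
    ∀ᶠ s : ℝ in 𝓝[>] 0, zetaE K (1 + s) ≠ ⊤ := by
  have hκ := dedekindZeta_residue_pos K
  have h := tendsto_sub_one_mul_dedekindZeta_nhdsGT K
  have h1 : Tendsto (fun s : ℝ => ((s - 1) * dedekindZeta K s : ℂ).re) (𝓝[>] 1)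
      (𝓝 (dedekindZeta_residue K)) := by
    have := (Complex.continuous_re.tendsto _).comp h
    simpa only [Function.comp_def, Complex.ofReal_re] using this
  have h3 : ∀ᶠ s : ℝ in 𝓝[>] 1, 0 < ((s - 1) * dedekindZeta K s : ℂ).re :=
    h1.eventually_const_lt hκ
  have h5 : Tendsto (fun σ : ℝ => 1 + σ) (𝓝[>] 0) (𝓝[>] 1) := by
    refine tendsto_nhdsWithin_of_tendsto_nhds_of_eventually_within _ ?_ ?_
    · have : Tendsto (fun σ : ℝ => 1 + σ) (𝓝 0) (𝓝 (1 + 0)) :=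
        (continuous_const.add continuous_id).tendsto 0
      rw [add_zero] at this
      exact this.mono_left nhdsWithin_le_nhds
    · filter_upwards [self_mem_nhdsWithin] with σ hσ
      simpa using hσ
  have key : ∀ᶠ s : ℝ in 𝓝[>] 1, zetaE K s ≠ ⊤ ∧
      (s - 1) * (zetaE K s).toReal = ((s - 1) * dedekindZeta K s : ℂ).re := by
    filter_upwards [h3, self_mem_nhdsWithin] with s hs3 hs1
    have hs1' : 0 < s - 1 := sub_pos.mpr hs1
    have hre : ((s - 1) * dedekindZeta K s : ℂ).re = (s - 1) * (dedekindZeta K s).re := by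
      have : ((s : ℂ) - 1) = ((s - 1 : ℝ) : ℂ) := by push_cast; ring
      rw [this, Complex.re_ofReal_mul]
    rw [hre] at hs3
    have hpos : 0 < (dedekindZeta K (s : ℂ)).re := by
      by_contra h0
      have := mul_nonpos_of_nonneg_of_nonpos hs1'.le (not_lt.1 h0)
      linarith
    have hne : dedekindZeta K (s : ℂ) ≠ 0 := by
      intro h0
      rw [h0] at hpos
      simp at hpos
    rw [zetaE_eq_of_ne_zero K s (by have : (1 : ℝ) < s := hs1; linarith) hne, hre,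
      ENNReal.toReal_ofReal hpos.le]
    exact ⟨ENNReal.ofReal_ne_top, rfl⟩
  refine ⟨dedekindZeta_residue K, hκ, ?_, ?_⟩
  · have h6 := h1.comp h5
    refine h6.congr' ?_
    filter_upwards [h5.eventually key] with σ hσ
    simp only [Function.comp_apply]
    rw [← hσ.2]
    ring
  · filter_upwards [h5.eventually key] with σ hσ
    exact hσ.1

/-- The sum over the prime ideals of prime norm in terms of `degOne`. -/
theorem CV3_fiber (s : ℝ) (hsum : Summable (CV3_z (K := K) s)) :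
    HasSum (fun p : Nat.Primes => (degOne K p : ℝ) * ((p : ℕ) : ℝ) ^ (-s))
      (∑' P, CV3_z (K := K) s P) := by
  have h1 := hsum.hasSum.tsum_fiberwise (fun P : HeightOneSpectrum (𝓞 K) => absNorm P.asIdeal)
  have h2 : (fun c : ℕ => ∑' b : (fun P : HeightOneSpectrum (𝓞 K) => absNorm P.asIdeal) ⁻¹' {c},
      CV3_z s (b : HeightOneSpectrum (𝓞 K))) =
      Set.indicator {n : ℕ | n.Prime} (fun n : ℕ => (degOne K n : ℝ) * (n : ℝ) ^ (-s)) := by
    funext n
    have h3 : ∀ b : (fun P : HeightOneSpectrum (𝓞 K) => absNorm P.asIdeal) ⁻¹' {n},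
        CV3_z s (b : HeightOneSpectrum (𝓞 K)) = if n.Prime then (n : ℝ) ^ (-s) else 0 := by
      intro b
      have h4 : absNorm (b : HeightOneSpectrum (𝓞 K)).asIdeal = n := b.2
      unfold CV3_z CV3_x
      rw [h4]
    rw [tsum_congr h3, tsum_const]
    by_cases hn : n.Prime
    · rw [if_pos hn, Set.indicator_of_mem (show n ∈ {n : ℕ | n.Prime} from hn), nsmul_eq_mul]
      rfl
    · rw [if_neg hn, Set.indicator_of_notMem (show n ∉ {n : ℕ | n.Prime} from hn), smul_zero]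
  rw [h2] at h1
  exact hasSum_subtype_iff_indicator.2 h1

variable (K) in
theorem CV3_main : ∃ ℓ : ℝ, Tendsto (fun s : ℝ =>
    (∑' p : Nat.Primes, (degOne K p : ℝ) * ((p : ℕ) : ℝ) ^ (-(1 + s))) + Real.log s) (𝓝[>] 0) (𝓝 ℓ) ∧
    ∀ᶠ s : ℝ in 𝓝[>] 0,
      Summable (fun p : Nat.Primes => (degOne K p : ℝ) * ((p : ℕ) : ℝ) ^ (-(1 + s))) := by
  obtain ⟨ρ, hρ, hlim, hfin⟩ := CV3_residue K
  have hE := CV3_tendsto_E (K := K)
  have key : ∀ᶠ s : ℝ in 𝓝[>] 0,
      Summable (fun p : Nat.Primes => (degOne K p : ℝ) * ((p : ℕ) : ℝ) ^ (-(1 + s))) ∧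
      Real.log (s * (zetaE K (1 + s)).toReal) - ∑' P : HeightOneSpectrum (𝓞 K),
        (CV3_y (1 + s) P - CV3_z (1 + s) P) =
        (∑' p : Nat.Primes, (degOne K p : ℝ) * ((p : ℕ) : ℝ) ^ (-(1 + s))) + Real.log s := by
    filter_upwards [hfin, self_mem_nhdsWithin] with s hs hs0
    have hs0' : (0 : ℝ) < s := hs0
    obtain ⟨h1, h2⟩ := CV3_euler (K := K) (1 + s) (by linarith) hs
    have h3 : Summable (fun P : HeightOneSpectrum (𝓞 K) => CV3_y (1 + s) P - CV3_z (1 + s) P) := by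
      refine Summable.of_norm_bounded (CV3_summ_b.mul_left 3) fun P => ?_
      exact CV3_d (1 + s) (by linarith) P
    have h4 : Summable (CV3_z (K := K) (1 + s)) := by
      have h5 := h1.sub h3
      refine h5.congr fun P => ?_
      ring
    have h6 := CV3_fiber (1 + s) h4
    refine ⟨h6.summable, ?_⟩
    have hpos : 0 < (zetaE K (1 + s)).toReal := by
      rw [← h2]
      exact Real.exp_pos _
    rw [h6.tsum_eq, Real.log_mul hs0'.ne' hpos.ne', ← h2, Real.log_exp, h1.tsum_sub h4]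
    ring
  refine ⟨Real.log ρ - ∑' P : HeightOneSpectrum (𝓞 K), (CV3_y 1 P - CV3_z 1 P), ?_, ?_⟩
  · refine ((hlim.log hρ.ne').sub hE).congr' ?_
    filter_upwards [key] with s hs
    exact hs.2
  · filter_upwards [key] with s hs
    exact hs.1

end

/-- Finitely many primes. -/
theorem CV3_finite (c : ℕ → ℝ) (B : ℕ) (hc : ∀ p : ℕ, p.Prime → B ≤ p → c p = 0) :
    Tendsto (fun s : ℝ => ∑' p : Nat.Primes, c p * ((p : ℕ) : ℝ) ^ (-s)) (𝓝[>] 0)
      (𝓝 (∑' p : Nat.Primes, c p)) ∧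
    ∀ s : ℝ, Summable (fun p : Nat.Primes => c p * ((p : ℕ) : ℝ) ^ (-s)) := by
  have hfin : {p : Nat.Primes | (p : ℕ) < B}.Finite := by
    have h1 : {p : Nat.Primes | (p : ℕ) < B} = (fun p : Nat.Primes => (p : ℕ)) ⁻¹' (Set.Iio B) := rfl
    rw [h1]
    exact (Set.finite_Iio B).preimage Nat.Primes.coe_nat_injective.injOn
  have hz : ∀ p : Nat.Primes, p ∉ {p : Nat.Primes | (p : ℕ) < B} → c p = 0 := by
    intro p hp
    exact hc p p.2 (not_lt.1 hp)
  constructor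
  · refine tendsto_tsum_of_dominated_convergence (bound := fun p : Nat.Primes => |c p|) ?_ ?_ ?_
    · refine summable_of_ne_finset_zero (s := hfin.toFinset) fun p hp => ?_
      rw [Set.Finite.mem_toFinset] at hp
      rw [hz p hp, abs_zero]
    · intro p
      have hp0 : ((p : ℕ) : ℝ) ≠ 0 := by exact_mod_cast p.2.ne_zero
      have h1 : Continuous (fun s : ℝ => c p * ((p : ℕ) : ℝ) ^ (-s)) :=
        continuous_const.mul (Continuous.rpow continuous_const continuous_neg fun s => Or.inl hp0)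
      have h2 := (h1.tendsto 0).mono_left (nhdsWithin_le_nhds (s := Set.Ioi 0))
      simpa using h2
    · filter_upwards [self_mem_nhdsWithin] with s hs p
      have hs' : (0 : ℝ) < s := hs
      have hp1 : (1 : ℝ) ≤ ((p : ℕ) : ℝ) := by exact_mod_cast p.2.one_lt.le
      rw [norm_mul, Real.norm_eq_abs, Real.norm_of_nonneg (by positivity)]
      have h3 : ((p : ℕ) : ℝ) ^ (-s) ≤ 1 := Real.rpow_le_one_of_one_le_of_nonpos hp1 (by linarith)
      exact mul_le_of_le_one_right (abs_nonneg _) h3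
  · intro s
    refine summable_of_ne_finset_zero (s := hfin.toFinset) fun p hp => ?_
    rw [Set.Finite.mem_toFinset] at hp
    rw [hz p hp, zero_mul]

theorem CV3_degOne_rat : ∃ B : ℕ, ∀ p : ℕ, p.Prime → B ≤ p → degOne ℚ p = 1 := by
  obtain ⟨B, hB⟩ := degOne_eq (K := ℚ) (X : ℤ[X]) irreducible_X (by simp) 0 (by simp) (by simp)
  refine ⟨B, fun p hp hBp => ?_⟩
  rw [← hB p hp hBp]
  unfold rootCount
  rw [Finset.card_eq_one]
  refine ⟨0, ?_⟩
  ext a
  rw [Finset.mem_filter, Finset.mem_range, Finset.mem_singleton, eval_X]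
  constructor
  · rintro ⟨h1, h2⟩
    have h3 : p ∣ a := by exact_mod_cast h2
    exact Nat.eq_zero_of_dvd_of_lt h3 h1
  · rintro rfl
    exact ⟨hp.pos, by simp⟩

/-- As `s → 0+`: `∑_p degOne(p) p^(-1-s) = log ζ_K(1+s) - E(s)`, where
`E(s) = ∑_P (-log(1 - N P^(-1-s))) - ∑_{deg P = 1} N P^(-1-s)` converges to `E(0)` (dominated by
`∑_P`: degree one primes contribute at most `p^(-2)` each, the others `2 N P^(-1) ≤ 2 p^(-2)`, at most
`[K:ℚ]` primes above each `p`), and `s ζ_K(1+s) → Res > 0`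
(`NumberField.tendsto_sub_one_mul_dedekindZeta_nhdsGT`; Euler product: `H59.prod_le_zetaE`,
`H59.zetaE_le_of_prod_le`, `H59.zetaE_eq_of_ne_zero`). The same for `ℚ` (or `K = ℚ`):
`∑_p p^(-1-s) - log(1/s)` converges. So `∑_p (degOne(p) - 1) p^(-1-s)` converges. -/
theorem degOne_limit (K : Type*) [Field K] [NumberField K] : ∃ ℓ : ℝ,
    Tendsto (fun s : ℝ => ∑' p : Nat.Primes, (((degOne K p : ℝ) - 1) / ((p : ℕ) : ℝ)) *
      ((p : ℕ) : ℝ) ^ (-s)) (𝓝[>] 0) (𝓝 ℓ) := by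
  obtain ⟨ℓ₁, h1, s1⟩ := CV3_main K
  obtain ⟨ℓ₂, h2, s2⟩ := CV3_main ℚ
  obtain ⟨B, hB⟩ := CV3_degOne_rat
  obtain ⟨h3, s3⟩ := CV3_finite (fun p => ((degOne ℚ p : ℝ) - 1) / p) B (by
    intro p hp hBp
    rw [hB p hp hBp]
    simp)
  refine ⟨ℓ₁ - ℓ₂ + ∑' p : Nat.Primes, ((degOne ℚ p : ℝ) - 1) / ((p : ℕ) : ℝ), ?_⟩
  refine ((h1.sub h2).add h3).congr' ?_
  filter_upwards [s1, s2] with s t1 t2
  have e1 : ∀ p : Nat.Primes, (((degOne K p : ℝ) - 1) / ((p : ℕ) : ℝ)) * ((p : ℕ) : ℝ) ^ (-s) =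
      ((degOne K p : ℝ) * ((p : ℕ) : ℝ) ^ (-(1 + s)) -
        (degOne ℚ p : ℝ) * ((p : ℕ) : ℝ) ^ (-(1 + s))) +
      ((degOne ℚ p : ℝ) - 1) / ((p : ℕ) : ℝ) * ((p : ℕ) : ℝ) ^ (-s) := by
    intro p
    have hp0 : (0 : ℝ) < ((p : ℕ) : ℝ) := by exact_mod_cast p.2.pos
    have e2 : ((p : ℕ) : ℝ) ^ (-(1 + s)) = ((p : ℕ) : ℝ) ^ (-s) / ((p : ℕ) : ℝ) := by
      rw [neg_add, add_comm, Real.rpow_add hp0, Real.rpow_neg_one, div_eq_mul_inv]
    rw [e2]
    field_simp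
    ring
  rw [tsum_congr e1, (t1.sub t2).tsum_add (s3 s), t1.tsum_sub t2]
  ring

/-- `H59.exists_field`, `degOne_eq` (finitely many exceptions), `degOne_limit`, `tauber`
(`degOne_le`). -/
theorem root_conv (f : ℤ[X]) (hf : Irreducible f) (hn : 1 ≤ f.natDegree) : ∃ ℓ : ℝ,
    Tendsto (fun z : ℕ => ∑ p ∈ Nat.primesBelow z, ((rootCount f p : ℝ) - 1) / p) atTop (𝓝 ℓ) := by
  obtain ⟨K, hKf, hKn, θ, hθ, hdeg⟩ := exists_field f hf hn
  obtain ⟨B, hB⟩ := degOne_eq f hf hn θ hθ hdeg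
  obtain ⟨ℓ, hℓ⟩ := degOne_limit K
  have hprim : f.IsPrimitive := hf.isPrimitive (by omega)
  obtain ⟨h3, s3⟩ := CV3_finite (fun p => ((rootCount f p : ℝ) - degOne K p) / p) B (by
    intro p hp hBp
    rw [hB p hp hBp]
    simp)
  obtain ⟨_, _, s1⟩ := CV3_main K
  obtain ⟨_, _, s2⟩ := CV3_main ℚ
  obtain ⟨B', hB'⟩ := CV3_degOne_rat
  obtain ⟨_, s4⟩ := CV3_finite (fun p => ((degOne ℚ p : ℝ) - 1) / p) B' (by
    intro p hp hBp
    rw [hB' p hp hBp]
    simp)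
  refine ⟨_, tauber (fun p => ((rootCount f p : ℝ) - 1) / p) (f.natDegree + 1) ?_
    (ℓ + ∑' p : Nat.Primes, ((rootCount f p : ℝ) - degOne K p) / ((p : ℕ) : ℝ)) ?_⟩
  · intro p hp
    have h1 : (rootCount f p : ℝ) ≤ f.natDegree := by
      exact_mod_cast rootCount_le_natDegree hprim hp
    have h2 : (0 : ℝ) ≤ rootCount f p := Nat.cast_nonneg _
    have hp0 : (0 : ℝ) < p := by exact_mod_cast hp.pos
    rw [abs_div, abs_of_pos hp0]
    refine div_le_div_of_nonneg_right ?_ hp0.le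
    rw [abs_le]
    constructor <;> linarith
  · refine (hℓ.add h3).congr' ?_
    filter_upwards [s1, s2] with s t1 t2
    have t3 : Summable (fun p : Nat.Primes => (((degOne K p : ℝ) - 1) / ((p : ℕ) : ℝ)) *
        ((p : ℕ) : ℝ) ^ (-s)) := by
      refine ((t1.sub t2).add (s4 s)).congr fun p => ?_
      have hp0 : (0 : ℝ) < ((p : ℕ) : ℝ) := by exact_mod_cast p.2.pos
      have e2 : ((p : ℕ) : ℝ) ^ (-(1 + s)) = ((p : ℕ) : ℝ) ^ (-s) / ((p : ℕ) : ℝ) := by
        rw [neg_add, add_comm, Real.rpow_add hp0, Real.rpow_neg_one, div_eq_mul_inv]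
      rw [e2]
      field_simp
      ring
    rw [← t3.tsum_add (s3 s)]
    refine tsum_congr fun p => ?_
    ring

end Pool.Agent.Lib.H33B
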