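import Pool.Agent.Lib.H33B.V6
import Pool.Agent.Lib.H33B.AC
import Pool.Agent.Lib.H68T.DA
import Pool.Agent.Lib.H68T.DB
import Pool.Agent.Lib.H68T.CQ2
import Pool.Agent.Lib.H68T.CG2
import Pool.Agent.Lib.H68T.RegL

/-!
# Chunk DE1: the Fourier-uniform part of the primes at the values `N - G(n)`
-/

open Finset Polynomial

namespace Pool.Agent.Lib.H33B

open Pool.Agent.Lib.H59 (argCount)
open Pool.Agent.Lib.H68T (lp Lk Reg Good)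

/-- the truncated function -/
noncomputable def DE1_u (Q X₀ : ℕ) (b : ℤ) (m : ℤ) : ℝ :=
  if (X₀ : ℤ) ≤ m ∧ m < b then lp m - Lk Q (X₀ / Q ^ 2) m else 0

theorem DE1_sq {Q X₀ : ℕ} {b : ℤ} (hb : b ≤ 4 * X₀) (hX0 : 1 ≤ X₀) (hQ : 1 ≤ Q)
    (hℓ : 1 ≤ Real.log X₀)
    (hQX : (Q : ℝ) ^ 2 ≤ X₀) (hlQ : Real.log Q ≤ Real.log X₀)
    (hstr : ∀ m : ℤ, (X₀ : ℤ) ≤ m → m ≤ 4 * X₀ →
      |Lk Q (X₀ / Q ^ 2) m - Pool.Agent.Lib.H68T.G Q m| ≤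
        (Real.log X₀) ^ (-1 : ℝ) * Pool.Agent.Lib.H68T.dQ Q m) :
    ∑ m ∈ Icc (1 : ℤ) (4 * X₀ : ℕ), DE1_u Q X₀ b m ^ 2 ≤ 10 ^ 6 * X₀ * (Real.log X₀) ^ 7 := by
  set ℓ := Real.log X₀ with hℓd
  have hX0r : (1 : ℝ) ≤ X₀ := by exact_mod_cast hX0
  have hlQ0 : 0 ≤ Real.log Q := Real.log_nonneg (by exact_mod_cast hQ)
  have hdQ0 : ∀ m, 0 ≤ Pool.Agent.Lib.H68T.dQ Q m := fun m => by
    unfold Pool.Agent.Lib.H68T.dQ; positivity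
  have hpt : ∀ m ∈ Ico (X₀ : ℤ) (4 * X₀), (lp m - Lk Q (X₀ / Q ^ 2) m) ^ 2 ≤
      2 * (ℓ + 2) ^ 2 + 242 * (1 + ℓ) ^ 4 * (Pool.Agent.Lib.H68T.dQ Q m) ^ 2 := by
    intro m hm
    rw [mem_Ico] at hm
    have h1 : |lp m| ≤ ℓ + 2 := by
      have hm1 : (1 : ℝ) ≤ m := by
        have : (1 : ℤ) ≤ m := by omega
        exact_mod_cast this
      have hm2 : (m : ℝ) ≤ 4 * X₀ := by
        have : m ≤ 4 * (X₀ : ℤ) := by omega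
        exact_mod_cast this
      have h2 : Real.log m ≤ ℓ + 2 := by
        calc Real.log m ≤ Real.log (4 * X₀) := Real.log_le_log (by linarith) hm2
          _ = Real.log 4 + ℓ := by rw [Real.log_mul (by norm_num) (by linarith)]
          _ ≤ ℓ + 2 := by
            have : Real.log 4 = 2 * Real.log 2 := by
              rw [show (4:ℝ) = 2 ^ 2 by norm_num, Real.log_pow]; norm_num
            linarith [Real.log_two_lt_d9]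
      unfold Pool.Agent.Lib.H68T.lp
      split_ifs
      · rw [abs_of_nonneg (Real.log_nonneg hm1)]; exact h2
      · rw [abs_zero]; linarith
    have h3 : |Lk Q (X₀ / Q ^ 2) m| ≤ 11 * (1 + ℓ) ^ 2 * Pool.Agent.Lib.H68T.dQ Q m := by
      have a1 := hstr m hm.1 (by omega)
      have a2 := Pool.Agent.Lib.H68T.abs_G_le Q m
      have a3 : (ℓ) ^ (-1 : ℝ) ≤ 1 := by
        rw [Real.rpow_neg_one]
        exact inv_le_one_of_one_le₀ hℓ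
      have a4 : |Lk Q (X₀ / Q ^ 2) m| ≤ |Lk Q (X₀ / Q ^ 2) m - Pool.Agent.Lib.H68T.G Q m| +
          |Pool.Agent.Lib.H68T.G Q m| := by
        have := abs_add_le (Lk Q (X₀ / Q ^ 2) m - Pool.Agent.Lib.H68T.G Q m)
          (Pool.Agent.Lib.H68T.G Q m)
        simpa using this
      have a5 : (ℓ) ^ (-1 : ℝ) * Pool.Agent.Lib.H68T.dQ Q m ≤ 1 * Pool.Agent.Lib.H68T.dQ Q m :=
        mul_le_mul_of_nonneg_right a3 (hdQ0 m)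
      have a6 : (1 + Real.log Q) ^ 2 ≤ (1 + ℓ) ^ 2 := by
        apply pow_le_pow_left₀ (by linarith); linarith
      have a7 : 10 * (1 + Real.log Q) ^ 2 * Pool.Agent.Lib.H68T.dQ Q m ≤
          10 * (1 + ℓ) ^ 2 * Pool.Agent.Lib.H68T.dQ Q m := by
        apply mul_le_mul_of_nonneg_right _ (hdQ0 m)
        linarith
      have a8 : 1 * Pool.Agent.Lib.H68T.dQ Q m ≤ (1 + ℓ) ^ 2 * Pool.Agent.Lib.H68T.dQ Q m := by
        apply mul_le_mul_of_nonneg_right _ (hdQ0 m)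
        nlinarith
      calc |Lk Q (X₀ / Q ^ 2) m| ≤ (ℓ) ^ (-1 : ℝ) * Pool.Agent.Lib.H68T.dQ Q m +
            10 * (1 + Real.log Q) ^ 2 * Pool.Agent.Lib.H68T.dQ Q m := a4.trans (add_le_add a1 a2)
        _ ≤ (1 + ℓ) ^ 2 * Pool.Agent.Lib.H68T.dQ Q m + 10 * (1 + ℓ) ^ 2 *
            Pool.Agent.Lib.H68T.dQ Q m := add_le_add (a5.trans a8) a7
        _ = _ := by ring
    have h4 : (lp m - Lk Q (X₀ / Q ^ 2) m) ^ 2 ≤ 2 * (lp m) ^ 2 + 2 * (Lk Q (X₀ / Q ^ 2) m) ^ 2 := by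
      nlinarith [sq_nonneg (lp m + Lk Q (X₀ / Q ^ 2) m)]
    have h5 : (lp m) ^ 2 ≤ (ℓ + 2) ^ 2 := by
      rw [← sq_abs]; exact pow_le_pow_left₀ (abs_nonneg _) h1 2
    have h6 : (Lk Q (X₀ / Q ^ 2) m) ^ 2 ≤ (11 * (1 + ℓ) ^ 2 * Pool.Agent.Lib.H68T.dQ Q m) ^ 2 := by
      rw [← sq_abs]; exact pow_le_pow_left₀ (abs_nonneg _) h3 2
    calc _ ≤ 2 * (ℓ + 2) ^ 2 + 2 * (11 * (1 + ℓ) ^ 2 * Pool.Agent.Lib.H68T.dQ Q m) ^ 2 := by linarith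
      _ = _ := by ring
  have hmom : ∑ m ∈ Ico (X₀ : ℤ) (4 * X₀), (Pool.Agent.Lib.H68T.dQ Q m) ^ 2 ≤
      3 * X₀ * (1 + ℓ) ^ 3 + X₀ := by
    have h1 := Pool.Agent.Lib.H68T.dQ_moment Q (3 * X₀) 1 0 X₀ one_pos (Nat.coprime_one_right 0)
    have h2 : ∑ m ∈ Ico (X₀ : ℤ) (4 * X₀), (Pool.Agent.Lib.H68T.dQ Q m) ^ 2 =
        ∑ c ∈ range (3 * X₀), (Pool.Agent.Lib.H68T.dQ Q (((0 : ℕ) : ℤ) + (1 : ℕ) *
          (X₀ + c : ℕ))) ^ 2 := by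
      symm
      refine sum_bij' (fun c _ => ((X₀ + c : ℕ) : ℤ)) (fun m _ => (m - X₀).toNat) ?_ ?_ ?_ ?_ ?_
      · intro c hc
        rw [mem_range] at hc
        rw [mem_Ico]
        push_cast
        omega
      · intro m hm
        rw [mem_Ico] at hm
        rw [mem_range]
        omega
      · intro c hc
        simp
      · intro m hm
        rw [mem_Ico] at hm
        push_cast
        omega
      · intro c hc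
        simp
    rw [h2]
    refine h1.trans ?_
    have h3 : (1 + Real.log Q) ^ 3 ≤ (1 + ℓ) ^ 3 := by
      apply pow_le_pow_left₀ (by linarith); linarith
    push_cast
    have h4 : 3 * (X₀ : ℝ) * (1 + Real.log Q) ^ 3 ≤ 3 * X₀ * (1 + ℓ) ^ 3 :=
      mul_le_mul_of_nonneg_left h3 (by positivity)
    linarith
  have hstep : ∑ m ∈ Icc (1 : ℤ) (4 * X₀ : ℕ), DE1_u Q X₀ b m ^ 2 ≤
      ∑ m ∈ Ico (X₀ : ℤ) (4 * X₀), (2 * (ℓ + 2) ^ 2 + 242 * (1 + ℓ) ^ 4 *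
        (Pool.Agent.Lib.H68T.dQ Q m) ^ 2) := by
    have h1 : ∑ m ∈ Icc (1 : ℤ) (4 * X₀ : ℕ), DE1_u Q X₀ b m ^ 2 =
        ∑ m ∈ (Icc (1 : ℤ) (4 * X₀ : ℕ)).filter (fun m => (X₀ : ℤ) ≤ m ∧ m < b),
          (lp m - Lk Q (X₀ / Q ^ 2) m) ^ 2 := by
      rw [sum_filter]
      refine sum_congr rfl fun m _ => ?_
      unfold DE1_u
      split_ifs <;> simp
    rw [h1]
    have h2 : ∀ m ∈ (Icc (1 : ℤ) (4 * X₀ : ℕ)).filter (fun m => (X₀ : ℤ) ≤ m ∧ m < b),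
        (lp m - Lk Q (X₀ / Q ^ 2) m) ^ 2 ≤ 2 * (ℓ + 2) ^ 2 + 242 * (1 + ℓ) ^ 4 *
          (Pool.Agent.Lib.H68T.dQ Q m) ^ 2 := by
      intro m hm
      rw [mem_filter] at hm
      refine hpt m ?_
      rw [mem_Ico]
      omega
    refine (sum_le_sum h2).trans (sum_le_sum_of_subset_of_nonneg ?_ ?_)
    · intro m hm
      rw [mem_filter] at hm
      rw [mem_Ico]
      omega
    · intro m _ _
      positivity
  refine hstep.trans ?_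
  rw [sum_add_distrib, sum_const, ← mul_sum, Int.card_Ico, nsmul_eq_mul]
  have hcard : (((4 * (X₀ : ℤ) - X₀).toNat : ℕ) : ℝ) = 3 * X₀ := by
    have : (4 * (X₀ : ℤ) - X₀).toNat = 3 * X₀ := by omega
    rw [this]; push_cast; ring
  rw [hcard]
  have k1 : (1 + ℓ) ≤ 2 * ℓ := by linarith
  have k2 : (1 + ℓ) ^ 3 ≤ (2 * ℓ) ^ 3 := pow_le_pow_left₀ (by linarith) k1 3
  have k3 : (1 + ℓ) ^ 4 ≤ (2 * ℓ) ^ 4 := pow_le_pow_left₀ (by linarith) k1 4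
  have k4 : (ℓ + 2) ^ 2 ≤ (3 * ℓ) ^ 2 := pow_le_pow_left₀ (by linarith) (by linarith) 2
  have k5 : ℓ ^ 2 ≤ ℓ ^ 7 := pow_le_pow_right₀ hℓ (by norm_num)
  have k6 : (1 : ℝ) ≤ ℓ ^ 3 := one_le_pow₀ hℓ
  have k7 : 3 * (X₀ : ℝ) * (1 + ℓ) ^ 3 + X₀ ≤ 25 * X₀ * ℓ ^ 3 := by
    have : 3 * (X₀ : ℝ) * (1 + ℓ) ^ 3 ≤ 3 * X₀ * (2 * ℓ) ^ 3 :=
      mul_le_mul_of_nonneg_left k2 (by positivity)
    nlinarith
  have k8 : 242 * (1 + ℓ) ^ 4 * ∑ m ∈ Ico (X₀ : ℤ) (4 * X₀), (Pool.Agent.Lib.H68T.dQ Q m) ^ 2 ≤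
      242 * (2 * ℓ) ^ 4 * (25 * X₀ * ℓ ^ 3) := by
    apply mul_le_mul (by linarith) (hmom.trans k7) (sum_nonneg fun _ _ => sq_nonneg _) (by positivity)
  have k9 : 3 * (X₀ : ℝ) * (2 * (ℓ + 2) ^ 2) ≤ 54 * X₀ * ℓ ^ 7 := by
    have h1 : 2 * (ℓ + 2) ^ 2 ≤ 18 * ℓ ^ 7 := by nlinarith
    nlinarith
  have k10 : 242 * (2 * ℓ) ^ 4 * (25 * X₀ * ℓ ^ 3) = 96800 * X₀ * ℓ ^ 7 := by ring
  have k11 : 0 ≤ (X₀ : ℝ) * ℓ ^ 7 := by positivity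
  linarith

theorem DE1_supp (Q X₀ : ℕ) (b : ℤ) (hb : b ≤ 4 * X₀) (hX0 : 1 ≤ X₀) (m : ℤ)
    (hm : m ∉ Icc (1 : ℤ) (4 * X₀ : ℕ)) : DE1_u Q X₀ b m = 0 := by
  unfold DE1_u
  rw [if_neg]
  intro h
  apply hm
  rw [mem_Icc]
  push_cast
  omega

theorem DE1_four (Q X₀ : ℕ) (b : ℤ) (hb : b ≤ 4 * X₀) (hX0 : 1 ≤ X₀) (S : ℝ) (hS0 : 0 ≤ S)
    (hS : ∀ θ : ℝ, ∀ a b : ℤ, (X₀ : ℤ) ≤ a → b ≤ 4 * X₀ →
      ‖∑ m ∈ Ico a b, ((lp m - Lk Q (X₀ / Q ^ 2) m : ℝ) : ℂ) * Pool.Agent.Lib.H68T.e (m * θ)‖ ≤ S)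
    (θ : ℝ) : ‖∑ m ∈ Icc (1 : ℤ) (4 * X₀ : ℕ), (DE1_u Q X₀ b m : ℂ) *
      Pool.Agent.Lib.H68T.e (m * θ)‖ ≤ S := by
  have h1 : ∑ m ∈ Icc (1 : ℤ) (4 * X₀ : ℕ), (DE1_u Q X₀ b m : ℂ) *
      Pool.Agent.Lib.H68T.e (m * θ) = ∑ m ∈ Ico (X₀ : ℤ) b,
        ((lp m - Lk Q (X₀ / Q ^ 2) m : ℝ) : ℂ) * Pool.Agent.Lib.H68T.e (m * θ) := by
    have h2 : Ico (X₀ : ℤ) b = (Icc (1 : ℤ) (4 * X₀ : ℕ)).filter
        (fun m => (X₀ : ℤ) ≤ m ∧ m < b) := by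
      ext m
      rw [mem_Ico, mem_filter, mem_Icc]
      push_cast
      omega
    rw [h2, sum_filter]
    refine sum_congr rfl fun m _ => ?_
    unfold DE1_u
    split_ifs <;> simp
  rw [h1]
  exact hS θ X₀ b le_rfl hb

theorem DE1_rpow (base P : ℝ) (T : ℕ) (hT : 1 ≤ T) (hb : 0 ≤ base) (hP : 0 < P)
    (h : base * P ^ T ≤ 1) : P * base ^ ((1 : ℝ) / T) ≤ 1 := by
  have hT0 : (T : ℝ) ≠ 0 := by positivity
  have h1 : base ≤ (P⁻¹) ^ T := by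
    rw [inv_pow, ← one_div, le_div_iff₀ (by positivity)]; exact h
  have h2 : base ^ ((1 : ℝ) / T) ≤ P⁻¹ := by
    calc base ^ ((1 : ℝ) / T) ≤ ((P⁻¹) ^ T) ^ ((1 : ℝ) / T) :=
          Real.rpow_le_rpow hb h1 (by positivity)
      _ = P⁻¹ := by
          rw [one_div, Real.pow_rpow_inv_natCast (by positivity) (by omega)]
  calc P * base ^ ((1 : ℝ) / T) ≤ P * P⁻¹ := mul_le_mul_of_nonneg_left h2 hP.le
    _ = 1 := mul_inv_cancel₀ hP.ne'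

/-- numerical part: the bound of the double sum is small enough -/
theorem DE1_num (k T : ℕ) (hk : 1 ≤ k) (hT : 1 ≤ T) (Cv c₁ B Y X X₀ q ℓ L : ℝ) (hCv : 1 ≤ Cv)
    (hc₁ : 0 < c₁) (hX : 1 ≤ X) (hX0 : 1 ≤ X₀) (hXY : X₀ ≤ 2 * Y) (hℓ : 1 ≤ ℓ) (hL1 : 1 ≤ L)
    (hL : L ≤ 2 * ℓ) (hq : 0 < q) (hlX : 1 + Real.log X ≤ 4 * ℓ) (hXk : c₁ * Y ≤ X ^ k)
    (hqX : 2 / c₁ * q ^ k ≤ X₀)
    (hqℓ : ((1 + (Real.sqrt (c₁ / 2))⁻¹) * 4 ^ Cv * (Cv * 2 * 10 ^ 6 * 2 ^ (2 * |B|)) ^ T) *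
      ℓ ^ (Cv + (7 + 2 * |B|) * T) ≤ q) :
    Cv * (10 ^ 6 * X₀ * ℓ ^ 7) * (1 / X + (X₀ * q⁻¹) * (1 + Real.log X) ^ Cv /
      Real.sqrt (X ^ k * (10 ^ 6 * X₀ * ℓ ^ 7))) ^ ((1 : ℝ) / T) * L ^ (2 * B) ≤ Y := by
  have hY0 : 0 < Y := by linarith
  have hℓ0 : 0 < ℓ := by linarith
  have hlX0 : 0 ≤ Real.log X := Real.log_nonneg hX
  set E := 10 ^ 6 * X₀ * ℓ ^ 7 with hE
  have hℓ7 : (1 : ℝ) ≤ ℓ ^ 7 := one_le_pow₀ hℓ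
  have hEX : X₀ ≤ E := by rw [hE]; nlinarith
  have hE0 : 0 < E := by linarith
  set base := 1 / X + (X₀ * q⁻¹) * (1 + Real.log X) ^ Cv / Real.sqrt (X ^ k * E) with hbase
  have hbase0 : 0 ≤ base := by
    rw [hbase]
    positivity
  -- `X ≥ q`
  have hXX0 : c₁ / 2 * X₀ ≤ X ^ k := by
    calc c₁ / 2 * X₀ ≤ c₁ / 2 * (2 * Y) := mul_le_mul_of_nonneg_left hXY (by positivity)
      _ = c₁ * Y := by ring
      _ ≤ _ := hXk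
  have hXq : q ≤ X := by
    have h1 : q ^ k ≤ X ^ k := by
      refine le_trans ?_ hXX0
      have : c₁ / 2 * (2 / c₁ * q ^ k) ≤ c₁ / 2 * X₀ := mul_le_mul_of_nonneg_left hqX (by positivity)
      have h2 : c₁ / 2 * (2 / c₁ * q ^ k) = q ^ k := by field_simp
      linarith
    exact (pow_le_pow_iff_left₀ hq.le (by linarith) (by omega)).mp h1
  have hb1 : 1 / X ≤ q⁻¹ := by
    rw [one_div]
    exact inv_anti₀ hq hXq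
  have hs : Real.sqrt (c₁ / 2) * X₀ ≤ Real.sqrt (X ^ k * E) := by
    rw [Real.le_sqrt (by positivity) (by positivity), mul_pow, Real.sq_sqrt (by positivity)]
    calc c₁ / 2 * X₀ ^ 2 = (c₁ / 2 * X₀) * X₀ := by ring
      _ ≤ X ^ k * E := mul_le_mul hXX0 hEX (by positivity) (by positivity)
  set s := Real.sqrt (c₁ / 2) with hsd
  have hs0 : 0 < s := Real.sqrt_pos.mpr (by positivity)
  have hpow : (1 + Real.log X) ^ Cv ≤ (4 * ℓ) ^ Cv :=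
    Real.rpow_le_rpow (by linarith) hlX (by linarith)
  have hpow1 : 1 ≤ (4 * ℓ) ^ Cv := Real.one_le_rpow (by linarith) (by linarith)
  have hb2 : (X₀ * q⁻¹) * (1 + Real.log X) ^ Cv / Real.sqrt (X ^ k * E) ≤
      q⁻¹ * (4 * ℓ) ^ Cv * s⁻¹ := by
    rw [div_le_iff₀ (by positivity)]
    calc (X₀ * q⁻¹) * (1 + Real.log X) ^ Cv ≤ (X₀ * q⁻¹) * (4 * ℓ) ^ Cv :=
          mul_le_mul_of_nonneg_left hpow (by positivity)
      _ = q⁻¹ * (4 * ℓ) ^ Cv * s⁻¹ * (s * X₀) := by field_simp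
      _ ≤ _ := mul_le_mul_of_nonneg_left hs (by positivity)
  have hb3 : base ≤ q⁻¹ * ((1 + s⁻¹) * (4 * ℓ) ^ Cv) := by
    have h1 : q⁻¹ * 1 ≤ q⁻¹ * (4 * ℓ) ^ Cv := mul_le_mul_of_nonneg_left hpow1 (by positivity)
    calc base ≤ q⁻¹ + q⁻¹ * (4 * ℓ) ^ Cv * s⁻¹ := by rw [hbase]; linarith
      _ ≤ q⁻¹ * (4 * ℓ) ^ Cv + q⁻¹ * (4 * ℓ) ^ Cv * s⁻¹ := by linarith
      _ = _ := by ring
  set P := Cv * 2 * 10 ^ 6 * ℓ ^ 7 * (2 * ℓ) ^ (2 * |B|) with hP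
  have hP0 : 0 < P := by positivity
  have hPT : (1 + s⁻¹) * (4 * ℓ) ^ Cv * P ^ T =
      ((1 + s⁻¹) * 4 ^ Cv * (Cv * 2 * 10 ^ 6 * 2 ^ (2 * |B|)) ^ T) *
      ℓ ^ (Cv + (7 + 2 * |B|) * T) := by
    rw [hP, Real.mul_rpow (by norm_num) hℓ0.le, Real.mul_rpow (by norm_num) hℓ0.le,
      Real.rpow_add hℓ0, add_mul (7 : ℝ) (2 * |B|) (T : ℝ), Real.rpow_add hℓ0]
    have e1 : ℓ ^ ((7 : ℝ) * T) = (ℓ ^ 7) ^ T := by
      rw [Real.rpow_mul hℓ0.le, Real.rpow_natCast]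
      norm_cast
    have e2 : ℓ ^ (2 * |B| * T) = (ℓ ^ (2 * |B|)) ^ T := by
      rw [Real.rpow_mul hℓ0.le, Real.rpow_natCast]
    rw [e1, e2]
    ring
  have hmain : base * P ^ T ≤ 1 := by
    calc base * P ^ T ≤ (q⁻¹ * ((1 + s⁻¹) * (4 * ℓ) ^ Cv)) * P ^ T :=
          mul_le_mul_of_nonneg_right hb3 (by positivity)
      _ = q⁻¹ * ((1 + s⁻¹) * (4 * ℓ) ^ Cv * P ^ T) := by ring
      _ ≤ q⁻¹ * q := by
          rw [hPT]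
          exact mul_le_mul_of_nonneg_left hqℓ (by positivity)
      _ = 1 := inv_mul_cancel₀ hq.ne'
  have hr := DE1_rpow base P T hT hbase0 hP0 hmain
  have hL2 : L ^ (2 * B) ≤ (2 * ℓ) ^ (2 * |B|) := by
    calc L ^ (2 * B) ≤ L ^ (2 * |B|) :=
          Real.rpow_le_rpow_of_exponent_le hL1 (by linarith [le_abs_self B])
      _ ≤ (2 * ℓ) ^ (2 * |B|) := Real.rpow_le_rpow (by linarith) hL (by positivity)
  calc Cv * E * base ^ ((1 : ℝ) / T) * L ^ (2 * B)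
      ≤ Cv * E * base ^ ((1 : ℝ) / T) * (2 * ℓ) ^ (2 * |B|) :=
        mul_le_mul_of_nonneg_left hL2 (by positivity)
    _ = (X₀ / 2) * (P * base ^ ((1 : ℝ) / T)) := by rw [hE, hP]; ring
    _ ≤ (X₀ / 2) * 1 := mul_le_mul_of_nonneg_left hr (by positivity)
    _ ≤ Y := by linarith


theorem DE1_cs (u : ℤ → ℝ) (M : ℕ) (hu : ∀ m, m ∉ Icc (1 : ℤ) M → u m = 0) (X Y : ℕ)
    (A : Finset ℕ) (hA : A ⊆ Icc 1 X) (f : ℕ → ℝ) (hf : ∀ n, |f n| ≤ 1) (v : ℕ → ℤ) :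
    (∑ N ∈ Icc 1 Y, |∑ n ∈ A, f n * u ((N : ℤ) - v n)|) ^ 2 ≤
      Y * ∑ n ∈ Icc 1 X, ∑ n' ∈ Icc 1 X, |cor u M (v n - v n')| := by
  have h1 := sq_sum_le_card_mul_sum_sq (s := Icc 1 Y)
    (f := fun N : ℕ => |∑ n ∈ A, f n * u ((N : ℤ) - v n)|)
  refine h1.trans ?_
  rw [Nat.card_Icc, Nat.add_sub_cancel]
  refine mul_le_mul_of_nonneg_left ?_ (by positivity)
  have h2 : ∑ N ∈ Icc 1 Y, |∑ n ∈ A, f n * u ((N : ℤ) - v n)| ^ 2 =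
      ∑ N ∈ (Icc 1 Y).image (fun N : ℕ => (N : ℤ)), (∑ n ∈ A, f n * u (N - v n)) ^ 2 := by
    rw [sum_image (fun a _ b _ h => by exact_mod_cast h)]
    refine sum_congr rfl fun N _ => ?_
    rw [sq_abs]
  rw [h2]
  refine (cor_conv u M hu A f hf v _).trans ?_
  refine (sum_le_sum fun n _ => sum_le_sum_of_subset_of_nonneg hA
    (fun _ _ _ => abs_nonneg _)).trans ?_
  exact sum_le_sum_of_subset_of_nonneg hA (fun _ _ _ => sum_nonneg fun _ _ => abs_nonneg _)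

theorem DE1_filter (G : ℤ[X]) (Q X₀ : ℕ) (b : ℤ) (A : Finset ℕ) (f : ℕ → ℝ) (N : ℕ) :
    ∑ n ∈ A.filter (fun n : ℕ => (X₀ : ℤ) ≤ (N : ℤ) - G.eval (n : ℤ) ∧
      (N : ℤ) - G.eval (n : ℤ) < b), f n * (lp ((N : ℤ) - G.eval (n : ℤ)) -
        Lk Q (X₀ / Q ^ 2) ((N : ℤ) - G.eval (n : ℤ))) =
      ∑ n ∈ A, f n * DE1_u Q X₀ b ((N : ℤ) - G.eval (n : ℤ)) := by
  rw [sum_filter]
  refine sum_congr rfl fun n _ => ?_
  unfold DE1_u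
  split_ifs <;> simp

theorem DE1_arg (G : ℤ[X]) (hk : 1 ≤ G.natDegree) (hl : 0 < G.leadingCoeff) :
    ∃ c₁ : ℝ, 0 < c₁ ∧ ∃ Y₁ : ℕ, 3 ≤ Y₁ ∧ ∀ Y : ℕ, Y₁ ≤ Y →
      1 ≤ argCount G Y ∧ c₁ * Y ≤ (argCount G Y : ℝ) ^ G.natDegree ∧
        (argCount G Y : ℝ) ≤ 2 * Y := by
  have ha : (0 : ℝ) < (G.leadingCoeff : ℝ) := by exact_mod_cast hl
  have ha1 : (1 : ℝ) ≤ (G.leadingCoeff : ℝ) := by exact_mod_cast hl
  have h1 := argCount_pow G hk hl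
  have h2 : ∀ᶠ Y : ℕ in Filter.atTop, (G.leadingCoeff : ℝ)⁻¹ / 2 <
      (argCount G Y : ℝ) ^ G.natDegree / Y := h1.eventually_const_lt (by
        have : 0 < (G.leadingCoeff : ℝ)⁻¹ := by positivity
        linarith)
  have h3 : ∀ᶠ Y : ℕ in Filter.atTop, (argCount G Y : ℝ) ^ G.natDegree / Y < 2 :=
    h1.eventually_lt_const (by
      have : (G.leadingCoeff : ℝ)⁻¹ ≤ 1 := inv_le_one_of_one_le₀ ha1
      linarith)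
  have h4 : ∀ᶠ Y : ℕ in Filter.atTop, 1 ≤ argCount G Y :=
    (Pool.Agent.Lib.H59.argCount_tendsto hk hl).eventually_ge_atTop 1
  obtain ⟨Y₀, hY₀⟩ := Filter.eventually_atTop.1 (h2.and (h3.and h4))
  refine ⟨(G.leadingCoeff : ℝ)⁻¹ / 2, by positivity, max Y₀ 3, le_max_right _ _, fun Y hY => ?_⟩
  obtain ⟨a1, a2, a3⟩ := hY₀ Y ((le_max_left _ _).trans hY)
  have hY3 : 3 ≤ Y := (le_max_right _ _).trans hY
  have hYr : (0 : ℝ) < Y := by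
    have : (3 : ℝ) ≤ Y := by exact_mod_cast hY3
    linarith
  rw [lt_div_iff₀ hYr] at a1
  rw [div_lt_iff₀ hYr] at a2
  refine ⟨a3, a1.le, ?_⟩
  have h5 : (argCount G Y : ℝ) ≤ (argCount G Y : ℝ) ^ G.natDegree :=
    le_self_pow₀ (by exact_mod_cast a3) (by omega)
  linarith

/-- Let `X = argCount G Y`, `k = deg G`, `u(m) = (lp - Lk)(m)` for `X₀ ≤ m < b` and `0` otherwise,
`M = 4 X₀`. Then `u` is supported in `[1, M]` and: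
* sup of the exponential sums `≤ X₀ Q^(-1/4) =: S` (`H68T.fourier_small`, `a = X₀`);
* `∑ u² ≤ 2 ∑ lp² + 2 ∑ Lk²`, `lp ≤ log(4X₀)`, `|Lk| ≤ |G_Q| + (log X₀)^(-1) dQ ≤ (10 (1+log Q)² + 1) dQ`
  (`H68T.structured` with `A = 1`, `H68T.abs_G_le`), `∑_{X₀ ≤ m < 4X₀} dQ² ≤ 3 X₀ (1+log Q)³ + Q²`
  (`H68T.dQ_moment` with `W = 1, b = 0`), so `∑ u² ≤ E := X₀ (log X₀)^10`, `X₀` large.
By Cauchy-Schwarz and `cor_conv`,
`(∑_{N ≤ Y} |∑_n f(n) u(N - G(n))|)² ≤ Y ∑_{n,n' ≤ X} |cor(G(n) - G(n'))|`, and `vdc` bounds the double sum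
by `C X² E (1/X + S (1+log X)^C/√(X^k E))^(1/2^(k-1))`; `X^k ≥ c Y` (`argCount_pow`), `E ≥ X₀ ≥ δ Y`,
`S ≤ 2 Y Q^(-1/4)`, so the base is at most `1/X + C' (log Y)^C Q^(-1/4)`, and
`Q ≥ (log X₀)^K` (from `Reg`), `K` large in terms of `G, B, δ`. Also `|f| ≤ 1`. `Y` is large because
`K ≤ log log X₀`, `X₀ ≤ 2Y`. -/
theorem dec_u2 (G : ℤ[X]) (hk : 1 ≤ G.natDegree) (hl : 0 < G.leadingCoeff) (c : ℝ) (hc : 0 < c)
    (B δ : ℝ) (hδ : 0 < δ) : ∃ K : ℝ, ∀ Y Q X₀ : ℕ, Reg K Q X₀ → Good c Q → δ * Y ≤ X₀ →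
    (X₀ : ℝ) ≤ 2 * Y → ∀ b : ℤ, b ≤ 4 * X₀ → ∀ f : ℕ → ℝ, (∀ n, |f n| ≤ 1) →
    ∀ A ⊆ Icc 1 (argCount G Y),
    ∑ N ∈ Icc 1 Y, |∑ n ∈ A.filter (fun n : ℕ => (X₀ : ℤ) ≤ (N : ℤ) - G.eval (n : ℤ) ∧
      (N : ℤ) - G.eval (n : ℤ) < b), f n * (lp ((N : ℤ) - G.eval (n : ℤ)) -
        Lk Q (X₀ / Q ^ 2) ((N : ℤ) - G.eval (n : ℤ)))| ≤
      Y * argCount G Y / (Real.log Y) ^ B := by
  obtain ⟨Cv, hCv, hvdc⟩ := vdc G hk hl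
  obtain ⟨c₁, hc₁, Y₁, hY₁3, hY₁⟩ := DE1_arg G hk hl
  obtain ⟨K1, hst⟩ := Pool.Agent.Lib.H68T.structured c hc 1
  obtain ⟨K2, hfs⟩ := Pool.Agent.Lib.H68T.fourier_small
  set k := G.natDegree with hkd
  set T := 2 ^ (k - 1) with hT
  have hT1 : 1 ≤ T := Nat.one_le_two_pow
  obtain ⟨K3, hK3, h3⟩ := Pool.Agent.Lib.H68T.reg_pow_le (2 / c₁) ((1 : ℝ) / 4 * k) 1 one_pos
  obtain ⟨K4, hK4, h4⟩ := Pool.Agent.Lib.H68T.reg_log_le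
    ((1 + (Real.sqrt (c₁ / 2))⁻¹) * 4 ^ Cv * (Cv * 2 * 10 ^ 6 * 2 ^ (2 * |B|)) ^ T)
    (Cv + (7 + 2 * |B|) * T) (1 / 4) (by norm_num)
  obtain ⟨K5, hK5, h5⟩ := Pool.Agent.Lib.H68T.reg_pow_le 1 2 1 one_pos
  refine ⟨|K1| + |K2| + K3 + K4 + K5 + |Real.log δ| + 2 * Y₁ + 3,
    fun Y Q X₀ hR hG hX1 hX2 b hb f hf A hA => ?_⟩
  set K := |K1| + |K2| + K3 + K4 + K5 + |Real.log δ| + 2 * Y₁ + 3 with hK
  have a1 := abs_nonneg K1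
  have a2 := abs_nonneg K2
  have a3 := abs_nonneg (Real.log δ)
  have a4 : (0 : ℝ) ≤ 2 * Y₁ := by positivity
  have hK0 : 0 ≤ K := by rw [hK]; linarith
  have hK1' : 1 ≤ K := by rw [hK]; linarith
  have hKpos : 0 < K := by linarith
  have r1 : Reg K1 Q X₀ := hR.mono hK0 (by rw [hK]; linarith [le_abs_self K1])
  have r2 : Reg K2 Q X₀ := hR.mono hK0 (by rw [hK]; linarith [le_abs_self K2])
  have r3 : Reg K3 Q X₀ := hR.mono hK0 (by rw [hK]; linarith)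
  have r4 : Reg K4 Q X₀ := hR.mono hK0 (by rw [hK]; linarith)
  have r5 : Reg K5 Q X₀ := hR.mono hK0 (by rw [hK]; linarith)
  have hQpos : 0 < Q := hR.Q_pos hK1'
  have hQr : (0 : ℝ) < Q := by exact_mod_cast hQpos
  have hX0pos : 0 < X₀ := hR.X_pos hKpos
  have hX0r : (1 : ℝ) ≤ X₀ := by exact_mod_cast hX0pos
  set ℓ := Real.log X₀ with hℓd
  have hℓK : K ≤ ℓ := by
    have := hR.logX_ge hKpos
    have h' : K + 1 ≤ Real.exp K := Real.add_one_le_exp K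
    linarith
  have hℓ1 : 1 ≤ ℓ := by linarith
  have hXK : K ≤ (X₀ : ℝ) := hR.X_ge hKpos
  have hYY : Y₁ ≤ Y := by
    have : (Y₁ : ℝ) ≤ Y := by
      have : 2 * (Y₁ : ℝ) ≤ K := by rw [hK]; linarith
      linarith
    exact_mod_cast this
  obtain ⟨b1, b2, b3⟩ := hY₁ Y hYY
  have hY3 : (3 : ℝ) ≤ Y := by exact_mod_cast (hY₁3.trans hYY)
  have hYpos : (0 : ℝ) < Y := by linarith
  set L := Real.log Y with hLd
  have hL1 : 1 ≤ L := by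
    rw [hLd, Real.le_log_iff_exp_le hYpos]
    linarith [Real.exp_one_lt_d9]
  have hLℓ : L ≤ 2 * ℓ := by
    have e1 : Real.log (δ * Y) ≤ ℓ := Real.log_le_log (by positivity) hX1
    rw [Real.log_mul hδ.ne' hYpos.ne'] at e1
    have e2 : |Real.log δ| ≤ K := by rw [hK]; linarith
    have e3 := neg_abs_le (Real.log δ)
    linarith
  set X := argCount G Y with hXd
  have hXr : (1 : ℝ) ≤ X := by exact_mod_cast b1
  have hlogX : 1 + Real.log X ≤ 4 * ℓ := by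
    have e1 : Real.log X ≤ Real.log (2 * Y) := Real.log_le_log (by linarith) b3
    rw [Real.log_mul (by norm_num) hYpos.ne'] at e1
    have e2 : Real.log 2 ≤ 1 := by linarith [Real.log_two_lt_d9]
    have e3 : 3 ≤ ℓ := by
      have : 3 ≤ K := by rw [hK]; linarith
      linarith
    linarith
  have hlogQ : Real.log Q ≤ ℓ := by
    have e1 := hR.logQ_le hK1'
    have e2 : 0 ≤ Real.log Q := Real.log_nonneg (by exact_mod_cast hQpos)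
    have e3 : 1 * Real.log Q ≤ K * Real.log Q := mul_le_mul_of_nonneg_right hK1' e2
    linarith
  have hQ2X : (Q : ℝ) ^ 2 ≤ X₀ := by
    have e1 := h5 Q X₀ r5
    rw [one_mul, Real.rpow_one] at e1
    exact_mod_cast e1
  -- the function `u`
  set u := DE1_u Q X₀ b with hu
  have husupp : ∀ m, m ∉ Icc (1 : ℤ) (4 * X₀ : ℕ) → u m = 0 := fun m hm =>
    DE1_supp Q X₀ b hb hX0pos m hm
  have hE := DE1_sq hb hX0pos hQpos hℓ1 hQ2X hlogQ (fun m hm hm4 => hst Q X₀ r1 hG m hm hm4)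
  have hS0 : (0 : ℝ) ≤ X₀ * (Q : ℝ) ^ (-(1 / 4) : ℝ) := by positivity
  have hS := DE1_four Q X₀ b hb hX0pos _ hS0 (fun θ a b ha hb => hfs Q X₀ r2 θ a b ha hb)
  have hE0 : 0 < 10 ^ 6 * (X₀ : ℝ) * ℓ ^ 7 := by positivity
  have hv := hvdc u (4 * X₀) husupp _ _ hE0 hE hS0 hS X b1
  have hcs := DE1_cs u (4 * X₀) husupp X Y A hA f hf (fun n => G.eval (n : ℤ))
  have hsum : ∑ N ∈ Icc 1 Y, |∑ n ∈ A.filter (fun n : ℕ => (X₀ : ℤ) ≤ (N : ℤ) - G.eval (n : ℤ) ∧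
      (N : ℤ) - G.eval (n : ℤ) < b), f n * (lp ((N : ℤ) - G.eval (n : ℤ)) -
        Lk Q (X₀ / Q ^ 2) ((N : ℤ) - G.eval (n : ℤ)))| =
      ∑ N ∈ Icc 1 Y, |∑ n ∈ A, f n * u ((N : ℤ) - G.eval (n : ℤ))| := by
    refine sum_congr rfl fun N _ => ?_
    rw [DE1_filter]
  rw [hsum]
  have hqq : ((Q : ℝ) ^ ((1 : ℝ) / 4))⁻¹ = (Q : ℝ) ^ (-(1 / 4) : ℝ) := by
    rw [← Real.rpow_neg hQr.le]
  have hnum := DE1_num k T hk hT1 Cv c₁ B Y X X₀ ((Q : ℝ) ^ ((1 : ℝ) / 4)) ℓ L hCv hc₁ hXr hX0r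
    hX2 hℓ1 hL1 hLℓ (by positivity) hlogX b2 (by
      have e1 := h3 Q X₀ r3
      rw [Real.rpow_one, Real.rpow_mul hQr.le, Real.rpow_natCast] at e1
      exact e1) (h4 Q X₀ r4)
  rw [hqq] at hnum
  have hTc : ((2 : ℝ) ^ (k - 1)) = ((T : ℕ) : ℝ) := by rw [hT]; push_cast; rfl
  rw [hTc] at hv
  have hLB : 0 < L ^ B := Real.rpow_pos_of_pos (by linarith) _
  rw [le_div_iff₀ hLB]
  refine le_of_sq_le_sq ?_ (by positivity)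
  rw [mul_pow, ← Real.rpow_natCast (L ^ B) 2, ← Real.rpow_mul (by linarith)]
  have hcast : B * ((2 : ℕ) : ℝ) = 2 * B := by push_cast; ring
  rw [hcast]
  have hD := hcs.trans (mul_le_mul_of_nonneg_left hv hYpos.le)
  have hL2B : 0 ≤ L ^ (2 * B) := Real.rpow_nonneg (by linarith) _
  refine (mul_le_mul_of_nonneg_right hD hL2B).trans ?_
  refine le_trans (le_of_eq ?_) (mul_le_mul_of_nonneg_left hnum
    (by positivity : (0 : ℝ) ≤ Y * X ^ 2)) |>.trans (le_of_eq ?_)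
  · ring
  · ring

end Pool.Agent.Lib.H33B
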