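import Pool.Agent.Lib.H33B.DE1

/-!
# Chunk DE2: primes against the Ramanujan model at the values `N - G(n)`
-/

open Finset Polynomial

namespace Pool.Agent.Lib.H33B

open Pool.Agent.Lib.H59 (argCount)
open Pool.Agent.Lib.H68T (lp Lk Reg Good)

theorem DE2_mom {Q X₀ : ℕ} (hX0 : 1 ≤ X₀) (hQ : 1 ≤ Q) (hℓ : 1 ≤ Real.log X₀)
    (hQX : (Q : ℝ) ^ 2 ≤ X₀) (hlQ : Real.log Q ≤ Real.log X₀) :
    ∑ m ∈ Ico (X₀ : ℤ) (4 * X₀), (Pool.Agent.Lib.H68T.dQ Q m) ^ 2 ≤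
      25 * X₀ * (Real.log X₀) ^ 3 := by
  set ℓ := Real.log X₀ with hℓd
  have hX0r : (1 : ℝ) ≤ X₀ := by exact_mod_cast hX0
  have hlQ0 : 0 ≤ Real.log Q := Real.log_nonneg (by exact_mod_cast hQ)
  have hmom : ∑ m ∈ Ico (X₀ : ℤ) (4 * X₀), (Pool.Agent.Lib.H68T.dQ Q m) ^ 2 ≤
      3 * X₀ * (1 + ℓ) ^ 3 + X₀ := by
    have h1 := Pool.Agent.Lib.H68T.dQ_moment Q (3 * X₀) 1 0 X₀ one_pos (Nat.coprime_one_right 0)
    have h2 : ∑ m ∈ Ico (X₀ : ℤ) (4 * X₀), (Pool.Agent.Lib.H68T.dQ Q m) ^ 2 =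
        ∑ c ∈ range (3 * X₀), (Pool.Agent.Lib.H68T.dQ Q (((0 : ℕ) : ℤ) + (1 : ℕ) *
          (X₀ + c : ℕ))) ^ 2 := by
      symm
      refine sum_bij' (fun c _ => ((X₀ + c : ℕ) : ℤ)) (fun m _ => (m - X₀).toNat) ?_ ?_ ?_ ?_ ?_
      · intro c hc
        rw [mem_range] at hc
        rw [mem_Ico]
        push_cast
        omega
      · intro m hm
        rw [mem_Ico] at hm
        rw [mem_range]
        omega
      · intro c hc
        simp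
      · intro m hm
        rw [mem_Ico] at hm
        push_cast
        omega
      · intro c hc
        simp
    rw [h2]
    refine h1.trans ?_
    have h3 : (1 + Real.log Q) ^ 3 ≤ (1 + ℓ) ^ 3 := by
      apply pow_le_pow_left₀ (by linarith); linarith
    push_cast
    have h4 : 3 * (X₀ : ℝ) * (1 + Real.log Q) ^ 3 ≤ 3 * X₀ * (1 + ℓ) ^ 3 :=
      mul_le_mul_of_nonneg_left h3 (by positivity)
    linarith
  refine hmom.trans ?_
  have k1 : (1 + ℓ) ≤ 2 * ℓ := by linarith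
  have k2 : (1 + ℓ) ^ 3 ≤ (2 * ℓ) ^ 3 := pow_le_pow_left₀ (by linarith) k1 3
  have k6 : (1 : ℝ) ≤ ℓ ^ 3 := one_le_pow₀ hℓ
  have : 3 * (X₀ : ℝ) * (1 + ℓ) ^ 3 ≤ 3 * X₀ * (2 * ℓ) ^ 3 :=
    mul_le_mul_of_nonneg_left k2 (by positivity)
  nlinarith

/-- `lp - G_Q = (lp - Lk) + (Lk - G_Q)`; the first part is `dec_u2` (with `B + 1`). For the second,
`|Lk - G_Q| ≤ (log X₀)^(-B-9) dQ` on `[X₀, 4X₀]` (`H68T.structured`), and
`∑_N |∑_n f(n) (Lk - G_Q)(N - G(n))| ≤ ∑_{n ≤ X} ∑_{X₀ ≤ m < 4X₀} (log X₀)^(-B-9) dQ(m)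
≤ X (log X₀)^(-B-9) (3X₀ (1+log Q)³ + Q²)` (`dQ ≤ dQ²`, `H68T.dQ_moment`), and `X₀ ≤ 2Y`, `log Q ≤ log X₀`,
`log Y ≤ 2 log X₀`. -/
theorem dec (G : ℤ[X]) (hk : 1 ≤ G.natDegree) (hl : 0 < G.leadingCoeff) (c : ℝ) (hc : 0 < c)
    (B δ : ℝ) (hδ : 0 < δ) : ∃ K : ℝ, ∀ Y Q X₀ : ℕ, Reg K Q X₀ → Good c Q → δ * Y ≤ X₀ →
    (X₀ : ℝ) ≤ 2 * Y → ∀ b : ℤ, b ≤ 4 * X₀ → ∀ f : ℕ → ℝ, (∀ n, |f n| ≤ 1) →
    ∀ A ⊆ Icc 1 (argCount G Y),
    ∑ N ∈ Icc 1 Y, |∑ n ∈ A.filter (fun n : ℕ => (X₀ : ℤ) ≤ (N : ℤ) - G.eval (n : ℤ) ∧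
      (N : ℤ) - G.eval (n : ℤ) < b), f n * (lp ((N : ℤ) - G.eval (n : ℤ)) -
        Pool.Agent.Lib.H68T.G Q ((N : ℤ) - G.eval (n : ℤ)))| ≤
      Y * argCount G Y / (Real.log Y) ^ B := by
  obtain ⟨K0, hK0'⟩ := dec_u2 G hk hl c hc (B + 1) δ hδ
  obtain ⟨K1, hst⟩ := Pool.Agent.Lib.H68T.structured c hc (|B| + 4)
  obtain ⟨K5, hK5, h5⟩ := Pool.Agent.Lib.H68T.reg_pow_le 1 2 1 one_pos
  refine ⟨|K0| + |K1| + K5 + |Real.log δ| + 100 * 2 ^ |B| + 50,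
    fun Y Q X₀ hR hG hX1 hX2 b hb f hf A hA => ?_⟩
  set K := |K0| + |K1| + K5 + |Real.log δ| + 100 * 2 ^ |B| + 50 with hK
  have a1 := abs_nonneg K1
  have a2 := abs_nonneg K0
  have a3 := abs_nonneg (Real.log δ)
  have a4 : (0 : ℝ) ≤ 100 * 2 ^ |B| := by positivity
  have hK0 : 0 ≤ K := by rw [hK]; linarith
  have hK1' : 1 ≤ K := by rw [hK]; linarith
  have hKpos : 0 < K := by linarith
  have r0 : Reg K0 Q X₀ := hR.mono hK0 (by rw [hK]; linarith [le_abs_self K0])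
  have r1 : Reg K1 Q X₀ := hR.mono hK0 (by rw [hK]; linarith [le_abs_self K1])
  have r5 : Reg K5 Q X₀ := hR.mono hK0 (by rw [hK]; linarith)
  have hQpos : 0 < Q := hR.Q_pos hK1'
  have hX0pos : 0 < X₀ := hR.X_pos hKpos
  have hX0r : (1 : ℝ) ≤ X₀ := by exact_mod_cast hX0pos
  set ℓ := Real.log X₀ with hℓd
  have hℓK : K ≤ ℓ := by
    have := hR.logX_ge hKpos
    have h' : K + 1 ≤ Real.exp K := Real.add_one_le_exp K
    linarith
  have hℓ1 : 1 ≤ ℓ := by linarith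
  have hXK : K ≤ (X₀ : ℝ) := hR.X_ge hKpos
  have hY3 : (25 : ℝ) ≤ Y := by
    have : 50 ≤ K := by rw [hK]; linarith
    linarith
  have hYpos : (0 : ℝ) < Y := by linarith
  set L := Real.log Y with hLd
  have hL2 : 2 ≤ L := by
    rw [hLd, Real.le_log_iff_exp_le hYpos]
    have : Real.exp 2 = Real.exp 1 * Real.exp 1 := by rw [← Real.exp_add]; norm_num
    rw [this]
    nlinarith [Real.exp_one_lt_d9, Real.exp_pos 1]
  have hLℓ : L ≤ 2 * ℓ := by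
    have e1 : Real.log (δ * Y) ≤ ℓ := Real.log_le_log (by positivity) hX1
    rw [Real.log_mul hδ.ne' hYpos.ne'] at e1
    have e2 : |Real.log δ| ≤ K := by rw [hK]; linarith
    have e3 := neg_abs_le (Real.log δ)
    linarith
  set X := argCount G Y with hXd
  have hlogQ : Real.log Q ≤ ℓ := by
    have e1 := hR.logQ_le hK1'
    have e2 : 0 ≤ Real.log Q := Real.log_nonneg (by exact_mod_cast hQpos)
    have e3 : 1 * Real.log Q ≤ K * Real.log Q := mul_le_mul_of_nonneg_right hK1' e2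
    linarith
  have hQ2X : (Q : ℝ) ^ 2 ≤ X₀ := by
    have e1 := h5 Q X₀ r5
    rw [one_mul, Real.rpow_one] at e1
    exact_mod_cast e1
  have hmom := DE2_mom hX0pos hQpos hℓ1 hQ2X hlogQ
  have hfirst := hK0' Y Q X₀ r0 hG hX1 hX2 b hb f hf A hA
  -- the second part
  have hdQ0 : ∀ m, 0 ≤ Pool.Agent.Lib.H68T.dQ Q m := fun m => by
    unfold Pool.Agent.Lib.H68T.dQ; positivity
  have hdQ1 : ∀ m, Pool.Agent.Lib.H68T.dQ Q m ≤ Pool.Agent.Lib.H68T.dQ Q m ^ 2 := fun m => by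
    have := Pool.Agent.Lib.H68T.one_le_dQ Q hQpos m
    nlinarith
  have hℓA : 0 ≤ ℓ ^ (-(|B| + 4)) := Real.rpow_nonneg (by linarith) _
  have hsecond : ∑ N ∈ Icc 1 Y, |∑ n ∈ A.filter (fun n : ℕ =>
      (X₀ : ℤ) ≤ (N : ℤ) - G.eval (n : ℤ) ∧ (N : ℤ) - G.eval (n : ℤ) < b), f n *
        (Lk Q (X₀ / Q ^ 2) ((N : ℤ) - G.eval (n : ℤ)) -
        Pool.Agent.Lib.H68T.G Q ((N : ℤ) - G.eval (n : ℤ)))| ≤
      X * (ℓ ^ (-(|B| + 4)) * (25 * X₀ * ℓ ^ 3)) := by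
    have h1 : ∀ N ∈ Icc 1 Y, |∑ n ∈ A.filter (fun n : ℕ =>
        (X₀ : ℤ) ≤ (N : ℤ) - G.eval (n : ℤ) ∧ (N : ℤ) - G.eval (n : ℤ) < b), f n *
          (Lk Q (X₀ / Q ^ 2) ((N : ℤ) - G.eval (n : ℤ)) -
          Pool.Agent.Lib.H68T.G Q ((N : ℤ) - G.eval (n : ℤ)))| ≤
        ∑ n ∈ Icc 1 X, (if (X₀ : ℤ) ≤ (N : ℤ) - G.eval (n : ℤ) ∧
          (N : ℤ) - G.eval (n : ℤ) < 4 * X₀ then
          ℓ ^ (-(|B| + 4)) * Pool.Agent.Lib.H68T.dQ Q ((N : ℤ) - G.eval (n : ℤ)) else 0) := by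
      intro N _
      refine (abs_sum_le_sum_abs _ _).trans ?_
      rw [sum_filter]
      refine (sum_le_sum_of_subset_of_nonneg hA ?_).trans (sum_le_sum ?_)
      · intro n _ _
        split_ifs
        · exact abs_nonneg _
        · exact le_rfl
      · intro n _
        by_cases h : (X₀ : ℤ) ≤ (N : ℤ) - G.eval (n : ℤ) ∧ (N : ℤ) - G.eval (n : ℤ) < b
        · rw [if_pos h, if_pos ⟨h.1, by omega⟩, abs_mul]
          have e1 := hst Q X₀ r1 hG _ h.1 (by omega)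
          have e2 := hf n
          calc |f n| * _ ≤ 1 * _ := mul_le_mul e2 e1 (abs_nonneg _) zero_le_one
            _ = _ := one_mul _
        · rw [if_neg h]
          split_ifs
          · exact mul_nonneg hℓA (hdQ0 _)
          · exact le_rfl
    refine (sum_le_sum h1).trans ?_
    rw [sum_comm]
    have h2 : ∀ n ∈ Icc 1 X, ∑ N ∈ Icc 1 Y, (if (X₀ : ℤ) ≤ (N : ℤ) - G.eval (n : ℤ) ∧
          (N : ℤ) - G.eval (n : ℤ) < 4 * X₀ then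
          ℓ ^ (-(|B| + 4)) * Pool.Agent.Lib.H68T.dQ Q ((N : ℤ) - G.eval (n : ℤ)) else 0) ≤
        ℓ ^ (-(|B| + 4)) * (25 * X₀ * ℓ ^ 3) := by
      intro n _
      rw [← sum_filter]
      have e1 : ∑ N ∈ (Icc 1 Y).filter (fun N : ℕ => (X₀ : ℤ) ≤ (N : ℤ) - G.eval (n : ℤ) ∧
          (N : ℤ) - G.eval (n : ℤ) < 4 * X₀), ℓ ^ (-(|B| + 4)) *
            Pool.Agent.Lib.H68T.dQ Q ((N : ℤ) - G.eval (n : ℤ)) =
          ∑ m ∈ ((Icc 1 Y).filter (fun N : ℕ => (X₀ : ℤ) ≤ (N : ℤ) - G.eval (n : ℤ) ∧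
          (N : ℤ) - G.eval (n : ℤ) < 4 * X₀)).image (fun N : ℕ => (N : ℤ) - G.eval (n : ℤ)),
            ℓ ^ (-(|B| + 4)) * Pool.Agent.Lib.H68T.dQ Q m := by
        rw [sum_image]
        intro a _ b _ h
        have h' : (a : ℤ) - G.eval (n : ℤ) = (b : ℤ) - G.eval (n : ℤ) := h
        have : (a : ℤ) = b := by linarith
        exact_mod_cast this
      rw [e1]
      calc _ ≤ ∑ m ∈ Ico (X₀ : ℤ) (4 * X₀), ℓ ^ (-(|B| + 4)) *
            Pool.Agent.Lib.H68T.dQ Q m := by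
            refine sum_le_sum_of_subset_of_nonneg ?_ (fun m _ _ => mul_nonneg hℓA (hdQ0 m))
            intro m hm
            rw [mem_image] at hm
            obtain ⟨N, hN, rfl⟩ := hm
            rw [mem_filter] at hN
            rw [mem_Ico]
            exact hN.2
        _ ≤ ∑ m ∈ Ico (X₀ : ℤ) (4 * X₀), ℓ ^ (-(|B| + 4)) *
            Pool.Agent.Lib.H68T.dQ Q m ^ 2 :=
            sum_le_sum fun m _ => mul_le_mul_of_nonneg_left (hdQ1 m) hℓA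
        _ = ℓ ^ (-(|B| + 4)) * ∑ m ∈ Ico (X₀ : ℤ) (4 * X₀),
            Pool.Agent.Lib.H68T.dQ Q m ^ 2 := by rw [mul_sum]
        _ ≤ _ := mul_le_mul_of_nonneg_left hmom hℓA
    refine (sum_le_sum h2).trans ?_
    rw [sum_const, Nat.card_Icc, nsmul_eq_mul, Nat.add_sub_cancel]
  -- combination
  have hsplit : ∀ N ∈ Icc 1 Y, |∑ n ∈ A.filter (fun n : ℕ =>
      (X₀ : ℤ) ≤ (N : ℤ) - G.eval (n : ℤ) ∧ (N : ℤ) - G.eval (n : ℤ) < b), f n *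
        (lp ((N : ℤ) - G.eval (n : ℤ)) -
        Pool.Agent.Lib.H68T.G Q ((N : ℤ) - G.eval (n : ℤ)))| ≤
      |∑ n ∈ A.filter (fun n : ℕ =>
      (X₀ : ℤ) ≤ (N : ℤ) - G.eval (n : ℤ) ∧ (N : ℤ) - G.eval (n : ℤ) < b), f n *
        (lp ((N : ℤ) - G.eval (n : ℤ)) - Lk Q (X₀ / Q ^ 2) ((N : ℤ) - G.eval (n : ℤ)))| +
      |∑ n ∈ A.filter (fun n : ℕ =>
      (X₀ : ℤ) ≤ (N : ℤ) - G.eval (n : ℤ) ∧ (N : ℤ) - G.eval (n : ℤ) < b), f n *
        (Lk Q (X₀ / Q ^ 2) ((N : ℤ) - G.eval (n : ℤ)) -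
        Pool.Agent.Lib.H68T.G Q ((N : ℤ) - G.eval (n : ℤ)))| := by
    intro N _
    refine le_trans (le_of_eq ?_) (abs_add_le _ _)
    congr 1
    rw [← sum_add_distrib]
    refine sum_congr rfl fun n _ => ?_
    ring
  refine (sum_le_sum hsplit).trans ?_
  rw [sum_add_distrib]
  refine (add_le_add hfirst hsecond).trans ?_
  have hLB : 0 < L ^ B := Real.rpow_pos_of_pos (by linarith) _
  have p1 : (Y : ℝ) * X / L ^ (B + 1) ≤ (1 / 2) * (Y * X / L ^ B) := by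
    rw [Real.rpow_add (by linarith), Real.rpow_one]
    rw [div_le_iff₀ (by positivity)]
    have e1 : 1 / 2 * (Y * X / L ^ B) * (L ^ B * L) = (Y * X) * (L / 2) := by
      field_simp
    rw [e1]
    have : (0 : ℝ) ≤ Y * X := by positivity
    nlinarith
  have p2 : X * (ℓ ^ (-(|B| + 4)) * (25 * X₀ * ℓ ^ 3)) ≤ (1 / 2) * (Y * X / L ^ B) := by
    have hLB2 : L ^ B ≤ 2 ^ |B| * ℓ ^ |B| := by
      calc L ^ B ≤ L ^ |B| := Real.rpow_le_rpow_of_exponent_le (by linarith) (le_abs_self B)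
        _ ≤ (2 * ℓ) ^ |B| := Real.rpow_le_rpow (by linarith) hLℓ (abs_nonneg B)
        _ = _ := Real.mul_rpow (by norm_num) (by linarith)
    have e0 : ℓ ^ (-(|B| + 4)) * ℓ ^ 3 * ℓ ^ |B| = ℓ⁻¹ := by
      rw [← Real.rpow_natCast ℓ 3, ← Real.rpow_add (by linarith), ← Real.rpow_add (by linarith),
        ← Real.rpow_neg_one]
      congr 1
      push_cast
      ring
    rw [← mul_div_assoc, le_div_iff₀ hLB]
    calc X * (ℓ ^ (-(|B| + 4)) * (25 * X₀ * ℓ ^ 3)) * L ^ B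
        ≤ X * (ℓ ^ (-(|B| + 4)) * (25 * X₀ * ℓ ^ 3)) * (2 ^ |B| * ℓ ^ |B|) :=
          mul_le_mul_of_nonneg_left hLB2 (by positivity)
      _ = X * (25 * X₀ * 2 ^ |B|) * (ℓ ^ (-(|B| + 4)) * ℓ ^ 3 * ℓ ^ |B|) := by ring
      _ = X * X₀ * ((25 * 2 ^ |B|) * ℓ⁻¹) := by rw [e0]; ring
      _ ≤ X * (2 * Y) * (1 / 4) := by
          apply mul_le_mul _ _ (by positivity) (by positivity)
          · exact mul_le_mul_of_nonneg_left hX2 (by positivity)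
          · rw [← div_eq_mul_inv, div_le_iff₀ (by linarith)]
            have : 100 * 2 ^ |B| ≤ ℓ := by
              have : 100 * 2 ^ |B| ≤ K := by rw [hK]; linarith
              linarith
            linarith
      _ = 1 / 2 * (Y * X) := by ring
  linarith

end Pool.Agent.Lib.H33B
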