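import Pool.Agent.Lib.H33B.Defs
import Pool.Agent.Lib.H68T.BA1
import Pool.Agent.Lib.H68T.CQ1

/-!
# Chunk LS2: a crude dual large sieve
-/

open Finset

namespace Pool.Agent.Lib.H33B

open Pool.Agent.Lib.H68T (cq e)

theorem LS2_conj (x : ℝ) : (starRingEnd ℂ) (e x) = e (-x) := by
  unfold Pool.Agent.Lib.H68T.e
  rw [← Complex.exp_conj]
  congr 1
  simp only [map_mul, Complex.conj_I, Complex.conj_ofReal, map_ofNat]
  push_cast
  ring

/-- Duality with a bound for the off-diagonal kernel. -/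
theorem LS2_gen {ι : Type*} [DecidableEq ι] (T : Finset ι) (c : ι → ℂ) (θ : ι → ℝ) (B : ℝ)
    (hB : 0 ≤ B) (N₀ : ℤ) (H : ℕ)
    (hsep : ∀ x ∈ T, ∀ y ∈ T, x ≠ y →
      ‖∑ N ∈ Ico N₀ (N₀ + H), e ((N : ℝ) * (θ x - θ y))‖ ≤ B) :
    ∑ N ∈ Ico N₀ (N₀ + H), ‖∑ x ∈ T, c x * e ((N : ℝ) * θ x)‖ ^ 2 ≤
      (H + B * T.card) * ∑ x ∈ T, ‖c x‖ ^ 2 := by
  have h1 : ((∑ N ∈ Ico N₀ (N₀ + H), ‖∑ x ∈ T, c x * e ((N : ℝ) * θ x)‖ ^ 2 : ℝ) : ℂ) =
      ∑ x ∈ T, ∑ y ∈ T, c x * (starRingEnd ℂ) (c y) *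
        ∑ N ∈ Ico N₀ (N₀ + H), e ((N : ℝ) * (θ x - θ y)) := by
    rw [Complex.ofReal_sum]
    have h2 : ∀ N ∈ Ico N₀ (N₀ + H), ((‖∑ x ∈ T, c x * e ((N : ℝ) * θ x)‖ ^ 2 : ℝ) : ℂ) =
        ∑ x ∈ T, ∑ y ∈ T, c x * (starRingEnd ℂ) (c y) * e ((N : ℝ) * (θ x - θ y)) := by
      intro N _
      rw [Complex.ofReal_pow, ← Complex.mul_conj', map_sum, sum_mul_sum]
      refine sum_congr rfl fun x _ => sum_congr rfl fun y _ => ?_
      rw [map_mul, LS2_conj, mul_sub, sub_eq_add_neg, Pool.Agent.Lib.H68T.BA1_e_add]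
      ring
    rw [sum_congr rfl h2, sum_comm]
    refine sum_congr rfl fun x _ => ?_
    rw [sum_comm]
    refine sum_congr rfl fun y _ => ?_
    rw [mul_sum]
  have h3 : ∑ N ∈ Ico N₀ (N₀ + H), ‖∑ x ∈ T, c x * e ((N : ℝ) * θ x)‖ ^ 2 =
      ‖((∑ N ∈ Ico N₀ (N₀ + H), ‖∑ x ∈ T, c x * e ((N : ℝ) * θ x)‖ ^ 2 : ℝ) : ℂ)‖ := by
    rw [Complex.norm_real, Real.norm_of_nonneg]
    exact sum_nonneg fun N _ => by positivity
  rw [h3, h1]
  have h4 : ∀ x ∈ T, ∀ y ∈ T, ‖c x * (starRingEnd ℂ) (c y) *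
      ∑ N ∈ Ico N₀ (N₀ + H), e ((N : ℝ) * (θ x - θ y))‖ ≤
      ‖c x‖ * ‖c y‖ * ((if x = y then (H : ℝ) else 0) + B) := by
    intro x hx y hy
    rw [norm_mul, norm_mul, RCLike.norm_conj]
    refine mul_le_mul_of_nonneg_left ?_ (by positivity)
    split_ifs with h
    · refine (norm_sum_le _ _).trans ?_
      have h5 : ∀ N ∈ Ico N₀ (N₀ + H), ‖e ((N : ℝ) * (θ x - θ y))‖ = 1 := fun N _ =>
        Pool.Agent.Lib.H68T.BA1_norm_e _
      rw [sum_congr rfl h5, sum_const, nsmul_eq_mul, Int.card_Ico]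
      simp only [add_sub_cancel_left, Int.toNat_natCast, mul_one]
      linarith
    · rw [zero_add]
      exact hsep x hx y hy h
  calc ‖∑ x ∈ T, ∑ y ∈ T, c x * (starRingEnd ℂ) (c y) *
        ∑ N ∈ Ico N₀ (N₀ + H), e ((N : ℝ) * (θ x - θ y))‖
      ≤ ∑ x ∈ T, ∑ y ∈ T, ‖c x‖ * ‖c y‖ * ((if x = y then (H : ℝ) else 0) + B) := by
        refine (norm_sum_le _ _).trans (sum_le_sum fun x hx => ?_)
        exact (norm_sum_le _ _).trans (sum_le_sum fun y hy => h4 x hx y hy)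
    _ = H * ∑ x ∈ T, ‖c x‖ ^ 2 + B * (∑ x ∈ T, ‖c x‖) ^ 2 := by
        have h5 : ∀ x ∈ T, ∑ y ∈ T, ‖c x‖ * ‖c y‖ * ((if x = y then (H : ℝ) else 0) + B) =
            H * ‖c x‖ ^ 2 + B * (‖c x‖ * ∑ y ∈ T, ‖c y‖) := by
          intro x hx
          have h6 : ∀ y ∈ T, ‖c x‖ * ‖c y‖ * ((if x = y then (H : ℝ) else 0) + B) =
              (if x = y then ‖c x‖ * ‖c y‖ * H else 0) + B * (‖c x‖ * ‖c y‖) := by
            intro y _
            split_ifs <;> ring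
          rw [sum_congr rfl h6, sum_add_distrib, sum_ite_eq T x, if_pos hx, ← mul_sum, ← mul_sum]
          ring
        rw [sum_congr rfl h5, sum_add_distrib, ← mul_sum, ← mul_sum, ← sum_mul]
        ring
    _ ≤ H * ∑ x ∈ T, ‖c x‖ ^ 2 + B * (T.card * ∑ x ∈ T, ‖c x‖ ^ 2) := by
        have := sq_sum_le_card_mul_sum_sq (s := T) (f := fun x => ‖c x‖)
        gcongr
    _ = _ := by ring

theorem LS2_sin (k : ℤ) (n Q : ℕ) (hn : 0 < n) (hk : k ≠ 0) (hkn : |k| < n) (hQ : n ≤ Q ^ 2) :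
    2 / (Q : ℝ) ^ 2 ≤ ‖e ((k : ℝ) / n) - 1‖ := by
  have hn0 : (0 : ℝ) < n := by exact_mod_cast hn
  have hk1 : (1 : ℝ) ≤ |(k : ℝ)| := by
    have h1 : 1 ≤ |k| := Int.one_le_abs hk
    exact_mod_cast h1
  have hk2 : |(k : ℝ)| ≤ n - 1 := by
    have h1 : |k| + 1 ≤ n := hkn
    have h2 : ((|k| + 1 : ℤ) : ℝ) ≤ ((n : ℤ) : ℝ) := by exact_mod_cast h1
    push_cast at h2
    linarith
  have hQ2 : (n : ℝ) ≤ (Q : ℝ) ^ 2 := by exact_mod_cast hQ
  have hQ0 : (0 : ℝ) < (Q : ℝ) ^ 2 := lt_of_lt_of_le hn0 hQ2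
  have e1 : ‖e ((k : ℝ) / n) - 1‖ = 2 * |Real.sin (Real.pi * (|(k : ℝ)| / n))| := by
    unfold Pool.Agent.Lib.H68T.e
    have h1 : 2 * (Real.pi : ℂ) * (((k : ℝ) / n : ℝ) : ℂ) * Complex.I =
        Complex.I * ((2 * Real.pi * ((k : ℝ) / n) : ℝ) : ℂ) := by
      push_cast
      ring
    rw [h1, Complex.norm_exp_I_mul_ofReal_sub_one, Real.norm_eq_abs, abs_mul,
      abs_of_pos (by norm_num : (0 : ℝ) < 2)]
    congr 1
    rw [show 2 * Real.pi * ((k : ℝ) / n) / 2 = Real.pi * ((k : ℝ) / n) by ring]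
    rcases abs_cases (k : ℝ) with ⟨h, _⟩ | ⟨h, _⟩
    · rw [h]
    · rw [h, neg_div, mul_neg, Real.sin_neg, abs_neg]
  rw [e1]
  set t : ℝ := |(k : ℝ)| / n with ht
  have ht1 : 1 / n ≤ t := div_le_div_of_nonneg_right hk1 hn0.le
  have ht2 : t ≤ 1 - 1 / n := by
    rw [ht, div_le_iff₀ hn0, sub_mul, one_div, inv_mul_cancel₀ hn0.ne']
    linarith
  have hnQ : 1 / (Q : ℝ) ^ 2 ≤ 1 / n := one_div_le_one_div_of_le hn0 hQ2
  have hn1 : 0 < 1 / (n : ℝ) := by positivity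
  have hpi := Real.pi_pos
  have key : 1 / (n : ℝ) ≤ Real.sin (Real.pi * t) := by
    rcases le_total t (1 / 2) with h | h
    · have h2 := Real.mul_le_sin (x := Real.pi * t) (by positivity) (by nlinarith)
      have h3 : 2 / Real.pi * (Real.pi * t) = 2 * t := by field_simp
      rw [h3] at h2
      linarith
    · have h1 : Real.sin (Real.pi * t) = Real.sin (Real.pi * (1 - t)) := by
        rw [mul_sub, mul_one, Real.sin_pi_sub]
      rw [h1]
      have h2 := Real.mul_le_sin (x := Real.pi * (1 - t)) (by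
        have : 0 ≤ 1 - t := by linarith
        positivity) (by nlinarith)
      have h3 : 2 / Real.pi * (Real.pi * (1 - t)) = 2 * (1 - t) := by field_simp
      rw [h3] at h2
      linarith
  have h5 := le_abs_self (Real.sin (Real.pi * t))
  calc 2 / (Q : ℝ) ^ 2 = 2 * (1 / (Q : ℝ) ^ 2) := by ring
    _ ≤ 2 * |Real.sin (Real.pi * t)| := by linarith

theorem LS2_geom (x : ℝ) (b : ℝ) (hb : 0 < b) (hx : b ≤ ‖e x - 1‖) (N₀ : ℤ) (H : ℕ) :
    ‖∑ N ∈ Ico N₀ (N₀ + H), e ((N : ℝ) * x)‖ ≤ 2 / b := by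
  have hne : e x ≠ 1 := by
    intro h
    rw [h, sub_self, norm_zero] at hx
    linarith
  have h1 : ∑ N ∈ Ico N₀ (N₀ + H), e ((N : ℝ) * x) = ∑ j ∈ range H, e ((N₀ : ℝ) * x) * e x ^ j := by
    refine (sum_bij (fun (j : ℕ) _ => N₀ + (j : ℤ)) ?_ ?_ ?_ ?_).symm
    · intro j hj
      rw [mem_range] at hj
      rw [mem_Ico]
      omega
    · intro i _ j _ h
      omega
    · intro N hN
      rw [mem_Ico] at hN
      refine ⟨(N - N₀).toNat, ?_, ?_⟩
      · rw [mem_range]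
        omega
      · omega
    · intro j _
      rw [Pool.Agent.Lib.H68T.BA1_e_pow, ← Pool.Agent.Lib.H68T.BA1_e_add]
      congr 1
      push_cast
      ring
  rw [h1, ← mul_sum, geom_sum_eq hne, norm_mul, Pool.Agent.Lib.H68T.BA1_norm_e, one_mul, norm_div]
  have h2 : ‖e x ^ H - 1‖ ≤ 2 := by
    refine (norm_sub_le _ _).trans ?_
    rw [norm_pow, Pool.Agent.Lib.H68T.BA1_norm_e, one_pow, norm_one]
    norm_num
  exact div_le_div₀ (by norm_num) h2 hb hx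

theorem LS2_parseval (A : Finset ℕ) (f : ℕ → ℝ) (v : ℕ → ℤ) (q : ℕ) (hq : 0 < q) :
    ∑ a ∈ range q, ‖∑ n ∈ A, (f n : ℂ) * e (-((a : ℝ) * (v n : ℝ) / q))‖ ^ 2 =
      q * ∑ r ∈ range q, (∑ n ∈ A.filter (fun n : ℕ => (q : ℤ) ∣ v n - r), f n) ^ 2 := by
  have hq0 : (q : ℝ) ≠ 0 := by exact_mod_cast hq.ne'
  have h1 : ((∑ a ∈ range q, ‖∑ n ∈ A, (f n : ℂ) * e (-((a : ℝ) * (v n : ℝ) / q))‖ ^ 2 : ℝ) : ℂ) =
      ∑ n ∈ A, ∑ m ∈ A, (f n : ℂ) * (f m : ℂ) * (if (q : ℤ) ∣ v m - v n then (q : ℂ) else 0) := by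
    rw [Complex.ofReal_sum]
    have h2 : ∀ a ∈ range q,
        ((‖∑ n ∈ A, (f n : ℂ) * e (-((a : ℝ) * (v n : ℝ) / q))‖ ^ 2 : ℝ) : ℂ) =
        ∑ n ∈ A, ∑ m ∈ A, (f n : ℂ) * (f m : ℂ) * e ((a : ℝ) * (((v m - v n : ℤ) : ℝ) / q)) := by
      intro a _
      rw [Complex.ofReal_pow, ← Complex.mul_conj', map_sum, sum_mul_sum]
      refine sum_congr rfl fun n _ => sum_congr rfl fun m _ => ?_
      rw [map_mul, LS2_conj, Complex.conj_ofReal]
      have h3 : e ((a : ℝ) * (((v m - v n : ℤ) : ℝ) / q)) =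
          e (-((a : ℝ) * (v n : ℝ) / q)) * e (- -((a : ℝ) * (v m : ℝ) / q)) := by
        rw [← Pool.Agent.Lib.H68T.BA1_e_add]
        congr 1
        push_cast
        ring
      rw [h3]
      ring
    rw [sum_congr rfl h2, sum_comm]
    refine sum_congr rfl fun n _ => ?_
    rw [sum_comm]
    refine sum_congr rfl fun m _ => ?_
    rw [← mul_sum, Pool.Agent.Lib.H68T.BA1_detect q hq]
  have h4 : ((q * ∑ r ∈ range q, (∑ n ∈ A.filter (fun n : ℕ => (q : ℤ) ∣ v n - r), f n) ^ 2 : ℝ) : ℂ) =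
      ∑ n ∈ A, ∑ m ∈ A, (f n : ℂ) * (f m : ℂ) * (if (q : ℤ) ∣ v m - v n then (q : ℂ) else 0) := by
    have h5 : q * ∑ r ∈ range q, (∑ n ∈ A.filter (fun n : ℕ => (q : ℤ) ∣ v n - r), f n) ^ 2 =
        ∑ n ∈ A, ∑ m ∈ A, f n * f m * (if (q : ℤ) ∣ v m - v n then (q : ℝ) else 0) := by
      have h6 : ∀ r ∈ range q, (∑ n ∈ A.filter (fun n : ℕ => (q : ℤ) ∣ v n - r), f n) ^ 2 =
          ∑ n ∈ A, ∑ m ∈ A, f n * f m *
            (if (q : ℤ) ∣ v n - r ∧ (q : ℤ) ∣ v m - r then (1 : ℝ) else 0) := by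
        intro r _
        rw [sum_filter, pow_two, sum_mul_sum]
        refine sum_congr rfl fun n _ => sum_congr rfl fun m _ => ?_
        by_cases h7 : (q : ℤ) ∣ v n - r <;> by_cases h8 : (q : ℤ) ∣ v m - r <;> simp [h7, h8]
      rw [sum_congr rfl h6, sum_comm, mul_sum]
      refine sum_congr rfl fun n _ => ?_
      rw [sum_comm, mul_sum]
      refine sum_congr rfl fun m _ => ?_
      rw [← mul_sum]
      have h7 : ∑ r ∈ range q, (if (q : ℤ) ∣ v n - r ∧ (q : ℤ) ∣ v m - r then (1 : ℝ) else 0) =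
          if (q : ℤ) ∣ v m - v n then 1 else 0 := by
        have hr0 : (v n % q).toNat < q := by
          have h2 := Int.emod_lt_of_pos (v n) (by exact_mod_cast hq : (0 : ℤ) < q)
          have h3 := Int.emod_nonneg (v n) (by exact_mod_cast hq.ne' : (q : ℤ) ≠ 0)
          omega
        have hr1 : ∀ r ∈ range q, (q : ℤ) ∣ v n - r → r = (v n % q).toNat := by
          intro r hr h
          rw [mem_range] at hr
          have h4 : v n % q = (r : ℤ) % q :=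
            Int.emod_eq_emod_iff_emod_sub_eq_zero.mpr (Int.emod_eq_zero_of_dvd h)
          rw [h4, Int.emod_eq_of_lt (by positivity) (by exact_mod_cast hr)]
          simp
        have hr2 : (q : ℤ) ∣ v n - ((v n % q).toNat : ℕ) := by
          have h3 := Int.emod_nonneg (v n) (by exact_mod_cast hq.ne' : (q : ℤ) ≠ 0)
          rw [Int.toNat_of_nonneg h3]
          exact Int.dvd_self_sub_emod
        rw [sum_eq_single_of_mem (v n % q).toNat (mem_range.mpr hr0)]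
        · congr 1
          apply propext
          constructor
          · rintro ⟨_, h8⟩
            have := dvd_sub h8 hr2
            simpa using this
          · intro h8
            refine ⟨hr2, ?_⟩
            have := dvd_add h8 hr2
            simpa using this
        · intro r hr hne
          rw [if_neg]
          rintro ⟨h8, _⟩
          exact hne (hr1 r hr h8)
      rw [h7]
      split_ifs <;> ring
    rw [h5]
    push_cast
    refine sum_congr rfl fun n _ => sum_congr rfl fun m _ => ?_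
    split_ifs <;> simp
  exact_mod_cast h1.trans h4.symm

/-- Write `c_q(m) = ∑_{a mod q, (a,q)=1} e(a m/q)` (`H68T.cq_eq_sum`). The inner sum is
`∑_{θ = a/q, q ∈ S} c_θ e(N θ)`, `c_θ = a_q ∑_{n ∈ A} f(n) e(-θ v(n))`. There are at most `Q²` such
fractions `θ` in `[0,1)`, different ones differ by at least `1/Q²` modulo `1`, so
`|∑_{N ∈ [N₀,N₀+H)} e(N(θ-θ'))| ≤ Q²/2` for `θ ≠ θ'` and
`∑_N |∑_θ c_θ e(Nθ)|² ≤ H ∑ |c_θ|² + (Q²/2) (∑ |c_θ|)² ≤ (H + Q⁴) ∑ |c_θ|²`. Finally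
`∑_{a mod q} |∑_{n ∈ A} f(n) e(a v(n)/q)|² = q ∑_{r mod q} (∑_{n ∈ A, v(n) ≡ r} f(n))²` (orthogonality,
`H68T.BA1_detect`), and dropping the `a` not coprime to `q` only decreases the sum. -/
theorem dual_ls (Q : ℕ) (S : Finset ℕ) (hS : S ⊆ Icc 1 Q) (a : ℕ → ℝ) (A : Finset ℕ) (f : ℕ → ℝ)
    (v : ℕ → ℤ) (N₀ : ℤ) (H : ℕ) :
    ∑ N ∈ Ico N₀ (N₀ + H), (∑ n ∈ A, f n * ∑ q ∈ S, a q * cq q (N - v n)) ^ 2 ≤
      (H + (Q : ℝ) ^ 4) * ∑ q ∈ S, a q ^ 2 * (q * ∑ r ∈ range q,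
        (∑ n ∈ A.filter (fun n : ℕ => (q : ℤ) ∣ v n - r), f n) ^ 2) := by
  set T : Finset (Σ _ : ℕ, ℕ) := S.sigma (fun q => (range q).filter (fun b => Nat.Coprime b q)) with hT
  set g : (Σ _ : ℕ, ℕ) → ℂ := fun x =>
    ∑ n ∈ A, (f n : ℂ) * e (-((x.2 : ℝ) * (v n : ℝ) / x.1)) with hg
  set θ : (Σ _ : ℕ, ℕ) → ℝ := fun x => (x.2 : ℝ) / x.1 with hθ
  have hexp : ∀ N ∈ Ico N₀ (N₀ + H), (∑ n ∈ A, f n * ∑ q ∈ S, a q * cq q (N - v n)) ^ 2 =
      ‖∑ x ∈ T, ((a x.1 : ℂ) * g x) * e ((N : ℝ) * θ x)‖ ^ 2 := by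
    intro N _
    have h1 : ((∑ n ∈ A, f n * ∑ q ∈ S, a q * cq q (N - v n) : ℝ) : ℂ) =
        ∑ x ∈ T, ((a x.1 : ℂ) * g x) * e ((N : ℝ) * θ x) := by
      rw [hT, sum_sigma]
      push_cast
      simp only [mul_sum]
      rw [sum_comm]
      refine sum_congr rfl fun q hq => ?_
      have hq1 := mem_Icc.mp (hS hq)
      have h2 : ∀ n ∈ A, (f n : ℂ) * ((a q : ℂ) * (cq q (N - v n) : ℂ)) =
          ∑ b ∈ (range q).filter (fun b => Nat.Coprime b q),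
            (a q : ℂ) * ((f n : ℂ) * e (-((b : ℝ) * (v n : ℝ) / q))) * e ((N : ℝ) * ((b : ℝ) / q)) := by
        intro n _
        rw [Pool.Agent.Lib.H68T.cq_eq_sum q hq1.1, mul_sum, mul_sum]
        refine sum_congr rfl fun b _ => ?_
        have h3 : e ((b : ℝ) * ((N - v n : ℤ) : ℝ) / q) =
            e (-((b : ℝ) * (v n : ℝ) / q)) * e ((N : ℝ) * ((b : ℝ) / q)) := by
          rw [← Pool.Agent.Lib.H68T.BA1_e_add]
          congr 1
          push_cast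
          ring
        rw [h3]
        ring
      rw [sum_congr rfl h2, sum_comm]
      refine sum_congr rfl fun b _ => ?_
      rw [hg, hθ]
      simp only
      rw [mul_sum, sum_mul]
    rw [← h1, Complex.norm_real, Real.norm_eq_abs, sq_abs]
  rw [sum_congr rfl hexp]
  have hsep : ∀ x ∈ T, ∀ y ∈ T, x ≠ y →
      ‖∑ N ∈ Ico N₀ (N₀ + H), e ((N : ℝ) * (θ x - θ y))‖ ≤ (Q : ℝ) ^ 2 := by
    rintro ⟨q, b⟩ hx ⟨r, c⟩ hy hne
    rw [hT, mem_sigma, mem_filter, mem_range] at hx hy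
    simp only at hx hy
    obtain ⟨hq, hbq, hbc⟩ := hx
    obtain ⟨hr, hcr, hcc⟩ := hy
    have hq1 := mem_Icc.mp (hS hq)
    have hr1 := mem_Icc.mp (hS hr)
    have hq0 : (q : ℝ) ≠ 0 := by exact_mod_cast (by omega : q ≠ 0)
    have hr0 : (r : ℝ) ≠ 0 := by exact_mod_cast (by omega : r ≠ 0)
    set k : ℤ := (b : ℤ) * r - c * q with hk
    have e1 : θ ⟨q, b⟩ - θ ⟨r, c⟩ = (k : ℝ) / ((q * r : ℕ) : ℝ) := by
      rw [hθ, hk]
      push_cast
      field_simp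
    have hqr : 0 < q * r := Nat.mul_pos (by omega) (by omega)
    have hk0 : k ≠ 0 := by
      intro h
      rw [hk, sub_eq_zero] at h
      have h1 : b * r = c * q := by exact_mod_cast h
      have h2 : q ∣ r := by
        have : q ∣ b * r := ⟨c, by rw [h1]; ring⟩
        exact (Nat.Coprime.dvd_of_dvd_mul_left hbc.symm this)
      have h3 : r ∣ q := by
        have : r ∣ c * q := ⟨b, by rw [← h1]; ring⟩
        exact (Nat.Coprime.dvd_of_dvd_mul_left hcc.symm this)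
      have h4 : q = r := Nat.dvd_antisymm h2 h3
      subst h4
      have h5 : b = c := Nat.eq_of_mul_eq_mul_right (by omega) h1
      subst h5
      exact hne rfl
    have hk1 : |k| < ((q * r : ℕ) : ℤ) := by
      rw [abs_lt, hk]
      push_cast
      have hb1 : (b : ℤ) < q := by exact_mod_cast hbq
      have hc1 : (c : ℤ) < r := by exact_mod_cast hcr
      have hb0 : (0 : ℤ) ≤ b := by positivity
      have hc0 : (0 : ℤ) ≤ c := by positivity
      have hq2 : (0 : ℤ) < q := by exact_mod_cast hq1.1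
      have hr2 : (0 : ℤ) < r := by exact_mod_cast hr1.1
      constructor <;> nlinarith
    have hQ : q * r ≤ Q ^ 2 := by
      rw [pow_two]
      exact Nat.mul_le_mul hq1.2 hr1.2
    have hs := LS2_sin k (q * r) Q hqr hk0 hk1 hQ
    have hQ0 : (0 : ℝ) < (Q : ℝ) ^ 2 := by
      have : 0 < Q := by omega
      positivity
    have h2 := LS2_geom ((k : ℝ) / ((q * r : ℕ) : ℝ)) (2 / (Q : ℝ) ^ 2) (by positivity) hs N₀ H
    rw [e1]
    refine h2.trans (le_of_eq ?_)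
    field_simp
  have hmain := LS2_gen T (fun x => (a x.1 : ℂ) * g x) θ ((Q : ℝ) ^ 2) (by positivity) N₀ H hsep
  refine hmain.trans ?_
  have hcard : (T.card : ℝ) ≤ (Q : ℝ) ^ 2 := by
    have h1 : T.card ≤ Q ^ 2 := by
      rw [hT, card_sigma]
      calc ∑ q ∈ S, ((range q).filter (fun b => Nat.Coprime b q)).card ≤ ∑ q ∈ S, Q := by
            refine sum_le_sum fun q hq => ?_
            calc _ ≤ (range q).card := card_le_card (filter_subset _ _)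
              _ = q := card_range q
              _ ≤ Q := (mem_Icc.mp (hS hq)).2
        _ = S.card * Q := by rw [sum_const, smul_eq_mul]
        _ ≤ Q * Q := by
            refine Nat.mul_le_mul_right _ ?_
            calc S.card ≤ (Icc 1 Q).card := card_le_card hS
              _ = Q := by simp
        _ = Q ^ 2 := by ring
    exact_mod_cast h1
  have hpar : ∑ x ∈ T, ‖(a x.1 : ℂ) * g x‖ ^ 2 ≤ ∑ q ∈ S, a q ^ 2 * (q * ∑ r ∈ range q,
        (∑ n ∈ A.filter (fun n : ℕ => (q : ℤ) ∣ v n - r), f n) ^ 2) := by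
    rw [hT, sum_sigma]
    refine sum_le_sum fun q hq => ?_
    have hq1 := mem_Icc.mp (hS hq)
    rw [← LS2_parseval A f v q hq1.1, mul_sum]
    refine (sum_le_sum_of_subset_of_nonneg (filter_subset _ _) fun _ _ _ => by positivity).trans ?_
    refine le_of_eq (sum_congr rfl fun b _ => ?_)
    rw [norm_mul, mul_pow, Complex.norm_real, Real.norm_eq_abs, sq_abs]
  have hT0 : 0 ≤ ∑ x ∈ T, ‖(a x.1 : ℂ) * g x‖ ^ 2 := sum_nonneg fun _ _ => by positivity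
  have h9 : (H : ℝ) + (Q : ℝ) ^ 2 * T.card ≤ H + (Q : ℝ) ^ 4 := by
    have h10 : (Q : ℝ) ^ 2 * T.card ≤ (Q : ℝ) ^ 2 * (Q : ℝ) ^ 2 :=
      mul_le_mul_of_nonneg_left hcard (by positivity)
    nlinarith
  exact mul_le_mul h9 hpar hT0 (by positivity)

end Pool.Agent.Lib.H33B
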