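import Pool.Agent.Lib.H33B.LS1
import Pool.Agent.Lib.H33B.LS2
import Pool.Agent.Lib.H33B.LS3
import Pool.Agent.Lib.H33B.AC

/-!
# Chunk LS4: the Ramanujan model against the periodic model
-/

open Finset Polynomial

namespace Pool.Agent.Lib.H33B

open Pool.Agent.Lib.H59 (argCount)

theorem LS4_arg (G : ℤ[X]) (hk : 1 ≤ G.natDegree) (hl : 0 < G.leadingCoeff) :
    ∃ Y₁ : ℕ, 3 ≤ Y₁ ∧ ∀ Y : ℕ, Y₁ ≤ Y →
      Real.exp (Real.sqrt (Real.log Y)) ≤ (argCount G Y : ℝ) := by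
  have ha : (0 : ℝ) < (G.leadingCoeff : ℝ) := by exact_mod_cast hl
  set k := G.natDegree with hkd
  set c₁ := (G.leadingCoeff : ℝ)⁻¹ / 2 with hc₁
  have hc₁0 : 0 < c₁ := by positivity
  have h1 := argCount_pow G hk hl
  have h2 : ∀ᶠ Y : ℕ in Filter.atTop, c₁ <
      (argCount G Y : ℝ) ^ G.natDegree / Y := h1.eventually_const_lt (by
        have : 0 < (G.leadingCoeff : ℝ)⁻¹ := by positivity
        rw [hc₁]; linarith)
  have hlog : Filter.Tendsto (fun Y : ℕ => Real.log (Y : ℝ)) Filter.atTop Filter.atTop :=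
    Real.tendsto_log_atTop.comp tendsto_natCast_atTop_atTop
  have h3 := hlog.eventually_ge_atTop ((2 * k : ℝ) ^ 2)
  have h4 := hlog.eventually_ge_atTop (2 * |Real.log c₁|)
  obtain ⟨Y₀, hY₀⟩ := Filter.eventually_atTop.1 (h2.and (h3.and h4))
  refine ⟨max Y₀ 3, le_max_right _ _, fun Y hY => ?_⟩
  obtain ⟨a1, a2, a3⟩ := hY₀ Y ((le_max_left _ _).trans hY)
  have hY3 : 3 ≤ Y := (le_max_right _ _).trans hY
  have hYr : (0 : ℝ) < Y := by
    have : (3 : ℝ) ≤ Y := by exact_mod_cast hY3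
    linarith
  rw [lt_div_iff₀ hYr] at a1
  set L := Real.log Y with hL
  have hL0 : 0 ≤ L := le_trans (by positivity) a2
  have hs : (2 * k : ℝ) ≤ Real.sqrt L := by
    rw [Real.le_sqrt (by positivity) hL0]; exact a2
  have hss : Real.sqrt L * Real.sqrt L = L := Real.mul_self_sqrt hL0
  have hs0 := Real.sqrt_nonneg L
  have e1 : (k : ℝ) * Real.sqrt L ≤ L / 2 := by nlinarith
  have e2 : -(L / 2) ≤ Real.log c₁ := by linarith [neg_abs_le (Real.log c₁)]
  have e3 : Real.exp (k * Real.sqrt L) ≤ c₁ * Y := by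
    calc Real.exp (k * Real.sqrt L) ≤ Real.exp (Real.log c₁ + L) :=
          Real.exp_le_exp.mpr (by linarith)
      _ = c₁ * Y := by rw [Real.exp_add, Real.exp_log hc₁0, hL, Real.exp_log hYr]
  have e4 : Real.exp (Real.sqrt L) ^ k ≤ (argCount G Y : ℝ) ^ k := by
    rw [← Real.exp_nat_mul]
    linarith
  exact (pow_le_pow_iff_left₀ (Real.exp_pos _).le (by positivity) (by omega)).mp e4

theorem LS4_ge {w q : ℕ} (hq : Squarefree q) (h : ¬ q ∣ PW w) : w ≤ q := by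
  by_contra hc
  push Not at hc
  apply h
  rw [← Nat.prod_primeFactors_of_squarefree hq]
  unfold PW
  apply Finset.prod_dvd_prod_of_subset
  intro p hp
  rw [Nat.mem_primesBelow]
  have hp' := Nat.prime_of_mem_primeFactors hp
  have hpq := Nat.dvd_of_mem_primeFactors hp
  have : p ≤ q := Nat.le_of_dvd (Nat.pos_of_ne_zero hq.ne_zero) hpq
  exact ⟨by omega, hp'⟩

theorem LS4_model (w Q : ℕ) (hw : PW w ≤ Q) (m : ℤ) :
    Pool.Agent.Lib.H68T.G Q m - Lw w m =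
      ∑ q ∈ (Icc 1 Q).filter (fun q => Squarefree q ∧ ¬ q ∣ PW w),
      ((ArithmeticFunction.moebius q : ℝ) / (Nat.totient q : ℝ)) *
        Pool.Agent.Lib.H68T.cq q m := by
  rw [G_sub_Lw w Q hw m]
  symm
  apply sum_subset
  · intro q hq
    rw [mem_filter] at hq ⊢
    exact ⟨hq.1, hq.2.2⟩
  · intro q hq hq'
    rw [mem_filter] at hq hq'
    have : ¬ Squarefree q := fun h => hq' ⟨hq.1, h, hq.2⟩
    rw [ArithmeticFunction.moebius_eq_zero_of_not_squarefree this]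
    simp

/-- Take `K = 16 |C| + 16`. Cauchy-Schwarz in `N`, then `G_sub_Lw` (the `q ≤ Q` not dividing
`P = PW w`; only squarefree `q` count because of `μ(q)`, and a squarefree `q` not dividing `P` has a
prime factor `≥ w`, so `q ≥ w`) and `dual_ls` with `v = G`, `H + Q⁴ ≤ 2H`. The `q ≤ (log Y)^K`: `cls_small`
and `tail_series` (`M = k D`), the others: `cls_large` (`Q ≤ exp(√ log Y) ≤ X`, `argCount_pow`) and
`tail_series` (`M = k`, `w` replaced by `(log Y)^K`), they contribute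
`C (log Y)^(2C - K/4) S²`. Altogether the mean square is `≤ C' (w^(-1/4) + (log Y)^(-1)) H S²`. -/
theorem ls_main (G : ℤ[X]) (hk : 1 ≤ G.natDegree) (hl : 0 < G.leadingCoeff) (D : ℕ) (C : ℝ) :
    ∃ K : ℝ, 0 ≤ K ∧ ∀ ε : ℝ, 0 < ε → ∃ w₀ : ℕ, ∀ w : ℕ, w₀ ≤ w → ∃ Y₀ : ℕ, ∀ Y Q : ℕ, Y₀ ≤ Y →
    PW w ≤ Q → (Q : ℝ) ≤ Real.exp (Real.sqrt (Real.log Y)) → ∀ (f : ℕ → ℝ) (S : ℝ),
    SieveWt D C K Y (argCount G Y) S f → ∀ A ⊆ Icc 1 (argCount G Y), ∀ (N₀ : ℤ) (H : ℕ), Q ^ 4 ≤ H →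
    ∑ N ∈ Ico N₀ (N₀ + H), |∑ n ∈ A, f n * (Pool.Agent.Lib.H68T.G Q (N - G.eval (n : ℤ)) -
      Lw w (N - G.eval (n : ℤ)))| ≤ ε * H * S := by
  obtain ⟨C₁, hC₁, hts1⟩ := tail_series (G.natDegree * D)
  obtain ⟨C₂, hC₂, hts2⟩ := tail_series G.natDegree
  obtain ⟨Y₁, hY₁3, hY₁⟩ := LS4_arg G hk hl
  set K := 16 * |C| + 16 with hK
  have hK0 : 0 ≤ K := by positivity
  have ha : (0 : ℝ) < (G.leadingCoeff : ℝ) := by exact_mod_cast hl
  refine ⟨K, hK0, fun ε hε => ?_⟩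
  -- choice of `w₀`
  have hw1 : Filter.Tendsto (fun w : ℕ => 2 * G.leadingCoeff * C₁ * (w : ℝ) ^ (-(1 / 4) : ℝ))
      Filter.atTop (nhds (2 * G.leadingCoeff * C₁ * 0)) :=
    ((tendsto_rpow_neg_atTop (by norm_num : (0:ℝ) < 1 / 4)).comp
      tendsto_natCast_atTop_atTop).const_mul _
  rw [mul_zero] at hw1
  obtain ⟨w₁, hw₁⟩ := Filter.eventually_atTop.1
    (hw1.eventually_le_const (by positivity : 0 < ε ^ 2 / 2))
  refine ⟨max w₁ 1, fun w hw => ?_⟩
  have hww := hw₁ w ((le_max_left _ _).trans hw)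
  have hw1' : 1 ≤ w := (le_max_right _ _).trans hw
  have hlog : Filter.Tendsto (fun Y : ℕ => Real.log (Y : ℝ)) Filter.atTop Filter.atTop :=
    Real.tendsto_log_atTop.comp tendsto_natCast_atTop_atTop
  obtain ⟨Y₂, hY₂⟩ := Filter.eventually_atTop.1
    (hlog.eventually_ge_atTop (8 * G.leadingCoeff * C₂ / ε ^ 2))
  refine ⟨max Y₁ Y₂, fun Y Q hY hPW hQ f S hf A hA N₀ H hH => ?_⟩
  have hYY1 : Y₁ ≤ Y := (le_max_left _ _).trans hY
  have hY3 : 3 ≤ Y := hY₁3.trans hYY1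
  have hX := hY₁ Y hYY1
  have hlY := hY₂ Y ((le_max_right _ _).trans hY)
  have hY3r : (3 : ℝ) ≤ Y := by exact_mod_cast hY3
  set L := Real.log Y with hL
  have hL1 : 1 ≤ L := by
    rw [hL, Real.le_log_iff_exp_le (by linarith)]
    linarith [Real.exp_one_lt_d9]
  have hL0 : 0 < L := by linarith
  have hS0 : 0 ≤ S := by
    have h1 := hf.cls 1 0 squarefree_one (by
      rw [Nat.cast_one]
      exact Real.one_le_rpow hL1 hK0)
    have h2 : 0 ≤ ∑ n ∈ (Icc 1 (argCount G Y)).filter (fun n => n ≡ 0 [MOD 1]), f n :=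
      sum_nonneg fun n hn => hf.nonneg n (mem_filter.mp hn).1
    simp only [Nat.primeFactors_one, card_empty, pow_zero, one_mul, Nat.cast_one, div_one] at h1
    linarith
  set T := (Icc 1 Q).filter (fun q => Squarefree q ∧ ¬ q ∣ PW w) with hT
  set R : ℕ → ℝ := fun q => (q : ℝ) * ∑ r ∈ range q,
      (∑ n ∈ A.filter (fun n : ℕ => (q : ℤ) ∣ G.eval (n : ℤ) - r), f n) ^ 2 with hR
  have hR0 : ∀ q, 0 ≤ R q := fun q => by rw [hR]; positivity
  -- the bound of the sum over `q`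
  have hbound : ∑ q ∈ T, ((ArithmeticFunction.moebius q : ℝ) / (Nat.totient q : ℝ)) ^ 2 * R q ≤
      (ε ^ 2 / 2) * S ^ 2 := by
    have h1 : ∀ q ∈ T, ((ArithmeticFunction.moebius q : ℝ) / (Nat.totient q : ℝ)) ^ 2 * R q ≤
        G.leadingCoeff * S ^ 2 * ((1 / (Nat.totient q : ℝ)) ^ 2 *
          ((G.natDegree * D : ℕ) : ℝ) ^ q.primeFactors.card) +
        (if L ^ K < (q : ℝ) then 2 * G.leadingCoeff * L ^ (2 * C) * S ^ 2 *
          ((1 / (Nat.totient q : ℝ)) ^ 2 * (G.natDegree : ℝ) ^ q.primeFactors.card) else 0) := by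
      intro q hq
      rw [hT, mem_filter, mem_Icc] at hq
      have hmu : ((ArithmeticFunction.moebius q : ℝ) / (Nat.totient q : ℝ)) ^ 2 =
          (1 / (Nat.totient q : ℝ)) ^ 2 := by
        rw [div_pow, div_pow, one_pow]
        congr 1
        have := ArithmeticFunction.moebius_sq_eq_one_of_squarefree hq.2.1
        exact_mod_cast this
      rw [hmu]
      by_cases hqK : L ^ K < (q : ℝ)
      · rw [if_pos hqK]
        have hqX : q ≤ argCount G Y := by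
          have e1 : (q : ℝ) ≤ Q := by exact_mod_cast hq.1.2
          have : (q : ℝ) ≤ argCount G Y := e1.trans (hQ.trans hX)
          exact_mod_cast this
        have h2 := cls_large G hk hl D C K hK0 Y _ hY3 S f hf A hA q hq.2.1 hqX
        have h3 : 0 ≤ G.leadingCoeff * S ^ 2 * ((1 / (Nat.totient q : ℝ)) ^ 2 *
          ((G.natDegree * D : ℕ) : ℝ) ^ q.primeFactors.card) := by positivity
        calc (1 / (Nat.totient q : ℝ)) ^ 2 * R q ≤ (1 / (Nat.totient q : ℝ)) ^ 2 * _ :=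
              mul_le_mul_of_nonneg_left h2 (by positivity)
          _ = 2 * G.leadingCoeff * L ^ (2 * C) * S ^ 2 *
          ((1 / (Nat.totient q : ℝ)) ^ 2 * (G.natDegree : ℝ) ^ q.primeFactors.card) := by ring
          _ ≤ _ := by linarith
      · rw [if_neg hqK, add_zero]
        push Not at hqK
        have h2 := cls_small G hk hl D C K hK0 Y _ hY3 S f hf A hA q hq.2.1 hqK
        calc (1 / (Nat.totient q : ℝ)) ^ 2 * R q ≤ (1 / (Nat.totient q : ℝ)) ^ 2 * _ :=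
              mul_le_mul_of_nonneg_left h2 (by positivity)
          _ = _ := by ring
    refine (sum_le_sum h1).trans ?_
    rw [sum_add_distrib, ← mul_sum, ← sum_filter, ← mul_sum]
    have hpos1 : ∀ q : ℕ, 0 ≤ (1 / (Nat.totient q : ℝ)) ^ 2 *
          ((G.natDegree * D : ℕ) : ℝ) ^ q.primeFactors.card := fun q => by positivity
    have hpos2 : ∀ q : ℕ, 0 ≤ (1 / (Nat.totient q : ℝ)) ^ 2 *
          (G.natDegree : ℝ) ^ q.primeFactors.card := fun q => by positivity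
    have h2 : ∑ q ∈ T, (1 / (Nat.totient q : ℝ)) ^ 2 *
          ((G.natDegree * D : ℕ) : ℝ) ^ q.primeFactors.card ≤ C₁ * (w : ℝ) ^ (-(1 / 4) : ℝ) := by
      refine le_trans ?_ (hts1 w hw1' Q)
      apply sum_le_sum_of_subset_of_nonneg
      · intro q hq
        rw [hT, mem_filter, mem_Icc] at hq
        rw [mem_filter, mem_Icc]
        exact ⟨⟨LS4_ge hq.2.1 hq.2.2, hq.1.2⟩, hq.2.1⟩
      · intro q _ _
        exact hpos1 q
    set w' := ⌈L ^ K⌉₊ with hw'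
    have hLK : 1 ≤ L ^ K := Real.one_le_rpow hL1 hK0
    have hw'1 : 1 ≤ w' := Nat.one_le_iff_ne_zero.mpr (by
      rw [hw']
      have : 0 < ⌈L ^ K⌉₊ := Nat.ceil_pos.mpr (by linarith)
      omega)
    have h3 : ∑ q ∈ T.filter (fun q : ℕ => L ^ K < (q : ℝ)), (1 / (Nat.totient q : ℝ)) ^ 2 *
          (G.natDegree : ℝ) ^ q.primeFactors.card ≤ C₂ * (w' : ℝ) ^ (-(1 / 4) : ℝ) := by
      refine le_trans ?_ (hts2 w' hw'1 Q)
      apply sum_le_sum_of_subset_of_nonneg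
      · intro q hq
        rw [mem_filter, hT, mem_filter, mem_Icc] at hq
        rw [mem_filter, mem_Icc]
        exact ⟨⟨Nat.ceil_le.mpr hq.2.le, hq.1.1.2⟩, hq.1.2.1⟩
      · intro q _ _
        exact hpos2 q
    have h4 : (w' : ℝ) ^ (-(1 / 4) : ℝ) ≤ L ^ (-(K / 4)) := by
      have e1 : L ^ K ≤ (w' : ℝ) := Nat.le_ceil _
      calc (w' : ℝ) ^ (-(1 / 4) : ℝ) ≤ (L ^ K) ^ (-(1 / 4) : ℝ) :=
            Real.rpow_le_rpow_of_nonpos (by linarith) e1 (by norm_num)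
        _ = L ^ (-(K / 4)) := by
            rw [← Real.rpow_mul hL0.le]
            congr 1
            ring
    have h5 : L ^ (2 * C) * L ^ (-(K / 4)) ≤ L⁻¹ := by
      rw [← Real.rpow_add hL0, ← Real.rpow_neg_one]
      apply Real.rpow_le_rpow_of_exponent_le hL1
      rw [hK]
      linarith [le_abs_self C, abs_nonneg C]
    have h6 : 2 * G.leadingCoeff * L ^ (2 * C) * S ^ 2 *
        ∑ q ∈ T.filter (fun q : ℕ => L ^ K < (q : ℝ)), (1 / (Nat.totient q : ℝ)) ^ 2 *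
          (G.natDegree : ℝ) ^ q.primeFactors.card ≤ (ε ^ 2 / 4) * S ^ 2 := by
      calc _ ≤ 2 * G.leadingCoeff * L ^ (2 * C) * S ^ 2 * (C₂ * L ^ (-(K / 4))) := by
            apply mul_le_mul_of_nonneg_left _ (by positivity)
            exact h3.trans (mul_le_mul_of_nonneg_left h4 hC₂.le)
        _ = 2 * G.leadingCoeff * C₂ * S ^ 2 * (L ^ (2 * C) * L ^ (-(K / 4))) := by ring
        _ ≤ 2 * G.leadingCoeff * C₂ * S ^ 2 * L⁻¹ :=
            mul_le_mul_of_nonneg_left h5 (by positivity)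
        _ ≤ (ε ^ 2 / 4) * S ^ 2 := by
            have e1 : 8 * G.leadingCoeff * C₂ ≤ L * ε ^ 2 := by
              rw [div_le_iff₀ (by positivity)] at hlY
              exact hlY
            have e2 : 2 * G.leadingCoeff * C₂ * L⁻¹ ≤ ε ^ 2 / 4 := by
              rw [← div_eq_mul_inv, div_le_iff₀ hL0]
              linarith
            calc 2 * G.leadingCoeff * C₂ * S ^ 2 * L⁻¹ =
                (2 * G.leadingCoeff * C₂ * L⁻¹) * S ^ 2 := by ring
              _ ≤ _ := mul_le_mul_of_nonneg_right e2 (by positivity)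
    have h7 : G.leadingCoeff * S ^ 2 * ∑ q ∈ T, (1 / (Nat.totient q : ℝ)) ^ 2 *
          ((G.natDegree * D : ℕ) : ℝ) ^ q.primeFactors.card ≤ (ε ^ 2 / 4) * S ^ 2 := by
      calc _ ≤ G.leadingCoeff * S ^ 2 * (C₁ * (w : ℝ) ^ (-(1 / 4) : ℝ)) :=
            mul_le_mul_of_nonneg_left h2 (by positivity)
        _ = (2 * G.leadingCoeff * C₁ * (w : ℝ) ^ (-(1 / 4) : ℝ)) * (S ^ 2 / 2) := by ring
        _ ≤ (ε ^ 2 / 2) * (S ^ 2 / 2) := mul_le_mul_of_nonneg_right hww (by positivity)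
        _ = _ := by ring
    linarith
  -- Cauchy-Schwarz
  have hdls := dual_ls Q T (filter_subset _ _)
    (fun q => (ArithmeticFunction.moebius q : ℝ) / (Nat.totient q : ℝ)) A f
    (fun n => G.eval (n : ℤ)) N₀ H
  have hcs := sq_sum_le_card_mul_sum_sq (s := Ico N₀ (N₀ + H))
    (f := fun N : ℤ => |∑ n ∈ A, f n * (Pool.Agent.Lib.H68T.G Q (N - G.eval (n : ℤ)) -
      Lw w (N - G.eval (n : ℤ)))|)
  have hcard : ((Ico N₀ (N₀ + (H : ℤ))).card : ℝ) = H := by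
    rw [Int.card_Ico]
    have : (N₀ + (H : ℤ) - N₀).toNat = H := by omega
    rw [this]
  rw [hcard] at hcs
  have hHQ : (H : ℝ) + (Q : ℝ) ^ 4 ≤ 2 * H := by
    have : (Q : ℝ) ^ 4 ≤ H := by exact_mod_cast hH
    linarith
  refine le_of_sq_le_sq ?_ (by positivity)
  refine hcs.trans ?_
  have hconv : ∑ N ∈ Ico N₀ (N₀ + (H : ℤ)), |∑ n ∈ A, f n *
      (Pool.Agent.Lib.H68T.G Q (N - G.eval (n : ℤ)) - Lw w (N - G.eval (n : ℤ)))| ^ 2 =
      ∑ N ∈ Ico N₀ (N₀ + (H : ℤ)), (∑ n ∈ A, f n * ∑ q ∈ T,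
        ((ArithmeticFunction.moebius q : ℝ) / (Nat.totient q : ℝ)) *
          Pool.Agent.Lib.H68T.cq q (N - G.eval (n : ℤ))) ^ 2 := by
    refine sum_congr rfl fun N _ => ?_
    rw [sq_abs]
    congr 1
    refine sum_congr rfl fun n _ => ?_
    rw [LS4_model w Q hPW]
  rw [hconv]
  calc (H : ℝ) * _ ≤ H * ((H + (Q : ℝ) ^ 4) * ∑ q ∈ T,
        ((ArithmeticFunction.moebius q : ℝ) / (Nat.totient q : ℝ)) ^ 2 * R q) :=
        mul_le_mul_of_nonneg_left hdls (by positivity)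
    _ ≤ H * ((2 * H) * ((ε ^ 2 / 2) * S ^ 2)) := by
        apply mul_le_mul_of_nonneg_left _ (by positivity)
        exact mul_le_mul hHQ hbound (sum_nonneg fun q _ => mul_nonneg (sq_nonneg _) (hR0 q))
          (by positivity)
    _ = (ε * H * S) ^ 2 := by ring

end Pool.Agent.Lib.H33B
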