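import Pool.Agent.Lib.H33B.DE2
import Pool.Agent.Lib.H33B.LS4
import Pool.Agent.Lib.H33B.CH
import Pool.Agent.Lib.H57S.S5

/-!
# Chunk ENG: the engine
-/

open Finset Polynomial

namespace Pool.Agent.Lib.H33B

open Pool.Agent.Lib.H59 (argCount)
open Pool.Agent.Lib.H68T (lp Reg Good)

open Filter in
theorem ENG_ev (K₀ K δ : ℝ) (hδ : 0 < δ) : ∃ Y₀ : ℝ, 3 ≤ Y₀ ∧ ∀ y : ℝ, Y₀ ≤ y →
    2 ≤ Real.log y ∧ 1 ≤ Real.log (δ * y) ∧ K ≤ Real.log (Real.log (δ * y)) ∧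
      0 ≤ Real.log (Real.log y) ∧
      K₀ * (Real.sqrt (Real.log y) * (2 * Real.log (Real.log y))) ≤ Real.log (δ * y) := by
  have hlog : Tendsto Real.log atTop atTop := Real.tendsto_log_atTop
  have hδy : Tendsto (fun y : ℝ => δ * y) atTop atTop := tendsto_id.const_mul_atTop hδ
  have h1 : ∀ᶠ y : ℝ in atTop, 2 ≤ Real.log y := hlog.eventually_ge_atTop 2
  have h2 : ∀ᶠ y : ℝ in atTop, 1 ≤ Real.log (δ * y) := (hlog.comp hδy).eventually_ge_atTop 1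
  have h3 : ∀ᶠ y : ℝ in atTop, K ≤ Real.log (Real.log (δ * y)) :=
    (hlog.comp (hlog.comp hδy)).eventually_ge_atTop K
  have h4 : ∀ᶠ y : ℝ in atTop, 0 ≤ Real.log (Real.log y) :=
    (hlog.comp hlog).eventually_ge_atTop 0
  have h5 : ∀ᶠ L : ℝ in atTop, ‖Real.log L‖ ≤ (1 / (4 * (|K₀| + 1))) * ‖L ^ ((1:ℝ) / 2)‖ :=
    (isLittleO_log_rpow_atTop (by norm_num : (0:ℝ) < 1 / 2)).bound (by positivity)
  have h6 : ∀ᶠ y : ℝ in atTop, ‖Real.log (Real.log y)‖ ≤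
      (1 / (4 * (|K₀| + 1))) * ‖(Real.log y) ^ ((1:ℝ) / 2)‖ := hlog.eventually h5
  have h7 : ∀ᶠ y : ℝ in atTop, 2 * |Real.log δ| ≤ Real.log y := hlog.eventually_ge_atTop _
  obtain ⟨Y₀, hY₀⟩ := eventually_atTop.1 (h1.and (h2.and (h3.and (h4.and (h6.and
    (h7.and (eventually_gt_atTop 0)))))))
  refine ⟨max Y₀ 3, le_max_right _ _, fun y hy => ?_⟩
  obtain ⟨a1, a2, a3, a4, a6, a7, a8⟩ := hY₀ y ((le_max_left _ _).trans hy)
  refine ⟨a1, a2, a3, a4, ?_⟩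
  set L := Real.log y with hL
  have hL0 : 0 ≤ L := by linarith
  rw [Real.norm_of_nonneg a4, Real.norm_of_nonneg (Real.rpow_nonneg hL0 _),
    ← Real.sqrt_eq_rpow] at a6
  have hs : 0 ≤ Real.sqrt L := Real.sqrt_nonneg _
  have hss : Real.sqrt L * Real.sqrt L = L := Real.mul_self_sqrt hL0
  have e1 : Real.log (δ * y) = Real.log δ + L := by
    rw [Real.log_mul hδ.ne' a8.ne']
  have e2 : K₀ * (Real.sqrt L * (2 * Real.log L)) ≤
      (|K₀| + 1) * (Real.sqrt L * (2 * Real.log L)) := by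
    apply mul_le_mul_of_nonneg_right _ (by positivity)
    linarith [le_abs_self K₀]
  have e3 : (|K₀| + 1) * (Real.sqrt L * (2 * Real.log L)) ≤
      (|K₀| + 1) * (Real.sqrt L * (2 * ((1 / (4 * (|K₀| + 1))) * Real.sqrt L))) := by
    gcongr
  have e4 : (|K₀| + 1) * (Real.sqrt L * (2 * ((1 / (4 * (|K₀| + 1))) * Real.sqrt L))) = L / 2 := by
    have h0 : (|K₀| + 1) ≠ 0 := by positivity
    calc _ = (Real.sqrt L * Real.sqrt L) / 2 := by field_simp; ring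
      _ = L / 2 := by rw [hss]
  have e5 : -|Real.log δ| ≤ Real.log δ := neg_abs_le _
  rw [e1]
  linarith

theorem ENG_reg (K δ : ℝ) (hδ : 0 < δ) : ∃ K₁ : ℝ, 0 ≤ K₁ ∧ ∃ Y₀ : ℕ, ∀ Y Q X₀ : ℕ, Y₀ ≤ Y →
    (Real.log Y) ^ K₁ ≤ Q → (Q : ℝ) ≤ Real.exp (Real.sqrt (Real.log Y)) → δ * Y ≤ X₀ →
    (X₀ : ℝ) ≤ 2 * Y → Reg K Q X₀ := by
  obtain ⟨y₀, hy3, hy⟩ := ENG_ev (|K|) (max K 0) δ hδ
  refine ⟨2 * |K|, by positivity, ⌈y₀⌉₊, fun Y Q X₀ hY hQ1 hQ2 hX1 hX2 => ?_⟩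
  have hYr : y₀ ≤ (Y : ℝ) := (Nat.le_ceil _).trans (by exact_mod_cast hY)
  obtain ⟨a1, a2, a3, a4, a5⟩ := hy Y hYr
  have hY0 : (0:ℝ) < Y := by linarith
  have hL0 : 0 < Real.log Y := by linarith
  have hδY : 0 < δ * Y := by positivity
  have hX0 : (0:ℝ) < X₀ := hδY.trans_le hX1
  have b1 : Real.log (δ * Y) ≤ Real.log X₀ := Real.log_le_log hδY hX1
  have b2 : 0 < Real.log X₀ := by linarith
  have b3 : Real.log (Real.log (δ * Y)) ≤ Real.log (Real.log X₀) :=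
    Real.log_le_log (by linarith) b1
  have b4 : 0 ≤ Real.log (Real.log X₀) := (le_max_right K 0).trans (a3.trans b3)
  have b5 : Real.log (Real.log X₀) ≤ 2 * Real.log (Real.log Y) := by
    have c1 : Real.log X₀ ≤ Real.log 2 + Real.log Y := by
      rw [← Real.log_mul (by norm_num) hY0.ne']
      exact Real.log_le_log hX0 hX2
    have c2 : Real.log 2 ≤ 1 := by linarith [Real.log_two_lt_d9]
    have c3 : Real.log X₀ ≤ (Real.log Y) ^ 2 := by nlinarith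
    calc Real.log (Real.log X₀) ≤ Real.log ((Real.log Y) ^ 2) := Real.log_le_log b2 c3
      _ = 2 * Real.log (Real.log Y) := by rw [Real.log_pow]; norm_num
  have hQ0 : (0:ℝ) < Q := (Real.rpow_pos_of_pos hL0 _).trans_le hQ1
  have d1 : 2 * |K| * Real.log (Real.log Y) ≤ Real.log Q := by
    rw [← Real.log_rpow hL0]
    exact Real.log_le_log (Real.rpow_pos_of_pos hL0 _) hQ1
  have d2 : Real.log Q ≤ Real.sqrt (Real.log Y) := by
    rw [Real.log_le_iff_le_exp hQ0]; exact hQ2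
  have hKa : K ≤ |K| := le_abs_self K
  have hK0 : 0 ≤ |K| := abs_nonneg K
  refine ⟨(le_max_left K 0).trans (a3.trans b3), ?_, ?_⟩
  · calc K * Real.log (Real.log X₀) ≤ |K| * Real.log (Real.log X₀) :=
          mul_le_mul_of_nonneg_right hKa b4
      _ ≤ |K| * (2 * Real.log (Real.log Y)) := mul_le_mul_of_nonneg_left b5 hK0
      _ = 2 * |K| * Real.log (Real.log Y) := by ring
      _ ≤ _ := d1
  · have hlQ : 0 ≤ Real.log Q := (by positivity : (0:ℝ) ≤ 2 * |K| * Real.log (Real.log Y)).trans d1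
    calc K * (Real.log Q * Real.log (Real.log X₀)) ≤ |K| * (Real.log Q * Real.log (Real.log X₀)) :=
          mul_le_mul_of_nonneg_right hKa (by positivity)
      _ ≤ |K| * (Real.sqrt (Real.log Y) * (2 * Real.log (Real.log Y))) := by gcongr
      _ ≤ Real.log (δ * Y) := a5
      _ ≤ _ := b1

theorem ENG_low (G : ℤ[X]) (hk : 1 ≤ G.natDegree) (hl : 0 < G.leadingCoeff) :
    ∃ c : ℕ, ∀ n : ℕ, -(c : ℤ) ≤ G.eval (n : ℤ) := by
  obtain ⟨n₁, hn₁⟩ := Pool.Agent.Lib.H59.exists_strictMono hk hl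
  refine ⟨(Finset.range (n₁ + 1)).sup (fun a => (G.eval (a : ℤ)).natAbs), fun n => ?_⟩
  have hle : ∀ a ≤ n₁, -(((Finset.range (n₁ + 1)).sup (fun a => (G.eval (a : ℤ)).natAbs) : ℕ) : ℤ) ≤
      G.eval (a : ℤ) := by
    intro a ha
    have h1 : (G.eval (a : ℤ)).natAbs ≤
        (Finset.range (n₁ + 1)).sup (fun a => (G.eval (a : ℤ)).natAbs) :=
      Finset.le_sup (f := fun a : ℕ => (G.eval (a : ℤ)).natAbs) (Finset.mem_range.mpr (by omega))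
    omega
  rcases Nat.lt_or_ge n₁ n with h | h
  · have := hn₁ n₁ n le_rfl h
    have := hle n₁ le_rfl
    omega
  · exact hle n h


theorem ENG_pieces (H : ℕ) (m : ℤ) (c : ℝ) : ∀ J : ℕ,
    ∑ j ∈ range J, (if ((4 ^ j * H : ℕ) : ℤ) ≤ m ∧ m < ((4 ^ (j + 1) * H : ℕ) : ℤ) then c else 0) =
      if (H : ℤ) ≤ m ∧ m < ((4 ^ J * H : ℕ) : ℤ) then c else 0 := by
  intro J
  induction J with
  | zero =>
    rw [range_zero, sum_empty]
    have : ¬ ((H : ℤ) ≤ m ∧ m < ((4 ^ 0 * H : ℕ) : ℤ)) := by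
      rw [pow_zero, one_mul]; omega
    rw [if_neg this]
  | succ J ih =>
    rw [sum_range_succ, ih]
    have h1 : (H : ℤ) ≤ ((4 ^ J * H : ℕ) : ℤ) := by
      exact_mod_cast Nat.le_mul_of_pos_left H (by positivity)
    have h2 : ((4 ^ J * H : ℕ) : ℤ) ≤ ((4 ^ (J + 1) * H : ℕ) : ℤ) := by
      have : 4 ^ J * H ≤ 4 ^ (J + 1) * H :=
        Nat.mul_le_mul_right H (Nat.pow_le_pow_right (by norm_num) (by omega))
      exact_mod_cast this
    by_cases ha : (H : ℤ) ≤ m ∧ m < ((4 ^ J * H : ℕ) : ℤ)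
    · rw [if_pos ha, if_neg (by omega), if_pos (by omega), add_zero]
    · rw [if_neg ha, zero_add]
      by_cases hb : ((4 ^ J * H : ℕ) : ℤ) ≤ m ∧ m < ((4 ^ (J + 1) * H : ℕ) : ℤ)
      · rw [if_pos hb, if_pos (by omega)]
      · rw [if_neg hb, if_neg (by omega)]

theorem ENG_lp_nonneg (m : ℤ) : 0 ≤ lp m := by
  unfold Pool.Agent.Lib.H68T.lp
  split_ifs with h
  · have h1 : 0 < m.toNat := h.pos
    have h2 : (1 : ℝ) ≤ (m : ℝ) := by
      have : (1 : ℤ) ≤ m := by omega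
      exact_mod_cast this
    exact Real.log_nonneg h2
  · exact le_rfl

theorem ENG_Lw_nonneg (w : ℕ) (m : ℤ) : 0 ≤ Lw w m := by
  unfold Lw Lq
  split_ifs
  · positivity
  · exact le_rfl

/-- the part with small `N - G(n)` -/
theorem ENG_rest (G : ℤ[X]) (X Y H : ℕ) (f : ℕ → ℝ) (hf : ∀ n ∈ Icc 1 X, 0 ≤ f n) (S T : ℝ)
    (hS : ∑ n ∈ Icc 1 X, f n ≤ S) (hT0 : 0 ≤ T) (ψ : ℤ → ℝ) (hψ : ∀ m, 0 ≤ ψ m)
    (hT : ∑ m ∈ Icc (1 : ℤ) (2 * H : ℕ), ψ m ≤ T) :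
    ∑ N ∈ Icc 1 Y, ∑ n ∈ (Icc 1 X).filter (fun n : ℕ => 1 ≤ (N : ℤ) - G.eval (n : ℤ) ∧
      (N : ℤ) - G.eval (n : ℤ) ≤ (2 * H : ℕ)), f n * ψ ((N : ℤ) - G.eval (n : ℤ)) ≤ S * T := by
  have h1 : ∀ N ∈ Icc 1 Y, ∑ n ∈ (Icc 1 X).filter (fun n : ℕ => 1 ≤ (N : ℤ) - G.eval (n : ℤ) ∧
      (N : ℤ) - G.eval (n : ℤ) ≤ (2 * H : ℕ)), f n * ψ ((N : ℤ) - G.eval (n : ℤ)) =
      ∑ n ∈ Icc 1 X, if 1 ≤ (N : ℤ) - G.eval (n : ℤ) ∧
      (N : ℤ) - G.eval (n : ℤ) ≤ (2 * H : ℕ) then f n * ψ ((N : ℤ) - G.eval (n : ℤ)) else 0 :=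
    fun N _ => sum_filter _ _
  rw [sum_congr rfl h1, sum_comm]
  have h2 : ∀ n ∈ Icc 1 X, (∑ N ∈ Icc 1 Y, if 1 ≤ (N : ℤ) - G.eval (n : ℤ) ∧
      (N : ℤ) - G.eval (n : ℤ) ≤ (2 * H : ℕ) then f n * ψ ((N : ℤ) - G.eval (n : ℤ)) else 0) ≤
      f n * T := by
    intro n hn
    rw [← sum_filter, ← mul_sum]
    refine mul_le_mul_of_nonneg_left (le_trans ?_ hT) (hf n hn)
    have hinj : Set.InjOn (fun N : ℕ => (N : ℤ) - G.eval (n : ℤ)) (((Icc 1 Y).filter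
        (fun N : ℕ => 1 ≤ (N : ℤ) - G.eval (n : ℤ) ∧
          (N : ℤ) - G.eval (n : ℤ) ≤ (2 * H : ℕ)) : Finset ℕ) : Set ℕ) := by
      intro a _ b _ hab
      simp only at hab
      omega
    have h3 := (sum_image (f := ψ) hinj)
    rw [← h3]
    refine sum_le_sum_of_subset_of_nonneg ?_ (fun m _ _ => hψ m)
    intro m hm
    rw [mem_image] at hm
    obtain ⟨N, hN, rfl⟩ := hm
    rw [mem_filter] at hN
    rw [mem_Icc]
    exact hN.2
  refine (sum_le_sum h2).trans ?_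
  rw [← sum_mul]
  exact mul_le_mul_of_nonneg_right hS hT0

/-- splitting off the part with small `N - G(n)` -/
theorem ENG_split (G : ℤ[X]) (X N H : ℕ) (hN : 1 ≤ N) (hH : 0 < H) (f : ℕ → ℝ)
    (hf : ∀ n ∈ Icc 1 X, 0 ≤ f n) (φ ψ : ℤ → ℝ) (hψ : ∀ m, |φ m| ≤ ψ m) :
    |∑ n ∈ (Icc 1 X).filter (fun n : ℕ => G.eval (n : ℤ) < N), f n * φ ((N : ℤ) - G.eval (n : ℤ))| ≤
      |∑ n ∈ (Icc 1 X).filter (fun n : ℕ => G.eval (n : ℤ) + H ≤ (((N - 1) / H * H : ℕ) : ℤ)),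
        f n * φ ((N : ℤ) - G.eval (n : ℤ))| +
      ∑ n ∈ (Icc 1 X).filter (fun n : ℕ => 1 ≤ (N : ℤ) - G.eval (n : ℤ) ∧
        (N : ℤ) - G.eval (n : ℤ) ≤ (2 * H : ℕ)), f n * ψ ((N : ℤ) - G.eval (n : ℤ)) := by
  have hdiv : (N - 1) / H * H + (N - 1) % H = N - 1 := Nat.div_add_mod' (N - 1) H
  have hmod : (N - 1) % H < H := Nat.mod_lt _ hH
  have h1 : (Icc 1 X).filter (fun n : ℕ => G.eval (n : ℤ) < N) =
      (Icc 1 X).filter (fun n : ℕ => G.eval (n : ℤ) + H ≤ (((N - 1) / H * H : ℕ) : ℤ)) ∪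
      ((Icc 1 X).filter (fun n : ℕ => G.eval (n : ℤ) < N)).filter
        (fun n : ℕ => ¬ (G.eval (n : ℤ) + H ≤ (((N - 1) / H * H : ℕ) : ℤ))) := by
    ext n
    simp only [mem_union, mem_filter]
    constructor
    · rintro ⟨a, b⟩
      by_cases h : G.eval (n : ℤ) + H ≤ (((N - 1) / H * H : ℕ) : ℤ)
      · exact Or.inl ⟨a, h⟩
      · exact Or.inr ⟨⟨a, b⟩, h⟩
    · rintro (⟨a, b⟩ | ⟨⟨a, b⟩, _⟩)
      · refine ⟨a, ?_⟩
        omega
      · exact ⟨a, b⟩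
  have hdis : Disjoint
      ((Icc 1 X).filter (fun n : ℕ => G.eval (n : ℤ) + H ≤ (((N - 1) / H * H : ℕ) : ℤ)))
      (((Icc 1 X).filter (fun n : ℕ => G.eval (n : ℤ) < N)).filter
        (fun n : ℕ => ¬ (G.eval (n : ℤ) + H ≤ (((N - 1) / H * H : ℕ) : ℤ)))) := by
    rw [disjoint_left]
    intro n hn hn'
    rw [mem_filter] at hn hn'
    exact hn'.2 hn.2
  rw [h1, sum_union hdis]
  refine (abs_add_le _ _).trans (add_le_add le_rfl ?_)
  refine (abs_sum_le_sum_abs _ _).trans ?_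
  have h2 : ∀ n ∈ ((Icc 1 X).filter (fun n : ℕ => G.eval (n : ℤ) < N)).filter
        (fun n : ℕ => ¬ (G.eval (n : ℤ) + H ≤ (((N - 1) / H * H : ℕ) : ℤ))),
      |f n * φ ((N : ℤ) - G.eval (n : ℤ))| ≤ f n * ψ ((N : ℤ) - G.eval (n : ℤ)) := by
    intro n hn
    rw [mem_filter, mem_filter] at hn
    rw [abs_mul, abs_of_nonneg (hf n hn.1.1)]
    exact mul_le_mul_of_nonneg_left (hψ _) (hf n hn.1.1)
  refine (sum_le_sum h2).trans ?_
  refine sum_le_sum_of_subset_of_nonneg ?_ ?_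
  · intro n hn
    rw [mem_filter, mem_filter] at hn
    rw [mem_filter]
    refine ⟨hn.1.1, ?_, ?_⟩
    · have := hn.1.2
      omega
    · have := hn.2
      push Not at this
      have h5 := hn.1.2
      push_cast
      omega
  · intro n hn _
    rw [mem_filter] at hn
    exact mul_nonneg (hf n hn.1) ((abs_nonneg _).trans (hψ _))

/-- the block decomposition -/
theorem ENG_block (Y H : ℕ) (hH : 0 < H) (h : ℕ → ℕ → ℝ) (B : ℕ → ℝ)
    (hB : ∀ i ∈ range (Y / H + 1),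
      ∑ N ∈ (Icc 1 Y).filter (fun N => (N - 1) / H = i), h i N ≤ B i) :
    ∑ N ∈ Icc 1 Y, h ((N - 1) / H) N ≤ ∑ i ∈ range (Y / H + 1), B i := by
  have hmaps : ∀ N ∈ Icc 1 Y, (N - 1) / H ∈ range (Y / H + 1) := by
    intro N hN
    rw [mem_Icc] at hN
    rw [mem_range]
    have : (N - 1) / H ≤ Y / H := Nat.div_le_div_right (by omega)
    omega
  rw [← sum_fiberwise_of_maps_to hmaps]
  refine sum_le_sum fun i hi => le_trans (le_of_eq ?_) (hB i hi)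
  refine sum_congr rfl fun N hN => ?_
  rw [mem_filter] at hN
  rw [hN.2]

/-- the Fourier-uniform part on a block -/
theorem ENG_first (G : ℤ[X]) (cG : ℕ) (hcG : ∀ n : ℕ, -(cG : ℤ) ≤ G.eval (n : ℤ)) (X Y H J i : ℕ)
    (hH : 0 < H) (hJ : Y + cG < 4 ^ J * H) (f : ℕ → ℝ) (φ : ℤ → ℝ) (T : ℝ)
    (hT : ∀ j ∈ range J, ∑ N ∈ Icc 1 Y, |∑ n ∈ ((Icc 1 X).filter
      (fun n : ℕ => G.eval (n : ℤ) + H ≤ ((i * H : ℕ) : ℤ))).filter
        (fun n : ℕ => ((4 ^ j * H : ℕ) : ℤ) ≤ (N : ℤ) - G.eval (n : ℤ) ∧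
          (N : ℤ) - G.eval (n : ℤ) < ((4 ^ (j + 1) * H : ℕ) : ℤ)),
          f n * φ ((N : ℤ) - G.eval (n : ℤ))| ≤ T) :
    ∑ N ∈ (Icc 1 Y).filter (fun N => (N - 1) / H = i),
      |∑ n ∈ (Icc 1 X).filter (fun n : ℕ => G.eval (n : ℤ) + H ≤ ((i * H : ℕ) : ℤ)),
        f n * φ ((N : ℤ) - G.eval (n : ℤ))| ≤ J * T := by
  have h1 : ∀ N ∈ (Icc 1 Y).filter (fun N => (N - 1) / H = i),
      |∑ n ∈ (Icc 1 X).filter (fun n : ℕ => G.eval (n : ℤ) + H ≤ ((i * H : ℕ) : ℤ)),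
        f n * φ ((N : ℤ) - G.eval (n : ℤ))| ≤
      ∑ j ∈ range J, |∑ n ∈ ((Icc 1 X).filter
      (fun n : ℕ => G.eval (n : ℤ) + H ≤ ((i * H : ℕ) : ℤ))).filter
        (fun n : ℕ => ((4 ^ j * H : ℕ) : ℤ) ≤ (N : ℤ) - G.eval (n : ℤ) ∧
          (N : ℤ) - G.eval (n : ℤ) < ((4 ^ (j + 1) * H : ℕ) : ℤ)),
          f n * φ ((N : ℤ) - G.eval (n : ℤ))| := by
    intro N hN
    rw [mem_filter, mem_Icc] at hN
    obtain ⟨⟨hN1, hNY⟩, hNi⟩ := hN
    have hdiv : (N - 1) / H * H + (N - 1) % H = N - 1 := Nat.div_add_mod' (N - 1) H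
    rw [hNi] at hdiv
    refine le_trans (le_of_eq ?_) (abs_sum_le_sum_abs _ _)
    congr 1
    have h2 : ∀ n ∈ (Icc 1 X).filter (fun n : ℕ => G.eval (n : ℤ) + H ≤ ((i * H : ℕ) : ℤ)),
        f n * φ ((N : ℤ) - G.eval (n : ℤ)) = ∑ j ∈ range J,
          (if ((4 ^ j * H : ℕ) : ℤ) ≤ (N : ℤ) - G.eval (n : ℤ) ∧
          (N : ℤ) - G.eval (n : ℤ) < ((4 ^ (j + 1) * H : ℕ) : ℤ) then
            f n * φ ((N : ℤ) - G.eval (n : ℤ)) else 0) := by
      intro n hn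
      rw [mem_filter] at hn
      rw [ENG_pieces, if_pos]
      have h3 := hn.2
      have h4 := hcG n
      have h5 : ((Y + cG : ℕ) : ℤ) < ((4 ^ J * H : ℕ) : ℤ) := by exact_mod_cast hJ
      constructor
      · omega
      · refine lt_of_le_of_lt ?_ h5
        push_cast
        omega
    rw [sum_congr rfl h2, sum_comm]
    refine sum_congr rfl fun j _ => ?_
    rw [sum_filter (s := (Icc 1 X).filter
      (fun n : ℕ => G.eval (n : ℤ) + H ≤ ((i * H : ℕ) : ℤ)))]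
  refine (sum_le_sum h1).trans ?_
  rw [sum_comm]
  have h6 : ∀ j ∈ range J, ∑ N ∈ (Icc 1 Y).filter (fun N => (N - 1) / H = i), |∑ n ∈ ((Icc 1 X).filter
      (fun n : ℕ => G.eval (n : ℤ) + H ≤ ((i * H : ℕ) : ℤ))).filter
        (fun n : ℕ => ((4 ^ j * H : ℕ) : ℤ) ≤ (N : ℤ) - G.eval (n : ℤ) ∧
          (N : ℤ) - G.eval (n : ℤ) < ((4 ^ (j + 1) * H : ℕ) : ℤ)),
          f n * φ ((N : ℤ) - G.eval (n : ℤ))| ≤ T := fun j hj =>
    (sum_le_sum_of_subset_of_nonneg (filter_subset _ _) (fun _ _ _ => abs_nonneg _)).trans (hT j hj)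
  refine (sum_le_sum h6).trans ?_
  rw [sum_const, card_range, nsmul_eq_mul]

/-- from natural numbers in a block to an interval of integers -/
theorem ENG_second (Y H i : ℕ) (hH : 0 < H) (h : ℤ → ℝ) (hh : ∀ N, 0 ≤ h N) :
    ∑ N ∈ (Icc 1 Y).filter (fun N => (N - 1) / H = i), h (N : ℤ) ≤
      ∑ N ∈ Ico (((i * H + 1 : ℕ) : ℤ)) (((i * H + 1 : ℕ) : ℤ) + H), h N := by
  have hinj : Set.InjOn (fun N : ℕ => (N : ℤ)) (((Icc 1 Y).filter
      (fun N => (N - 1) / H = i) : Finset ℕ) : Set ℕ) := fun a _ b _ hab => by simpa using hab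
  rw [← sum_image (f := h) hinj]
  refine sum_le_sum_of_subset_of_nonneg ?_ (fun N _ _ => hh N)
  intro m hm
  rw [mem_image] at hm
  obtain ⟨N, hN, rfl⟩ := hm
  rw [mem_filter, mem_Icc] at hN
  obtain ⟨⟨hN1, hNY⟩, hNi⟩ := hN
  have hdiv : (N - 1) / H * H + (N - 1) % H = N - 1 := Nat.div_add_mod' (N - 1) H
  rw [hNi] at hdiv
  have hmod : (N - 1) % H < H := Nat.mod_lt _ hH
  rw [mem_Ico]
  push_cast
  constructor <;> omega

open Filter in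
theorem ENG_ev2 (δ a b κ : ℝ) (hδ : 0 < δ) (hκ : 0 < κ) : ∃ Y₀ : ℝ, 3 ≤ Y₀ ∧ ∀ y : ℝ, Y₀ ≤ y →
    1 ≤ Real.log y ∧ a ≤ Real.log y ∧ a ≤ δ * y ∧ 1 ≤ δ * y ∧ a ≤ y ∧
      Real.exp (4 * Real.sqrt (Real.log y)) ≤ δ * y ∧ b / Real.log y ≤ κ := by
  have hlog : Tendsto Real.log atTop atTop := Real.tendsto_log_atTop
  have hδy : Tendsto (fun y : ℝ => δ * y) atTop atTop := tendsto_id.const_mul_atTop hδ
  have h1 := hlog.eventually_ge_atTop (max (max 1 a) (max (b / κ) (64 + 2 * |Real.log δ|)))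
  have h2 := hδy.eventually_ge_atTop (max 1 a)
  have h3 := eventually_ge_atTop (max a 3)
  obtain ⟨Y₀, hY₀⟩ := eventually_atTop.1 (h1.and (h2.and h3))
  refine ⟨max Y₀ 3, le_max_right _ _, fun y hy => ?_⟩
  obtain ⟨b1, b2, b3⟩ := hY₀ y ((le_max_left _ _).trans hy)
  have c1 : 1 ≤ Real.log y := ((le_max_left 1 a).trans (le_max_left _ _)).trans b1
  have c2 : a ≤ Real.log y := ((le_max_right 1 a).trans (le_max_left _ _)).trans b1
  have c3 : b / κ ≤ Real.log y := ((le_max_left _ _).trans (le_max_right _ _)).trans b1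
  have c4 : 64 + 2 * |Real.log δ| ≤ Real.log y := ((le_max_right _ _).trans (le_max_right _ _)).trans b1
  have hy0 : 0 < y := by
    have := (le_max_right a 3).trans b3
    linarith
  refine ⟨c1, c2, (le_max_right _ _).trans b2, (le_max_left _ _).trans b2,
    (le_max_left _ _).trans b3, ?_, ?_⟩
  · rw [← Real.le_log_iff_exp_le (by positivity), Real.log_mul hδ.ne' hy0.ne']
    set L := Real.log y with hL
    have hL0 : 0 ≤ L := by linarith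
    have hs : 8 ≤ Real.sqrt L := by
      have : Real.sqrt 64 ≤ Real.sqrt L := Real.sqrt_le_sqrt (by linarith [abs_nonneg (Real.log δ)])
      rwa [show (64:ℝ) = 8 ^ 2 by norm_num, Real.sqrt_sq (by norm_num)] at this
    have hss : Real.sqrt L * Real.sqrt L = L := Real.mul_self_sqrt hL0
    have e5 : -|Real.log δ| ≤ Real.log δ := neg_abs_le _
    nlinarith
  · rw [div_le_iff₀ (by linarith)]
    rw [div_le_iff₀ hκ] at c3
    linarith

/-- **The engine.** `K` is the constant of `ls_main`. Let `X = argCount G Y`, `δ > 0` small (in terms of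
`ε`), `H = ⌈δ Y⌉`. Choose a good level `Q` (`H57S.good_level`), `(log Y)^K₁ ≤ Q ≤ exp(√ log Y)`, `K₁` large;
then `Reg K' Q X₀` for all `δ Y ≤ X₀ ≤ 2Y` (`K' log Q log log X₀ ≤ √(log Y) K' log log (2Y) ≤ log(δ Y)`),
`PW w ≤ Q`, `Q⁴ ≤ H`. Split `[1,Y]` into the blocks `B_i = (iH, (i+1)H]`, `0 ≤ i ≤ 1/δ`, and for
`N ∈ B_i` split the `n ≤ X`, `G(n) < N`, into `A_i = {n : G(n) ≤ (i-1)H}` and the rest.
* Rest: `(i-1)H < G(n) < N ≤ (i+1)H`. Each `n` belongs to at most `3` values of `i`, and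
  `∑_{N ∈ B_i, N > G(n)} (lp + Lw)(N - G(n)) ≤ ∑_{1 ≤ m ≤ 2H} (lp + Lw)(m) ≤ C₁ H` (chunk CH). Total
  `≤ 3 C₁ H ∑ f ≤ C₂ δ Y S` (`∑ f ≤ S`, the modulus `1`).
* `n ∈ A_i`, `N ∈ B_i`: `m = N - G(n) ≥ H` and `m ≤ Y + c_G ≤ 2Y` (`c_G = max(-G(n))`). Split
  `lp - Lw = (lp - G_Q) + (G_Q - Lw)`. The first: pieces `4^j H ≤ m < 4^(j+1) H`, `j ≤ J`, `J` maximal
  with `4^J H ≤ 2Y`, and `dec` with `X₀ = 4^j H`, `B = 2C + 2`, the weights `f/(log Y)^C ≤ 1` and the set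
  `A_i`: total `≤ (1/δ+1)(J+1) (log Y)^C Y X/(log Y)^(2C+2) ≤ C(δ) Y S/(log Y)`
  (`X ≤ S (log Y)^C`). The second: `ls_main` on the block: total `≤ (1/δ + 1) ε' H S`, with
  `ε'` small in terms of `ε` only (`(1/δ + 1) H ≤ 3 Y`).
(The condition `G(n) < N` is automatic for `n ∈ A_i`, `N ∈ B_i`.) -/
theorem engine (G : ℤ[X]) (hk : 1 ≤ G.natDegree) (hl : 0 < G.leadingCoeff) (D : ℕ) (C : ℝ) :
    ∃ K : ℝ, 0 ≤ K ∧ ∀ ε : ℝ, 0 < ε → ∃ w₀ : ℕ, ∀ w : ℕ, w₀ ≤ w → ∃ Y₀ : ℕ, ∀ Y : ℕ, Y₀ ≤ Y →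
    ∀ (f : ℕ → ℝ) (S : ℝ), SieveWt D C K Y (argCount G Y) S f →
    ∑ N ∈ Icc 1 Y, |∑ n ∈ (Icc 1 (argCount G Y)).filter (fun n : ℕ => G.eval (n : ℤ) < N),
      f n * (lp ((N : ℤ) - G.eval (n : ℤ)) - Lw w ((N : ℤ) - G.eval (n : ℤ)))| ≤ ε * Y * S := by
  obtain ⟨c, hc, hgood⟩ := Pool.Agent.Lib.H57S.good_level
  obtain ⟨K, hK0, hls⟩ := ls_main G hk hl D C
  refine ⟨K, hK0, fun ε hε => ?_⟩
  obtain ⟨Cl, hCl, hlp⟩ := sum_lp_le
  set δ : ℝ := min 1 (ε / (16 * (Cl + 2))) with hδdef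
  have hδ : 0 < δ := lt_min one_pos (by positivity)
  have hδ1 : δ ≤ 1 := min_le_left _ _
  have hδ2 : δ ≤ ε / (16 * (Cl + 2)) := min_le_right _ _
  obtain ⟨w₀, hw₀⟩ := hls (ε / 16) (by positivity)
  refine ⟨w₀, fun w hw => ?_⟩
  obtain ⟨Y₁, hY₁⟩ := hw₀ w hw
  obtain ⟨Kd, hdec⟩ := dec G hk hl c hc (2 * C + 1) δ hδ
  obtain ⟨K₁, hK₁, Y₂, hreg⟩ := ENG_reg Kd δ hδ
  obtain ⟨Y₃, hgl⟩ := hgood (K₁ + 1)
  obtain ⟨cG, hcG⟩ := ENG_low G hk hl
  obtain ⟨J, hJ⟩ : ∃ J : ℕ, 2 / δ < (4 : ℝ) ^ J := pow_unbounded_of_one_lt _ (by norm_num)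
  obtain ⟨y₀, hy3, hev⟩ := ENG_ev2 δ ((PW w : ℝ) + cG) ((1 / δ + 1) * J) (ε / 4) hδ (by positivity)
  refine ⟨max (max Y₁ Y₂) (max ⌈Y₃⌉₊ ⌈y₀⌉₊), fun Y hY f S hf => ?_⟩
  have hYY1 : Y₁ ≤ Y := ((le_max_left _ _).trans (le_max_left _ _)).trans hY
  have hYY2 : Y₂ ≤ Y := ((le_max_right _ _).trans (le_max_left _ _)).trans hY
  have hYY3 : Y₃ ≤ (Y : ℝ) := (Nat.le_ceil _).trans
    (by exact_mod_cast ((le_max_left _ _).trans (le_max_right _ _)).trans hY)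
  have hYY4 : y₀ ≤ (Y : ℝ) := (Nat.le_ceil _).trans
    (by exact_mod_cast ((le_max_right _ _).trans (le_max_right _ _)).trans hY)
  obtain ⟨v1, v2, v3, v4, v5, v6, v7⟩ := hev Y hYY4
  have hY3 : (3 : ℝ) ≤ Y := hy3.trans hYY4
  have hYpos : (0 : ℝ) < Y := by linarith
  have hPW0 : (0 : ℝ) ≤ PW w := Nat.cast_nonneg _
  have hcG0 : (0 : ℝ) ≤ cG := Nat.cast_nonneg _
  obtain ⟨Q, hQ1, hQ2, hQg⟩ := hgl Y hYY3
  set X := argCount G Y with hX
  set L := Real.log (Y : ℝ) with hL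
  have hL0 : 0 < L := by linarith
  -- the total mass
  have hmass : ∑ n ∈ Icc 1 X, f n ≤ S := by
    have h := hf.cls 1 0 squarefree_one (by rw [Nat.cast_one]; exact Real.one_le_rpow v1 hK0)
    rw [filter_true_of_mem (fun n _ => Nat.modEq_one)] at h
    simpa using h
  have hS0 : 0 ≤ S := (sum_nonneg hf.nonneg).trans hmass
  -- the length of the blocks
  set H : ℕ := ⌈δ * Y⌉₊ with hHdef
  have hH1 : δ * Y ≤ H := Nat.le_ceil _
  have hH2 : (H : ℝ) ≤ 2 * (δ * Y) := by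
    have := Nat.ceil_lt_add_one (a := δ * (Y : ℝ)) (by positivity)
    linarith
  have hHpos : 0 < H := by
    have : (0 : ℝ) < H := by linarith
    exact_mod_cast this
  have hHr : (0 : ℝ) < H := by exact_mod_cast hHpos
  -- Q
  have hQK : L ^ K₁ ≤ Q := by
    refine le_trans ?_ hQ1
    exact Real.rpow_le_rpow_of_exponent_le v1 (by linarith)
  have hPQ : PW w ≤ Q := by
    have h1 : (PW w : ℝ) ≤ Q := by
      have h2 : L ≤ L ^ (K₁ + 1) := by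
        calc L = L ^ (1 : ℝ) := (Real.rpow_one L).symm
          _ ≤ _ := Real.rpow_le_rpow_of_exponent_le v1 (by linarith)
      linarith
    exact_mod_cast h1
  have hQH : Q ^ 4 ≤ H := by
    have h1 : ((Q : ℝ)) ^ 4 ≤ H := by
      calc ((Q : ℝ)) ^ 4 ≤ (Real.exp (Real.sqrt L)) ^ 4 :=
            pow_le_pow_left₀ (Nat.cast_nonneg _) hQ2 4
        _ = Real.exp (4 * Real.sqrt L) := by rw [← Real.exp_nat_mul]; norm_num
        _ ≤ δ * Y := v6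
        _ ≤ H := hH1
    exact_mod_cast h1
  have hJH : Y + cG < 4 ^ J * H := by
    have h1 : ((Y + cG : ℕ) : ℝ) < ((4 ^ J * H : ℕ) : ℝ) := by
      push_cast
      have h2 : (cG : ℝ) ≤ Y := by linarith
      have h3 : 2 / δ * (δ * Y) = 2 * Y := by field_simp
      have h4 : 2 / δ * (δ * Y) < 4 ^ J * (δ * Y) := mul_lt_mul_of_pos_right hJ (by positivity)
      have h5 : (4:ℝ) ^ J * (δ * Y) ≤ 4 ^ J * H := mul_le_mul_of_nonneg_left hH1 (by positivity)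
      linarith
    exact_mod_cast h1
  -- number of blocks
  have hblocks : ((Y / H + 1 : ℕ) : ℝ) ≤ 1 / δ + 1 := by
    push_cast
    have h1 : ((Y / H : ℕ) : ℝ) ≤ (Y : ℝ) / H := Nat.cast_div_le
    have h2 : (Y : ℝ) / H ≤ 1 / δ := by
      rw [div_le_div_iff₀ hHr hδ]
      linarith
    linarith
  have hblocks2 : ((Y / H + 1 : ℕ) : ℝ) * H ≤ 3 * Y := by
    have h1 : ((Y / H + 1 : ℕ) : ℝ) * H = (((Y / H) * H : ℕ) : ℝ) + H := by push_cast; ring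
    have h2 : (((Y / H) * H : ℕ) : ℝ) ≤ Y := by exact_mod_cast Nat.div_mul_le_self Y H
    have h3 : δ * Y ≤ 1 * Y := mul_le_mul_of_nonneg_right hδ1 hYpos.le
    rw [h1]; linarith
  -- first part
  have hfirst : ∀ i ∈ range (Y / H + 1),
      ∑ N ∈ (Icc 1 Y).filter (fun N => (N - 1) / H = i),
      |∑ n ∈ (Icc 1 X).filter (fun n : ℕ => G.eval (n : ℤ) + H ≤ ((i * H : ℕ) : ℤ)),
        f n * (lp ((N : ℤ) - G.eval (n : ℤ)) -
          Pool.Agent.Lib.H68T.G Q ((N : ℤ) - G.eval (n : ℤ)))| ≤ J * (Y * S / L) := by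
    intro i _
    refine ENG_first G cG hcG X Y H J i hHpos hJH f
      (fun m => lp m - Pool.Agent.Lib.H68T.G Q m) (Y * S / L) ?_
    intro j _
    have hTnn : 0 ≤ Y * S / L := by positivity
    by_cases hj : ((4 ^ j * H : ℕ) : ℝ) ≤ 2 * Y
    · have hX₀ : δ * Y ≤ ((4 ^ j * H : ℕ) : ℝ) := by
        refine hH1.trans ?_
        exact_mod_cast Nat.le_mul_of_pos_left H (by positivity)
      have hR := hreg Y Q (4 ^ j * H) hYY2 hQK hQ2 hX₀ hj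
      set f' : ℕ → ℝ := fun n => if n ∈ Icc 1 X then f n / L ^ C else 0 with hf'
      have hLC : 0 < L ^ C := Real.rpow_pos_of_pos hL0 _
      have hf'1 : ∀ n, |f' n| ≤ 1 := by
        intro n
        rw [hf']
        by_cases hn : n ∈ Icc 1 X
        · simp only [hn, if_true]
          rw [abs_of_nonneg (div_nonneg (hf.nonneg n hn) hLC.le), div_le_one hLC]
          exact hf.le n hn
        · simp only [hn, if_false, abs_zero]
          norm_num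
      have hb : (((4 ^ (j + 1) * H : ℕ) : ℤ)) ≤ 4 * ((4 ^ j * H : ℕ) : ℤ) := by
        push_cast; ring_nf; exact le_rfl
      have hd := hdec Y Q (4 ^ j * H) hR hQg hX₀ hj _ hb f' hf'1
        ((Icc 1 X).filter (fun n : ℕ => G.eval (n : ℤ) + H ≤ ((i * H : ℕ) : ℤ)))
        (filter_subset _ _)
      have heq : ∀ N ∈ Icc 1 Y, |∑ n ∈ ((Icc 1 X).filter
          (fun n : ℕ => G.eval (n : ℤ) + H ≤ ((i * H : ℕ) : ℤ))).filter
          (fun n : ℕ => ((4 ^ j * H : ℕ) : ℤ) ≤ (N : ℤ) - G.eval (n : ℤ) ∧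
            (N : ℤ) - G.eval (n : ℤ) < ((4 ^ (j + 1) * H : ℕ) : ℤ)),
            f n * (lp ((N : ℤ) - G.eval (n : ℤ)) -
              Pool.Agent.Lib.H68T.G Q ((N : ℤ) - G.eval (n : ℤ)))| =
          L ^ C * |∑ n ∈ ((Icc 1 X).filter
          (fun n : ℕ => G.eval (n : ℤ) + H ≤ ((i * H : ℕ) : ℤ))).filter
          (fun n : ℕ => ((4 ^ j * H : ℕ) : ℤ) ≤ (N : ℤ) - G.eval (n : ℤ) ∧
            (N : ℤ) - G.eval (n : ℤ) < ((4 ^ (j + 1) * H : ℕ) : ℤ)),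
            f' n * (lp ((N : ℤ) - G.eval (n : ℤ)) -
              Pool.Agent.Lib.H68T.G Q ((N : ℤ) - G.eval (n : ℤ)))| := by
        intro N _
        have habs : ∀ x : ℝ, L ^ C * |x| = |L ^ C * x| := fun x => by
          rw [abs_mul, abs_of_pos hLC]
        rw [habs, mul_sum]
        congr 1
        refine sum_congr rfl fun n hn => ?_
        rw [mem_filter, mem_filter] at hn
        rw [hf']
        simp only [hn.1.1, if_true]
        field_simp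
      rw [sum_congr rfl heq, ← mul_sum]
      refine (mul_le_mul_of_nonneg_left hd hLC.le).trans ?_
      rw [← hX, ← hL]
      have hpow : L ^ (2 * C + 1) = L ^ C * L ^ C * L := by
        rw [← Real.rpow_add hL0, Real.rpow_add_one hL0.ne']
        congr 2; ring
      rw [hpow]
      have hXS : (X : ℝ) ≤ S * L ^ C := hf.large
      rw [← mul_div_assoc, div_le_div_iff₀ (by positivity) hL0]
      calc L ^ C * (Y * X) * L ≤ L ^ C * (Y * (S * L ^ C)) * L := by gcongr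
        _ = Y * S * (L ^ C * L ^ C * L) := by ring
    · have hzero : ∀ N ∈ Icc 1 Y, |∑ n ∈ ((Icc 1 X).filter
          (fun n : ℕ => G.eval (n : ℤ) + H ≤ ((i * H : ℕ) : ℤ))).filter
          (fun n : ℕ => ((4 ^ j * H : ℕ) : ℤ) ≤ (N : ℤ) - G.eval (n : ℤ) ∧
            (N : ℤ) - G.eval (n : ℤ) < ((4 ^ (j + 1) * H : ℕ) : ℤ)),
            f n * (lp ((N : ℤ) - G.eval (n : ℤ)) -
              Pool.Agent.Lib.H68T.G Q ((N : ℤ) - G.eval (n : ℤ)))| = 0 := by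
        intro N hN
        rw [abs_eq_zero]
        apply sum_eq_zero
        intro n hn
        exfalso
        rw [mem_filter] at hn
        rw [mem_Icc] at hN
        have h1 := hn.2.1
        have h2 := hcG n
        apply hj
        have h3 : ((4 ^ j * H : ℕ) : ℤ) ≤ (Y : ℤ) + cG := by omega
        have h4 : ((4 ^ j * H : ℕ) : ℝ) ≤ (Y : ℝ) + cG := by exact_mod_cast h3
        linarith
      rw [sum_congr rfl hzero, sum_const_zero]
      exact hTnn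
  -- second part
  have hsecond : ∀ i ∈ range (Y / H + 1),
      ∑ N ∈ (Icc 1 Y).filter (fun N => (N - 1) / H = i),
      |∑ n ∈ (Icc 1 X).filter (fun n : ℕ => G.eval (n : ℤ) + H ≤ ((i * H : ℕ) : ℤ)),
        f n * (Pool.Agent.Lib.H68T.G Q ((N : ℤ) - G.eval (n : ℤ)) -
          Lw w ((N : ℤ) - G.eval (n : ℤ)))| ≤ ε / 16 * H * S := by
    intro i _
    refine (ENG_second Y H i hHpos (fun N => |∑ n ∈ (Icc 1 X).filter
      (fun n : ℕ => G.eval (n : ℤ) + H ≤ ((i * H : ℕ) : ℤ)),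
        f n * (Pool.Agent.Lib.H68T.G Q (N - G.eval (n : ℤ)) -
          Lw w (N - G.eval (n : ℤ)))|) (fun _ => abs_nonneg _)).trans ?_
    exact hY₁ Y Q hYY1 hPQ hQ2 f S hf _ (filter_subset _ _) _ H hQH
  -- both
  have hmain : ∑ N ∈ Icc 1 Y, |∑ n ∈ (Icc 1 X).filter
      (fun n : ℕ => G.eval (n : ℤ) + H ≤ (((N - 1) / H * H : ℕ) : ℤ)),
        f n * (lp ((N : ℤ) - G.eval (n : ℤ)) - Lw w ((N : ℤ) - G.eval (n : ℤ)))| ≤
      ∑ i ∈ range (Y / H + 1), (J * (Y * S / L) + ε / 16 * H * S) := by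
    refine ENG_block Y H hHpos (fun i N => |∑ n ∈ (Icc 1 X).filter
      (fun n : ℕ => G.eval (n : ℤ) + H ≤ ((i * H : ℕ) : ℤ)),
        f n * (lp ((N : ℤ) - G.eval (n : ℤ)) - Lw w ((N : ℤ) - G.eval (n : ℤ)))|) _ ?_
    intro i hi
    refine le_trans ?_ (add_le_add (hfirst i hi) (hsecond i hi))
    rw [← sum_add_distrib]
    refine sum_le_sum fun N _ => ?_
    refine le_trans (le_of_eq ?_) (abs_add_le _ _)
    rw [← sum_add_distrib]
    congr 1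
    refine sum_congr rfl fun n _ => ?_
    ring
  -- rest
  have hψT : ∑ m ∈ Icc (1 : ℤ) (2 * H : ℕ), (lp m + Lw w m) ≤ (2 * Cl + 4) * H := by
    rw [sum_add_distrib]
    have h1 := hlp (2 * H)
    have hPH : PW w ≤ 2 * H := by
      have : (PW w : ℝ) ≤ ((2 * H : ℕ) : ℝ) := by push_cast; linarith
      exact_mod_cast this
    have h2 := sum_Lw_le w (2 * H) hPH 1
    have h3 : Icc (1 : ℤ) (2 * H : ℕ) = Ico 1 (1 + ((2 * H : ℕ) : ℤ)) := by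
      ext m; rw [mem_Icc, mem_Ico]; omega
    rw [h3] at h1 ⊢
    push_cast at h1 h2 ⊢
    linarith
  have hrest := ENG_rest G X Y H f hf.nonneg S ((2 * Cl + 4) * H) hmass (by positivity)
    (fun m => lp m + Lw w m) (fun m => add_nonneg (ENG_lp_nonneg m) (ENG_Lw_nonneg w m)) hψT
  have hsplit : ∀ N ∈ Icc 1 Y, |∑ n ∈ (Icc 1 X).filter (fun n : ℕ => G.eval (n : ℤ) < N),
      f n * (lp ((N : ℤ) - G.eval (n : ℤ)) - Lw w ((N : ℤ) - G.eval (n : ℤ)))| ≤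
      |∑ n ∈ (Icc 1 X).filter (fun n : ℕ => G.eval (n : ℤ) + H ≤ (((N - 1) / H * H : ℕ) : ℤ)),
        f n * (lp ((N : ℤ) - G.eval (n : ℤ)) - Lw w ((N : ℤ) - G.eval (n : ℤ)))| +
      ∑ n ∈ (Icc 1 X).filter (fun n : ℕ => 1 ≤ (N : ℤ) - G.eval (n : ℤ) ∧
        (N : ℤ) - G.eval (n : ℤ) ≤ (2 * H : ℕ)),
          f n * (lp ((N : ℤ) - G.eval (n : ℤ)) + Lw w ((N : ℤ) - G.eval (n : ℤ))) := by
    intro N hN
    rw [mem_Icc] at hN
    exact ENG_split G X N H hN.1 hHpos f hf.nonneg (fun m => lp m - Lw w m)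
      (fun m => lp m + Lw w m) (fun m => by
        rw [abs_le]
        have h1 := ENG_lp_nonneg m
        have h2 := ENG_Lw_nonneg w m
        constructor <;> linarith)
  refine (sum_le_sum hsplit).trans ?_
  rw [sum_add_distrib]
  refine (add_le_add hmain hrest).trans ?_
  rw [sum_const, card_range, nsmul_eq_mul]
  have t1 : ((Y / H + 1 : ℕ) : ℝ) * (J * (Y * S / L)) ≤ ε / 4 * (Y * S) := by
    calc ((Y / H + 1 : ℕ) : ℝ) * (J * (Y * S / L)) ≤ (1 / δ + 1) * (J * (Y * S / L)) := by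
          gcongr
      _ = ((1 / δ + 1) * J / L) * (Y * S) := by ring
      _ ≤ ε / 4 * (Y * S) := mul_le_mul_of_nonneg_right v7 (by positivity)
  have t2 : ((Y / H + 1 : ℕ) : ℝ) * (ε / 16 * H * S) ≤ 3 * ε / 16 * (Y * S) := by
    calc ((Y / H + 1 : ℕ) : ℝ) * (ε / 16 * H * S) = ε / 16 * S * (((Y / H + 1 : ℕ) : ℝ) * H) := by
          ring
      _ ≤ ε / 16 * S * (3 * Y) := mul_le_mul_of_nonneg_left hblocks2 (by positivity)
      _ = _ := by ring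
  have t3 : S * ((2 * Cl + 4) * H) ≤ ε / 4 * (Y * S) := by
    have h1 : (2 * Cl + 4) * (H : ℝ) ≤ (2 * Cl + 4) * (2 * (ε / (16 * (Cl + 2)) * Y)) := by
      have h2 : (H : ℝ) ≤ 2 * (ε / (16 * (Cl + 2)) * Y) := by
        refine hH2.trans ?_
        gcongr
      exact mul_le_mul_of_nonneg_left h2 (by positivity)
    have h3 : (2 * Cl + 4) * (2 * (ε / (16 * (Cl + 2)) * Y)) = ε / 4 * Y := by
      field_simp
      ring
    calc S * ((2 * Cl + 4) * H) ≤ S * (ε / 4 * Y) :=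
          mul_le_mul_of_nonneg_left (h1.trans h3.le) hS0
      _ = _ := by ring
  have hYS : 0 ≤ (Y : ℝ) * S := by positivity
  nlinarith

end Pool.Agent.Lib.H33B
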