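import Pool.Agent.Lib.H33B.SR1
import Pool.Agent.Lib.H33B.CV4
import Pool.Agent.Lib.H33B.AC

/-!
# Chunk FA1: the model under the Bateman-Horn asymptotics
-/

open Finset Polynomial Filter Topology

namespace Pool.Agent.Lib.H33B

open Pool.Agent.Lib.H59 (argSet argCount omegaN seriesTrunc argSet_eq argCount_tendsto)

variable {g : ℕ}

theorem FA1_cop {m m' P : ℤ} (h : P ∣ m - m') : IsCoprime m P ↔ IsCoprime m' P := by
  obtain ⟨k, hk⟩ := h
  have e : m = m' + P * k := by linear_combination hk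
  rw [e]
  exact IsCoprime.add_mul_left_left_iff

theorem FA1_Lw (w : ℕ) {m m' : ℤ} (h : (PW w : ℤ) ∣ m - m') : Lw w m = Lw w m' := by
  unfold Lw Lq
  have := FA1_cop h
  by_cases h1 : IsCoprime m (PW w : ℤ)
  · rw [if_pos h1, if_pos (this.mp h1)]
  · rw [if_neg h1, if_neg (fun h2 => h1 (this.mpr h2))]

theorem FA1_Lw_nonneg (w : ℕ) (m : ℤ) : 0 ≤ Lw w m := by
  unfold Lw Lq
  split_ifs <;> positivity

theorem FA1_Lw_le (w : ℕ) (m : ℤ) : Lw w m ≤ (PW w : ℝ) / Nat.totient (PW w) := by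
  unfold Lw Lq
  split_ifs
  · exact le_rfl
  · positivity

theorem FA1_split (F : Fin g → ℤ[X]) (G : ℤ[X]) (w N : ℕ)
    (hA : argSet G N = ↑(Finset.Icc 1 (argCount G N))) :
    Mw F G w N = ∑ b ∈ range (PW w), Lw w (N - G.eval (b : ℤ)) *
      (cntF F (PW w) b (argCount G N) : ℝ) := by
  classical
  have hP : 0 < PW w := PW_pos w
  have h1 : (AF F (argCount G N)).filter (fun n : ℕ => G.eval (n : ℤ) < N) =
      AF F (argCount G N) := by
    rw [filter_eq_self]
    intro n hn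
    unfold AF at hn
    rw [mem_filter] at hn
    have h2 : n ∈ argSet G N := by
      rw [hA]
      exact_mod_cast hn.1
    have h3 := h2.2
    omega
  unfold Mw
  rw [h1, ← sum_fiberwise_of_maps_to (s := AF F (argCount G N)) (t := range (PW w))
    (g := fun n => n % PW w) (fun n _ => mem_range.mpr (Nat.mod_lt _ hP))]
  refine sum_congr rfl fun b hb => ?_
  have hb' := mem_range.mp hb
  have h2 : ∀ n ∈ (AF F (argCount G N)).filter (fun n => n % PW w = b),
      Lw w (N - G.eval (n : ℤ)) = Lw w (N - G.eval (b : ℤ)) := by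
    intro n hn
    have h3 : n % PW w = b := (mem_filter.mp hn).2
    refine FA1_Lw w ?_
    have h4 : (PW w : ℤ) ∣ (b : ℤ) - n := by
      have h5 : n ≡ b [MOD PW w] := by
        unfold Nat.ModEq
        rw [h3, Nat.mod_eq_of_lt hb']
      exact Nat.modEq_iff_dvd.mp h5
    have h5 := h4.trans (Polynomial.sub_dvd_eval_sub (b : ℤ) (n : ℤ) G)
    have e : ((N : ℤ) - G.eval (n : ℤ)) - ((N : ℤ) - G.eval (b : ℤ)) =
      G.eval (b : ℤ) - G.eval (n : ℤ) := by ring
    rw [e]
    exact h5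
  rw [sum_congr rfl h2, sum_const, nsmul_eq_mul, mul_comm]
  congr 2
  unfold cntF
  congr 1
  refine filter_congr fun n _ => ?_
  unfold Nat.ModEq
  rw [Nat.mod_eq_of_lt hb']

theorem FA1_bad (F : Fin g → ℤ[X]) (hF : Sys F) (w : ℕ) : ∃ K : ℕ, ∀ b : ℕ,
    ¬ IsCoprime ((∏ i, F i).eval (b : ℤ)) (PW w : ℤ) → ∀ x : ℕ, cntF F (PW w) b x ≤ K := by
  classical
  refine ⟨∑ i, ∑ p ∈ Nat.primesBelow w, (F i - C (p : ℤ)).roots.toFinset.card,
    fun b hb x => ?_⟩
  rw [SR1_coprime] at hb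
  push Not at hb
  obtain ⟨p, hp, hpd⟩ := hb
  have hpp : p.Prime := Nat.prime_of_mem_primesBelow hp
  have hp' : Prime (p : ℤ) := Nat.prime_iff_prime_int.1 hpp
  rw [eval_prod, Prime.dvd_finsetProd_iff hp'] at hpd
  obtain ⟨i, -, hi⟩ := hpd
  have hpP : p ∣ PW w := by
    unfold PW
    exact dvd_prod_of_mem _ hp
  have hne : F i - C (p : ℤ) ≠ 0 := by
    intro h0
    have h1 : F i = C (p : ℤ) := by linear_combination h0
    have h2 := hF.deg i
    rw [h1, natDegree_C] at h2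
    omega
  have h1 : cntF F (PW w) b x ≤ (F i - C (p : ℤ)).roots.toFinset.card := by
    unfold cntF
    refine card_le_card_of_injOn (fun n : ℕ => (n : ℤ)) ?_ ?_
    · intro n hn
      rw [mem_coe, mem_filter] at hn
      obtain ⟨hn1, hn2⟩ := hn
      unfold AF at hn1
      rw [mem_filter] at hn1
      obtain ⟨q, hq, hqe⟩ := hn1.2 i
      have h2 : (p : ℤ) ∣ (F i).eval (n : ℤ) := by
        have h3 : (p : ℤ) ∣ (n : ℤ) - b := by
          have h4 := (hn2.of_dvd hpP).symm
          exact Nat.modEq_iff_dvd.mp h4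
        have h4 := h3.trans (Polynomial.sub_dvd_eval_sub (n : ℤ) (b : ℤ) (F i))
        have h5 := dvd_add h4 hi
        rwa [sub_add_cancel] at h5
      rw [hqe] at h2
      have h3 : p ∣ q := by exact_mod_cast h2
      have h4 : p = q := (Nat.prime_dvd_prime_iff_eq hpp hq).mp h3
      rw [mem_coe, Multiset.mem_toFinset, mem_roots hne]
      change (F i - C (p : ℤ)).eval (n : ℤ) = 0
      rw [eval_sub, eval_C, hqe, h4, sub_self]
    · intro a _ b _ hab
      exact Nat.cast_injective (R := ℤ) hab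
  refine h1.trans ?_
  have h2 : (F i - C (p : ℤ)).roots.toFinset.card ≤
      ∑ p ∈ Nat.primesBelow w, (F i - C (p : ℤ)).roots.toFinset.card :=
    single_le_sum (f := fun p : ℕ => (F i - C (p : ℤ)).roots.toFinset.card)
      (fun _ _ => Nat.zero_le _) hp
  exact h2.trans (single_le_sum (f := fun i : Fin g => ∑ p ∈ Nat.primesBelow w,
    (F i - C (p : ℤ)).roots.toFinset.card) (fun _ _ => Nat.zero_le _) (mem_univ i))

theorem FA1_sum (F : Fin g → ℤ[X]) (G : ℤ[X]) (w N : ℕ) :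
    ∑ b ∈ (range (PW w)).filter (fun b : ℕ => IsCoprime ((∏ i, F i).eval (b : ℤ)) (PW w : ℤ)),
      Lw w (N - G.eval (b : ℤ)) =
      PW w * ((Nat.totient (PW w) : ℝ) / PW w) ^ g * seriesTrunc F G N w := by
  classical
  have hP : (0 : ℝ) < PW w := by exact_mod_cast PW_pos w
  have ht : (0 : ℝ) < Nat.totient (PW w) := by exact_mod_cast Nat.totient_pos.mpr (PW_pos w)
  rw [series_count]
  have h1 : ∑ b ∈ (range (PW w)).filter
      (fun b : ℕ => IsCoprime ((∏ i, F i).eval (b : ℤ)) (PW w : ℤ)), Lw w (N - G.eval (b : ℤ)) =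
      ∑ b ∈ ((range (PW w)).filter
        (fun b : ℕ => IsCoprime ((∏ i, F i).eval (b : ℤ)) (PW w : ℤ))).filter
          (fun b : ℕ => IsCoprime ((N : ℤ) - G.eval (b : ℤ)) (PW w : ℤ)),
        (PW w : ℝ) / Nat.totient (PW w) := by
    rw [sum_filter (fun b : ℕ => IsCoprime ((N : ℤ) - G.eval (b : ℤ)) (PW w : ℤ))]
    refine sum_congr rfl fun b _ => ?_
    unfold Lw Lq
    rfl
  rw [h1, filter_filter, sum_const, nsmul_eq_mul]
  have h2 : (range (PW w)).filter (fun b : ℕ => IsCoprime ((∏ i, F i).eval (b : ℤ)) (PW w : ℤ) ∧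
      IsCoprime ((N : ℤ) - G.eval (b : ℤ)) (PW w : ℤ)) =
      (range (PW w)).filter (fun b : ℕ =>
        IsCoprime (((∏ i, F i) * (C (N : ℤ) - G)).eval (b : ℤ)) (PW w : ℤ)) := by
    refine filter_congr fun b _ => ?_
    rw [eval_mul, IsCoprime.mul_left_iff, eval_sub, eval_C]
  rw [h2, pow_succ]
  have h3 : ((Nat.totient (PW w) : ℝ) / PW w) ^ g * ((PW w : ℝ) / Nat.totient (PW w)) ^ g = 1 := by
    rw [← mul_pow, div_mul_div_comm, mul_comm (Nat.totient (PW w) : ℝ), div_self (by positivity),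
      one_pow]
  generalize (((range (PW w)).filter (fun b : ℕ =>
        IsCoprime (((∏ i, F i) * (C (N : ℤ) - G)).eval (b : ℤ)) (PW w : ℤ))).card : ℝ) = k
  calc k * ((PW w : ℝ) / Nat.totient (PW w)) =
      (((Nat.totient (PW w) : ℝ) / PW w) ^ g * ((PW w : ℝ) / Nat.totient (PW w)) ^ g) *
        (k * ((PW w : ℝ) / Nat.totient (PW w))) := by rw [h3, one_mul]
    _ = _ := by
      field_simp

/-- For `N` large `argSet G N = [1, X]`, `X = argCount G N` (`H59.argSet_eq`), and with `P = PW w` (squarefree)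
`Mw F G w N = ∑_{b mod P} Lw(N - G(b)) cntF F P b X`. If `(F(b), P) > 1` the count is bounded (a prime
`p ∣ P` divides some `F_i(n)`, so `F_i(n) = p`; at most `deg F_i` values of `n` for each `i, p`), if
`(F(b),P) = 1` it is `(bhConst F P/(P ∏ deg F_i) + o(1)) X/log^g X`. So
`Mw = (bhConst F P/(P ∏ deg)) dens ∑_{b : (F(b),P) = 1} Lw(N - G(b)) + o(dens)`, and the sum over `b` is
`(P/φ(P)) #{b mod P : (F(b)(N - G(b)), P) = 1} = P (φ(P)/P)^g seriesTrunc F G N w` by `series_count`.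
`dens → ∞` (`dens_tendsto`). -/
theorem model_bh (F : Fin g → ℤ[X]) (hF : Sys F) (hN : NoFix F)
    (h : ∀ q : ℕ, Squarefree q → BHClass F q) (G : ℤ[X]) (hk : 1 ≤ G.natDegree)
    (hl : 0 < G.leadingCoeff) (w : ℕ) (ε : ℝ) (hε : 0 < ε) : ∃ N₀ : ℕ, ∀ N : ℕ, N₀ ≤ N →
    |Mw F G w N - (bhConst F (PW w) * ((Nat.totient (PW w) : ℝ) / PW w) ^ g /
      ∏ i, ((F i).natDegree : ℝ)) * (dens G g N * seriesTrunc F G N w)| ≤ ε * dens G g N := by
  classical
  have hP : (0 : ℝ) < PW w := by exact_mod_cast PW_pos w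
  have ht : (0 : ℝ) < Nat.totient (PW w) := by exact_mod_cast Nat.totient_pos.mpr (PW_pos w)
  obtain ⟨R, hR⟩ : ∃ R, R = (PW w : ℝ) / Nat.totient (PW w) := ⟨_, rfl⟩
  have hR0 : 0 < R := by rw [hR]; positivity
  obtain ⟨δ, hδ⟩ : ∃ δ, δ = ε / (PW w * R) := ⟨_, rfl⟩
  have hδ0 : 0 < δ := by rw [hδ]; positivity
  obtain ⟨K, hK⟩ := FA1_bad F hF w
  obtain ⟨c, hc⟩ : ∃ c, c = bhConst F (PW w) / (PW w * ∏ i, ((F i).natDegree : ℝ)) := ⟨_, rfl⟩
  have hX := argCount_tendsto hk hl
  have hd := dens_tendsto G hk hl g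
  have hgood : ∀ᶠ N : ℕ in atTop, ∀ b ∈ range (PW w),
      IsCoprime ((∏ i, F i).eval (b : ℤ)) (PW w : ℤ) →
      |(cntF F (PW w) b (argCount G N) : ℝ) - c * dens G g N| ≤ δ * dens G g N := by
    rw [Filter.eventually_all_finset]
    intro b _
    by_cases hb : IsCoprime ((∏ i, F i).eval (b : ℤ)) (PW w : ℤ)
    · have h1 := (h (PW w) (PW_squarefree w) b hb).comp hX
      rw [← hc] at h1
      have h2 := (Metric.tendsto_atTop.mp h1) δ hδ0
      obtain ⟨N₁, hN₁⟩ := h2
      filter_upwards [eventually_ge_atTop N₁, hX.eventually_ge_atTop 3] with N hN2 hN3 _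
      have h3 := hN₁ N hN2
      rw [Real.dist_eq, Function.comp_apply] at h3
      have hx : (3 : ℝ) ≤ argCount G N := by exact_mod_cast hN3
      have hL : 0 < Real.log (argCount G N) := Real.log_pos (by linarith)
      have hD : 0 < dens G g N := by
        unfold dens
        have : (0 : ℝ) < argCount G N := by linarith
        positivity
      have e1 : (cntF F (PW w) b (argCount G N) : ℝ) * Real.log (argCount G N) ^ g /
          (argCount G N : ℝ) * dens G g N = (cntF F (PW w) b (argCount G N) : ℝ) := by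
        unfold dens
        have h4 : (argCount G N : ℝ) ≠ 0 := by linarith
        field_simp
      calc |(cntF F (PW w) b (argCount G N) : ℝ) - c * dens G g N|
          = |((cntF F (PW w) b (argCount G N) : ℝ) * Real.log (argCount G N) ^ g /
            (argCount G N : ℝ) - c) * dens G g N| := by rw [sub_mul, e1]
        _ = |(cntF F (PW w) b (argCount G N) : ℝ) * Real.log (argCount G N) ^ g /
            (argCount G N : ℝ) - c| * dens G g N := by rw [abs_mul, abs_of_pos hD]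
        _ ≤ δ * dens G g N := mul_le_mul_of_nonneg_right h3.le hD.le
    · exact Eventually.of_forall fun N h => absurd h hb
  have hall := (hgood.and (argSet_eq hk hl)).and ((hd.eventually_ge_atTop (K / δ)).and
    (hd.eventually_ge_atTop 0))
  obtain ⟨N₀, hN₀⟩ := eventually_atTop.mp hall
  refine ⟨N₀, fun N hN1 => ?_⟩
  obtain ⟨⟨h1, h2⟩, h3, h4⟩ := hN₀ N hN1
  rw [FA1_split F G w N h2]
  have e1 : (bhConst F (PW w) * ((Nat.totient (PW w) : ℝ) / PW w) ^ g /
      ∏ i, ((F i).natDegree : ℝ)) * (dens G g N * seriesTrunc F G N w) =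
      ∑ b ∈ range (PW w), Lw w (N - G.eval (b : ℤ)) *
        (if IsCoprime ((∏ i, F i).eval (b : ℤ)) (PW w : ℤ) then c * dens G g N else 0) := by
    have e2 : ∑ b ∈ range (PW w), Lw w (N - G.eval (b : ℤ)) *
        (if IsCoprime ((∏ i, F i).eval (b : ℤ)) (PW w : ℤ) then c * dens G g N else 0) =
        ∑ b ∈ (range (PW w)).filter
          (fun b : ℕ => IsCoprime ((∏ i, F i).eval (b : ℤ)) (PW w : ℤ)),
            Lw w (N - G.eval (b : ℤ)) * (c * dens G g N) := by
      rw [sum_filter]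
      refine sum_congr rfl fun b _ => ?_
      split_ifs <;> simp
    rw [e2, ← sum_mul, FA1_sum, hc]
    field_simp
  rw [e1, ← sum_sub_distrib]
  have hterm : ∀ b ∈ range (PW w), |Lw w (N - G.eval (b : ℤ)) *
      (cntF F (PW w) b (argCount G N) : ℝ) - Lw w (N - G.eval (b : ℤ)) *
        (if IsCoprime ((∏ i, F i).eval (b : ℤ)) (PW w : ℤ) then c * dens G g N else 0)| ≤
      R * (δ * dens G g N) := by
    intro b hb
    rw [← mul_sub, abs_mul, abs_of_nonneg (FA1_Lw_nonneg _ _)]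
    refine mul_le_mul ((FA1_Lw_le _ _).trans_eq hR.symm) ?_ (abs_nonneg _) hR0.le
    by_cases hbc : IsCoprime ((∏ i, F i).eval (b : ℤ)) (PW w : ℤ)
    · rw [if_pos hbc]
      exact h1 b hb hbc
    · rw [if_neg hbc, sub_zero, abs_of_nonneg (Nat.cast_nonneg _)]
      have h5 : (cntF F (PW w) b (argCount G N) : ℝ) ≤ K := by
        exact_mod_cast hK b hbc _
      rw [div_le_iff₀ hδ0] at h3
      linarith
  refine (abs_sum_le_sum_abs _ _).trans ((sum_le_sum hterm).trans (le_of_eq ?_))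
  rw [sum_const, card_range, nsmul_eq_mul, hδ]
  field_simp

end Pool.Agent.Lib.H33B
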