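import Pool.Agent.Lib.H33B.CV4
import Pool.Agent.Lib.H33B.AC
import Pool.Agent.Lib.H59.PolySieve
import Pool.Agent.Lib.H59.SchinzelUpper

/-!
# Chunk FS: the upper bound sieve in residue classes
-/

open Finset Polynomial Filter Topology

namespace Pool.Agent.Lib.H33B

open Pool.Agent.Lib.H59 (argCount rootCount poly_sieve card_value_le rootCount_prod_le
  rootCount_le_natDegree dvd_eval_mod_iff prod_one_sub_inv_le argCount_tendsto)

variable {g : ℕ}

/-- `P(q m + b)` -/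
noncomputable def FS_P (P : ℤ[X]) (q b : ℕ) : ℤ[X] := P.comp (C (q : ℤ) * X + C (b : ℤ))

theorem FS_eval (P : ℤ[X]) (q b m : ℕ) :
    (FS_P P q b).eval (m : ℤ) = P.eval ((q * m + b : ℕ) : ℤ) := by
  unfold FS_P
  rw [eval_comp]
  simp

theorem FS_deg (P : ℤ[X]) {q : ℕ} (hq : 1 ≤ q) (b : ℕ) : (FS_P P q b).natDegree = P.natDegree := by
  unfold FS_P
  rw [natDegree_comp, natDegree_linear (by exact_mod_cast (by omega : q ≠ 0)), mul_one]

theorem FS_root (P : ℤ[X]) {p q : ℕ} (b : ℕ) (hp : p.Prime) (hq : ¬ p ∣ q) :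
    rootCount (FS_P P q b) p = rootCount P p := by
  classical
  set φ : ℕ → ℕ := fun a => (q * a + b) % p with hφ
  have hinj : Set.InjOn φ (Finset.range p : Set ℕ) := by
    intro a ha c hc h
    rw [Finset.mem_coe, Finset.mem_range] at ha hc
    have h0 : q * a + b ≡ q * c + b [MOD p] := h
    have h1 := Nat.ModEq.add_right_cancel' b h0
    have h2 : a ≡ c [MOD p] :=
      Nat.ModEq.cancel_left_of_coprime ((hp.coprime_iff_not_dvd).2 hq) h1
    unfold Nat.ModEq at h2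
    rwa [Nat.mod_eq_of_lt ha, Nat.mod_eq_of_lt hc] at h2
  have himg : (Finset.range p).image φ = Finset.range p := by
    apply eq_of_subset_of_card_le
    · intro x hx
      rw [mem_image] at hx
      obtain ⟨a, _, rfl⟩ := hx
      rw [Finset.mem_range]
      exact Nat.mod_lt _ hp.pos
    · rw [card_image_of_injOn hinj]
  have hkey : ∀ a : ℕ, (p : ℤ) ∣ (FS_P P q b).eval (a : ℤ) ↔ (p : ℤ) ∣ P.eval ((φ a : ℕ) : ℤ) := by
    intro a
    rw [FS_eval, hφ, dvd_eval_mod_iff]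
  have h1 : (Finset.range p).filter (fun c : ℕ => (p : ℤ) ∣ P.eval (c : ℤ)) =
      ((Finset.range p).filter (fun a : ℕ => (p : ℤ) ∣ (FS_P P q b).eval (a : ℤ))).image φ := by
    ext c
    rw [mem_image, mem_filter]
    constructor
    · rintro ⟨h2, h3⟩
      rw [← himg, mem_image] at h2
      obtain ⟨a, ha, rfl⟩ := h2
      exact ⟨a, mem_filter.2 ⟨ha, (hkey a).2 h3⟩, rfl⟩
    · rintro ⟨a, ha, rfl⟩
      rw [mem_filter] at ha
      refine ⟨?_, (hkey a).1 ha.2⟩
      rw [← himg]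
      exact mem_image_of_mem _ ha.1
  unfold rootCount
  rw [h1, card_image_of_injOn]
  exact hinj.mono fun a ha => (mem_filter.1 (Finset.mem_coe.1 ha)).1

theorem FS_root0 (P : ℤ[X]) {p q : ℕ} (b : ℕ) (hq : p ∣ q)
    (h : ¬ (p : ℤ) ∣ P.eval (b : ℤ)) : rootCount (FS_P P q b) p = 0 := by
  classical
  unfold rootCount
  rw [card_eq_zero, filter_eq_empty_iff]
  intro a _ h1
  apply h
  rw [FS_eval] at h1
  rw [← dvd_eval_mod_iff] at h1 ⊢
  have h2 : (q * a + b) % p = b % p := by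
    obtain ⟨c, rfl⟩ := hq
    rw [mul_assoc, Nat.mul_add_mod]
  rwa [h2] at h1

theorem FS_prodP (F : Fin g → ℤ[X]) (q b : ℕ) :
    ∏ i, FS_P (F i) q b = FS_P (∏ i, F i) q b := by
  unfold FS_P
  rw [Polynomial.prod_comp]

/-- `∑ deg F_i` -/
noncomputable def FS_D (F : Fin g → ℤ[X]) : ℕ := ∑ i, (F i).natDegree

theorem FS_wle (F : Fin g → ℤ[X]) (hF : Sys F) (p : ℕ) (hp : p.Prime) : wF F p ≤ FS_D F := by
  refine (rootCount_prod_le Finset.univ F hp).trans (Finset.sum_le_sum fun i _ => ?_)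
  exact rootCount_le_natDegree ((hF.irr i).isPrimitive (by have := hF.deg i; omega)) hp

theorem FS_fac (F : Fin g → ℤ[X]) (hN : NoFix F) (p : ℕ) (hp : p.Prime) :
    0 < 1 - (wF F p : ℝ) / p ∧ 1 - (wF F p : ℝ) / p ≤ 1 := by
  have hp0 : (0 : ℝ) < p := by exact_mod_cast hp.pos
  have h1 : (wF F p : ℝ) < p := by exact_mod_cast wF_lt F hN p hp
  have h2 : (wF F p : ℝ) / p < 1 := (div_lt_one hp0).2 h1
  have h3 : 0 ≤ (wF F p : ℝ) / p := by positivity
  constructor <;> linarith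

/-- the product over `p ∣ q` -/
noncomputable def FS_Q (F : Fin g → ℤ[X]) (q : ℕ) : ℝ := ∏ p ∈ q.primeFactors, (1 - (wF F p : ℝ) / p)

theorem FS_Qpos (F : Fin g → ℤ[X]) (hN : NoFix F) (q : ℕ) : 0 < FS_Q F q ∧ FS_Q F q ≤ 1 := by
  constructor
  · exact prod_pos fun p hp => (FS_fac F hN p (Nat.prime_of_mem_primeFactors hp)).1
  · exact prod_le_one (fun p hp => (FS_fac F hN p (Nat.prime_of_mem_primeFactors hp)).1.le)
      fun p hp => (FS_fac F hN p (Nat.prime_of_mem_primeFactors hp)).2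

/-- The sieve product. -/
theorem FS_prod (F : Fin g → ℤ[X]) (hN : NoFix F) (q b z : ℕ) (hq : 1 ≤ q)
    (hb : ∀ p ∈ q.primeFactors, ¬ (p : ℤ) ∣ (∏ i, F i).eval (b : ℤ)) :
    ∏ p ∈ Nat.primesBelow z, (1 - (rootCount (FS_P (∏ i, F i) q b) p : ℝ) / p) ≤
      (∏ p ∈ Nat.primesBelow z, (1 - (wF F p : ℝ) / p)) * (FS_Q F q)⁻¹ := by
  classical
  have h1 : ∀ p ∈ Nat.primesBelow z, 1 - (rootCount (FS_P (∏ i, F i) q b) p : ℝ) / p =
      (1 - (wF F p : ℝ) / p) * (if p ∣ q then (1 - (wF F p : ℝ) / p)⁻¹ else 1) := by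
    intro p hp
    have hpp := Nat.prime_of_mem_primesBelow hp
    split_ifs with hpq
    · rw [FS_root0 _ b hpq (hb p (Nat.mem_primeFactors.2 ⟨hpp, hpq, by omega⟩)),
        mul_inv_cancel₀ (FS_fac F hN p hpp).1.ne']
      simp
    · rw [FS_root _ b hpp hpq, mul_one]
      rfl
  rw [prod_congr rfl h1, prod_mul_distrib]
  apply mul_le_mul_of_nonneg_left _
    (prod_nonneg fun p hp => (FS_fac F hN p (Nat.prime_of_mem_primesBelow hp)).1.le)
  rw [← prod_filter, FS_Q, ← prod_inv_distrib]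
  have hsub : (Nat.primesBelow z).filter (fun p => p ∣ q) ⊆ q.primeFactors := by
    intro p hp
    rw [mem_filter] at hp
    exact Nat.mem_primeFactors.2 ⟨Nat.prime_of_mem_primesBelow hp.1, hp.2, by omega⟩
  rw [← prod_sdiff hsub]
  have h2 : 1 ≤ ∏ p ∈ q.primeFactors \ (Nat.primesBelow z).filter (fun p => p ∣ q),
      (1 - (wF F p : ℝ) / p)⁻¹ := by
    have h3 : ∏ p ∈ q.primeFactors \ (Nat.primesBelow z).filter (fun p => p ∣ q), (1 : ℝ) ≤
        ∏ p ∈ q.primeFactors \ (Nat.primesBelow z).filter (fun p => p ∣ q),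
          (1 - (wF F p : ℝ) / p)⁻¹ := by
      refine prod_le_prod (fun _ _ => zero_le_one) fun p hp => ?_
      obtain ⟨h4, h5⟩ := FS_fac F hN p (Nat.prime_of_mem_primeFactors (mem_sdiff.1 hp).1)
      exact (one_le_inv₀ h4).2 h5
    rwa [prod_const_one] at h3
  have h3 : 0 ≤ ∏ p ∈ (Nat.primesBelow z).filter (fun p => p ∣ q),
      (1 - (wF F p : ℝ) / p)⁻¹ := by
    refine prod_nonneg fun p hp => ?_
    have := (FS_fac F hN p (Nat.prime_of_mem_primesBelow (mem_filter.1 hp).1)).1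
    positivity
  nlinarith

theorem FS_bh (F : Fin g → ℤ[X]) (hN : NoFix F) (z : ℕ) :
    ∏ p ∈ Nat.primesBelow z, (1 - (wF F p : ℝ) / p) =
      bhTrunc F 1 z * (∏ p ∈ Nat.primesBelow z, (1 - (p : ℝ)⁻¹)) ^ g := by
  unfold bhTrunc
  rw [← prod_pow, ← prod_mul_distrib]
  refine prod_congr rfl fun p hp => ?_
  have hpp := Nat.prime_of_mem_primesBelow hp
  have h2 := (CV4_pos F hN 1 p hpp).2
  rw [if_neg hpp.not_dvd_one, mul_assoc, one_div, inv_mul_cancel₀, mul_one]
  rw [one_div] at h2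
  positivity

theorem FS_mert (F : Fin g → ℤ[X]) (hF : Sys F) (hN : NoFix F) : ∃ C : ℝ, 0 < C ∧
    ∀ z : ℕ, 2 ≤ z → ∏ p ∈ Nat.primesBelow z, (1 - (wF F p : ℝ) / p) ≤
      C * (1 / Real.log z) ^ g := by
  obtain ⟨c, C, _, hC⟩ := bh_bounds F hF hN
  refine ⟨max C 1, by positivity, fun z hz => ?_⟩
  have h1 := FS_bh F hN z
  have h2 : 0 ≤ ∏ p ∈ Nat.primesBelow z, (1 - (p : ℝ)⁻¹) := by
    refine prod_nonneg fun p hp => ?_
    have h2 := (CV4_pos F hN 1 p (Nat.prime_of_mem_primesBelow hp)).2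
    rw [one_div] at h2
    exact h2.le
  rw [h1]
  have h3 := (hC z).2.trans (le_max_left C 1)
  have h4 := pow_le_pow_left₀ h2 (prod_one_sub_inv_le hz) g
  exact mul_le_mul h3 h4 (pow_nonneg h2 g) (by positivity)

theorem FS_mod (F : Fin g → ℤ[X]) (q b X : ℕ) : cntF F q b X = cntF F q (b % q) X := by
  unfold cntF
  congr 1
  refine filter_congr fun n _ => ?_
  unfold Nat.ModEq
  rw [Nat.mod_mod]

/-- Case A: a prime `p ∣ q` divides `F_1(b) ⋯ F_g(b)`. -/
theorem FS_caseA (F : Fin g → ℤ[X]) (hF : Sys F) (X q b p : ℕ) (hp : p.Prime) (hpq : p ∣ q)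
    (h : (p : ℤ) ∣ (∏ i, F i).eval (b : ℤ)) : cntF F q b X ≤ FS_D F := by
  classical
  unfold cntF
  have hsub : (AF F X).filter (fun n => n ≡ b [MOD q]) ⊆
      Finset.univ.biUnion fun i => (Icc 1 X).filter fun n : ℕ => (F i).eval (n : ℤ) = (p : ℤ) := by
    intro n hn
    rw [mem_filter, AF, mem_filter] at hn
    obtain ⟨⟨hn1, hn2⟩, hn3⟩ := hn
    have h1 : n % p = b % p := hn3.of_dvd hpq
    rw [← dvd_eval_mod_iff, ← h1, dvd_eval_mod_iff, eval_prod] at h
    have hpZ := Nat.prime_iff_prime_int.1 hp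
    obtain ⟨i, _, hi⟩ := (hpZ.dvd_finsetProd_iff _).1 h
    obtain ⟨r, hr, hre⟩ := hn2 i
    rw [mem_biUnion]
    refine ⟨i, mem_univ _, mem_filter.2 ⟨hn1, ?_⟩⟩
    rw [hre] at hi ⊢
    rw [Int.natCast_dvd_natCast, Nat.prime_dvd_prime_iff_eq hp hr] at hi
    rw [hi]
  refine (card_le_card hsub).trans (card_biUnion_le.trans (sum_le_sum fun i _ => ?_))
  exact card_value_le (hF.deg i) _ _

/-- Case B: the sieve. -/
theorem FS_caseB (F : Fin g → ℤ[X]) (hF : Sys F) (hN : NoFix F) (X q b : ℕ) (hq : 1 ≤ q)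
    (hbq : b < q) (hb : ∀ p ∈ q.primeFactors, ¬ (p : ℤ) ∣ (∏ i, F i).eval (b : ℤ))
    {z : ℕ} {R : ℝ} (hz : 2 ≤ z) (hR : 1 ≤ R)
    (hRz : (Real.log 2 + 28 * (FS_D F : ℝ) * Real.log 4) * Real.log z ≤ Real.log R)
    (hX : R ^ 12 ≤ ((X / q : ℕ) : ℝ)) (hzR : (z : ℝ) ≤ R ^ 10) :
    (cntF F q b X : ℝ) ≤ (2 * (FS_D F : ℝ) + 6) * (((X / q : ℕ) : ℝ) *
      ((∏ p ∈ Nat.primesBelow z, (1 - (wF F p : ℝ) / p)) * (FS_Q F q)⁻¹)) := by
  classical
  set M : ℕ := X / q with hM
  set H : ℤ[X] := FS_P (∏ i, F i) q b with hH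
  have hroot : ∀ p : ℕ, p.Prime → rootCount H p ≤ FS_D F ∧ rootCount H p < p := by
    intro p hp
    by_cases hpq : p ∣ q
    · rw [hH, FS_root0 _ b hpq (hb p (Nat.mem_primeFactors.2 ⟨hp, hpq, by omega⟩))]
      exact ⟨Nat.zero_le _, hp.pos⟩
    · rw [hH, FS_root _ b hp hpq]
      exact ⟨FS_wle F hF p hp, wF_lt F hN p hp⟩
  obtain ⟨h1, h2⟩ := poly_sieve H (κ := FS_D F) (Y := z) (X := M) (R := R)
    (fun p hp _ => (hroot p hp).1) (fun p hp _ => (hroot p hp).2) hz hR hRz hX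
  set T₁ := (Icc 1 M).filter fun n : ℕ => ∀ p ∈ Nat.primesBelow z, ¬ (p : ℤ) ∣ H.eval (n : ℤ)
    with hT₁
  set T₂ := (Finset.range z).biUnion fun r =>
    (Finset.univ.biUnion fun i => (Icc 1 M).filter fun n : ℕ =>
      (FS_P (F i) q b).eval (n : ℤ) = (r : ℤ)) with hT₂
  have hT₂card : T₂.card ≤ FS_D F * z := by
    have : ∀ r ∈ Finset.range z, ((Finset.univ.biUnion fun i => (Icc 1 M).filter fun n : ℕ =>
      (FS_P (F i) q b).eval (n : ℤ) = (r : ℤ))).card ≤ FS_D F := by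
      intro r _
      refine card_biUnion_le.trans (sum_le_sum fun i _ => ?_)
      rw [← FS_deg (F i) hq b]
      exact card_value_le (by rw [FS_deg (F i) hq b]; exact hF.deg i) _ _
    refine card_biUnion_le.trans ((sum_le_sum this).trans ?_)
    rw [sum_const, card_range, smul_eq_mul, mul_comm]
  have hcount : cntF F q b X ≤ (T₁ ∪ T₂).card + 1 := by
    unfold cntF
    have hsub : (AF F X).filter (fun n => n ≡ b [MOD q]) ⊆
        insert b ((T₁ ∪ T₂).image fun m => q * m + b) := by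
      intro n hn
      rw [mem_filter, AF, mem_filter, mem_Icc] at hn
      obtain ⟨⟨hn1, hn2⟩, hn3⟩ := hn
      have h3 : n % q = b := by
        have h4 : n % q = b % q := hn3
        rwa [Nat.mod_eq_of_lt hbq] at h4
      have h4 : q * (n / q) + b = n := by
        have := Nat.div_add_mod n q
        rwa [h3] at this
      rw [mem_insert, mem_image]
      rcases Nat.eq_zero_or_pos (n / q) with h5 | h5
      · left
        rw [h5] at h4
        omega
      · right
        refine ⟨n / q, ?_, h4⟩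
        have hmM : n / q ∈ Icc 1 M := by
          rw [mem_Icc]
          exact ⟨h5, Nat.div_le_div_right hn1.2⟩
        by_cases hbig : ∀ i, ∀ r : ℕ, (F i).eval (n : ℤ) = r → z ≤ r
        · rw [mem_union]
          left
          rw [hT₁, mem_filter]
          refine ⟨hmM, fun p hp hpd => ?_⟩
          have hpp := Nat.prime_of_mem_primesBelow hp
          have hpz := Nat.lt_of_mem_primesBelow hp
          rw [hH, FS_eval, h4, eval_prod] at hpd
          obtain ⟨i, _, hi⟩ := ((Nat.prime_iff_prime_int.1 hpp).dvd_finsetProd_iff _).1 hpd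
          obtain ⟨r, hr, hre⟩ := hn2 i
          rw [hre, Int.natCast_dvd_natCast, Nat.prime_dvd_prime_iff_eq hpp hr] at hi
          have := hbig i r hre
          omega
        · push Not at hbig
          obtain ⟨i, r, hr, hrz⟩ := hbig
          rw [mem_union]
          right
          rw [hT₂, mem_biUnion]
          refine ⟨r, Finset.mem_range.2 hrz, ?_⟩
          rw [mem_biUnion]
          refine ⟨i, Finset.mem_univ _, mem_filter.2 ⟨hmM, ?_⟩⟩
          rw [FS_eval, h4, hr]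
    refine (card_le_card hsub).trans ((card_insert_le _ _).trans ?_)
    exact Nat.add_le_add_right card_image_le 1
  have hcount' : cntF F q b X ≤ T₁.card + FS_D F * z + 1 := by
    have := card_union_le T₁ T₂
    omega
  have hcount'' : (cntF F q b X : ℝ) ≤ T₁.card + FS_D F * z + 1 := by exact_mod_cast hcount'
  have hz0 : (1 : ℝ) ≤ z := by exact_mod_cast (by omega : 1 ≤ z)
  have hD0 : (0 : ℝ) ≤ FS_D F := by positivity
  have h3 : ((FS_D F : ℝ) + 1) * z ≤ (FS_D F + 1) * (2 * M * ∏ p ∈ Nat.primesBelow z,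
      (1 - (rootCount H p : ℝ) / p)) :=
    mul_le_mul_of_nonneg_left (hzR.trans h2) (by positivity)
  have h4 := FS_prod F hN q b z hq hb
  have h5 : (2 * (FS_D F : ℝ) + 6) * (M * ∏ p ∈ Nat.primesBelow z,
      (1 - (rootCount H p : ℝ) / p)) ≤ (2 * (FS_D F : ℝ) + 6) * (M *
      ((∏ p ∈ Nat.primesBelow z, (1 - (wF F p : ℝ) / p)) * (FS_Q F q)⁻¹)) := by
    apply mul_le_mul_of_nonneg_left _ (by positivity)
    exact mul_le_mul_of_nonneg_left h4 (by positivity)
  refine le_trans ?_ h5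
  have h1' : (T₁.card : ℝ) ≤ 4 * M * ∏ p ∈ Nat.primesBelow z,
      (1 - (rootCount H p : ℝ) / p) := h1
  nlinarith

theorem FS_large (F : Fin g → ℤ[X]) (hF : Sys F) (hN : NoFix F) : ∃ C : ℝ, ∃ X₀ : ℕ, 0 < C ∧
    2 ≤ X₀ ∧
    ∀ X q b : ℕ, X₀ ≤ X → 1 ≤ q → q ^ 2 ≤ X → (cntF F q b X : ℝ) ≤
      C * ((X : ℝ) / (Real.log X) ^ g) * ((FS_Q F q)⁻¹ / q) := by
  obtain ⟨C₁, hC₁, hmert⟩ := FS_mert F hF hN
  set L : ℝ := Real.log 2 + 28 * (FS_D F : ℝ) * Real.log 4 with hL
  have hlog2 : 0 < Real.log 2 := Real.log_pos (by norm_num)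
  have hlog4 : 0 < Real.log 4 := Real.log_pos (by norm_num)
  have hL0 : 0 < L := by positivity
  obtain ⟨k, hk⟩ := exists_nat_ge (12 * L + 2)
  have hk2 : (2 : ℝ) ≤ k := by linarith
  have hk0 : (0 : ℝ) < k := by linarith
  have hgrow : ∀ᶠ X : ℕ in atTop, Real.log (X : ℝ) ^ g ≤ √(X : ℝ) := by
    have h1 : Tendsto (fun x : ℝ => Real.log x ^ g / x ^ (1 / 2 : ℝ)) atTop (𝓝 0) := by
      have h2 := (isLittleO_log_rpow_rpow_atTop (g : ℝ)
        (by norm_num : (0 : ℝ) < 1 / 2)).tendsto_div_nhds_zero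
      refine h2.congr fun x => ?_
      rw [Real.rpow_natCast]
    have h2 := (h1.comp (tendsto_natCast_atTop_atTop (R := ℝ))).eventually_le_const
      (by norm_num : (0 : ℝ) < 1)
    filter_upwards [h2, eventually_ge_atTop 1] with X hX hX1
    have hX0 : (0 : ℝ) < X := by exact_mod_cast hX1
    simp only [Function.comp_apply] at hX
    rw [div_le_one (Real.rpow_pos_of_pos hX0 _)] at hX
    rwa [Real.sqrt_eq_rpow]
  obtain ⟨X₁, hX₁⟩ := eventually_atTop.1 hgrow
  obtain ⟨X₂, hX₂⟩ := exists_nat_ge ((2 * (4 : ℝ) ^ k) ^ 2)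
  refine ⟨FS_D F + (2 * (FS_D F : ℝ) + 6) * (C₁ * (8 * (k : ℝ)) ^ g), max (max X₁ X₂) 16,
    by positivity, le_trans (by norm_num) (le_max_right _ _), fun X q b hX hq hqX => ?_⟩
  have hX1 : X₁ ≤ X := (le_max_left _ _).trans ((le_max_left _ _).trans hX)
  have hX2 : X₂ ≤ X := (le_max_right _ _).trans ((le_max_left _ _).trans hX)
  have hX16 : 16 ≤ X := (le_max_right _ _).trans hX
  have hX16' : (16 : ℝ) ≤ X := by exact_mod_cast hX16
  have hX0 : (0 : ℝ) < X := by linarith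
  have hlogX : 0 < Real.log X := Real.log_pos (by linarith)
  have hq0 : (0 : ℝ) < q := by exact_mod_cast hq
  obtain ⟨hQ0, hQ1⟩ := FS_Qpos F hN q
  have hQi : 1 ≤ (FS_Q F q)⁻¹ := (one_le_inv₀ hQ0).2 hQ1
  have hqs : (q : ℝ) ≤ √X := by
    apply Real.le_sqrt_of_sq_le
    exact_mod_cast hqX
  have hs0 : 0 < √(X : ℝ) := Real.sqrt_pos.2 hX0
  have hss : √(X : ℝ) * √X = X := Real.mul_self_sqrt hX0.le
  have hXq : √(X : ℝ) ≤ X / q := by
    rw [le_div_iff₀ hq0]
    nlinarith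
  have hmain0 : 0 ≤ ((X : ℝ) / (Real.log X) ^ g) * ((FS_Q F q)⁻¹ / q) := by positivity
  -- reduce b modulo q
  rw [FS_mod]
  set b' : ℕ := b % q with hb'
  have hbq : b' < q := Nat.mod_lt _ hq
  by_cases hA : ∃ p ∈ q.primeFactors, (p : ℤ) ∣ (∏ i, F i).eval (b' : ℤ)
  · obtain ⟨p, hp, hpd⟩ := hA
    rw [Nat.mem_primeFactors] at hp
    have h1 := FS_caseA F hF X q b' p hp.1 hp.2.1 hpd
    have h1' : (cntF F q b' X : ℝ) ≤ FS_D F := by exact_mod_cast h1
    have h2 : 1 ≤ ((X : ℝ) / (Real.log X) ^ g) * ((FS_Q F q)⁻¹ / q) := by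
      have h3 := hX₁ X hX1
      have h4 : 1 ≤ (X : ℝ) / q / (Real.log X) ^ g := by
        rw [one_le_div (by positivity)]
        exact h3.trans hXq
      calc (1 : ℝ) ≤ (X : ℝ) / q / (Real.log X) ^ g * (FS_Q F q)⁻¹ :=
            one_le_mul_of_one_le_of_one_le h4 hQi
        _ = _ := by field_simp
    have hD0 : (0 : ℝ) ≤ FS_D F := by positivity
    have h5 : (0 : ℝ) ≤ (2 * (FS_D F : ℝ) + 6) * (C₁ * (8 * (k : ℝ)) ^ g) := by positivity
    rw [mul_assoc]
    nlinarith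
  · push Not at hA
    set M : ℕ := X / q with hM
    have hM1 : (X : ℝ) / q - 1 < M := by
      have h1 := Nat.lt_div_mul_add (a := X) (b := q) hq
      have h2 : (X : ℝ) < M * q + q := by exact_mod_cast h1
      rw [sub_lt_iff_lt_add, div_lt_iff₀ hq0]
      linarith
    have hM2 : (M : ℝ) ≤ X / q := Nat.cast_div_le
    have hs4 : 4 ≤ √(X : ℝ) := by
      apply Real.le_sqrt_of_sq_le
      linarith
    have hMs : √(X : ℝ) / 2 ≤ M := by linarith
    have hM0 : (0 : ℝ) < M := by linarith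
    have hM4 : (4 : ℝ) ^ k ≤ M := by
      have h1 : 2 * (4 : ℝ) ^ k ≤ √(X : ℝ) := by
        apply Real.le_sqrt_of_sq_le
        exact hX₂.trans (by exact_mod_cast hX2)
      linarith
    have hM1' : (1 : ℝ) ≤ M := by linarith
    have hlogM : Real.log X / 4 ≤ Real.log M := by
      have h1 : √(√(X : ℝ)) ≤ M := by
        have h2 : √(√(X : ℝ)) ≤ √(X : ℝ) / 2 := by
          rw [Real.sqrt_le_left (by positivity)]
          nlinarith
        linarith
      have h2 := Real.log_le_log (Real.sqrt_pos.2 hs0) h1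
      rw [Real.log_sqrt hs0.le, Real.log_sqrt hX0.le] at h2
      linarith
    have hlogM0 : 0 < Real.log M := by linarith
    -- the parameters
    set y : ℝ := (M : ℝ) ^ (1 / (k : ℝ)) with hy
    have hy0 : 0 < y := Real.rpow_pos_of_pos hM0 _
    have hlogy : Real.log y = 1 / k * Real.log M := Real.log_rpow hM0 _
    have hy4 : 4 ≤ y := by
      have h1 : ((4 : ℝ) ^ k) ^ (1 / (k : ℝ)) ≤ y :=
        Real.rpow_le_rpow (by positivity) hM4 (by positivity)
      have h2 : ((4 : ℝ) ^ k) ^ (1 / (k : ℝ)) = 4 := by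
        rw [← Real.rpow_natCast, ← Real.rpow_mul (by norm_num), mul_one_div, div_self hk0.ne',
          Real.rpow_one]
      linarith
    set z : ℕ := ⌊y⌋₊ with hz
    have hzy : (z : ℝ) ≤ y := Nat.floor_le hy0.le
    have hyz : y < z + 1 := Nat.lt_floor_add_one y
    have hz3 : (3 : ℝ) < z := by linarith
    have hz2 : 2 ≤ z := by
      have : (2 : ℝ) ≤ z := by linarith
      exact_mod_cast this
    set R : ℝ := (M : ℝ) ^ (1 / 12 : ℝ) with hR
    have hR0 : 0 < R := Real.rpow_pos_of_pos hM0 _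
    have hR1 : 1 ≤ R := Real.one_le_rpow hM1' (by norm_num)
    have hlogR : Real.log R = 1 / 12 * Real.log M := Real.log_rpow hM0 _
    have hR12 : R ^ 12 = M := by
      rw [hR, ← Real.rpow_natCast, ← Real.rpow_mul hM0.le]
      norm_num
    have hR10 : y ≤ R ^ 10 := by
      rw [hR, ← Real.rpow_natCast, ← Real.rpow_mul hM0.le, hy]
      apply Real.rpow_le_rpow_of_exponent_le hM1'
      rw [div_le_iff₀ hk0]
      push_cast
      linarith
    have hRz : L * Real.log z ≤ Real.log R := by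
      have h1 : Real.log z ≤ Real.log y := Real.log_le_log (by linarith) hzy
      rw [hlogy] at h1
      have h2 : L * Real.log z ≤ L * (1 / k * Real.log M) := mul_le_mul_of_nonneg_left h1 hL0.le
      have h3 : L * (1 / k * Real.log M) = (L / k) * Real.log M := by ring
      have h4 : L / k ≤ 1 / 12 := by
        rw [div_le_iff₀ hk0]
        linarith
      have h5 : (L / k) * Real.log M ≤ 1 / 12 * Real.log M :=
        mul_le_mul_of_nonneg_right h4 hlogM0.le
      rw [hlogR]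
      linarith
    have hlogz : Real.log X / (8 * k) ≤ Real.log z := by
      have h1 : √y ≤ z := by
        have h2 : √y ≤ y - 1 := by
          rw [Real.sqrt_le_left (by linarith)]
          nlinarith
        linarith
      have h2 := Real.log_le_log (Real.sqrt_pos.2 hy0) h1
      rw [Real.log_sqrt hy0.le, hlogy] at h2
      have h3 : Real.log X / (8 * k) = 1 / k * (Real.log X / 4) / 2 := by
        field_simp
        ring
      rw [h3]
      have h4 : 1 / (k : ℝ) * (Real.log X / 4) ≤ 1 / k * Real.log M :=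
        mul_le_mul_of_nonneg_left hlogM (by positivity)
      linarith
    have h1 := FS_caseB F hF hN X q b' hq hbq (fun p hp h => hA p hp h) hz2 hR1 hRz
      (by rw [hR12]) (hzy.trans hR10)
    refine h1.trans ?_
    have h2 := hmert z hz2
    have h3 : (1 / Real.log z) ^ g ≤ (8 * (k : ℝ)) ^ g / (Real.log X) ^ g := by
      rw [← div_pow]
      apply pow_le_pow_left₀
      · have : 0 < Real.log z := lt_of_lt_of_le (by positivity) hlogz
        positivity
      · calc 1 / Real.log z ≤ 1 / (Real.log X / (8 * k)) :=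
              one_div_le_one_div_of_le (by positivity) hlogz
          _ = 8 * k / Real.log X := by rw [one_div_div]
    have h4 : (∏ p ∈ Nat.primesBelow z, (1 - (wF F p : ℝ) / p)) ≤
        C₁ * ((8 * (k : ℝ)) ^ g / (Real.log X) ^ g) :=
      h2.trans (mul_le_mul_of_nonneg_left h3 hC₁.le)
    calc (2 * (FS_D F : ℝ) + 6) * ((M : ℝ) *
          ((∏ p ∈ Nat.primesBelow z, (1 - (wF F p : ℝ) / p)) * (FS_Q F q)⁻¹)) ≤
        (2 * (FS_D F : ℝ) + 6) * ((X : ℝ) / q *
          ((C₁ * ((8 * (k : ℝ)) ^ g / (Real.log X) ^ g)) * (FS_Q F q)⁻¹)) := by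
          apply mul_le_mul_of_nonneg_left _ (by positivity)
          apply mul_le_mul hM2 _ _ (by positivity)
          · exact mul_le_mul_of_nonneg_right h4 (by positivity)
          · apply mul_nonneg _ (by positivity)
            exact prod_nonneg fun p hp =>
              (FS_fac F hN p (Nat.prime_of_mem_primesBelow hp)).1.le
      _ = (2 * (FS_D F : ℝ) + 6) * (C₁ * (8 * (k : ℝ)) ^ g) * (((X : ℝ) / (Real.log X) ^ g) *
          ((FS_Q F q)⁻¹ / q)) := by
          field_simp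
      _ ≤ _ := by
          refine le_trans ?_ (le_of_eq (mul_assoc _ _ _).symm)
          apply mul_le_mul_of_nonneg_right _ hmain0
          have hD0 : (0 : ℝ) ≤ FS_D F := by positivity
          linarith

/-- If some prime `p ∣ q` divides `F_1(b) ⋯ F_g(b)`, then `p ∣ F_i(n)` for some `i` for every `n ≡ b`,
so `F_i(n) = p`: at most `(∑ deg F_i) · #{p ∣ q} ≤ C log X` values of `n`, and `X/q ≥ √X`.
Otherwise write `n = b' + q m` (`b' = b mod q`), `m ≤ X/q`, `H(m) = ∏ F_i(b' + q m)`. For `p ∣ q` the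
polynomial `H` has no root modulo `p`, for `p ∤ q` it has `ω_F(p) < p` roots. With `z = (X/q)^c` all `n`
but `O(z)` (those with some `F_i(n) < z`, `H59.card_value_le`) have no prime `< z` dividing `H(m)`, so
`H59.poly_sieve` (`κ = max(∑ deg F_i, B)`) gives `≤ 4 (X/q + 1) ∏_{p < z, p ∤ q} (1 - ω_F(p)/p)
≤ 8 (X/q) ∏_{p < z} (1 - ω_F(p)/p) ∏_{p ∣ q} (1 - ω_F(p)/p)⁻¹`, and by `bh_bounds` and Mertens
(`H59.prod_one_sub_inv_le`) the first product is `≤ C/(log z)^g`, `log z ≥ c' log X`. -/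
theorem class_sharp (F : Fin g → ℤ[X]) (hF : Sys F) (hN : NoFix F) : ∃ C : ℝ, 0 < C ∧
    ∀ X q b : ℕ, 2 ≤ X → 1 ≤ q → q ^ 2 ≤ X → (cntF F q b X : ℝ) ≤
      C * ((X : ℝ) / (Real.log X) ^ g) *
        ((∏ p ∈ q.primeFactors, (1 - (wF F p : ℝ) / p))⁻¹ / q) := by
  obtain ⟨C₁, X₀, hC₁, hX₀, h1⟩ := FS_large F hF hN
  refine ⟨C₁ + X₀ * (X₀ : ℝ) ^ g, by positivity, fun X q b hX hq hqX => ?_⟩
  obtain ⟨hQ0, hQ1⟩ := FS_Qpos F hN q
  have hQi : 1 ≤ (FS_Q F q)⁻¹ := (one_le_inv₀ hQ0).2 hQ1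
  change (cntF F q b X : ℝ) ≤ (C₁ + X₀ * (X₀ : ℝ) ^ g) * ((X : ℝ) / (Real.log X) ^ g) *
    ((FS_Q F q)⁻¹ / q)
  have hX2 : (2 : ℝ) ≤ X := by exact_mod_cast hX
  have hlog : 0 < Real.log X := Real.log_pos (by linarith)
  have hq0 : (0 : ℝ) < q := by exact_mod_cast hq
  rcases le_or_gt X₀ X with h | h
  · refine (h1 X q b h hq hqX).trans ?_
    apply mul_le_mul_of_nonneg_right _ (by positivity)
    apply mul_le_mul_of_nonneg_right _ (by positivity)
    have : (0 : ℝ) ≤ X₀ * (X₀ : ℝ) ^ g := by positivity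
    linarith
  · have h2 : (cntF F q b X : ℝ) ≤ X := by
      have h3 : cntF F q b X ≤ X := by
        classical
        unfold cntF
        refine (card_le_card (filter_subset _ _)).trans ?_
        unfold AF
        refine (card_le_card (filter_subset _ _)).trans ?_
        simp
      exact_mod_cast h3
    have h3 : (X : ℝ) ≤ X₀ := by exact_mod_cast h.le
    have h4 : Real.log X ≤ X₀ := by
      have := Real.log_le_sub_one_of_pos (by linarith : (0 : ℝ) < X)
      linarith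
    have h5 : Real.log X ^ g ≤ (X₀ : ℝ) ^ g := pow_le_pow_left₀ hlog.le h4 g
    have h6 : (1 : ℝ) ≤ X / q := by
      rw [one_le_div hq0]
      have h7 : q ≤ X := by nlinarith
      exact_mod_cast h7
    have h7 : (1 : ℝ) ≤ (X₀ : ℝ) ^ g / Real.log X ^ g := (one_le_div (by positivity)).2 h5
    calc (cntF F q b X : ℝ) ≤ X₀ := h2.trans h3
      _ ≤ X₀ * ((X₀ : ℝ) ^ g / Real.log X ^ g * (X / q * (FS_Q F q)⁻¹)) := by
          apply le_mul_of_one_le_right (by positivity)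
          have h8 : 1 ≤ (X : ℝ) / q * (FS_Q F q)⁻¹ := one_le_mul_of_one_le_of_one_le h6 hQi
          exact one_le_mul_of_one_le_of_one_le h7 h8
      _ = (X₀ * (X₀ : ℝ) ^ g) * ((X : ℝ) / (Real.log X) ^ g) * ((FS_Q F q)⁻¹ / q) := by
          field_simp
      _ ≤ _ := by
          apply mul_le_mul_of_nonneg_right _ (by positivity)
          apply mul_le_mul_of_nonneg_right _ (by positivity)
          linarith

open scoped Classical in
/-- The primes values of `F` as sieve-type weights: `class_sharp` with `X = argCount G Y`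
(`q ≤ (log Y)^K ≤ √X` for large `Y`, `argCount_pow`), `(1 - ω_F(p)/p)⁻¹ ≤ D` for all `p`
(`ω_F(p) ≤ p - 1`, and `ω_F(p) ≤ p/2` for large `p` by `wF_le`). -/
theorem sieveWt_AF (F : Fin g → ℤ[X]) (hF : Sys F) (hN : NoFix F) (G : ℤ[X])
    (hk : 1 ≤ G.natDegree) (hl : 0 < G.leadingCoeff) : ∃ D : ℕ, ∃ C : ℝ, 0 < C ∧ ∀ K : ℝ,
    ∃ Y₀ : ℕ, ∀ Y : ℕ, Y₀ ≤ Y → SieveWt D (g + 1) K Y (argCount G Y) (C * dens G g Y)
      (fun n => if AllPrime F n then 1 else 0) := by
  obtain ⟨C₁, hC₁, h1⟩ := class_sharp F hF hN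
  set D : ℕ := 2 * FS_D F + 2 with hDdef
  have hD : ∀ p : ℕ, p.Prime → (1 - (wF F p : ℝ) / p)⁻¹ ≤ D := by
    intro p hp
    obtain ⟨h2, h3⟩ := FS_fac F hN p hp
    have hp0 : (0 : ℝ) < p := by exact_mod_cast hp.pos
    rcases le_or_gt (2 * FS_D F) p with h | h
    · have h4 : (wF F p : ℝ) / p ≤ 1 / 2 := by
        rw [div_le_div_iff₀ hp0 (by norm_num)]
        have h5 := FS_wle F hF p hp
        have h6 : (wF F p : ℝ) * 2 ≤ p := by exact_mod_cast (by omega : wF F p * 2 ≤ p)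
        linarith
      have h5 : (1 - (wF F p : ℝ) / p)⁻¹ ≤ (1 / 2 : ℝ)⁻¹ := inv_anti₀ (by norm_num) (by linarith)
      have h6 : (2 : ℝ) ≤ D := by
        rw [hDdef]
        exact_mod_cast (by omega : 2 ≤ 2 * FS_D F + 2)
      refine h5.trans ?_
      rw [one_div, inv_inv]
      exact h6
    · have h4 : (wF F p : ℝ) + 1 ≤ p := by exact_mod_cast wF_lt F hN p hp
      have h5 : 1 / (p : ℝ) ≤ 1 - (wF F p : ℝ) / p := by
        rw [le_sub_iff_add_le, ← add_div, div_le_one hp0]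
        linarith
      have h6 := inv_anti₀ (by positivity) h5
      rw [one_div, inv_inv] at h6
      have h7 : (p : ℝ) ≤ D := by
        rw [hDdef]
        exact_mod_cast (by omega : p ≤ 2 * FS_D F + 2)
      linarith
  refine ⟨D, max C₁ 1, by positivity, fun K => ?_⟩
  have hX := argCount_tendsto hk hl
  have hXr : Tendsto (fun Y : ℕ => (argCount G Y : ℝ)) atTop atTop :=
    (tendsto_natCast_atTop_atTop (R := ℝ)).comp hX
  have hlr := argCount_log G hk hl
  set k : ℝ := (G.natDegree : ℝ) with hkdef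
  have hk1 : 1 ≤ k := by
    rw [hkdef]
    exact_mod_cast hk
  have e1 : ∀ᶠ Y : ℕ in atTop, Real.log Y / Real.log (argCount G Y) < k + 1 :=
    hlr.eventually_lt_const (by linarith)
  have e2 : ∀ᶠ Y : ℕ in atTop, 1 / 2 < Real.log Y / Real.log (argCount G Y) :=
    hlr.eventually_const_lt (by linarith)
  have hk10 : (0 : ℝ) < (k + 1) ^ (2 * |K|) := Real.rpow_pos_of_pos (by linarith) _
  have e3 : ∀ᶠ x : ℝ in atTop, (k + 1) ^ (2 * |K|) * Real.log x ^ (2 * |K|) ≤ x := by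
    have h2 := (isLittleO_log_rpow_rpow_atTop (2 * |K|) (by norm_num : (0 : ℝ) < 1)).bound
      (inv_pos.2 hk10)
    filter_upwards [h2, eventually_gt_atTop 1] with x hx hx1
    have hlx : 0 < Real.log x := Real.log_pos hx1
    rw [Real.rpow_one, Real.norm_of_nonneg (by positivity), Real.norm_of_nonneg (by linarith)] at hx
    calc (k + 1) ^ (2 * |K|) * Real.log x ^ (2 * |K|) ≤
        (k + 1) ^ (2 * |K|) * (((k + 1) ^ (2 * |K|))⁻¹ * x) :=
          mul_le_mul_of_nonneg_left hx hk10.le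
      _ = x := mul_inv_cancel_left₀ hk10.ne' _
  have e4 : ∀ᶠ Y : ℕ in atTop, (2 : ℝ) ^ g ≤ Real.log Y :=
    (Real.tendsto_log_atTop.comp (tendsto_natCast_atTop_atTop (R := ℝ))).eventually_ge_atTop _
  obtain ⟨Y₀, hY₀⟩ := eventually_atTop.1 (e1.and (e2.and ((hXr.eventually e3).and (e4.and
    (hX.eventually_ge_atTop 3)))))
  refine ⟨Y₀, fun Y hY => ?_⟩
  obtain ⟨f1, f2, f3, f4, f5⟩ := hY₀ Y hY
  set X : ℕ := argCount G Y with hXdef
  have hX3 : (3 : ℝ) ≤ X := by exact_mod_cast f5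
  have hX0 : (0 : ℝ) < X := by linarith
  have hlX : 0 < Real.log X := Real.log_pos (by linarith)
  have hlY1 : 1 ≤ Real.log Y := le_trans (one_le_pow₀ (by norm_num)) f4
  rw [div_lt_iff₀ hlX] at f1
  rw [lt_div_iff₀ hlX] at f2
  have hdens : 0 < dens G g Y := by
    unfold dens
    positivity
  refine ⟨fun n _ => ?_, fun n _ => ?_, fun q b hq hqK => ?_, ?_⟩
  · split_ifs <;> norm_num
  · skip
    have h2 : 1 ≤ Real.log Y ^ ((g : ℝ) + 1) := Real.one_le_rpow hlY1 (by positivity)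
    split_ifs
    · exact h2
    · linarith
  · have hq1 : 1 ≤ q := Nat.pos_of_ne_zero hq.ne_zero
    have hq0 : (0 : ℝ) < q := by exact_mod_cast hq1
    have h2 : q ^ 2 ≤ X := by
      have h3 : (q : ℝ) ≤ Real.log Y ^ |K| :=
        hqK.trans (Real.rpow_le_rpow_of_exponent_le hlY1 (le_abs_self K))
      have h4 : (q : ℝ) ^ 2 ≤ (Real.log Y ^ |K|) ^ 2 := pow_le_pow_left₀ hq0.le h3 2
      have h5 : (Real.log Y ^ |K|) ^ 2 = Real.log Y ^ (2 * |K|) := by
        rw [← Real.rpow_natCast, ← Real.rpow_mul (by linarith)]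
        congr 1
        push_cast
        ring
      have h6 : Real.log Y ^ (2 * |K|) ≤ ((k + 1) * Real.log X) ^ (2 * |K|) :=
        Real.rpow_le_rpow (by linarith) f1.le (by positivity)
      rw [Real.mul_rpow (by linarith) hlX.le] at h6
      have h7 : (q : ℝ) ^ 2 ≤ X := by
        rw [h5] at h4
        exact h4.trans (h6.trans f3)
      exact_mod_cast h7
    have h3 := h1 X q b (by omega) hq1 h2
    have h4 : ∑ n ∈ (Icc 1 X).filter (fun n => n ≡ b [MOD q]),
        (if AllPrime F n then (1 : ℝ) else 0) = cntF F q b X := by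
      rw [sum_boole]
      unfold cntF AF
      congr 2
      rw [filter_comm]
    have h5 : (∏ p ∈ q.primeFactors, (1 - (wF F p : ℝ) / p))⁻¹ ≤ (D : ℝ) ^ q.primeFactors.card := by
      rw [← prod_inv_distrib, ← prod_const]
      refine prod_le_prod (fun p hp => ?_) fun p hp => hD p (Nat.prime_of_mem_primeFactors hp)
      exact (inv_pos.2 (FS_fac F hN p (Nat.prime_of_mem_primeFactors hp)).1).le
    rw [h4]
    refine h3.trans ?_
    change C₁ * dens G g Y * _ ≤ _
    calc C₁ * dens G g Y * ((∏ p ∈ q.primeFactors, (1 - (wF F p : ℝ) / p))⁻¹ / q) ≤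
        (max C₁ 1 * dens G g Y) * ((D : ℝ) ^ q.primeFactors.card / q) := by
          apply mul_le_mul _ _ _ (by positivity)
          · exact mul_le_mul_of_nonneg_right (le_max_left _ _) hdens.le
          · exact div_le_div_of_nonneg_right h5 hq0.le
          · exact div_nonneg (inv_nonneg.2 (FS_Qpos F hN q).1.le) hq0.le
      _ = _ := by ring
  · have h2 : Real.log Y ^ ((g : ℝ) + 1) = Real.log Y ^ g * Real.log Y := by
      rw [← Nat.cast_succ, Real.rpow_natCast, pow_succ]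
    rw [h2]
    have h3 : Real.log X ^ g ≤ Real.log Y ^ g * Real.log Y := by
      calc Real.log X ^ g ≤ (2 * Real.log Y) ^ g := pow_le_pow_left₀ hlX.le (by linarith) g
        _ = Real.log Y ^ g * 2 ^ g := by rw [mul_pow, mul_comm]
        _ ≤ Real.log Y ^ g * Real.log Y := mul_le_mul_of_nonneg_left f4 (by positivity)
    have h4 : (X : ℝ) = dens G g Y * Real.log X ^ g := by
      unfold dens
      rw [← hXdef]
      field_simp
    calc (X : ℝ) = dens G g Y * Real.log X ^ g := h4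
      _ ≤ dens G g Y * (Real.log Y ^ g * Real.log Y) := mul_le_mul_of_nonneg_left h3 hdens.le
      _ ≤ max C₁ 1 * dens G g Y * (Real.log Y ^ g * Real.log Y) := by
          apply mul_le_mul_of_nonneg_right _ (by positivity)
          exact le_mul_of_one_le_left hdens.le (le_max_right _ _)

/-- `∏_{p < w} (1 - ω_F(p)/p)⁻¹ ≤ C (P/φ(P))^g` by `bh_bounds`, with `C` independent of `w`. -/
theorem class_PW (F : Fin g → ℤ[X]) (hF : Sys F) (hN : NoFix F) : ∃ C : ℝ, 0 < C ∧ ∀ w : ℕ,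
    ∃ X₀ : ℕ, ∀ X : ℕ, X₀ ≤ X → ∀ b : ℕ, (cntF F (PW w) b X : ℝ) ≤
      C * ((X : ℝ) / (Real.log X) ^ g) * (((PW w : ℝ) / Nat.totient (PW w)) ^ g / PW w) := by
  obtain ⟨C₁, hC₁, h1⟩ := class_sharp F hF hN
  obtain ⟨c, C₂, hc, h2⟩ := bh_bounds F hF hN
  refine ⟨C₁ * c⁻¹, by positivity, fun w => ⟨max 2 (PW w ^ 2), fun X hX b => ?_⟩⟩
  have h0 : PW w ≠ 0 := (Finset.prod_pos fun p hp => (Nat.prime_of_mem_primesBelow hp).pos).ne'
  have h0' : (0 : ℝ) < PW w := by exact_mod_cast Nat.pos_of_ne_zero h0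
  have hX2 : 2 ≤ X := (le_max_left _ _).trans hX
  have hX2' : (2 : ℝ) ≤ X := by exact_mod_cast hX2
  have hlog : 0 < Real.log X := Real.log_pos (by linarith)
  have h3 := h1 X (PW w) b hX2 (Nat.pos_of_ne_zero h0) ((le_max_right _ _).trans hX)
  refine h3.trans ?_
  have hpf : (PW w).primeFactors = Nat.primesBelow w := by
    ext p
    rw [Nat.mem_primeFactors, Nat.mem_primesBelow]
    constructor
    · rintro ⟨hp, h, _⟩
      exact ⟨(CV4_dvd w p hp).1 h, hp⟩
    · rintro ⟨h, hp⟩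
      exact ⟨hp, (CV4_dvd w p hp).2 h, h0⟩
  have htot : ∏ p ∈ Nat.primesBelow w, (1 - (p : ℝ)⁻¹) = (Nat.totient (PW w) : ℝ) / PW w := by
    rw [CV4_tot]
    refine prod_congr rfl fun p _ => ?_
    rw [one_div]
  have htot0 : (0 : ℝ) < Nat.totient (PW w) := by
    exact_mod_cast Nat.totient_pos.2 (Nat.pos_of_ne_zero h0)
  have h4 : (∏ p ∈ (PW w).primeFactors, (1 - (wF F p : ℝ) / p))⁻¹ ≤
      c⁻¹ * ((PW w : ℝ) / Nat.totient (PW w)) ^ g := by
    rw [hpf, FS_bh F hN w, htot]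
    have h5 : c * ((Nat.totient (PW w) : ℝ) / PW w) ^ g ≤
        bhTrunc F 1 w * ((Nat.totient (PW w) : ℝ) / PW w) ^ g :=
      mul_le_mul_of_nonneg_right (h2 w).1 (by positivity)
    refine (inv_anti₀ (by positivity) h5).trans (le_of_eq ?_)
    rw [mul_inv, ← inv_pow, inv_div]
  calc C₁ * ((X : ℝ) / Real.log X ^ g) *
        ((∏ p ∈ (PW w).primeFactors, (1 - (wF F p : ℝ) / p))⁻¹ / (PW w : ℝ)) ≤
      C₁ * ((X : ℝ) / Real.log X ^ g) *
        ((c⁻¹ * ((PW w : ℝ) / Nat.totient (PW w)) ^ g) / (PW w : ℝ)) := by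
        apply mul_le_mul_of_nonneg_left _ (by positivity)
        exact div_le_div_of_nonneg_right h4 h0'.le
    _ = _ := by ring

end Pool.Agent.Lib.H33B
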