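import Pool.Agent.Lib.H33B.ENG
import Pool.Agent.Lib.H33B.FS

/-!
# Chunk PP: the number of representations against its local model
-/

open Finset Polynomial Filter Topology

namespace Pool.Agent.Lib.H33B

open Pool.Agent.Lib.H59 (argSet argCount primeCount)
open Pool.Agent.Lib.H68T (lp)

variable {g : ℕ}

/-- the indicator function of the primes -/
noncomputable def PP_chi (m : ℤ) : ℝ := if m.toNat.Prime then 1 else 0

/-- the error kernel -/
noncomputable def PP_psi (η y : ℝ) (m : ℤ) : ℝ :=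
  3 * η * lp m + (if (m : ℝ) < y ^ (1 - η) then 2 * Real.log y else 0)

theorem PP_psi_nonneg (η y : ℝ) (hη : 0 ≤ η) (hy : 1 ≤ y) (m : ℤ) : 0 ≤ PP_psi η y m := by
  unfold PP_psi
  have h1 := ENG_lp_nonneg m
  have h2 := Real.log_nonneg hy
  split_ifs <;> positivity

theorem PP_kernel (η y : ℝ) (hη : 0 < η) (hη1 : η ≤ 1 / 2) (hy : 1 ≤ y) (hly : 2 / η ≤ Real.log y)
    (m : ℤ) (hm1 : 1 ≤ m) (hm2 : (m : ℝ) ≤ 2 * y) :
    |PP_chi m * Real.log y - lp m| ≤ PP_psi η y m := by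
  unfold PP_chi PP_psi Pool.Agent.Lib.H68T.lp
  have hy0 : 0 < y := by linarith
  have hly0 : 0 ≤ Real.log y := Real.log_nonneg hy
  have hm1r : (1 : ℝ) ≤ m := by exact_mod_cast hm1
  have hlm0 : 0 ≤ Real.log m := Real.log_nonneg hm1r
  rw [div_le_iff₀ hη] at hly
  split_ifs with h1 h2 h2
  · -- prime, small
    have h3 : Real.log m ≤ Real.log y := by
      apply Real.log_le_log (by linarith)
      refine h2.le.trans ?_
      calc y ^ (1 - η) ≤ y ^ (1 : ℝ) := Real.rpow_le_rpow_of_exponent_le hy (by linarith)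
        _ = y := Real.rpow_one y
    have h4 : 0 ≤ 3 * η * Real.log m := by positivity
    rw [abs_le]
    constructor <;> linarith
  · -- prime, large
    push Not at h2
    have h3 : (1 - η) * Real.log y ≤ Real.log m := by
      rw [← Real.log_rpow hy0]
      exact Real.log_le_log (Real.rpow_pos_of_pos hy0 _) h2
    have h4 : Real.log m ≤ Real.log y + 1 := by
      have h5 : Real.log m ≤ Real.log (2 * y) := Real.log_le_log (by linarith) hm2
      rw [Real.log_mul (by norm_num) hy0.ne'] at h5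
      linarith [Real.log_two_lt_d9]
    have h6 : Real.log y / 2 ≤ Real.log m := by nlinarith
    have h7 : η * (Real.log y / 2) ≤ η * Real.log m := mul_le_mul_of_nonneg_left h6 hη.le
    rw [abs_le]
    constructor <;> nlinarith
  · simp only [zero_mul, sub_zero, abs_zero, mul_zero, zero_add]
    positivity
  · simp

theorem PP_psi_sum (η : ℝ) (hη : 0 ≤ η) (Y : ℕ) (hY : 1 ≤ Y) (C : ℝ)
    (hC : ∀ M : ℕ, ∑ m ∈ Icc (1 : ℤ) M, lp m ≤ C * M) :
    ∑ m ∈ Icc (1 : ℤ) (2 * Y : ℕ), PP_psi η Y m ≤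
      6 * η * C * Y + 2 * Real.log Y * (Y : ℝ) ^ (1 - η) := by
  unfold PP_psi
  rw [sum_add_distrib, ← mul_sum]
  have hYr : (1 : ℝ) ≤ Y := by exact_mod_cast hY
  have hlY : 0 ≤ Real.log Y := Real.log_nonneg hYr
  have h1 : 3 * η * ∑ m ∈ Icc (1 : ℤ) (2 * Y : ℕ), lp m ≤ 6 * η * C * Y := by
    have := hC (2 * Y)
    calc 3 * η * ∑ m ∈ Icc (1 : ℤ) (2 * Y : ℕ), lp m ≤ 3 * η * (C * (2 * Y : ℕ)) :=
          mul_le_mul_of_nonneg_left this (by positivity)
      _ = _ := by push_cast; ring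
  have h2 : ∑ m ∈ Icc (1 : ℤ) (2 * Y : ℕ), (if (m : ℝ) < (Y : ℝ) ^ (1 - η) then
      2 * Real.log Y else 0) ≤ 2 * Real.log Y * (Y : ℝ) ^ (1 - η) := by
    rw [← sum_filter, sum_const, nsmul_eq_mul, mul_comm]
    apply mul_le_mul_of_nonneg_left _ (by positivity)
    have hsub : (Icc (1 : ℤ) (2 * Y : ℕ)).filter (fun m : ℤ => (m : ℝ) < (Y : ℝ) ^ (1 - η)) ⊆
        Icc (1 : ℤ) ⌊(Y : ℝ) ^ (1 - η)⌋ := by
      intro m hm
      rw [mem_filter, mem_Icc] at hm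
      rw [mem_Icc]
      exact ⟨hm.1.1, Int.le_floor.mpr hm.2.le⟩
    have h3 := card_le_card hsub
    rw [Int.card_Icc] at h3
    have h4 : 0 ≤ ⌊(Y : ℝ) ^ (1 - η)⌋ := Int.floor_nonneg.mpr (by positivity)
    have h5 : ((⌊(Y : ℝ) ^ (1 - η)⌋ + 1 - 1).toNat : ℝ) ≤ (Y : ℝ) ^ (1 - η) := by
      have h6 : ((⌊(Y : ℝ) ^ (1 - η)⌋ + 1 - 1).toNat : ℤ) = ⌊(Y : ℝ) ^ (1 - η)⌋ := by
        rw [add_sub_cancel_right, Int.toNat_of_nonneg h4]
      have h7 : (((⌊(Y : ℝ) ^ (1 - η)⌋ + 1 - 1).toNat : ℤ) : ℝ) =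
          (⌊(Y : ℝ) ^ (1 - η)⌋ : ℝ) := by rw [h6]
      rw [Int.cast_natCast] at h7
      rw [h7]
      exact Int.floor_le _
    calc _ ≤ ((⌊(Y : ℝ) ^ (1 - η)⌋ + 1 - 1).toNat : ℝ) := by exact_mod_cast h3
      _ ≤ _ := h5
  linarith

open scoped Classical in
/-- the weight -/
noncomputable def PP_f (F : Fin g → ℤ[X]) (n : ℕ) : ℝ := if AllPrime F n then 1 else 0

theorem PP_f_nonneg (F : Fin g → ℤ[X]) (n : ℕ) : 0 ≤ PP_f F n := by
  unfold PP_f
  split_ifs <;> norm_num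

theorem PP_argSet (G : ℤ[X]) (Y N : ℕ) (hY : argSet G Y = ↑(Icc 1 (argCount G Y)))
    (hN : N ≤ Y) : ((Icc 1 (argCount G Y)).filter (fun n : ℕ => G.eval (n : ℤ) < N) : Set ℕ) =
      argSet G N := by
  ext n
  rw [mem_coe, mem_filter, ← mem_coe, ← hY]
  simp only [argSet, Set.mem_ofPred_eq]
  constructor
  · rintro ⟨⟨a, b⟩, c⟩
    exact ⟨a, by omega⟩
  · rintro ⟨a, b⟩
    exact ⟨⟨a, by omega⟩, by omega⟩

theorem PP_primeCount (F : Fin g → ℤ[X]) (G : ℤ[X]) (Y N : ℕ)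
    (hY : argSet G Y = ↑(Icc 1 (argCount G Y))) (hN : N ≤ Y) :
    (primeCount F G N : ℝ) = ∑ n ∈ (Icc 1 (argCount G Y)).filter
      (fun n : ℕ => G.eval (n : ℤ) < N), PP_f F n * PP_chi ((N : ℤ) - G.eval (n : ℤ)) := by
  classical
  have h1 : {n : ℕ | n ∈ argSet G N ∧ (∀ i, ∃ q : ℕ, q.Prime ∧ (F i).eval (n : ℤ) = q) ∧
      ∃ q : ℕ, q.Prime ∧ (N : ℤ) - G.eval (n : ℤ) = q} =
      ↑(((Icc 1 (argCount G Y)).filter (fun n : ℕ => G.eval (n : ℤ) < N)).filter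
        (fun n : ℕ => AllPrime F n ∧ ((N : ℤ) - G.eval (n : ℤ)).toNat.Prime)) := by
    ext n
    rw [Set.mem_ofPred_eq, mem_coe, mem_filter, ← PP_argSet G Y N hY hN, mem_coe]
    constructor
    · rintro ⟨a, b, q, hq, hq'⟩
      refine ⟨a, b, ?_⟩
      rw [hq', Int.toNat_natCast]; exact hq
    · rintro ⟨a, b, c⟩
      refine ⟨a, b, _, c, ?_⟩
      rw [mem_filter] at a
      rw [Int.toNat_of_nonneg (by omega)]
  unfold primeCount
  rw [h1, Set.ncard_coe_finset, card_filter]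
  push_cast
  refine sum_congr rfl fun n _ => ?_
  unfold PP_f PP_chi
  by_cases ha : AllPrime F n
  · by_cases hb : ((N : ℤ) - G.eval (n : ℤ)).toNat.Prime
    · rw [if_pos ⟨ha, hb⟩, if_pos ha, if_pos hb]; norm_num
    · rw [if_neg (fun h => hb h.2), if_pos ha, if_neg hb]; norm_num
  · rw [if_neg (fun h => ha h.1), if_neg ha]; norm_num

theorem PP_Lw_le (w : ℕ) (m : ℤ) : Lw w m ≤ PW w := by
  have hq : 0 < PW w := PW_pos w
  unfold Lw Lq
  split_ifs
  · have h1 : (1 : ℝ) ≤ Nat.totient (PW w) := by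
      exact_mod_cast Nat.totient_pos.mpr hq
    rw [div_le_iff₀ (by linarith)]
    have : (0 : ℝ) ≤ PW w := by positivity
    nlinarith
  · positivity

theorem PP_Mw (F : Fin g → ℤ[X]) (G : ℤ[X]) (w Y N : ℕ)
    (hY : argSet G Y = ↑(Icc 1 (argCount G Y))) (hN : N ≤ Y)
    (hN' : argSet G N = ↑(Icc 1 (argCount G N))) :
    Mw F G w N = ∑ n ∈ (Icc 1 (argCount G Y)).filter
      (fun n : ℕ => G.eval (n : ℤ) < N), PP_f F n * Lw w ((N : ℤ) - G.eval (n : ℤ)) := by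
  classical
  have h1 : (Icc 1 (argCount G Y)).filter (fun n : ℕ => G.eval (n : ℤ) < N) =
      Icc 1 (argCount G N) := by
    rw [← Finset.coe_inj, PP_argSet G Y N hY hN, hN']
  have h2 : (AF F (argCount G N)).filter (fun n : ℕ => G.eval (n : ℤ) < N) =
      ((Icc 1 (argCount G Y)).filter (fun n : ℕ => G.eval (n : ℤ) < N)).filter
        (fun n => AllPrime F n) := by
    rw [h1]
    unfold AF
    rw [filter_filter]
    refine filter_congr fun n hn => ?_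
    rw [← h1, mem_filter] at hn
    simp [hn.2]
  unfold Mw
  rw [h2, sum_filter]
  refine sum_congr rfl fun n _ => ?_
  unfold PP_f
  split_ifs <;> simp

theorem PP_small (F : Fin g → ℤ[X]) (G : ℤ[X]) (w Y N N₁ : ℕ)
    (hY : argSet G Y = ↑(Icc 1 (argCount G Y))) (hN : N ≤ Y) (hNN : N ≤ N₁)
    (hN₁ : argSet G N₁ = ↑(Icc 1 (argCount G N₁))) :
    |∑ n ∈ (Icc 1 (argCount G Y)).filter
      (fun n : ℕ => G.eval (n : ℤ) < N), PP_f F n * Lw w ((N : ℤ) - G.eval (n : ℤ)) -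
      Mw F G w N| ≤ 2 * (argCount G N₁ * PW w) := by
  classical
  have hmono : argSet G N ⊆ ↑(Icc 1 (argCount G N₁)) := by
    rw [← hN₁]
    intro n hn
    simp only [argSet, Set.mem_ofPred_eq] at hn ⊢
    exact ⟨hn.1, by omega⟩
  have hcount : argCount G N ≤ argCount G N₁ := by
    have h1 := Set.ncard_le_ncard hmono (Finset.finite_toSet _)
    rw [Set.ncard_coe_finset, Nat.card_Icc, Nat.add_sub_cancel] at h1
    exact h1
  have hPW : (0 : ℝ) ≤ PW w := by positivity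
  have a1 : ∑ n ∈ (Icc 1 (argCount G Y)).filter
      (fun n : ℕ => G.eval (n : ℤ) < N), PP_f F n * Lw w ((N : ℤ) - G.eval (n : ℤ)) ≤
      argCount G N₁ * PW w := by
    have h1 : ∀ n ∈ (Icc 1 (argCount G Y)).filter (fun n : ℕ => G.eval (n : ℤ) < N),
        PP_f F n * Lw w ((N : ℤ) - G.eval (n : ℤ)) ≤ (PW w : ℝ) := by
      intro n _
      have h2 : PP_f F n ≤ 1 := by unfold PP_f; split_ifs <;> norm_num
      calc _ ≤ 1 * (PW w : ℝ) := mul_le_mul h2 (PP_Lw_le w _) (ENG_Lw_nonneg w _) zero_le_one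
        _ = _ := one_mul _
    refine (sum_le_sum h1).trans ?_
    rw [sum_const, nsmul_eq_mul]
    apply mul_le_mul_of_nonneg_right _ hPW
    have h3 : (Icc 1 (argCount G Y)).filter (fun n : ℕ => G.eval (n : ℤ) < N) ⊆
        Icc 1 (argCount G N₁) := by
      rw [← Finset.coe_subset, PP_argSet G Y N hY hN]
      exact hmono
    have h4 := card_le_card h3
    rw [Nat.card_Icc, Nat.add_sub_cancel] at h4
    exact_mod_cast h4
  have a2 : Mw F G w N ≤ argCount G N₁ * PW w := by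
    unfold Mw
    refine (sum_le_sum fun n _ => PP_Lw_le w _).trans ?_
    rw [sum_const, nsmul_eq_mul]
    apply mul_le_mul_of_nonneg_right _ hPW
    have h3 : ((AF F (argCount G N)).filter (fun n : ℕ => G.eval (n : ℤ) < N)).card ≤
        argCount G N := by
      refine (card_filter_le _ _).trans ?_
      unfold AF
      refine (card_filter_le _ _).trans ?_
      rw [Nat.card_Icc, Nat.add_sub_cancel]
    exact_mod_cast h3.trans hcount
  have a3 : 0 ≤ ∑ n ∈ (Icc 1 (argCount G Y)).filter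
      (fun n : ℕ => G.eval (n : ℤ) < N), PP_f F n * Lw w ((N : ℤ) - G.eval (n : ℤ)) :=
    sum_nonneg fun n _ => mul_nonneg (PP_f_nonneg F n) (ENG_Lw_nonneg w _)
  have a4 : 0 ≤ Mw F G w N := by
    unfold Mw
    exact sum_nonneg fun n _ => ENG_Lw_nonneg w _
  rw [abs_le]
  constructor <;> linarith

theorem PP_ev (η κ : ℝ) (hη : 0 < η) (hκ : 0 < κ) : ∃ Y₀ : ℕ, ∀ Y : ℕ, Y₀ ≤ Y →
    2 * Real.log Y * (Y : ℝ) ^ (1 - η) ≤ κ * Y := by
  have h2 : ∀ᶠ x : ℝ in atTop, ‖Real.log x‖ ≤ (κ / 2) * ‖x ^ η‖ :=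
    (isLittleO_log_rpow_atTop hη).bound (by positivity)
  have h3 := (tendsto_natCast_atTop_atTop (R := ℝ)).eventually h2
  obtain ⟨Y₀, hY₀⟩ := eventually_atTop.1 (h3.and (eventually_ge_atTop 1))
  refine ⟨Y₀, fun Y hY => ?_⟩
  obtain ⟨a1, a2⟩ := hY₀ Y hY
  have hYr : (1 : ℝ) ≤ Y := by exact_mod_cast a2
  have hlY : 0 ≤ Real.log Y := Real.log_nonneg hYr
  rw [Real.norm_of_nonneg hlY, Real.norm_of_nonneg (by positivity)] at a1
  calc 2 * Real.log Y * (Y : ℝ) ^ (1 - η) ≤ 2 * (κ / 2 * (Y : ℝ) ^ η) * (Y : ℝ) ^ (1 - η) :=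
        mul_le_mul_of_nonneg_right (by linarith) (by positivity)
    _ = κ * ((Y : ℝ) ^ η * (Y : ℝ) ^ (1 - η)) := by ring
    _ = κ * Y := by
        rw [← Real.rpow_add (by linarith)]
        norm_num

/-- Let `A = AF F (argCount G Y)` (sieve-type by `sieveWt_AF`, `S = C dens`) and
`R(N) = ∑_{n ∈ A, G(n) < N} lp(N - G(n))`. For `N` larger than a constant `argSet G N = [1, argCount G N]`
(`H59.argSet_eq`), so the `n ∈ A` with `G(n) < N` are the elements of `AF F (argCount G N)` (all with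
`G(n) < N`), `primeCount F G N` is the number of those with `N - G(n)` prime, and the sum of `Lw` over
them is `Mw F G w N`; the finitely many other `N` contribute `O_w(log Y)`. The engine bounds
`∑_N |R(N) - Mw(N)|`. Finally, `N - G(n) ≤ Y + c_G` and for `N - G(n) ≥ Y^(1-η)` one has
`log(N - G(n)) ≥ (1-η) log Y`, so
`|primeCount(N) log Y - R(N)| ≤ (η log Y + 1) primeCount(N) + 2 log Y · #{n ∈ A : 0 < N - G(n) < Y^(1-η)}`;
summed over `N ≤ Y` this is `≤ (η log Y + 1) #A · π(2Y) + 2 log Y · #A · Y^(1-η) ≤ (C η + o(1)) Y dens`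
(Chebyshev, `π(2Y) ≤ C Y/log Y`, `#A ≤ C dens`). -/
theorem prime_model (F : Fin g → ℤ[X]) (hF : Sys F) (hN : NoFix F) (G : ℤ[X])
    (hk : 1 ≤ G.natDegree) (hl : 0 < G.leadingCoeff) (ε : ℝ) (hε : 0 < ε) : ∃ w₀ : ℕ, ∀ w : ℕ,
    w₀ ≤ w → ∃ Y₀ : ℕ, ∀ Y : ℕ, Y₀ ≤ Y →
    ∑ N ∈ Icc 1 Y, |(primeCount F G N : ℝ) * Real.log Y - Mw F G w N| ≤ ε * Y * dens G g Y := by
  classical
  obtain ⟨D, C, hC, hsv⟩ := sieveWt_AF F hF hN G hk hl
  obtain ⟨K, hK0, heng⟩ := engine G hk hl D (g + 1)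
  obtain ⟨Cl, hCl, hlp⟩ := sum_lp_le
  obtain ⟨cG, hcG⟩ := ENG_low G hk hl
  obtain ⟨N₁, hN₁⟩ := eventually_atTop.1 (Pool.Agent.Lib.H59.argSet_eq hk hl)
  set η : ℝ := min (1 / 2) (ε / (24 * (C * Cl))) with hη
  have hη0 : 0 < η := by positivity
  have hη1 : η ≤ 1 / 2 := min_le_left _ _
  have hη2 : 6 * η * Cl * C ≤ ε / 4 := by
    have h1 : η ≤ ε / (24 * (C * Cl)) := min_le_right _ _
    have h2 : 0 < 24 * (C * Cl) := by positivity
    rw [le_div_iff₀ h2] at h1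
    linarith
  obtain ⟨w₀, hw₀⟩ := heng (ε / (4 * C)) (by positivity)
  refine ⟨w₀, fun w hw => ?_⟩
  obtain ⟨Y₁, hY₁⟩ := hw₀ w hw
  obtain ⟨Y₂, hY₂⟩ := hsv K
  obtain ⟨Y₃, hY₃⟩ := PP_ev η (ε / (4 * C)) hη0 (by positivity)
  have hlog : Tendsto (fun Y : ℕ => Real.log (Y : ℝ)) atTop atTop :=
    Real.tendsto_log_atTop.comp tendsto_natCast_atTop_atTop
  obtain ⟨Y₄, hY₄⟩ := eventually_atTop.1 (hlog.eventually_ge_atTop (2 / η))
  obtain ⟨Y₅, hY₅⟩ := eventually_atTop.1 ((dens_tendsto G hk hl g).eventually_ge_atTop 1)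
  have hnat : ∀ᶠ Y : ℕ in atTop, (4 * (N₁ * (2 * (argCount G N₁ * PW w))) / ε : ℝ) ≤ (Y : ℝ) :=
    tendsto_natCast_atTop_atTop.eventually_ge_atTop _
  obtain ⟨Y₆, hY₆⟩ := eventually_atTop.1 hnat
  refine ⟨max (max (max Y₁ Y₂) (max Y₃ Y₄)) (max (max Y₅ Y₆) (max (N₁ + 1) (cG + 1))),
    fun Y hY => ?_⟩
  have hYY1 : Y₁ ≤ Y := le_trans (by simp) hY
  have hYY2 : Y₂ ≤ Y := le_trans (by simp) hY
  have hYY3 : Y₃ ≤ Y := le_trans (by simp) hY
  have hYY4 : Y₄ ≤ Y := le_trans (by simp) hY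
  have hYY5 : Y₅ ≤ Y := le_trans (by simp) hY
  have hYY6 : Y₆ ≤ Y := le_trans (by simp) hY
  have hYY7 : N₁ + 1 ≤ Y := le_trans (by simp) hY
  have hYY8 : cG + 1 ≤ Y := le_trans (by simp) hY
  have hY1 : 1 ≤ Y := by omega
  have hYr : (1 : ℝ) ≤ Y := by exact_mod_cast hY1
  have b2 : SieveWt D (g + 1) K Y (argCount G Y) (C * dens G g Y) (PP_f F) := hY₂ Y hYY2
  have b1 := hY₁ Y hYY1 _ _ b2
  have b3 := hY₃ Y hYY3
  have b4 := hY₄ Y hYY4
  have b5 := hY₅ Y hYY5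
  have b6 := hY₆ Y hYY6
  have hset := hN₁ Y (by omega)
  set dY := dens G g Y with hdY
  set S := C * dY with hS
  -- the total mass
  have hmass : ∑ n ∈ Icc 1 (argCount G Y), PP_f F n ≤ S := by
    have h1 := b2.cls 1 0 squarefree_one (by
      rw [Nat.cast_one]
      apply Real.one_le_rpow _ hK0
      have : 1 ≤ 2 / η := by
        rw [one_le_div hη0]; linarith
      linarith)
    have h2 : (Icc 1 (argCount G Y)).filter (fun n => n ≡ 0 [MOD 1]) = Icc 1 (argCount G Y) := by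
      apply filter_true_of_mem
      intro n _
      exact Nat.modEq_one
    rw [h2, Nat.primeFactors_one, card_empty, pow_zero, one_mul, Nat.cast_one, div_one] at h1
    exact h1
  set Z := fun N : ℕ => (Icc 1 (argCount G Y)).filter (fun n : ℕ => G.eval (n : ℤ) < N) with hZ
  -- pointwise
  have hpt : ∀ N ∈ Icc 1 Y, |(primeCount F G N : ℝ) * Real.log Y - Mw F G w N| ≤
      ∑ n ∈ (Icc 1 (argCount G Y)).filter (fun n : ℕ => 1 ≤ (N : ℤ) - G.eval (n : ℤ) ∧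
        (N : ℤ) - G.eval (n : ℤ) ≤ (2 * Y : ℕ)), PP_f F n * PP_psi η Y ((N : ℤ) - G.eval (n : ℤ)) +
      |∑ n ∈ Z N, PP_f F n * (lp ((N : ℤ) - G.eval (n : ℤ)) - Lw w ((N : ℤ) - G.eval (n : ℤ)))| +
      (if N ≤ N₁ then 2 * (argCount G N₁ * PW w : ℝ) else 0) := by
    intro N hN'
    rw [mem_Icc] at hN'
    have e1 : (primeCount F G N : ℝ) * Real.log Y - Mw F G w N =
        ∑ n ∈ Z N, PP_f F n * (PP_chi ((N : ℤ) - G.eval (n : ℤ)) * Real.log Y -
          lp ((N : ℤ) - G.eval (n : ℤ))) +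
        ∑ n ∈ Z N, PP_f F n * (lp ((N : ℤ) - G.eval (n : ℤ)) - Lw w ((N : ℤ) - G.eval (n : ℤ))) +
        (∑ n ∈ Z N, PP_f F n * Lw w ((N : ℤ) - G.eval (n : ℤ)) - Mw F G w N) := by
      rw [PP_primeCount F G Y N hset hN'.2, sum_mul]
      have : ∑ n ∈ Z N, PP_f F n * (PP_chi ((N : ℤ) - G.eval (n : ℤ)) * Real.log Y -
          lp ((N : ℤ) - G.eval (n : ℤ))) +
        ∑ n ∈ Z N, PP_f F n * (lp ((N : ℤ) - G.eval (n : ℤ)) - Lw w ((N : ℤ) - G.eval (n : ℤ))) +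
        ∑ n ∈ Z N, PP_f F n * Lw w ((N : ℤ) - G.eval (n : ℤ)) =
        ∑ n ∈ Z N, PP_f F n * PP_chi ((N : ℤ) - G.eval (n : ℤ)) * Real.log Y := by
        rw [← sum_add_distrib, ← sum_add_distrib]
        refine sum_congr rfl fun n _ => ?_
        ring
      rw [← add_sub_assoc, this]
    rw [e1]
    refine (abs_add_le _ _).trans (add_le_add ((abs_add_le _ _).trans (add_le_add ?_ le_rfl)) ?_)
    · refine (abs_sum_le_sum_abs _ _).trans ?_
      have h1 : ∀ n ∈ Z N, |PP_f F n * (PP_chi ((N : ℤ) - G.eval (n : ℤ)) * Real.log Y -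
          lp ((N : ℤ) - G.eval (n : ℤ)))| ≤ PP_f F n * PP_psi η Y ((N : ℤ) - G.eval (n : ℤ)) := by
        intro n hn
        rw [hZ, mem_filter] at hn
        rw [abs_mul, abs_of_nonneg (PP_f_nonneg F n)]
        apply mul_le_mul_of_nonneg_left _ (PP_f_nonneg F n)
        apply PP_kernel η Y hη0 hη1 hYr b4
        · have := hn.2; omega
        · have h2 := hcG n
          have h3 : (N : ℤ) - G.eval (n : ℤ) ≤ ((2 * Y : ℕ) : ℤ) := by push_cast; omega
          have h4 : (((N : ℤ) - G.eval (n : ℤ) : ℤ) : ℝ) ≤ (((2 * Y : ℕ) : ℤ) : ℝ) := by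
            exact_mod_cast h3
          push_cast at h4 ⊢
          exact h4
      refine (sum_le_sum h1).trans (sum_le_sum_of_subset_of_nonneg ?_ ?_)
      · intro n hn
        rw [hZ, mem_filter] at hn
        rw [mem_filter]
        have h2 := hcG n
        have h3 := hn.2
        refine ⟨hn.1, by omega, ?_⟩
        push_cast
        omega
      · intro n _ _
        exact mul_nonneg (PP_f_nonneg F n) (PP_psi_nonneg η Y hη0.le hYr _)
    · split_ifs with h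
      · exact PP_small F G w Y N N₁ hset hN'.2 h (hN₁ N₁ le_rfl)
      · rw [PP_Mw F G w Y N hset hN'.2 (hN₁ N (by omega)), sub_self, abs_zero]
  refine (sum_le_sum hpt).trans ?_
  rw [sum_add_distrib, sum_add_distrib]
  have hpsi := PP_psi_sum η hη0.le Y hY1 Cl hlp
  have hT0 : 0 ≤ 6 * η * Cl * Y + 2 * Real.log Y * (Y : ℝ) ^ (1 - η) := by
    have := Real.log_nonneg hYr
    positivity
  have hrest := ENG_rest G (argCount G Y) Y Y (PP_f F) (fun n _ => PP_f_nonneg F n) S _ hmass hT0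
    (PP_psi η Y) (PP_psi_nonneg η Y hη0.le hYr) hpsi
  have hsm : ∑ N ∈ Icc 1 Y, (if N ≤ N₁ then 2 * (argCount G N₁ * PW w : ℝ) else 0) ≤
      N₁ * (2 * (argCount G N₁ * PW w : ℝ)) := by
    rw [← sum_filter, sum_const, nsmul_eq_mul]
    apply mul_le_mul_of_nonneg_right _ (by positivity)
    have hsub : (Icc 1 Y).filter (fun N => N ≤ N₁) ⊆ Icc 1 N₁ := by
      intro N hN'
      rw [mem_filter, mem_Icc] at hN'
      rw [mem_Icc]
      exact ⟨hN'.1.1, hN'.2⟩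
    have := card_le_card hsub
    rw [Nat.card_Icc, Nat.add_sub_cancel] at this
    exact_mod_cast this
  have hYpos : (0 : ℝ) < Y := by linarith
  have hdY0 : 0 < dY := by linarith
  have f1 : S * (6 * η * Cl * Y + 2 * Real.log Y * (Y : ℝ) ^ (1 - η)) ≤ ε / 2 * Y * dY := by
    have g1 : S * (6 * η * Cl * Y) = (6 * η * Cl * C) * (Y * dY) := by rw [hS]; ring
    have g2 : S * (2 * Real.log Y * (Y : ℝ) ^ (1 - η)) ≤ S * (ε / (4 * C) * Y) :=
      mul_le_mul_of_nonneg_left b3 (by positivity)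
    have g3 : S * (ε / (4 * C) * Y) = ε / 4 * (Y * dY) := by rw [hS]; field_simp
    have g4 : (6 * η * Cl * C) * (Y * dY) ≤ ε / 4 * (Y * dY) :=
      mul_le_mul_of_nonneg_right hη2 (by positivity)
    rw [mul_add]
    linarith
  have f2 : ε / (4 * C) * Y * S = ε / 4 * Y * dY := by rw [hS]; field_simp
  have f3 : N₁ * (2 * (argCount G N₁ * PW w : ℝ)) ≤ ε / 4 * Y * dY := by
    rw [div_le_iff₀ hε] at b6
    have g1 : N₁ * (2 * (argCount G N₁ * PW w : ℝ)) ≤ ε / 4 * Y := by linarith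
    have g2 : ε / 4 * Y ≤ ε / 4 * Y * dY := le_mul_of_one_le_right (by positivity) b5
    linarith
  rw [f2] at b1
  linarith

end Pool.Agent.Lib.H33B
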