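import Pool.Agent.Lib.H33B.FA1
import Pool.Agent.Lib.H33B.PP
import Pool.Agent.Lib.H33B.SR2

/-!
# Chunk FA2: Bateman-Horn implies Schinzel's formula for almost all `N`
-/

open Finset Polynomial Filter Topology

namespace Pool.Agent.Lib.H33B

open Pool.Agent.Lib.H59 (argSet argCount Admissible primeCount omegaN seriesTrunc)

variable {g : ℕ}

theorem FA2_log (G : ℤ[X]) (hk : 1 ≤ G.natDegree) (hl : 0 < G.leadingCoeff) (τ δ : ℝ)
    (hτ : 0 < τ) (hτ1 : τ ≤ 1) (hδ : 0 < δ) : ∃ Y₀ : ℕ, ∀ Y N : ℕ, Y₀ ≤ Y → δ * Y < N →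
    N ≤ Y → 0 < Real.log (argCount G N : ℝ) ∧
      |Real.log Y / (G.natDegree * Real.log (argCount G N : ℝ)) - 1| ≤ τ := by
  have hk0 : (1 : ℝ) ≤ G.natDegree := by exact_mod_cast hk
  have h1 := Metric.tendsto_atTop.mp (argCount_log G hk hl) (τ / 4) (by positivity)
  obtain ⟨N₁, hN₁⟩ := h1
  obtain ⟨N₂, hN₂⟩ := eventually_atTop.1
    ((Pool.Agent.Lib.H59.argCount_tendsto hk hl).eventually_ge_atTop 2)
  have hlog : Tendsto (fun Y : ℕ => Real.log (Y : ℝ)) atTop atTop :=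
    Real.tendsto_log_atTop.comp tendsto_natCast_atTop_atTop
  have h2 := hlog.eventually_ge_atTop (8 * |Real.log δ| / τ + 2 * |Real.log δ| + 1)
  have h3 : ∀ᶠ Y : ℕ in atTop, (((N₁ : ℝ) + N₂ + 2) / δ) ≤ (Y : ℝ) :=
    tendsto_natCast_atTop_atTop.eventually_ge_atTop _
  obtain ⟨Y₀, hY₀⟩ := eventually_atTop.1 (h2.and h3)
  refine ⟨Y₀, fun Y N hY hN hNY => ?_⟩
  obtain ⟨a1, a2⟩ := hY₀ Y hY
  rw [div_le_iff₀ hδ] at a2
  have hNr : (N₁ : ℝ) + N₂ + 2 < N := by linarith
  have hN₁0 : (0 : ℝ) ≤ N₁ := by positivity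
  have hN₂0 : (0 : ℝ) ≤ N₂ := by positivity
  have c1 : N₁ ≤ N := by
    have : (N₁ : ℝ) ≤ N := by linarith
    exact_mod_cast this
  have c2 : N₂ ≤ N := by
    have : (N₂ : ℝ) ≤ N := by linarith
    exact_mod_cast this
  have hN2 : (2 : ℝ) < N := by linarith
  have hX2 : 2 ≤ argCount G N := hN₂ N c2
  have hX2r : (2 : ℝ) ≤ argCount G N := by exact_mod_cast hX2
  have hlX : 0 < Real.log (argCount G N : ℝ) := Real.log_pos (by linarith)
  refine ⟨hlX, ?_⟩
  have hlN : 0 < Real.log N := Real.log_pos (by linarith)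
  have hNYr : (N : ℝ) ≤ Y := by exact_mod_cast hNY
  have hYpos : (0 : ℝ) < Y := by linarith
  have e1 : Real.log (δ * Y) ≤ Real.log N := Real.log_le_log (by positivity) hN.le
  rw [Real.log_mul hδ.ne' hYpos.ne'] at e1
  have e2 := neg_abs_le (Real.log δ)
  set A := |Real.log δ| with hA
  have hA0 : 0 ≤ A := abs_nonneg _
  have e3 : 8 * A / τ ≤ Real.log Y := by
    linarith
  rw [div_le_iff₀ hτ] at e3
  have e4 : Real.log N ≤ Real.log Y := Real.log_le_log (by linarith) hNYr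
  -- `a = log Y / log N`
  set a := Real.log Y / Real.log N with ha
  have ha1 : 1 ≤ a := by rw [ha, one_le_div hlN]; exact e4
  have ha2 : a ≤ 1 + τ / 4 := by
    rw [ha, div_le_iff₀ hlN]
    have e5 : Real.log Y - A ≤ Real.log N := by linarith
    have hdiv : 0 ≤ 8 * A / τ := by positivity
    have e6 : 2 * A ≤ Real.log Y := by linarith
    nlinarith
  have hb := hN₁ N c1
  rw [Real.dist_eq] at hb
  set c := Real.log N / Real.log (argCount G N : ℝ) with hc
  have hb' := abs_lt.mp hb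
  have hr : Real.log Y / (G.natDegree * Real.log (argCount G N : ℝ)) = a * (c / G.natDegree) := by
    rw [ha, hc]
    field_simp
  rw [hr]
  set b := c / (G.natDegree : ℝ) with hbd
  have hkpos : (0 : ℝ) < G.natDegree := by linarith
  have hb1 : b ≤ 1 + τ / 4 := by
    rw [hbd, div_le_iff₀ hkpos]
    nlinarith [hb'.2]
  have hb2 : 1 - τ / 4 ≤ b := by
    rw [hbd, le_div_iff₀ hkpos]
    nlinarith [hb'.1]
  rw [abs_le]
  constructor
  · nlinarith
  · nlinarith

theorem FA2_series_pos (F : Fin g → ℤ[X]) (G : ℤ[X]) (N w : ℕ)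
    (h : ∀ p ∈ Nat.primesBelow w, omegaN F G N p < p) : 0 < seriesTrunc F G N w := by
  unfold seriesTrunc
  refine prod_pos fun p hp => ?_
  have hp' := Nat.prime_of_mem_primesBelow hp
  have hp2 : (2 : ℝ) ≤ p := by exact_mod_cast hp'.two_le
  have h1 : 0 < 1 - 1 / (p : ℝ) := by
    rw [sub_pos, div_lt_one (by linarith)]
    linarith
  have h2 : 0 < 1 - (omegaN F G N p : ℝ) / p := by
    rw [sub_pos, div_lt_one (by linarith)]
    exact_mod_cast h p hp
  positivity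

theorem FA2_real (Q M T Sw d dY L Dg r κ τ e η C : ℝ) (hη : 0 < η) (hSw : η ≤ Sw) (hd : 0 < d)
    (hDg : 1 ≤ Dg) (hTL : T * L = d / Dg * r) (hr : |r - 1| ≤ τ) (hτ0 : 0 ≤ τ) (hτ : τ ≤ 1 / 2)
    (hL : 0 < L) (hQM : |Q * L - M| ≤ τ * dY) (hdY : dY ≤ C * d) (hC : 0 ≤ C)
    (hM : |M - κ / Dg * (d * Sw)| ≤ τ * d) (hκ : |κ - 1| ≤ τ)
    (hτe : τ * ((C + 1) * Dg / η + 2) ≤ e / 4) : |Q - T * Sw| ≤ e * (T * Sw) := by
  have hDg0 : 0 < Dg := by linarith
  have hSw0 : 0 < Sw := by linarith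
  set v := d / Dg with hv
  have hv0 : 0 < v := by positivity
  have hr' := abs_le.mp hr
  have a1 : |Q * L - v * Sw| ≤ τ * (C + 1) * d + τ * (v * Sw) := by
    have e1 : Q * L - v * Sw = (Q * L - M) + (M - κ / Dg * (d * Sw)) + (κ - 1) * (v * Sw) := by
      rw [hv]; ring
    rw [e1]
    refine (abs_add_le _ _).trans ?_
    have e2 := abs_add_le (Q * L - M) (M - κ / Dg * (d * Sw))
    have e3 : |(κ - 1) * (v * Sw)| ≤ τ * (v * Sw) := by
      rw [abs_mul, abs_of_pos (by positivity : 0 < v * Sw)]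
      exact mul_le_mul_of_nonneg_right hκ (by positivity)
    have e4 : τ * dY ≤ τ * (C * d) := mul_le_mul_of_nonneg_left hdY hτ0
    nlinarith
  have a2 : τ * (C + 1) * d ≤ τ * ((C + 1) * Dg / η) * (v * Sw) := by
    have e1 : τ * ((C + 1) * Dg / η) * (v * Sw) = τ * (C + 1) * d * (Sw / η) := by
      rw [hv]; field_simp
    rw [e1]
    apply le_mul_of_one_le_right (by positivity)
    rw [one_le_div hη]; exact hSw
  have a3 : |v * Sw - T * L * Sw| ≤ τ * (v * Sw) := by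
    have e1 : v * Sw - T * L * Sw = -((r - 1) * (v * Sw)) := by rw [hTL]; ring
    rw [e1, abs_neg, abs_mul, abs_of_pos (by positivity : 0 < v * Sw)]
    exact mul_le_mul_of_nonneg_right hr (by positivity)
  have a4 : |Q * L - T * L * Sw| ≤ e / 4 * (v * Sw) := by
    have e1 : Q * L - T * L * Sw = (Q * L - v * Sw) + (v * Sw - T * L * Sw) := by ring
    rw [e1]
    refine (abs_add_le _ _).trans ?_
    have e2 : τ * ((C + 1) * Dg / η + 2) * (v * Sw) ≤ e / 4 * (v * Sw) :=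
      mul_le_mul_of_nonneg_right hτe (by positivity)
    nlinarith
  have a5 : v * Sw ≤ 2 * (T * L * Sw) := by
    rw [hTL]
    have : 0 < v * Sw := by positivity
    nlinarith
  have he : 0 ≤ e := by
    have : 0 ≤ τ * ((C + 1) * Dg / η + 2) := by positivity
    linarith
  have a6 : |Q - T * Sw| * L ≤ e * (T * Sw) * L := by
    have e1 : |Q - T * Sw| * L = |Q * L - T * L * Sw| := by
      rw [← abs_of_pos hL, ← abs_mul, abs_of_pos hL]
      congr 1; ring
    rw [e1]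
    calc |Q * L - T * L * Sw| ≤ e / 4 * (v * Sw) := a4
      _ ≤ e / 4 * (2 * (T * L * Sw)) := mul_le_mul_of_nonneg_left a5 (by positivity)
      _ ≤ e * (T * Sw) * L := by
          have : 0 ≤ e * (T * L * Sw) := by
            have : 0 < v * Sw := by positivity
            have : 0 ≤ T * L * Sw := by linarith
            positivity
          nlinarith
  exact le_of_mul_le_mul_right a6 hL

/-- Let `ε > 0` (wlog `ε ≤ 1/10`), `δ = ε/4`. For admissible `N` all `ω_N(p) < p` and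
`S_w(N) = seriesTrunc F G N w > 0`; by `moment_inv` and Markov the `N ≤ Y` admissible with `S_w(N) < η` are at
most `C η Y ≤ ε Y/4` for a suitable `η = η(ε)`, uniformly in `w`. Let `ε₁` be tiny (in terms of `ε, η, δ`),
`w ≥ w₀(ε₁)` as in `prime_model` and `bh_tail`. For all `N ≤ Y` but `√ε₁ Y`:
`|primeCount log Y - Mw| ≤ √ε₁ dens G g Y ≤ √ε₁ C(δ) dens G g N` (`N ≥ δ Y`, `dens_comp`). By `model_bh`
`|Mw - κ dens(N) S_w(N)/∏ deg F_i| ≤ ε₁ dens(N)`, `|κ - 1| ≤ ε₁` (`bh_tail`). And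
`mainT F G N · log Y = dens(N)/∏ deg F_i · log Y/(k log X(N))`, where `log Y/(k log X(N)) → 1` uniformly for
`δ Y ≤ N ≤ Y` (`argCount_log`, `log Y - log N ≤ log(1/δ)`). So
`|primeCount log Y - mainT S_w log Y| ≤ C' √ε₁ dens(N) + (2ε₁ + o(1)) dens(N) S_w/∏ deg
≤ ε mainT S_w log Y` when `S_w(N) ≥ η`. -/
theorem aaT_of_bh (F : Fin g → ℤ[X]) (hF : Sys F) (hN : NoFix F)
    (h : ∀ q : ℕ, Squarefree q → BHClass F q) (G : ℤ[X]) (hk : 1 ≤ G.natDegree)
    (hl : 0 < G.leadingCoeff) : AlmostAllT F G := by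
  classical
  intro ε hε
  set e := min ε 1 with he
  have he0 : 0 < e := by positivity
  have he1 : e ≤ 1 := min_le_right _ _
  have heε : e ≤ ε := min_le_left _ _
  have hDg : (1 : ℝ) ≤ ∏ i, ((F i).natDegree : ℝ) := by
    have h : 0 < ∏ i, (F i).natDegree := Finset.prod_pos fun i _ => hF.deg i
    have h' : 1 ≤ ∏ i, (F i).natDegree := h
    exact_mod_cast h'
  set Dg : ℝ := ∏ i, ((F i).natDegree : ℝ) with hDgd
  have hDg0 : 0 < Dg := by linarith
  set δ := e / 4 with hδ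
  have hδ0 : 0 < δ := by positivity
  obtain ⟨C₁, hC₁, hmom⟩ := moment_inv F hF hN G hk hl
  obtain ⟨C₂, hC₂, Y₂, hdens⟩ := dens_comp G hk hl g δ hδ0
  set η := e / (4 * C₁) with hη
  have hη0 : 0 < η := by positivity
  set τ := min (1 / 2) (e / (4 * ((C₂ + 1) * Dg / η + 2))) with hτ
  have hτ0 : 0 < τ := by positivity
  have hτ1 : τ ≤ 1 / 2 := min_le_left _ _
  have hτe : τ * ((C₂ + 1) * Dg / η + 2) ≤ e / 4 := by
    have h1 : τ ≤ e / (4 * ((C₂ + 1) * Dg / η + 2)) := min_le_right _ _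
    have h2 : 0 < (C₂ + 1) * Dg / η + 2 := by positivity
    calc τ * ((C₂ + 1) * Dg / η + 2) ≤ e / (4 * ((C₂ + 1) * Dg / η + 2)) *
          ((C₂ + 1) * Dg / η + 2) := mul_le_mul_of_nonneg_right h1 h2.le
      _ = e / 4 := by field_simp
  obtain ⟨w₁, hw₁⟩ := prime_model F hF hN G hk hl (e * τ / 4) (by positivity)
  obtain ⟨w₂, hw₂⟩ := bh_tail F hF hN τ hτ0
  refine ⟨max w₁ w₂, fun w hw => ?_⟩
  obtain ⟨Y₁, hY₁⟩ := hw₁ w ((le_max_left _ _).trans hw)
  have hκ := hw₂ w ((le_max_right _ _).trans hw)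
  obtain ⟨N₃, hN₃⟩ := model_bh F hF hN h G hk hl w τ hτ0
  obtain ⟨Y₄, hY₄⟩ := FA2_log G hk hl τ δ hτ0 (by linarith) hδ0
  have h5 : ∀ᶠ Y : ℕ in atTop, ((N₃ : ℝ) / δ) ≤ (Y : ℝ) :=
    tendsto_natCast_atTop_atTop.eventually_ge_atTop _
  obtain ⟨Y₅, hY₅⟩ := eventually_atTop.1 h5
  have h6 := (dens_tendsto G hk hl g).eventually_gt_atTop 0
  obtain ⟨Y₆, hY₆⟩ := eventually_atTop.1 h6
  refine ⟨max (max (max Y₁ Y₂) (max Y₄ Y₅)) (max (max (PW w) 3) Y₆), fun Y hY => ?_⟩
  have hYY1 : Y₁ ≤ Y := le_trans (by simp) hY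
  have hYY2 : Y₂ ≤ Y := le_trans (by simp) hY
  have hYY4 : Y₄ ≤ Y := le_trans (by simp) hY
  have hYY5 : Y₅ ≤ Y := le_trans (by simp) hY
  have hYY6 : Y₆ ≤ Y := le_trans (by simp) hY
  have hYY7 : PW w ≤ Y := le_trans (by simp) hY
  have hYY8 : 3 ≤ Y := le_trans (by simp) hY
  have hY3r : (3 : ℝ) ≤ Y := by exact_mod_cast hYY8
  have hYpos : (0 : ℝ) < Y := by linarith
  have hlY : 0 < Real.log Y := Real.log_pos (by linarith)
  have b1 := hY₁ Y hYY1
  have b5 := hY₅ Y hYY5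
  rw [div_le_iff₀ hδ0] at b5
  have b6 := hY₆ Y hYY6
  have b7 := hmom w Y hYY7
  set dY := dens G g Y with hdY
  set E₁ := (Icc 1 Y).filter (fun N : ℕ => (N : ℝ) ≤ δ * Y) with hE₁
  set E₂ := (Icc 1 Y).filter (fun N => (∀ p ∈ Nat.primesBelow w, omegaN F G N p < p) ∧
      seriesTrunc F G N w < η) with hE₂
  set E₃ := (Icc 1 Y).filter (fun N => τ * dY <
      |(primeCount F G N : ℝ) * Real.log Y - Mw F G w N|) with hE₃
  have c1 : (E₁.card : ℝ) ≤ e / 4 * Y := by
    have hsub : E₁ ⊆ Icc 1 ⌊δ * Y⌋₊ := by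
      intro N hN'
      rw [hE₁, mem_filter, mem_Icc] at hN'
      rw [mem_Icc]
      exact ⟨hN'.1.1, Nat.le_floor hN'.2⟩
    have := card_le_card hsub
    rw [Nat.card_Icc, Nat.add_sub_cancel] at this
    calc (E₁.card : ℝ) ≤ (⌊δ * Y⌋₊ : ℝ) := by exact_mod_cast this
      _ ≤ δ * Y := Nat.floor_le (by positivity)
  have c2 : (E₂.card : ℝ) ≤ e / 4 * Y := by
    have h1 : (E₂.card : ℝ) * η⁻¹ ≤ C₁ * Y := by
      calc (E₂.card : ℝ) * η⁻¹ = ∑ N ∈ E₂, η⁻¹ := by rw [sum_const, nsmul_eq_mul]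
        _ ≤ ∑ N ∈ E₂, (seriesTrunc F G N w)⁻¹ := by
            refine sum_le_sum fun N hN' => ?_
            rw [hE₂, mem_filter] at hN'
            exact inv_anti₀ (FA2_series_pos F G N w hN'.2.1) hN'.2.2.le
        _ ≤ ∑ N ∈ (Icc 1 Y).filter (fun N => ∀ p ∈ Nat.primesBelow w, omegaN F G N p < p),
            (seriesTrunc F G N w)⁻¹ := by
            apply sum_le_sum_of_subset_of_nonneg
            · intro N hN'
              rw [hE₂, mem_filter] at hN'
              rw [mem_filter]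
              exact ⟨hN'.1, hN'.2.1⟩
            · intro N _ _
              exact inv_nonneg.mpr (series_nonneg _ _ _ _)
        _ ≤ C₁ * Y := b7
    rw [← div_eq_mul_inv, div_le_iff₀ hη0] at h1
    calc (E₂.card : ℝ) ≤ C₁ * Y * η := h1
      _ = e / 4 * Y := by rw [hη]; field_simp
  have c3 : (E₃.card : ℝ) ≤ e / 4 * Y := by
    have h1 : (E₃.card : ℝ) * (τ * dY) ≤ e * τ / 4 * Y * dY := by
      calc (E₃.card : ℝ) * (τ * dY) = ∑ N ∈ E₃, τ * dY := by rw [sum_const, nsmul_eq_mul]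
        _ ≤ ∑ N ∈ E₃, |(primeCount F G N : ℝ) * Real.log Y - Mw F G w N| := by
            refine sum_le_sum fun N hN' => ?_
            rw [hE₃, mem_filter] at hN'
            exact hN'.2.le
        _ ≤ ∑ N ∈ Icc 1 Y, |(primeCount F G N : ℝ) * Real.log Y - Mw F G w N| :=
            sum_le_sum_of_subset_of_nonneg (filter_subset _ _) fun _ _ _ => abs_nonneg _
        _ ≤ _ := b1
    have h2 : 0 < τ * dY := by positivity
    have h3 : (E₃.card : ℝ) * (τ * dY) ≤ (e / 4 * Y) * (τ * dY) := by linarith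
    exact le_of_mul_le_mul_right h3 h2
  have hsub : (Icc 1 Y).filter (fun N => Admissible F G N ∧
      ε * (mainT F G N * seriesTrunc F G N w) <
        |(primeCount F G N : ℝ) - mainT F G N * seriesTrunc F G N w|) ⊆ E₁ ∪ E₂ ∪ E₃ := by
    intro N hN'
    rw [mem_filter] at hN'
    obtain ⟨hNI, hadm, hbig⟩ := hN'
    have hN2 := mem_Icc.mp hNI
    by_contra hc
    have hN1 : ¬ (N : ℝ) ≤ δ * Y := fun h => hc
      (mem_union_left _ (mem_union_left _ (mem_filter.mpr ⟨hNI, h⟩)))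
    have hω : ∀ p ∈ Nat.primesBelow w, omegaN F G N p < p := fun p hp =>
      Pool.Agent.Lib.H59.omegaN_lt hadm (Nat.prime_of_mem_primesBelow hp)
    have hN3 : ¬ seriesTrunc F G N w < η := fun h => hc
      (mem_union_left _ (mem_union_right _ (mem_filter.mpr ⟨hNI, hω, h⟩)))
    have hN4 : ¬ τ * dY < |(primeCount F G N : ℝ) * Real.log Y - Mw F G w N| := fun h => hc
      (mem_union_right _ (mem_filter.mpr ⟨hNI, h⟩))
    push Not at hN1 hN3 hN4
    obtain ⟨l1, l2⟩ := hY₄ Y N hYY4 hN1 hN2.2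
    obtain ⟨m1, m2, m3⟩ := hdens Y N hYY2 hN1.le hN2.2
    have hNN : N₃ ≤ N := by
      have : (N₃ : ℝ) ≤ N := by linarith
      exact_mod_cast this
    have hM := hN₃ N hNN
    have hkpos : (0 : ℝ) < G.natDegree := by exact_mod_cast hk
    have hTL : mainT F G N * Real.log Y = dens G g N / Dg *
        (Real.log Y / (G.natDegree * Real.log (argCount G N : ℝ))) := by
      unfold mainT dens
      rw [← hDgd, pow_succ]
      field_simp
    have hfin := FA2_real (primeCount F G N) (Mw F G w N) (mainT F G N) (seriesTrunc F G N w)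
      (dens G g N) dY (Real.log Y) Dg _ _ τ e η C₂ hη0 hN3 m1 hDg hTL l2 hτ0.le hτ1 hlY hN4 m2
      hC₂.le hM hκ hτe
    have hT : 0 ≤ mainT F G N := by
      unfold mainT
      have : 0 ≤ Real.log (argCount G N : ℝ) := Real.log_natCast_nonneg _
      positivity
    have hS : 0 ≤ seriesTrunc F G N w := series_nonneg _ _ _ _
    have hfin2 : e * (mainT F G N * seriesTrunc F G N w) ≤
        ε * (mainT F G N * seriesTrunc F G N w) :=
      mul_le_mul_of_nonneg_right heε (by positivity)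
    linarith
  have hcard := card_le_card hsub
  have hcu1 := card_union_le (E₁ ∪ E₂) E₃
  have hcu2 := card_union_le E₁ E₂
  have hcard2 : (((Icc 1 Y).filter (fun N => Admissible F G N ∧
      ε * (mainT F G N * seriesTrunc F G N w) <
        |(primeCount F G N : ℝ) - mainT F G N * seriesTrunc F G N w|)).card : ℝ) ≤
      E₁.card + E₂.card + E₃.card := by
    have : ((Icc 1 Y).filter (fun N => Admissible F G N ∧
      ε * (mainT F G N * seriesTrunc F G N w) <
        |(primeCount F G N : ℝ) - mainT F G N * seriesTrunc F G N w|)).card ≤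
      E₁.card + E₂.card + E₃.card := by omega
    exact_mod_cast this
  have hfin : e * Y ≤ ε * Y := mul_le_mul_of_nonneg_right heε hYpos.le
  have : 0 ≤ e * Y := by positivity
  linarith

end Pool.Agent.Lib.H33B
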