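import Pool.Agent.Lib.H33B.SR3

/-!
# Chunk FB: from the truncated to the full singular series, `G` linear
-/

open Finset Polynomial

namespace Pool.Agent.Lib.H33B

open Pool.Agent.Lib.H59 (argSet argCount Admissible primeCount omegaN seriesTrunc)

variable {g : ℕ}

theorem FB_main_nonneg (F : Fin g → ℤ[X]) (G : ℤ[X]) (N : ℕ) : 0 ≤ mainT F G N := by
  unfold mainT
  have h1 : 0 ≤ Real.log (argCount G N) := Real.log_natCast_nonneg _
  have h2 : (0 : ℝ) ≤ ∏ i, ((F i).natDegree : ℝ) := Finset.prod_nonneg fun _ _ => Nat.cast_nonneg _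
  positivity

/-- Apply `AlmostAllT` and `tail_linear` with `ε' = min(ε,1)/8` and `z = w ≥` both thresholds. Outside
`2 ε' Y` numbers `N`, `|SS - S_z| ≤ ε' S_z` and `|Q₁ - mainT S_z| ≤ ε' mainT S_z`, so
`|Q₁ - mainT SS| ≤ 2 ε' mainT S_z ≤ 4 ε' mainT SS` (`mainT ≥ 0`, `S_z ≥ 0`). -/
theorem aa_of_aaT (F : Fin g → ℤ[X]) (hF : Sys F) (hN : NoFix F) (G : ℤ[X])
    (hG : G.natDegree = 1) (hl : 0 < G.leadingCoeff) (h : AlmostAllT F G) : AlmostAll F G := by
  classical
  intro ε hε
  obtain ⟨e, he⟩ : ∃ e, e = min ε 1 / 8 := ⟨_, rfl⟩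
  have hm : 0 < min ε 1 := lt_min hε one_pos
  have he0 : 0 < e := by rw [he]; positivity
  have he1 : 8 * e ≤ 1 := by
    rw [he]
    have := min_le_right ε 1
    linarith
  have he2 : 8 * e ≤ ε := by
    rw [he]
    have := min_le_left ε 1
    linarith
  obtain ⟨z₀, hz⟩ := h e he0
  obtain ⟨w₀, hw⟩ := tail_linear F hF hN G hG hl e he0
  obtain ⟨Y₀, hY⟩ := hz (max z₀ w₀) (le_max_left _ _)
  obtain ⟨Y₁, hY'⟩ := hw (max z₀ w₀) (le_max_right _ _)
  set z := max z₀ w₀ with hzdef
  refine ⟨max Y₀ Y₁, fun Y hYY => ?_⟩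
  have h1 := hY Y ((le_max_left _ _).trans hYY)
  have h2 := hY' Y ((le_max_right _ _).trans hYY)
  have hsub : (Icc 1 Y).filter (fun N => Admissible F G N ∧
      ε * (mainT F G N * SS F G N) < |(primeCount F G N : ℝ) - mainT F G N * SS F G N|) ⊆
      (Icc 1 Y).filter (fun N => Admissible F G N ∧
        e * (mainT F G N * seriesTrunc F G N z) <
          |(primeCount F G N : ℝ) - mainT F G N * seriesTrunc F G N z|) ∪
      (Icc 1 Y).filter (fun N => e * seriesTrunc F G N z <
        |SS F G N - seriesTrunc F G N z|) := by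
    intro N hN'
    rw [mem_filter] at hN'
    obtain ⟨hN1, hN2, hN3⟩ := hN'
    by_contra hcon
    rw [mem_union, mem_filter, mem_filter] at hcon
    push Not at hcon
    obtain ⟨hc1, hc2⟩ := hcon
    have hc1 := hc1 hN1 hN2
    have hc2 := hc2 hN1
    have hM := FB_main_nonneg F G N
    have hS := series_nonneg F G N z
    generalize mainT F G N = M at *
    generalize seriesTrunc F G N z = S at *
    generalize SS F G N = T at *
    generalize (primeCount F G N : ℝ) = Q at *
    have k1 := abs_le.1 hc2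
    have k2 : S ≤ 2 * T := by nlinarith
    have k3 : |Q - M * T| ≤ |Q - M * S| + M * |T - S| := by
      have e1 : Q - M * T = (Q - M * S) - M * (T - S) := by ring
      calc |Q - M * T| = |(Q - M * S) - M * (T - S)| := by rw [e1]
        _ ≤ |Q - M * S| + |M * (T - S)| := abs_sub _ _
        _ = _ := by rw [abs_mul, abs_of_nonneg hM]
    have k4 : M * |T - S| ≤ M * (e * S) := mul_le_mul_of_nonneg_left hc2 hM
    have k5 : M * S ≤ M * (2 * T) := mul_le_mul_of_nonneg_left k2 hM
    have k6 : 0 ≤ M * S := mul_nonneg hM hS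
    have k7 : 0 ≤ M * T := by linarith
    have k8 : |Q - M * T| ≤ 2 * (e * (M * S)) := by linarith
    have k9 : e * (M * S) ≤ e * (2 * (M * T)) := mul_le_mul_of_nonneg_left (by linarith) he0.le
    have k10 : 8 * e * (M * T) ≤ ε * (M * T) := mul_le_mul_of_nonneg_right he2 k7
    have k11 : 0 ≤ e * (M * T) := mul_nonneg he0.le k7
    linarith
  have h3 := (card_le_card hsub).trans (card_union_le _ _)
  have h4 : (((Icc 1 Y).filter (fun N => Admissible F G N ∧
      ε * (mainT F G N * SS F G N) < |(primeCount F G N : ℝ) - mainT F G N * SS F G N|)).card : ℝ) ≤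
      (((Icc 1 Y).filter (fun N => Admissible F G N ∧
        e * (mainT F G N * seriesTrunc F G N z) <
          |(primeCount F G N : ℝ) - mainT F G N * seriesTrunc F G N z|)).card : ℝ) +
      (((Icc 1 Y).filter (fun N => e * seriesTrunc F G N z <
        |SS F G N - seriesTrunc F G N z|)).card : ℝ) := by exact_mod_cast h3
  have hY0 : (0 : ℝ) ≤ Y := Nat.cast_nonneg _
  have h5 : 8 * e * Y ≤ ε * Y := mul_le_mul_of_nonneg_right he2 hY0
  have h6 : 0 ≤ e * Y := mul_nonneg he0.le hY0
  refine h4.trans ?_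
  linarith

end Pool.Agent.Lib.H33B
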