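import Pool.Agent.Lib.H33B.SR1
import Pool.Agent.Lib.H33B.CV4
import Pool.Agent.Lib.H33B.FS

/-!
# Chunk SR3: the tail of the singular series for linear `G`
-/

open Finset Polynomial Filter Topology

namespace Pool.Agent.Lib.H33B

open Pool.Agent.Lib.H59 (omegaN seriesTrunc rootCount Admissible card_large_primes_le eq_of_dvd_sub
  card_blocks)

variable {g : ℕ}

/-- `H(N) = a^m P((N - c)/a)` for `G = a x + c` -/
noncomputable def SR3_H (P G : ℤ[X]) (N : ℕ) : ℤ :=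
  (scaleRoots P G.leadingCoeff).eval ((N : ℤ) - G.coeff 0)

theorem SR3_G {G : ℤ[X]} (hG : G.natDegree = 1) (x : ℤ) :
    G.eval x = G.leadingCoeff * x + G.coeff 0 := by
  have h := eq_X_add_C_of_natDegree_le_one (p := G) (by omega)
  have h2 : G.leadingCoeff = G.coeff 1 := by rw [leadingCoeff, hG]
  rw [h2]
  conv_lhs => rw [h]
  simp

/-- The root of `N - G` modulo `p`. -/
theorem SR3_root (P : ℤ[X]) {G : ℤ[X]} (hG : G.natDegree = 1) {p : ℕ} (hp : p.Prime)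
    (ha : ¬ (p : ℤ) ∣ G.leadingCoeff) (N : ℕ) : ∃ r₀ : ℕ, r₀ < p ∧
      (∀ r : ℕ, r < p → ((p : ℤ) ∣ (N : ℤ) - G.eval (r : ℤ) ↔ r = r₀)) ∧
      ((p : ℤ) ∣ P.eval (r₀ : ℤ) ↔ (p : ℤ) ∣ SR3_H P G N) := by
  have hpZ : Prime (p : ℤ) := Nat.prime_iff_prime_int.mp hp
  have hp0 : (0 : ℤ) < p := by exact_mod_cast hp.pos
  set a : ℤ := G.leadingCoeff with hadef
  set c : ℤ := G.coeff 0 with hc
  have hcop : IsCoprime a (p : ℤ) := by
    rw [Int.isCoprime_iff_gcd_eq_one, Int.gcd_comm]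
    exact (Nat.Prime.coprime_iff_not_dvd hp).mpr (fun h => ha (Int.natCast_dvd.mpr h))
  obtain ⟨u, v, huv⟩ := hcop
  set r₀ : ℕ := ((u * (N - c)) % (p : ℤ)).toNat with hr₀
  have h2 : 0 ≤ (u * (N - c)) % (p : ℤ) := Int.emod_nonneg _ hp0.ne'
  have h3 : (u * (N - c)) % (p : ℤ) < p := Int.emod_lt_of_pos _ hp0
  have h4 : (r₀ : ℤ) = (u * (N - c)) % (p : ℤ) := Int.toNat_of_nonneg h2
  have hroot : (p : ℤ) ∣ (N : ℤ) - c - a * r₀ := by
    have h6 : (r₀ : ℤ) = u * (N - c) - p * (u * (N - c) / p) := by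
      rw [h4]
      have := Int.emod_add_mul_ediv (u * (N - c)) p
      linarith
    rw [h6]
    have h7 : (N : ℤ) - c - a * (u * (N - c) - p * (u * (N - c) / p)) =
        p * (v * (N - c) + a * (u * (N - c) / p)) := by
      linear_combination (-((N : ℤ) - c)) * huv
    rw [h7]
    exact dvd_mul_right _ _
  refine ⟨r₀, by omega, fun r hr => ?_, ?_⟩
  · rw [SR3_G hG, ← hadef, ← hc]
    constructor
    · intro h
      have h8 : (p : ℤ) ∣ a * ((r₀ : ℤ) - r) := by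
        have h9 := dvd_sub h hroot
        have h10 : (N : ℤ) - (a * r + c) - ((N : ℤ) - c - a * r₀) = a * ((r₀ : ℤ) - r) := by ring
        rwa [h10] at h9
      have h9 := (hpZ.dvd_or_dvd h8).resolve_left ha
      exact (eq_of_dvd_sub (by omega) hr h9).symm
    · rintro rfl
      have h10 : (N : ℤ) - (a * r₀ + c) = (N : ℤ) - c - a * r₀ := by ring
      rw [h10]
      exact hroot
  · have h5 : (p : ℤ) ∣ SR3_H P G N - a ^ P.natDegree * P.eval (r₀ : ℤ) := by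
      unfold SR3_H
      rw [← hadef, ← hc, ← scaleRoots_eval_mul]
      exact hroot.trans (Polynomial.sub_dvd_eval_sub _ _ _)
    constructor
    · intro h
      have := dvd_add h5 (Dvd.dvd.mul_left h (a ^ P.natDegree))
      simpa using this
    · intro h
      have h6 := dvd_sub h h5
      rw [sub_sub_cancel] at h6
      rcases hpZ.dvd_or_dvd h6 with h7 | h7
      · exact absurd (hpZ.dvd_of_dvd_pow h7) ha
      · exact h7

open scoped Classical in
theorem SR3_omega (F : Fin g → ℤ[X]) {G : ℤ[X]} (hG : G.natDegree = 1) {p : ℕ} (hp : p.Prime)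
    (ha : ¬ (p : ℤ) ∣ G.leadingCoeff) (N : ℕ) :
    (omegaN F G N p : ℝ) = wF F p + 1 - (if (p : ℤ) ∣ SR3_H (∏ i, F i) G N then 1 else 0) := by
  classical
  obtain ⟨r₀, h1, h2, h3⟩ := SR3_root (∏ i, F i) hG hp ha N
  have hpZ : Prime (p : ℤ) := Nat.prime_iff_prime_int.mp hp
  have e1 : omegaN F G N p = (((Finset.range p).filter fun r : ℕ =>
      (p : ℤ) ∣ (∏ i, F i).eval (r : ℤ)) ∪ {r₀}).card := by
    unfold omegaN
    congr 1
    ext r
    rw [mem_filter, mem_union, mem_filter, mem_singleton, eval_mul]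
    constructor
    · rintro ⟨h4, h5⟩
      rcases hpZ.dvd_or_dvd h5 with h6 | h6
      · exact Or.inl ⟨h4, h6⟩
      · right
        rw [eval_sub, eval_C] at h6
        exact (h2 r (Finset.mem_range.1 h4)).1 h6
    · rintro (⟨h4, h5⟩ | rfl)
      · exact ⟨h4, Dvd.dvd.mul_right h5 _⟩
      · refine ⟨Finset.mem_range.2 h1, Dvd.dvd.mul_left ?_ _⟩
        rw [eval_sub, eval_C]
        exact (h2 _ h1).2 rfl
  have e2 : wF F p = ((Finset.range p).filter fun r : ℕ =>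
      (p : ℤ) ∣ (∏ i, F i).eval (r : ℤ)).card := rfl
  rw [e1, e2]
  by_cases h : (p : ℤ) ∣ SR3_H (∏ i, F i) G N
  · rw [if_pos h]
    have h4 : ((Finset.range p).filter fun r : ℕ =>
      (p : ℤ) ∣ (∏ i, F i).eval (r : ℤ)) ∪ {r₀} = ((Finset.range p).filter fun r : ℕ =>
      (p : ℤ) ∣ (∏ i, F i).eval (r : ℤ)) := by
      rw [union_eq_left, singleton_subset_iff, mem_filter]
      exact ⟨Finset.mem_range.2 h1, h3.2 h⟩
    rw [h4]
    ring
  · rw [if_neg h, card_union_of_disjoint, card_singleton]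
    · push_cast
      ring
    · rw [disjoint_singleton_right, mem_filter, not_and]
      intro _ h4
      exact h (h3.1 h4)

/-- For `p ∤ a` there are at most `∑ deg F_i` classes modulo `p` of `N` with `p ∣ H(N)`. -/
theorem SR3_classes (F : Fin g → ℤ[X]) (hF : Sys F) {G : ℤ[X]} (hG : G.natDegree = 1) {p : ℕ}
    (hp : p.Prime) (ha : ¬ (p : ℤ) ∣ G.leadingCoeff) :
    ((Finset.range p).filter fun N : ℕ => (p : ℤ) ∣ SR3_H (∏ i, F i) G N).card ≤ FS_D F := by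
  classical
  have h0 := fun N : ℕ => SR3_root (∏ i, F i) hG hp ha N
  choose r h1 h2 h3 using h0
  refine le_trans ?_ (FS_wle F hF p hp)
  unfold wF rootCount
  refine card_le_card_of_injOn r ?_ ?_
  · intro N hN
    rw [mem_coe, mem_filter] at hN
    rw [mem_coe, mem_filter]
    exact ⟨Finset.mem_range.2 (h1 N), (h3 N).2 hN.2⟩
  · intro N hN M hM hNM
    rw [mem_coe, mem_filter, Finset.mem_range] at hN hM
    have h4 := (h2 N _ (h1 N)).2 rfl
    have h5 := (h2 M _ (h1 M)).2 rfl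
    rw [← hNM] at h5
    have h6 := dvd_sub h4 h5
    apply eq_of_dvd_sub hN.1 hM.1
    have h7 : (N : ℤ) - eval (r N : ℤ) G - ((M : ℤ) - eval (r N : ℤ) G) = (N : ℤ) - M := by ring
    rwa [h7] at h6

theorem SR3_count (F : Fin g → ℤ[X]) (hF : Sys F) {G : ℤ[X]} (hG : G.natDegree = 1) {p : ℕ}
    (hp : p.Prime) (ha : ¬ (p : ℤ) ∣ G.leadingCoeff) (Y : ℕ) :
    (((Icc 1 Y).filter fun N : ℕ => (p : ℤ) ∣ SR3_H (∏ i, F i) G N).card : ℝ) ≤
      ((Y : ℝ) / p + 1) * FS_D F := by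
  classical
  set q : ℕ → Prop := fun N => (p : ℤ) ∣ SR3_H (∏ i, F i) G N with hq
  have hper : Function.Periodic q p := by
    intro N
    apply propext
    rw [hq]
    have h1 : (p : ℤ) ∣ SR3_H (∏ i, F i) G (N + p) - SR3_H (∏ i, F i) G N := by
      unfold SR3_H
      have h2 : (((N + p : ℕ) : ℤ) - G.coeff 0) - ((N : ℤ) - G.coeff 0) = p := by
        push_cast
        ring
      have h3 := Polynomial.sub_dvd_eval_sub (((N + p : ℕ) : ℤ) - G.coeff 0)
        ((N : ℤ) - G.coeff 0) (scaleRoots (∏ i, F i) G.leadingCoeff)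
      rwa [h2] at h3
    constructor
    · intro h
      have := dvd_sub h h1
      simpa using this
    · intro h
      have := dvd_add h1 h
      simpa using this
  have hcount : Nat.count q p ≤ FS_D F := by
    rw [Nat.count_eq_card_filter_range]
    exact SR3_classes F hF hG hp ha
  have hIcc : Icc 1 Y = Ico 1 (1 + Y) := by
    ext n
    simp only [mem_Icc, mem_Ico]
    omega
  set m := Y / p with hm
  have hhi : ((Icc 1 Y).filter q).card ≤ ((Ico 1 (1 + (m + 1) * p)).filter q).card := by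
    rw [hIcc]
    refine card_le_card (filter_subset_filter _ (Ico_subset_Ico_right ?_))
    have h0 : Y < p * (m + 1) := Nat.lt_mul_div_succ Y hp.pos
    rw [mul_comm] at h0
    omega
  rw [card_blocks q hper] at hhi
  have hhi' : (((Icc 1 Y).filter q).card : ℝ) ≤ (m + 1) * Nat.count q p := by exact_mod_cast hhi
  refine hhi'.trans ?_
  have h5 : (m : ℝ) ≤ Y / p := Nat.cast_div_le
  have h6 : (Nat.count q p : ℝ) ≤ FS_D F := by exact_mod_cast hcount
  exact mul_le_mul (by linarith) h6 (by positivity) (by positivity)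

theorem SR3_nonzero {P : ℤ[X]} (hP : P ≠ 0) (G : ℤ[X]) : ∃ N₁ : ℕ, ∀ N : ℕ, N₁ ≤ N →
    SR3_H P G N ≠ 0 := by
  classical
  set Q : ℤ[X] := scaleRoots P G.leadingCoeff with hQ
  have hQ0 : Q ≠ 0 := scaleRoots_ne_zero hP _
  refine ⟨∑ r ∈ Q.roots.toFinset, (r + G.coeff 0).natAbs + 1, fun N hN h => ?_⟩
  have h1 : (N : ℤ) - G.coeff 0 ∈ Q.roots.toFinset := by
    rw [Multiset.mem_toFinset, mem_roots hQ0, IsRoot.def]
    exact h
  have h2 := single_le_sum (f := fun r : ℤ => (r + G.coeff 0).natAbs) (fun _ _ => Nat.zero_le _) h1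
  have h3 : ((N : ℤ) - G.coeff 0 + G.coeff 0).natAbs = N := by
    rw [sub_add_cancel, Int.natAbs_natCast]
  rw [h3] at h2
  omega

theorem SR3_size (P G : ℤ[X]) : ∃ B Y₀ : ℕ, ∀ Y N : ℕ, Y₀ ≤ Y → N ≤ Y →
    |(SR3_H P G N : ℝ)| ≤ (Y : ℝ) ^ (B : ℝ) := by
  classical
  set Q : ℤ[X] := scaleRoots P G.leadingCoeff with hQ
  set c : ℤ := G.coeff 0 with hc
  set D : ℕ := Q.natDegree with hD
  set S : ℝ := ∑ i ∈ Finset.range (D + 1), |(Q.coeff i : ℝ)| with hS
  obtain ⟨m, hm⟩ := exists_nat_ge S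
  refine ⟨2 * D + 1, m + c.natAbs + 2, fun Y N hY hN => ?_⟩
  have hY0 : (2 : ℝ) ≤ Y := by exact_mod_cast (by omega : 2 ≤ Y)
  have hx : |((N : ℤ) - c : ℝ)| ≤ (Y : ℝ) ^ 2 := by
    have h1 : |(((N : ℤ) - c : ℤ) : ℝ)| ≤ Y + c.natAbs := by
      have h2 : |(N : ℤ) - c| ≤ (Y : ℤ) + c.natAbs := by
        rw [abs_le]
        constructor <;> omega
      have h3 : ((|(N : ℤ) - c| : ℤ) : ℝ) ≤ (((Y : ℤ) + (c.natAbs : ℤ) : ℤ) : ℝ) :=
        Int.cast_le.2 h2
      rw [Int.cast_abs, Int.cast_add, Int.cast_natCast, Int.cast_natCast] at h3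
      exact h3
    have h2 : (c.natAbs : ℝ) ≤ Y := by exact_mod_cast (by omega : c.natAbs ≤ Y)
    push_cast at h1
    push_cast
    nlinarith
  have h1 : (SR3_H P G N : ℝ) = ∑ i ∈ Finset.range (D + 1), (Q.coeff i : ℝ) * ((N : ℤ) - c : ℝ) ^ i := by
    unfold SR3_H
    rw [← hQ, ← hc, eval_eq_sum_range, ← hD]
    push_cast
    rfl
  rw [h1]
  have hYD : (1 : ℝ) ≤ Y ^ 2 := by nlinarith
  calc |∑ i ∈ Finset.range (D + 1), (Q.coeff i : ℝ) * ((N : ℤ) - c : ℝ) ^ i| ≤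
        ∑ i ∈ Finset.range (D + 1), |(Q.coeff i : ℝ) * ((N : ℤ) - c : ℝ) ^ i| :=
        abs_sum_le_sum_abs _ _
    _ ≤ ∑ i ∈ Finset.range (D + 1), |(Q.coeff i : ℝ)| * ((Y : ℝ) ^ 2) ^ D := by
        refine sum_le_sum fun i hi => ?_
        rw [abs_mul, abs_pow]
        apply mul_le_mul_of_nonneg_left _ (abs_nonneg _)
        refine (pow_le_pow_left₀ (abs_nonneg _) hx i).trans ?_
        exact pow_le_pow_right₀ hYD (by rw [Finset.mem_range] at hi; omega)
    _ = S * ((Y : ℝ) ^ 2) ^ D := by rw [hS, sum_mul]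
    _ ≤ (Y : ℝ) * ((Y : ℝ) ^ 2) ^ D := by
        apply mul_le_mul_of_nonneg_right _ (by positivity)
        exact hm.trans (by exact_mod_cast (by omega : m ≤ Y))
    _ = (Y : ℝ) ^ ((2 * D + 1 : ℕ) : ℝ) := by
        rw [Real.rpow_natCast]
        ring

/-- the large primes dividing `H(N)` -/
noncomputable def SR3_T (P G : ℤ[X]) (w N : ℕ) : Finset ℕ :=
  (SR3_H P G N).natAbs.primeFactors.filter (fun p => w ≤ p)

theorem SR3_mem {P G : ℤ[X]} {w N p : ℕ} (h0 : SR3_H P G N ≠ 0) : p ∈ SR3_T P G w N ↔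
    p.Prime ∧ w ≤ p ∧ (p : ℤ) ∣ SR3_H P G N := by
  unfold SR3_T
  rw [mem_filter, Nat.mem_primeFactors, Int.natCast_dvd]
  constructor
  · rintro ⟨⟨h1, h2, _⟩, h3⟩
    exact ⟨h1, h3, h2⟩
  · rintro ⟨h1, h2, h3⟩
    exact ⟨⟨h1, h3, Int.natAbs_ne_zero.2 h0⟩, h2⟩

/-- `∑ 1/p` -/
noncomputable def SR3_S (P G : ℤ[X]) (w N : ℕ) : ℝ := ∑ p ∈ SR3_T P G w N, 1 / (p : ℝ)

open scoped Classical in
theorem SR3_Sle {P G : ℤ[X]} {w N Y : ℕ} (h0 : SR3_H P G N ≠ 0) (hY : 2 ≤ Y) {B : ℝ} (hB : 0 ≤ B)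
    (hsize : |(SR3_H P G N : ℝ)| ≤ (Y : ℝ) ^ B) :
    SR3_S P G w N ≤ ∑ p ∈ (Nat.primesBelow Y).filter (fun p => w ≤ p),
      (if (p : ℤ) ∣ SR3_H P G N then 1 / (p : ℝ) else 0) + B / Y := by
  classical
  unfold SR3_S
  rw [← sum_filter_add_sum_filter_not _ (fun p => p < Y)]
  apply add_le_add
  · rw [← sum_filter]
    apply sum_le_sum_of_subset_of_nonneg
    · intro p hp
      rw [mem_filter, SR3_mem h0] at hp
      obtain ⟨⟨h1, h2, h3⟩, h4⟩ := hp
      rw [mem_filter, mem_filter, Nat.mem_primesBelow]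
      exact ⟨⟨⟨h4, h1⟩, h2⟩, h3⟩
    · intro p _ _
      positivity
  · have hY0 : (0 : ℝ) < Y := by exact_mod_cast (by omega : 0 < Y)
    have h1 : (((SR3_T P G w N).filter (fun p => ¬ p < Y)).card : ℝ) ≤ B := by
      refine card_large_primes_le h0 hY hsize _ fun p hp => ?_
      rw [mem_filter, SR3_mem h0, not_lt] at hp
      exact ⟨hp.1.1, hp.2, hp.1.2.2⟩
    calc ∑ p ∈ (SR3_T P G w N).filter (fun p => ¬ p < Y), 1 / (p : ℝ) ≤
          ∑ p ∈ (SR3_T P G w N).filter (fun p => ¬ p < Y), 1 / (Y : ℝ) := by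
          refine sum_le_sum fun p hp => ?_
          rw [mem_filter, not_lt] at hp
          exact one_div_le_one_div_of_le hY0 (by exact_mod_cast hp.2)
      _ = ((SR3_T P G w N).filter (fun p => ¬ p < Y)).card * (1 / (Y : ℝ)) := by
          rw [sum_const, nsmul_eq_mul]
      _ ≤ B * (1 / Y) := mul_le_mul_of_nonneg_right h1 (by positivity)
      _ = B / Y := by ring

theorem SR3_inv (w Y : ℕ) (hw : 1 ≤ w) :
    (∑ p ∈ (Nat.primesBelow Y).filter (fun p => w ≤ p), 1 / (p : ℝ) ^ 2) ≤ (2 : ℝ) / (w : ℝ) := by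
  have h1 := sum_Ioo_inv_sq_le (α := ℝ) (w - 1) Y
  have h2 : ((w - 1 : ℕ) : ℝ) + 1 = w := by
    rw [Nat.cast_sub hw]
    push_cast
    ring
  rw [h2] at h1
  refine le_trans ?_ h1
  have h3 : ∀ p : ℕ, 1 / (p : ℝ) ^ 2 = ((p : ℝ) ^ 2)⁻¹ := fun p => one_div _
  simp only [h3]
  apply sum_le_sum_of_subset_of_nonneg
  · intro p hp
    rw [mem_filter, Nat.mem_primesBelow] at hp
    rw [mem_Ioo]
    omega
  · intro p _ _
    positivity

/-- Average of `S_N`. -/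
theorem SR3_avg (F : Fin g → ℤ[X]) (hF : Sys F) {G : ℤ[X]} (hG : G.natDegree = 1)
    (hl : 0 < G.leadingCoeff) : ∃ N₁ B Y₀ : ℕ, (∀ N, N₁ ≤ N → SR3_H (∏ i, F i) G N ≠ 0) ∧
    ∀ w Y : ℕ, G.leadingCoeff.natAbs < w → Y₀ ≤ Y →
      ∑ N ∈ Icc N₁ Y, SR3_S (∏ i, F i) G w N ≤ 4 * FS_D F * Y / w + B := by
  classical
  have hP : (∏ i, F i) ≠ 0 := prod_ne_zero_iff.2 fun i _ => (hF.irr i).ne_zero
  obtain ⟨N₁, hN₁⟩ := SR3_nonzero hP G
  obtain ⟨B, Y₀, hB⟩ := SR3_size (∏ i, F i) G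
  refine ⟨N₁ + 1, B, Y₀ + 2, fun N hN => hN₁ N (by omega), fun w Y hw hY => ?_⟩
  have hY2 : 2 ≤ Y := by omega
  have hY0 : (0 : ℝ) < Y := by exact_mod_cast (by omega : 0 < Y)
  have hw0 : (0 : ℝ) < w := by exact_mod_cast (by omega : 0 < w)
  have h1 : ∀ N ∈ Icc (N₁ + 1) Y, SR3_S (∏ i, F i) G w N ≤
      ∑ p ∈ (Nat.primesBelow Y).filter (fun p => w ≤ p),
        (if (p : ℤ) ∣ SR3_H (∏ i, F i) G N then 1 / (p : ℝ) else 0) + (B : ℝ) / Y := by
    intro N hN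
    rw [mem_Icc] at hN
    exact SR3_Sle (hN₁ N (by omega)) hY2 (Nat.cast_nonneg _) (hB Y N (by omega) hN.2)
  refine (sum_le_sum h1).trans ?_
  rw [sum_add_distrib, sum_comm]
  apply add_le_add
  · have h2 : ∀ p ∈ (Nat.primesBelow Y).filter (fun p => w ≤ p),
        ∑ N ∈ Icc (N₁ + 1) Y, (if (p : ℤ) ∣ SR3_H (∏ i, F i) G N then 1 / (p : ℝ) else 0) ≤
          (2 * FS_D F * Y) * (1 / (p : ℝ) ^ 2) := by
      intro p hp
      rw [mem_filter, Nat.mem_primesBelow] at hp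
      obtain ⟨⟨hpY, hpp⟩, hwp⟩ := hp
      have hp0 : (0 : ℝ) < p := by exact_mod_cast hpp.pos
      have ha : ¬ (p : ℤ) ∣ G.leadingCoeff := by
        intro h
        have := Nat.le_of_dvd (Int.natAbs_pos.2 hl.ne') (Int.natCast_dvd.1 h)
        omega
      have h3 := SR3_count F hF hG hpp ha Y
      rw [← sum_filter, sum_const, nsmul_eq_mul]
      have h4 : (((Icc (N₁ + 1) Y).filter fun N : ℕ => (p : ℤ) ∣ SR3_H (∏ i, F i) G N).card : ℝ) ≤
          (((Icc 1 Y).filter fun N : ℕ => (p : ℤ) ∣ SR3_H (∏ i, F i) G N).card : ℝ) := by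
        have := card_le_card (filter_subset_filter
          (fun N : ℕ => (p : ℤ) ∣ SR3_H (∏ i, F i) G N) (Icc_subset_Icc_left (by omega : 1 ≤ N₁ + 1)
            (b := Y)))
        exact_mod_cast this
      have h5 : (1 : ℝ) ≤ Y / p := by
        rw [one_le_div hp0]
        exact_mod_cast hpY.le
      have hD : (0 : ℝ) ≤ FS_D F := Nat.cast_nonneg _
      have h6 : ((Y : ℝ) / p + 1) * FS_D F ≤ (2 * (Y / p)) * FS_D F :=
        mul_le_mul_of_nonneg_right (by linarith) hD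
      calc (((Icc (N₁ + 1) Y).filter fun N : ℕ => (p : ℤ) ∣ SR3_H (∏ i, F i) G N).card : ℝ) *
            (1 / (p : ℝ)) ≤ ((2 * (Y / p)) * FS_D F) * (1 / p) :=
            mul_le_mul_of_nonneg_right (h4.trans (h3.trans h6)) (by positivity)
        _ = _ := by
            field_simp
    refine (sum_le_sum h2).trans ?_
    rw [← mul_sum]
    calc (2 * (FS_D F : ℝ) * Y) * ∑ p ∈ (Nat.primesBelow Y).filter (fun p => w ≤ p),
          1 / (p : ℝ) ^ 2 ≤ (2 * FS_D F * Y) * (2 / w) :=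
          mul_le_mul_of_nonneg_left (SR3_inv w Y (by omega)) (by positivity)
      _ = _ := by ring
  · rw [sum_const, nsmul_eq_mul]
    have h3 : ((Icc (N₁ + 1) Y).card : ℝ) ≤ Y := by
      have : (Icc (N₁ + 1) Y).card ≤ Y := by
        rw [Nat.card_Icc]
        omega
      exact_mod_cast this
    calc ((Icc (N₁ + 1) Y).card : ℝ) * ((B : ℝ) / Y) ≤ Y * (B / Y) :=
          mul_le_mul_of_nonneg_right h3 (by positivity)
      _ = B := by field_simp

/-- The main factor. -/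
noncomputable def SR3_A (F : Fin g → ℤ[X]) (p : ℕ) : ℝ :=
  (1 - ((wF F p : ℝ) + 1) / p) * ((1 - 1 / (p : ℝ)) ^ (g + 1))⁻¹

theorem SR3_Apos (F : Fin g → ℤ[X]) (hF : Sys F) {p : ℕ} (hp : p.Prime)
    (h : 2 * (FS_D F + 1) ≤ p) : 0 < SR3_A F p ∧ ((wF F p : ℝ) + 1) / p ≤ 1 / 2 ∧
      (p : ℝ) / 2 ≤ p - wF F p - 1 := by
  have hp0 : (0 : ℝ) < p := by exact_mod_cast hp.pos
  have hp2 : (2 : ℝ) ≤ p := by exact_mod_cast hp.two_le
  have h1 : (wF F p : ℝ) ≤ FS_D F := by exact_mod_cast FS_wle F hF p hp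
  have h2 : 2 * ((FS_D F : ℝ) + 1) ≤ p := by exact_mod_cast h
  have h3 : ((wF F p : ℝ) + 1) / p ≤ 1 / 2 := by
    rw [div_le_div_iff₀ hp0 (by norm_num)]
    linarith
  have h4 : 1 / (p : ℝ) ≤ 1 / 2 := one_div_le_one_div_of_le (by norm_num) hp2
  refine ⟨?_, h3, by linarith⟩
  unfold SR3_A
  apply mul_pos (by linarith)
  exact inv_pos.2 (pow_pos (by linarith) _)

/-- the logarithm of the main product -/
noncomputable def SR3_L (F : Fin g → ℤ[X]) (z : ℕ) : ℝ :=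
  ∑ p ∈ Nat.primesBelow z, Real.log (SR3_A F p)

theorem SR3_conv (F : Fin g → ℤ[X]) (hF : Sys F) : ∃ ℓ : ℝ, Tendsto (SR3_L F) atTop (𝓝 ℓ) := by
  obtain ⟨ℓ₁, hℓ₁⟩ := sum_conv F hF
  set D : ℝ := (FS_D F : ℝ) + 1 with hD
  have hD0 : 0 ≤ D := by positivity
  obtain ⟨ℓ₂, hℓ₂⟩ := CV4_summ (fun p => Real.log (SR3_A F p) + ((wF F p : ℝ) - g) / p)
    (2 * D ^ 2 + (g + 1) * 2) (2 * (FS_D F + 1)) (by
      intro p hp hBp
      have hp2 : (2 : ℝ) ≤ p := by exact_mod_cast hp.two_le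
      have hp0 : (0 : ℝ) < p := by linarith
      obtain ⟨-, h2, -⟩ := SR3_Apos F hF hp hBp
      have h1 : 0 < 1 - ((wF F p : ℝ) + 1) / p := by linarith
      have h0 : 1 / (p : ℝ) ≤ 1 / 2 := one_div_le_one_div_of_le (by norm_num) hp2
      have h0' : 0 < 1 - 1 / (p : ℝ) := by linarith
      have hw : (wF F p : ℝ) + 1 ≤ D := by
        have h1 : (wF F p : ℝ) ≤ FS_D F := by exact_mod_cast FS_wle F hF p hp
        linarith
      have hx1 : ((wF F p : ℝ) + 1) / p ≤ D / p := div_le_div_of_nonneg_right hw hp0.le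
      have h3 := CV4_log (x := ((wF F p : ℝ) + 1) / p) (by positivity) h2
      have h4 := CV4_log (x := 1 / (p : ℝ)) (by positivity) h0
      have h5 : Real.log (SR3_A F p) + ((wF F p : ℝ) - g) / p =
          (((wF F p : ℝ) + 1) / p + Real.log (1 - ((wF F p : ℝ) + 1) / p)) -
            (g + 1) * (1 / (p : ℝ) + Real.log (1 - 1 / (p : ℝ))) := by
        unfold SR3_A
        rw [Real.log_mul h1.ne' (by positivity), Real.log_inv, Real.log_pow]
        push_cast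
        ring
      simp only [h5]
      have h6 : (((wF F p : ℝ) + 1) / p) ^ 2 ≤ D ^ 2 / (p : ℝ) ^ 2 := by
        rw [← div_pow]
        exact pow_le_pow_left₀ (by positivity) hx1 2
      have h7 : (1 / (p : ℝ)) ^ 2 = 1 / (p : ℝ) ^ 2 := by rw [div_pow, one_pow]
      calc |(((wF F p : ℝ) + 1) / p + Real.log (1 - ((wF F p : ℝ) + 1) / p)) -
            (g + 1) * (1 / (p : ℝ) + Real.log (1 - 1 / (p : ℝ)))| ≤
          |((wF F p : ℝ) + 1) / p + Real.log (1 - ((wF F p : ℝ) + 1) / p)| +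
            |(g + 1) * (1 / (p : ℝ) + Real.log (1 - 1 / (p : ℝ)))| := abs_sub _ _
        _ ≤ 2 * (D ^ 2 / (p : ℝ) ^ 2) + (g + 1) * (2 * (1 / (p : ℝ) ^ 2)) := by
            rw [abs_mul, abs_of_nonneg (by positivity : (0 : ℝ) ≤ (g : ℝ) + 1), ← h7]
            refine add_le_add (h3.trans (by linarith)) ?_
            exact mul_le_mul_of_nonneg_left h4 (by positivity)
        _ = (2 * D ^ 2 + (g + 1) * 2) / (p : ℝ) ^ 2 := by ring)
  refine ⟨ℓ₂ - ℓ₁, (hℓ₂.sub hℓ₁).congr fun z => ?_⟩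
  unfold SR3_L
  rw [sum_add_distrib]
  ring

/-- the finite product over the primes dividing `H(N)` -/
noncomputable def SR3_B (F : Fin g → ℤ[X]) (G : ℤ[X]) (w N : ℕ) : ℝ :=
  ∏ p ∈ SR3_T (∏ i, F i) G w N, (1 + 1 / ((p : ℝ) - wF F p - 1))

open scoped Classical in
theorem SR3_factor (F : Fin g → ℤ[X]) (hF : Sys F) {G : ℤ[X]} (hG : G.natDegree = 1) {p : ℕ}
    (hp : p.Prime) (ha : ¬ (p : ℤ) ∣ G.leadingCoeff) (h : 2 * (FS_D F + 1) ≤ p) (N : ℕ) :
    (1 - (omegaN F G N p : ℝ) / p) * ((1 - 1 / (p : ℝ)) ^ (g + 1))⁻¹ =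
      SR3_A F p * (if (p : ℤ) ∣ SR3_H (∏ i, F i) G N then
        1 + 1 / ((p : ℝ) - wF F p - 1) else 1) := by
  have hp0 : (0 : ℝ) < p := by exact_mod_cast hp.pos
  obtain ⟨-, -, h3⟩ := SR3_Apos F hF hp h
  rw [SR3_omega F hG hp ha N]
  unfold SR3_A
  split_ifs with h1
  · have h4 : (p : ℝ) - wF F p - 1 ≠ 0 := by
      have : 0 < (p : ℝ) / 2 := by positivity
      linarith
    have h5 : (1 - ((wF F p : ℝ) + 1) / p) * (1 + 1 / ((p : ℝ) - wF F p - 1)) =
        1 - ((wF F p : ℝ) + 1 - 1) / p := by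
      field_simp
      ring
    rw [← h5]
    ring
  · rw [sub_zero, mul_one]

theorem SR3_trunc (F : Fin g → ℤ[X]) (hF : Sys F) {G : ℤ[X]} (hG : G.natDegree = 1)
    (hl : 0 < G.leadingCoeff) {w N : ℕ} (hw : G.leadingCoeff.natAbs < w)
    (hw2 : 2 * (FS_D F + 1) ≤ w) (hH : SR3_H (∏ i, F i) G N ≠ 0) {z : ℕ} (hz : w ≤ z)
    (hz2 : (SR3_H (∏ i, F i) G N).natAbs < z) :
    seriesTrunc F G N z = seriesTrunc F G N w * Real.exp (SR3_L F z - SR3_L F w) *
      SR3_B F G w N := by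
  classical
  have hsub : Nat.primesBelow w ⊆ Nat.primesBelow z := by
    intro p hp
    rw [Nat.mem_primesBelow] at hp ⊢
    exact ⟨by omega, hp.2⟩
  have hmem : ∀ p ∈ Nat.primesBelow z \ Nat.primesBelow w, p.Prime ∧ w ≤ p ∧ p < z := by
    intro p hp
    rw [Finset.mem_sdiff, Nat.mem_primesBelow, Nat.mem_primesBelow] at hp
    obtain ⟨⟨h1, h2⟩, h3⟩ := hp
    refine ⟨h2, ?_, h1⟩
    by_contra h
    exact h3 ⟨by omega, h2⟩
  have h1 : seriesTrunc F G N z = (∏ p ∈ Nat.primesBelow z \ Nat.primesBelow w,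
      ((1 - (omegaN F G N p : ℝ) / p) * ((1 - 1 / (p : ℝ)) ^ (g + 1))⁻¹)) *
        seriesTrunc F G N w := by
    unfold Pool.Agent.Lib.H59.seriesTrunc
    rw [prod_sdiff hsub]
  have h2 : ∀ p ∈ Nat.primesBelow z \ Nat.primesBelow w,
      ((1 - (omegaN F G N p : ℝ) / p) * ((1 - 1 / (p : ℝ)) ^ (g + 1))⁻¹) =
      SR3_A F p * (if (p : ℤ) ∣ SR3_H (∏ i, F i) G N then
        1 + 1 / ((p : ℝ) - wF F p - 1) else 1) := by
    intro p hp
    obtain ⟨h3, h4, -⟩ := hmem p hp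
    have ha : ¬ (p : ℤ) ∣ G.leadingCoeff := by
      intro h
      have := Nat.le_of_dvd (Int.natAbs_pos.2 hl.ne') (Int.natCast_dvd.1 h)
      omega
    exact SR3_factor F hF hG h3 ha (by omega) N
  have h3 : ∏ p ∈ Nat.primesBelow z \ Nat.primesBelow w, SR3_A F p =
      Real.exp (SR3_L F z - SR3_L F w) := by
    have h4 : SR3_L F z - SR3_L F w =
        ∑ p ∈ Nat.primesBelow z \ Nat.primesBelow w, Real.log (SR3_A F p) := by
      unfold SR3_L
      rw [← sum_sdiff hsub]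
      ring
    rw [h4, Real.exp_sum]
    refine prod_congr rfl fun p hp => ?_
    obtain ⟨h3, h4, -⟩ := hmem p hp
    exact (Real.exp_log (SR3_Apos F hF h3 (by omega)).1).symm
  have h4 : ∏ p ∈ Nat.primesBelow z \ Nat.primesBelow w,
      (if (p : ℤ) ∣ SR3_H (∏ i, F i) G N then 1 + 1 / ((p : ℝ) - wF F p - 1) else 1) =
      SR3_B F G w N := by
    rw [← prod_filter]
    unfold SR3_B
    congr 1
    ext p
    rw [mem_filter, SR3_mem hH]
    constructor
    · rintro ⟨h5, h6⟩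
      obtain ⟨h7, h8, -⟩ := hmem p h5
      exact ⟨h7, h8, h6⟩
    · rintro ⟨h5, h6, h7⟩
      refine ⟨?_, h7⟩
      rw [Finset.mem_sdiff, Nat.mem_primesBelow, Nat.mem_primesBelow]
      have h8 := Nat.le_of_dvd (Int.natAbs_pos.2 hH) (Int.natCast_dvd.1 h7)
      exact ⟨⟨by omega, h5⟩, fun h => by omega⟩
  rw [h1, prod_congr rfl h2, prod_mul_distrib, h3, h4]
  ring

theorem SR3_SS (F : Fin g → ℤ[X]) (hF : Sys F) {G : ℤ[X]} (hG : G.natDegree = 1)
    (hl : 0 < G.leadingCoeff) {w N : ℕ} (hw : G.leadingCoeff.natAbs < w)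
    (hw2 : 2 * (FS_D F + 1) ≤ w) (hH : SR3_H (∏ i, F i) G N ≠ 0) {ℓ : ℝ}
    (hℓ : Tendsto (SR3_L F) atTop (𝓝 ℓ)) :
    SS F G N = seriesTrunc F G N w * Real.exp (ℓ - SR3_L F w) * SR3_B F G w N := by
  have h1 : Tendsto (fun z => seriesTrunc F G N w * Real.exp (SR3_L F z - SR3_L F w) *
      SR3_B F G w N) atTop (𝓝 (seriesTrunc F G N w * Real.exp (ℓ - SR3_L F w) *
        SR3_B F G w N)) := by
    apply Tendsto.mul_const
    apply Tendsto.const_mul
    exact (Real.continuous_exp.tendsto _).comp (hℓ.sub_const _)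
  have h2 : Tendsto (seriesTrunc F G N) atTop (𝓝 (seriesTrunc F G N w *
      Real.exp (ℓ - SR3_L F w) * SR3_B F G w N)) := by
    refine h1.congr' ?_
    filter_upwards [eventually_ge_atTop w,
      eventually_gt_atTop (SR3_H (∏ i, F i) G N).natAbs] with z hz hz2
    exact (SR3_trunc F hF hG hl hw hw2 hH hz hz2).symm
  exact h2.limUnder_eq

theorem SR3_Bbd (F : Fin g → ℤ[X]) (hF : Sys F) (G : ℤ[X]) {w N : ℕ}
    (hw2 : 2 * (FS_D F + 1) ≤ w) (hH : SR3_H (∏ i, F i) G N ≠ 0) :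
    1 ≤ SR3_B F G w N ∧ SR3_B F G w N ≤ Real.exp (2 * SR3_S (∏ i, F i) G w N) := by
  have hb : ∀ p ∈ SR3_T (∏ i, F i) G w N, 0 ≤ 1 / ((p : ℝ) - wF F p - 1) ∧
      1 / ((p : ℝ) - wF F p - 1) ≤ 2 * (1 / (p : ℝ)) := by
    intro p hp
    rw [SR3_mem hH] at hp
    obtain ⟨h1, h2, -⟩ := hp
    have hp0 : (0 : ℝ) < p := by exact_mod_cast h1.pos
    obtain ⟨-, -, h3⟩ := SR3_Apos F hF h1 (by omega)
    have h4 : 0 < (p : ℝ) / 2 := by positivity
    constructor
    · exact one_div_nonneg.2 (by linarith)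
    · refine (one_div_le_one_div_of_le h4 h3).trans (le_of_eq ?_)
      field_simp
  unfold SR3_B SR3_S
  constructor
  · have h1 : ∏ p ∈ SR3_T (∏ i, F i) G w N, (1 : ℝ) ≤
        ∏ p ∈ SR3_T (∏ i, F i) G w N, (1 + 1 / ((p : ℝ) - wF F p - 1)) := by
      refine prod_le_prod (fun _ _ => zero_le_one) fun p hp => ?_
      have := (hb p hp).1
      linarith
    rwa [prod_const_one] at h1
  · rw [mul_sum, Real.exp_sum]
    refine prod_le_prod (fun p hp => ?_) fun p hp => ?_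
    · have := (hb p hp).1
      linarith
    · have h1 := Real.add_one_le_exp (2 * (1 / (p : ℝ)))
      have h2 := (hb p hp).2
      linarith

/-- Let `G = a x + c`, `m = ∑ deg F_i`. For a prime `p ∤ a` the polynomial `N - G` has the single root
`r = (N - c)/a` modulo `p`, so `ω_N(p) = ω_F(p) + 1 - 1[p ∣ H(N)]`, `H(N) = a^m ∏ F_i((N-c)/a)`, an integer
polynomial in `N` of degree `m`, positive for `N ≥ N₁`. For `w` larger than the primes dividing `a` and
`w > 2(m+1)`: for `z ≥ w`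
`seriesTrunc(z)/seriesTrunc(w) = ∏_{w ≤ p < z} (1 - (ω_F(p)+1)/p) (1-1/p)^(-g-1) ·
∏_{w ≤ p < z, p ∣ H(N)} (1 + 1/(p - ω_F(p) - 1))`. The first product converges as `z → ∞` and its limit
tends to `1` as `w → ∞` (`sum_conv`), the second is a finite product, between `1` and
`exp(2 ∑_{p ≥ w, p ∣ H(N)} 1/p)`. So `SS F G N` is the limit and it is enough that
`∑_{N ≤ Y} ∑_{p ≥ w, p ∣ H(N)} 1/p ≤ C Y/w^(1/2)` (sum over `N ≥ N₁`): the primes `p ≤ Y` contribute
`∑_{w ≤ p ≤ Y} (m (Y/p + 1))/p ≤ 2 m Y ∑_{p ≥ w} 1/p²` (for `p ∤ lc(H)` there are at most `m` roots modulo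
`p`; choose `w` larger than the others), the primes `p > Y` at most `(1/Y) log H(N)/log Y ≤ C/Y` for
each `N`. Markov's inequality. -/
theorem tail_linear (F : Fin g → ℤ[X]) (hF : Sys F) (hN : NoFix F) (G : ℤ[X])
    (hG : G.natDegree = 1) (hl : 0 < G.leadingCoeff) (ε : ℝ) (hε : 0 < ε) : ∃ w₀ : ℕ, ∀ w : ℕ,
    w₀ ≤ w → ∃ Y₀ : ℕ, ∀ Y : ℕ, Y₀ ≤ Y →
    (((Icc 1 Y).filter (fun N => ε * seriesTrunc F G N w <
      |SS F G N - seriesTrunc F G N w|)).card : ℝ) ≤ ε * Y := by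
  classical
  obtain ⟨ℓ, hℓ⟩ := SR3_conv F hF
  obtain ⟨N₁, B, Y₀, hN₁, havg⟩ := SR3_avg F hF hG hl
  set δ : ℝ := min (1 / 4) (ε / 8) with hδ
  have hδ0 : 0 < δ := by positivity
  have hδ1 : δ ≤ 1 / 4 := min_le_left _ _
  have hδ2 : δ ≤ ε / 8 := min_le_right _ _
  -- the limit of the main factor
  have hA : Tendsto (fun w => Real.exp (ℓ - SR3_L F w)) atTop (𝓝 1) := by
    have h1 : Tendsto (fun w => ℓ - SR3_L F w) atTop (𝓝 0) := by
      have := hℓ.const_sub ℓ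
      rwa [sub_self] at this
    have h2 := (Real.continuous_exp.tendsto 0).comp h1
    rwa [Real.exp_zero] at h2
  obtain ⟨w₁, hw₁⟩ := eventually_atTop.1 (hA.eventually (Metric.closedBall_mem_nhds 1
    (by positivity : 0 < ε / 4)))
  obtain ⟨w₂, hw₂⟩ := exists_nat_ge (8 * FS_D F / (δ * ε) + 1)
  refine ⟨max (max w₁ w₂) (max (G.leadingCoeff.natAbs + 1) (2 * (FS_D F + 1))), fun w hw => ?_⟩
  have g1 : w₁ ≤ w := (le_max_left _ _).trans ((le_max_left _ _).trans hw)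
  have g2 : w₂ ≤ w := (le_max_right _ _).trans ((le_max_left _ _).trans hw)
  have g3 : G.leadingCoeff.natAbs + 1 ≤ w := (le_max_left _ _).trans ((le_max_right _ _).trans hw)
  have g4 : 2 * (FS_D F + 1) ≤ w := (le_max_right _ _).trans ((le_max_right _ _).trans hw)
  have hAw : |Real.exp (ℓ - SR3_L F w) - 1| ≤ ε / 4 := by
    have := hw₁ w g1
    rwa [Real.dist_eq] at this
  have hw0 : (0 : ℝ) < w := by exact_mod_cast (by omega : 0 < w)
  have hwb : 8 * FS_D F / (δ * ε) ≤ (w : ℝ) := by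
    have : (w₂ : ℝ) ≤ w := by exact_mod_cast g2
    linarith
  obtain ⟨Y₁, hY₁⟩ := exists_nat_ge ((N₁ + B / δ) * (2 / ε))
  refine ⟨max Y₀ Y₁, fun Y hY => ?_⟩
  have k1 : Y₀ ≤ Y := (le_max_left _ _).trans hY
  have k2 : (Y₁ : ℝ) ≤ Y := by exact_mod_cast (le_max_right _ _).trans hY
  have hav := havg w Y (by omega) k1
  -- good `N`
  have hgood : ∀ N, N₁ ≤ N → SR3_S (∏ i, F i) G w N ≤ δ →
      |SS F G N - seriesTrunc F G N w| ≤ ε * seriesTrunc F G N w := by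
    intro N hN hS
    have hH := hN₁ N hN
    rw [SR3_SS F hF hG hl (by omega) g4 hH hℓ]
    obtain ⟨hB1, hB2⟩ := SR3_Bbd F hF G g4 hH
    set A : ℝ := Real.exp (ℓ - SR3_L F w) with hAdef
    set b : ℝ := SR3_B F G w N with hb
    have hexp : Real.exp (2 * SR3_S (∏ i, F i) G w N) ≤ 1 + 4 * δ := by
      have h1 : Real.exp (2 * SR3_S (∏ i, F i) G w N) ≤ Real.exp (2 * δ) :=
        Real.exp_le_exp.2 (by linarith)
      have h2 : Real.exp (2 * δ) ≤ 1 + 4 * δ := by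
        have h3 := Real.exp_bound_div_one_sub_of_interval (x := 2 * δ) (by positivity)
          (by linarith)
        refine h3.trans ?_
        rw [div_le_iff₀ (by linarith)]
        nlinarith
      linarith
    have hb2 : b ≤ 1 + 4 * δ := hB2.trans hexp
    have hkey : |A * b - 1| ≤ ε := by
      have h1 : A * b - 1 = (A - 1) * b + (b - 1) := by ring
      rw [h1]
      refine (abs_add_le _ _).trans ?_
      rw [abs_mul, abs_of_nonneg (by linarith : 0 ≤ b), abs_of_nonneg (by linarith : 0 ≤ b - 1)]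
      have h2 : |A - 1| * b ≤ ε / 4 * 2 :=
        mul_le_mul hAw (by linarith) (by linarith) (by positivity)
      linarith
    have hT := series_nonneg F G N w
    have h1 : seriesTrunc F G N w * A * b - seriesTrunc F G N w =
        seriesTrunc F G N w * (A * b - 1) := by ring
    rw [h1, abs_mul, abs_of_nonneg hT, mul_comm]
    exact mul_le_mul_of_nonneg_right hkey hT
  -- bad `N`
  have hsub : (Icc 1 Y).filter (fun N => ε * seriesTrunc F G N w <
      |SS F G N - seriesTrunc F G N w|) ⊆ Finset.range N₁ ∪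
      (Icc N₁ Y).filter (fun N => δ < SR3_S (∏ i, F i) G w N) := by
    intro N hN
    rw [mem_filter, mem_Icc] at hN
    rw [mem_union, Finset.mem_range, mem_filter, mem_Icc]
    by_cases h : N < N₁
    · exact Or.inl h
    · right
      refine ⟨⟨by omega, hN.1.2⟩, ?_⟩
      by_contra hcon
      have := hgood N (by omega) (not_lt.1 hcon)
      linarith [hN.2]
  have hcard : (((Icc N₁ Y).filter (fun N => δ < SR3_S (∏ i, F i) G w N)).card : ℝ) * δ ≤
      4 * FS_D F * Y / w + B := by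
    refine le_trans ?_ hav
    rw [← nsmul_eq_mul, ← sum_const]
    refine le_trans (sum_le_sum fun N hN => (mem_filter.1 hN).2.le) ?_
    apply sum_le_sum_of_subset_of_nonneg (filter_subset _ _)
    intro N _ _
    unfold SR3_S
    positivity
  have h1 : (((Icc 1 Y).filter (fun N => ε * seriesTrunc F G N w <
      |SS F G N - seriesTrunc F G N w|)).card : ℝ) ≤ N₁ +
      ((Icc N₁ Y).filter (fun N => δ < SR3_S (∏ i, F i) G w N)).card := by
    have h2 := (card_le_card hsub).trans (card_union_le _ _)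
    rw [card_range] at h2
    exact_mod_cast h2
  have hY0 : (0 : ℝ) ≤ Y := Nat.cast_nonneg _
  have h2 : 4 * FS_D F * Y / w ≤ δ * (ε / 2 * Y) := by
    rw [div_le_iff₀ hw0]
    rw [div_le_iff₀ (by positivity)] at hwb
    nlinarith
  have h3 : (((Icc N₁ Y).filter (fun N => δ < SR3_S (∏ i, F i) G w N)).card : ℝ) ≤
      ε / 2 * Y + B / δ := by
    have h4 : (((Icc N₁ Y).filter (fun N => δ < SR3_S (∏ i, F i) G w N)).card : ℝ) * δ ≤
        (ε / 2 * Y + B / δ) * δ := by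
      rw [add_mul, div_mul_cancel₀ _ hδ0.ne']
      linarith
    exact le_of_mul_le_mul_right h4 hδ0
  have h5 : (N₁ : ℝ) + B / δ ≤ ε / 2 * Y := by
    have h6 : ((N₁ : ℝ) + B / δ) * (2 / ε) ≤ Y := hY₁.trans k2
    have h7 : ((N₁ : ℝ) + B / δ) = ε / 2 * (((N₁ : ℝ) + B / δ) * (2 / ε)) := by
      field_simp
    rw [h7]
    exact mul_le_mul_of_nonneg_left h6 (by positivity)
  linarith

end Pool.Agent.Lib.H33B
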