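import Pool.Agent.Lib.H33B.PP
import Pool.Agent.Lib.H33B.SR2
import Pool.Agent.Lib.H33B.SR3

/-!
# Chunk FC1: Schinzel's formula for almost all `N` and the model
-/

open Finset Polynomial Filter Topology

namespace Pool.Agent.Lib.H33B

open Pool.Agent.Lib.H59 (argSet argCount Admissible primeCount omegaN seriesTrunc)

variable {g : ℕ}

theorem FC1_Lq_nonneg (q : ℕ) (m : ℤ) : 0 ≤ Lq q m := by
  unfold Lq
  split_ifs <;> positivity

theorem FC1_Lq_le (q : ℕ) (hq : 0 < q) (m : ℤ) : Lq q m ≤ q := by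
  unfold Lq
  split_ifs
  · have h1 : (1 : ℝ) ≤ Nat.totient q := by
      exact_mod_cast Nat.totient_pos.mpr hq
    rw [div_le_iff₀ (by linarith)]
    have : (0 : ℝ) ≤ q := by positivity
    nlinarith
  · positivity

theorem FC1_Lq_congr (q : ℕ) (m m' : ℤ) (h : (q : ℤ) ∣ m - m') : Lq q m = Lq q m' := by
  obtain ⟨k, hk⟩ := h
  have hm : m = m' + k * q := by linarith
  unfold Lq
  have : IsCoprime m (q : ℤ) ↔ IsCoprime m' (q : ℤ) := by
    rw [hm]
    constructor
    · intro h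
      exact IsCoprime.of_add_mul_right_left h
    · intro h
      exact h.add_mul_right_left k
  simp only [this]

theorem FC1_mem_AF (F : Fin g → ℤ[X]) (x n : ℕ) :
    n ∈ AF F x ↔ (1 ≤ n ∧ n ≤ x) ∧ AllPrime F n := by
  classical
  rw [AF, mem_filter, mem_Icc]

theorem FC1_card_AF (F : Fin g → ℤ[X]) (Y : ℕ) : (AF F Y).card ≤ Y := by
  classical
  have := card_filter_le (Icc 1 Y) (AllPrime F)
  rw [Nat.card_Icc, Nat.add_sub_cancel] at this
  unfold AF
  exact this

/-- a class in which some `F_i(n)` is divisible by a prime dividing `q` contains few `n` -/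
theorem FC1_bad (F : Fin g → ℤ[X]) (hF : Sys F) (q b x : ℕ)
    (h : ¬ IsCoprime ((∏ i, F i).eval (b : ℤ)) (q : ℤ)) :
    cntF F q b x ≤ ∑ i, (F i).natDegree := by
  classical
  rw [Int.isCoprime_iff_gcd_eq_one, Int.gcd_eq_natAbs, ← Nat.coprime_iff_gcd_eq_one,
    Nat.Prime.not_coprime_iff_dvd] at h
  obtain ⟨p, hp, hp1, hp2⟩ := h
  have hp1' : (p : ℤ) ∣ (∏ i, F i).eval (b : ℤ) := Int.natCast_dvd.mpr hp1
  have hp2' : p ∣ q := by simpa using hp2
  have hpZ := Nat.prime_iff_prime_int.mp hp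
  rw [eval_prod] at hp1'
  obtain ⟨i, _, hi⟩ := (hpZ.dvd_finsetProd_iff _).mp hp1'
  unfold cntF
  have hsub : (AF F x).filter (fun n => n ≡ b [MOD q]) ⊆
      (Icc 1 x).filter (fun n : ℕ => (F i).eval (n : ℤ) = (p : ℤ)) := by
    intro n hn
    rw [mem_filter, FC1_mem_AF] at hn
    rw [mem_filter, mem_Icc]
    refine ⟨hn.1.1, ?_⟩
    obtain ⟨r, hr, hr'⟩ := hn.1.2 i
    have h1 : (n : ℤ) - (b : ℤ) ∣ (F i).eval (n : ℤ) - (F i).eval (b : ℤ) := sub_dvd_eval_sub _ _ _
    have h2 : (p : ℤ) ∣ (n : ℤ) - (b : ℤ) :=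
      (Int.natCast_dvd_natCast.mpr hp2').trans (Nat.modEq_iff_dvd.mp hn.2.symm)
    have h3 : (p : ℤ) ∣ (F i).eval (n : ℤ) := by
      have := dvd_add (h2.trans h1) hi
      simpa using this
    rw [hr'] at h3 ⊢
    have h4 : p ∣ r := Int.natCast_dvd_natCast.mp h3
    rw [(Nat.prime_dvd_prime_iff_eq hp hr).mp h4]
  refine (card_le_card hsub).trans ((Pool.Agent.Lib.H59.card_value_le (hF.deg i) _ _).trans ?_)
  exact single_le_sum (f := fun i => (F i).natDegree) (fun _ _ => Nat.zero_le _) (mem_univ i)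

theorem FC1_Mw_sum (F : Fin g → ℤ[X]) (G : ℤ[X]) (w N : ℕ) :
    Mw F G w N ≤ ∑ b ∈ range (PW w), Lw w ((N : ℤ) - G.eval (b : ℤ)) *
      (cntF F (PW w) b (argCount G N) : ℝ) := by
  have hP := PW_pos w
  have h1 : Mw F G w N ≤ ∑ n ∈ AF F (argCount G N), Lw w ((N : ℤ) - G.eval (n : ℤ)) := by
    unfold Mw
    exact sum_le_sum_of_subset_of_nonneg (filter_subset _ _) fun _ _ _ => FC1_Lq_nonneg _ _
  refine h1.trans (le_of_eq ?_)
  rw [← sum_fiberwise_of_maps_to (s := AF F (argCount G N)) (t := range (PW w))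
    (g := fun n => n % PW w) (fun n _ => mem_range.mpr (Nat.mod_lt _ hP))]
  refine sum_congr rfl fun b hb => ?_
  rw [mem_range] at hb
  have h1 : ∀ n ∈ (AF F (argCount G N)).filter (fun n => n % PW w = b),
      Lw w ((N : ℤ) - G.eval (n : ℤ)) = Lw w ((N : ℤ) - G.eval (b : ℤ)) := by
    intro n hn
    rw [mem_filter] at hn
    apply FC1_Lq_congr
    have h2 : ((N : ℤ) - G.eval (n : ℤ)) - ((N : ℤ) - G.eval (b : ℤ)) =
        -(G.eval (n : ℤ) - G.eval (b : ℤ)) := by ring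
    rw [h2, dvd_neg]
    have h3 : n ≡ b [MOD PW w] := by
      rw [Nat.ModEq, hn.2, Nat.mod_eq_of_lt hb]
    exact (Nat.modEq_iff_dvd.mp h3.symm).trans (sub_dvd_eval_sub _ _ _)
  rw [sum_congr rfl h1, sum_const, nsmul_eq_mul, mul_comm]
  congr 3
  ext n
  rw [mem_filter, mem_filter]
  simp only [Nat.ModEq, Nat.mod_eq_of_lt hb]

open scoped Classical in
/-- the local sum is the truncated singular series -/
theorem FC1_series (F : Fin g → ℤ[X]) (G : ℤ[X]) (w N : ℕ) :
    ∑ b ∈ range (PW w), (if IsCoprime ((∏ i, F i).eval (b : ℤ)) (PW w : ℤ) then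
      Lw w ((N : ℤ) - G.eval (b : ℤ)) * (((PW w : ℝ) / Nat.totient (PW w)) ^ g / PW w) else 0) =
      seriesTrunc F G N w := by
  rw [series_count]
  have h1 : ∀ b ∈ range (PW w), (if IsCoprime ((∏ i, F i).eval (b : ℤ)) (PW w : ℤ) then
      Lw w ((N : ℤ) - G.eval (b : ℤ)) * (((PW w : ℝ) / Nat.totient (PW w)) ^ g / PW w) else 0) =
      (if IsCoprime (((∏ i, F i) * (C (N : ℤ) - G)).eval (b : ℤ)) (PW w : ℤ) then
        ((PW w : ℝ) / Nat.totient (PW w)) ^ (g + 1) / PW w else 0) := by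
    intro b _
    have h2 : IsCoprime (((∏ i, F i) * (C (N : ℤ) - G)).eval (b : ℤ)) (PW w : ℤ) ↔
        IsCoprime ((∏ i, F i).eval (b : ℤ)) (PW w : ℤ) ∧
        IsCoprime ((N : ℤ) - G.eval (b : ℤ)) (PW w : ℤ) := by
      rw [eval_mul, IsCoprime.mul_left_iff, eval_sub, eval_C]
    by_cases ha : IsCoprime ((∏ i, F i).eval (b : ℤ)) (PW w : ℤ)
    · rw [if_pos ha]
      unfold Lw Lq
      by_cases hb : IsCoprime ((N : ℤ) - G.eval (b : ℤ)) (PW w : ℤ)
      · rw [if_pos hb, if_pos (h2.mpr ⟨ha, hb⟩)]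
        ring
      · rw [if_neg hb, if_neg (fun h => hb (h2.mp h).2)]
        ring
    · rw [if_neg ha, if_neg (fun h => ha (h2.mp h).1)]
  rw [sum_congr rfl h1, ← sum_filter, sum_const, nsmul_eq_mul]
  ring_nf

/-- Sorting the `n` by their class modulo `P = PW w`: classes with `(F(b),P) > 1` contribute `O_w(1)`, the
others at most `C dens (P/φ(P))^g/P` each (`class_PW`), and
`∑_{b : (F(b),P) = 1} Lw(N - G(b)) (P/φ(P))^g/P = seriesTrunc F G N w` (`series_count`). `C` is independent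
of `w`. -/
theorem Mw_le (F : Fin g → ℤ[X]) (hF : Sys F) (hN : NoFix F) (G : ℤ[X]) (hk : 1 ≤ G.natDegree)
    (hl : 0 < G.leadingCoeff) : ∃ C : ℝ, 0 < C ∧ ∀ w : ℕ, ∃ B : ℝ, 0 < B ∧ ∀ N : ℕ,
    Mw F G w N ≤ C * dens G g N * seriesTrunc F G N w + B := by
  classical
  obtain ⟨C, hC, hcl⟩ := class_PW F hF hN
  refine ⟨C, hC, fun w => ?_⟩
  obtain ⟨X₀, hX₀⟩ := hcl w
  have hP := PW_pos w
  have hPr : (0 : ℝ) < PW w := by exact_mod_cast hP
  refine ⟨(PW w : ℝ) * (PW w * ((∑ i, (F i).natDegree : ℕ) : ℝ)) + PW w * X₀ + 1, by positivity,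
    fun N => ?_⟩
  have hser := series_nonneg F G N w
  have hdens : 0 ≤ dens G g N := by
    unfold dens
    have : 0 ≤ Real.log (argCount G N : ℝ) := Real.log_natCast_nonneg _
    positivity
  rcases Nat.lt_or_ge (argCount G N) X₀ with hlt | hge
  · have h1 : Mw F G w N ≤ ∑ n ∈ AF F (argCount G N), (PW w : ℝ) := by
      unfold Mw
      refine (sum_le_sum_of_subset_of_nonneg (filter_subset _ _)
        fun _ _ _ => FC1_Lq_nonneg _ _).trans (sum_le_sum fun n _ => FC1_Lq_le _ hP _)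
    rw [sum_const, nsmul_eq_mul] at h1
    have h2 : ((AF F (argCount G N)).card : ℝ) ≤ X₀ := by
      exact_mod_cast (FC1_card_AF F _).trans hlt.le
    have h3 : ((AF F (argCount G N)).card : ℝ) * PW w ≤ PW w * X₀ := by
      rw [mul_comm]
      exact mul_le_mul_of_nonneg_left h2 hPr.le
    have h4 : 0 ≤ C * dens G g N * seriesTrunc F G N w := by positivity
    have h5 : 0 ≤ (PW w : ℝ) * (PW w * ((∑ i, (F i).natDegree : ℕ) : ℝ)) := by positivity
    linarith
  · refine (FC1_Mw_sum F G w N).trans ?_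
    have h1 : ∀ b ∈ range (PW w), Lw w ((N : ℤ) - G.eval (b : ℤ)) *
        (cntF F (PW w) b (argCount G N) : ℝ) ≤
        C * dens G g N * (if IsCoprime ((∏ i, F i).eval (b : ℤ)) (PW w : ℤ) then
          Lw w ((N : ℤ) - G.eval (b : ℤ)) *
            (((PW w : ℝ) / Nat.totient (PW w)) ^ g / PW w) else 0) +
        (PW w : ℝ) * ((∑ i, (F i).natDegree : ℕ) : ℝ) := by
      intro b _
      have hL0 : 0 ≤ Lw w ((N : ℤ) - G.eval (b : ℤ)) := FC1_Lq_nonneg _ _
      have hL1 : Lw w ((N : ℤ) - G.eval (b : ℤ)) ≤ PW w := FC1_Lq_le _ hP _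
      by_cases hb : IsCoprime ((∏ i, F i).eval (b : ℤ)) (PW w : ℤ)
      · rw [if_pos hb]
        have h2 := hX₀ _ hge b
        have h3 : 0 ≤ (PW w : ℝ) * ((∑ i, (F i).natDegree : ℕ) : ℝ) := by positivity
        calc Lw w ((N : ℤ) - G.eval (b : ℤ)) * (cntF F (PW w) b (argCount G N) : ℝ) ≤
            Lw w ((N : ℤ) - G.eval (b : ℤ)) * (C * ((argCount G N : ℝ) /
              (Real.log (argCount G N)) ^ g) * (((PW w : ℝ) / Nat.totient (PW w)) ^ g / PW w)) :=
              mul_le_mul_of_nonneg_left h2 hL0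
          _ = C * dens G g N * (Lw w ((N : ℤ) - G.eval (b : ℤ)) *
            (((PW w : ℝ) / Nat.totient (PW w)) ^ g / PW w)) := by
              unfold dens; ring
          _ ≤ _ := by linarith
      · rw [if_neg hb, mul_zero, zero_add]
        have h2 : (cntF F (PW w) b (argCount G N) : ℝ) ≤ ((∑ i, (F i).natDegree : ℕ) : ℝ) := by
          exact_mod_cast FC1_bad F hF (PW w) b _ hb
        exact mul_le_mul hL1 h2 (by positivity) hPr.le
    refine (sum_le_sum h1).trans ?_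
    rw [sum_add_distrib, ← mul_sum, FC1_series, sum_const, card_range, nsmul_eq_mul]
    have : 0 ≤ (PW w : ℝ) * X₀ := by positivity
    linarith

/-- If `N` is not admissible for `(F, x)`, then, since `N - x` is irreducible, some prime `p` divides all
values of `F_1 ⋯ F_g (N - x)`; this polynomial is primitive of degree `m + 1`, `m = ∑ deg F_i`, so
`p ≤ m + 1`. For `w > m + 1` the factor of `seriesTrunc F X N w` at `p` is `0`. -/
theorem series_not_adm (F : Fin g → ℤ[X]) (hF : Sys F) (N w : ℕ)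
    (hw : ∑ i, (F i).natDegree + 1 < w) (hadm : ¬ Admissible F X N) : seriesTrunc F X N w = 0 := by
  classical
  have hirr : Irreducible (C (N : ℤ) - X : ℤ[X]) := by
    have h1 : Associated (X - C (N : ℤ) : ℤ[X]) (C (N : ℤ) - X) := ⟨-1, by simp⟩
    exact h1.irreducible (irreducible_X_sub_C _)
  have h1 : ∃ p : ℕ, p.Prime ∧ ∀ n : ℤ, (p : ℤ) ∣ ((∏ i, F i) * (C (N : ℤ) - X)).eval n := by
    by_contra hc
    push Not at hc
    apply hadm
    refine ⟨hirr, fun p hp hall => ?_⟩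
    obtain ⟨n, hn⟩ := hc p hp
    exact hn (hall n)
  obtain ⟨p, hp, hall⟩ := h1
  have hnd : (C (N : ℤ) - X : ℤ[X]).natDegree = 1 := by
    have h1 : (C (N : ℤ) - X : ℤ[X]) = -(X - C (N : ℤ)) := by ring
    rw [h1, natDegree_neg, natDegree_X_sub_C]
  have hprim : ((∏ i, F i) * (C (N : ℤ) - X)).IsPrimitive := by
    apply IsPrimitive.mul
    · apply Finset.prod_induction _ IsPrimitive (fun a b ha hb => ha.mul hb)
      · exact isPrimitive_one
      · intro i _
        exact (hF.irr i).isPrimitive (by have := hF.deg i; omega)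
    · exact hirr.isPrimitive (by rw [hnd]; norm_num)
  have h2 : omegaN F X N p ≤ ∑ i, (F i).natDegree + 1 := by
    rw [Pool.Agent.Lib.H59.omegaN_eq]
    refine (Pool.Agent.Lib.H59.rootCount_le_natDegree hprim hp).trans ?_
    refine natDegree_mul_le.trans ?_
    rw [hnd]
    exact Nat.add_le_add_right (natDegree_prod_le _ _) 1
  have h3 : omegaN F X N p = p := by
    unfold omegaN
    rw [filter_true_of_mem (fun a _ => hall _), card_range]
  unfold seriesTrunc
  apply Finset.prod_eq_zero (i := p)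
  · rw [Nat.mem_primesBelow]
    exact ⟨by omega, hp⟩
  · rw [h3, div_self (by exact_mod_cast hp.ne_zero), sub_self, zero_mul]


theorem FC1_argCount (N : ℕ) : argCount X N = N - 1 := by
  have h : argSet X N = ↑(Finset.Icc 1 (N - 1)) := by
    ext n
    simp only [argSet, eval_X, Set.mem_ofPred_eq, coe_Icc, Set.mem_Icc]
    omega
  rw [argCount, h, Set.ncard_coe_finset, Nat.card_Icc]
  omega

theorem FC1_dens_nonneg (G : ℤ[X]) (g N : ℕ) : 0 ≤ dens G g N := by
  unfold dens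
  have : 0 ≤ Real.log (argCount G N : ℝ) := Real.log_natCast_nonneg _
  positivity

theorem FC1_dens_le (g : ℕ) : ∃ C : ℝ, 1 ≤ C ∧ ∃ Y₀ : ℕ, ∀ Y N : ℕ, Y₀ ≤ Y → N ≤ Y →
    dens X g N ≤ C * dens X g Y := by
  have h1 := (dens_tendsto X (by simp) (by simp) g).eventually_ge_atTop 1
  have hl2 : 0 < Real.log 2 := Real.log_pos (by norm_num)
  have h2 : ∀ᶠ x : ℝ in atTop, ‖Real.log x ^ (g : ℝ)‖ ≤ (Real.log 2) ^ g * ‖x ^ ((1 : ℝ) / 2)‖ :=
    (isLittleO_log_rpow_rpow_atTop (g : ℝ) (by norm_num : (0:ℝ) < 1 / 2)).bound (by positivity)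
  have h3 : Tendsto (fun Y : ℕ => ((Y - 1 : ℕ) : ℝ)) atTop atTop :=
    tendsto_natCast_atTop_atTop.comp (tendsto_sub_atTop_nat 1)
  have h4 := h3.eventually h2
  obtain ⟨Y₀, hY₀⟩ := eventually_atTop.1 (h1.and (h4.and (eventually_ge_atTop 4)))
  refine ⟨2 ^ g, one_le_pow₀ (by norm_num), Y₀, fun Y N hY hN => ?_⟩
  obtain ⟨a1, a2, a3⟩ := hY₀ Y hY
  have hC1 : (1 : ℝ) ≤ 2 ^ g := one_le_pow₀ (by norm_num)
  have hbig : 1 ≤ 2 ^ g * dens X g Y := by nlinarith
  unfold dens at *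
  simp only [FC1_argCount] at *
  have hxy : N - 1 ≤ Y - 1 := by omega
  set x : ℝ := ((N - 1 : ℕ) : ℝ) with hx
  set y : ℝ := ((Y - 1 : ℕ) : ℝ) with hy
  have hxy' : x ≤ y := by rw [hx, hy]; exact_mod_cast hxy
  have hy3 : 3 ≤ y := by
    have : 3 ≤ Y - 1 := by omega
    rw [hy]; exact_mod_cast this
  have hly : 0 < Real.log y := Real.log_pos (by linarith)
  rcases Nat.lt_or_ge (N - 1) 2 with h | h
  · refine le_trans ?_ hbig
    have hx1 : x ≤ 1 := by
      have : N - 1 ≤ 1 := by omega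
      rw [hx]; exact_mod_cast this
    have hx0 : 0 ≤ x := by positivity
    have hlog : Real.log x = 0 := by
      have : N - 1 = 0 ∨ N - 1 = 1 := by omega
      rcases this with h | h <;> simp [hx, h]
    rw [hlog]
    rcases Nat.eq_zero_or_pos g with hg | hg
    · rw [hg, pow_zero, div_one]; exact hx1
    · rw [zero_pow (by omega), div_zero]; exact zero_le_one
  · have hx2 : 2 ≤ x := by rw [hx]; exact_mod_cast h
    have hlx : Real.log 2 ≤ Real.log x := Real.log_le_log (by norm_num) hx2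
    have hlx0 : 0 < Real.log x := by linarith
    rcases le_or_gt x (Real.sqrt y) with h | h
    · have e1 : (Real.log y) ^ g ≤ (Real.log 2) ^ g * Real.sqrt y := by
        rw [Real.rpow_natCast, Real.norm_of_nonneg (by positivity),
          Real.norm_of_nonneg (by positivity), ← Real.sqrt_eq_rpow] at a2
        exact a2
      have e2 : x / (Real.log x) ^ g ≤ Real.sqrt y / (Real.log 2) ^ g :=
        div_le_div₀ (Real.sqrt_nonneg _) h (by positivity) (pow_le_pow_left₀ hl2.le hlx g)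
      have e3 : Real.sqrt y / (Real.log 2) ^ g ≤ y / (Real.log y) ^ g := by
        rw [div_le_div_iff₀ (by positivity) (by positivity)]
        calc Real.sqrt y * (Real.log y) ^ g ≤ Real.sqrt y * ((Real.log 2) ^ g * Real.sqrt y) :=
              mul_le_mul_of_nonneg_left e1 (Real.sqrt_nonneg _)
          _ = (Real.sqrt y * Real.sqrt y) * (Real.log 2) ^ g := by ring
          _ = _ := by rw [Real.mul_self_sqrt (by linarith)]
      have e4 : 0 ≤ y / (Real.log y) ^ g := by positivity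
      calc _ ≤ y / (Real.log y) ^ g := e2.trans e3
        _ ≤ _ := le_mul_of_one_le_left e4 hC1
    · have e1 : Real.log y / 2 ≤ Real.log x := by
        rw [← Real.log_sqrt (by linarith)]
        exact Real.log_le_log (Real.sqrt_pos.mpr (by linarith)) h.le
      calc x / (Real.log x) ^ g ≤ y / (Real.log y / 2) ^ g :=
            div_le_div₀ (by linarith) hxy' (by positivity) (pow_le_pow_left₀ (by positivity) e1 g)
        _ = 2 ^ g * (y / (Real.log y) ^ g) := by
            rw [div_pow]; field_simp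

theorem FC1_real (M Q T SS Sw d L Dg r η : ℝ) (hSw : 0 ≤ Sw) (hd : 0 ≤ d) (hDg : 1 ≤ Dg)
    (hT : 0 ≤ T) (hTL : T * L = d / Dg * r) (hr1 : 1 ≤ r) (hr2 : r ≤ 1 + 2 * η) (hη : 0 ≤ η)
    (hη1 : η ≤ 1 / 4) (hL : 0 ≤ L) (h1 : |Q - T * SS| ≤ η * (T * SS)) (h2 : |SS - Sw| ≤ η * Sw) :
    |M - d / Dg * Sw| ≤ |Q * L - M| + 8 * η * d * Sw := by
  have hDg0 : 0 < Dg := by linarith
  set v := d / Dg with hv
  have hv0 : 0 ≤ v := by positivity
  have hvd : v ≤ d := div_le_self hd hDg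
  have hSS : SS ≤ 5 / 4 * Sw := by
    have := (abs_le.mp h2).2
    nlinarith
  have hSS0 : 0 ≤ SS := by
    have := (abs_le.mp h2).1
    nlinarith
  have a1 : |Q * L - T * SS * L| ≤ 2 * η * (v * Sw) := by
    have e1 : Q * L - T * SS * L = (Q - T * SS) * L := by ring
    rw [e1, abs_mul, abs_of_nonneg hL]
    calc |Q - T * SS| * L ≤ η * (T * SS) * L := mul_le_mul_of_nonneg_right h1 hL
      _ = η * (v * r) * SS := by rw [← hTL]; ring
      _ ≤ η * (v * (3 / 2)) * (5 / 4 * Sw) := by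
          apply mul_le_mul _ hSS hSS0 (by positivity)
          apply mul_le_mul_of_nonneg_left _ hη
          apply mul_le_mul_of_nonneg_left _ hv0
          linarith
      _ ≤ 2 * η * (v * Sw) := by
          have : 0 ≤ η * (v * Sw) := by positivity
          nlinarith
  have a2 : |T * SS * L - T * L * Sw| ≤ 3 / 2 * η * (v * Sw) := by
    have e1 : T * SS * L - T * L * Sw = (v * r) * (SS - Sw) := by rw [← hTL]; ring
    rw [e1, abs_mul, abs_of_nonneg (by positivity)]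
    calc v * r * |SS - Sw| ≤ v * (3 / 2) * (η * Sw) := by
          apply mul_le_mul _ h2 (abs_nonneg _) (by positivity)
          apply mul_le_mul_of_nonneg_left _ hv0
          linarith
      _ = _ := by ring
  have a3 : |T * L * Sw - v * Sw| ≤ 2 * η * (v * Sw) := by
    have e1 : T * L * Sw - v * Sw = (r - 1) * (v * Sw) := by rw [hTL]; ring
    rw [e1, abs_mul, abs_of_nonneg (by linarith), abs_of_nonneg (by positivity)]
    apply mul_le_mul_of_nonneg_right _ (by positivity)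
    linarith
  have a4 : M - v * Sw = -(Q * L - M) + (Q * L - T * SS * L) + (T * SS * L - T * L * Sw) +
      (T * L * Sw - v * Sw) := by ring
  rw [a4]
  refine (abs_add_le _ _).trans ?_
  have b1 := abs_add_le (-(Q * L - M) + (Q * L - T * SS * L)) (T * SS * L - T * L * Sw)
  have b2 := abs_add_le (-(Q * L - M)) (Q * L - T * SS * L)
  rw [abs_neg] at b2
  have b3 : v * Sw ≤ d * Sw := mul_le_mul_of_nonneg_right hvd hSw
  have b4 : 8 * η * (v * Sw) ≤ 8 * η * (d * Sw) := mul_le_mul_of_nonneg_left b3 (by positivity)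
  have b5 : 0 ≤ η * (v * Sw) := by positivity
  nlinarith

theorem FC1_log (η : ℝ) (hη : 0 < η) (hη1 : η ≤ 1) : ∃ Y₀ : ℕ, ∀ Y N : ℕ, Y₀ ≤ Y →
    η * Y < N → N ≤ Y → 0 < Real.log ((N - 1 : ℕ) : ℝ) ∧
      1 ≤ Real.log Y / Real.log ((N - 1 : ℕ) : ℝ) ∧
      Real.log Y / Real.log ((N - 1 : ℕ) : ℝ) ≤ 1 + 2 * η := by
  have hlog : Tendsto (fun Y : ℕ => Real.log (Y : ℝ)) atTop atTop :=
    Real.tendsto_log_atTop.comp tendsto_natCast_atTop_atTop
  have h1 := hlog.eventually_ge_atTop (2 * |Real.log (η / 2)| / η + 2 * |Real.log (η / 2)| + 1)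
  have h2 : ∀ᶠ Y : ℕ in atTop, (6 / η) ≤ (Y : ℝ) :=
    tendsto_natCast_atTop_atTop.eventually_ge_atTop _
  obtain ⟨Y₀, hY₀⟩ := eventually_atTop.1 (h1.and h2)
  refine ⟨Y₀, fun Y N hY hN1 hN2 => ?_⟩
  obtain ⟨a1, a2⟩ := hY₀ Y hY
  rw [div_le_iff₀ hη] at a2
  have hN6 : (6 : ℝ) < N := by linarith
  have hN1' : ((N - 1 : ℕ) : ℝ) = N - 1 := by
    rw [Nat.cast_sub (by
      have : 6 < N := by exact_mod_cast hN6
      omega)]
    norm_num
  have hNY : (N : ℝ) ≤ Y := by exact_mod_cast hN2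
  have hYpos : (0 : ℝ) < Y := by linarith
  have hge : η / 2 * Y ≤ ((N - 1 : ℕ) : ℝ) := by rw [hN1']; linarith
  have hle : ((N - 1 : ℕ) : ℝ) ≤ Y := by rw [hN1']; linarith
  have hN5 : (5 : ℝ) < ((N - 1 : ℕ) : ℝ) := by rw [hN1']; linarith
  have hlx : 0 < Real.log ((N - 1 : ℕ) : ℝ) := Real.log_pos (by linarith)
  have e1 : Real.log (η / 2 * Y) ≤ Real.log ((N - 1 : ℕ) : ℝ) :=
    Real.log_le_log (by positivity) hge
  rw [Real.log_mul (by positivity) hYpos.ne'] at e1
  have e2 := neg_abs_le (Real.log (η / 2))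
  refine ⟨hlx, ?_, ?_⟩
  · rw [one_le_div hlx]
    exact Real.log_le_log (by linarith) hle
  · rw [div_le_iff₀ hlx]
    set A := |Real.log (η / 2)| with hA
    have hA0 : 0 ≤ A := abs_nonneg _
    have e3 : 2 * A / η ≤ Real.log Y := by linarith
    rw [div_le_iff₀ hη] at e3
    have e4 : Real.log Y - A ≤ Real.log ((N - 1 : ℕ) : ℝ) := by linarith
    nlinarith

/-- Let `D(N) = |Mw - (dens(N)/∏ deg) S_w(N)|`, `dens = dens X g`, `S_w = seriesTrunc F X N w`;
`argCount X N = N - 1`. Given a small `η`, take `w` large and then `Y` large.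
* `N ≤ η Y`: by `Mw_le`, `D(N) ≤ C dens(Y) S_w(N) + B_w`, and `∑_{N ≤ ηY} S_w(N) ≤ C η Y` (`moment_sq`,
  Cauchy-Schwarz).
* `N` not admissible: `S_w(N) = 0` (`series_not_adm`), so `D(N) = Mw ≤ B_w` by `Mw_le`.
* `N > η Y` admissible, in the exceptional set `E` of `AlmostAll F X` (with `ε = η`) or of `tail_linear`
  (with `ε = η`), `#E ≤ 2 η Y`: `∑_{N ∈ E} D(N) ≤ C dens(Y) ∑_E S_w + B_w Y ≤ C √(2η) Y dens(Y) + B_w Y`.
* the others: `|Q₁ - mainT SS| ≤ η mainT SS`, `|SS - S_w| ≤ η S_w`, so `|Q₁ - mainT S_w| ≤ 4 η mainT S_w`;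
  `mainT log Y = (dens(N)/∏ deg) log Y/log(N-1)`, so
  `D(N) ≤ |Mw - Q₁ log Y| + (5 η + o(1)) dens(N) S_w(N)`; sum over `N`: `prime_model` and `∑ S_w ≤ C Y`.
`dens(Y) → ∞`, so `B_w Y ≤ η Y dens(Y)` for large `Y`. -/
theorem model_close (F : Fin g → ℤ[X]) (hF : Sys F) (hN : NoFix F) (h : AlmostAll F X) (ε : ℝ)
    (hε : 0 < ε) : ∃ w₀ : ℕ, ∀ w : ℕ, w₀ ≤ w → ∃ Y₀ : ℕ, ∀ Y : ℕ, Y₀ ≤ Y →
    ∑ N ∈ Icc 1 Y, |Mw F X w N - dens X g N / (∏ i, ((F i).natDegree : ℝ)) *
      seriesTrunc F X N w| ≤ ε * Y * dens X g Y := by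
  classical
  have hX1 : 1 ≤ (X : ℤ[X]).natDegree := by simp
  have hXl : 0 < (X : ℤ[X]).leadingCoeff := by simp
  obtain ⟨C₁, hC₁, hMw⟩ := Mw_le F hF hN X hX1 hXl
  obtain ⟨C₂, hC₂, hmom⟩ := moment_sq F hF hN X hX1 hXl
  obtain ⟨C₃, hC₃, Y₃, hdens⟩ := FC1_dens_le g
  have hDg : (1 : ℝ) ≤ ∏ i, ((F i).natDegree : ℝ) := by
    have h : 0 < ∏ i, (F i).natDegree := Finset.prod_pos fun i _ => hF.deg i
    have h' : 1 ≤ ∏ i, (F i).natDegree := h
    exact_mod_cast h'
  set Dg : ℝ := ∏ i, ((F i).natDegree : ℝ) with hDgd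
  have hDg0 : 0 < Dg := by linarith
  set K : ℝ := (C₁ + 1) * C₃ * Real.sqrt C₂ + 1 with hK
  have hs2 : 0 ≤ Real.sqrt C₂ := Real.sqrt_nonneg _
  have hK1 : 1 ≤ K := by
    have : 0 ≤ (C₁ + 1) * C₃ * Real.sqrt C₂ := by positivity
    rw [hK]; linarith
  set η : ℝ := min (1 / 4) (min (ε / (64 * K)) ((ε / (8 * K)) ^ 2 / 3)) with hη
  have hη0 : 0 < η := by positivity
  have hη4 : η ≤ 1 / 4 := min_le_left _ _
  have hη5 : η ≤ ε / (64 * K) := (min_le_right _ _).trans (min_le_left _ _)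
  have hη6 : η ≤ (ε / (8 * K)) ^ 2 / 3 := (min_le_right _ _).trans (min_le_right _ _)
  obtain ⟨w₁, hw₁⟩ := prime_model F hF hN X hX1 hXl η hη0
  obtain ⟨w₂, hw₂⟩ := tail_linear F hF hN X (by simp) hXl η hη0
  obtain ⟨Y₄, hY₄⟩ := h η hη0
  obtain ⟨Y₅, hY₅⟩ := FC1_log η hη0 (by linarith)
  refine ⟨max (max w₁ w₂) (∑ i, (F i).natDegree + 2), fun w hw => ?_⟩
  have hww1 : w₁ ≤ w := ((le_max_left _ _).trans (le_max_left _ _)).trans hw
  have hww2 : w₂ ≤ w := ((le_max_right _ _).trans (le_max_left _ _)).trans hw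
  have hww3 : ∑ i, (F i).natDegree + 1 < w := by
    have := (le_max_right (max w₁ w₂) (∑ i, (F i).natDegree + 2)).trans hw
    omega
  obtain ⟨Y₁, hY₁⟩ := hw₁ w hww1
  obtain ⟨Y₂, hY₂⟩ := hw₂ w hww2
  obtain ⟨B, hB, hMwB⟩ := hMw w
  obtain ⟨Y₆, hY₆⟩ := eventually_atTop.1
    ((dens_tendsto X hX1 hXl g).eventually_ge_atTop (8 * B / ε))
  refine ⟨max (max (max Y₁ Y₂) (max Y₃ Y₄)) (max (max Y₅ Y₆) (max (PW w) 3)), fun Y hY => ?_⟩
  have hYY1 : Y₁ ≤ Y := le_trans (by simp) hY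
  have hYY2 : Y₂ ≤ Y := le_trans (by simp) hY
  have hYY3 : Y₃ ≤ Y := le_trans (by simp) hY
  have hYY4 : Y₄ ≤ Y := le_trans (by simp) hY
  have hYY5 : Y₅ ≤ Y := le_trans (by simp) hY
  have hYY6 : Y₆ ≤ Y := le_trans (by simp) hY
  have hYY7 : PW w ≤ Y := le_trans (by simp) hY
  have hYY8 : 3 ≤ Y := le_trans (by simp) hY
  have hY3r : (3 : ℝ) ≤ Y := by exact_mod_cast hYY8
  have hYpos : (0 : ℝ) < Y := by linarith
  have b1 := hY₁ Y hYY1
  have b2 := hY₂ Y hYY2
  have b4 := hY₄ Y hYY4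
  have b6 := hY₆ Y hYY6
  have b7 := hmom w Y hYY7
  set dY := dens X g Y with hdY
  have hdY0 : 0 ≤ dY := FC1_dens_nonneg _ _ _
  have hBd : B ≤ ε / 8 * dY := by
    rw [div_le_iff₀ hε] at b6
    linarith
  set S : ℕ → ℝ := fun N => seriesTrunc F X N w with hS
  have hS0 : ∀ N, 0 ≤ S N := fun N => series_nonneg F X N w
  -- the exceptional set
  set E₁ := (Icc 1 Y).filter (fun N : ℕ => (N : ℝ) ≤ η * Y) with hE₁
  set E₂ := (Icc 1 Y).filter (fun N => Admissible F X N ∧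
      η * (mainT F X N * SS F X N) < |(primeCount F X N : ℝ) - mainT F X N * SS F X N|) with hE₂
  set E₃ := (Icc 1 Y).filter (fun N => η * seriesTrunc F X N w <
      |SS F X N - seriesTrunc F X N w|) with hE₃
  set E := E₁ ∪ E₂ ∪ E₃ with hE
  have hEsub : E ⊆ Icc 1 Y := by
    rw [hE]
    exact union_subset (union_subset (filter_subset _ _) (filter_subset _ _)) (filter_subset _ _)
  have hcard : (E.card : ℝ) ≤ 3 * η * Y := by
    have c1 : (E₁.card : ℝ) ≤ η * Y := by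
      have hsub : E₁ ⊆ Icc 1 ⌊η * Y⌋₊ := by
        intro N hN'
        rw [hE₁, mem_filter, mem_Icc] at hN'
        rw [mem_Icc]
        exact ⟨hN'.1.1, Nat.le_floor hN'.2⟩
      have := card_le_card hsub
      rw [Nat.card_Icc, Nat.add_sub_cancel] at this
      calc (E₁.card : ℝ) ≤ (⌊η * Y⌋₊ : ℝ) := by exact_mod_cast this
        _ ≤ η * Y := Nat.floor_le (by positivity)
    have c2 : (E.card : ℝ) ≤ E₁.card + E₂.card + E₃.card := by
      have h1 := card_union_le (E₁ ∪ E₂) E₃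
      have h2 := card_union_le E₁ E₂
      have : E.card ≤ E₁.card + E₂.card + E₃.card := by rw [hE]; omega
      exact_mod_cast this
    linarith
  -- the pointwise bound
  have hpt : ∀ N ∈ Icc 1 Y, |Mw F X w N - dens X g N / Dg * S N| ≤
      (if N ∈ E then (C₁ + 1) * C₃ * dY * S N + B else 0) + B +
        |(primeCount F X N : ℝ) * Real.log Y - Mw F X w N| + 8 * η * C₃ * dY * S N := by
    intro N hN'
    have hN2 := mem_Icc.mp hN'
    have hdN := hdens Y N hYY3 hN2.2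
    have hdN0 := FC1_dens_nonneg X g N
    have hMwN := hMwB N
    have hMw0 : 0 ≤ Mw F X w N := by
      unfold Mw
      exact sum_nonneg fun _ _ => FC1_Lq_nonneg _ _
    have hlast : 0 ≤ 8 * η * C₃ * dY * S N := by
      have := hS0 N
      positivity
    have habs := abs_nonneg ((primeCount F X N : ℝ) * Real.log Y - Mw F X w N)
    have hvd : dens X g N / Dg ≤ dens X g N := div_le_self hdN0 hDg
    have hv0 : 0 ≤ dens X g N / Dg := by positivity
    by_cases hNE : N ∈ E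
    · rw [if_pos hNE]
      have h1 : |Mw F X w N - dens X g N / Dg * S N| ≤ Mw F X w N + dens X g N / Dg * S N := by
        refine (abs_sub _ _).trans ?_
        rw [abs_of_nonneg hMw0, abs_of_nonneg (mul_nonneg hv0 (hS0 N))]
      have h2 : dens X g N / Dg * S N ≤ C₃ * dY * S N :=
        mul_le_mul_of_nonneg_right (hvd.trans hdN) (hS0 N)
      have h3 : C₁ * dens X g N * S N ≤ C₁ * (C₃ * dY) * S N :=
        mul_le_mul_of_nonneg_right (mul_le_mul_of_nonneg_left hdN hC₁.le) (hS0 N)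
      have h4 : Mw F X w N ≤ C₁ * dens X g N * S N + B := hMwN
      nlinarith
    · rw [if_neg hNE, zero_add]
      have hN1 : ¬ (N : ℝ) ≤ η * Y := fun hc => hNE
        (mem_union_left _ (mem_union_left _ (mem_filter.mpr ⟨hN', hc⟩)))
      have hN3 : ¬ (Admissible F X N ∧ η * (mainT F X N * SS F X N) <
          |(primeCount F X N : ℝ) - mainT F X N * SS F X N|) := fun hc => hNE
        (mem_union_left _ (mem_union_right _ (mem_filter.mpr ⟨hN', hc⟩)))
      have hN4 : ¬ (η * seriesTrunc F X N w < |SS F X N - seriesTrunc F X N w|) :=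
        fun hc => hNE (mem_union_right _ (mem_filter.mpr ⟨hN', hc⟩))
      push Not at hN1 hN4
      by_cases hadm : Admissible F X N
      · have hN5 : |(primeCount F X N : ℝ) - mainT F X N * SS F X N| ≤
            η * (mainT F X N * SS F X N) := by
          by_contra hc
          exact hN3 ⟨hadm, not_le.mp hc⟩
        obtain ⟨l1, l2, l3⟩ := hY₅ Y N hYY5 hN1 hN2.2
        have hT : 0 ≤ mainT F X N := by
          unfold mainT
          have : 0 ≤ Real.log (argCount X N : ℝ) := Real.log_natCast_nonneg _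
          positivity
        have hTL : mainT F X N * Real.log Y = dens X g N / Dg *
            (Real.log Y / Real.log ((N - 1 : ℕ) : ℝ)) := by
          unfold mainT dens
          rw [FC1_argCount, ← hDgd, natDegree_X, Nat.cast_one, one_mul, pow_succ]
          field_simp
        have hreal := FC1_real (Mw F X w N) (primeCount F X N) (mainT F X N) (SS F X N) (S N)
          (dens X g N) (Real.log Y) Dg _ η (hS0 N) hdN0 hDg hT hTL l2 l3 hη0.le hη4
          (Real.log_nonneg (by linarith)) hN5 hN4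
        have h5 : 8 * η * dens X g N * S N ≤ 8 * η * C₃ * dY * S N := by
          apply mul_le_mul_of_nonneg_right _ (hS0 N)
          have := mul_le_mul_of_nonneg_left hdN (by positivity : 0 ≤ 8 * η)
          linarith
        linarith
      · have h0 : S N = 0 := series_not_adm F hF N w hww3 hadm
        rw [h0, mul_zero, sub_zero, abs_of_nonneg hMw0]
        have h1 : Mw F X w N ≤ C₁ * dens X g N * S N + B := hMwN
        rw [h0, mul_zero, zero_add] at h1
        rw [mul_zero, add_zero]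
        linarith
  refine (sum_le_sum hpt).trans ?_
  rw [sum_add_distrib, sum_add_distrib, sum_add_distrib, ← mul_sum, sum_const, Nat.card_Icc,
    Nat.add_sub_cancel, nsmul_eq_mul]
  have hite : ∑ N ∈ Icc 1 Y, (if N ∈ E then (C₁ + 1) * C₃ * dY * S N + B else 0) =
      (C₁ + 1) * C₃ * dY * ∑ N ∈ E, S N + E.card * B := by
    rw [← sum_filter, filter_mem_eq_inter, inter_eq_right.mpr hEsub, sum_add_distrib, ← mul_sum,
      sum_const, nsmul_eq_mul]
  rw [hite]
  -- Cauchy-Schwarz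
  have hall : ∑ N ∈ Icc 1 Y, S N ≤ Y * Real.sqrt C₂ := by
    have h1 := sq_sum_le_card_mul_sum_sq (s := Icc 1 Y) (f := S)
    rw [Nat.card_Icc, Nat.add_sub_cancel] at h1
    have h2 : (∑ N ∈ Icc 1 Y, S N) ^ 2 ≤ (Y * Real.sqrt C₂) ^ 2 := by
      refine h1.trans ?_
      rw [mul_pow, Real.sq_sqrt hC₂.le]
      calc (Y : ℝ) * ∑ N ∈ Icc 1 Y, S N ^ 2 ≤ Y * (C₂ * Y) :=
            mul_le_mul_of_nonneg_left b7 hYpos.le
        _ = _ := by ring
    exact le_of_sq_le_sq h2 (by positivity)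
  have hEs : ∑ N ∈ E, S N ≤ Y * Real.sqrt C₂ * (ε / (8 * K)) := by
    have h1 := sq_sum_le_card_mul_sum_sq (s := E) (f := S)
    have h2 : (∑ N ∈ E, S N) ^ 2 ≤ (Y * Real.sqrt C₂ * (ε / (8 * K))) ^ 2 := by
      refine h1.trans ?_
      have h3 : ∑ N ∈ E, S N ^ 2 ≤ C₂ * Y :=
        (sum_le_sum_of_subset_of_nonneg hEsub fun _ _ _ => sq_nonneg _).trans b7
      calc (E.card : ℝ) * ∑ N ∈ E, S N ^ 2 ≤ (3 * η * Y) * (C₂ * Y) :=
            mul_le_mul hcard h3 (sum_nonneg fun _ _ => sq_nonneg _) (by positivity)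
        _ = (3 * η) * (C₂ * Y ^ 2) := by ring
        _ ≤ (ε / (8 * K)) ^ 2 * (C₂ * Y ^ 2) := by
            apply mul_le_mul_of_nonneg_right _ (by positivity)
            linarith
        _ = _ := by
            rw [mul_pow, mul_pow, Real.sq_sqrt hC₂.le]; ring
    exact le_of_sq_le_sq h2 (by positivity)
  have f1 : (C₁ + 1) * C₃ * dY * ∑ N ∈ E, S N ≤ ε / 8 * Y * dY := by
    calc (C₁ + 1) * C₃ * dY * ∑ N ∈ E, S N ≤
        (C₁ + 1) * C₃ * dY * (Y * Real.sqrt C₂ * (ε / (8 * K))) :=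
          mul_le_mul_of_nonneg_left hEs (by positivity)
      _ = ((C₁ + 1) * C₃ * Real.sqrt C₂) * (ε / (8 * K)) * (Y * dY) := by ring
      _ ≤ K * (ε / (8 * K)) * (Y * dY) := by
          apply mul_le_mul_of_nonneg_right _ (by positivity)
          apply mul_le_mul_of_nonneg_right _ (by positivity)
          rw [hK]; linarith
      _ = _ := by
          have : K ≠ 0 := by linarith
          field_simp
  have f2 : (E.card : ℝ) * B ≤ Y * (ε / 8 * dY) := by
    apply mul_le_mul _ hBd hB.le hYpos.le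
    calc (E.card : ℝ) ≤ 3 * η * Y := hcard
      _ ≤ 1 * Y := mul_le_mul_of_nonneg_right (by linarith) hYpos.le
      _ = Y := one_mul _
  have f3 : (Y : ℝ) * B ≤ Y * (ε / 8 * dY) := mul_le_mul_of_nonneg_left hBd hYpos.le
  have f4 : 8 * η * C₃ * dY * ∑ N ∈ Icc 1 Y, S N ≤ ε / 8 * Y * dY := by
    calc 8 * η * C₃ * dY * ∑ N ∈ Icc 1 Y, S N ≤ 8 * η * C₃ * dY * (Y * Real.sqrt C₂) :=
          mul_le_mul_of_nonneg_left hall (by positivity)
      _ = 8 * η * (C₃ * Real.sqrt C₂) * (Y * dY) := by ring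
      _ ≤ 8 * (ε / (64 * K)) * K * (Y * dY) := by
          apply mul_le_mul_of_nonneg_right _ (by positivity)
          apply mul_le_mul _ _ (by positivity) (by positivity)
          · linarith
          · rw [hK]
            have : 0 ≤ C₁ * C₃ * Real.sqrt C₂ := by positivity
            nlinarith
      _ = _ := by
          have : K ≠ 0 := by linarith
          field_simp
          norm_num
  have f5 : η * Y * dY ≤ ε / 8 * Y * dY := by
    apply mul_le_mul_of_nonneg_right _ hdY0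
    apply mul_le_mul_of_nonneg_right _ hYpos.le
    refine hη5.trans ?_
    apply div_le_div_of_nonneg_left hε.le (by norm_num)
    linarith
  have f6 : 0 ≤ ε * Y * dY := by positivity
  nlinarith


end Pool.Agent.Lib.H33B
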