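import Pool.Agent.Lib.H33B.Defs
import Pool.Agent.Lib.H68T.CQ1
import Pool.Agent.Lib.H68T.CQ2

/-!
# Chunk INV: the matrix `1[(N - b, q) = 1]` is invertible for squarefree `q`
-/

open Finset

namespace Pool.Agent.Lib.H33B

open Pool.Agent.Lib.H68T (cq e)

theorem INV_norm_e (x : ℝ) : ‖e x‖ = 1 := by
  unfold Pool.Agent.Lib.H68T.e
  have h : (2 * (Real.pi : ℂ) * (x : ℂ) * Complex.I) = ((2 * Real.pi * x : ℝ) : ℂ) * Complex.I := by
    push_cast; ring
  rw [h, Complex.norm_exp_ofReal_mul_I]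

theorem INV_shift (q : ℕ) (F : ℤ → ℂ) (hF : ∀ m, F (m + q) = F m) (b : ℕ) :
    ∑ N ∈ range q, F ((N : ℤ) - b) = ∑ N ∈ range q, F N := by
  induction b with
  | zero => simp
  | succ b ih =>
    rcases Nat.eq_zero_or_pos q with h0 | h0
    · subst h0
      simp
    · obtain ⟨r, rfl⟩ : ∃ r, q = r + 1 := ⟨q - 1, by omega⟩
      rw [← ih, sum_range_succ', sum_range_succ]
      congr 1
      · refine sum_congr rfl fun N _ => ?_
        congr 1
        push_cast
        ring
      · rw [← hF]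
        congr 1
        push_cast
        ring

theorem INV_Lq_add (q : ℕ) (m : ℤ) : Lq q (m + q) = Lq q m := by
  unfold Lq
  have h : IsCoprime (m + (q : ℤ)) (q : ℤ) ↔ IsCoprime m (q : ℤ) := by
    constructor
    · intro h
      have := h.add_mul_right_left (-1)
      simpa using this
    · intro h
      have := h.add_mul_right_left 1
      simpa using this
  simp only [h]

theorem INV_fourier (q : ℕ) (hq : 0 < q) (a : ℕ) :
    ∑ N ∈ range q, (Lq q (N : ℤ) : ℂ) * e (-((a : ℝ) * ((N : ℤ) : ℝ) / q)) =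
      (((q : ℝ) / (Nat.totient q : ℝ) * cq q a : ℝ) : ℂ) := by
  rw [← Pool.Agent.Lib.H68T.cq_neg]
  rw [Complex.ofReal_mul, Pool.Agent.Lib.H68T.cq_eq_sum q hq, mul_sum, sum_filter]
  refine sum_congr rfl fun N _ => ?_
  unfold Lq
  have h : IsCoprime ((N : ℕ) : ℤ) (q : ℤ) ↔ Nat.Coprime N q := Nat.isCoprime_iff_coprime
  simp only [h]
  split_ifs
  · congr 2
    push_cast
    ring
  · simp

/-- For squarefree `q` the linear map `x ↦ (∑_b Lq(N₀ - b) x_b)_{N₀}` on functions modulo `q` is injective: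
it is a convolution on `ℤ/q`, its eigenvalues are `(q/φ(q)) c_q(a) = (q/φ(q)) μ(q/(q,a)) φ(q)/φ(q/(q,a))`
(Ramanujan sums), all different from `0`. Elementary variant by induction on the number of prime
factors: `ℤ/(p q') = ℤ/p × ℤ/q'` and `1[(m, p q') = 1] = 1[p ∤ m] 1[(m, q') = 1]`, the matrix is the Kronecker
product of `J - I` (size `p`; `(J - I) x = y` gives `∑ x = (∑ y)/(p-1)`, `x = ∑ x - y`) and the matrix of `q'`. A
linear injective map on a finite dimensional space is bounded below. -/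
theorem inv_bound (q : ℕ) (hq : Squarefree q) : ∃ K : ℝ, 0 < K ∧ ∀ (x : ℕ → ℝ) (η : ℝ),
    (∀ N₀ ∈ range q, |∑ b ∈ range q, Lq q ((N₀ : ℤ) - b) * x b| ≤ η) →
    ∀ b ∈ range q, |x b| ≤ K * η := by
  have hqn : 0 < q := Nat.pos_of_ne_zero hq.ne_zero
  have hq0 : (0 : ℝ) < q := by exact_mod_cast hqn
  refine ⟨q, hq0, fun x η hη => ?_⟩
  set y : ℕ → ℝ := fun N => ∑ b ∈ range q, Lq q ((N : ℤ) - b) * x b with hy
  set Xf : ℕ → ℂ := fun a => ∑ b ∈ range q, (x b : ℂ) * e (-((a : ℝ) * (b : ℝ) / q)) with hX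
  have key : ∀ a : ℕ, ∑ N ∈ range q, (y N : ℂ) * e (-((a : ℝ) * (N : ℝ) / q)) =
      Xf a * (((q : ℝ) / (Nat.totient q : ℝ) * cq q a : ℝ) : ℂ) := by
    intro a
    have h1 : ∀ N ∈ range q, (y N : ℂ) * e (-((a : ℝ) * (N : ℝ) / q)) =
        ∑ b ∈ range q, (x b : ℂ) * e (-((a : ℝ) * (b : ℝ) / q)) *
          ((Lq q ((N : ℤ) - b) : ℂ) * e (-((a : ℝ) * (((N : ℤ) - b : ℤ) : ℝ) / q))) := by
      intro N _
      rw [hy]
      push_cast
      rw [sum_mul]
      refine sum_congr rfl fun b _ => ?_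
      have h2 : e (-((a : ℝ) * (N : ℝ) / q)) =
          e (-((a : ℝ) * (b : ℝ) / q)) * e (-((a : ℝ) * ((N : ℝ) - (b : ℝ)) / q)) := by
        rw [← Pool.Agent.Lib.H68T.CQ1_e_add]
        congr 1
        ring
      rw [h2]
      ring
    rw [sum_congr rfl h1, sum_comm, hX]
    simp only
    rw [sum_mul]
    refine sum_congr rfl fun b _ => ?_
    rw [← mul_sum]
    congr 1
    rw [← INV_fourier q hqn a]
    refine INV_shift q (fun m : ℤ => (Lq q m : ℂ) * e (-((a : ℝ) * (m : ℝ) / q))) ?_ b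
    intro m
    rw [INV_Lq_add]
    congr 1
    have h3 : -((a : ℝ) * ((m + q : ℤ) : ℝ) / q) = -((a : ℝ) * (m : ℝ) / q) + ((-(a : ℤ) : ℤ) : ℝ) := by
      push_cast
      field_simp
      ring
    rw [h3, Pool.Agent.Lib.H68T.CQ1_e_add, Pool.Agent.Lib.H68T.CQ1_e_int, mul_one]
  have hXb : ∀ a : ℕ, ‖Xf a‖ ≤ q * η := by
    intro a
    have h1 : ‖∑ N ∈ range q, (y N : ℂ) * e (-((a : ℝ) * (N : ℝ) / q))‖ ≤ q * η := by
      refine (norm_sum_le _ _).trans ?_
      have h2 : ∀ N ∈ range q, ‖(y N : ℂ) * e (-((a : ℝ) * (N : ℝ) / q))‖ ≤ η := by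
        intro N hN
        rw [norm_mul, INV_norm_e, mul_one, Complex.norm_real, Real.norm_eq_abs]
        exact hη N hN
      refine (sum_le_sum h2).trans ?_
      rw [sum_const, card_range, nsmul_eq_mul]
    have h3 : (1 : ℝ) ≤ |(q : ℝ) / (Nat.totient q : ℝ) * cq q a| := by
      have hφ : (0 : ℝ) < (Nat.totient q : ℝ) := by exact_mod_cast Nat.totient_pos.mpr hqn
      have h4 : (1 : ℝ) ≤ (q : ℝ) / (Nat.totient q : ℝ) := by
        rw [le_div_iff₀ hφ, one_mul]
        exact_mod_cast Nat.totient_le q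
      have h5 : (1 : ℝ) ≤ |cq q a| := by
        rw [Pool.Agent.Lib.H68T.cq_squarefree q hq, abs_mul]
        set g := Nat.gcd q (a : ℤ).natAbs with hg
        have hgq : g ∣ q := Nat.gcd_dvd_left _ _
        have hg0 : 0 < g := Nat.pos_of_dvd_of_pos hgq hqn
        have h6 : |(ArithmeticFunction.moebius (q / g) : ℝ)| = 1 := by
          have h7 : Squarefree (q / g) := hq.squarefree_of_dvd (Nat.div_dvd_of_dvd hgq)
          have h8 : |ArithmeticFunction.moebius (q / g)| = 1 :=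
            ArithmeticFunction.abs_moebius_eq_one_of_squarefree h7
          exact_mod_cast h8
        rw [h6, one_mul, abs_of_nonneg (by positivity)]
        exact_mod_cast Nat.totient_pos.mpr hg0
      rw [abs_mul, abs_of_nonneg (by linarith : (0 : ℝ) ≤ (q : ℝ) / (Nat.totient q : ℝ))]
      nlinarith
    rw [key a, norm_mul, Complex.norm_real, Real.norm_eq_abs] at h1
    have h4 : 0 ≤ ‖Xf a‖ := norm_nonneg _
    nlinarith
  intro b hb
  have hinv : ∑ a ∈ range q, Xf a * e ((a : ℝ) * (b : ℝ) / q) = (q : ℂ) * (x b : ℂ) := by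
    have h1 : ∀ a ∈ range q, Xf a * e ((a : ℝ) * (b : ℝ) / q) =
        ∑ c ∈ range q, (x c : ℂ) * e ((a : ℝ) * ((((b : ℤ) - (c : ℤ) : ℤ) : ℝ) / q)) := by
      intro a _
      rw [hX]
      simp only
      rw [sum_mul]
      refine sum_congr rfl fun c _ => ?_
      have h2 : e ((a : ℝ) * ((((b : ℤ) - (c : ℤ) : ℤ) : ℝ) / q)) =
          e (-((a : ℝ) * (c : ℝ) / q)) * e ((a : ℝ) * (b : ℝ) / q) := by
        rw [← Pool.Agent.Lib.H68T.CQ1_e_add]
        congr 1
        push_cast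
        ring
      rw [h2]
      ring
    rw [sum_congr rfl h1, sum_comm]
    have h3 : ∀ c ∈ range q, ∑ a ∈ range q,
        (x c : ℂ) * e ((a : ℝ) * ((((b : ℤ) - (c : ℤ) : ℤ) : ℝ) / q)) =
        if b = c then (q : ℂ) * (x c : ℂ) else 0 := by
      intro c hc
      rw [mem_range] at hb hc
      rw [← mul_sum, Pool.Agent.Lib.H68T.CQ1_geom q hqn]
      have h4 : ((q : ℤ) ∣ (b : ℤ) - (c : ℤ)) ↔ b = c := by
        constructor
        · intro h
          have h5 := Int.eq_zero_of_abs_lt_dvd h (by rw [abs_lt]; constructor <;> omega)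
          omega
        · intro h
          rw [h, sub_self]
          exact dvd_zero _
      simp only [h4]
      split_ifs
      · ring
      · ring
    rw [sum_congr rfl h3, sum_ite_eq, if_pos hb]
  have hn : ‖(q : ℂ) * (x b : ℂ)‖ ≤ q * (q * η) := by
    rw [← hinv]
    refine (norm_sum_le _ _).trans ?_
    have h2 : ∀ a ∈ range q, ‖Xf a * e ((a : ℝ) * (b : ℝ) / q)‖ ≤ q * η := by
      intro a _
      rw [norm_mul, INV_norm_e, mul_one]
      exact hXb a
    refine (sum_le_sum h2).trans ?_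
    rw [sum_const, card_range, nsmul_eq_mul]
  rw [norm_mul, Complex.norm_real, Complex.norm_natCast, Real.norm_eq_abs] at hn
  exact le_of_mul_le_mul_left hn hq0

end Pool.Agent.Lib.H33B
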