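import Pool.Agent.Lib.H33B.FC1
import Pool.Agent.Lib.H33B.SR4
import Pool.Agent.Lib.H33B.INV

/-!
# Chunk FC2: the counts in classes
-/

open Finset Polynomial Filter Topology

namespace Pool.Agent.Lib.H33B

open Pool.Agent.Lib.H59 (argSet argCount Admissible primeCount omegaN seriesTrunc)

variable {g : ℕ}

theorem FC2_argCount (N : ℕ) : argCount X N = N - 1 := by
  have h : argSet X N = ↑(Finset.Icc 1 (N - 1)) := by
    ext n
    simp only [argSet, eval_X, Set.mem_ofPred_eq, coe_Icc, Set.mem_Icc]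
    omega
  rw [argCount, h, Set.ncard_coe_finset, Nat.card_Icc]
  omega

theorem FC2_mem_AF (F : Fin g → ℤ[X]) (x n : ℕ) :
    n ∈ AF F x ↔ (1 ≤ n ∧ n ≤ x) ∧ AllPrime F n := by
  classical
  rw [AF, mem_filter, mem_Icc]

theorem FC2_Mw (F : Fin g → ℤ[X]) (w N : ℕ) :
    Mw F X w N = ∑ n ∈ AF F (N - 1), Lw w ((N : ℤ) - n) := by
  unfold Mw
  rw [FC2_argCount]
  have h : (AF F (N - 1)).filter (fun n : ℕ => (X : ℤ[X]).eval (n : ℤ) < N) = AF F (N - 1) := by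
    apply filter_true_of_mem
    intro n hn
    rw [FC2_mem_AF] at hn
    rw [eval_X]
    omega
  rw [h]
  refine sum_congr rfl fun n _ => ?_
  rw [eval_X]

theorem FC2_Lq_period (q : ℕ) (m k : ℤ) : Lq q (m + k * q) = Lq q m := by
  unfold Lq
  have : IsCoprime (m + k * q) (q : ℤ) ↔ IsCoprime m (q : ℤ) := by
    constructor
    · intro h
      have := IsCoprime.of_add_mul_right_left h
      exact this
    · intro h
      exact h.add_mul_right_left k
  simp only [this]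

theorem FC2_Lq_congr (q : ℕ) (m m' : ℤ) (h : (q : ℤ) ∣ m - m') : Lq q m = Lq q m' := by
  obtain ⟨k, hk⟩ := h
  have : m = m' + k * q := by linarith
  rw [this, FC2_Lq_period]

theorem FC2_Lq_nonneg (q : ℕ) (m : ℤ) : 0 ≤ Lq q m := by
  unfold Lq
  split_ifs <;> positivity

theorem FC2_Lq_le (q : ℕ) (hq : 0 < q) (m : ℤ) : Lq q m ≤ q := by
  unfold Lq
  split_ifs
  · have h1 : (1 : ℝ) ≤ Nat.totient q := by
      exact_mod_cast Nat.totient_pos.mpr hq
    rw [div_le_iff₀ (by linarith)]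
    have : (0 : ℝ) ≤ q := by positivity
    nlinarith
  · positivity

theorem FC2_series_le (F : Fin g → ℤ[X]) (G : ℤ[X]) (N w : ℕ) :
    seriesTrunc F G N w ≤ (PW w : ℝ) ^ (g + 1) := by
  rw [series_count]
  have hP := PW_pos w
  have hPr : (0 : ℝ) < PW w := by exact_mod_cast hP
  have h1 : (1 : ℝ) ≤ Nat.totient (PW w) := by
    exact_mod_cast Nat.totient_pos.mpr hP
  have h2 : ((PW w : ℝ) / Nat.totient (PW w)) ≤ PW w := by
    rw [div_le_iff₀ (by linarith)]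
    nlinarith
  have h3 : ((((range (PW w)).filter (fun b : ℕ =>
        IsCoprime (((∏ i, F i) * (C (N : ℤ) - G)).eval (b : ℤ)) (PW w : ℤ))).card : ℝ) / PW w) ≤ 1 := by
    rw [div_le_one hPr]
    have := card_filter_le (range (PW w)) (fun b : ℕ =>
        IsCoprime (((∏ i, F i) * (C (N : ℤ) - G)).eval (b : ℤ)) (PW w : ℤ))
    rw [card_range] at this
    exact_mod_cast this
  calc _ ≤ (PW w : ℝ) ^ (g + 1) * 1 :=
        mul_le_mul (pow_le_pow_left₀ (by positivity) h2 _) h3 (by positivity) (by positivity)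
    _ = _ := mul_one _

/-- the weighted sum of the counts in classes -/
noncomputable def FC2_T (F : Fin g → ℤ[X]) (q N₀ Y : ℕ) : ℝ :=
  ∑ n ∈ AF F Y, Lq q ((N₀ : ℤ) - n)

theorem FC2_T_eq (F : Fin g → ℤ[X]) (q N₀ Y : ℕ) (hq : 0 < q) :
    ∑ b ∈ range q, Lq q ((N₀ : ℤ) - b) * (cntF F q b Y : ℝ) = FC2_T F q N₀ Y := by
  unfold FC2_T
  rw [← sum_fiberwise_of_maps_to (s := AF F Y) (t := range q) (g := fun n => n % q)
    (fun n _ => mem_range.mpr (Nat.mod_lt _ hq))]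
  refine sum_congr rfl fun b hb => ?_
  rw [mem_range] at hb
  have h1 : ∀ n ∈ (AF F Y).filter (fun n => n % q = b), Lq q ((N₀ : ℤ) - n) =
      Lq q ((N₀ : ℤ) - b) := by
    intro n hn
    rw [mem_filter] at hn
    apply FC2_Lq_congr
    have h2 : ((N₀ : ℤ) - n) - ((N₀ : ℤ) - b) = -((n : ℤ) - b) := by ring
    rw [h2, dvd_neg]
    have h3 : n ≡ b [MOD q] := by
      rw [Nat.ModEq, hn.2, Nat.mod_eq_of_lt hb]
    exact (Nat.modEq_iff_dvd.mp h3.symm)
  rw [sum_congr rfl h1, sum_const, nsmul_eq_mul, mul_comm]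
  congr 3
  unfold cntF
  congr 1
  ext n
  simp only [mem_filter, Nat.ModEq, Nat.mod_eq_of_lt hb]

theorem FC2_card_AF (F : Fin g → ℤ[X]) (Y : ℕ) : (AF F Y).card ≤ Y := by
  classical
  have := card_filter_le (Icc 1 Y) (AllPrime F)
  rw [Nat.card_Icc, Nat.add_sub_cancel] at this
  unfold AF
  exact this

/-- window sums of the model -/
theorem FC2_win (F : Fin g → ℤ[X]) (w q N₀ a D Y : ℕ) (hq : q ∣ PW w) :
    |∑ N ∈ (Ioc a (a + D)).filter (fun N => N ≡ N₀ [MOD q]),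
      ∑ n ∈ AF F Y, Lw w ((N : ℤ) - n) - (D : ℝ) / q * FC2_T F q N₀ Y| ≤
        (PW w : ℝ) * PW w * Y := by
  have hP := PW_pos w
  have hPr : (0 : ℝ) < PW w := by exact_mod_cast hP
  have hq0 : 0 < q := Nat.pos_of_dvd_of_pos hq hP
  have hqr : (0 : ℝ) < q := by exact_mod_cast hq0
  rw [sum_comm]
  unfold FC2_T
  rw [mul_sum, ← sum_sub_distrib]
  refine (abs_sum_le_sum_abs _ _).trans ?_
  have h1 : ∀ n ∈ AF F Y, |∑ N ∈ (Ioc a (a + D)).filter (fun N => N ≡ N₀ [MOD q]),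
      Lw w ((N : ℤ) - n) - (D : ℝ) / q * Lq q ((N₀ : ℤ) - n)| ≤ (PW w : ℝ) * PW w := by
    intro n _
    have h2 := window (PW w) q N₀ a D hP hq (fun N : ℕ => Lw w ((N : ℤ) - n)) (PW w) (by
      intro N
      show Lq (PW w) _ = Lq (PW w) _
      apply FC2_Lq_congr
      have h3 : (((N % PW w : ℕ) : ℤ) - n) - ((N : ℤ) - n) = -((N : ℤ) - ((N % PW w : ℕ) : ℤ)) := by
        ring
      rw [h3, dvd_neg]
      exact (Nat.modEq_iff_dvd.mp (Nat.mod_modEq N (PW w)))) (by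
      intro N
      show |Lq (PW w) _| ≤ _
      rw [abs_of_nonneg (FC2_Lq_nonneg _ _)]
      exact FC2_Lq_le _ hP _)
    rw [Lw_avg w q N₀ hq n] at h2
    have h3 : (D : ℝ) / PW w * ((PW w : ℝ) / q * Lq q ((N₀ : ℤ) - n)) =
        (D : ℝ) / q * Lq q ((N₀ : ℤ) - n) := by
      field_simp
    rw [h3] at h2
    exact h2
  refine (sum_le_sum h1).trans ?_
  rw [sum_const, nsmul_eq_mul, mul_comm]
  apply mul_le_mul_of_nonneg_left _ (by positivity)
  exact_mod_cast FC2_card_AF F Y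

theorem FC2_up (F : Fin g → ℤ[X]) (w q N₀ D Y : ℕ) (hq : q ∣ PW w) :
    (D : ℝ) / q * FC2_T F q N₀ Y - (PW w : ℝ) * PW w * Y ≤
      ∑ N ∈ (Ioc Y (Y + D)).filter (fun N => N ≡ N₀ [MOD q]), Mw F X w N := by
  have h1 := abs_le.mp (FC2_win F w q N₀ Y D Y hq)
  have h2 : ∑ N ∈ (Ioc Y (Y + D)).filter (fun N => N ≡ N₀ [MOD q]),
      ∑ n ∈ AF F Y, Lw w ((N : ℤ) - n) ≤
      ∑ N ∈ (Ioc Y (Y + D)).filter (fun N => N ≡ N₀ [MOD q]), Mw F X w N := by
    refine sum_le_sum fun N hN => ?_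
    rw [mem_filter, mem_Ioc] at hN
    rw [FC2_Mw]
    apply sum_le_sum_of_subset_of_nonneg
    · intro n hn
      rw [FC2_mem_AF] at hn ⊢
      exact ⟨⟨hn.1.1, by omega⟩, hn.2⟩
    · intro n _ _
      exact FC2_Lq_nonneg _ _
  linarith [h1.1]

theorem FC2_low (F : Fin g → ℤ[X]) (w q N₀ D Y : ℕ) (hq : q ∣ PW w) (hD : D ≤ Y) :
    ∑ N ∈ (Ioc (Y - D) Y).filter (fun N => N ≡ N₀ [MOD q]), Mw F X w N ≤
      (D : ℝ) / q * FC2_T F q N₀ Y + (PW w : ℝ) * PW w * Y := by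
  have h1 := abs_le.mp (FC2_win F w q N₀ (Y - D) D Y hq)
  rw [Nat.sub_add_cancel hD] at h1
  have h2 : ∑ N ∈ (Ioc (Y - D) Y).filter (fun N => N ≡ N₀ [MOD q]), Mw F X w N ≤
      ∑ N ∈ (Ioc (Y - D) Y).filter (fun N => N ≡ N₀ [MOD q]),
      ∑ n ∈ AF F Y, Lw w ((N : ℤ) - n) := by
    refine sum_le_sum fun N hN => ?_
    rw [mem_filter, mem_Ioc] at hN
    rw [FC2_Mw]
    apply sum_le_sum_of_subset_of_nonneg
    · intro n hn
      rw [FC2_mem_AF] at hn ⊢
      exact ⟨⟨hn.1.1, by omega⟩, hn.2⟩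
    · intro n _ _
      exact FC2_Lq_nonneg _ _
  linarith [h1.2]


open scoped Classical in
/-- the main constant at level `w` -/
noncomputable def FC2_C (F : Fin g → ℤ[X]) (q N₀ w : ℕ) : ℝ :=
  ∑ b ∈ range q, Lq q ((N₀ : ℤ) - b) *
    (if IsCoprime ((∏ i, F i).eval (b : ℤ)) (q : ℤ) then bhTrunc F q w / q else 0)

theorem FC2_series_win (F : Fin g → ℤ[X]) (w q N₀ a D : ℕ) (hq : q ∣ PW w) :
    |∑ N ∈ (Ioc a (a + D)).filter (fun N => N ≡ N₀ [MOD q]), seriesTrunc F X N w -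
      (D : ℝ) / q * FC2_C F q N₀ w| ≤ (PW w : ℝ) * (PW w) ^ (g + 1) := by
  have hP := PW_pos w
  have hPr : (0 : ℝ) < PW w := by exact_mod_cast hP
  have hq0 : 0 < q := Nat.pos_of_dvd_of_pos hq hP
  have hqr : (0 : ℝ) < q := by exact_mod_cast hq0
  have h2 := window (PW w) q N₀ a D hP hq (fun N : ℕ => seriesTrunc F X N w)
    ((PW w : ℝ) ^ (g + 1)) (by
      intro N
      exact series_period F X _ _ w (Nat.mod_modEq N (PW w))) (by
      intro N
      rw [abs_of_nonneg (series_nonneg _ _ _ _)]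
      exact FC2_series_le _ _ _ _)
  rw [class_avg F w q N₀ hq] at h2
  have h3 : (D : ℝ) / PW w * ((PW w : ℝ) / q * FC2_C F q N₀ w) =
      (D : ℝ) / q * FC2_C F q N₀ w := by
    field_simp
  unfold FC2_C at h3 ⊢
  rw [h3] at h2
  exact h2

theorem FC2_dens_up (g Y D N : ℕ) (δ : ℝ) (hY : 3 ≤ Y) (hD : (D : ℝ) ≤ δ * Y)
    (hN : N ∈ Ioc Y (Y + D)) : dens X g N ≤ (1 + δ) * ((Y : ℝ) / (Real.log Y) ^ g) := by
  rw [mem_Ioc] at hN
  unfold dens
  rw [FC2_argCount]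
  have hY3 : (3 : ℝ) ≤ Y := by exact_mod_cast hY
  have h1 : (Y : ℝ) ≤ ((N - 1 : ℕ) : ℝ) := by
    have : Y ≤ N - 1 := by omega
    exact_mod_cast this
  have h2 : ((N - 1 : ℕ) : ℝ) ≤ (1 + δ) * Y := by
    have : N - 1 ≤ Y + D := by omega
    have h3 : ((N - 1 : ℕ) : ℝ) ≤ (Y : ℝ) + D := by exact_mod_cast this
    linarith
  have hl : 0 < Real.log Y := Real.log_pos (by linarith)
  have h4 : Real.log Y ≤ Real.log ((N - 1 : ℕ) : ℝ) := Real.log_le_log (by linarith) h1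
  calc ((N - 1 : ℕ) : ℝ) / (Real.log ((N - 1 : ℕ) : ℝ)) ^ g ≤
      ((1 + δ) * Y) / (Real.log Y) ^ g :=
        div_le_div₀ (by linarith) h2 (by positivity) (pow_le_pow_left₀ hl.le h4 g)
    _ = _ := by rw [mul_div_assoc]

theorem FC2_dens_low (g Y D N : ℕ) (δ : ℝ) (hY : 3 ≤ Y - D) (hD : (D : ℝ) ≤ δ * Y) (hδ : δ ≤ 1)
    (hN : N ∈ Ioc (Y - D) Y) : (1 - δ) * ((Y : ℝ) / (Real.log Y) ^ g) ≤ dens X g N := by
  rw [mem_Ioc] at hN
  unfold dens
  rw [FC2_argCount]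
  have hN3 : 3 ≤ N - 1 := by omega
  have hN3r : (3 : ℝ) ≤ ((N - 1 : ℕ) : ℝ) := by exact_mod_cast hN3
  have h1 : ((N - 1 : ℕ) : ℝ) ≤ (Y : ℝ) := by
    have : N - 1 ≤ Y := by omega
    exact_mod_cast this
  have h2 : (1 - δ) * Y ≤ ((N - 1 : ℕ) : ℝ) := by
    have : Y ≤ N - 1 + D := by omega
    have h3 : (Y : ℝ) ≤ ((N - 1 : ℕ) : ℝ) + D := by exact_mod_cast this
    linarith
  have hl : 0 < Real.log ((N - 1 : ℕ) : ℝ) := Real.log_pos (by linarith)
  have h4 : Real.log ((N - 1 : ℕ) : ℝ) ≤ Real.log Y := Real.log_le_log (by linarith) h1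
  have hl2 : 0 < Real.log Y := by linarith
  calc (1 - δ) * ((Y : ℝ) / (Real.log Y) ^ g) = ((1 - δ) * Y) / (Real.log Y) ^ g := by
        rw [mul_div_assoc]
    _ ≤ ((N - 1 : ℕ) : ℝ) / (Real.log Y) ^ g := by
        exact div_le_div_of_nonneg_right h2 (by positivity)
    _ ≤ _ := by
        apply div_le_div_of_nonneg_left (by linarith) (by positivity)
        exact pow_le_pow_left₀ hl.le h4 g

/-- comparison of the windows with the total error -/
theorem FC2_cmp (F : Fin g → ℤ[X]) (w Z : ℕ) (W : Finset ℕ) (hW : W ⊆ Icc 1 Z) :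
    |∑ N ∈ W, Mw F X w N - ∑ N ∈ W, dens X g N / (∏ i, ((F i).natDegree : ℝ)) *
      seriesTrunc F X N w| ≤
      ∑ N ∈ Icc 1 Z, |Mw F X w N - dens X g N / (∏ i, ((F i).natDegree : ℝ)) *
      seriesTrunc F X N w| := by
  rw [← sum_sub_distrib]
  refine (abs_sum_le_sum_abs _ _).trans ?_
  exact sum_le_sum_of_subset_of_nonneg hW fun _ _ _ => abs_nonneg _

theorem FC2_real (a t c d Dg e₁ e₂ E δ : ℝ) (ha : 0 < a) (hd : 0 < d) (hDg : 1 ≤ Dg) (hδ : 0 ≤ δ)
    (hδ1 : δ ≤ 1) (hc : 0 ≤ c) (he₁ : 0 ≤ e₁)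
    (h1 : a * t - e₂ ≤ (1 + δ) * d / Dg * (a * c + e₁) + E)
    (h2 : (1 - δ) * d / Dg * (a * c - e₁) - E ≤ a * t + e₂) :
    |t / d - c / Dg| ≤ δ * c + 2 * e₁ / a + E / (a * d) + e₂ / (a * d) := by
  have hDg0 : 0 < Dg := by linarith
  have h3 : c / Dg ≤ c := div_le_self hc hDg
  have h4 : e₁ / Dg ≤ e₁ := div_le_self he₁ hDg
  rw [abs_le]
  have key : ∀ x : ℝ, x / (a * d) * (a * d) = x := fun x => div_mul_cancel₀ _ (by positivity)
  have had : 0 < a * d := by positivity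
  have h3' : δ * (c / Dg) ≤ δ * c := mul_le_mul_of_nonneg_left h3 hδ
  constructor
  · have h5 : (1 - δ) * (c / Dg) - (1 - δ) * (e₁ / Dg) / a - E / (a * d) - e₂ / (a * d) ≤ t / d := by
      rw [← sub_nonneg]
      have : t / d - ((1 - δ) * (c / Dg) - (1 - δ) * (e₁ / Dg) / a - E / (a * d) - e₂ / (a * d)) =
        ((a * t + e₂) - ((1 - δ) * d / Dg * (a * c - e₁) - E)) / (a * d) := by
        field_simp
        ring
      rw [this]
      apply div_nonneg _ had.le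
      linarith
    have h6 : (1 - δ) * (e₁ / Dg) / a ≤ 2 * e₁ / a := by
      apply div_le_div_of_nonneg_right _ ha.le
      have : 0 ≤ e₁ / Dg := by positivity
      nlinarith
    have h7 : (1 - δ) * (c / Dg) = c / Dg - δ * (c / Dg) := by ring
    linarith
  · have h5 : t / d ≤ (1 + δ) * (c / Dg) + (1 + δ) * (e₁ / Dg) / a + E / (a * d) + e₂ / (a * d) := by
      rw [← sub_nonneg]
      have : (1 + δ) * (c / Dg) + (1 + δ) * (e₁ / Dg) / a + E / (a * d) + e₂ / (a * d) - t / d =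
        (((1 + δ) * d / Dg * (a * c + e₁) + E) - (a * t - e₂)) / (a * d) := by
        field_simp
        ring
      rw [this]
      apply div_nonneg _ had.le
      linarith
    have h6 : (1 + δ) * (e₁ / Dg) / a ≤ 2 * e₁ / a := by
      apply div_le_div_of_nonneg_right _ ha.le
      have : 0 ≤ e₁ / Dg := by positivity
      nlinarith
    have h7 : (1 + δ) * (c / Dg) = c / Dg + δ * (c / Dg) := by ring
    linarith

theorem FC2_deg (F : Fin g → ℤ[X]) (hF : Sys F) : (1 : ℝ) ≤ ∏ i, ((F i).natDegree : ℝ) := by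
  have h : 0 < ∏ i, (F i).natDegree := Finset.prod_pos fun i _ => hF.deg i
  have h' : 1 ≤ ∏ i, (F i).natDegree := h
  exact_mod_cast h'

theorem FC2_C_nonneg (F : Fin g → ℤ[X]) (hN : NoFix F) (q N₀ w : ℕ) : 0 ≤ FC2_C F q N₀ w := by
  unfold FC2_C
  refine sum_nonneg fun b _ => mul_nonneg (FC2_Lq_nonneg _ _) ?_
  split_ifs
  · apply div_nonneg _ (by positivity)
    unfold bhTrunc
    refine prod_nonneg fun p hp => ?_
    have hp' := Nat.prime_of_mem_primesBelow hp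
    have hp2 : (2 : ℝ) ≤ p := by exact_mod_cast hp'.two_le
    have h1 : 0 ≤ 1 - 1 / (p : ℝ) := by
      rw [sub_nonneg, div_le_one (by linarith)]
      linarith
    apply mul_nonneg _ (by positivity)
    split_ifs
    · exact zero_le_one
    · rw [sub_nonneg, div_le_one (by linarith)]
      exact_mod_cast (wF_lt F hN p hp').le
  · exact le_rfl

/-- the finite inequality -/
theorem FC2_ineq (F : Fin g → ℤ[X]) (hF : Sys F) (hN : NoFix F) (w q N₀ D Y : ℕ) (δ : ℝ)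
    (hq : q ∣ PW w) (hD1 : 1 ≤ D) (hD : (D : ℝ) ≤ δ * Y) (hδ1 : δ ≤ 1) (hDY : 3 ≤ Y - D) :
    |FC2_T F q N₀ Y / ((Y : ℝ) / (Real.log Y) ^ g) -
      FC2_C F q N₀ w / (∏ i, ((F i).natDegree : ℝ))| ≤
      δ * FC2_C F q N₀ w + 2 * ((PW w : ℝ) * (PW w) ^ (g + 1)) / ((D : ℝ) / q) +
      (∑ N ∈ Icc 1 (2 * Y), |Mw F X w N - dens X g N / (∏ i, ((F i).natDegree : ℝ)) *
        seriesTrunc F X N w|) / ((D : ℝ) / q * ((Y : ℝ) / (Real.log Y) ^ g)) +
      ((PW w : ℝ) * PW w * Y) / ((D : ℝ) / q * ((Y : ℝ) / (Real.log Y) ^ g)) := by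
  have hP := PW_pos w
  have hPr : (0 : ℝ) < PW w := by exact_mod_cast hP
  have hq0 : 0 < q := Nat.pos_of_dvd_of_pos hq hP
  have hqr : (0 : ℝ) < q := by exact_mod_cast hq0
  have hDr : (1 : ℝ) ≤ D := by exact_mod_cast hD1
  have hY3 : 3 ≤ Y := by omega
  have hY3r : (3 : ℝ) ≤ Y := by exact_mod_cast hY3
  have hlY : 0 < Real.log Y := Real.log_pos (by linarith)
  have hd : 0 < (Y : ℝ) / (Real.log Y) ^ g := by positivity
  have hδ0 : 0 ≤ δ := by
    by_contra hc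
    push Not at hc
    nlinarith
  have hDg := FC2_deg F hF
  have hDg0 : 0 < ∏ i, ((F i).natDegree : ℝ) := by linarith
  have hC := FC2_C_nonneg F hN q N₀ w
  refine FC2_real _ _ _ _ _ _ _ _ _ (by positivity) hd hDg hδ0 hδ1 hC (by positivity) ?_ ?_
  · have h1 := FC2_up F w q N₀ D Y hq
    have hW : (Ioc Y (Y + D)).filter (fun N => N ≡ N₀ [MOD q]) ⊆ Icc 1 (2 * Y) := by
      intro N hN'
      rw [mem_filter, mem_Ioc] at hN'
      rw [mem_Icc]
      omega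
    have h2 := (abs_le.mp (FC2_cmp F w (2 * Y) _ hW)).2
    have h3 := (abs_le.mp (FC2_series_win F w q N₀ Y D hq)).2
    have h4 : ∑ N ∈ (Ioc Y (Y + D)).filter (fun N => N ≡ N₀ [MOD q]),
        dens X g N / (∏ i, ((F i).natDegree : ℝ)) * seriesTrunc F X N w ≤
        (1 + δ) * ((Y : ℝ) / (Real.log Y) ^ g) / (∏ i, ((F i).natDegree : ℝ)) *
        ∑ N ∈ (Ioc Y (Y + D)).filter (fun N => N ≡ N₀ [MOD q]), seriesTrunc F X N w := by
      rw [mul_sum]
      refine sum_le_sum fun N hN' => ?_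
      rw [mem_filter] at hN'
      apply mul_le_mul_of_nonneg_right _ (series_nonneg _ _ _ _)
      apply div_le_div_of_nonneg_right _ hDg0.le
      exact FC2_dens_up g Y D N δ hY3 hD hN'.1
    have h5 : (1 + δ) * ((Y : ℝ) / (Real.log Y) ^ g) / (∏ i, ((F i).natDegree : ℝ)) *
        ∑ N ∈ (Ioc Y (Y + D)).filter (fun N => N ≡ N₀ [MOD q]), seriesTrunc F X N w ≤
        (1 + δ) * ((Y : ℝ) / (Real.log Y) ^ g) / (∏ i, ((F i).natDegree : ℝ)) *
        ((D : ℝ) / q * FC2_C F q N₀ w + (PW w : ℝ) * (PW w) ^ (g + 1)) := by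
      apply mul_le_mul_of_nonneg_left _ (by positivity)
      linarith
    linarith
  · have hDY' : D ≤ Y := by omega
    have h1 := FC2_low F w q N₀ D Y hq hDY'
    have hW : (Ioc (Y - D) Y).filter (fun N => N ≡ N₀ [MOD q]) ⊆ Icc 1 (2 * Y) := by
      intro N hN'
      rw [mem_filter, mem_Ioc] at hN'
      rw [mem_Icc]
      omega
    have h2 := (abs_le.mp (FC2_cmp F w (2 * Y) _ hW)).1
    have h3 := (abs_le.mp (FC2_series_win F w q N₀ (Y - D) D hq)).1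
    rw [Nat.sub_add_cancel hDY'] at h3
    have h4 : (1 - δ) * ((Y : ℝ) / (Real.log Y) ^ g) / (∏ i, ((F i).natDegree : ℝ)) *
        ∑ N ∈ (Ioc (Y - D) Y).filter (fun N => N ≡ N₀ [MOD q]), seriesTrunc F X N w ≤
        ∑ N ∈ (Ioc (Y - D) Y).filter (fun N => N ≡ N₀ [MOD q]),
        dens X g N / (∏ i, ((F i).natDegree : ℝ)) * seriesTrunc F X N w := by
      rw [mul_sum]
      refine sum_le_sum fun N hN' => ?_
      rw [mem_filter] at hN'
      apply mul_le_mul_of_nonneg_right _ (series_nonneg _ _ _ _)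
      apply div_le_div_of_nonneg_right _ hDg0.le
      exact FC2_dens_low g Y D N δ hDY hD hδ1 hN'.1
    have h5 : (1 - δ) * ((Y : ℝ) / (Real.log Y) ^ g) / (∏ i, ((F i).natDegree : ℝ)) *
        ((D : ℝ) / q * FC2_C F q N₀ w - (PW w : ℝ) * (PW w) ^ (g + 1)) ≤
        (1 - δ) * ((Y : ℝ) / (Real.log Y) ^ g) / (∏ i, ((F i).natDegree : ℝ)) *
        ∑ N ∈ (Ioc (Y - D) Y).filter (fun N => N ≡ N₀ [MOD q]), seriesTrunc F X N w := by
      apply mul_le_mul_of_nonneg_left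
      · linarith
      · have : 0 ≤ 1 - δ := by linarith
        positivity
    linarith


theorem FC2_d_tendsto (g : ℕ) :
    Tendsto (fun Y : ℕ => (Y : ℝ) / (Real.log Y) ^ g) atTop atTop := by
  have h1 : Tendsto (fun x : ℝ => (Real.log x) ^ g / x) atTop (𝓝 0) := by
    have := (Real.isLittleO_pow_log_id_atTop (n := g)).tendsto_div_nhds_zero
    exact this
  have h2 : ∀ᶠ x : ℝ in atTop, 0 < (Real.log x) ^ g / x := by
    filter_upwards [eventually_gt_atTop (1 : ℝ)] with x hx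
    have := Real.log_pos hx
    positivity
  have h3 : Tendsto (fun x : ℝ => (Real.log x) ^ g / x) atTop (𝓝[>] 0) :=
    tendsto_nhdsWithin_iff.mpr ⟨h1, h2⟩
  have h4 := h3.inv_tendsto_nhdsGT_zero
  have h5 := h4.comp (tendsto_natCast_atTop_atTop (R := ℝ))
  refine h5.congr fun Y => ?_
  simp only [Function.comp, Pi.inv_apply, inv_div]

open scoped Classical in
theorem FC2_C_tendsto (F : Fin g → ℤ[X]) (hF : Sys F) (hN : NoFix F) (q N₀ : ℕ) (hq : q ≠ 0) :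
    Tendsto (fun w : ℕ => FC2_C F q N₀ w / (∏ i, ((F i).natDegree : ℝ))) atTop
      (𝓝 (∑ b ∈ range q, Lq q ((N₀ : ℤ) - b) *
        (if IsCoprime ((∏ i, F i).eval (b : ℤ)) (q : ℤ) then
          bhConst F q / (q * ∏ i, ((F i).natDegree : ℝ)) else 0))) := by
  have h1 := (bh_conv F hF hN q hq).1
  have h2 : ∀ w : ℕ, FC2_C F q N₀ w / (∏ i, ((F i).natDegree : ℝ)) =
      ∑ b ∈ range q, Lq q ((N₀ : ℤ) - b) *
        (if IsCoprime ((∏ i, F i).eval (b : ℤ)) (q : ℤ) then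
          bhTrunc F q w / (q * ∏ i, ((F i).natDegree : ℝ)) else 0) := by
    intro w
    unfold FC2_C
    rw [sum_div]
    refine sum_congr rfl fun b _ => ?_
    split_ifs
    · rw [mul_div_assoc, div_div]
    · simp
  simp_rw [h2]
  refine tendsto_finsetSum _ fun b _ => ?_
  refine Tendsto.const_mul _ ?_
  split_ifs
  · exact h1.div_const _
  · exact tendsto_const_nhds

theorem FC2_PW_dvd (q : ℕ) (hq : Squarefree q) : ∃ w₀ : ℕ, ∀ w : ℕ, w₀ ≤ w → q ∣ PW w := by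
  refine ⟨q + 1, fun w hw => ?_⟩
  rw [← Nat.prod_primeFactors_of_squarefree hq]
  unfold PW
  apply Finset.prod_dvd_prod_of_subset
  intro p hp
  rw [Nat.mem_primesBelow]
  have hp' := Nat.prime_of_mem_primeFactors hp
  have hpq := Nat.dvd_of_mem_primeFactors hp
  have : p ≤ q := Nat.le_of_dvd (Nat.pos_of_ne_zero hq.ne_zero) hpq
  exact ⟨by omega, hp'⟩

open scoped Classical in
/-- Let `q ∣ P = PW w`, `A(Y) = AF F Y`, `T(Y) = ∑_b Lq(N₀ - b) cntF F q b Y = ∑_{n ∈ A(Y)} Lq(N₀ - n)`, `D = ⌊δ Y⌋`.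
Upper bound: for `Y < N ≤ Y + D` all `n ∈ A(Y)` have `n < N`, so `Mw F X w N ≥ ∑_{n ∈ A(Y)} Lw(N - n)`; summing
over the `N ≡ N₀ (q)` in this window, `window` and `Lw_avg` give
`∑_N Mw ≥ (D/q) T(Y) - B_w #A(Y)`. Lower bound: for `Y - D < N ≤ Y`,
`Mw F X w N = ∑_{n ∈ A(Y), n < N} Lw(N - n)`, so (a window `(max(n, Y-D), Y]` of length `≤ D`)
`∑_N Mw ≤ (D/q) T(Y) + B_w #A(Y)`. By `model_close` (with `ε` tiny in terms of `δ, q`, at `2Y` resp. `Y`) both
sums are `∑_N (dens(N)/∏ deg) S_w(N) + O(ε Y dens(Y))`, where `dens(N) = (1 + O(δ)) dens(Y) = (1 + O(δ)) Y/log^g Y`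
in the windows, and by `window`, `class_avg`, `∑_N S_w(N) = (D/q) ∑_b Lq(N₀ - b) c_{b,w} + O_w(1)` with
`c_{b,w} = bhTrunc F q w/q` or `0`. Dividing by `(D/q) Y/log^g Y`:
`|T(Y) log^g Y/Y - ∑_b Lq(N₀-b) c_{b,w}/∏ deg| ≤ C_q (δ + ε/δ + o(1))`, and `bhTrunc F q w → bhConst F q`
(`bh_conv`). First `δ → 0`, then `ε → 0`. -/
theorem class_conv (F : Fin g → ℤ[X]) (hF : Sys F) (hN : NoFix F) (h : AlmostAll F X) (q : ℕ)
    (hq : Squarefree q) (N₀ : ℕ) :
    Tendsto (fun Y : ℕ => ∑ b ∈ range q, Lq q ((N₀ : ℤ) - b) *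
      ((cntF F q b Y : ℝ) * (Real.log Y) ^ g / Y -
        (if IsCoprime ((∏ i, F i).eval (b : ℤ)) (q : ℤ) then
          bhConst F q / (q * ∏ i, ((F i).natDegree : ℝ)) else 0))) atTop (𝓝 0) := by
  have hq0 : 0 < q := Nat.pos_of_ne_zero hq.ne_zero
  have hqr : (0 : ℝ) < q := by exact_mod_cast hq0
  have hqr1 : (1 : ℝ) ≤ q := by exact_mod_cast hq0
  have hDg := FC2_deg F hF
  set Dg : ℝ := ∏ i, ((F i).natDegree : ℝ) with hDgd
  have hDg0 : 0 < Dg := by linarith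
  set ci : ℝ := ∑ b ∈ range q, Lq q ((N₀ : ℤ) - b) *
        (if IsCoprime ((∏ i, F i).eval (b : ℤ)) (q : ℤ) then
          bhConst F q / (q * Dg) else 0) with hc
  have hCt := FC2_C_tendsto F hF hN q N₀ hq.ne_zero
  rw [← hDgd, ← hc] at hCt
  have hc0 : 0 ≤ ci := ge_of_tendsto' hCt fun w =>
    div_nonneg (FC2_C_nonneg F hN q N₀ w) hDg0.le
  have hfun : ∀ Y : ℕ, ∑ b ∈ range q, Lq q ((N₀ : ℤ) - b) *
      ((cntF F q b Y : ℝ) * (Real.log Y) ^ g / Y -
        (if IsCoprime ((∏ i, F i).eval (b : ℤ)) (q : ℤ) then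
          bhConst F q / (q * Dg) else 0)) =
      FC2_T F q N₀ Y / ((Y : ℝ) / (Real.log Y) ^ g) - ci := by
    intro Y
    rw [← FC2_T_eq F q N₀ Y hq0, sum_div, hc, ← sum_sub_distrib]
    refine sum_congr rfl fun b _ => ?_
    rw [mul_sub]
    congr 1
    rw [div_div_eq_mul_div]
    ring
  simp_rw [hfun]
  rw [Metric.tendsto_atTop]
  intro η hη
  -- parameters
  set δ : ℝ := min (1 / 2) (η / (16 * (Dg * (ci + 1)))) with hδ
  have hδ0 : 0 < δ := by
    rw [hδ]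
    have : 0 < Dg * (ci + 1) := by positivity
    positivity
  have hδ2 : δ ≤ 1 / 2 := min_le_left _ _
  have hδ3 : δ * (Dg * (ci + 1)) ≤ η / 16 := by
    have h1 : δ ≤ η / (16 * (Dg * (ci + 1))) := min_le_right _ _
    have h2 : 0 < Dg * (ci + 1) := by positivity
    calc δ * (Dg * (ci + 1)) ≤ η / (16 * (Dg * (ci + 1))) * (Dg * (ci + 1)) :=
          mul_le_mul_of_nonneg_right h1 h2.le
      _ = η / 16 := by field_simp
  set ε : ℝ := η * δ / (128 * q) with hε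
  have hε0 : 0 < ε := by positivity
  obtain ⟨w₁, hw₁⟩ := model_close F hF hN h ε hε0
  obtain ⟨w₂, hw₂⟩ := FC2_PW_dvd q hq
  obtain ⟨w₃, hw₃⟩ := Metric.tendsto_atTop.mp hCt (min (η / 8) 1) (by positivity)
  set w := max w₁ (max w₂ w₃) with hw
  obtain ⟨Y₁, hY₁⟩ := hw₁ w (le_max_left _ _)
  have hqw : q ∣ PW w := hw₂ w ((le_max_left _ _).trans (le_max_right _ _))
  have hCw := hw₃ w ((le_max_right _ _).trans (le_max_right _ _))
  rw [Real.dist_eq] at hCw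
  have hCw1 : |FC2_C F q N₀ w / Dg - ci| < η / 8 := hCw.trans_le (min_le_left _ _)
  have hCw2 : FC2_C F q N₀ w ≤ Dg * (ci + 1) := by
    have h1 : |FC2_C F q N₀ w / Dg - ci| < 1 := hCw.trans_le (min_le_right _ _)
    have h2 : FC2_C F q N₀ w / Dg ≤ ci + 1 := by linarith [(abs_lt.mp h1).2]
    rw [div_le_iff₀ hDg0] at h2
    linarith
  set P : ℝ := (PW w : ℝ) with hP
  have hPpos : 0 < P := by
    rw [hP]; exact_mod_cast PW_pos w
  -- large `Y`
  have hd := FC2_d_tendsto g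
  have ev1 := hd.eventually_ge_atTop (64 * P * P * q / (δ * η))
  have ev2 : ∀ᶠ Y : ℕ in atTop, (64 * (P * P ^ (g + 1)) * q / (δ * η)) ≤ (Y : ℝ) :=
    tendsto_natCast_atTop_atTop.eventually_ge_atTop _
  have ev3 : ∀ᶠ Y : ℕ in atTop, (2 / δ) ≤ (Y : ℝ) :=
    tendsto_natCast_atTop_atTop.eventually_ge_atTop _
  obtain ⟨Y₂, hY₂⟩ := eventually_atTop.1 (ev1.and (ev2.and ev3))
  refine ⟨max Y₁ (max Y₂ 8), fun Y hY => ?_⟩
  obtain ⟨b1, b2, b3⟩ := hY₂ Y (((le_max_left _ _).trans (le_max_right _ _)).trans hY)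
  have hY8 : 8 ≤ Y := ((le_max_right _ _).trans (le_max_right _ _)).trans hY
  have hY8r : (8 : ℝ) ≤ Y := by exact_mod_cast hY8
  have hYY : Y₁ ≤ 2 * Y := ((le_max_left _ _).trans hY).trans (by omega)
  have hlY : 0 < Real.log Y := Real.log_pos (by linarith)
  set d : ℝ := (Y : ℝ) / (Real.log Y) ^ g with hdd
  have hd0 : 0 < d := by positivity
  set D : ℕ := ⌊δ * Y⌋₊ with hD
  have hDle : (D : ℝ) ≤ δ * Y := Nat.floor_le (by positivity)
  have hδY : 2 ≤ δ * Y := by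
    rw [div_le_iff₀ hδ0] at b3
    linarith
  have hDge : δ * Y / 2 ≤ (D : ℝ) := by
    have := Nat.lt_floor_add_one (δ * Y)
    rw [← hD] at this
    linarith
  have hD1 : 1 ≤ D := by
    have : (1 : ℝ) ≤ D := by linarith
    exact_mod_cast this
  have hDY : 3 ≤ Y - D := by
    have h1 : (D : ℝ) ≤ Y / 2 := hDle.trans (by nlinarith)
    have h2 : ((2 * D : ℕ) : ℝ) ≤ (Y : ℕ) := by push_cast; linarith
    have h3 : 2 * D ≤ Y := by exact_mod_cast h2
    omega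
  have hD0 : (0 : ℝ) < D := by exact_mod_cast hD1
  have hineq := FC2_ineq F hF hN w q N₀ D Y δ hqw hD1 hDle (by linarith) hDY
  rw [← hDgd, ← hdd, ← hP] at hineq
  have hmod := hY₁ (2 * Y) hYY
  rw [← hDgd] at hmod
  -- the density at `2 Y`
  have hdens : dens X g (2 * Y) ≤ 2 * d := by
    unfold dens
    rw [FC2_argCount, hdd]
    have h1 : (Y : ℝ) ≤ ((2 * Y - 1 : ℕ) : ℝ) := by
      have : Y ≤ 2 * Y - 1 := by omega
      exact_mod_cast this
    have h2 : ((2 * Y - 1 : ℕ) : ℝ) ≤ 2 * Y := by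
      have : 2 * Y - 1 ≤ 2 * Y := by omega
      exact_mod_cast this
    have h4 : Real.log Y ≤ Real.log ((2 * Y - 1 : ℕ) : ℝ) := Real.log_le_log (by linarith) h1
    calc ((2 * Y - 1 : ℕ) : ℝ) / (Real.log ((2 * Y - 1 : ℕ) : ℝ)) ^ g ≤
        (2 * Y) / (Real.log Y) ^ g :=
          div_le_div₀ (by linarith) h2 (by positivity) (pow_le_pow_left₀ hlY.le h4 g)
      _ = _ := by rw [mul_div_assoc]
  have hE : (∑ N ∈ Icc 1 (2 * Y), |Mw F X w N - dens X g N / Dg *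
        seriesTrunc F X N w|) ≤ 4 * ε * Y * d := by
    refine hmod.trans ?_
    push_cast
    have : ε * (2 * Y) * dens X g (2 * Y) ≤ ε * (2 * Y) * (2 * d) :=
      mul_le_mul_of_nonneg_left hdens (by positivity)
    linarith
  -- the four terms
  have t1 : δ * FC2_C F q N₀ w ≤ η / 16 :=
    (mul_le_mul_of_nonneg_left hCw2 hδ0.le).trans hδ3
  have hDq : δ * Y / (2 * q) ≤ (D : ℝ) / q := by
    rw [div_le_div_iff₀ (by positivity) hqr]
    nlinarith
  have hDq0 : 0 < δ * Y / (2 * q) := by positivity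
  have t2 : 2 * (P * P ^ (g + 1)) / ((D : ℝ) / q) ≤ η / 16 := by
    calc 2 * (P * P ^ (g + 1)) / ((D : ℝ) / q) ≤ 2 * (P * P ^ (g + 1)) / (δ * Y / (2 * q)) :=
          div_le_div_of_nonneg_left (by positivity) hDq0 hDq
      _ ≤ η / 16 := by
          rw [div_le_iff₀ hDq0]
          rw [div_le_iff₀ (by positivity)] at b2
          have e1 : η / 16 * (δ * Y / (2 * q)) = (Y * (δ * η)) / (32 * q) := by
            field_simp; ring
          rw [e1, le_div_iff₀ (by positivity)]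
          linarith
  have t3 : (∑ N ∈ Icc 1 (2 * Y), |Mw F X w N - dens X g N / Dg *
        seriesTrunc F X N w|) / ((D : ℝ) / q * d) ≤ η / 16 := by
    calc _ ≤ (4 * ε * Y * d) / ((D : ℝ) / q * d) :=
          div_le_div_of_nonneg_right hE (by positivity)
      _ ≤ (4 * ε * Y * d) / (δ * Y / (2 * q) * d) :=
          div_le_div_of_nonneg_left (by positivity) (by positivity)
            (mul_le_mul_of_nonneg_right hDq hd0.le)
      _ = 8 * ε * q / δ := by field_simp; ring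
      _ = η / 16 := by rw [hε]; field_simp; ring
  have t4 : (P * P * Y) / ((D : ℝ) / q * d) ≤ η / 16 := by
    calc _ ≤ (P * P * Y) / (δ * Y / (2 * q) * d) :=
          div_le_div_of_nonneg_left (by positivity) (by positivity)
            (mul_le_mul_of_nonneg_right hDq hd0.le)
      _ = (2 * P * P * q / δ) / d := by
          have : (Y : ℝ) ≠ 0 := by positivity
          field_simp
      _ ≤ η / 16 := by
          rw [div_le_iff₀ hd0]
          rw [div_le_iff₀ (by positivity)] at b1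
          rw [div_le_iff₀ hδ0]
          nlinarith
  rw [Real.dist_eq, sub_zero]
  calc |FC2_T F q N₀ Y / d - ci| ≤ |FC2_T F q N₀ Y / d - FC2_C F q N₀ w / Dg| +
        |FC2_C F q N₀ w / Dg - ci| := abs_sub_le _ _ _
    _ ≤ (η / 16 + η / 16 + η / 16 + η / 16) + η / 8 := by
        apply add_le_add _ hCw1.le
        linarith
    _ < η := by linarith

theorem FC2_mod_cnt (F : Fin g → ℤ[X]) (q b Y : ℕ) : cntF F q (b % q) Y = cntF F q b Y := by
  unfold cntF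
  congr 1
  ext n
  rw [mem_filter, mem_filter]
  simp only [Nat.ModEq, Nat.mod_mod]

theorem FC2_mod_cop (f : ℤ[X]) (q b : ℕ) (h : IsCoprime (f.eval (b : ℤ)) (q : ℤ)) :
    IsCoprime (f.eval ((b % q : ℕ) : ℤ)) (q : ℤ) := by
  have h1 : ((b % q : ℕ) : ℤ) - (b : ℤ) ∣ f.eval ((b % q : ℕ) : ℤ) - f.eval (b : ℤ) :=
    sub_dvd_eval_sub _ _ _
  have h2 : (q : ℤ) ∣ ((b % q : ℕ) : ℤ) - (b : ℤ) :=
    (Nat.modEq_iff_dvd.mp (Nat.mod_modEq b q).symm)
  obtain ⟨k, hk⟩ := h2.trans h1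
  have h3 : f.eval ((b % q : ℕ) : ℤ) = f.eval (b : ℤ) + k * q := by linarith
  rw [h3]
  exact h.add_mul_right_left k

/-- `class_conv` for all `N₀ < q` and `inv_bound`; `cntF F q b = cntF F q (b % q)`. -/
theorem bh_of_aa (F : Fin g → ℤ[X]) (hF : Sys F) (hN : NoFix F) (h : AlmostAll F X) (q : ℕ)
    (hq : Squarefree q) : BHClass F q := by
  classical
  have hq0 : 0 < q := Nat.pos_of_ne_zero hq.ne_zero
  intro b hb
  obtain ⟨K, hK, hinv⟩ := inv_bound q hq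
  have hb' := FC2_mod_cop _ q b hb
  have hbq : b % q ∈ range q := mem_range.mpr (Nat.mod_lt _ hq0)
  rw [Metric.tendsto_atTop]
  intro η hη
  have h1 : ∀ N₀ ∈ range q, ∀ᶠ Y : ℕ in atTop, |∑ b ∈ range q, Lq q ((N₀ : ℤ) - b) *
      ((cntF F q b Y : ℝ) * (Real.log Y) ^ g / Y -
        (if IsCoprime ((∏ i, F i).eval (b : ℤ)) (q : ℤ) then
          bhConst F q / (q * ∏ i, ((F i).natDegree : ℝ)) else 0))| ≤ η / (2 * K) := by
    intro N₀ _
    have h2 := (class_conv F hF hN h q hq N₀).abs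
    rw [abs_zero] at h2
    exact h2.eventually_le_const (by positivity)
  have h3 := (eventually_all_finset (range q)).mpr h1
  obtain ⟨Y₀, hY₀⟩ := eventually_atTop.1 h3
  refine ⟨Y₀, fun Y hY => ?_⟩
  have h4 := hinv (fun b : ℕ => (cntF F q b Y : ℝ) * (Real.log Y) ^ g / Y -
        (if IsCoprime ((∏ i, F i).eval (b : ℤ)) (q : ℤ) then
          bhConst F q / (q * ∏ i, ((F i).natDegree : ℝ)) else 0)) (η / (2 * K))
        (fun N₀ hN₀ => hY₀ Y hY N₀ hN₀) (b % q) hbq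
  simp only [if_pos hb', FC2_mod_cnt] at h4
  rw [Real.dist_eq]
  have h5 : K * (η / (2 * K)) = η / 2 := by field_simp
  rw [h5] at h4
  linarith

end Pool.Agent.Lib.H33B
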