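import Pool.Agent.Lib.H33B.Defs
import Pool.Agent.Lib.H68T.CQ2
import Pool.Agent.Lib.H68T.CG1

/-!
# Chunk LS1: the Ramanujan expansion of the periodic model
-/

open Finset

namespace Pool.Agent.Lib.H33B

open Pool.Agent.Lib.H68T (cq)

theorem PW_squarefree (w : ℕ) : Squarefree (PW w) := by
  unfold PW
  refine Finset.squarefree_prod_of_pairwise_isCoprime (fun p hp q hq hpq => ?_)
    (fun p hp => (Nat.prime_of_mem_primesBelow hp).prime.squarefree)
  simp only [Function.onFun, ← Nat.coprime_iff_isRelPrime]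
  exact (Nat.coprime_primes (Nat.prime_of_mem_primesBelow hp)
    (Nat.prime_of_mem_primesBelow hq)).mpr hpq

theorem PW_pos (w : ℕ) : 0 < PW w := Nat.pos_of_ne_zero (PW_squarefree w).ne_zero

theorem prime_dvd_PW (w p : ℕ) (hp : p.Prime) : p ∣ PW w ↔ p < w := by
  unfold PW
  rw [hp.prime.dvd_finsetProd_iff]
  constructor
  · rintro ⟨a, ha, hpa⟩
    rw [Nat.mem_primesBelow] at ha
    rw [(Nat.prime_dvd_prime_iff_eq hp ha.2).mp hpa]
    exact ha.1
  · intro h
    exact ⟨p, Nat.mem_primesBelow.mpr ⟨h, hp⟩, dvd_refl _⟩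

/-- the local factor -/
noncomputable def LS1_h (m : ℤ) (p : ℕ) : ℝ := if (p : ℤ) ∣ m then -1 else 1 / ((p : ℝ) - 1)

theorem LS1_term (q : ℕ) (hq : Squarefree q) (m : ℤ) :
    (ArithmeticFunction.moebius q : ℝ) / (Nat.totient q : ℝ) * cq q m =
      ∏ p ∈ q.primeFactors, LS1_h m p := by
  rw [Pool.Agent.Lib.H68T.cq_squarefree q hq m]
  set g := Nat.gcd q m.natAbs with hg
  have hq0 : q ≠ 0 := hq.ne_zero
  have hgq : g ∣ q := Nat.gcd_dvd_left _ _
  have hg0 : 0 < g := Nat.pos_of_dvd_of_pos hgq (Nat.pos_of_ne_zero hq0)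
  obtain ⟨h, hh⟩ := hgq
  have hcop : Nat.Coprime g h := by
    rw [hh] at hq
    exact Nat.coprime_of_squarefree_mul hq
  have hqg : q / g = h := by rw [hh]; exact Nat.mul_div_cancel_left _ hg0
  have hgs : Squarefree g := hq.squarefree_of_dvd ⟨h, hh⟩
  have hhs : Squarefree h := hq.squarefree_of_dvd ⟨g, by rw [hh]; ring⟩
  have hh0 : 0 < h := Nat.pos_of_ne_zero hhs.ne_zero
  have hφh : (0 : ℝ) < (Nat.totient h : ℝ) := by exact_mod_cast Nat.totient_pos.mpr hh0
  have hφg : (0 : ℝ) < (Nat.totient g : ℝ) := by exact_mod_cast Nat.totient_pos.mpr hg0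
  rw [hqg]
  have e1 : (ArithmeticFunction.moebius q : ℝ) = (ArithmeticFunction.moebius g : ℝ) *
      (ArithmeticFunction.moebius h : ℝ) := by
    rw [hh, ArithmeticFunction.isMultiplicative_moebius.map_mul_of_coprime hcop]
    push_cast
    ring
  have e2 : (Nat.totient q : ℝ) = (Nat.totient g : ℝ) * (Nat.totient h : ℝ) := by
    rw [hh, Nat.totient_mul hcop]
    push_cast
    ring
  have e3 : (ArithmeticFunction.moebius h : ℝ) ^ 2 = 1 := by
    exact_mod_cast ArithmeticFunction.moebius_sq_eq_one_of_squarefree hhs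
  have e4 : q.primeFactors = g.primeFactors ∪ h.primeFactors := by
    rw [hh, hcop.primeFactors_mul]
  have e5 : Disjoint g.primeFactors h.primeFactors := hcop.disjoint_primeFactors
  have e6 : ∏ p ∈ g.primeFactors, LS1_h m p = (ArithmeticFunction.moebius g : ℝ) := by
    rw [ArithmeticFunction.moebius_apply_of_squarefree hgs]
    push_cast
    rw [ArithmeticFunction.cardFactors_apply,
      show g.primeFactorsList.length = g.primeFactors.card from ?_]
    · rw [← Finset.prod_const]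
      refine prod_congr rfl fun p hp => ?_
      unfold LS1_h
      rw [if_pos]
      have h1 : p ∣ g := Nat.dvd_of_mem_primeFactors hp
      exact Int.natCast_dvd.mpr (h1.trans (Nat.gcd_dvd_right _ _))
    · unfold Nat.primeFactors
      rw [List.toFinset_card_of_nodup]
      exact (Nat.squarefree_iff_nodup_primeFactorsList hgs.ne_zero).mp hgs
  have e7 : ∏ p ∈ h.primeFactors, LS1_h m p = 1 / (Nat.totient h : ℝ) := by
    rw [Pool.Agent.Lib.H68T.cg1_totient_squarefree_real hhs, one_div, ← prod_inv_distrib]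
    refine prod_congr rfl fun p hp => ?_
    unfold LS1_h
    rw [if_neg, one_div]
    intro hpm
    have h1 : p ∣ h := Nat.dvd_of_mem_primeFactors hp
    have h2 : p ∣ q := h1.trans ⟨g, by rw [hh]; ring⟩
    have h3 : p ∣ g := Nat.dvd_gcd h2 (Int.natCast_dvd.mp hpm)
    have h4 : p ∣ 1 := by
      have := Nat.dvd_gcd h3 h1
      rwa [hcop] at this
    exact (Nat.prime_of_mem_primeFactors hp).one_lt.ne' (Nat.dvd_one.mp h4)
  rw [e4, prod_union e5, e6, e7, e1, e2]
  field_simp
  rw [e3]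

theorem LS1_full (P : ℕ) (hP : Squarefree P) (m : ℤ) :
    ∑ q ∈ P.divisors, (ArithmeticFunction.moebius q : ℝ) / (Nat.totient q : ℝ) * cq q m =
      Lq P m := by
  have h1 : ∑ q ∈ P.divisors, (ArithmeticFunction.moebius q : ℝ) / (Nat.totient q : ℝ) * cq q m =
      ∑ q ∈ P.divisors, ArithmeticFunction.prodPrimeFactors (LS1_h m) q := by
    refine sum_congr rfl fun q hq => ?_
    have hqs : Squarefree q := hP.squarefree_of_dvd (Nat.dvd_of_mem_divisors hq)
    rw [LS1_term q hqs, ArithmeticFunction.prodPrimeFactors_apply hqs.ne_zero]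
  have h2 := (ArithmeticFunction.IsMultiplicative.prodPrimeFactors
    (LS1_h m)).prodPrimeFactors_one_add_of_squarefree hP
  rw [h1, ← h2]
  have h3 : ∏ p ∈ P.primeFactors, (1 + ArithmeticFunction.prodPrimeFactors (LS1_h m) p) =
      ∏ p ∈ P.primeFactors, (1 + LS1_h m p) := by
    refine prod_congr rfl fun p hp => ?_
    have hp' := Nat.prime_of_mem_primeFactors hp
    rw [ArithmeticFunction.prodPrimeFactors_apply hp'.ne_zero, hp'.primeFactors, prod_singleton]
  rw [h3]
  unfold Lq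
  split_ifs with hc
  · rw [Pool.Agent.Lib.H68T.cg1_totient_squarefree_real hP]
    have h4 := congrArg (fun n : ℕ => (n : ℝ)) (Nat.prod_primeFactors_of_squarefree hP).symm
    push_cast at h4
    rw [h4, ← prod_div_distrib]
    have h4' := congrArg (fun n : ℕ => (n : ℝ)) (Nat.prod_primeFactors_of_squarefree hP).symm
    refine prod_congr ?_ fun p hp => ?_
    · rfl
    · have hp' := Nat.prime_of_mem_primeFactors hp
      have h5 : (1 : ℝ) < p := by exact_mod_cast hp'.one_lt
      have h6 : (p : ℝ) - 1 ≠ 0 := by linarith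
      unfold LS1_h
      rw [if_neg]
      · field_simp
        ring
      · intro hpm
        have h7 : (p : ℤ) ∣ (P : ℤ) := Int.natCast_dvd_natCast.mpr (Nat.dvd_of_mem_primeFactors hp)
        have h8 := (hc.of_isCoprime_of_dvd_left hpm).of_isCoprime_of_dvd_right h7
        have h9 := isCoprime_self.mp h8
        exact (Nat.prime_iff_prime_int.mp hp').not_isUnit h9
  · rw [Int.isCoprime_iff_gcd_eq_one] at hc
    obtain ⟨p, hp, hpd⟩ := Nat.exists_prime_and_dvd hc
    have h5 : p ∣ P := by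
      have := hpd.trans (Nat.gcd_dvd_right m.natAbs (P : ℤ).natAbs)
      simpa using this
    have h6 : (p : ℤ) ∣ m := by
      have := hpd.trans (Nat.gcd_dvd_left m.natAbs (P : ℤ).natAbs)
      exact Int.natCast_dvd.mpr this
    refine prod_eq_zero (i := p) (Nat.mem_primeFactors.mpr ⟨hp, h5, hP.ne_zero⟩) ?_
    unfold LS1_h
    rw [if_pos h6]
    ring

/-- `∑_{q ∣ P} μ(q) c_q(m)/φ(q) = ∏_{p ∣ P} (1 - c_p(m)/(p-1))`, `P = PW w` squarefree, `c_p(m) = p - 1`
if `p ∣ m` and `-1` otherwise; so the product is `P/φ(P)` if `(m, P) = 1` and `0` otherwise. And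
`G_Q(m)` is the sum over all `q ≤ Q`, which contains all divisors of `P` as `P ≤ Q`. -/
theorem G_sub_Lw (w Q : ℕ) (hw : PW w ≤ Q) (m : ℤ) :
    Pool.Agent.Lib.H68T.G Q m - Lw w m = ∑ q ∈ (Icc 1 Q).filter (fun q => ¬ q ∣ PW w),
      (ArithmeticFunction.moebius q : ℝ) / (Nat.totient q : ℝ) * cq q m := by
  have h1 : (Icc 1 Q).filter (fun q => q ∣ PW w) = (PW w).divisors := by
    ext q
    simp only [mem_filter, mem_Icc, Nat.mem_divisors]
    constructor
    · rintro ⟨-, h⟩
      exact ⟨h, (PW_pos w).ne'⟩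
    · rintro ⟨h, -⟩
      exact ⟨⟨Nat.pos_of_dvd_of_pos h (PW_pos w), (Nat.le_of_dvd (PW_pos w) h).trans hw⟩, h⟩
  unfold Pool.Agent.Lib.H68T.G Lw
  rw [← LS1_full (PW w) (PW_squarefree w) m, ← h1, sub_eq_iff_eq_add, add_comm,
    sum_filter_add_sum_filter_not]

end Pool.Agent.Lib.H33B
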