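import Pool.Agent.Lib.H33B.LS1
import Pool.Agent.Lib.H59.PolySieve

/-!
# Chunk SR1: the truncated singular series as a density
-/

open Finset Polynomial

namespace Pool.Agent.Lib.H33B

open Pool.Agent.Lib.H59 (omegaN seriesTrunc rootCount)

variable {g : ℕ}

/-- Chinese remainder theorem for counts, two moduli. -/
theorem SR1_crt2 {m n : ℕ} (hmn : m.Coprime n) (hm : 0 < m) (hn : 0 < n) (A B : ℕ → Prop)
    [DecidablePred A] [DecidablePred B] (hA : ∀ b, A (b % m) ↔ A b) (hB : ∀ b, B (b % n) ↔ B b) :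
    ((range (m * n)).filter (fun b => A b ∧ B b)).card =
      ((range m).filter A).card * ((range n).filter B).card := by
  classical
  rw [← card_product]
  refine card_bij (fun a _ => (a % m, a % n)) ?_ ?_ ?_
  · intro a ha
    rw [mem_filter] at ha
    rw [mem_product, mem_filter, mem_filter, mem_range, mem_range]
    exact ⟨⟨Nat.mod_lt _ hm, (hA a).mpr ha.2.1⟩, Nat.mod_lt _ hn, (hB a).mpr ha.2.2⟩
  · intro a ha b hb hab
    rw [mem_filter, mem_range] at ha hb
    rw [Prod.mk.injEq] at hab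
    have h : a ≡ b [MOD m * n] := (Nat.modEq_and_modEq_iff_modEq_mul hmn).mp hab
    have h' : a % (m * n) = b % (m * n) := h
    rwa [Nat.mod_eq_of_lt ha.1, Nat.mod_eq_of_lt hb.1] at h'
  · intro b hb
    rw [mem_product, mem_filter, mem_filter, mem_range, mem_range] at hb
    obtain ⟨⟨hb1, hb2⟩, hb3, hb4⟩ := hb
    obtain ⟨c, hc1, hc2⟩ := Nat.chineseRemainder hmn b.1 b.2
    have e1 : c % (m * n) % m = b.1 := by
      rw [Nat.mod_mul_right_mod]
      have : c % m = b.1 % m := hc1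
      rw [this, Nat.mod_eq_of_lt hb1]
    have e2 : c % (m * n) % n = b.2 := by
      rw [Nat.mod_mul_left_mod]
      have : c % n = b.2 % n := hc2
      rw [this, Nat.mod_eq_of_lt hb3]
    refine ⟨c % (m * n), ?_, by rw [e1, e2]⟩
    rw [mem_filter, mem_range]
    refine ⟨Nat.mod_lt _ (Nat.mul_pos hm hn), ?_, ?_⟩
    · rw [← hA, e1]
      exact hb2
    · rw [← hB, e2]
      exact hb4

/-- Chinese remainder theorem for counts, a set of primes. -/
theorem SR1_crt (s : Finset ℕ) (hs : ∀ p ∈ s, p.Prime) (A : ℕ → ℕ → Prop)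
    [∀ p, DecidablePred (A p)] (hA : ∀ p ∈ s, ∀ b, A p (b % p) ↔ A p b) :
    ((range (∏ p ∈ s, p)).filter (fun b => ∀ p ∈ s, A p b)).card =
      ∏ p ∈ s, ((range p).filter (A p)).card := by
  classical
  induction s using Finset.induction_on with
  | empty => simp
  | insert p s hp ih =>
    rw [prod_insert hp, prod_insert hp]
    have hpp : p.Prime := hs p (mem_insert_self _ _)
    have hs' : ∀ q ∈ s, q.Prime := fun q hq => hs q (mem_insert_of_mem hq)
    have hcop : p.Coprime (∏ q ∈ s, q) := by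
      refine Nat.Coprime.prod_right fun q hq => ?_
      refine (Nat.coprime_primes hpp (hs' q hq)).mpr ?_
      rintro rfl
      exact hp hq
    rw [← ih hs' (fun q hq => hA q (mem_insert_of_mem hq))]
    rw [← SR1_crt2 hcop hpp.pos (prod_pos fun q hq => (hs' q hq).pos) (A p)
      (fun b => ∀ q ∈ s, A q b) (hA p (mem_insert_self _ _)) ?_]
    · refine congrArg _ (filter_congr fun b _ => ?_)
      simp only [mem_insert, forall_eq_or_imp]
    · intro b
      refine forall₂_congr fun q hq => ?_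
      have h1 : q ∣ ∏ q ∈ s, q := dvd_prod_of_mem _ hq
      rw [← hA q (mem_insert_of_mem hq) (b % ∏ q ∈ s, q), Nat.mod_mod_of_dvd _ h1,
        hA q (mem_insert_of_mem hq)]

theorem SR1_coprime (m : ℤ) (w : ℕ) :
    IsCoprime m (PW w : ℤ) ↔ ∀ p ∈ Nat.primesBelow w, ¬ (p : ℤ) ∣ m := by
  unfold PW
  rw [Nat.cast_prod, IsCoprime.prod_right_iff]
  refine forall₂_congr fun p hp => ?_
  have hp' := Nat.prime_of_mem_primesBelow hp
  rw [isCoprime_comm, (Nat.prime_iff_prime_int.mp hp').coprime_iff_not_dvd]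

/-- Chinese remainder theorem: for a polynomial `H` the number of `b` modulo `P = ∏_{p < w} p` with
`(H(b), P) = 1` is `∏_{p < w} (p - rootCount H p)`; and `φ(P) = ∏ (p - 1)`. (Induction on `w` or on the
set of primes, as in `H59.rootCount_mul`.) -/
theorem count_coprime (H : ℤ[X]) (w : ℕ) :
    ((range (PW w)).filter (fun b : ℕ => IsCoprime (H.eval (b : ℤ)) (PW w : ℤ))).card =
      ∏ p ∈ Nat.primesBelow w, (p - rootCount H p) := by
  classical
  have h1 := SR1_crt (Nat.primesBelow w) (fun p hp => Nat.prime_of_mem_primesBelow hp)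
    (fun p b => ¬ (p : ℤ) ∣ H.eval (b : ℤ)) (fun p _ b => by
      rw [Pool.Agent.Lib.H59.dvd_eval_mod_iff])
  have h2 : ∀ p ∈ Nat.primesBelow w,
      ((range p).filter (fun b : ℕ => ¬ (p : ℤ) ∣ H.eval (b : ℤ))).card = p - rootCount H p := by
    intro p _
    unfold Pool.Agent.Lib.H59.rootCount
    have := card_filter_add_card_filter_not (s := range p) (fun b : ℕ => (p : ℤ) ∣ H.eval (b : ℤ))
    rw [card_range] at this
    omega
  rw [prod_congr rfl h2] at h1
  rw [← h1]
  refine congrArg _ ?_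
  unfold PW
  refine filter_congr fun b _ => ?_
  exact SR1_coprime _ w

theorem SR1_totient (w : ℕ) :
    (Nat.totient (PW w) : ℝ) = ∏ p ∈ Nat.primesBelow w, ((p : ℝ) - 1) := by
  rw [Pool.Agent.Lib.H68T.cg1_totient_squarefree_real (PW_squarefree w)]
  refine prod_congr ?_ fun _ _ => rfl
  ext p
  rw [Nat.mem_primeFactors, Nat.mem_primesBelow]
  constructor
  · rintro ⟨h1, h2, -⟩
    exact ⟨(prime_dvd_PW w p h1).mp h2, h1⟩
  · rintro ⟨h1, h2⟩
    exact ⟨h2, (prime_dvd_PW w p h2).mpr h1, (PW_pos w).ne'⟩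

theorem SR1_ratio (w : ℕ) : (PW w : ℝ) / Nat.totient (PW w) =
    ∏ p ∈ Nat.primesBelow w, (1 - 1 / (p : ℝ))⁻¹ := by
  rw [SR1_totient]
  unfold PW
  push_cast
  rw [← prod_div_distrib]
  refine prod_congr rfl fun p hp => ?_
  have h1 : (1 : ℝ) < p := by exact_mod_cast (Nat.prime_of_mem_primesBelow hp).one_lt
  have h2 : (p : ℝ) - 1 ≠ 0 := by linarith
  have h3 : (p : ℝ) ≠ 0 := by linarith
  have h4 : 1 - 1 / (p : ℝ) ≠ 0 := by
    rw [ne_eq, sub_eq_zero]
    intro h
    rw [eq_div_iff h3] at h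
    linarith
  rw [eq_comm, inv_eq_iff_eq_inv, inv_div]
  field_simp

/-- `count_coprime` for `H = (∏ F_i) (N - G)`; `omegaN` is its `rootCount`. -/
theorem series_count (F : Fin g → ℤ[X]) (G : ℤ[X]) (N w : ℕ) :
    seriesTrunc F G N w = ((PW w : ℝ) / Nat.totient (PW w)) ^ (g + 1) *
      ((((range (PW w)).filter (fun b : ℕ =>
        IsCoprime (((∏ i, F i) * (C (N : ℤ) - G)).eval (b : ℤ)) (PW w : ℤ))).card : ℝ) / PW w) := by
  rw [count_coprime, SR1_ratio, ← prod_pow]
  have h1 : ((PW w : ℕ) : ℝ) = ∏ p ∈ Nat.primesBelow w, (p : ℝ) := by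
    unfold PW
    push_cast
    rfl
  rw [h1, Nat.cast_prod, ← prod_div_distrib, ← prod_mul_distrib]
  unfold Pool.Agent.Lib.H59.seriesTrunc
  refine prod_congr rfl fun p hp => ?_
  have h2 : (0 : ℝ) < p := by exact_mod_cast (Nat.prime_of_mem_primesBelow hp).pos
  have h3 : rootCount ((∏ i, F i) * (C (N : ℤ) - G)) p ≤ p :=
    Pool.Agent.Lib.H59.rootCount_le_self _ _
  rw [Nat.cast_sub h3, inv_pow]
  have h4 : (omegaN F G N p : ℝ) = (rootCount ((∏ i, F i) * (C (N : ℤ) - G)) p : ℝ) := rfl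
  rw [h4, sub_div, div_self h2.ne']
  ring

theorem SR1_omega (F : Fin g → ℤ[X]) (G : ℤ[X]) (N N' p : ℕ) (h : N ≡ N' [MOD p]) :
    omegaN F G N p = omegaN F G N' p := by
  unfold Pool.Agent.Lib.H59.omegaN
  refine congrArg _ (filter_congr fun a _ => ?_)
  rw [eval_mul, eval_mul]
  have h1 : (p : ℤ) ∣ (C (N : ℤ) - G).eval (a : ℤ) - (C (N' : ℤ) - G).eval (a : ℤ) := by
    have h2 : (C (N : ℤ) - G).eval (a : ℤ) - (C (N' : ℤ) - G).eval (a : ℤ) =
        (N : ℤ) - N' := by
      simp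
    rw [h2]
    exact (Nat.modEq_iff_dvd.mp h.symm)
  constructor
  · intro h2
    have h3 := dvd_sub h2 (Dvd.dvd.mul_left h1 ((∏ i, F i).eval (a : ℤ)))
    rw [← mul_sub, sub_sub_cancel] at h3
    exact h3
  · intro h2
    have h3 := dvd_add h2 (Dvd.dvd.mul_left h1 ((∏ i, F i).eval (a : ℤ)))
    rw [← mul_add, add_sub_cancel] at h3
    exact h3

/-- `seriesTrunc F G N w` depends only on `N` modulo `PW w`. -/
theorem series_period (F : Fin g → ℤ[X]) (G : ℤ[X]) (N N' w : ℕ) (h : N ≡ N' [MOD PW w]) :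
    seriesTrunc F G N w = seriesTrunc F G N' w := by
  unfold Pool.Agent.Lib.H59.seriesTrunc
  refine prod_congr rfl fun p hp => ?_
  have h1 : p ∣ PW w := by
    unfold PW
    exact dvd_prod_of_mem _ hp
  rw [SR1_omega F G N N' p (h.of_dvd h1)]

theorem series_nonneg (F : Fin g → ℤ[X]) (G : ℤ[X]) (N w : ℕ) : 0 ≤ seriesTrunc F G N w := by
  unfold Pool.Agent.Lib.H59.seriesTrunc
  refine prod_nonneg fun p hp => ?_
  have h1 : (1 : ℝ) < p := by exact_mod_cast (Nat.prime_of_mem_primesBelow hp).one_lt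
  have h2 : (omegaN F G N p : ℝ) ≤ p := by
    exact_mod_cast Pool.Agent.Lib.H59.rootCount_le_self ((∏ i, F i) * (C (N : ℤ) - G)) p
  have h3 : (omegaN F G N p : ℝ) / p ≤ 1 := by
    rw [div_le_one (by linarith)]
    exact h2
  have h4 : 1 / (p : ℝ) ≤ 1 := by
    rw [div_le_one (by linarith)]
    linarith
  refine mul_nonneg (by linarith) (inv_nonneg.mpr (pow_nonneg (by linarith) _))

end Pool.Agent.Lib.H33B
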