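import Pool.Agent.Lib.H33B.CV4
import Pool.Agent.Lib.H59.SchinzelDefs
import Pool.Agent.Lib.H59.SchinzelUpper

/-!
# Chunk UN: residue classes from polynomial substitutions; fixed prime divisors
-/

open Finset Polynomial Filter Topology

namespace Pool.Agent.Lib.H33B

open Pool.Agent.Lib.H59 (argSet argCount Admissible primeCount omegaN seriesTrunc rootCount
  card_value_le)

/-- `q x + b` -/
noncomputable def UN_L (q b : ℕ) : ℤ[X] := C (q : ℤ) * X + C (b : ℤ)

theorem UN_L_deg (q b : ℕ) (hq : q ≠ 0) : (UN_L q b).natDegree = 1 := by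
  unfold UN_L
  exact natDegree_linear (by exact_mod_cast hq)

theorem UN_L_lc (q b : ℕ) (hq : q ≠ 0) : (UN_L q b).leadingCoeff = q := by
  unfold UN_L
  exact leadingCoeff_linear (by exact_mod_cast hq)

theorem UN_L_eval (q b : ℕ) (n : ℤ) : (UN_L q b).eval n = q * n + b := by
  unfold UN_L
  simp

theorem UN_inj (q b : ℕ) (hq : q ≠ 0) (P Q : ℤ[X]) (h : P.comp (UN_L q b) = Q.comp (UN_L q b)) :
    P = Q := by
  rw [← sub_eq_zero]
  rw [← sub_eq_zero, ← sub_comp] at h
  have h1 : (P - Q).natDegree = 0 := by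
    have h2 := natDegree_comp (p := P - Q) (q := UN_L q b)
    rw [h, UN_L_deg q b hq, natDegree_zero, mul_one] at h2
    exact h2.symm
  rw [eq_C_of_natDegree_eq_zero h1, C_comp] at h
  rw [eq_C_of_natDegree_eq_zero h1]
  exact h

theorem UN_modp (p q b : ℕ) (hp : p.Prime) (hpq : ¬ p ∣ q) (P : ℤ[X])
    (h : C (p : ℤ) ∣ P.comp (UN_L q b)) : C (p : ℤ) ∣ P := by
  have hfact : Fact p.Prime := ⟨hp⟩
  have key : ∀ Q : ℤ[X], C (p : ℤ) ∣ Q ↔ Q.map (Int.castRingHom (ZMod p)) = 0 := by
    intro Q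
    rw [C_dvd_iff_dvd_coeff]
    constructor
    · intro h1
      ext i
      rw [coeff_map, coeff_zero, eq_intCast]
      exact (ZMod.intCast_zmod_eq_zero_iff_dvd _ _).2 (h1 i)
    · intro h1 i
      have h2 := congrArg (fun R => R.coeff i) h1
      simp only [coeff_map, coeff_zero, eq_intCast] at h2
      exact (ZMod.intCast_zmod_eq_zero_iff_dvd _ _).1 h2
  rw [key] at h ⊢
  rw [map_comp] at h
  have hq0 : ((q : ℕ) : ZMod p) ≠ 0 := by
    rw [Ne, ZMod.natCast_eq_zero_iff]
    exact hpq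
  have hL : ((UN_L q b).map (Int.castRingHom (ZMod p))).natDegree = 1 := by
    unfold UN_L
    rw [Polynomial.map_add, Polynomial.map_mul, map_C, map_X, map_C]
    refine natDegree_linear ?_
    simpa using hq0
  have h1 : (P.map (Int.castRingHom (ZMod p))).natDegree = 0 := by
    have h2 := natDegree_comp (p := P.map (Int.castRingHom (ZMod p)))
      (q := (UN_L q b).map (Int.castRingHom (ZMod p)))
    rw [h, hL, natDegree_zero, mul_one] at h2
    exact h2.symm
  rw [eq_C_of_natDegree_eq_zero h1, C_comp] at h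
  rw [eq_C_of_natDegree_eq_zero h1]
  exact h

theorem UN_irr (q b : ℕ) (hq : q ≠ 0) (P : ℤ[X]) (hP : Irreducible P) (hd : 1 ≤ P.natDegree)
    (hc : ∀ p : ℕ, p.Prime → p ∣ q → ¬ (p : ℤ) ∣ P.eval (b : ℤ)) :
    Irreducible (P.comp (UN_L q b)) := by
  have hprimP : P.IsPrimitive := hP.isPrimitive (by omega)
  have hne : P.comp (UN_L q b) ≠ 0 := by
    intro h
    have h1 : P = 0 := UN_inj q b hq P 0 (by rw [h, zero_comp])
    rw [h1] at hd
    simp at hd
  have hprim : (P.comp (UN_L q b)).IsPrimitive := by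
    intro r hr
    by_contra hu
    have h1 : r.natAbs ≠ 1 := fun h => hu (Int.isUnit_iff_natAbs_eq.2 h)
    obtain ⟨p, hp, hpr⟩ := Nat.exists_prime_and_dvd h1
    have h2 : (p : ℤ) ∣ r := Int.natCast_dvd.2 hpr
    have h3 : C (p : ℤ) ∣ P.comp (UN_L q b) := (C_dvd_iff_dvd_coeff _ _).2 fun i =>
      h2.trans ((C_dvd_iff_dvd_coeff _ _).1 hr i)
    by_cases hpq : p ∣ q
    · apply hc p hp hpq
      obtain ⟨R, hR⟩ := h3
      have h4 := congrArg (fun Q => Polynomial.eval 0 Q) hR
      simp only [eval_comp, UN_L_eval, mul_zero, zero_add, eval_mul, eval_C] at h4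
      exact ⟨_, h4⟩
    · have h4 := hprimP (p : ℤ) (UN_modp p q b hp hpq P h3)
      rw [Int.isUnit_iff_natAbs_eq, Int.natAbs_natCast] at h4
      exact hp.ne_one h4
  rw [IsPrimitive.Int.irreducible_iff_irreducible_map_cast hprim]
  have h1 := (IsPrimitive.Int.irreducible_iff_irreducible_map_cast hprimP).1 hP
  have hq' : (q : ℚ) ≠ 0 := by exact_mod_cast hq
  let _ : Invertible (q : ℚ) := invertibleOfNonzero hq'
  have h2 : (P.comp (UN_L q b)).map (Int.castRingHom ℚ) =
      algEquivCMulXAddC (q : ℚ) (b : ℚ) (P.map (Int.castRingHom ℚ)) := by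
    rw [map_comp, algEquivCMulXAddC_apply]
    unfold UN_L
    rw [Polynomial.map_add, Polynomial.map_mul, map_C, map_X, map_C]
    simp only [eq_intCast, Int.cast_natCast]
    rw [← comp_eq_aeval]
  rw [h2]
  exact (MulEquiv.irreducible_iff (algEquivCMulXAddC (q : ℚ) (b : ℚ))).2 h1

theorem UN_sys {g : ℕ} (F : Fin g → ℤ[X]) (hF : Sys F) (q b : ℕ) (hq : q ≠ 0)
    (hb : IsCoprime ((∏ i, F i).eval (b : ℤ)) (q : ℤ)) :
    Sys (fun i => (F i).comp (UN_L q b)) where
  pos := hF.pos
  irr := by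
    intro i
    refine UN_irr q b hq (F i) (hF.irr i) (hF.deg i) fun p hp hpq h => ?_
    have h1 : (p : ℤ) ∣ (∏ i, F i).eval (b : ℤ) := by
      rw [eval_prod]
      exact h.trans (Finset.dvd_prod_of_mem _ (Finset.mem_univ i))
    have h2 : (p : ℤ) ∣ (q : ℤ) := Int.natCast_dvd_natCast.2 hpq
    have h3 := hb.isUnit_of_dvd' h1 h2
    rw [Int.isUnit_iff_natAbs_eq, Int.natAbs_natCast] at h3
    exact hp.ne_one h3
  deg := by
    intro i
    rw [natDegree_comp, UN_L_deg q b hq, mul_one]
    exact hF.deg i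
  lead := by
    intro i
    rw [leadingCoeff_comp (by rw [UN_L_deg q b hq]; norm_num), UN_L_lc q b hq]
    have h1 := hF.lead i
    have h2 : (0 : ℤ) < q := by exact_mod_cast Nat.pos_of_ne_zero hq
    positivity
  inj := fun i j h => hF.inj (UN_inj q b hq _ _ h)

theorem UN_root (P : ℤ[X]) (p q b : ℕ) (hp : p.Prime) (hpq : ¬ p ∣ q) :
    rootCount (P.comp (UN_L q b)) p = rootCount P p := by
  classical
  unfold rootCount
  have hp0 := hp.pos
  set φ : ℕ → ℕ := fun a => (q * a + b) % p with hφ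
  have hinj : Set.InjOn φ (Finset.range p : Set ℕ) := by
    intro a ha a' ha' h
    rw [Finset.mem_coe, Finset.mem_range] at ha ha'
    have h1 : q * a + b ≡ q * a' + b [MOD p] := h
    have h2 : q * a ≡ q * a' [MOD p] := Nat.ModEq.add_right_cancel' b h1
    have h3 : a ≡ a' [MOD p] :=
      Nat.ModEq.cancel_left_of_coprime ((Nat.Prime.coprime_iff_not_dvd hp).2 hpq) h2
    rw [Nat.ModEq, Nat.mod_eq_of_lt ha, Nat.mod_eq_of_lt ha'] at h3
    exact h3
  have himg : (Finset.range p).image φ = Finset.range p := by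
    refine Finset.eq_of_subset_of_card_le ?_ ?_
    · intro c hc
      obtain ⟨a, _, rfl⟩ := Finset.mem_image.1 hc
      exact Finset.mem_range.2 (Nat.mod_lt _ hp0)
    · rw [Finset.card_image_of_injOn hinj]
  have hiff : ∀ a : ℕ, (p : ℤ) ∣ (P.comp (UN_L q b)).eval (a : ℤ) ↔
      (p : ℤ) ∣ P.eval ((φ a : ℕ) : ℤ) := by
    intro a
    have h1 := Pool.Agent.Lib.H59.dvd_eval_mod_iff P p (q * a + b)
    simp only [hφ]
    rw [h1, eval_comp, UN_L_eval]
    push_cast
    rfl
  rw [← Finset.card_image_of_injOn (f := φ)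
    (s := (Finset.range p).filter (fun a : ℕ => (p : ℤ) ∣ (P.comp (UN_L q b)).eval (a : ℤ)))
    (hinj.mono (by
      intro a ha
      exact (Finset.mem_filter.1 ha).1))]
  congr 1
  ext c
  rw [Finset.mem_image, Finset.mem_filter]
  constructor
  · rintro ⟨a, ha, rfl⟩
    rw [Finset.mem_filter] at ha
    exact ⟨Finset.mem_range.2 (Nat.mod_lt _ hp0), (hiff a).1 ha.2⟩
  · rintro ⟨hc, hc2⟩
    rw [← himg, Finset.mem_image] at hc
    obtain ⟨a, ha, rfl⟩ := hc
    exact ⟨a, Finset.mem_filter.2 ⟨ha, (hiff a).2 hc2⟩, rfl⟩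

theorem UN_prod {g : ℕ} (F : Fin g → ℤ[X]) (q b : ℕ) :
    ∏ i, (F i).comp (UN_L q b) = (∏ i, F i).comp (UN_L q b) := by
  rw [Polynomial.prod_comp]

theorem UN_bh {g : ℕ} (F : Fin g → ℤ[X]) (q b : ℕ)
    (hb : IsCoprime ((∏ i, F i).eval (b : ℤ)) (q : ℤ)) :
    bhTrunc (fun i => (F i).comp (UN_L q b)) 1 = bhTrunc F q := by
  classical
  funext z
  unfold bhTrunc
  refine Finset.prod_congr rfl fun p hp => ?_
  have hpp := Nat.prime_of_mem_primesBelow hp
  rw [if_neg hpp.not_dvd_one]
  congr 1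
  unfold wF
  rw [UN_prod]
  split_ifs with hpq
  · have h0 : rootCount ((∏ i, F i).comp (UN_L q b)) p = 0 := by
      unfold rootCount
      rw [Finset.card_eq_zero, Finset.filter_eq_empty_iff]
      intro a _ h
      rw [eval_comp, UN_L_eval] at h
      have h2 : (p : ℤ) ∣ (q : ℤ) := Int.natCast_dvd_natCast.2 hpq
      have h1 : (p : ℤ) ∣ (∏ i, F i).eval (b : ℤ) := by
        have h3 : ((q : ℤ) * a + b) - b ∣ (∏ i, F i).eval ((q : ℤ) * a + b) -
            (∏ i, F i).eval (b : ℤ) := Polynomial.sub_dvd_eval_sub _ _ _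
        have h4 : (p : ℤ) ∣ ((q : ℤ) * a + b) - b := by
          rw [add_sub_cancel_right]
          exact h2.mul_right _
        have h5 := dvd_sub h (h4.trans h3)
        rwa [sub_sub_cancel] at h5
      have h3 := hb.isUnit_of_dvd' h1 h2
      rw [Int.isUnit_iff_natAbs_eq, Int.natAbs_natCast] at h3
      exact hpp.ne_one h3
    rw [h0]
    simp
  · rw [UN_root _ p q b hpp hpq]

theorem UN_all {g : ℕ} (F : Fin g → ℤ[X]) (q b m : ℕ) :
    AllPrime (fun i => (F i).comp (UN_L q b)) m ↔ AllPrime F (q * m + b) := by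
  unfold AllPrime
  simp only [eval_comp, UN_L_eval]
  push_cast
  rfl

theorem UN_cnt {g : ℕ} (F : Fin g → ℤ[X]) (q b x : ℕ) (hq : 0 < q) (hbx : b ≤ x) :
    cntF (fun i => (F i).comp (UN_L q b)) 1 0 ((x - b) / q) ≤ cntF F q b x ∧
    cntF F q b x ≤ cntF (fun i => (F i).comp (UN_L q b)) 1 0 ((x - b) / q) + b := by
  classical
  set y := (x - b) / q with hy
  have hmem' : ∀ m, m ∈ (AF (fun i => (F i).comp (UN_L q b)) y).filter (fun n => n ≡ 0 [MOD 1]) ↔
      (1 ≤ m ∧ m ≤ y) ∧ AllPrime F (q * m + b) := by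
    intro m
    rw [Finset.mem_filter]
    unfold AF
    rw [Finset.mem_filter, Finset.mem_Icc, UN_all]
    constructor
    · rintro ⟨h, _⟩
      exact h
    · intro h
      exact ⟨h, Nat.modEq_one⟩
  have hmem : ∀ n, n ∈ (AF F x).filter (fun n => n ≡ b [MOD q]) ↔
      ((1 ≤ n ∧ n ≤ x) ∧ AllPrime F n) ∧ n ≡ b [MOD q] := by
    intro n
    rw [Finset.mem_filter]
    unfold AF
    rw [Finset.mem_filter, Finset.mem_Icc]
  have hinj : Function.Injective (fun m : ℕ => q * m + b) := by
    intro m m' h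
    have h1 : q * m + b = q * m' + b := h
    exact Nat.eq_of_mul_eq_mul_left hq (by omega)
  constructor
  · unfold cntF
    refine Finset.card_le_card_of_injOn (fun m => q * m + b) ?_ hinj.injOn
    intro m hm
    rw [Finset.mem_coe, hmem'] at hm
    rw [Finset.mem_coe, hmem]
    obtain ⟨⟨h1, h2⟩, h3⟩ := hm
    beta_reduce
    refine ⟨⟨⟨?_, ?_⟩, h3⟩, ?_⟩
    · have := Nat.mul_pos hq h1
      omega
    · have h4 : q * m ≤ q * y := Nat.mul_le_mul_left _ h2
      have h5 : q * y ≤ x - b := Nat.mul_div_le _ _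
      omega
    · have h6 : q * m + b ≡ 0 + b [MOD q] :=
        Nat.ModEq.add_right b (Nat.modEq_zero_iff_dvd.2 (dvd_mul_right _ _))
      rwa [zero_add] at h6
  · unfold cntF
    have hsub : (AF F x).filter (fun n => n ≡ b [MOD q]) ⊆
        ((AF (fun i => (F i).comp (UN_L q b)) y).filter (fun n => n ≡ 0 [MOD 1])).image
          (fun m => q * m + b) ∪ Finset.Icc 1 b := by
      intro n hn
      rw [hmem] at hn
      obtain ⟨⟨⟨h1, h2⟩, h3⟩, h4⟩ := hn
      rw [Finset.mem_union, Finset.mem_Icc]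
      by_cases hnb : n ≤ b
      · exact Or.inr ⟨h1, hnb⟩
      · left
        have h5 : q ∣ n - b := (Nat.modEq_iff_dvd' (by omega : b ≤ n)).1 h4.symm
        obtain ⟨m, hm⟩ := h5
        have h6 : n = q * m + b := by omega
        rw [Finset.mem_image]
        refine ⟨m, ?_, h6.symm⟩
        rw [hmem', ← h6]
        refine ⟨⟨?_, ?_⟩, h3⟩
        · by_contra h0
          have h7 : m = 0 := by omega
          rw [h7, mul_zero] at hm
          omega
        · rw [hy, Nat.le_div_iff_mul_le hq, mul_comm, ← hm]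
          omega
    refine (Finset.card_le_card hsub).trans ((Finset.card_union_le _ _).trans ?_)
    rw [Finset.card_image_of_injective _ hinj, Nat.card_Icc]
    omega

theorem UN_logpow (g : ℕ) : Tendsto (fun x : ℕ => (Real.log x) ^ g / x) atTop (𝓝 0) := by
  have h := (Real.isLittleO_pow_log_id_atTop (n := g)).tendsto_div_nhds_zero
  exact h.comp (tendsto_natCast_atTop_atTop (R := ℝ))

/-- Let `(F(b), q) = 1`. Then `F'_i(x) = F_i(q x + b)` is again a system without fixed prime divisor: each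
`F'_i` is irreducible over `ℚ` and primitive (a prime dividing all its coefficients divides
`F_i(b)`, so does not divide `q`, and modulo such a prime `x ↦ q x + b` is invertible, while `F_i` is
primitive); same degrees, leading coefficients multiplied by `q^deg`. For `p ∣ q` the product `∏ F'_i` has
no root modulo `p` (`F'(a) ≡ F(b)`), for `p ∤ q` it has `ω_F(p)` roots, so
`bhTrunc F' 1 z = bhTrunc F q z` (also for the primes `p ∣ q`) and `bhConst F' 1 = bhConst F q`. Finally
(`b < q` wlog, `cntF F q b = cntF F q (b % q)`) `cntF F q b x = cntF F' 1 0 ⌊(x-b)/q⌋ + O(1)` (the term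
`m = 0`), and `⌊(x-b)/q⌋ log^(-g)(…) ~ (x/q) log^(-g) x`. -/
theorem bh_sub (h : ∀ (g : ℕ) (F : Fin g → ℤ[X]), Sys F → BHClass F 1) (g : ℕ)
    (F : Fin g → ℤ[X]) (hF : Sys F) (hN : NoFix F) (q : ℕ) (hq : Squarefree q) : BHClass F q := by
  intro b hb
  have hq0 : q ≠ 0 := hq.ne_zero
  have hqpos : 0 < q := Nat.pos_of_ne_zero hq0
  have hqr : (0 : ℝ) < q := by exact_mod_cast hqpos
  set F' : Fin g → ℤ[X] := fun i => (F i).comp (UN_L q b) with hF'
  have h1 := h g F' (UN_sys F hF q b hq0 hb) 0 (by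
    rw [Nat.cast_one]
    exact isCoprime_one_right)
  have hconst : bhConst F' 1 = bhConst F q := by
    unfold bhConst
    rw [UN_bh F q b hb]
  have hdeg : ∏ i, ((F' i).natDegree : ℝ) = ∏ i, ((F i).natDegree : ℝ) := by
    refine Finset.prod_congr rfl fun i _ => ?_
    rw [hF']
    simp only
    rw [natDegree_comp, UN_L_deg q b hq0, mul_one]
  rw [hconst, hdeg, Nat.cast_one, one_mul] at h1
  -- the variable `y = (x - b)/q`
  have hy : Tendsto (fun x : ℕ => (x - b) / q) atTop atTop := by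
    rw [tendsto_atTop]
    intro m
    filter_upwards [eventually_ge_atTop (q * m + b)] with x hx
    rw [Nat.le_div_iff_mul_le hqpos, mul_comm]
    omega
  have h2 := h1.comp hy
  -- `y/x → 1/q`
  have hyx : Tendsto (fun x : ℕ => (((x - b) / q : ℕ) : ℝ) / x) atTop (𝓝 (1 / q)) := by
    have hlow : Tendsto (fun x : ℕ => 1 / (q : ℝ) - ((b : ℝ) / q + 1) / x) atTop (𝓝 (1 / q)) := by
      have h3 : Tendsto (fun x : ℕ => ((b : ℝ) / q + 1) / (x : ℝ)) atTop (𝓝 0) :=
        tendsto_const_div_atTop_nhds_zero_nat _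
      have h4 := h3.const_sub (1 / (q : ℝ))
      simpa using h4
    refine tendsto_of_tendsto_of_tendsto_of_le_of_le' hlow tendsto_const_nhds ?_ ?_
    · filter_upwards [eventually_ge_atTop (b + 1)] with x hx
      have hx0 : (0 : ℝ) < x := by
        have : 0 < x := by omega
        exact_mod_cast this
      have h5 : ((x : ℝ) - b) / q - 1 ≤ (((x - b) / q : ℕ) : ℝ) := by
        have h6 : x - b < ((x - b) / q + 1) * q := by
          have := Nat.lt_mul_div_succ (x - b) hqpos
          rw [mul_comm]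
          exact this
        have h7 : ((x - b : ℕ) : ℝ) < ((((x - b) / q : ℕ) : ℝ) + 1) * q := by exact_mod_cast h6
        rw [Nat.cast_sub (by omega : b ≤ x)] at h7
        have h8 : ((x : ℝ) - b) / q < (((x - b) / q : ℕ) : ℝ) + 1 := (div_lt_iff₀ hqr).2 h7
        linarith
      rw [le_div_iff₀ hx0]
      refine le_trans (le_of_eq ?_) h5
      field_simp
      ring
    · filter_upwards [eventually_ge_atTop (b + 1)] with x hx
      have hx0 : (0 : ℝ) < x := by
        have : 0 < x := by omega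
        exact_mod_cast this
      have h5 : (((x - b) / q : ℕ) : ℝ) ≤ ((x - b : ℕ) : ℝ) / q := Nat.cast_div_le
      have h6 : ((x - b : ℕ) : ℝ) ≤ x := by exact_mod_cast Nat.sub_le x b
      rw [div_le_iff₀ hx0]
      calc (((x - b) / q : ℕ) : ℝ) ≤ ((x - b : ℕ) : ℝ) / q := h5
        _ ≤ (x : ℝ) / q := div_le_div_of_nonneg_right h6 hqr.le
        _ = 1 / q * x := by ring
  have hyr : Tendsto (fun x : ℕ => (((x - b) / q : ℕ) : ℝ)) atTop atTop :=
    (tendsto_natCast_atTop_atTop (R := ℝ)).comp hy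
  have hlogy : Tendsto (fun x : ℕ => Real.log (((x - b) / q : ℕ) : ℝ)) atTop atTop :=
    Real.tendsto_log_atTop.comp hyr
  -- `log x/log y → 1`
  have hlog : Tendsto (fun x : ℕ => Real.log x / Real.log (((x - b) / q : ℕ) : ℝ)) atTop (𝓝 1) := by
    have h3 : Tendsto (fun x : ℕ => Real.log ((((x - b) / q : ℕ) : ℝ) / x)) atTop
        (𝓝 (Real.log (1 / q))) :=
      hyx.log (by positivity)
    have h4 := h3.div_atTop hlogy
    have h5 := h4.const_sub 1
    rw [sub_zero] at h5
    refine h5.congr' ?_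
    filter_upwards [hyr.eventually_gt_atTop 1, eventually_ge_atTop 1] with x hx hx1
    have hx0 : (0 : ℝ) < x := by exact_mod_cast hx1
    have hl : 0 < Real.log (((x - b) / q : ℕ) : ℝ) := Real.log_pos hx
    rw [Real.log_div (by linarith) hx0.ne']
    field_simp
    ring
  have hmain := ((h2.mul hyx).mul (hlog.pow g))
  rw [one_pow, mul_one] at hmain
  have herr : Tendsto (fun x : ℕ => ((cntF F q b x : ℝ) - cntF F' 1 0 ((x - b) / q)) *
      (Real.log x) ^ g / x) atTop (𝓝 0) := by
    have h3 : Tendsto (fun x : ℕ => (b : ℝ) * ((Real.log x) ^ g / x)) atTop (𝓝 0) := by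
      have := (UN_logpow g).const_mul (b : ℝ)
      simpa using this
    refine squeeze_zero' ?_ ?_ h3
    · filter_upwards [eventually_ge_atTop (b + 1)] with x hx
      have h4 := (UN_cnt F q b x hqpos (by omega)).1
      have h5 : (cntF F' 1 0 ((x - b) / q) : ℝ) ≤ cntF F q b x := by exact_mod_cast h4
      have h6 : 0 ≤ Real.log x := Real.log_natCast_nonneg x
      have h7 : 0 ≤ (cntF F q b x : ℝ) - cntF F' 1 0 ((x - b) / q) := by linarith
      positivity
    · filter_upwards [eventually_ge_atTop (b + 1)] with x hx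
      have h4 := (UN_cnt F q b x hqpos (by omega)).2
      have h5 : (cntF F q b x : ℝ) ≤ cntF F' 1 0 ((x - b) / q) + b := by exact_mod_cast h4
      have h6 : 0 ≤ Real.log x := Real.log_natCast_nonneg x
      rw [mul_div_assoc]
      exact mul_le_mul_of_nonneg_right (by linarith) (by positivity)
  have hfin := hmain.add herr
  have hval : (bhConst F q / ∏ i, ((F i).natDegree : ℝ)) * (1 / (q : ℝ)) + 0 =
      bhConst F q / (q * ∏ i, ((F i).natDegree : ℝ)) := by
    rw [add_zero, div_mul_div_comm, mul_one, mul_comm (∏ i, ((F i).natDegree : ℝ))]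
  rw [hval] at hfin
  refine hfin.congr' ?_
  filter_upwards [hyr.eventually_gt_atTop 1, eventually_ge_atTop 1] with x hx hx1
  have hx0 : (0 : ℝ) < x := by exact_mod_cast hx1
  have hl : 0 < Real.log (((x - b) / q : ℕ) : ℝ) := Real.log_pos hx
  have hy0 : (0 : ℝ) < (((x - b) / q : ℕ) : ℝ) := by linarith
  simp only [Function.comp_apply]
  rw [div_pow]
  field_simp
  ring

/-- If `p` is a fixed prime divisor of `F_1 ⋯ F_g`, all `n` with `F_1(n), …, F_g(n)` prime satisfy `F_i(n) = p`
for some `i`: the count is bounded. And `bhTrunc F 1 z = 0` for `z > p`. -/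
theorem bh_fixed {g : ℕ} (F : Fin g → ℤ[X]) (hF : Sys F) (hN : ¬ NoFix F) : BHClass F 1 := by
  classical
  unfold NoFix at hN
  push Not at hN
  obtain ⟨p, hp, hall⟩ := hN
  intro b _
  have hw : wF F p = p := by
    unfold wF rootCount
    rw [Finset.filter_true_of_mem (fun (a : ℕ) _ => hall (a : ℤ)), Finset.card_range]
  have hconst : bhConst F 1 = 0 := by
    unfold bhConst
    refine Tendsto.limUnder_eq ?_
    refine (tendsto_const_nhds (x := (0 : ℝ))).congr' ?_
    filter_upwards [eventually_gt_atTop p] with z hz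
    unfold bhTrunc
    symm
    refine Finset.prod_eq_zero (i := p) (Nat.mem_primesBelow.2 ⟨hz, hp⟩) ?_
    have hp0 : (p : ℝ) ≠ 0 := by exact_mod_cast hp.ne_zero
    rw [if_neg hp.not_dvd_one, hw, div_self hp0, sub_self, zero_mul]
  rw [hconst, zero_div]
  set D : ℕ := ∑ i, (F i).natDegree with hD
  have hcnt : ∀ x : ℕ, cntF F 1 b x ≤ D := by
    intro x
    unfold cntF
    have hsub : (AF F x).filter (fun n => n ≡ b [MOD 1]) ⊆
        (Finset.univ : Finset (Fin g)).biUnion
          (fun i => (Finset.Icc 1 x).filter (fun n : ℕ => (F i).eval (n : ℤ) = p)) := by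
      intro n hn
      have h1 := (Finset.mem_filter.1 hn).1
      unfold AF at h1
      rw [Finset.mem_filter] at h1
      obtain ⟨h2, h3⟩ := h1
      have h4 := hall n
      rw [eval_prod, Prime.dvd_finsetProd_iff (Nat.prime_iff_prime_int.1 hp)] at h4
      obtain ⟨i, _, h5⟩ := h4
      obtain ⟨r, hr, hre⟩ := h3 i
      rw [hre] at h5
      have h6 : p ∣ r := by exact_mod_cast h5
      have h7 : p = r := (Nat.prime_dvd_prime_iff_eq hp hr).1 h6
      rw [Finset.mem_biUnion]
      exact ⟨i, Finset.mem_univ _, Finset.mem_filter.2 ⟨h2, by rw [hre, h7]⟩⟩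
    refine (Finset.card_le_card hsub).trans (Finset.card_biUnion_le.trans ?_)
    exact Finset.sum_le_sum fun i _ => card_value_le (hF.deg i) _ _
  have h3 : Tendsto (fun x : ℕ => (D : ℝ) * ((Real.log x) ^ g / x)) atTop (𝓝 0) := by
    have := (UN_logpow g).const_mul (D : ℝ)
    simpa using this
  refine squeeze_zero (fun x => ?_) (fun x => ?_) h3
  · have h6 : 0 ≤ Real.log x := Real.log_natCast_nonneg x
    positivity
  · have h6 : 0 ≤ Real.log x := Real.log_natCast_nonneg x
    rw [mul_div_assoc]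
    exact mul_le_mul_of_nonneg_right (by exact_mod_cast hcnt x) (by positivity)

/-- There is no admissible `N`. -/
theorem aa_fixed {g : ℕ} (F : Fin g → ℤ[X]) (hN : ¬ NoFix F) (G : ℤ[X]) : AlmostAll F G := by
  classical
  unfold NoFix at hN
  push Not at hN
  obtain ⟨p, hp, hall⟩ := hN
  intro ε hε
  refine ⟨0, fun Y _ => ?_⟩
  have h1 : ∀ N : ℕ, ¬ Admissible F G N := by
    intro N hA
    refine hA.2 p hp fun n => ?_
    rw [eval_mul]
    exact (hall n).mul_right _
  have h2 : (Finset.Icc 1 Y).filter (fun N => Admissible F G N ∧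
      ε * (mainT F G N * SS F G N) < |(primeCount F G N : ℝ) - mainT F G N * SS F G N|) = ∅ := by
    rw [Finset.filter_eq_empty_iff]
    intro N _ h
    exact h1 N h.1
  have h3 : (((Finset.Icc 1 Y).filter (fun N => Admissible F G N ∧
      ε * (mainT F G N * SS F G N) <
        |(primeCount F G N : ℝ) - mainT F G N * SS F G N|)).card : ℝ) = 0 := by
    rw [h2]
    simp
  have h4 : 0 ≤ ε * Y := by positivity
  refine le_trans (le_of_eq ?_) h4
  rw [← h3]

end Pool.Agent.Lib.H33B
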