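import Pool.Agent.Lib.H33B.Defs
import Pool.Agent.Lib.H68T.BA1

/-!
# Chunk V2: the correlations in mean square
-/

open Finset

namespace Pool.Agent.Lib.H33B

open Pool.Agent.Lib.H68T (e BA1_e_add BA1_norm_e BA1_e_int BA1_detect)

theorem V2_conj (x : ℝ) : (starRingEnd ℂ) (e x) = e (-x) := by
  unfold e
  rw [← Complex.exp_conj]
  congr 1
  simp only [map_mul, Complex.conj_ofReal, Complex.conj_I, map_ofNat, Complex.ofReal_neg]
  ring

theorem V2_sq (u : ℤ → ℝ) (s : Finset ℤ) (x : ℝ) :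
    ((‖∑ m ∈ s, (u m : ℂ) * e (m * x)‖ ^ 2 : ℝ) : ℂ) =
      ∑ m ∈ s, ∑ m' ∈ s, ((u m * u m' : ℝ) : ℂ) * e ((m - m') * x) := by
  have h1 : ((‖∑ m ∈ s, (u m : ℂ) * e (m * x)‖ ^ 2 : ℝ) : ℂ) =
      (∑ m ∈ s, (u m : ℂ) * e (m * x)) * (starRingEnd ℂ) (∑ m ∈ s, (u m : ℂ) * e (m * x)) := by
    rw [Complex.mul_conj', Complex.ofReal_pow]
  rw [h1, map_sum, Finset.sum_mul_sum]
  refine Finset.sum_congr rfl fun m _ => Finset.sum_congr rfl fun m' _ => ?_
  rw [map_mul, Complex.conj_ofReal, V2_conj]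
  have h2 : ((m : ℝ) - m') * x = m * x + -(m' * x) := by ring
  rw [h2, BA1_e_add]
  push_cast
  ring

/-- The finite Bessel inequality. -/
theorem V2_bessel (P : ℕ) (hP : 0 < P) (a : ℕ → ℝ) (M : ℤ) :
    ∑ i ∈ range P, ‖∑ j ∈ range P, (a j : ℂ) * e (j * (((i : ℤ) - M : ℤ) / P))‖ ^ 2 =
      P * ∑ j ∈ range P, a j ^ 2 := by
  have hP' : (P : ℝ) ≠ 0 := by exact_mod_cast hP.ne'
  have h1 : ((∑ i ∈ range P, ‖∑ j ∈ range P, (a j : ℂ) * e (j * (((i : ℤ) - M : ℤ) / P))‖ ^ 2 : ℝ) :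
      ℂ) = ((P * ∑ j ∈ range P, a j ^ 2 : ℝ) : ℂ) := by
    rw [Complex.ofReal_sum]
    have h2 : ∀ i ∈ range P,
        ((‖∑ j ∈ range P, (a j : ℂ) * e (j * (((i : ℤ) - M : ℤ) / P))‖ ^ 2 : ℝ) : ℂ) =
        ∑ j ∈ range P, ∑ j' ∈ range P, ((a j * a j' : ℝ) : ℂ) *
          (e (((j : ℝ) - j') * (-M / P)) * e ((i : ℝ) * ((((j : ℤ) - j' : ℤ) : ℝ) / P))) := by
      intro i _
      have h3 : ∑ j ∈ range P, (a j : ℂ) * e (j * (((i : ℤ) - M : ℤ) / P)) =
          ∑ m ∈ (range P).image (fun j : ℕ => (j : ℤ)), ((a m.toNat : ℝ) : ℂ) *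
            e ((m : ℝ) * (((i : ℤ) - M : ℤ) / P)) := by
        rw [Finset.sum_image (fun x _ y _ h => by simpa using h)]
        simp
      rw [h3, V2_sq (fun m => a m.toNat), Finset.sum_image (fun x _ y _ h => by simpa using h)]
      refine Finset.sum_congr rfl fun j _ => ?_
      rw [Finset.sum_image (fun x _ y _ h => by simpa using h)]
      refine Finset.sum_congr rfl fun j' _ => ?_
      rw [← BA1_e_add]
      simp only [Int.toNat_natCast]
      congr 2
      push_cast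
      ring
    rw [Finset.sum_congr rfl h2, Finset.sum_comm]
    have h4 : ∀ j ∈ range P, ∑ i ∈ range P, ∑ j' ∈ range P, ((a j * a j' : ℝ) : ℂ) *
          (e (((j : ℝ) - j') * (-M / P)) * e ((i : ℝ) * ((((j : ℤ) - j' : ℤ) : ℝ) / P))) =
          ((a j ^ 2 : ℝ) : ℂ) * P := by
      intro j hj
      rw [Finset.sum_comm]
      rw [Finset.sum_eq_single_of_mem j hj]
      · have h5 : ∀ i ∈ range P, ((a j * a j : ℝ) : ℂ) *
          (e (((j : ℝ) - j) * (-M / P)) * e ((i : ℝ) * ((((j : ℤ) - j : ℤ) : ℝ) / P))) =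
            ((a j ^ 2 : ℝ) : ℂ) := by
          intro i _
          have h6 : e 0 = 1 := by
            have := BA1_e_int 0
            simpa using this
          simp only [sub_self, zero_mul, Int.cast_zero, zero_div, mul_zero, h6, mul_one]
          congr 1
          ring
        rw [Finset.sum_congr rfl h5, Finset.sum_const, Finset.card_range, nsmul_eq_mul, mul_comm]
      · intro j' hj' hne
        rw [← Finset.mul_sum, ← Finset.mul_sum, BA1_detect P hP, if_neg, mul_zero, mul_zero]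
        rintro ⟨t, ht⟩
        rw [Finset.mem_range] at hj hj'
        have h7 : |(j : ℤ) - j'| < P := by
          rw [abs_lt]
          constructor <;> omega
        rw [ht, abs_mul] at h7
        have h8 : |(P : ℤ)| = P := abs_of_nonneg (by positivity)
        rw [h8] at h7
        have h9 : |t| < 1 := by
          by_contra h
          have : (P : ℤ) * 1 ≤ P * |t| := mul_le_mul_of_nonneg_left (not_lt.1 h) (by positivity)
          omega
        have h10 : t = 0 := Int.abs_lt_one_iff.1 h9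
        rw [h10, mul_zero] at ht
        apply hne
        omega
    rw [Finset.sum_congr rfl h4, ← Finset.sum_mul, mul_comm, ← Complex.ofReal_sum]
    push_cast
    rfl
  exact_mod_cast h1

/-- **Parseval.** Let `P = 4M + 4`, `U(j) = ∑_m u(m) e(m j/P)`, `0 ≤ j < P`. Orthogonality
(`H68T.BA1_detect`) gives `P cor(d) = ∑_j |U(j)|^2 e(-d j/P)` for `|d| ≤ M` (up to the sign of `d`)
and for all `|d| ≤ 2M` (there `cor = 0` for `|d| ≥ M`), and
`P ∑_{d ∈ [-M, M]} cor(d)^2 ≤ ∑_j |U(j)|^4 ≤ S^2 ∑_j |U(j)|^2 = S^2 P ∑ u(m)^2`. Everything is a finite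
computation with `∑_{j < P} e(j k/P) = P` if `P ∣ k` and `0` otherwise. -/
theorem cor_l2 (u : ℤ → ℝ) (M : ℕ) (hu : ∀ m, m ∉ Icc (1 : ℤ) M → u m = 0) (S : ℝ)
    (hS : ∀ θ : ℝ, ‖∑ m ∈ Icc (1 : ℤ) M, (u m : ℂ) * e (m * θ)‖ ≤ S) :
    ∑ d ∈ Icc (-(M : ℤ)) M, (cor u M d) ^ 2 ≤ S ^ 2 * ∑ m ∈ Icc (1 : ℤ) M, u m ^ 2 := by
  obtain ⟨P, hP⟩ : ∃ P : ℕ, P = 4 * M + 4 := ⟨_, rfl⟩
  have hP0 : 0 < P := by omega
  have hP0' : (0 : ℝ) < P := by exact_mod_cast hP0
  set a : ℕ → ℝ := fun j => ‖∑ m ∈ Icc (1 : ℤ) M, (u m : ℂ) * e (m * (j / P))‖ ^ 2 with ha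
  have key : ∀ d : ℤ, |d| ≤ M → ∑ j ∈ range P, (a j : ℂ) * e (j * ((d : ℝ) / P)) =
      P * ((cor u M d : ℝ) : ℂ) := by
    intro d hd
    have h1 : ∀ j ∈ range P, (a j : ℂ) * e (j * ((d : ℝ) / P)) =
        ∑ m ∈ Icc (1 : ℤ) M, ∑ m' ∈ Icc (1 : ℤ) M, ((u m * u m' : ℝ) : ℂ) *
          e ((j : ℝ) * (((m - m' + d : ℤ) : ℝ) / P)) := by
      intro j _
      simp only [ha]
      rw [V2_sq, Finset.sum_mul]
      refine Finset.sum_congr rfl fun m _ => ?_
      rw [Finset.sum_mul]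
      refine Finset.sum_congr rfl fun m' _ => ?_
      rw [mul_assoc, ← BA1_e_add]
      congr 2
      push_cast
      ring
    rw [Finset.sum_congr rfl h1, Finset.sum_comm]
    have h2 : ∀ m ∈ Icc (1 : ℤ) M, ∑ j ∈ range P, ∑ m' ∈ Icc (1 : ℤ) M, ((u m * u m' : ℝ) : ℂ) *
          e ((j : ℝ) * (((m - m' + d : ℤ) : ℝ) / P)) = P * ((u m * u (m + d) : ℝ) : ℂ) := by
      intro m hm
      rw [Finset.sum_comm]
      have h3 : ∀ m' ∈ Icc (1 : ℤ) M, ∑ j ∈ range P, ((u m * u m' : ℝ) : ℂ) *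
          e ((j : ℝ) * (((m - m' + d : ℤ) : ℝ) / P)) =
          if m' = m + d then P * ((u m * u m' : ℝ) : ℂ) else 0 := by
        intro m' hm'
        rw [← Finset.mul_sum, BA1_detect P hP0]
        rw [Finset.mem_Icc] at hm hm'
        have h4 : ((P : ℤ) ∣ m - m' + d) ↔ m' = m + d := by
          constructor
          · rintro ⟨t, ht⟩
            have h7 : |m - m' + d| < P := by
              rw [abs_le] at hd
              rw [abs_lt]
              constructor <;> omega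
            rw [ht, abs_mul] at h7
            have h8 : |(P : ℤ)| = P := abs_of_nonneg (by positivity)
            rw [h8] at h7
            have h9 : |t| < 1 := by
              by_contra h
              have : (P : ℤ) * 1 ≤ P * |t| := mul_le_mul_of_nonneg_left (not_lt.1 h) (by positivity)
              omega
            have h10 : t = 0 := Int.abs_lt_one_iff.1 h9
            rw [h10, mul_zero] at ht
            omega
          · intro h
            rw [h]
            simp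
        by_cases h5 : m' = m + d
        · rw [if_pos (h4.2 h5), if_pos h5, mul_comm]
        · rw [if_neg (fun h => h5 (h4.1 h)), if_neg h5, mul_zero]
      rw [Finset.sum_congr rfl h3, Finset.sum_ite_eq']
      by_cases h6 : m + d ∈ Icc (1 : ℤ) M
      · rw [if_pos h6]
      · rw [if_neg h6, hu _ h6]
        simp
    rw [Finset.sum_congr rfl h2, ← Finset.mul_sum, ← Complex.ofReal_sum]
    rfl
  have h0 : ∑ j ∈ range P, a j = P * ∑ m ∈ Icc (1 : ℤ) M, u m ^ 2 := by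
    have h1 := key 0 (by simp)
    have h6 : e 0 = 1 := by
      have := BA1_e_int 0
      simpa using this
    simp only [Int.cast_zero, zero_div, mul_zero, h6, mul_one] at h1
    have h2 : cor u M 0 = ∑ m ∈ Icc (1 : ℤ) M, u m ^ 2 := by
      unfold cor
      refine Finset.sum_congr rfl fun m _ => ?_
      rw [add_zero]
      ring
    rw [h2] at h1
    exact_mod_cast h1
  have hb := V2_bessel P hP0 a (M : ℤ)
  have hsub : (P : ℝ) ^ 2 * ∑ d ∈ Icc (-(M : ℤ)) M, (cor u M d) ^ 2 ≤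
      ∑ i ∈ range P, ‖∑ j ∈ range P, (a j : ℂ) * e (j * (((i : ℤ) - (M : ℤ) : ℤ) / P))‖ ^ 2 := by
    have h1 : (P : ℝ) ^ 2 * ∑ d ∈ Icc (-(M : ℤ)) M, (cor u M d) ^ 2 =
        ∑ d ∈ Icc (-(M : ℤ)) M, ‖∑ j ∈ range P, (a j : ℂ) * e (j * ((d : ℝ) / P))‖ ^ 2 := by
      rw [Finset.mul_sum]
      refine Finset.sum_congr rfl fun d hd => ?_
      rw [Finset.mem_Icc] at hd
      rw [key d (abs_le.2 hd), norm_mul, Complex.norm_real, Complex.norm_natCast, mul_pow,
        Real.norm_eq_abs, sq_abs]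
    rw [h1]
    have h2 : ∑ i ∈ range P, ‖∑ j ∈ range P, (a j : ℂ) * e (j * (((i : ℤ) - (M : ℤ) : ℤ) / P))‖ ^ 2 =
        ∑ d ∈ (range P).image (fun i : ℕ => (i : ℤ) - (M : ℤ)),
          ‖∑ j ∈ range P, (a j : ℂ) * e (j * ((d : ℝ) / P))‖ ^ 2 := by
      rw [Finset.sum_image (fun x _ y _ h => by
        have h3 : (x : ℤ) - M = y - M := h
        omega)]
    rw [h2]
    refine Finset.sum_le_sum_of_subset_of_nonneg ?_ fun _ _ _ => sq_nonneg _
    intro d hd
    rw [Finset.mem_Icc] at hd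
    refine Finset.mem_image.2 ⟨(d + M).toNat, ?_, ?_⟩
    · rw [Finset.mem_range]
      omega
    · omega
  have h3 : ∑ j ∈ range P, a j ^ 2 ≤ S ^ 2 * (P * ∑ m ∈ Icc (1 : ℤ) M, u m ^ 2) := by
    rw [← h0, Finset.mul_sum]
    refine Finset.sum_le_sum fun j _ => ?_
    have h4 : 0 ≤ a j := sq_nonneg _
    have h5 : a j ≤ S ^ 2 := pow_le_pow_left₀ (norm_nonneg _) (hS _) 2
    rw [sq (a j)]
    exact mul_le_mul_of_nonneg_right h5 h4
  rw [hb] at hsub
  have h4 : (P : ℝ) ^ 2 * ∑ d ∈ Icc (-(M : ℤ)) M, (cor u M d) ^ 2 ≤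
      (P : ℝ) ^ 2 * (S ^ 2 * ∑ m ∈ Icc (1 : ℤ) M, u m ^ 2) := by
    refine hsub.trans ?_
    have := mul_le_mul_of_nonneg_left h3 hP0'.le
    calc _ ≤ _ := this
      _ = _ := by ring
  exact le_of_mul_le_mul_left h4 (by positivity)

end Pool.Agent.Lib.H33B
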