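import Pool.Agent.Lib.H33B.V1
import Pool.Agent.Lib.H33B.V2
import Pool.Agent.Lib.H33B.V3

/-!
# Chunk V4: the correlations over products `c h_1 ⋯ h_k`
-/

open Finset

namespace Pool.Agent.Lib.H33B

open Pool.Agent.Lib.H68T (e)

theorem V4_abs (u : ℤ → ℝ) (M : ℕ) (hu : ∀ m, m ∉ Icc (1 : ℤ) M → u m = 0) (d : ℤ) :
    cor u M d = cor u M |d| := by
  rcases abs_cases d with ⟨h, _⟩ | ⟨h, _⟩
  · rw [h]
  · rw [h, cor_neg u M hu]

/-- Cauchy-Schwarz over the products. -/
theorem V4_cs (φ : ℕ → ℝ) (B : ℝ) (k X : ℕ) (hX : 1 ≤ X)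
    (hB : ∀ T : Finset ℕ, (∀ t ∈ T, 1 ≤ t) → ∑ t ∈ T, φ t ^ 2 ≤ B ^ 2) (hB0 : 0 ≤ B) :
    ∑ g ∈ Fintype.piFinset (fun _ : Fin k => Icc 1 X), φ (∏ i, g i) ≤
      Real.sqrt ((X : ℝ) ^ k * (1 + Real.log X) ^ (k ^ 2)) * B := by
  classical
  set A := Fintype.piFinset (fun _ : Fin k => Icc 1 X) with hA
  set T := A.image (fun g : Fin k → ℕ => ∏ i, g i) with hT
  set r : ℕ → ℝ := fun t => ((A.filter (fun g : Fin k → ℕ => ∏ i, g i = t)).card : ℝ) with hr
  have hmaps : ∀ g ∈ A, (∏ i, g i) ∈ T := fun g hg => Finset.mem_image_of_mem _ hg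
  have h1 : ∑ g ∈ A, φ (∏ i, g i) = ∑ t ∈ T, r t * φ t := by
    rw [← Finset.sum_fiberwise_of_maps_to hmaps]
    refine Finset.sum_congr rfl fun t _ => ?_
    have h2 : ∀ g ∈ A.filter (fun g : Fin k → ℕ => ∏ i, g i = t), φ (∏ i, g i) = φ t := by
      intro g hg
      rw [(Finset.mem_filter.1 hg).2]
    rw [Finset.sum_congr rfl h2, Finset.sum_const, nsmul_eq_mul]
  have h3 : ∑ t ∈ T, r t ^ 2 ≤ (X : ℝ) ^ k * (1 + Real.log X) ^ (k ^ 2) := by
    have h4 := prod_energy k X hX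
    have h5 : (((A ×ˢ A).filter
        (fun p : (Fin k → ℕ) × (Fin k → ℕ) => ∏ i, p.1 i = ∏ i, p.2 i)).card : ℝ) =
        ∑ t ∈ T, r t ^ 2 := by
      have hm : ∀ p ∈ (A ×ˢ A).filter
          (fun p : (Fin k → ℕ) × (Fin k → ℕ) => ∏ i, p.1 i = ∏ i, p.2 i), (∏ i, p.1 i) ∈ T := by
        intro p hp
        exact hmaps _ (Finset.mem_product.1 (Finset.mem_filter.1 hp).1).1
      rw [Finset.card_eq_sum_card_fiberwise hm]
      push_cast
      refine Finset.sum_congr rfl fun t _ => ?_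
      have h6 : ((A ×ˢ A).filter
          (fun p : (Fin k → ℕ) × (Fin k → ℕ) => ∏ i, p.1 i = ∏ i, p.2 i)).filter
            (fun p => ∏ i, p.1 i = t) = (A.filter (fun g : Fin k → ℕ => ∏ i, g i = t)) ×ˢ
              (A.filter (fun g : Fin k → ℕ => ∏ i, g i = t)) := by
        ext p
        simp only [Finset.mem_filter, Finset.mem_product]
        constructor
        · rintro ⟨⟨⟨a1, a2⟩, a3⟩, a4⟩
          exact ⟨⟨a1, a4⟩, a2, a3 ▸ a4⟩
        · rintro ⟨⟨a1, a4⟩, a2, a3⟩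
          exact ⟨⟨⟨a1, a2⟩, a4.trans a3.symm⟩, a4⟩
      rw [h6, Finset.card_product]
      push_cast
      simp only [hr]
      ring
    rw [← h5]
    exact h4
  have hT1 : ∀ t ∈ T, 1 ≤ t := by
    intro t ht
    obtain ⟨g, hg, rfl⟩ := Finset.mem_image.1 ht
    rw [hA, Fintype.mem_piFinset] at hg
    exact Nat.one_le_iff_ne_zero.2 (Finset.prod_ne_zero_iff.2 fun i _ => by
      have := (Finset.mem_Icc.1 (hg i)).1
      omega)
  rw [h1]
  have h7 : (∑ t ∈ T, r t * φ t) ^ 2 ≤ ((X : ℝ) ^ k * (1 + Real.log X) ^ (k ^ 2)) * B ^ 2 :=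
    (Finset.sum_mul_sq_le_sq_mul_sq _ _ _).trans
      (mul_le_mul h3 (hB T hT1) (Finset.sum_nonneg fun _ _ => sq_nonneg _)
        (le_trans (Finset.sum_nonneg fun _ _ => sq_nonneg _) h3))
  have h8 : Real.sqrt ((X : ℝ) ^ k * (1 + Real.log X) ^ (k ^ 2)) * B =
      Real.sqrt (((X : ℝ) ^ k * (1 + Real.log X) ^ (k ^ 2)) * B ^ 2) := by
    rw [Real.sqrt_mul' _ (sq_nonneg B), Real.sqrt_sq hB0]
  rw [h8]
  exact Real.le_sqrt_of_sq_le h7

/-- The `h` with some `h_i = 0`: at most `k (2X)^(k-1)`, each term at most `E` (`cor_le`). The others: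
`2^k` sign patterns, `cor` is even (`cor_neg`), so their sum is at most
`2^k ∑_{h ∈ [1,X]^k} |cor(c ∏ h_i)| = 2^k ∑_{t ≥ 1} r(t) |cor(c t)|`, `r(t) = #{h ∈ [1,X]^k : ∏ h_i = t}`.
Cauchy-Schwarz: `∑ r(t)^2` is the left side of `prod_energy`, and `∑_{t ≥ 1} cor(c t)^2 ≤
∑_{d ∈ [-M,M]} cor(d)^2 ≤ S^2 E` (`c ≠ 0`, so the `c t` are different; `cor d = 0` for `|d| ≥ M`;
`cor_l2`). -/
theorem hsum (u : ℤ → ℝ) (M : ℕ) (hu : ∀ m, m ∉ Icc (1 : ℤ) M → u m = 0) (E S : ℝ)
    (hE0 : 0 < E) (hE : ∑ m ∈ Icc (1 : ℤ) M, u m ^ 2 ≤ E) (hS0 : 0 ≤ S)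
    (hS : ∀ θ : ℝ, ‖∑ m ∈ Icc (1 : ℤ) M, (u m : ℂ) * e (m * θ)‖ ≤ S) (k X : ℕ) (hk : 1 ≤ k)
    (hX : 1 ≤ X) (c : ℤ) (hc : c ≠ 0) :
    ∑ h ∈ Fintype.piFinset (fun _ : Fin k => Ioo (-(X : ℤ)) X), |cor u M (c * ∏ i, h i)| ≤
      k * (2 * X) ^ (k - 1) * E +
        2 ^ k * (Real.sqrt ((X : ℝ) ^ k * (1 + Real.log X) ^ (k ^ 2)) * (S * Real.sqrt E)) := by
  classical
  set Z := Fintype.piFinset (fun _ : Fin k => Ioo (-(X : ℤ)) X) with hZ
  set A := Fintype.piFinset (fun _ : Fin k => Icc 1 X) with hA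
  set φ : ℕ → ℝ := fun t => |cor u M (|c| * (t : ℤ))| with hφ
  rw [← Finset.sum_filter_add_sum_filter_not Z (fun h => ∃ i, h i = 0)]
  refine add_le_add ?_ ?_
  · -- some `h_i = 0`
    have h1 : ∀ h ∈ Z.filter (fun h => ∃ i, h i = 0), |cor u M (c * ∏ i, h i)| ≤ E := fun h _ =>
      (cor_le u M hu _).trans hE
    refine (Finset.sum_le_sum h1).trans ?_
    rw [Finset.sum_const, nsmul_eq_mul]
    refine mul_le_mul_of_nonneg_right ?_ hE0.le
    have h2 : Z.filter (fun h => ∃ i, h i = 0) ⊆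
        (Finset.univ : Finset (Fin k)).biUnion (fun i => Z.filter (fun h => h i = 0)) := by
      intro h hh
      rw [Finset.mem_filter] at hh
      obtain ⟨hh, i, hi⟩ := hh
      exact Finset.mem_biUnion.2 ⟨i, Finset.mem_univ _, Finset.mem_filter.2 ⟨hh, hi⟩⟩
    have h3 : ∀ i ∈ (Finset.univ : Finset (Fin k)), (Z.filter (fun h => h i = 0)).card ≤
        (2 * X) ^ (k - 1) := by
      intro i _
      have h4 : Z.filter (fun h => h i = 0) ⊆ Fintype.piFinset
          (fun j : Fin k => if j = i then {0} else Ioo (-(X : ℤ)) X) := by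
        intro h hh
        rw [Finset.mem_filter, hZ, Fintype.mem_piFinset] at hh
        rw [Fintype.mem_piFinset]
        intro j
        by_cases hj : j = i
        · rw [if_pos hj, hj, hh.2]
          exact Finset.mem_singleton_self _
        · rw [if_neg hj]
          exact hh.1 j
      refine (Finset.card_le_card h4).trans ?_
      rw [Fintype.card_piFinset]
      have h5 : ∏ j : Fin k, (if j = i then ({0} : Finset ℤ) else Ioo (-(X : ℤ)) X).card =
          ∏ j ∈ Finset.univ.erase i, (Ioo (-(X : ℤ)) X).card := by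
        rw [← Finset.mul_prod_erase Finset.univ _ (Finset.mem_univ i)]
        rw [if_pos rfl, Finset.card_singleton, one_mul]
        refine Finset.prod_congr rfl fun j hj => ?_
        rw [if_neg (Finset.ne_of_mem_erase hj)]
      rw [h5, Finset.prod_const, Finset.card_erase_of_mem (Finset.mem_univ i), Finset.card_univ,
        Fintype.card_fin]
      refine Nat.pow_le_pow_left ?_ _
      rw [Int.card_Ioo]
      omega
    have h6 := (Finset.card_le_card h2).trans (Finset.card_biUnion_le.trans (Finset.sum_le_sum h3))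
    rw [Finset.sum_const, Finset.card_univ, Fintype.card_fin, smul_eq_mul] at h6
    exact_mod_cast h6
  · -- all `h_i ≠ 0`
    set Z' := Z.filter (fun h => ¬ ∃ i, h i = 0) with hZ'
    have hval : ∀ h ∈ Z', |cor u M (c * ∏ i, h i)| = φ (∏ i, (h i).natAbs) := by
      intro h _
      simp only [hφ]
      rw [V4_abs u M hu, abs_mul]
      congr 3
      rw [Finset.abs_prod]
      push_cast
      rfl
    have hmaps : ∀ h ∈ Z', (fun i => (h i).natAbs) ∈ A := by
      intro h hh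
      rw [hZ', Finset.mem_filter, hZ, Fintype.mem_piFinset] at hh
      obtain ⟨h1, h2⟩ := hh
      push Not at h2
      rw [hA, Fintype.mem_piFinset]
      intro i
      have h3 := Finset.mem_Ioo.1 (h1 i)
      have h4 := h2 i
      rw [Finset.mem_Icc]
      constructor <;> omega
    rw [Finset.sum_congr rfl hval, ← Finset.sum_fiberwise_of_maps_to hmaps]
    have hfib : ∀ g ∈ A, ∑ h ∈ Z'.filter (fun h => (fun i => (h i).natAbs) = g),
        φ (∏ i, (h i).natAbs) ≤ 2 ^ k * φ (∏ i, g i) := by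
      intro g _
      have h1 : ∀ h ∈ Z'.filter (fun h => (fun i => (h i).natAbs) = g),
          φ (∏ i, (h i).natAbs) = φ (∏ i, g i) := by
        intro h hh
        have h2 := (Finset.mem_filter.1 hh).2
        rw [← h2]
      rw [Finset.sum_congr rfl h1, Finset.sum_const, nsmul_eq_mul]
      refine mul_le_mul_of_nonneg_right ?_ (abs_nonneg _)
      have h3 : Z'.filter (fun h => (fun i => (h i).natAbs) = g) ⊆
          Fintype.piFinset (fun i : Fin k => {((g i : ℕ) : ℤ), -((g i : ℕ) : ℤ)}) := by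
        intro h hh
        have h2 := (Finset.mem_filter.1 hh).2
        rw [Fintype.mem_piFinset]
        intro i
        have h4 : (h i).natAbs = g i := congrFun h2 i
        rw [← h4, Finset.mem_insert, Finset.mem_singleton]
        rcases Int.natAbs_eq (h i) with h5 | h5
        · exact Or.inl h5
        · exact Or.inr h5
      have h4 := Finset.card_le_card h3
      rw [Fintype.card_piFinset] at h4
      have h5 : ∏ i : Fin k, ({((g i : ℕ) : ℤ), -((g i : ℕ) : ℤ)} : Finset ℤ).card ≤ 2 ^ k := by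
        refine (Finset.prod_le_prod' fun i _ => Finset.card_le_two).trans ?_
        rw [Finset.prod_const, Finset.card_univ, Fintype.card_fin]
      exact_mod_cast h4.trans h5
    refine (Finset.sum_le_sum hfib).trans ?_
    rw [← Finset.mul_sum]
    refine mul_le_mul_of_nonneg_left ?_ (by positivity)
    refine V4_cs φ (S * Real.sqrt E) k X hX ?_ (by positivity)
    intro T hT
    have h1 : ∑ t ∈ T, φ t ^ 2 = ∑ d ∈ T.image (fun t : ℕ => |c| * (t : ℤ)), (cor u M d) ^ 2 := by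
      rw [Finset.sum_image]
      · refine Finset.sum_congr rfl fun t _ => ?_
        simp only [hφ]
        rw [sq_abs]
      · intro t _ t' _ h
        have h2 : |c| * (t : ℤ) = |c| * (t' : ℤ) := h
        have h3 := mul_left_cancel₀ (abs_ne_zero.2 hc) h2
        exact_mod_cast h3
    rw [h1]
    have h4 : ∑ d ∈ T.image (fun t : ℕ => |c| * (t : ℤ)), (cor u M d) ^ 2 =
        ∑ d ∈ (T.image (fun t : ℕ => |c| * (t : ℤ))).filter (fun d => d ∈ Icc (-(M : ℤ)) M),
          (cor u M d) ^ 2 := by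
      rw [Finset.sum_filter]
      refine Finset.sum_congr rfl fun d _ => ?_
      split_ifs with h
      · rfl
      · rw [cor_eq_zero u M hu d]
        · norm_num
        · by_contra h5
          exact h (Finset.mem_Icc.2 (abs_le.1 (not_le.1 h5).le))
    rw [h4]
    have h5 : ∑ d ∈ (T.image (fun t : ℕ => |c| * (t : ℤ))).filter
        (fun d => d ∈ Icc (-(M : ℤ)) M), (cor u M d) ^ 2 ≤
        ∑ d ∈ Icc (-(M : ℤ)) M, (cor u M d) ^ 2 :=
      Finset.sum_le_sum_of_subset_of_nonneg (fun d hd => (Finset.mem_filter.1 hd).2)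
        fun _ _ _ => sq_nonneg _
    refine h5.trans ((cor_l2 u M hu S hS).trans ?_)
    rw [mul_pow, Real.sq_sqrt hE0.le]
    exact mul_le_mul_of_nonneg_left hE (sq_nonneg _)

end Pool.Agent.Lib.H33B
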